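import Pool.Agent.NKL.Defs

set_option autoImplicit false

/-!
# NKL / ACC : elementary facts about one round

* `cnt_union_le`, `cnt_mono`: cardinalities of filters.
* `valid_nxt`: let `A = acc S X`.  If `A` has no cell on the line `(v,l)`, then
  `cnt (S ∪ A) v l = cnt S v l ≤ cap v`.  Otherwise take `q ∈ A` with `line v q = l`:
  `cnt (S ∪ A) v l ≤ cnt S v l + cnt A v l ≤ cnt S v l + cnt X v l ≤ cap v` (`A ⊆ X`, `q` accepted).
* `acc_mem_of_alone`: if `q ∈ X`, `q` is not blocked and `q` is the only cell of `X` on every line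
  through `q`, then `cnt S + cnt X ≤ (cap - 1) + 1`, so `q ∈ acc S X`.
* `mass_nonneg`, `mass_le`: `0 ≤ f ≤ 2` and a line has at most `N` cells.
* `total_eq`: the cells are partitioned by `line vr` (`Finset.sum_fiberwise_of_maps_to`).
* `card_le`: the rows have at most `N` cells and there are `N` rows.
-/

namespace Pool.Agent.NKL

open Finset

variable {α V Λ : Type} [Fintype α] [DecidableEq α] [Fintype V] [DecidableEq V] [DecidableEq Λ]
  {N : ℕ}

theorem cnt_mono (Y : Sys α V Λ N) {S S' : Finset α} (h : S ⊆ S') (v : V) (l : Λ) :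
    Y.cnt S v l ≤ Y.cnt S' v l := by
  exact Finset.card_le_card (Finset.filter_subset_filter _ h)

theorem cnt_union_le (Y : Sys α V Λ N) (S S' : Finset α) (v : V) (l : Λ) :
    Y.cnt (S ∪ S') v l ≤ Y.cnt S v l + Y.cnt S' v l := by
  unfold Sys.cnt
  rw [Finset.filter_union]
  exact Finset.card_union_le _ _

theorem acc_sub (Y : Sys α V Λ N) (S X : Finset α) : Y.acc S X ⊆ X := by
  exact Finset.filter_subset _ _

theorem sub_nxt (Y : Sys α V Λ N) (S : Finset α) (ω : Fin N → Option α) : S ⊆ Y.nxt S ω := by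
  exact Finset.subset_union_left

theorem valid_empty (Y : Sys α V Λ N) : Y.Valid ∅ := by
  intro v l
  simp [Sys.cnt]

theorem valid_nxt (Y : Sys α V Λ N) {S : Finset α} (hS : Y.Valid S) (ω : Fin N → Option α) :
    Y.Valid (Y.nxt S ω) := by
  intro v l
  have h1 := cnt_union_le Y S (Y.acc S (Y.props ω)) v l
  have h0 : Y.nxt S ω = S ∪ Y.acc S (Y.props ω) := rfl
  rw [h0]
  by_cases hq : ∃ q ∈ Y.acc S (Y.props ω), Y.line v q = l
  · obtain ⟨q, hqA, rfl⟩ := hq
    have h2 := cnt_mono Y (acc_sub Y S (Y.props ω)) v (Y.line v q)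
    have h3 := (Finset.mem_filter.1 hqA).2 v
    omega
  · have h2 : Y.cnt (Y.acc S (Y.props ω)) v l = 0 := by
      unfold Sys.cnt
      rw [Finset.card_eq_zero, Finset.filter_eq_empty_iff]
      intro q hqA hql
      exact hq ⟨q, hqA, hql⟩
    have h3 := hS v l
    omega

theorem acc_mem_of_alone (Y : Sys α V Λ N) {S X : Finset α} {q : α} (hq : q ∈ X)
    (hb : ¬ Y.Blk S q) (h : ∀ v, ∀ q' ∈ X, Y.line v q' = Y.line v q → q' = q) :
    q ∈ Y.acc S X := by
  refine Finset.mem_filter.2 ⟨hq, fun v => ?_⟩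
  have h1 : Y.cnt S v (Y.line v q) < Y.cap v := by
    by_contra hc
    exact hb (Or.inr ⟨v, not_lt.1 hc⟩)
  have h2 : Y.cnt X v (Y.line v q) ≤ 1 := by
    unfold Sys.cnt
    rw [Finset.card_le_one]
    intro a ha b hb'
    obtain ⟨ha1, ha2⟩ := Finset.mem_filter.1 ha
    obtain ⟨hb1, hb2⟩ := Finset.mem_filter.1 hb'
    rw [h v a ha1 ha2, h v b hb1 hb2]
  omega

theorem mass_nonneg {Y : Sys α V Λ N} (hY : Y.Ok) (v : V) (l : Λ) : 0 ≤ Y.mass v l := by
  exact div_nonneg (Finset.sum_nonneg fun p _ => hY.f_nonneg p) (Nat.cast_nonneg N)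

theorem mass_le {Y : Sys α V Λ N} (hY : Y.Ok) (v : V) (l : Λ) : Y.mass v l ≤ 2 := by
  unfold Sys.mass
  refine div_le_of_le_mul₀ (Nat.cast_nonneg N) (by norm_num) ?_
  calc ∑ p ∈ Y.cells v l, Y.f p ≤ ∑ _p ∈ Y.cells v l, (2 : ℝ) := Finset.sum_le_sum fun p _ => hY.f_le p
    _ = (Y.cells v l).card * 2 := by rw [Finset.sum_const, nsmul_eq_mul]
    _ ≤ 2 * N := by
      have : ((Y.cells v l).card : ℝ) ≤ N := by exact_mod_cast hY.len v l
      linarith

theorem sum_f_cells_le {Y : Sys α V Λ N} (hY : Y.Ok) (v : V) (l : Λ) :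
    ∑ p ∈ Y.cells v l, Y.f p ≤ 2 * N := by
  calc ∑ p ∈ Y.cells v l, Y.f p ≤ ∑ _p ∈ Y.cells v l, (2 : ℝ) := Finset.sum_le_sum fun p _ => hY.f_le p
    _ = (Y.cells v l).card * 2 := by rw [Finset.sum_const, nsmul_eq_mul]
    _ ≤ 2 * N := by
      have : ((Y.cells v l).card : ℝ) ≤ N := by exact_mod_cast hY.len v l
      linarith

theorem total_eq (Y : Sys α V Λ N) :
    ∑ l ∈ univ.image (Y.line Y.vr), Y.mass Y.vr l = Y.total := by
  unfold Sys.mass Sys.total
  rw [← Finset.sum_div]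
  congr 1
  exact Finset.sum_fiberwise_of_maps_to (fun p _ => Finset.mem_image_of_mem _ (Finset.mem_univ p)) _

theorem total_le {Y : Sys α V Λ N} (hY : Y.Ok) : Y.total ≤ 2 * N := by
  rw [← total_eq]
  calc ∑ l ∈ univ.image (Y.line Y.vr), Y.mass Y.vr l
      ≤ ∑ _l ∈ univ.image (Y.line Y.vr), (2 : ℝ) := Finset.sum_le_sum fun l _ => mass_le hY _ l
    _ = (univ.image (Y.line Y.vr)).card * 2 := by rw [Finset.sum_const, nsmul_eq_mul]
    _ ≤ 2 * N := by
      have : ((univ.image (Y.line Y.vr)).card : ℝ) ≤ N := by exact_mod_cast hY.rows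
      linarith

theorem card_le {Y : Sys α V Λ N} (hY : Y.Ok) : Fintype.card α ≤ N ^ 2 := by
  have h1 : (univ : Finset α).card = ∑ x : Fin N, (univ.filter fun p => Y.row p = x).card :=
    Finset.card_eq_sum_card_fiberwise fun p _ => Finset.mem_univ _
  rw [← Finset.card_univ, h1]
  calc ∑ x : Fin N, (univ.filter fun p => Y.row p = x).card ≤ ∑ _x : Fin N, N :=
        Finset.sum_le_sum fun x _ => hY.rowlen x
    _ = N ^ 2 := by
      rw [Finset.sum_const, Finset.card_univ, Fintype.card_fin, smul_eq_mul, sq]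

end Pool.Agent.NKL
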