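import Pool.Agent.NKL.Defs

set_option autoImplicit false

/-!
# NKL / CHA : the ideal chain

Assume `0 ≤ θ`, `0 ≤ m`, `1 ≤ c`, `0 < φ ≤ 1`, `θ R m ≤ (1-φ) c` and `θ m ≤ φ`.
Prove by induction on `i ≤ R`:  (a) `qq i j ≥ 0`, (b) `∑_{j ≤ c} qq i j = 1`,
(c) `∑_{j ≤ c} j qq i j = i θ m`.
From (a), (b), (c) at `i ≤ R`: `c qq i c ≤ ∑ j qq i j = i θ m ≤ R θ m ≤ (1-φ) c`, so
`FF i = 1 - qq i c ≥ φ`, and `FF i ≤ 1`; hence `0 ≤ β := θ m / FF i ≤ θ m / φ ≤ 1`.
Step: for `j < c`, `qq (i+1) j = q_j (1-β) + q_{j-1} β`, and `qq (i+1) c = q_c + q_{c-1} β`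
(`q_{-1} = 0`).  So `qq (i+1) ≥ 0`.
Sum: `∑_{j<c} q_j (1-β) + β ∑_{j<c-1} q_j + q_c + q_{c-1} β = ∑_{j ≤ c} q_j = 1`.
Mean: `(1-β) ∑_{j<c} j q_j + β ∑_{j<c} (j+1) q_j + c q_c = mean + β ∑_{j<c} q_j = mean + β FF i
= mean + θ m`.
(It is convenient to first prove for every function `g` the duality
`∑_{j ≤ c} qq (i+1) j * g j = ∑_{j<c} qq i j * ((1-β) g j + β g (j+1)) + qq i c * g c`
(`qq_dual`, no assumptions except `1 ≤ c`): with `g = 1` and `g = j` this gives (b) and (c), and CHU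
uses it too.)
-/

namespace Pool.Agent.NKL

open Finset

theorem qq_dual (θ m : ℝ) (c i : ℕ) (hc : 1 ≤ c) (g : ℕ → ℝ) :
    ∑ j ∈ range (c + 1), qq θ m c (i + 1) j * g j =
      ∑ j ∈ range c, qq θ m c i j * ((1 - bb θ m c i) * g j + bb θ m c i * g (j + 1))
        + qq θ m c i c * g c := by
  obtain ⟨c', rfl⟩ : ∃ c', c = c' + 1 := ⟨c - 1, by omega⟩
  have hβ : θ * m / (1 - qq θ m (c' + 1) i (c' + 1)) = bb θ m (c' + 1) i := rfl
  have h1 : ∀ j ∈ range (c' + 1), qq θ m (c' + 1) (i + 1) j * g j =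
      qq θ m (c' + 1) i j * (1 - bb θ m (c' + 1) i) * g j +
        (if j = 0 then 0 else qq θ m (c' + 1) i (j - 1) * bb θ m (c' + 1) i) * g j := by
    intro j hj
    rw [mem_range] at hj
    have : qq θ m (c' + 1) (i + 1) j = qq θ m (c' + 1) i j * (1 - bb θ m (c' + 1) i) +
        (if j = 0 then 0 else qq θ m (c' + 1) i (j - 1) * bb θ m (c' + 1) i) := by
      rw [qq, if_pos hj, hβ]
    rw [this, add_mul]
  have h2 : qq θ m (c' + 1) (i + 1) (c' + 1) = qq θ m (c' + 1) i (c' + 1) +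
      qq θ m (c' + 1) i c' * bb θ m (c' + 1) i := by
    rw [qq, if_neg (lt_irrefl _), if_pos rfl, hβ, if_neg (Nat.succ_ne_zero _),
      Nat.add_sub_cancel]
  rw [sum_range_succ, sum_congr rfl h1, h2, sum_add_distrib]
  have h3 : ∑ j ∈ range (c' + 1),
      (if j = 0 then 0 else qq θ m (c' + 1) i (j - 1) * bb θ m (c' + 1) i) * g j =
      ∑ j ∈ range c', qq θ m (c' + 1) i j * bb θ m (c' + 1) i * g (j + 1) := by
    rw [sum_range_succ', if_pos rfl, zero_mul, add_zero]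
    refine sum_congr rfl fun j _ => ?_
    rw [if_neg (Nat.succ_ne_zero _), Nat.add_sub_cancel]
  have h4 : ∑ j ∈ range (c' + 1), qq θ m (c' + 1) i j *
      ((1 - bb θ m (c' + 1) i) * g j + bb θ m (c' + 1) i * g (j + 1)) =
      ∑ j ∈ range (c' + 1), qq θ m (c' + 1) i j * (1 - bb θ m (c' + 1) i) * g j +
      ∑ j ∈ range (c' + 1), qq θ m (c' + 1) i j * bb θ m (c' + 1) i * g (j + 1) := by
    rw [← sum_add_distrib]
    exact sum_congr rfl fun j _ => by ring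
  rw [h3, h4, sum_range_succ (fun j => qq θ m (c' + 1) i j * bb θ m (c' + 1) i * g (j + 1))]
  ring

/-- the assumptions on a chain -/
structure ChOk (θ m : ℝ) (c R : ℕ) (φ : ℝ) : Prop where
  θ0 : 0 ≤ θ
  m0 : 0 ≤ m
  c1 : 1 ≤ c
  φ0 : 0 < φ
  φ1 : φ ≤ 1
  mass : θ * R * m ≤ (1 - φ) * c
  step : θ * m ≤ φ

variable {θ m φ : ℝ} {c R : ℕ}

/-- the three statements of the induction -/
private def ChaP (θ m : ℝ) (c i : ℕ) : Prop :=
  (∀ j, 0 ≤ qq θ m c i j) ∧ ∑ j ∈ range (c + 1), qq θ m c i j = 1 ∧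
    ∑ j ∈ range (c + 1), qq θ m c i j * j = i * θ * m

private theorem cha_FF (h : ChOk θ m c R φ) {i : ℕ} (hi : i ≤ R) (hP : ChaP θ m c i) :
    φ ≤ FF θ m c i ∧ FF θ m c i ≤ 1 := by
  obtain ⟨ha, _, hc⟩ := hP
  have hcpos : (0 : ℝ) < c := by exact_mod_cast h.c1
  refine ⟨?_, ?_⟩
  · have h1 : qq θ m c i c * c ≤ ∑ j ∈ range (c + 1), qq θ m c i j * j :=
      single_le_sum (f := fun j : ℕ => qq θ m c i j * (j : ℝ))
        (fun j _ => mul_nonneg (ha j) (Nat.cast_nonneg j)) (mem_range.mpr (Nat.lt_succ_self c))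
    have h2 : (i : ℝ) * θ * m ≤ θ * R * m := by
      have : (i : ℝ) ≤ R := by exact_mod_cast hi
      have h3 : 0 ≤ θ * m := mul_nonneg h.θ0 h.m0
      nlinarith [mul_le_mul_of_nonneg_right this h3]
    have h4 : qq θ m c i c * c ≤ (1 - φ) * c := by
      rw [hc] at h1
      exact h1.trans (h2.trans h.mass)
    have h5 : qq θ m c i c ≤ 1 - φ := le_of_mul_le_mul_right h4 hcpos
    unfold FF
    linarith
  · unfold FF
    linarith [ha c]

private theorem cha_bb (h : ChOk θ m c R φ) {i : ℕ} (hF : φ ≤ FF θ m c i) :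
    0 ≤ bb θ m c i ∧ bb θ m c i ≤ θ * m / φ ∧ bb θ m c i ≤ 1 := by
  have h3 : 0 ≤ θ * m := mul_nonneg h.θ0 h.m0
  have hF0 : 0 < FF θ m c i := lt_of_lt_of_le h.φ0 hF
  have h2 : bb θ m c i ≤ θ * m / φ := by
    unfold bb
    exact div_le_div_of_nonneg_left h3 h.φ0 hF
  refine ⟨div_nonneg h3 hF0.le, h2, h2.trans ?_⟩
  rw [div_le_one h.φ0]
  exact h.step

private theorem cha_main (h : ChOk θ m c R φ) (i : ℕ) (hi : i ≤ R) : ChaP θ m c i := by
  induction i with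
  | zero =>
    refine ⟨fun j => ?_, ?_, ?_⟩
    · simp only [qq]
      split_ifs
      · exact zero_le_one
      · exact le_rfl
    · simp [qq]
    · simp [qq]
  | succ i ih =>
    have hP := ih (by omega)
    obtain ⟨hF, hF1⟩ := cha_FF h (by omega) hP
    obtain ⟨hb0, _, hb1⟩ := cha_bb h hF
    obtain ⟨ha, hb, hc⟩ := hP
    have hF0 : 0 < FF θ m c i := lt_of_lt_of_le h.φ0 hF
    have hbF : bb θ m c i * FF θ m c i = θ * m := by
      unfold bb
      exact div_mul_cancel₀ _ hF0.ne'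
    have hlow : ∑ j ∈ range c, qq θ m c i j = FF θ m c i := by
      rw [sum_range_succ] at hb
      unfold FF
      linarith
    refine ⟨fun j => ?_, ?_, ?_⟩
    · have hβ : θ * m / (1 - qq θ m c i c) = bb θ m c i := rfl
      have hx : 0 ≤ (if j = 0 then 0 else qq θ m c i (j - 1) * bb θ m c i) := by
        split_ifs
        · exact le_rfl
        · exact mul_nonneg (ha _) hb0
      rw [qq, hβ]
      split_ifs with h1 h2 h3 h4
      · exact add_nonneg (mul_nonneg (ha _) (by linarith)) le_rfl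
      · exact add_nonneg (mul_nonneg (ha _) (by linarith)) (mul_nonneg (ha _) hb0)
      · exact add_nonneg (ha _) le_rfl
      · exact add_nonneg (ha _) (mul_nonneg (ha _) hb0)
      · exact le_rfl
    · have hd := qq_dual θ m c i h.c1 (fun _ => 1)
      simp only [mul_one] at hd
      have e : ∑ j ∈ range c, qq θ m c i j * (1 - bb θ m c i + bb θ m c i) =
          ∑ j ∈ range c, qq θ m c i j := sum_congr rfl fun j _ => by ring
      rw [sum_range_succ] at hb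
      rw [hd, e, hb]
    · have hd := qq_dual θ m c i h.c1 (fun j => (j : ℝ))
      rw [hd]
      rw [sum_range_succ] at hc
      have e : ∑ j ∈ range c, qq θ m c i j *
          ((1 - bb θ m c i) * (j : ℝ) + bb θ m c i * ((j + 1 : ℕ) : ℝ)) =
          ∑ j ∈ range c, qq θ m c i j * (j : ℝ) + bb θ m c i * ∑ j ∈ range c, qq θ m c i j := by
        rw [mul_sum, ← sum_add_distrib]
        refine sum_congr rfl fun j _ => ?_
        push_cast
        ring
      rw [e, hlow, hbF]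
      push_cast
      linarith

theorem qq_nonneg (h : ChOk θ m c R φ) {i : ℕ} (hi : i ≤ R) (j : ℕ) : 0 ≤ qq θ m c i j :=
  (cha_main h i hi).1 j

theorem qq_sum (h : ChOk θ m c R φ) {i : ℕ} (hi : i ≤ R) :
    ∑ j ∈ range (c + 1), qq θ m c i j = 1 :=
  (cha_main h i hi).2.1

theorem qq_mean (h : ChOk θ m c R φ) {i : ℕ} (hi : i ≤ R) :
    ∑ j ∈ range (c + 1), qq θ m c i j * j = i * θ * m :=
  (cha_main h i hi).2.2

theorem FF_ge (h : ChOk θ m c R φ) {i : ℕ} (hi : i ≤ R) : φ ≤ FF θ m c i :=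
  (cha_FF h hi (cha_main h i hi)).1

theorem FF_le (h : ChOk θ m c R φ) {i : ℕ} (hi : i ≤ R) : FF θ m c i ≤ 1 :=
  (cha_FF h hi (cha_main h i hi)).2

theorem bb_nonneg (h : ChOk θ m c R φ) {i : ℕ} (hi : i ≤ R) : 0 ≤ bb θ m c i :=
  (cha_bb h (FF_ge h hi)).1

theorem bb_le (h : ChOk θ m c R φ) {i : ℕ} (hi : i ≤ R) : bb θ m c i ≤ θ * m / φ :=
  (cha_bb h (FF_ge h hi)).2.1

theorem bb_le_one (h : ChOk θ m c R φ) {i : ℕ} (hi : i ≤ R) : bb θ m c i ≤ 1 :=
  (cha_bb h (FF_ge h hi)).2.2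

end Pool.Agent.NKL
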