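import Pool.Agent.NKL.CHA

set_option autoImplicit false

/-!
# NKL / CHB : a full line is unlikely if its mass is small

`qq_le_choose`: induction on `i`, using `qq (i+1) j ≤ qq i j + β qq i (j-1)`
(both for `j < c` and `j = c`; all `qq` are nonnegative) and
`C(i,j) β^j + β C(i,j-1) β^(j-1) = C(i+1,j) β^j`.
`FF_far`: apply it with `β = 2 θ m` (`bb_le` with `φ = 1/2`), `j = c`, `C(i,c) ≤ i^c`
(`Nat.choose_le_pow`) and `i ≤ R`.
-/

namespace Pool.Agent.NKL

open Finset

variable {θ m φ : ℝ} {c R : ℕ}

theorem qq_le_choose (h : ChOk θ m c R φ) {β : ℝ} (hβ : ∀ i < R, bb θ m c i ≤ β)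
    {i : ℕ} (hi : i ≤ R) (j : ℕ) : qq θ m c i j ≤ i.choose j * β ^ j := by
  induction i generalizing j with
  | zero =>
    rcases j with _ | j
    · simp [qq]
    · simp [qq]
  | succ i ih =>
    have hi' : i ≤ R := by omega
    have hb0 := bb_nonneg h hi'
    have hbβ := hβ i (by omega)
    have hβ0 : 0 ≤ β := hb0.trans hbβ
    have hb : θ * m / (1 - qq θ m c i c) = bb θ m c i := rfl
    have hq := fun j => qq_nonneg h hi' j
    have ih' := ih hi'
    have key0 : ∀ j, qq θ m c (i + 1) j ≤ qq θ m c i j + (if j = 0 then 0 else qq θ m c i (j - 1) * β) := by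
      intro j
      have h2 : 0 ≤ (if j = 0 then 0 else qq θ m c i (j - 1) * β) := by
        split_ifs
        · exact le_rfl
        · exact mul_nonneg (hq _) hβ0
      have h1 : (if j = 0 then 0 else qq θ m c i (j - 1) * bb θ m c i) ≤
          (if j = 0 then 0 else qq θ m c i (j - 1) * β) := by
        split_ifs
        · exact le_rfl
        · exact mul_le_mul_of_nonneg_left hbβ (hq _)
      have h3 : qq θ m c (i + 1) j = if j < c then qq θ m c i j * (1 - bb θ m c i)
        + (if j = 0 then 0 else qq θ m c i (j - 1) * bb θ m c i)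
        else if j = c then qq θ m c i c
        + (if j = 0 then 0 else qq θ m c i (j - 1) * bb θ m c i) else 0 := rfl
      rw [h3]
      by_cases hj : j < c
      · rw [if_pos hj]
        have h4 : qq θ m c i j * (1 - bb θ m c i) ≤ qq θ m c i j := by
          nlinarith [mul_nonneg (hq j) hb0]
        linarith
      · rw [if_neg hj]
        by_cases hj' : j = c
        · rw [if_pos hj']
          have h5 : qq θ m c i c = qq θ m c i j := by rw [hj']
          rw [h5]
          linarith
        · rw [if_neg hj']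
          have := hq j
          linarith
    refine (key0 j).trans ?_
    rcases j with _ | k
    · have h1 := ih' 0
      simpa using h1
    · have h1 := ih' (k + 1)
      have h2 := ih' k
      rw [if_neg (Nat.succ_ne_zero k), Nat.add_sub_cancel]
      have h3 : qq θ m c i k * β ≤ (i.choose k * β ^ k) * β := mul_le_mul_of_nonneg_right h2 hβ0
      rw [Nat.choose_succ_succ]
      push_cast
      calc qq θ m c i (k + 1) + qq θ m c i k * β
          ≤ i.choose (k + 1) * β ^ (k + 1) + (i.choose k * β ^ k) * β := add_le_add h1 h3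
        _ = (i.choose k + i.choose (k + 1)) * β ^ (k + 1) := by ring

theorem FF_far (h : ChOk θ m c R (1 / 2)) {i : ℕ} (hi : i ≤ R) :
    1 - (2 * θ * R * m) ^ c ≤ FF θ m c i := by
  have h1 : qq θ m c i c ≤ i.choose c * (θ * m / (1 / 2)) ^ c :=
    qq_le_choose h (fun k hk => bb_le h hk.le) hi c
  have hθ := h.θ0
  have hm := h.m0
  have h2 : (i.choose c : ℝ) ≤ (i : ℝ) ^ c := by
    exact_mod_cast Nat.choose_le_pow i c
  have h3 : (i : ℝ) ≤ R := by exact_mod_cast hi
  have h4 : (i.choose c : ℝ) * (θ * m / (1 / 2)) ^ c ≤ (2 * θ * R * m) ^ c := by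
    calc (i.choose c : ℝ) * (θ * m / (1 / 2)) ^ c ≤ (R : ℝ) ^ c * (θ * m / (1 / 2)) ^ c := by
          gcongr
          exact h2.trans (by gcongr)
      _ = (2 * θ * R * m) ^ c := by
          rw [← mul_pow]
          congr 1
          ring
  unfold FF
  linarith

end Pool.Agent.NKL
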