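import Pool.Agent.NKL.CHA

set_option autoImplicit false

/-!
# NKL / CHU : the backward functions

* `uu_full`: induction on `n` / definition.
* `uu_nonneg`, `uu_le`: induction on `n`; `uu 0 j ≤ (FF T)⁻¹ ≤ φ⁻¹`, and `uu (n+1) j` is a convex
  combination of two values of `uu n` (as `0 ≤ bb ≤ 1`) or `0`.
* `uu_step`: `T - i = (T - (i+1)) + 1` and `T - ((T-(i+1))+1) = i`.
* `uu_top`: for `n ≤ T` one has `∑_{j ≤ c} qq (T-n) j * uu T n j = 1`: for `n = 0` this is
  `(∑_{j<c} qq T j) / FF T = (1 - qq T c) / FF T = 1`; the step is `qq_dual` with `g = uu T n`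
  (`uu T n c = 0`).  For `n = T`: `qq 0 j = 1[j=0]`, so `uu T T 0 = 1`.
-/

namespace Pool.Agent.NKL

open Finset

variable {θ m φ : ℝ} {c R : ℕ}

theorem uu_full (θ m : ℝ) (c T n : ℕ) {j : ℕ} (hj : c ≤ j) : uu θ m c T n j = 0 := by
  rcases n with _ | n
  · rw [uu, if_neg (not_lt.2 hj)]
  · rw [uu, if_neg (not_lt.2 hj)]

theorem uu_step (θ m : ℝ) (c T i : ℕ) (hi : i < T) (j : ℕ) :
    uu θ m c T (T - i) j = if j < c then (1 - bb θ m c i) * uu θ m c T (T - (i + 1)) j
      + bb θ m c i * uu θ m c T (T - (i + 1)) (j + 1) else 0 := by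
  have h1 : T - i = (T - (i + 1)) + 1 := by omega
  have h2 : T - ((T - (i + 1)) + 1) = i := by omega
  rw [h1, uu, h2]

theorem uu_nonneg (h : ChOk θ m c R φ) {T : ℕ} (hT : T ≤ R) {n : ℕ} (hn : n ≤ T) (j : ℕ) :
    0 ≤ uu θ m c T n j := by
  induction n generalizing j with
  | zero =>
    rw [uu]
    split_ifs
    · exact inv_nonneg.2 (h.φ0.le.trans (FF_ge h hT))
    · exact le_rfl
  | succ n ih =>
    rw [uu]
    split_ifs
    · have h1 : T - (n + 1) ≤ R := (Nat.sub_le _ _).trans hT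
      have h2 := bb_nonneg h h1
      have h3 := bb_le_one h h1
      exact add_nonneg (mul_nonneg (by linarith) (ih (by omega) j))
        (mul_nonneg h2 (ih (by omega) (j + 1)))
    · exact le_rfl

theorem uu_le (h : ChOk θ m c R φ) {T : ℕ} (hT : T ≤ R) {n : ℕ} (hn : n ≤ T) (j : ℕ) :
    uu θ m c T n j ≤ φ⁻¹ := by
  induction n generalizing j with
  | zero =>
    rw [uu]
    split_ifs
    · exact inv_anti₀ h.φ0 (FF_ge h hT)
    · exact inv_nonneg.2 h.φ0.le
  | succ n ih =>
    rw [uu]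
    split_ifs
    · have h1 : T - (n + 1) ≤ R := (Nat.sub_le _ _).trans hT
      have h2 := bb_nonneg h h1
      have h3 := bb_le_one h h1
      have h4 := mul_le_mul_of_nonneg_left (ih (by omega) j) (by linarith : 0 ≤ 1 - bb θ m c (T - (n + 1)))
      have h5 := mul_le_mul_of_nonneg_left (ih (by omega) (j + 1)) h2
      linarith
    · exact inv_nonneg.2 h.φ0.le

theorem uu_top (h : ChOk θ m c R φ) {T : ℕ} (hT : T ≤ R) : uu θ m c T T 0 = 1 := by
  have key : ∀ n ≤ T, ∑ j ∈ range (c + 1), qq θ m c (T - n) j * uu θ m c T n j = 1 := by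
    intro n
    induction n with
    | zero =>
      intro _
      have h1 : FF θ m c T ≠ 0 := (lt_of_lt_of_le h.φ0 (FF_ge h hT)).ne'
      have h2 := qq_sum h hT
      rw [sum_range_succ] at h2
      rw [sum_range_succ, uu_full θ m c T 0 le_rfl, mul_zero, add_zero, Nat.sub_zero]
      have h3 : ∑ j ∈ range c, qq θ m c T j * uu θ m c T 0 j =
          (∑ j ∈ range c, qq θ m c T j) * (FF θ m c T)⁻¹ := by
        rw [sum_mul]
        refine sum_congr rfl fun j hj => ?_
        rw [uu, if_pos (mem_range.1 hj)]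
      have h4 : ∑ j ∈ range c, qq θ m c T j = FF θ m c T := by
        rw [FF]
        linarith
      rw [h3, h4, mul_inv_cancel₀ h1]
    | succ n ih =>
      intro hn
      have h1 := ih (by omega)
      have h2 : T - n = (T - (n + 1)) + 1 := by omega
      rw [h2, qq_dual θ m c _ h.c1, uu_full θ m c T n le_rfl, mul_zero, add_zero] at h1
      rw [sum_range_succ, uu_full θ m c T (n + 1) le_rfl, mul_zero, add_zero, ← h1]
      refine sum_congr rfl fun j hj => ?_
      rw [uu, if_pos (mem_range.1 hj)]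
  have h1 := key T le_rfl
  rw [Nat.sub_self, sum_eq_single_of_mem 0 (mem_range.2 (Nat.succ_pos c))] at h1
  · rw [qq, if_pos rfl, one_mul] at h1
    exact h1
  · intro j _ hj
    rw [qq, if_neg hj, zero_mul]

end Pool.Agent.NKL
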