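import Pool.Agent.NKL.PRP

set_option autoImplicit false

/-!
# NKL / REJ : rejected proposals are rare

`Ex_pairs_line`: for fixed `p` and `v` the sum over `q ≠ p` on the line of `p` of
`Ex 1[p ∈ X] 1[q ∈ X] ≤ π p ∑_q π q ≤ π p ρ`.
`Ex_rej`: if `p` is blocked, then `π p = 0`, and the event has probability at most
`P(p ∈ X) = π p = 0`.  Otherwise, if `p ∈ X` is rejected, by `acc_mem_of_alone` there are `v` and
`q ∈ X`, `q ≠ p`, on the line `line v p`; so the indicator is at most
`∑_v ∑_{q ≠ p, line v q = line v p} 1[p ∈ X] 1[q ∈ X]`.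
-/

namespace Pool.Agent.NKL

open Finset Pool.Agent.ChPi

variable {α V Λ : Type} [Fintype α] [DecidableEq α] [Fintype V] [DecidableEq V] [DecidableEq Λ]
  {N : ℕ} {Y : Sys α V Λ N} {S : Finset α} {π : α → ℝ} {κ ρ : ℝ}

theorem Ex_rej (h : Y.Adm S π κ ρ) (p : α) :
    Ex (Y.law π) (fun ω => if p ∈ Y.props ω ∧ p ∉ Y.acc S (Y.props ω) then (1 : ℝ) else 0)
      ≤ π p * (Fintype.card V * ρ) := by
  have hw : ∀ v o, 0 ≤ Y.law π v o := law_nonneg h
  by_cases hb : Y.Blk S p
  · have h0 : π p = 0 := h.blk p hb
    calc Ex (Y.law π) (fun ω => if p ∈ Y.props ω ∧ p ∉ Y.acc S (Y.props ω) then (1 : ℝ) else 0)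
        ≤ Ex (Y.law π) (fun ω => if p ∈ Y.props ω then (1 : ℝ) else 0) := by
          apply L.Ex_mono hw
          intro ω
          by_cases h1 : p ∈ Y.props ω
          · rw [if_pos h1]
            split_ifs
            · exact le_refl _
            · exact zero_le_one
          · rw [if_neg h1, if_neg (fun hh => h1 hh.1)]
      _ = π p * (Fintype.card V * ρ) := by rw [Ex_mem h, h0, zero_mul]
  · calc Ex (Y.law π) (fun ω => if p ∈ Y.props ω ∧ p ∉ Y.acc S (Y.props ω) then (1 : ℝ) else 0)
        ≤ Ex (Y.law π) (fun ω => ∑ v : V, ∑ q ∈ (Y.cells v (Y.line v p)).erase p,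
            (if p ∈ Y.props ω then (1 : ℝ) else 0) * (if q ∈ Y.props ω then (1 : ℝ) else 0)) := by
          apply L.Ex_mono hw
          intro ω
          have hterm : ∀ q : α, 0 ≤ (if p ∈ Y.props ω then (1 : ℝ) else 0)
              * (if q ∈ Y.props ω then (1 : ℝ) else 0) := by
            intro q
            split_ifs <;> norm_num
          by_cases h1 : p ∈ Y.props ω ∧ p ∉ Y.acc S (Y.props ω)
          · rw [if_pos h1]
            obtain ⟨h2, h3⟩ := h1
            have h4 : ∃ v, ∃ q' ∈ Y.props ω, Y.line v q' = Y.line v p ∧ q' ≠ p := by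
              by_contra hcon
              push Not at hcon
              exact h3 (acc_mem_of_alone Y h2 hb hcon)
            obtain ⟨v, q', hq', hl, hne⟩ := h4
            have hmem : q' ∈ (Y.cells v (Y.line v p)).erase p := by
              rw [Finset.mem_erase]
              exact ⟨hne, by unfold Sys.cells; simp [hl]⟩
            have e1 : (if p ∈ Y.props ω then (1 : ℝ) else 0)
                * (if q' ∈ Y.props ω then (1 : ℝ) else 0) = 1 := by
              rw [if_pos h2, if_pos hq', one_mul]
            have e2 : (if p ∈ Y.props ω then (1 : ℝ) else 0)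
                * (if q' ∈ Y.props ω then (1 : ℝ) else 0)
                ≤ ∑ q ∈ (Y.cells v (Y.line v p)).erase p,
                  (if p ∈ Y.props ω then (1 : ℝ) else 0)
                    * (if q ∈ Y.props ω then (1 : ℝ) else 0) :=
              Finset.single_le_sum (f := fun q => (if p ∈ Y.props ω then (1 : ℝ) else 0)
                * (if q ∈ Y.props ω then (1 : ℝ) else 0)) (fun q _ => hterm q) hmem
            have e3 : ∑ q ∈ (Y.cells v (Y.line v p)).erase p,
                  (if p ∈ Y.props ω then (1 : ℝ) else 0)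
                    * (if q ∈ Y.props ω then (1 : ℝ) else 0)
                ≤ ∑ v : V, ∑ q ∈ (Y.cells v (Y.line v p)).erase p,
                  (if p ∈ Y.props ω then (1 : ℝ) else 0)
                    * (if q ∈ Y.props ω then (1 : ℝ) else 0) :=
              Finset.single_le_sum (f := fun v => ∑ q ∈ (Y.cells v (Y.line v p)).erase p,
                  (if p ∈ Y.props ω then (1 : ℝ) else 0)
                    * (if q ∈ Y.props ω then (1 : ℝ) else 0))
                (fun v _ => Finset.sum_nonneg fun q _ => hterm q) (Finset.mem_univ v)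
            rw [e1] at e2
            exact e2.trans e3
          · rw [if_neg h1]
            exact Finset.sum_nonneg fun v _ => Finset.sum_nonneg fun q _ => hterm q
      _ = ∑ v : V, ∑ q ∈ (Y.cells v (Y.line v p)).erase p,
            Ex (Y.law π) (fun ω => (if p ∈ Y.props ω then (1 : ℝ) else 0)
              * (if q ∈ Y.props ω then (1 : ℝ) else 0)) := by
          rw [L.Ex_sum]
          refine Finset.sum_congr rfl fun v _ => ?_
          rw [L.Ex_sum]
      _ ≤ ∑ v : V, ∑ q ∈ (Y.cells v (Y.line v p)).erase p, π p * π q := by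
          refine Finset.sum_le_sum fun v _ => Finset.sum_le_sum fun q hq => ?_
          exact Ex_mem_mem h (Finset.ne_of_mem_erase hq).symm
      _ ≤ ∑ _v : V, π p * ρ := by
          refine Finset.sum_le_sum fun v _ => ?_
          rw [← Finset.mul_sum]
          refine mul_le_mul_of_nonneg_left ?_ (h.nonneg p)
          have hrt := h.line (v, Y.line v p)
          unfold Sys.rt at hrt
          refine le_trans ?_ hrt
          exact Finset.sum_le_sum_of_subset_of_nonneg (Finset.erase_subset _ _)
            (fun q _ _ => h.nonneg q)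
      _ = π p * (Fintype.card V * ρ) := by
          rw [Finset.sum_const, nsmul_eq_mul, Finset.card_univ]
          ring

/-- proposals of cells which are already taken have probability zero -/
theorem Ex_taken (h : Y.Adm S π κ ρ) {p : α} (hp : p ∈ S) :
    Ex (Y.law π) (fun ω => if p ∈ Y.props ω then (1 : ℝ) else 0) = 0 := by
  rw [Ex_mem h, h.blk p (Or.inl hp)]

end Pool.Agent.NKL
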