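import Pool.Agent.NKL.RAT
import Pool.Agent.NKL.REJ

/-!
# NKL / CTX : expected number of points after one round

Write `π = pi θ i S`, `κ = θW/N`, `ρ = 3θ/φ`, `ξ = θ e/φ + s κ`, `X = props ω`.
`|nxt S ω| ≥ |S| + |acc \ S| ≥ |S| + ∑_p 1[p ∈ X] - ∑_p 1[p ∈ X, p ∉ acc] - ∑_{p ∈ S} 1[p ∈ X]`.
Expectation (`Ex_mem`, `Ex_rej`, `Ex_taken`): `≥ |S| + ∑_p π p - ∑_p π p * (b ρ)`.
`∑_p π p = ∑_{l ∈ rows} rt (vr,l)` (partition by `line vr`) is at most `N ρ` (at most `N` lines), and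
at least `∑_{l not full} (θ mass/FF - ξ) ≥ θ Xi θ i 0 S - N ξ` (`pi_rate`; `Xi θ i 0 S` is the sum
of `mass * FF⁻¹` over the lines which are not full; rt ≥ 0 for the full lines), and
`Xi θ i 0 S ≥ total - e N` by `Trk` with `T = i`.  Total:
`Ex ≥ |S| + θ total - θ e N - N ξ - N b ρ²`, and with `κ ≤ θ²`
`θ e + θ e/φ + s θ² + 9 b θ²/φ² ≤ (CC - 1) (θ² + θ e)`.
-/

set_option autoImplicit false

namespace Pool.Agent.NKL

open Finset Pool.Agent.ChPi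

variable {α V Λ : Type} [Fintype α] [DecidableEq α] [Fintype V] [DecidableEq V] [DecidableEq Λ]
  {N : ℕ} {Y : Sys α V Λ N} {θ φ W e : ℝ} {R b s i : ℕ} {S : Finset α}

private theorem ctx_point (Y : Sys α V Λ N) (S : Finset α) (ω : Fin N → Option α) :
    (S.card : ℝ) + ∑ p, (if p ∈ Y.props ω then (1 : ℝ) else 0) ≤ ((Y.nxt S ω).card : ℝ) +
      (∑ p, (if p ∈ Y.props ω ∧ p ∉ Y.acc S (Y.props ω) then (1 : ℝ) else 0) +
        ∑ p ∈ S, (if p ∈ Y.props ω then (1 : ℝ) else 0)) := by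
  have h1 : ((Y.nxt S ω).card : ℝ) + ((S ∩ Y.acc S (Y.props ω)).card : ℝ) =
      (S.card : ℝ) + ((Y.acc S (Y.props ω)).card : ℝ) := by
    exact_mod_cast Finset.card_union_add_card_inter S (Y.acc S (Y.props ω))
  have h2 : ((Y.acc S (Y.props ω)).card : ℝ) = ∑ p, (if p ∈ Y.acc S (Y.props ω) then (1 : ℝ) else 0) := by
    rw [Finset.sum_boole]
    congr 2
    ext p
    simp
  have h3 : ((S ∩ Y.acc S (Y.props ω)).card : ℝ) ≤ ∑ p ∈ S, (if p ∈ Y.props ω then (1 : ℝ) else 0) := by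
    rw [Finset.sum_boole]
    have : S ∩ Y.acc S (Y.props ω) ⊆ S.filter fun p => p ∈ Y.props ω := by
      intro p hp
      rw [Finset.mem_inter] at hp
      exact Finset.mem_filter.2 ⟨hp.1, acc_sub Y S _ hp.2⟩
    exact_mod_cast Finset.card_le_card this
  have h4 : ∑ p, (if p ∈ Y.props ω then (1 : ℝ) else 0) ≤
      ∑ p, (if p ∈ Y.acc S (Y.props ω) then (1 : ℝ) else 0) +
      ∑ p, (if p ∈ Y.props ω ∧ p ∉ Y.acc S (Y.props ω) then (1 : ℝ) else 0) := by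
    rw [← Finset.sum_add_distrib]
    refine Finset.sum_le_sum fun p _ => ?_
    by_cases ha : p ∈ Y.acc S (Y.props ω)
    · simp [ha]
      split_ifs <;> norm_num
    · simp [ha]
  linarith

private theorem ctx_Ex (Y : Sys α V Λ N) {π : α → ℝ} {κ ρ : ℝ} (h : Y.Adm S π κ ρ) :
    (S.card : ℝ) + ∑ p, π p ≤ Ex (Y.law π) (fun ω => ((Y.nxt S ω).card : ℝ)) +
      (∑ p, π p) * (Fintype.card V * ρ) := by
  have h1 := L.Ex_mono (p := Y.law π) (law_nonneg h) (f := fun ω => (S.card : ℝ) +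
    ∑ p, (if p ∈ Y.props ω then (1 : ℝ) else 0)) (g := fun ω => ((Y.nxt S ω).card : ℝ) +
      (∑ p, (if p ∈ Y.props ω ∧ p ∉ Y.acc S (Y.props ω) then (1 : ℝ) else 0) +
        ∑ p ∈ S, (if p ∈ Y.props ω then (1 : ℝ) else 0))) (fun ω => ctx_point Y S ω)
  rw [L.Ex_add (Y.law π) (fun _ => (S.card : ℝ)) (fun ω => ∑ p, (if p ∈ Y.props ω then (1 : ℝ) else 0)),
    L.Ex_const (law_sum Y π),
    L.Ex_sum (Y.law π) univ (fun p ω => (if p ∈ Y.props ω then (1 : ℝ) else 0)),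
    L.Ex_add (Y.law π) (fun ω => ((Y.nxt S ω).card : ℝ)) (fun ω =>
      (∑ p, (if p ∈ Y.props ω ∧ p ∉ Y.acc S (Y.props ω) then (1 : ℝ) else 0) +
        ∑ p ∈ S, (if p ∈ Y.props ω then (1 : ℝ) else 0))),
    L.Ex_add (Y.law π) (fun ω =>
      (∑ p, (if p ∈ Y.props ω ∧ p ∉ Y.acc S (Y.props ω) then (1 : ℝ) else 0)))
        (fun ω => ∑ p ∈ S, (if p ∈ Y.props ω then (1 : ℝ) else 0)),
    L.Ex_sum (Y.law π) univ (fun p ω => (if p ∈ Y.props ω ∧ p ∉ Y.acc S (Y.props ω) then (1 : ℝ) else 0)),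
    L.Ex_sum (Y.law π) S (fun p ω => (if p ∈ Y.props ω then (1 : ℝ) else 0)),
    Finset.sum_congr rfl (fun p _ => Ex_mem h p), Finset.sum_eq_zero (fun p hp => Ex_taken h hp), add_zero] at h1
  have h2 : ∑ p, Ex (Y.law π) (fun ω => if p ∈ Y.props ω ∧ p ∉ Y.acc S (Y.props ω) then (1 : ℝ) else 0) ≤
      (∑ p, π p) * (Fintype.card V * ρ) := by
    rw [Finset.sum_mul]
    exact Finset.sum_le_sum fun p _ => Ex_rej h p
  linarith

private theorem ctx_arith (x T P X θ φ e s b N κ : ℝ) (hs : 0 ≤ s) (hb : 1 ≤ b) (hφ : 0 < φ) (hφ1 : φ ≤ 1) (hN : 0 ≤ N)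
    (hθ : 0 < θ) (he : 0 ≤ e) (M : ℝ) (hM : 2 * (36 * b ^ 2 / φ ^ 2 + 2 * b * s + 2 * b / φ) ≤ M)
    (hκ : κ ≤ θ ^ 2)
    (hlow : θ * X - N * (θ * e / φ + s * κ) ≤ P) (hX : T - e * N ≤ X) (hup : P ≤ N * (3 * θ / φ)) 
    (v : ℝ) (hv : v ≤ b) (hv0 : 0 ≤ v) (hx : P ≤ x + P * (v * (3 * θ / φ))) :
    θ * T - M * (θ ^ 2 + θ * e) * N ≤ x := by
  have h1 : P * (v * (3 * θ / φ)) ≤ N * (9 * b * θ ^ 2 / φ ^ 2) := by
    have h2 : P * (v * (3 * θ / φ)) ≤ N * (3 * θ / φ) * (v * (3 * θ / φ)) :=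
      mul_le_mul_of_nonneg_right hup (by positivity)
    have h3 : N * (3 * θ / φ) * (v * (3 * θ / φ)) ≤ N * (3 * θ / φ) * (b * (3 * θ / φ)) :=
      mul_le_mul_of_nonneg_left (mul_le_mul_of_nonneg_right hv (by positivity)) (by positivity)
    have h4 : N * (3 * θ / φ) * (b * (3 * θ / φ)) = N * (9 * b * θ ^ 2 / φ ^ 2) := by
      field_simp
      ring
    linarith
  have h5 : N * (θ * e / φ + s * κ) ≤ N * (θ * e / φ + s * θ ^ 2) :=
    mul_le_mul_of_nonneg_left (by linarith [mul_le_mul_of_nonneg_left hκ hs]) hN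
  have h6 : θ * (T - e * N) ≤ θ * X := mul_le_mul_of_nonneg_left hX hθ.le
  have h7 : θ * e + θ * e / φ + s * θ ^ 2 + 9 * b * θ ^ 2 / φ ^ 2 ≤ M * (θ ^ 2 + θ * e) := by
    have hφ1' : 1 ≤ 1 / φ := by rw [le_div_iff₀ hφ]; linarith
    have hφ2 : 0 ≤ 1 / φ ^ 2 := by positivity
    have e1 : 1 + 1 / φ ≤ M := by
      have a1 : 2 * b / φ = 2 * (b * (1 / φ)) := by ring
      have a2 : 1 / φ ≤ b * (1 / φ) := le_mul_of_one_le_left (by positivity) hb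
      have a3 : 0 ≤ 36 * b ^ 2 / φ ^ 2 := by positivity
      have a4 : 0 ≤ 2 * b * s := by positivity
      nlinarith
    have e2 : s + 9 * b / φ ^ 2 ≤ M := by
      have a1 : 0 ≤ 2 * b / φ := by positivity
      have a2 : s ≤ b * s := le_mul_of_one_le_left hs hb
      have a3 : 9 * b / φ ^ 2 ≤ 36 * b ^ 2 / φ ^ 2 := by
        refine div_le_div_of_nonneg_right ?_ (by positivity)
        nlinarith
      have a5 : 0 ≤ 36 * b ^ 2 / φ ^ 2 := by positivity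
      nlinarith
    have e3 : θ * e + θ * e / φ + s * θ ^ 2 + 9 * b * θ ^ 2 / φ ^ 2 =
        (1 + 1 / φ) * (θ * e) + (s + 9 * b / φ ^ 2) * θ ^ 2 := by ring
    rw [e3]
    have e4 : (1 + 1 / φ) * (θ * e) ≤ M * (θ * e) := mul_le_mul_of_nonneg_right e1 (by positivity)
    have e5 : (s + 9 * b / φ ^ 2) * θ ^ 2 ≤ M * θ ^ 2 := mul_le_mul_of_nonneg_right e2 (by positivity)
    linarith
  have h8 := mul_le_mul_of_nonneg_right h7 hN
  have h9 : θ * (T - e * N) = θ * T - θ * e * N := by ring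
  rw [h9] at h6
  have h10 : (θ * e + θ * e / φ + s * θ ^ 2 + 9 * b * θ ^ 2 / φ ^ 2) * N =
      θ * e * N + N * (θ * e / φ + s * θ ^ 2) + N * (9 * b * θ ^ 2 / φ ^ 2) := by ring
  rw [h10] at h8
  linarith

theorem Ex_card (h : Y.Hyp θ R b s φ W) (hκ : θ * W / N ≤ θ ^ 2) (hi : i ≤ R) (he : 0 ≤ e)
    (he1 : e ≤ 1) (hS : Y.Valid S) (ht : Y.Trk θ R i e S) :
    (S.card : ℝ) + θ * Y.total - (CC b s φ - 1) * (θ ^ 2 + θ * e) * N ≤
      Ex (Y.law (Y.pi θ i S)) (fun ω => ((Y.nxt S ω).card : ℝ)) := by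
  have hadm := pi_adm h hi he he1 hS ht
  have hEx := ctx_Ex Y hadm
  have hP : ∑ p, Y.pi θ i S p = ∑ l ∈ univ.image (Y.line Y.vr), Y.rt (Y.pi θ i S) (Y.vr, l) :=
    (Finset.sum_fiberwise_of_maps_to (fun p _ => Finset.mem_image_of_mem _ (Finset.mem_univ p)) _).symm
  have hN0 : (0 : ℝ) ≤ N := Nat.cast_nonneg N
  have hrows : ((univ.image (Y.line Y.vr)).card : ℝ) ≤ N := by exact_mod_cast h.ok.rows
  have hρ0 : 0 ≤ 3 * θ / φ := div_nonneg (by linarith [h.θ0]) h.φ0.le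
  have hup : ∑ p, Y.pi θ i S p ≤ N * (3 * θ / φ) := by
    rw [hP]
    calc ∑ l ∈ univ.image (Y.line Y.vr), Y.rt (Y.pi θ i S) (Y.vr, l)
        ≤ ∑ _l ∈ univ.image (Y.line Y.vr), (3 * θ / φ) := Finset.sum_le_sum fun l _ => hadm.line _
      _ = (univ.image (Y.line Y.vr)).card * (3 * θ / φ) := by rw [Finset.sum_const, nsmul_eq_mul]
      _ ≤ N * (3 * θ / φ) := mul_le_mul_of_nonneg_right hrows hρ0
  have hκ0 : 0 ≤ θ * W / N := div_nonneg (mul_nonneg h.θ0.le h.W0) hN0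
  have hξ0 : 0 ≤ θ * e / φ + s * (θ * W / N) :=
    add_nonneg (div_nonneg (mul_nonneg h.θ0.le he) h.φ0.le) (mul_nonneg (Nat.cast_nonneg s) hκ0)
  have hlow : θ * Y.Xi θ i 0 S - N * (θ * e / φ + s * (θ * W / N)) ≤ ∑ p, Y.pi θ i S p := by
    rw [hP]
    have h1 : ∀ l ∈ univ.image (Y.line Y.vr), θ * (Y.mass Y.vr l * uu θ (Y.mass Y.vr l) (Y.cap Y.vr) i 0 (Y.cnt S Y.vr l)) -
        (θ * e / φ + s * (θ * W / N)) ≤ Y.rt (Y.pi θ i S) (Y.vr, l) := by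
      intro l _
      by_cases hc : Y.cnt S Y.vr l < Y.cap Y.vr
      · have h2 := (abs_le.1 (pi_rate h hi he hS ht Y.vr l hc)).1
        have h3 : uu θ (Y.mass Y.vr l) (Y.cap Y.vr) i 0 (Y.cnt S Y.vr l) = (FF θ (Y.mass Y.vr l) (Y.cap Y.vr) i)⁻¹ := by
          show (if Y.cnt S Y.vr l < Y.cap Y.vr then (FF θ (Y.mass Y.vr l) (Y.cap Y.vr) i)⁻¹ else 0) = _
          rw [if_pos hc]
        rw [h3]
        have h4 : bb θ (Y.mass Y.vr l) (Y.cap Y.vr) i =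
            θ * (Y.mass Y.vr l * (FF θ (Y.mass Y.vr l) (Y.cap Y.vr) i)⁻¹) := by
          unfold bb
          rw [div_eq_mul_inv, mul_assoc]
        rw [← h4]
        linarith
      · have h3 : uu θ (Y.mass Y.vr l) (Y.cap Y.vr) i 0 (Y.cnt S Y.vr l) = 0 := by
          show (if Y.cnt S Y.vr l < Y.cap Y.vr then (FF θ (Y.mass Y.vr l) (Y.cap Y.vr) i)⁻¹ else 0) = _
          rw [if_neg hc]
        rw [h3, mul_zero, mul_zero]
        have h5 : 0 ≤ Y.rt (Y.pi θ i S) (Y.vr, l) := Finset.sum_nonneg fun p _ => hadm.nonneg p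
        linarith
    have h6 := Finset.sum_le_sum h1
    rw [Finset.sum_sub_distrib, ← Finset.mul_sum, Finset.sum_const, nsmul_eq_mul] at h6
    have h7 : ((univ.image (Y.line Y.vr)).card : ℝ) * (θ * e / φ + s * (θ * W / N)) ≤
        N * (θ * e / φ + s * (θ * W / N)) := mul_le_mul_of_nonneg_right hrows hξ0
    have h8 : Y.Xi θ i 0 S = ∑ l ∈ univ.image (Y.line Y.vr), Y.mass Y.vr l *
        uu θ (Y.mass Y.vr l) (Y.cap Y.vr) i 0 (Y.cnt S Y.vr l) := rfl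
    rw [h8]
    linarith
  have hX : Y.total - e * N ≤ Y.Xi θ i 0 S := by
    have h1 := ht.2 i le_rfl hi
    rw [Nat.sub_self] at h1
    have h2 := (abs_le.1 h1).1
    linarith
  have hb1 : (1 : ℝ) ≤ b := by exact_mod_cast h.b1
  have hcV : ((Fintype.card V : ℕ) : ℝ) ≤ b := by exact_mod_cast h.cardV
  have hM : 2 * (36 * (b : ℝ) ^ 2 / φ ^ 2 + 2 * b * s + 2 * b / φ) ≤ CC b s φ - 1 := by
    have hφ0 := h.φ0
    have h1 : 1 ≤ (φ⁻¹) ^ b := one_le_pow₀ (one_le_inv_iff₀.2 ⟨h.φ0, h.φ1⟩)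
    have h2 : 0 ≤ 36 * (b : ℝ) ^ 2 / φ ^ 2 + 2 * (b : ℝ) ^ 2 + 2 * b * s + 4 * 2 ^ b / φ ^ 2 + 2 * b / φ := by positivity
    have h3 : 0 ≤ 2 * (b : ℝ) ^ 2 + 4 * 2 ^ b / φ ^ 2 := by positivity
    unfold CC
    nlinarith
  have hfin := ctx_arith (Ex (Y.law (Y.pi θ i S)) (fun ω => ((Y.nxt S ω).card : ℝ)) - S.card) Y.total
    (∑ p, Y.pi θ i S p) (Y.Xi θ i 0 S) θ φ e s b N (θ * W / N) (Nat.cast_nonneg s) hb1 h.φ0 h.φ1 hN0 h.θ0 he
    (CC b s φ - 1) hM hκ hlow hX hup (Fintype.card V) hcV (Nat.cast_nonneg _) (by linarith)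
  linarith

end Pool.Agent.NKL
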