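import Pool.Agent.NKL.Defs

set_option autoImplicit false

/-!
# NKL / GDefs : directions, lines and the concrete line system (definitions only)
-/

namespace Pool.Agent.NKL

open Finset

/-- primitive directions with coordinates of absolute value at most `D`, one of each pair `±v` -/
noncomputable def Dir (D : ℕ) : Finset (ℤ × ℤ) :=
  ((Finset.Icc (0 : ℤ) D) ×ˢ (Finset.Icc (-(D : ℤ)) D)).filter
    fun v => Int.gcd v.1 v.2 = 1 ∧ (v.1 = 0 → v.2 = 1)

/-- the height of a direction -/
def hgt (v : ℤ × ℤ) : ℕ := max v.1.natAbs v.2.natAbs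

/-- the lines of direction `v` are the level sets of `On v` -/
def On (v p : ℤ × ℤ) : ℤ := v.2 * p.1 - v.1 * p.2

/-- the sign pattern of the density -/
noncomputable def psi (n x : ℕ) : ℝ := if x < n ∨ 3 * n ≤ x then 1 else -1

/-- the capacities: `s` for rows and columns, `c₁` for the other directions of height at most `s`,
`3` for all other directions -/
def capf (s c₁ : ℕ) (v : ℤ × ℤ) : ℕ := if v.1 = 0 ∨ v.2 = 0 then s else if hgt v ≤ s then c₁ else 3

/-- the cells -/
abbrev Cell (n : ℕ) : Type := Fin (4 * n) × Fin (4 * n)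

/-- a cell as a point of the plane -/
def pt {n : ℕ} (p : Cell n) : ℤ × ℤ := ((p.1 : ℕ), (p.2 : ℕ))

theorem mem_dir01 {D : ℕ} (hD : 1 ≤ D) : ((0 : ℤ), (1 : ℤ)) ∈ Dir D := by
  unfold Dir
  rw [mem_filter, mem_product, mem_Icc, mem_Icc]
  refine ⟨⟨⟨le_refl _, by positivity⟩, ⟨by dsimp; omega, by dsimp; omega⟩⟩, by norm_num, fun _ => rfl⟩

/-- the line system of the `4n × 4n` grid inside the `N × N` grid, all directions of height `≤ D` -/
noncomputable def gsys (s c₁ n D N : ℕ) (h : 4 * n ≤ N) (hD : 1 ≤ D) :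
    Sys (Cell n) {v : ℤ × ℤ // v ∈ Dir D} ℤ N where
  line v p := On v.1 (pt p)
  row p := Fin.castLE h p.1
  cap v := capf s c₁ v.1
  f p := 1 - psi n p.1 * psi n p.2 / 5
  vr := ⟨(0, 1), mem_dir01 hD⟩

/-- the sets of four cells on a line whose direction has height larger than `D` -/
noncomputable def quads (n D : ℕ) : Finset (Finset (Cell n)) := by
  classical
  exact ((univ : Finset (Cell n)).powersetCard 4).filter
    fun A => ∃ v : ℤ × ℤ, Int.gcd v.1 v.2 = 1 ∧ D < hgt v ∧ ∃ l, ∀ p ∈ A, On v (pt p) = l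

/-- the `N × N` grid -/
noncomputable def grid (N : ℕ) : Finset (ℤ × ℤ) := Finset.Ico (0 : ℤ) N ×ˢ Finset.Ico (0 : ℤ) N

/-- near-perfect sets: at most `s` points in every row and column, at most `c₁` on the other lines of
height at most `s`, at most `3` on all lines of larger height, at least `(s - ε) N` points -/
structure Near (s c₁ N : ℕ) (ε : ℝ) (S : Finset (ℤ × ℤ)) : Prop where
  sub : S ⊆ grid N
  col : ∀ x : ℤ, (S.filter fun p => p.1 = x).card ≤ s
  row : ∀ y : ℤ, (S.filter fun p => p.2 = y).card ≤ s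
  sml : ∀ v : ℤ × ℤ, Int.gcd v.1 v.2 = 1 → v.1 ≠ 0 → v.2 ≠ 0 → hgt v ≤ s → ∀ l,
    (S.filter fun p => On v p = l).card ≤ c₁
  lrg : ∀ v : ℤ × ℤ, Int.gcd v.1 v.2 = 1 → s < hgt v → ∀ l,
    (S.filter fun p => On v p = l).card ≤ 3
  card : ((s : ℝ) - ε) * N ≤ S.card

end Pool.Agent.NKL
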