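import Pool.Agent.NKL.HYP
import Pool.Agent.NKL.GDefs

set_option autoImplicit false

/-!
# NKL / EDefs : stage 2 (`k = 4, 5, 6` and all larger `k`), definitions only
-/

namespace Pool.Agent.NKL

open Finset Pool.Agent.ChPi

variable {α V Λ : Type} [Fintype α] [DecidableEq α] [Fintype V] [DecidableEq V] [DecidableEq Λ]
  {N : ℕ}

/-- weighted estimator over an index type -/
noncomputable def GamI {I : Type} (C : Finset I) (A : I → Finset α) (w : I → ℝ) (k : ℝ)
    (S : Finset α) : ℝ := ∑ x ∈ C, w x * k ^ (A x \ S).card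

/-- a family of cells `p ∈ I` with sets `B p` of lines not passing through `p` -/
structure Sys.Fam (Y : Sys α V Λ N) (s b : ℕ) (I : Finset α) (B : α → Finset (V × Λ)) : Prop where
  disj : ∀ p ∈ I, ∀ L ∈ B p, L.2 ≠ Y.line L.1 p
  cardB : ∀ p ∈ I, (B p).card + Fintype.card V ≤ b
  kap : ∀ L, (I.filter fun p => L ∈ B p).card ≤ 2 * N
  kap2 : ∀ S, Y.Valid S → ∀ L, ((S ∩ I).filter fun p => L ∈ B p).card ≤ 2 * s

/-- all lines through `p` are tracked until time `T`, the lines of `B p` until time `R`;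
value at time `i` -/
noncomputable def Sys.VV (Y : Sys α V Λ N) (θ : ℝ) (R : ℕ) (I : Finset α)
    (B : α → Finset (V × Λ)) (T i : ℕ) (S : Finset α) : ℝ :=
  ∑ p ∈ I, Y.f p *
    ((∏ v, uu θ (Y.mass v (Y.line v p)) (Y.cap v) T (T - i) (Y.cnt S v (Y.line v p))) *
      ∏ L ∈ B p, uu θ (Y.mass L.1 L.2) (Y.cap L.1) R (R - i) (Y.cnt S L.1 L.2))

/-- the same sum over the points of `S` in `I`, only the lines of `B p` -/
noncomputable def Sys.WW (Y : Sys α V Λ N) (θ : ℝ) (R : ℕ) (I : Finset α)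
    (B : α → Finset (V × Λ)) (i : ℕ) (S : Finset α) : ℝ :=
  ∑ p ∈ S ∩ I, ∏ L ∈ B p, uu θ (Y.mass L.1 L.2) (Y.cap L.1) R (R - i) (Y.cnt S L.1 L.2)

/-- weighted number of the sets `Q x` which contain at least `m` points of `S`, the weights are
`w x * (cr x)^(M-m)` -/
noncomputable def DD {J : Type} (X : Finset J) (Q : J → Finset α) (w cr : J → ℝ) (M m : ℕ)
    (S : Finset α) : ℝ := ∑ x ∈ X, w x * cr x ^ (M - m) * (if m ≤ (S ∩ Q x).card then 1 else 0)

end Pool.Agent.NKL
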