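import Pool.Agent.NKL.PXJ
import Pool.Agent.NKL.EDefs

/-!
# NKL / DDX : the upper trackers

`dd_drift`: for one `x`: if `m ≤ |(S ∪ X) ∩ Q|`, then for `j = |(X \ S) ∩ Q|`, `|S ∩ Q| ≥ m - j`; so
`1[m ≤ |(S ∪ X) ∩ Q|] ≤ ∑_{j=0}^m 1[m - j ≤ |S ∩ Q|] 1[j ≤ |X ∩ Q|]`.  Expectation of the second
indicator `≤ (θ cr)^j` (`Ex_many` and the rate bound; `j = 0`: it is `1`), and
`w cr^(M-m) (θ cr)^j = θ^j w cr^(M-(m-j))` for `m ≤ M`.
`dd_step`: if all `DD M m' S ≤ a` (`m' ≤ M`), then the sum is at most `a ∑_j θ^j ≤ a (1 + 2θ)` for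
`θ ≤ 1/2`.
`dd_lip`: a term `x` can only change if `Q x` contains a cell of the symmetric difference; for each cell
`q` the terms with `q ∈ Q x` have total weight at most `cQ`.
-/

set_option autoImplicit false

namespace Pool.Agent.NKL

open Finset Pool.Agent.ChPi

variable {α V Λ : Type} [Fintype α] [DecidableEq α] [Fintype V] [DecidableEq V] [DecidableEq Λ]
  {N : ℕ} {Y : Sys α V Λ N} {S : Finset α} {π : α → ℝ} {κ ρ θ : ℝ} {J : Type}

private theorem ddx_ind {P : Prop} [Decidable P] : (0 : ℝ) ≤ (if P then 1 else 0) := by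
  split_ifs <;> norm_num

private theorem ddx_w {X : Finset J} {w cr : J → ℝ} (hw : ∀ x ∈ X, 0 ≤ w x)
    (hcr : ∀ x ∈ X, 0 ≤ cr x) (n : ℕ) {x : J} (hx : x ∈ X) : 0 ≤ w x * cr x ^ n :=
  mul_nonneg (hw x hx) (pow_nonneg (hcr x hx) n)

theorem dd_nonneg (X : Finset J) (Q : J → Finset α) (w cr : J → ℝ) (hw : ∀ x ∈ X, 0 ≤ w x)
    (hcr : ∀ x ∈ X, 0 ≤ cr x) (M m : ℕ) (S : Finset α) : 0 ≤ DD X Q w cr M m S := by
  unfold DD
  exact Finset.sum_nonneg fun x hx => mul_nonneg (ddx_w hw hcr _ hx) ddx_ind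

theorem dd_mono (X : Finset J) (Q : J → Finset α) (w cr : J → ℝ) (hw : ∀ x ∈ X, 0 ≤ w x)
    (hcr : ∀ x ∈ X, 0 ≤ cr x) (M m : ℕ) {S S' : Finset α} (h : S ⊆ S') :
    DD X Q w cr M m S ≤ DD X Q w cr M m S' := by
  unfold DD
  refine Finset.sum_le_sum fun x hx => mul_le_mul_of_nonneg_left ?_ (ddx_w hw hcr _ hx)
  have h1 : (S ∩ Q x).card ≤ (S' ∩ Q x).card := Finset.card_le_card (Finset.inter_subset_inter_right h)
  by_cases hm : m ≤ (S ∩ Q x).card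
  · rw [if_pos hm, if_pos (hm.trans h1)]
  · rw [if_neg hm]
    exact ddx_ind

private theorem ddx_split (S P Q : Finset α) (m : ℕ) :
    (if m ≤ ((S ∪ P) ∩ Q).card then (1 : ℝ) else 0) ≤
      ∑ j ∈ range (m + 1), (if m - j ≤ (S ∩ Q).card then (1 : ℝ) else 0) *
        (if j ≤ (P ∩ Q).card then (1 : ℝ) else 0) := by
  have hnn : ∀ j ∈ range (m + 1), 0 ≤ (if m - j ≤ (S ∩ Q).card then (1 : ℝ) else 0) *
        (if j ≤ (P ∩ Q).card then (1 : ℝ) else 0) := fun j _ => mul_nonneg ddx_ind ddx_ind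
  by_cases hm : m ≤ ((S ∪ P) ∩ Q).card
  · rw [if_pos hm]
    have h1 : ((S ∪ P) ∩ Q).card ≤ (S ∩ Q).card + (P ∩ Q).card := by
      rw [Finset.union_inter_distrib_right]
      exact Finset.card_union_le _ _
    have hj : min m (P ∩ Q).card ∈ range (m + 1) :=
      Finset.mem_range.2 (Nat.lt_succ_of_le (min_le_left _ _))
    refine le_trans (le_of_eq ?_) (Finset.single_le_sum hnn hj)
    rw [if_pos, if_pos (min_le_right _ _), one_mul]
    omega
  · rw [if_neg hm]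
    exact Finset.sum_nonneg hnn

theorem dd_drift (h : Y.Adm S π κ ρ) (X : Finset J) (Q : J → Finset α) (w cr : J → ℝ)
    (hw : ∀ x ∈ X, 0 ≤ w x) (hcr : ∀ x ∈ X, 0 ≤ cr x) (hθ : 0 ≤ θ)
    (hr : ∀ x ∈ X, ∑ q ∈ Q x, π q ≤ θ * cr x) {M m : ℕ} (hm : m ≤ M) :
    Ex (Y.law π) (fun ω => DD X Q w cr M m (S ∪ Y.props ω))
      ≤ ∑ j ∈ range (m + 1), θ ^ j * DD X Q w cr M (m - j) S := by
  have hstep : ∀ ω : Fin N → Option α, DD X Q w cr M m (S ∪ Y.props ω) ≤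
      ∑ x ∈ X, ∑ j ∈ range (m + 1), (w x * cr x ^ (M - m) *
        (if m - j ≤ (S ∩ Q x).card then (1 : ℝ) else 0)) *
        (if j ≤ (Y.props ω ∩ Q x).card then (1 : ℝ) else 0) := by
    intro ω
    unfold DD
    refine Finset.sum_le_sum fun x hx => ?_
    have h1 := mul_le_mul_of_nonneg_left (ddx_split S (Y.props ω) (Q x) m) (ddx_w hw hcr (M - m) hx)
    rw [Finset.mul_sum] at h1
    simpa only [mul_assoc] using h1
  have hE : ∀ x ∈ X, ∀ j ∈ range (m + 1),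
      Ex (Y.law π) (fun ω => (w x * cr x ^ (M - m) *
        (if m - j ≤ (S ∩ Q x).card then (1 : ℝ) else 0)) *
        (if j ≤ (Y.props ω ∩ Q x).card then (1 : ℝ) else 0)) ≤
      θ ^ j * (w x * cr x ^ (M - (m - j)) * (if m - j ≤ (S ∩ Q x).card then (1 : ℝ) else 0)) := by
    intro x hx j hj
    have hj' : j ≤ m := Nat.lt_succ_iff.1 (Finset.mem_range.1 hj)
    rw [L.Ex_mul_left]
    have h1 := Ex_many h (Q x) j
    have h2 : (∑ q ∈ Q x, π q) ^ j ≤ (θ * cr x) ^ j :=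
      pow_le_pow_left₀ (Finset.sum_nonneg fun q _ => h.nonneg q) (hr x hx) j
    have h3 : 0 ≤ w x * cr x ^ (M - m) * (if m - j ≤ (S ∩ Q x).card then (1 : ℝ) else 0) :=
      mul_nonneg (ddx_w hw hcr _ hx) ddx_ind
    refine (mul_le_mul_of_nonneg_left (h1.trans h2) h3).trans (le_of_eq ?_)
    have h4 : M - (m - j) = (M - m) + j := by omega
    rw [h4, pow_add, mul_pow]
    ring
  calc Ex (Y.law π) (fun ω => DD X Q w cr M m (S ∪ Y.props ω))
      ≤ Ex (Y.law π) (fun ω => ∑ x ∈ X, ∑ j ∈ range (m + 1), (w x * cr x ^ (M - m) *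
        (if m - j ≤ (S ∩ Q x).card then (1 : ℝ) else 0)) *
        (if j ≤ (Y.props ω ∩ Q x).card then (1 : ℝ) else 0)) :=
        L.Ex_mono (fun x o => law_nonneg h x o) hstep
    _ = ∑ x ∈ X, ∑ j ∈ range (m + 1), Ex (Y.law π) (fun ω => (w x * cr x ^ (M - m) *
        (if m - j ≤ (S ∩ Q x).card then (1 : ℝ) else 0)) *
        (if j ≤ (Y.props ω ∩ Q x).card then (1 : ℝ) else 0)) := by
        rw [L.Ex_sum (Y.law π) X (fun x ω => ∑ j ∈ range (m + 1), (w x * cr x ^ (M - m) *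
          (if m - j ≤ (S ∩ Q x).card then (1 : ℝ) else 0)) *
          (if j ≤ (Y.props ω ∩ Q x).card then (1 : ℝ) else 0))]
        refine Finset.sum_congr rfl fun x _ => ?_
        rw [L.Ex_sum (Y.law π) (range (m + 1)) (fun j ω => (w x * cr x ^ (M - m) *
          (if m - j ≤ (S ∩ Q x).card then (1 : ℝ) else 0)) *
          (if j ≤ (Y.props ω ∩ Q x).card then (1 : ℝ) else 0))]
    _ ≤ ∑ x ∈ X, ∑ j ∈ range (m + 1), θ ^ j * (w x * cr x ^ (M - (m - j)) *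
          (if m - j ≤ (S ∩ Q x).card then (1 : ℝ) else 0)) :=
        Finset.sum_le_sum fun x hx => Finset.sum_le_sum fun j hj => hE x hx j hj
    _ = ∑ j ∈ range (m + 1), θ ^ j * DD X Q w cr M (m - j) S := by
        rw [Finset.sum_comm]
        refine Finset.sum_congr rfl fun j _ => ?_
        unfold DD
        rw [Finset.mul_sum]

private theorem ddx_geom (hθ : 0 ≤ θ) (hθ1 : θ ≤ 1 / 2) (n : ℕ) :
    ∑ j ∈ range n, θ ^ j ≤ 1 + 2 * θ := by
  induction n with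
  | zero => simp; linarith
  | succ n ih =>
    rw [Finset.sum_range_succ']
    have h1 : ∑ k ∈ range n, θ ^ (k + 1) = θ * ∑ k ∈ range n, θ ^ k := by
      rw [Finset.mul_sum]
      exact Finset.sum_congr rfl fun k _ => by ring
    rw [h1, pow_zero]
    nlinarith [mul_le_mul_of_nonneg_left ih hθ]

theorem dd_step (h : Y.Adm S π κ ρ) (X : Finset J) (Q : J → Finset α) (w cr : J → ℝ)
    (hw : ∀ x ∈ X, 0 ≤ w x) (hcr : ∀ x ∈ X, 0 ≤ cr x) (hθ : 0 ≤ θ) (hθ1 : θ ≤ 1 / 2)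
    (hr : ∀ x ∈ X, ∑ q ∈ Q x, π q ≤ θ * cr x) {M m : ℕ} (hm : m ≤ M) {a : ℝ} (ha : 0 ≤ a)
    (hS : ∀ m' ≤ M, DD X Q w cr M m' S ≤ a) :
    Ex (Y.law π) (fun ω => DD X Q w cr M m (S ∪ Y.props ω)) ≤ a * (1 + 2 * θ) := by
  refine (dd_drift h X Q w cr hw hcr hθ hr hm).trans ?_
  calc ∑ j ∈ range (m + 1), θ ^ j * DD X Q w cr M (m - j) S
      ≤ ∑ j ∈ range (m + 1), θ ^ j * a := Finset.sum_le_sum fun j _ =>
        mul_le_mul_of_nonneg_left (hS (m - j) (by omega)) (pow_nonneg hθ j)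
    _ = a * ∑ j ∈ range (m + 1), θ ^ j := by rw [← Finset.sum_mul, mul_comm]
    _ ≤ a * (1 + 2 * θ) := mul_le_mul_of_nonneg_left (ddx_geom hθ hθ1 _) ha

theorem dd_lip (X : Finset J) (Q : J → Finset α) (w cr : J → ℝ)
    (hw : ∀ x ∈ X, 0 ≤ w x) (hcr : ∀ x ∈ X, 0 ≤ cr x) (M m : ℕ) {cQ : ℝ} (hc : 0 ≤ cQ)
    (hQ : ∀ q, ∑ x ∈ X.filter (fun x => q ∈ Q x), w x * cr x ^ (M - m) ≤ cQ) {S1 S2 : Finset α}
    {K : ℕ} (hK : ((S1 \ S2) ∪ (S2 \ S1)).card ≤ K) :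
    |DD X Q w cr M m S1 - DD X Q w cr M m S2| ≤ K * cQ := by
  classical
  set D := (S1 \ S2) ∪ (S2 \ S1) with hD
  have hterm : ∀ x ∈ X, |w x * cr x ^ (M - m) * (if m ≤ (S1 ∩ Q x).card then (1 : ℝ) else 0) -
      w x * cr x ^ (M - m) * (if m ≤ (S2 ∩ Q x).card then (1 : ℝ) else 0)| ≤
      ∑ q ∈ D, if q ∈ Q x then w x * cr x ^ (M - m) else 0 := by
    intro x hx
    have hwx := ddx_w hw hcr (M - m) hx
    have hnn : ∀ q ∈ D, 0 ≤ (if q ∈ Q x then w x * cr x ^ (M - m) else 0) := by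
      intro q _
      split_ifs
      · exact hwx
      · exact le_rfl
    by_cases hq : ∃ q ∈ D, q ∈ Q x
    · obtain ⟨q, hq1, hq2⟩ := hq
      have h1 := Finset.single_le_sum hnn hq1
      rw [if_pos hq2] at h1
      refine le_trans ?_ h1
      rw [← mul_sub, abs_mul, abs_of_nonneg hwx]
      refine mul_le_of_le_one_right hwx ?_
      split_ifs <;> norm_num
    · have h1 : S1 ∩ Q x = S2 ∩ Q x := by
        ext q
        simp only [Finset.mem_inter]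
        constructor
        · rintro ⟨h1, h2⟩
          refine ⟨?_, h2⟩
          by_contra h3
          exact hq ⟨q, Finset.mem_union_left _ (Finset.mem_sdiff.2 ⟨h1, h3⟩), h2⟩
        · rintro ⟨h1, h2⟩
          refine ⟨?_, h2⟩
          by_contra h3
          exact hq ⟨q, Finset.mem_union_right _ (Finset.mem_sdiff.2 ⟨h1, h3⟩), h2⟩
      rw [h1, sub_self, abs_zero]
      exact Finset.sum_nonneg hnn
  unfold DD
  rw [← Finset.sum_sub_distrib]
  calc |∑ x ∈ X, (w x * cr x ^ (M - m) * (if m ≤ (S1 ∩ Q x).card then (1 : ℝ) else 0) -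
      w x * cr x ^ (M - m) * (if m ≤ (S2 ∩ Q x).card then (1 : ℝ) else 0))|
      ≤ ∑ x ∈ X, |w x * cr x ^ (M - m) * (if m ≤ (S1 ∩ Q x).card then (1 : ℝ) else 0) -
      w x * cr x ^ (M - m) * (if m ≤ (S2 ∩ Q x).card then (1 : ℝ) else 0)| :=
        Finset.abs_sum_le_sum_abs _ _
    _ ≤ ∑ x ∈ X, ∑ q ∈ D, (if q ∈ Q x then w x * cr x ^ (M - m) else 0) :=
        Finset.sum_le_sum hterm
    _ = ∑ q ∈ D, ∑ x ∈ X.filter (fun x => q ∈ Q x), w x * cr x ^ (M - m) := by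
        rw [Finset.sum_comm]
        exact Finset.sum_congr rfl fun q _ => (Finset.sum_filter _ _).symm
    _ ≤ ∑ _q ∈ D, cQ := Finset.sum_le_sum fun q _ => hQ q
    _ = D.card * cQ := by rw [Finset.sum_const, nsmul_eq_mul]
    _ ≤ K * cQ := mul_le_mul_of_nonneg_right (by exact_mod_cast hK) hc

end Pool.Agent.NKL
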