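import Pool.Agent.ChPi.L

set_option autoImplicit false

/-!
# Project NKL (MP_931b60_co, the no-k-in-line problem): definitions

Goal: for every `k ≥ 7` there is `N₀` such that for all `N ≥ N₀` the `N × N` grid contains
`(k-1) N` points, no `k` of them on a line.

Plan.  (1) nibble: a set with at most `s = k-1` points in every row and column, at most `s-1` on
every other line and at most `3` on every line with a large direction, which has at least
`(s - ε) N` points.  (2) finishing: exchange of points with the local lemma.

The probability space is the product space of `Pool.Agent.ChPi` (`wt`, `Ex`, `Pr`, `lll`).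
-/

namespace Pool.Agent.NKL

open Finset Pool.Agent.ChPi

/-! ### ideal chains -/

/-- the law of the ideal chain of a line of mass `m` and capacity `c` with step `θ`:
`qq θ m c i j` is the probability that the line has `j` points after `i` rounds.
In round `i` a line which is not full gets one more point with probability
`θ m / (1 - qq θ m c i c)`, so the expected number of points grows by exactly `θ m`. -/
noncomputable def qq (θ m : ℝ) (c : ℕ) : ℕ → ℕ → ℝ
  | 0, j => if j = 0 then 1 else 0
  | i + 1, j =>
    if j < c then qq θ m c i j * (1 - θ * m / (1 - qq θ m c i c))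
        + (if j = 0 then 0 else qq θ m c i (j - 1) * (θ * m / (1 - qq θ m c i c)))
    else if j = c then qq θ m c i c
        + (if j = 0 then 0 else qq θ m c i (j - 1) * (θ * m / (1 - qq θ m c i c)))
    else 0

/-- probability that the line is not full after `i` rounds -/
noncomputable def FF (θ m : ℝ) (c i : ℕ) : ℝ := 1 - qq θ m c i c

/-- probability that a line which is not full gets a point in round `i` -/
noncomputable def bb (θ m : ℝ) (c i : ℕ) : ℝ := θ * m / FF θ m c i

/-- backward function: `uu θ m c T n j` is the expectation of `1[not full] / FF T` at time `T`,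
given that the line has `j` points at time `T - n`. -/
noncomputable def uu (θ m : ℝ) (c T : ℕ) : ℕ → ℕ → ℝ
  | 0, j => if j < c then (FF θ m c T)⁻¹ else 0
  | n + 1, j => if j < c then (1 - bb θ m c (T - (n + 1))) * uu θ m c T n j
      + bb θ m c (T - (n + 1)) * uu θ m c T n (j + 1) else 0

/-! ### abstract line systems -/

/-- `line v p` is the line with direction `v` through the cell `p`; `row` is the coordinate of the
product space which may propose `p`; `cap v` is the capacity of the lines of direction `v`;
`f` is the target density; `vr` is a direction (used to count points). -/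
structure Sys (α V Λ : Type) (N : ℕ) where
  line : V → α → Λ
  row : α → Fin N
  cap : V → ℕ
  f : α → ℝ
  vr : V

variable {α V Λ : Type} [Fintype α] [DecidableEq α] [Fintype V] [DecidableEq V] [DecidableEq Λ]
  {N : ℕ}

/-- the assumptions on a line system -/
structure Sys.Ok (Y : Sys α V Λ N) : Prop where
  cap_pos : ∀ v, 1 ≤ Y.cap v
  f_nonneg : ∀ p, 0 ≤ Y.f p
  f_le : ∀ p, Y.f p ≤ 2
  codeg : ∀ v v' p p', v ≠ v' → Y.line v p = Y.line v p' → Y.line v' p = Y.line v' p' → p = p'
  len : ∀ v l, (univ.filter fun p => Y.line v p = l).card ≤ N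
  rowlen : ∀ x, (univ.filter fun p => Y.row p = x).card ≤ N
  rows : (univ.image (Y.line Y.vr)).card ≤ N

/-- the cells of a line -/
def Sys.cells (Y : Sys α V Λ N) (v : V) (l : Λ) : Finset α := univ.filter fun p => Y.line v p = l

/-- the number of points of `S` on a line -/
def Sys.cnt (Y : Sys α V Λ N) (S : Finset α) (v : V) (l : Λ) : ℕ :=
  (S.filter fun p => Y.line v p = l).card

/-- the mass of a line -/
noncomputable def Sys.mass (Y : Sys α V Λ N) (v : V) (l : Λ) : ℝ := (∑ p ∈ Y.cells v l, Y.f p) / N

/-- the total mass divided by `N` (= the sum of the masses of the lines of direction `vr`) -/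
noncomputable def Sys.total (Y : Sys α V Λ N) : ℝ := (∑ p, Y.f p) / N

/-- no line is overfull -/
def Sys.Valid (Y : Sys α V Λ N) (S : Finset α) : Prop := ∀ v l, Y.cnt S v l ≤ Y.cap v

/-- the cell `p` lies on a full line or is already taken -/
def Sys.Blk (Y : Sys α V Λ N) (S : Finset α) (p : α) : Prop :=
  p ∈ S ∨ ∃ v, Y.cap v ≤ Y.cnt S v (Y.line v p)

/-! ### one round -/

/-- the law of the proposals: row `x` proposes the cell `p` (of row `x`) with probability `π p` -/
noncomputable def Sys.law (Y : Sys α V Λ N) (π : α → ℝ) : Fin N → Option α → ℝ := fun x o =>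
  match o with
  | none => 1 - ∑ p ∈ univ.filter (fun p => Y.row p = x), π p
  | some p => if Y.row p = x then π p else 0

/-- the proposed cells -/
def Sys.props (Y : Sys α V Λ N) (ω : Fin N → Option α) : Finset α :=
  univ.filter fun p => ω (Y.row p) = some p

/-- the accepted cells: no line through the cell would be overfull if all proposals were accepted -/
def Sys.acc (Y : Sys α V Λ N) (S X : Finset α) : Finset α :=
  X.filter fun p => ∀ v, Y.cnt S v (Y.line v p) + Y.cnt X v (Y.line v p) ≤ Y.cap v

/-- the next set -/
def Sys.nxt (Y : Sys α V Λ N) (S : Finset α) (ω : Fin N → Option α) : Finset α :=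
  S ∪ Y.acc S (Y.props ω)

/-- expected number of proposals on the line `L` -/
noncomputable def Sys.rt (Y : Sys α V Λ N) (π : α → ℝ) (L : V × Λ) : ℝ := ∑ p ∈ Y.cells L.1 L.2, π p

/-- admissible proposal probabilities -/
structure Sys.Adm (Y : Sys α V Λ N) (S : Finset α) (π : α → ℝ) (κ ρ : ℝ) : Prop where
  nonneg : ∀ p, 0 ≤ π p
  le : ∀ p, π p ≤ κ
  blk : ∀ p, Y.Blk S p → π p = 0
  row : ∀ x, ∑ p ∈ univ.filter (fun p => Y.row p = x), π p ≤ 1
  line : ∀ L, Y.rt π L ≤ ρ

/-! ### the tracked quantities -/

/-- `Phi θ v l T n S`: the sum over the cells `p` of the line `(v,l)` of the weight `f p` times the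
product over the other lines through `p` of the backward functions, `n` rounds before time `T` -/
noncomputable def Sys.Phi (Y : Sys α V Λ N) (θ : ℝ) (v : V) (l : Λ) (T n : ℕ) (S : Finset α) : ℝ :=
  ∑ p ∈ Y.cells v l, Y.f p * ∏ v' ∈ univ.erase v,
    uu θ (Y.mass v' (Y.line v' p)) (Y.cap v') T n (Y.cnt S v' (Y.line v' p))

/-- the same for the set of all lines of direction `vr` -/
noncomputable def Sys.Xi (Y : Sys α V Λ N) (θ : ℝ) (T n : ℕ) (S : Finset α) : ℝ :=
  ∑ l ∈ univ.image (Y.line Y.vr), Y.mass Y.vr l *
    uu θ (Y.mass Y.vr l) (Y.cap Y.vr) T n (Y.cnt S Y.vr l)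

/-- the state `S` is good at time `i` with error `e` -/
def Sys.Trk (Y : Sys α V Λ N) (θ : ℝ) (R i : ℕ) (e : ℝ) (S : Finset α) : Prop :=
  (∀ v l T, i ≤ T → T ≤ R → |Y.Phi θ v l T (T - i) S - N * Y.mass v l| ≤ e * N) ∧
  (∀ T, i ≤ T → T ≤ R → |Y.Xi θ T (T - i) S - Y.total| ≤ e * N)

open Classical in
/-- the proposal probabilities used in round `i` -/
noncomputable def Sys.pi (Y : Sys α V Λ N) (θ : ℝ) (i : ℕ) (S : Finset α) (p : α) : ℝ :=
  if Y.Blk S p then 0
  else θ / N * (Y.f p * ∏ v, (FF θ (Y.mass v (Y.line v p)) (Y.cap v) i)⁻¹)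

/-- the estimator for the number of members of `C` contained in the final set -/
noncomputable def Gam (C : Finset (Finset α)) (k : ℝ) (S : Finset α) : ℝ :=
  ∑ A ∈ C, k ^ (A \ S).card

end Pool.Agent.NKL
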