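import Pool.Agent.NKL.PRP

set_option autoImplicit false

/-!
# NKL / EKK : pairs of proposals

`Ex_cnt`: `cnt X L = ∑_{q ∈ cells L} 1[q ∈ X]` and `Ex_mem`.
`Ex_kk`: with `K = ∑_{L ∈ B} ∑_{q ∈ cells L} 1[q ∈ X]` one has
`K (K-1) = ∑_{L,L'} ∑_{q ∈ L, q' ∈ L', q ≠ q'} 1[q ∈ X] 1[q' ∈ X] + ∑_{L ≠ L'} ∑_{q ∈ L ∩ L'} 1[q ∈ X]`
(the terms of `K²` with `(L,q) = (L',q')` are removed by `- K`).  By `Ex_mem_mem` the first part has
expectation at most `∑_{L,L'} rt L * rt L' = (∑ rt L)²`.  Two different lines have at most one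
common cell: if `L.1 = L'.1` then `L.2 ≠ L'.2` and the lines are disjoint, otherwise use
`Ok.codeg`; so the second part has expectation at most `|B|² κ`.
-/

namespace Pool.Agent.NKL

open Finset Pool.Agent.ChPi

variable {α V Λ : Type} [Fintype α] [DecidableEq α] [Fintype V] [DecidableEq V] [DecidableEq Λ]
  {N : ℕ} {Y : Sys α V Λ N} {S : Finset α} {π : α → ℝ} {κ ρ : ℝ}

private theorem cnt_eq (Y : Sys α V Λ N) (X : Finset α) (L : V × Λ) :
    (Y.cnt X L.1 L.2 : ℝ) = ∑ q ∈ Y.cells L.1 L.2, (if q ∈ X then (1 : ℝ) else 0) := by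
  rw [Finset.sum_boole]
  have h : X.filter (fun p => Y.line L.1 p = L.2) = (Y.cells L.1 L.2).filter (fun q => q ∈ X) := by
    ext q
    simp only [Sys.cells, Finset.mem_filter, Finset.mem_univ, true_and]
    exact and_comm
  unfold Sys.cnt
  rw [h]

theorem Ex_cnt (h : Y.Adm S π κ ρ) (L : V × Λ) :
    Ex (Y.law π) (fun ω => (Y.cnt (Y.props ω) L.1 L.2 : ℝ)) = Y.rt π L := by
  have h1 : (fun ω => (Y.cnt (Y.props ω) L.1 L.2 : ℝ)) =
      fun ω => ∑ q ∈ Y.cells L.1 L.2, (if q ∈ Y.props ω then (1 : ℝ) else 0) := by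
    funext ω
    exact cnt_eq Y _ L
  rw [h1, Pool.Agent.ChPi.L.Ex_sum]
  unfold Sys.rt
  exact Finset.sum_congr rfl fun q _ => Ex_mem h q

private theorem Ex_pair (h : Y.Adm S π κ ρ) (p q : α) :
    Ex (Y.law π) (fun ω => (if p ∈ Y.props ω then (1 : ℝ) else 0)
      * (if q ∈ Y.props ω then (1 : ℝ) else 0)) ≤ π p * π q + (if p = q then π p else 0) := by
  by_cases hpq : p = q
  · subst hpq
    rw [if_pos rfl]
    have h1 : (fun ω => (if p ∈ Y.props ω then (1 : ℝ) else 0)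
      * (if p ∈ Y.props ω then (1 : ℝ) else 0)) = fun ω => (if p ∈ Y.props ω then (1 : ℝ) else 0) := by
      funext ω
      split_ifs
      · norm_num
      · norm_num
    rw [h1, Ex_mem h p]
    have := mul_nonneg (h.nonneg p) (h.nonneg p)
    linarith
  · rw [if_neg hpq, add_zero]
    exact Ex_mem_mem h hpq

private theorem inter_le (hY : Y.Ok) (h : Y.Adm S π κ ρ) (hκ : 0 ≤ κ) {L L' : V × Λ} (hL : L ≠ L') :
    ∑ q ∈ Y.cells L.1 L.2 ∩ Y.cells L'.1 L'.2, π q ≤ κ := by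
  have hc : (Y.cells L.1 L.2 ∩ Y.cells L'.1 L'.2).card ≤ 1 := by
    rw [Finset.card_le_one]
    intro a ha b hb
    rw [Finset.mem_inter] at ha hb
    simp only [Sys.cells, Finset.mem_filter, Finset.mem_univ, true_and] at ha hb
    by_cases hv : L.1 = L'.1
    · exfalso
      apply hL
      refine Prod.ext hv ?_
      rw [← ha.1, ← ha.2, hv]
    · exact hY.codeg L.1 L'.1 a b hv (ha.1.trans hb.1.symm) (ha.2.trans hb.2.symm)
  calc ∑ q ∈ Y.cells L.1 L.2 ∩ Y.cells L'.1 L'.2, π q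
      ≤ ∑ q ∈ Y.cells L.1 L.2 ∩ Y.cells L'.1 L'.2, κ := Finset.sum_le_sum fun q _ => h.le q
    _ = ((Y.cells L.1 L.2 ∩ Y.cells L'.1 L'.2).card : ℝ) * κ := by
      rw [Finset.sum_const, nsmul_eq_mul]
    _ ≤ 1 * κ := by
      refine mul_le_mul_of_nonneg_right ?_ hκ
      exact_mod_cast hc
    _ = κ := one_mul κ

private theorem pair_le (hY : Y.Ok) (h : Y.Adm S π κ ρ) (hκ : 0 ≤ κ) (L L' : V × Λ) :
    Ex (Y.law π) (fun ω => (Y.cnt (Y.props ω) L.1 L.2 : ℝ) * (Y.cnt (Y.props ω) L'.1 L'.2 : ℝ)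
      - (if L = L' then (Y.cnt (Y.props ω) L.1 L.2 : ℝ) else 0)) ≤ Y.rt π L * Y.rt π L' + κ := by
  have h1 : Ex (Y.law π) (fun ω => (Y.cnt (Y.props ω) L.1 L.2 : ℝ) * (Y.cnt (Y.props ω) L'.1 L'.2 : ℝ))
      ≤ Y.rt π L * Y.rt π L' + ∑ q ∈ Y.cells L.1 L.2 ∩ Y.cells L'.1 L'.2, π q := by
    have h2 : (fun ω => (Y.cnt (Y.props ω) L.1 L.2 : ℝ) * (Y.cnt (Y.props ω) L'.1 L'.2 : ℝ)) =
        fun ω => ∑ q ∈ Y.cells L.1 L.2, (fun (q : α) (ω : Fin N → Option α) => ∑ q' ∈ Y.cells L'.1 L'.2,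
          (fun (q' : α) (ω : Fin N → Option α) => (if q ∈ Y.props ω then (1 : ℝ) else 0)
            * (if q' ∈ Y.props ω then (1 : ℝ) else 0)) q' ω) q ω := by
      funext ω
      rw [cnt_eq, cnt_eq, Finset.sum_mul_sum]
    rw [h2, Pool.Agent.ChPi.L.Ex_sum]
    have h3 : ∀ q, Ex (Y.law π) (fun ω => ∑ q' ∈ Y.cells L'.1 L'.2,
          (fun (q' : α) (ω : Fin N → Option α) => (if q ∈ Y.props ω then (1 : ℝ) else 0)
            * (if q' ∈ Y.props ω then (1 : ℝ) else 0)) q' ω) ≤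
        π q * Y.rt π L' + (if q ∈ Y.cells L'.1 L'.2 then π q else 0) := by
      intro q
      rw [Pool.Agent.ChPi.L.Ex_sum]
      refine (Finset.sum_le_sum fun q' _ => Ex_pair h q q').trans (le_of_eq ?_)
      rw [Finset.sum_add_distrib, ← Finset.mul_sum, Finset.sum_ite_eq]
      rfl
    refine (Finset.sum_le_sum fun q _ => h3 q).trans (le_of_eq ?_)
    rw [Finset.sum_add_distrib, ← Finset.sum_mul, ← Finset.sum_filter, Finset.filter_mem_eq_inter]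
    rfl
  have hsub : Ex (Y.law π) (fun ω => (Y.cnt (Y.props ω) L.1 L.2 : ℝ) * (Y.cnt (Y.props ω) L'.1 L'.2 : ℝ)
      - (if L = L' then (Y.cnt (Y.props ω) L.1 L.2 : ℝ) else 0)) =
      Ex (Y.law π) (fun ω => (Y.cnt (Y.props ω) L.1 L.2 : ℝ) * (Y.cnt (Y.props ω) L'.1 L'.2 : ℝ))
      - (if L = L' then Y.rt π L else 0) := by
    by_cases hL : L = L'
    · simp only [if_pos hL]
      have e := Ex_cnt h L
      rw [← e]
      unfold Ex
      rw [← Finset.sum_sub_distrib]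
      exact Finset.sum_congr rfl fun ω _ => by ring
    · simp only [if_neg hL, sub_zero]
  rw [hsub]
  by_cases hL : L = L'
  · rw [if_pos hL]
    subst hL
    rw [Finset.inter_self] at h1
    have e : ∑ q ∈ Y.cells L.1 L.2, π q = Y.rt π L := rfl
    rw [e] at h1
    linarith
  · rw [if_neg hL, sub_zero]
    have := inter_le hY h hκ hL
    linarith

theorem Ex_kk (hY : Y.Ok) (h : Y.Adm S π κ ρ) (hκ : 0 ≤ κ) (B : Finset (V × Λ)) :
    Ex (Y.law π) (fun ω => (∑ L ∈ B, (Y.cnt (Y.props ω) L.1 L.2 : ℝ))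
      * ((∑ L ∈ B, (Y.cnt (Y.props ω) L.1 L.2 : ℝ)) - 1))
      ≤ (∑ L ∈ B, Y.rt π L) ^ 2 + (B.card : ℝ) ^ 2 * κ := by
  have h2 : (fun ω => (∑ L ∈ B, (Y.cnt (Y.props ω) L.1 L.2 : ℝ))
      * ((∑ L ∈ B, (Y.cnt (Y.props ω) L.1 L.2 : ℝ)) - 1)) =
      fun ω => ∑ L ∈ B, (fun (L : V × Λ) (ω : Fin N → Option α) => ∑ L' ∈ B,
        (fun (L' : V × Λ) (ω : Fin N → Option α) =>
          (Y.cnt (Y.props ω) L.1 L.2 : ℝ) * (Y.cnt (Y.props ω) L'.1 L'.2 : ℝ)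
            - (if L = L' then (Y.cnt (Y.props ω) L.1 L.2 : ℝ) else 0)) L' ω) L ω := by
    funext ω
    rw [mul_sub, mul_one, Finset.sum_mul_sum, ← Finset.sum_sub_distrib]
    refine Finset.sum_congr rfl fun L hL => ?_
    show _ = ∑ L' ∈ B, ((Y.cnt (Y.props ω) L.1 L.2 : ℝ) * (Y.cnt (Y.props ω) L'.1 L'.2 : ℝ)
            - (if L = L' then (Y.cnt (Y.props ω) L.1 L.2 : ℝ) else 0))
    rw [Finset.sum_sub_distrib, Finset.sum_ite_eq, if_pos hL]
  rw [h2, Pool.Agent.ChPi.L.Ex_sum]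
  have h3 : ∀ L, Ex (Y.law π) (fun ω => ∑ L' ∈ B,
        (fun (L' : V × Λ) (ω : Fin N → Option α) =>
          (Y.cnt (Y.props ω) L.1 L.2 : ℝ) * (Y.cnt (Y.props ω) L'.1 L'.2 : ℝ)
            - (if L = L' then (Y.cnt (Y.props ω) L.1 L.2 : ℝ) else 0)) L' ω) ≤
      Y.rt π L * (∑ L' ∈ B, Y.rt π L') + (B.card : ℝ) * κ := by
    intro L
    rw [Pool.Agent.ChPi.L.Ex_sum]
    refine (Finset.sum_le_sum fun L' _ => pair_le hY h hκ L L').trans (le_of_eq ?_)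
    rw [Finset.sum_add_distrib, ← Finset.mul_sum, Finset.sum_const, nsmul_eq_mul]
  refine (Finset.sum_le_sum fun L _ => h3 L).trans (le_of_eq ?_)
  rw [Finset.sum_add_distrib, ← Finset.sum_mul, Finset.sum_const, nsmul_eq_mul]
  ring

end Pool.Agent.NKL
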