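import Pool.Agent.NKL.GDefs

set_option autoImplicit false

/-!
# NKL / GD1 : the directions

* `hgt_pos`: gcd = 1 excludes `(0,0)`.
* `card_hgt`: `hgt v = d` means `v.1 = d` (then `v.2` has at most `2d+1` values) or `v.2 = ± d`
  (then `v.1` has at most `d+1` values each): at most `4d+3 ≤ 8d`.
* `sum_dir`: group the directions by the height.
* `dir_det`: two different elements of `Dir D` are not parallel: `v.1 w.2 = v.2 w.1` and gcd 1 give
  `v = ± w` (v.1 ∣ w.1 and w.1 ∣ v.1 by coprimality, etc.), and the normalisation `0 ≤ v.1`,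
  `v.1 = 0 → v.2 = 1` excludes the sign `-` .
* `prim_dir`: `v` or `-v` is normalised.
* `On_neg`: trivial.
-/

namespace Pool.Agent.NKL

open Finset

theorem hgt_pos {v : ℤ × ℤ} (h : Int.gcd v.1 v.2 = 1) : 1 ≤ hgt v := by
  unfold hgt
  by_contra hc
  have h1 : v.1.natAbs = 0 := by omega
  have h2 : v.2.natAbs = 0 := by omega
  rw [Int.natAbs_eq_zero] at h1 h2
  rw [h1, h2] at h
  simp at h

theorem dir_gcd {D : ℕ} {v : ℤ × ℤ} (h : v ∈ Dir D) : Int.gcd v.1 v.2 = 1 := by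
  unfold Dir at h
  rw [mem_filter] at h
  exact h.2.1

theorem dir_hgt {D : ℕ} {v : ℤ × ℤ} (h : v ∈ Dir D) : hgt v ≤ D := by
  unfold Dir at h
  rw [mem_filter, mem_product, mem_Icc, mem_Icc] at h
  unfold hgt
  have h1 := h.1.1
  have h2 := h.1.2
  omega

theorem card_hgt (D d : ℕ) (hd : 1 ≤ d) : ((Dir D).filter fun v => hgt v = d).card ≤ 8 * d := by
  classical
  have h1 : ((Dir D).filter fun v => hgt v = d) ⊆
      (({(d : ℤ)} : Finset ℤ) ×ˢ Finset.Icc (-(d : ℤ)) d) ∪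
        (Finset.Icc (0 : ℤ) d ×ˢ ({(d : ℤ), -(d : ℤ)} : Finset ℤ)) := by
    intro v hv
    rw [mem_filter] at hv
    obtain ⟨hv1, hv2⟩ := hv
    unfold Dir at hv1
    rw [mem_filter, mem_product, mem_Icc, mem_Icc] at hv1
    unfold hgt at hv2
    rw [mem_union, mem_product, mem_product, mem_singleton, mem_insert, mem_singleton, mem_Icc,
      mem_Icc]
    have h1 := hv1.1.1
    have h2 := hv1.1.2
    omega
  refine (card_le_card h1).trans ((card_union_le _ _).trans ?_)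
  rw [card_product, card_product, card_singleton, Int.card_Icc, Int.card_Icc]
  have h2 : (({(d : ℤ), -(d : ℤ)} : Finset ℤ)).card ≤ 2 := card_le_two
  have h3 : ((d : ℤ) + 1 - 0).toNat * (({(d : ℤ), -(d : ℤ)} : Finset ℤ)).card ≤
      ((d : ℤ) + 1 - 0).toNat * 2 := Nat.mul_le_mul_left _ h2
  have h4 : ((d : ℤ) + 1 - 0).toNat = d + 1 := by omega
  have h5 : ((d : ℤ) + 1 - -(d : ℤ)).toNat = 2 * d + 1 := by omega
  rw [h4] at h3 ⊢
  rw [h5]
  omega

theorem sum_dir (D d₀ : ℕ) (g : ℕ → ℝ) (hg : ∀ d, 0 ≤ g d) :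
    ∑ v ∈ (Dir D).filter (fun v => d₀ < hgt v), g (hgt v) ≤
      ∑ d ∈ Finset.Ioc d₀ D, 8 * (d : ℝ) * g d := by
  classical
  have h1 : ∀ v ∈ (Dir D).filter (fun v => d₀ < hgt v), hgt v ∈ Finset.Ioc d₀ D := by
    intro v hv
    rw [mem_filter] at hv
    rw [mem_Ioc]
    exact ⟨hv.2, dir_hgt hv.1⟩
  rw [← sum_fiberwise_of_maps_to h1]
  refine sum_le_sum fun d hd => ?_
  rw [mem_Ioc] at hd
  have h2 : ∑ v ∈ ((Dir D).filter (fun v => d₀ < hgt v)).filter (fun v => hgt v = d), g (hgt v)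
      = ((((Dir D).filter (fun v => d₀ < hgt v)).filter (fun v => hgt v = d)).card : ℝ) * g d := by
    rw [← nsmul_eq_mul, ← sum_const]
    refine sum_congr rfl fun v hv => ?_
    rw [mem_filter] at hv
    rw [hv.2]
  rw [h2]
  refine mul_le_mul_of_nonneg_right ?_ (hg d)
  have h3 : (((Dir D).filter (fun v => d₀ < hgt v)).filter (fun v => hgt v = d)).card
      ≤ ((Dir D).filter fun v => hgt v = d).card := by
    refine card_le_card fun v hv => ?_
    rw [mem_filter, mem_filter] at hv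
    rw [mem_filter]
    exact ⟨hv.1.1, hv.2⟩
  have h4 := h3.trans (card_hgt D d (by omega))
  calc ((((Dir D).filter (fun v => d₀ < hgt v)).filter (fun v => hgt v = d)).card : ℝ)
      ≤ ((8 * d : ℕ) : ℝ) := by exact_mod_cast h4
    _ = 8 * (d : ℝ) := by push_cast; ring

theorem dir_det {D : ℕ} {v w : ℤ × ℤ} (hv : v ∈ Dir D) (hw : w ∈ Dir D) (h : v ≠ w) :
    v.1 * w.2 - v.2 * w.1 ≠ 0 := by
  intro hdet
  apply h
  unfold Dir at hv hw
  rw [mem_filter, mem_product, mem_Icc, mem_Icc] at hv hw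
  obtain ⟨⟨⟨hv1, _⟩, _⟩, hvg, hv0⟩ := hv
  obtain ⟨⟨⟨hw1, _⟩, _⟩, hwg, hw0⟩ := hw
  have hvc : IsCoprime v.1 v.2 := Int.isCoprime_iff_gcd_eq_one.2 hvg
  have hwc : IsCoprime w.1 w.2 := Int.isCoprime_iff_gcd_eq_one.2 hwg
  have heq : v.1 * w.2 = v.2 * w.1 := by linarith
  have hd1 : v.1 ∣ w.1 := hvc.dvd_of_dvd_mul_left ⟨w.2, heq.symm⟩
  have hd2 : w.1 ∣ v.1 := hwc.dvd_of_dvd_mul_right ⟨v.2, by rw [heq]; ring⟩
  have h1 : v.1 = w.1 := Int.dvd_antisymm hv1 hw1 hd1 hd2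
  by_cases hz : v.1 = 0
  · have h2 := hv0 hz
    have h3 := hw0 (by rw [← h1]; exact hz)
    exact Prod.ext h1 (by rw [h2, h3])
  · rw [← h1] at heq
    have h2 : v.1 * w.2 = v.1 * v.2 := by rw [heq]; ring
    exact Prod.ext h1 (mul_left_cancel₀ hz h2).symm

theorem prim_dir {D : ℕ} {v : ℤ × ℤ} (h : Int.gcd v.1 v.2 = 1) (hD : hgt v ≤ D) :
    v ∈ Dir D ∨ (-v.1, -v.2) ∈ Dir D := by
  unfold hgt at hD
  by_cases h0 : v.1 = 0
  · rw [h0, Int.gcd_zero_left] at h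
    have h1 : v.2 = 1 ∨ v.2 = -1 := by omega
    rcases h1 with h1 | h1
    · left
      unfold Dir
      rw [mem_filter, mem_product, mem_Icc, mem_Icc]
      refine ⟨⟨⟨by omega, by omega⟩, by omega, by omega⟩, ?_, fun _ => h1⟩
      rw [h0, h1]
      norm_num
    · right
      unfold Dir
      rw [mem_filter, mem_product, mem_Icc, mem_Icc]
      refine ⟨⟨⟨by dsimp; omega, by dsimp; omega⟩, by dsimp; omega, by dsimp; omega⟩, ?_,
        fun _ => by dsimp; omega⟩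
      dsimp
      rw [h0, h1]
      norm_num
  · rcases lt_or_gt_of_ne h0 with h1 | h1
    · right
      unfold Dir
      rw [mem_filter, mem_product, mem_Icc, mem_Icc]
      refine ⟨⟨⟨by dsimp; omega, by dsimp; omega⟩, by dsimp; omega, by dsimp; omega⟩, ?_,
        fun h2 => by dsimp at h2; omega⟩
      dsimp
      rw [Int.gcd_neg, Int.neg_gcd]
      exact h
    · left
      unfold Dir
      rw [mem_filter, mem_product, mem_Icc, mem_Icc]
      exact ⟨⟨⟨by omega, by omega⟩, by omega, by omega⟩, h, fun h2 => by omega⟩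

theorem On_neg (v p : ℤ × ℤ) : On (-v.1, -v.2) p = - On v p := by
  unfold On
  ring

theorem hgt_neg (v : ℤ × ℤ) : hgt (-v.1, -v.2) = hgt v := by
  unfold hgt
  simp

/-- `Dir s` is contained in `Dir D` for `s ≤ D` and consists of its elements of height `≤ s` -/
theorem dir_filter {s D : ℕ} (h : s ≤ D) : (Dir D).filter (fun v => hgt v ≤ s) = Dir s := by
  ext v
  rw [mem_filter]
  constructor
  · rintro ⟨h1, h2⟩
    unfold Dir at h1 ⊢
    rw [mem_filter, mem_product, mem_Icc, mem_Icc] at h1 ⊢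
    unfold hgt at h2
    have h3 := h1.1.1
    have h4 := h1.1.2
    exact ⟨⟨⟨by omega, by omega⟩, by omega, by omega⟩, h1.2⟩
  · intro h1
    refine ⟨?_, dir_hgt h1⟩
    unfold Dir at h1 ⊢
    rw [mem_filter, mem_product, mem_Icc, mem_Icc] at h1 ⊢
    have h3 := h1.1.1
    have h4 := h1.1.2
    exact ⟨⟨⟨by omega, by omega⟩, by omega, by omega⟩, h1.2⟩

/-- `∑_{d > d₀} 1/d² ≤ 1/d₀` -/
theorem sum_inv_sq (d₀ D : ℕ) (h : 1 ≤ d₀) :
    ∑ d ∈ Finset.Ioc d₀ D, 1 / (d : ℝ) ^ 2 ≤ 1 / (d₀ : ℝ) := by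
  rcases le_or_gt d₀ D with hD | hD
  · have h1 := sum_Ioc_inv_sq_le_sub (α := ℝ) (k := d₀) (n := D) (by omega) hD
    have h2 : ∑ d ∈ Finset.Ioc d₀ D, 1 / (d : ℝ) ^ 2 = ∑ i ∈ Finset.Ioc d₀ D, ((i : ℝ) ^ 2)⁻¹ :=
      sum_congr rfl fun d _ => by rw [one_div]
    rw [h2, one_div]
    have h3 : (0 : ℝ) ≤ (D : ℝ)⁻¹ := by positivity
    linarith
  · rw [Finset.Ioc_eq_empty (by omega), sum_empty]
    positivity

end Pool.Agent.NKL
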