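import Pool.Agent.NKL.FDefs
import Pool.Agent.NKL.GD1

set_option autoImplicit false

/-!
# NKL / FAV : many points may be removed

`{p ∈ S | (r, p.2) ∈ S}`: `p.2` is one of at most `s` values (`Near.col` at `x = r`), each with at most
`s` points (`Near.row`): at most `s²`.  Similarly `(p.1, c) ∈ S`: at most `s²`.
For `v ∈ Dir s`, `On v (r, p.2) = On v (p.1, c)` says `v.2 p.1 + v.1 p.2 = v.2 r + v.1 c`, i.e.
`On w p = const` with `w = (-v.1, v.2)`: primitive of the same height; if `v = (0,1)` it says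
`p.1 = r`, if `v = (1,0)` it says `p.2 = c`, otherwise use `Near.sml` and `c₁ ≤ s`.  So at most `s`
points for each `v`.
-/

namespace Pool.Agent.NKL

open Finset

private theorem A_card {s c₁ N : ℕ} {ε : ℝ} {S : Finset (ℤ × ℤ)} (h : Near s c₁ N ε S)
    (r : ℤ) : (S.filter fun p => (r, p.2) ∈ S).card ≤ s ^ 2 := by
  classical
  have h1 : (S.filter fun p => (r, p.2) ∈ S) ⊆
      ((S.filter fun p => p.1 = r).image Prod.snd).biUnion (fun y => S.filter fun p => p.2 = y) := by
    intro p hp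
    rw [mem_filter] at hp
    rw [mem_biUnion]
    refine ⟨p.2, ?_, ?_⟩
    · rw [mem_image]
      exact ⟨(r, p.2), mem_filter.2 ⟨hp.2, rfl⟩, rfl⟩
    · exact mem_filter.2 ⟨hp.1, rfl⟩
  refine (card_le_card h1).trans ?_
  refine (card_biUnion_le_card_mul _ _ s (fun y _ => h.row y)).trans ?_
  rw [pow_two]
  exact Nat.mul_le_mul_right _ (card_image_le.trans (h.col r))

private theorem B_card {s c₁ N : ℕ} {ε : ℝ} {S : Finset (ℤ × ℤ)} (h : Near s c₁ N ε S)
    (c : ℤ) : (S.filter fun p => (p.1, c) ∈ S).card ≤ s ^ 2 := by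
  classical
  have h1 : (S.filter fun p => (p.1, c) ∈ S) ⊆
      ((S.filter fun p => p.2 = c).image Prod.fst).biUnion (fun y => S.filter fun p => p.1 = y) := by
    intro p hp
    rw [mem_filter] at hp
    rw [mem_biUnion]
    refine ⟨p.1, ?_, ?_⟩
    · rw [mem_image]
      exact ⟨(p.1, c), mem_filter.2 ⟨hp.2, rfl⟩, rfl⟩
    · exact mem_filter.2 ⟨hp.1, rfl⟩
  refine (card_le_card h1).trans ?_
  refine (card_biUnion_le_card_mul _ _ s (fun y _ => h.col y)).trans ?_
  rw [pow_two]
  exact Nat.mul_le_mul_right _ (card_image_le.trans (h.row c))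

private theorem C_card {s c₁ N : ℕ} (hc : c₁ ≤ s) {ε : ℝ} {S : Finset (ℤ × ℤ)} (h : Near s c₁ N ε S)
    (r c : ℤ) {v : ℤ × ℤ} (hv : v ∈ Dir s) :
    (S.filter fun p => On v (r, p.2) = On v (p.1, c)).card ≤ s := by
  classical
  have hg := dir_gcd hv
  have hh := dir_hgt hv
  have hv' := hv
  unfold Dir at hv'
  rw [mem_filter, mem_product, mem_Icc, mem_Icc] at hv'
  by_cases h0 : v.1 = 0
  · have h2 := hv'.2.2 h0
    refine le_trans (card_le_card ?_) (h.col r)
    intro p hp
    rw [mem_filter] at hp ⊢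
    refine ⟨hp.1, ?_⟩
    have h3 := hp.2
    unfold On at h3
    rw [h0, h2] at h3
    simp only [one_mul, zero_mul, sub_zero] at h3
    exact h3.symm
  · by_cases h1 : v.2 = 0
    · rw [h1, Int.gcd_zero_right] at hg
      have h2 : v.1 = 1 := by
        have := hv'.1.1.1
        omega
      refine le_trans (card_le_card ?_) (h.row c)
      intro p hp
      rw [mem_filter] at hp ⊢
      refine ⟨hp.1, ?_⟩
      have h3 := hp.2
      unfold On at h3
      rw [h1, h2] at h3
      simp only [one_mul, zero_mul, zero_sub] at h3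
      linarith
    · have h2 := h.sml (-v.1, v.2) (by
          show Int.gcd (-v.1) v.2 = 1
          rw [Int.neg_gcd]
          exact hg) (by
          show -v.1 ≠ 0
          omega) h1 (by
          unfold hgt at hh ⊢
          dsimp only
          rw [Int.natAbs_neg]
          exact hh) (v.2 * r + v.1 * c)
      refine le_trans (card_le_card ?_) (h2.trans hc)
      intro p hp
      rw [mem_filter] at hp ⊢
      refine ⟨hp.1, ?_⟩
      have h3 := hp.2
      unfold On at h3 ⊢
      dsimp only at h3 ⊢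
      linarith

theorem avl_card {s c₁ N : ℕ} (hc : c₁ ≤ s) {ε : ℝ} {S : Finset (ℤ × ℤ)} (h : Near s c₁ N ε S)
    (r c : ℤ) : S.card ≤ (avl s S r c).card + 2 * s ^ 2 + s * (Dir s).card := by
  classical
  have h1 : S ⊆ ((avl s S r c ∪ (S.filter fun p => (r, p.2) ∈ S)) ∪ (S.filter fun p => (p.1, c) ∈ S))
      ∪ (Dir s).biUnion (fun v => S.filter fun p => On v (r, p.2) = On v (p.1, c)) := by
    intro p hp
    rw [mem_union, mem_union, mem_union, mem_biUnion]
    by_cases hA : (r, p.2) ∈ S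
    · exact Or.inl (Or.inl (Or.inr (mem_filter.2 ⟨hp, hA⟩)))
    by_cases hB : (p.1, c) ∈ S
    · exact Or.inl (Or.inr (mem_filter.2 ⟨hp, hB⟩))
    by_cases hC : ∀ v ∈ Dir s, On v (r, p.2) ≠ On v (p.1, c)
    · refine Or.inl (Or.inl (Or.inl ?_))
      unfold avl
      rw [mem_filter]
      exact ⟨hp, hA, hB, hC⟩
    · push Not at hC
      obtain ⟨v, hv, he⟩ := hC
      exact Or.inr ⟨v, hv, mem_filter.2 ⟨hp, he⟩⟩
  have h2 := card_le_card h1
  have h3 := card_union_le ((avl s S r c ∪ (S.filter fun p => (r, p.2) ∈ S)) ∪ (S.filter fun p => (p.1, c) ∈ S))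
    ((Dir s).biUnion (fun v => S.filter fun p => On v (r, p.2) = On v (p.1, c)))
  have h4 := card_union_le (avl s S r c ∪ (S.filter fun p => (r, p.2) ∈ S)) (S.filter fun p => (p.1, c) ∈ S)
  have h5 := card_union_le (avl s S r c) (S.filter fun p => (r, p.2) ∈ S)
  have h6 : ((Dir s).biUnion (fun v => S.filter fun p => On v (r, p.2) = On v (p.1, c))).card
      ≤ (Dir s).card * s := card_biUnion_le_card_mul _ _ s (fun v hv => C_card hc h r c hv)
  have h7 := A_card h r
  have h8 := B_card h c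
  rw [Nat.mul_comm] at h6
  omega

theorem avl_sub (s : ℕ) (S : Finset (ℤ × ℤ)) (r c : ℤ) : avl s S r c ⊆ S := by
  unfold avl
  exact filter_subset _ _

/-- the two new cells differ in both coordinates -/
theorem avl_ne {s : ℕ} {S : Finset (ℤ × ℤ)} {r c : ℤ} {p : ℤ × ℤ} (hp : p ∈ avl s S r c) :
    p.1 ≠ r ∧ p.2 ≠ c := by
  unfold avl at hp
  rw [mem_filter] at hp
  obtain ⟨h1, h2, h3, _⟩ := hp
  refine ⟨fun h => h2 ?_, fun h => h3 ?_⟩
  · rw [← h]
    exact h1
  · rw [← h]
    exact h1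

end Pool.Agent.NKL
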