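import Pool.Agent.NKL.F2D
import Pool.Agent.NKL.FAV

set_option autoImplicit false

/-!
# NKL / F2A : many points may be removed

`S \ avl` has at most `2 s² + s |Dir s|` points (`avl_card`).  At least `β N` points `p ∈ S` have both
new cells safe (`Near2.avail`).  `dgs ≥ 0`; by `dsum` for the column `r` the number of `z` of this
column with `dgs z > η₂` is at most `η N/η₂`, each is `(r, p.2)` for at most `s` points `p ∈ S`
(`Near.row`); the same for the row `c` (`Near.col`).  If the last condition of `avl2` fails, then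
`p ∈ bdp S r c` (`(r, p.2) ∉ S`, `(p.1, c) ∉ S` by `avl`).  Total loss at most
`2 s² + s |Dir s| + 2 s η N/η₂ + (β/8) N ≤ (β/2) N`.
-/

namespace Pool.Agent.NKL

open Finset

variable {s N : ℕ} {ε β η : ℝ} {S : Finset (ℤ × ℤ)}

private theorem f2a_wh {ε : ℝ} (hε : 0 ≤ ε) (v : ℤ × ℤ) : 0 ≤ wh ε v := by
  unfold wh
  exact le_min hε (by positivity)

theorem dgs_nonneg (s N : ℕ) {ε : ℝ} (hε : 0 ≤ ε) (S : Finset (ℤ × ℤ)) (z : ℤ × ℤ) :
    0 ≤ dgs s N ε S z := by
  unfold dgs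
  refine Finset.sum_nonneg fun v _ => ?_
  have h := f2a_wh hε v
  refine add_nonneg ?_ ?_
  · split_ifs
    · exact h
    · exact le_refl _
  · split_ifs
    · positivity
    · exact le_refl _

private theorem f2a_markov (hε : 0 ≤ ε) {η₂ : ℝ} (Z : Finset (ℤ × ℤ))
    {M : ℝ} (hM : ∑ z ∈ Z, dgs s N ε S z ≤ M) :
    ((Z.filter fun z => η₂ < dgs s N ε S z).card : ℝ) * η₂ ≤ M := by
  calc ((Z.filter fun z => η₂ < dgs s N ε S z).card : ℝ) * η₂
      = ∑ _z ∈ Z.filter (fun z => η₂ < dgs s N ε S z), η₂ := by rw [sum_const, nsmul_eq_mul]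
    _ ≤ ∑ z ∈ Z.filter (fun z => η₂ < dgs s N ε S z), dgs s N ε S z :=
        sum_le_sum fun z hz => (mem_filter.1 hz).2.le
    _ ≤ ∑ z ∈ Z, dgs s N ε S z :=
        sum_le_sum_of_subset_of_nonneg (filter_subset _ _) fun z _ _ => dgs_nonneg s N hε S z
    _ ≤ M := hM

private theorem f2a_row (h : Near2 s N ε β η S) (hε : 0 ≤ ε) {η₂ : ℝ} {r : ℤ}
    (hr : 0 ≤ r) (hr' : r < N) (hη₂ : 0 < η₂) :
    ((S.filter fun p => η₂ < dgs s N ε S (r, p.2)).card : ℝ) * η₂ ≤ s * (η * N) := by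
  classical
  have h1 := f2a_markov (s := s) (N := N) (S := S) (η₂ := η₂) hε (Zl N (false, r)) (h.dsum (false, r) hr hr')
  have h2 : (S.filter fun p => η₂ < dgs s N ε S (r, p.2)) ⊆
      ((Zl N (false, r)).filter fun z => η₂ < dgs s N ε S z).biUnion (fun z => S.filter fun p => p.2 = z.2) := by
    intro p hp
    rw [mem_filter] at hp
    rw [mem_biUnion]
    refine ⟨(r, p.2), ?_, mem_filter.2 ⟨hp.1, rfl⟩⟩
    rw [mem_filter]
    refine ⟨?_, hp.2⟩
    unfold Zl
    rw [mem_filter]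
    refine ⟨?_, by simp⟩
    have h3 := h.near.sub hp.1
    unfold grid at h3 ⊢
    rw [mem_product, mem_Ico, mem_Ico] at h3 ⊢
    exact ⟨⟨hr, hr'⟩, h3.2⟩
  have h3 := (card_le_card h2).trans (card_biUnion_le_card_mul _ _ s (fun z _ => h.near.row z.2))
  have h4 : ((S.filter fun p => η₂ < dgs s N ε S (r, p.2)).card : ℝ) ≤
      (((Zl N (false, r)).filter fun z => η₂ < dgs s N ε S z).card : ℝ) * s := by exact_mod_cast h3
  calc ((S.filter fun p => η₂ < dgs s N ε S (r, p.2)).card : ℝ) * η₂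
      ≤ ((((Zl N (false, r)).filter fun z => η₂ < dgs s N ε S z).card : ℝ) * s) * η₂ :=
        mul_le_mul_of_nonneg_right h4 hη₂.le
    _ = s * ((((Zl N (false, r)).filter fun z => η₂ < dgs s N ε S z).card : ℝ) * η₂) := by ring
    _ ≤ s * (η * N) := mul_le_mul_of_nonneg_left h1 (by positivity)

private theorem f2a_col (h : Near2 s N ε β η S) (hε : 0 ≤ ε) {η₂ : ℝ} {c : ℤ}
    (hr : 0 ≤ c) (hr' : c < N) (hη₂ : 0 < η₂) :
    ((S.filter fun p => η₂ < dgs s N ε S (p.1, c)).card : ℝ) * η₂ ≤ s * (η * N) := by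
  classical
  have h1 := f2a_markov (s := s) (N := N) (S := S) (η₂ := η₂) hε (Zl N (true, c)) (h.dsum (true, c) hr hr')
  have h2 : (S.filter fun p => η₂ < dgs s N ε S (p.1, c)) ⊆
      ((Zl N (true, c)).filter fun z => η₂ < dgs s N ε S z).biUnion (fun z => S.filter fun p => p.1 = z.1) := by
    intro p hp
    rw [mem_filter] at hp
    rw [mem_biUnion]
    refine ⟨(p.1, c), ?_, mem_filter.2 ⟨hp.1, rfl⟩⟩
    rw [mem_filter]
    refine ⟨?_, hp.2⟩
    unfold Zl
    rw [mem_filter]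
    refine ⟨?_, by simp⟩
    have h3 := h.near.sub hp.1
    unfold grid at h3 ⊢
    rw [mem_product, mem_Ico, mem_Ico] at h3 ⊢
    exact ⟨h3.1, ⟨hr, hr'⟩⟩
  have h3 := (card_le_card h2).trans (card_biUnion_le_card_mul _ _ s (fun z _ => h.near.col z.1))
  have h4 : ((S.filter fun p => η₂ < dgs s N ε S (p.1, c)).card : ℝ) ≤
      (((Zl N (true, c)).filter fun z => η₂ < dgs s N ε S z).card : ℝ) * s := by exact_mod_cast h3
  calc ((S.filter fun p => η₂ < dgs s N ε S (p.1, c)).card : ℝ) * η₂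
      ≤ ((((Zl N (true, c)).filter fun z => η₂ < dgs s N ε S z).card : ℝ) * s) * η₂ :=
        mul_le_mul_of_nonneg_right h4 hη₂.le
    _ = s * ((((Zl N (true, c)).filter fun z => η₂ < dgs s N ε S z).card : ℝ) * η₂) := by ring
    _ ≤ s * (η * N) := mul_le_mul_of_nonneg_left h1 (by positivity)

theorem avl2_card (h : Near2 s N ε β η S) (hε : 0 ≤ ε) (hβ : 0 < β) {η₂ : ℝ} (hη₂ : 0 < η₂)
    (hη : 16 * s * η ≤ β * η₂) (hN : 2 * (s : ℝ) ^ 2 + s * (Dir s).card ≤ β / 8 * N) {r c : ℤ}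
    (hr : 0 ≤ r) (hr' : r < N) (hc : 0 ≤ c) (hc' : c < N)
    (hb : ((bdp S r c).card : ℝ) ≤ β / 8 * N) :
    β / 2 * N ≤ (avl2 s N ε η₂ S r c).card := by
  classical
  have hA := h.avail r c hr hr' hc hc'
  have h1 : (S.filter fun p => Safe s S (r, p.2) ∧ Safe s S (p.1, c)) ⊆
      (((avl2 s N ε η₂ S r c ∪ (S \ avl s S r c)) ∪ (S.filter fun p => η₂ < dgs s N ε S (r, p.2)))
        ∪ (S.filter fun p => η₂ < dgs s N ε S (p.1, c))) ∪ bdp S r c := by
    intro p hp
    rw [mem_filter] at hp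
    obtain ⟨hpS, hp1, hp2⟩ := hp
    by_cases ha : p ∈ avl s S r c
    · by_cases hb1 : η₂ < dgs s N ε S (r, p.2)
      · exact mem_union_left _ (mem_union_left _ (mem_union_right _ (mem_filter.2 ⟨hpS, hb1⟩)))
      by_cases hb2 : η₂ < dgs s N ε S (p.1, c)
      · exact mem_union_left _ (mem_union_right _ (mem_filter.2 ⟨hpS, hb2⟩))
      by_cases hb3 : ∀ v, Skew v → On v (r, p.2) = On v (p.1, c) →
          (S.filter fun q => On v q = On v (r, p.2)).card ≤ 1
      · refine mem_union_left _ (mem_union_left _ (mem_union_left _ (mem_union_left _ ?_)))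
        unfold avl2
        rw [mem_filter]
        exact ⟨ha, hp1, hp2, not_lt.1 hb1, not_lt.1 hb2, hb3⟩
      · refine mem_union_right _ ?_
        push Not at hb3
        obtain ⟨v, hv1, hv2, hv3⟩ := hb3
        unfold bdp
        rw [mem_filter]
        unfold avl at ha
        rw [mem_filter] at ha
        exact ⟨hpS, ha.2.1, ha.2.2.1, v, hv1, hv2, hv3⟩
    · exact mem_union_left _ (mem_union_left _ (mem_union_left _ (mem_union_right _
        (mem_sdiff.2 ⟨hpS, ha⟩))))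
  have h2 := card_le_card h1
  have h3 := card_union_le (((avl2 s N ε η₂ S r c ∪ (S \ avl s S r c)) ∪ (S.filter fun p => η₂ < dgs s N ε S (r, p.2)))
        ∪ (S.filter fun p => η₂ < dgs s N ε S (p.1, c))) (bdp S r c)
  have h4 := card_union_le ((avl2 s N ε η₂ S r c ∪ (S \ avl s S r c)) ∪ (S.filter fun p => η₂ < dgs s N ε S (r, p.2)))
    (S.filter fun p => η₂ < dgs s N ε S (p.1, c))
  have h5 := card_union_le (avl2 s N ε η₂ S r c ∪ (S \ avl s S r c)) (S.filter fun p => η₂ < dgs s N ε S (r, p.2))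
  have h6 := card_union_le (avl2 s N ε η₂ S r c) (S \ avl s S r c)
  have h7 : (S.filter fun p => Safe s S (r, p.2) ∧ Safe s S (p.1, c)).card ≤
      (avl2 s N ε η₂ S r c).card + (S \ avl s S r c).card + (S.filter fun p => η₂ < dgs s N ε S (r, p.2)).card
        + (S.filter fun p => η₂ < dgs s N ε S (p.1, c)).card + (bdp S r c).card := by omega
  have h8 : (S \ avl s S r c).card ≤ 2 * s ^ 2 + s * (Dir s).card := by
    have h9 := avl_card (le_refl s) h.near r c
    have h10 := card_sdiff_add_card_eq_card (avl_sub s S r c)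
    omega
  have h8' : ((S \ avl s S r c).card : ℝ) ≤ β / 8 * N := by
    refine le_trans ?_ hN
    exact_mod_cast h8
  have h11 := f2a_row h hε hr hr' hη₂
  have h12 := f2a_col h hε hc hc' hη₂
  have hs : (s : ℝ) * (η * N) ≤ (β / 16 * N) * η₂ := by
    have hN0 : (0 : ℝ) ≤ N := by positivity
    nlinarith [mul_le_mul_of_nonneg_right hη hN0]
  have h13 : ((S.filter fun p => η₂ < dgs s N ε S (r, p.2)).card : ℝ) ≤ β / 16 * N :=
    le_of_mul_le_mul_right (h11.trans hs) hη₂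
  have h14 : ((S.filter fun p => η₂ < dgs s N ε S (p.1, c)).card : ℝ) ≤ β / 16 * N :=
    le_of_mul_le_mul_right (h12.trans hs) hη₂
  have h15 : ((S.filter fun p => Safe s S (r, p.2) ∧ Safe s S (p.1, c)).card : ℝ) ≤
      (avl2 s N ε η₂ S r c).card + (S \ avl s S r c).card + (S.filter fun p => η₂ < dgs s N ε S (r, p.2)).card
        + (S.filter fun p => η₂ < dgs s N ε S (p.1, c)).card + (bdp S r c).card := by exact_mod_cast h7
  have h16 : (0 : ℝ) ≤ β * N := by positivity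
  linarith

theorem avl2_sub (s N : ℕ) (ε η₂ : ℝ) (S : Finset (ℤ × ℤ)) (r c : ℤ) :
    avl2 s N ε η₂ S r c ⊆ avl s S r c := by
  classical
  unfold avl2
  exact filter_subset _ _

end Pool.Agent.NKL
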