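import Pool.Agent.NKL.FDefs

set_option autoImplicit false

/-!
# NKL / F2D : stage 2, definitions for the exchange (definitions only)
-/

namespace Pool.Agent.NKL

open Finset

/-- base lines: a column (`false`) or a row (`true`) of the grid -/
noncomputable def Zl (N : ℕ) (κ : Bool × ℤ) : Finset (ℤ × ℤ) :=
  (grid N).filter fun z => if κ.1 then z.2 = κ.2 else z.1 = κ.2

/-- skew directions of height at most `H` -/
noncomputable def SDir (H : ℕ) : Finset (ℤ × ℤ) := (Dir H).filter fun v => v.1 ≠ 0 ∧ v.2 ≠ 0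

/-- weight of a direction -/
noncomputable def wh (ε : ℝ) (v : ℤ × ℤ) : ℝ := min ε (1 / (hgt v : ℝ))

/-- number of points of `S` different from `z` on the line of direction `v` through `z` -/
def dg0 (S : Finset (ℤ × ℤ)) (v z : ℤ × ℤ) : ℕ := (S.filter fun q => q ≠ z ∧ On v q = On v z).card

/-- every skew line through `z` has at most `s - 1` points of `S` different from `z` -/
def Safe (s : ℕ) (S : Finset (ℤ × ℤ)) (z : ℤ × ℤ) : Prop := ∀ v, Skew v → dg0 S v z + 1 ≤ s

/-- the weighted number of the lines through `z` with at least `s - 1`, resp. `s - 2` points -/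
noncomputable def dgs (s N : ℕ) (ε : ℝ) (S : Finset (ℤ × ℤ)) (z : ℤ × ℤ) : ℝ :=
  ∑ v ∈ SDir N, ((if s ≤ dg0 S v z + 1 then wh ε v else 0)
    + (if s ≤ dg0 S v z + 2 then wh ε v ^ 2 else 0))

/-- the number of directions with at least two points of `S` -/
noncomputable def deg2 (N : ℕ) (S : Finset (ℤ × ℤ)) (z : ℤ × ℤ) : ℕ :=
  ((SDir N).filter fun v => 2 ≤ dg0 S v z).card

open Classical in
/-- near-perfect sets with control of the lines through the cells of every row and column -/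
structure Near2 (s N : ℕ) (ε β η : ℝ) (S : Finset (ℤ × ℤ)) : Prop where
  near : Near s s N ε S
  card' : (S.card : ℝ) ≤ ((s : ℝ) - ε / 2) * N
  avail : ∀ r c : ℤ, 0 ≤ r → r < N → 0 ≤ c → c < N →
    β * N ≤ (S.filter fun p => Safe s S (r, p.2) ∧ Safe s S (p.1, c)).card
  dsum : ∀ κ : Bool × ℤ, 0 ≤ κ.2 → κ.2 < N → ∑ z ∈ Zl N κ, dgs s N ε S z ≤ η * N
  deg : ∀ z ∈ grid N, deg2 N S z ^ 10 ≤ N

open Classical in
/-- the points which may be removed -/
noncomputable def avl2 (s N : ℕ) (ε η₂ : ℝ) (S : Finset (ℤ × ℤ)) (r c : ℤ) : Finset (ℤ × ℤ) :=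
  (avl s S r c).filter fun p => Safe s S (r, p.2) ∧ Safe s S (p.1, c) ∧
    dgs s N ε S (r, p.2) ≤ η₂ ∧ dgs s N ε S (p.1, c) ≤ η₂ ∧
    ∀ v, Skew v → On v (r, p.2) = On v (p.1, c) →
      (S.filter fun q => On v q = On v (r, p.2)).card ≤ 1

open Classical in
/-- the points `p` for which the line through the two new cells has at least two points of `S` -/
noncomputable def bdp (S : Finset (ℤ × ℤ)) (r c : ℤ) : Finset (ℤ × ℤ) :=
  S.filter fun p => (r, p.2) ∉ S ∧ (p.1, c) ∉ S ∧ ∃ v, Skew v ∧ On v (r, p.2) = On v (p.1, c) ∧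
    2 ≤ (S.filter fun q => On v q = On v (r, p.2)).card

variable {ι : Type}

/-- new cells of two exchanges on a line with at least `s - 1` points of `S` -/
def B2s (s : ℕ) (S : Finset (ℤ × ℤ)) (r c : ι → ℤ) (i j : ι) (p q : ℤ × ℤ) : Prop :=
  ∃ β γ, sl (r i) (c i) β p ≠ sl (r j) (c j) γ q ∧ ∃ v, Skew v ∧
    On v (sl (r j) (c j) γ q) = On v (sl (r i) (c i) β p) ∧
    s ≤ (S.filter fun u => On v u = On v (sl (r i) (c i) β p)).card + 1

/-- both new cells of `i` and a new cell of `j` on a skew line -/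
def B2a (r c : ι → ℤ) (i j : ι) (p q : ℤ × ℤ) : Prop :=
  ∃ v, Skew v ∧ On v (sl (r i) (c i) false p) = On v (sl (r i) (c i) true p) ∧
    ∃ γ, On v (sl (r j) (c j) γ q) = On v (sl (r i) (c i) true p)

/-- new cells of three exchanges on a line with at least `s - 2` points of `S` -/
def B3s (s : ℕ) (S : Finset (ℤ × ℤ)) (r c : ι → ℤ) (i j k : ι) (p q u : ℤ × ℤ) : Prop :=
  ∃ β₁ β₂ β₃, [sl (r i) (c i) β₁ p, sl (r j) (c j) β₂ q, sl (r k) (c k) β₃ u].Nodup ∧
    ∃ v, Skew v ∧ On v (sl (r j) (c j) β₂ q) = On v (sl (r i) (c i) β₁ p) ∧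
      On v (sl (r k) (c k) β₃ u) = On v (sl (r i) (c i) β₁ p) ∧
      s ≤ (S.filter fun w => On v w = On v (sl (r i) (c i) β₁ p)).card + 2

end Pool.Agent.NKL
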