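import Mathlib

set_option autoImplicit false

/-!
# NKL / F2H : dense bipartite graphs have a perfect matching

Hall's theorem (`Finset.all_card_le_biUnion_card_iff_exists_injective`) for `t i = {j | P i j}`: let `A`
be a set of left vertices, `A ≠ ∅`.  If `2 |A| ≤ L`, then `|⋃ t i| ≥ |t i₀| ≥ L/2 ≥ |A|`.  If
`2 |A| > L`, then every `j` has a neighbour in `A` (at least `L/2` neighbours, and fewer than `L/2`
vertices are outside `A`), so the union is everything.  An injective map `Fin L → Fin L` is a
permutation.
-/

namespace Pool.Agent.NKL

open Finset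

open Classical in
theorem dense_matching {L : ℕ} (P : Fin L → Fin L → Prop)
    (h1 : ∀ i, L ≤ 2 * (univ.filter fun j => P i j).card)
    (h2 : ∀ j, L ≤ 2 * (univ.filter fun i => P i j).card) :
    ∃ σ : Equiv.Perm (Fin L), ∀ i, P i (σ i) := by
  have hall : ∀ A : Finset (Fin L), A.card ≤ (A.biUnion fun i => univ.filter fun j => P i j).card := by
    intro A
    rcases A.eq_empty_or_nonempty with rfl | ⟨i₀, hi₀⟩
    · simp
    rcases Nat.lt_or_ge L (2 * A.card) with h | h
    · have h3 : (A.biUnion fun i => univ.filter fun j => P i j) = univ := by
        rw [eq_univ_iff_forall]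
        intro j
        rw [mem_biUnion]
        by_contra hcon
        have hdis : Disjoint A (univ.filter fun i => P i j) := by
          rw [disjoint_left]
          intro i hi hij
          exact hcon ⟨i, hi, mem_filter.2 ⟨mem_univ _, (mem_filter.1 hij).2⟩⟩
        have h4 := card_le_univ (A ∪ univ.filter fun i => P i j)
        rw [card_union_of_disjoint hdis, Fintype.card_fin] at h4
        have h5 := h2 j
        omega
      rw [h3, card_univ]
      exact card_le_univ A
    · have h3 : (univ.filter fun j => P i₀ j) ⊆ (A.biUnion fun i => univ.filter fun j => P i j) :=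
        subset_biUnion_of_mem (fun i => univ.filter fun j => P i j) hi₀
      have h4 := card_le_card h3
      have h5 := h1 i₀
      omega
  obtain ⟨f, hf, hfm⟩ := (all_card_le_biUnion_card_iff_exists_injective
    (fun i => univ.filter fun j => P i j)).1 hall
  refine ⟨Equiv.ofBijective f (Finite.injective_iff_bijective.1 hf), fun i => ?_⟩
  have h3 := hfm i
  exact (mem_filter.1 h3).2

end Pool.Agent.NKL
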