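import Pool.Agent.NKL.LL4

set_option autoImplicit false

/-!
# NKL / F2L : the local lemma of stage 2 (copy of LL4)

Like `ll4` with the events: `P2` (pairs, symmetric), `Pa` (pairs, not symmetric), `P3` (triples,
symmetric), `P4` (quadruples, symmetric); `β = 1/2`.  The sum in `lll` at a coordinate `v`:
`4 (2 δ)` (`P2`) `+ 4 (2 δ)` (`Pa`: `v` first: `ha1`; `v` second: for each `i` the probability of
`Pa i v` is at most `δ/|ι|` by `ha2` and `pr_two`) `+ 8 (3 δ)` (`P3`, `h3` and `hs3`) `+ 16 (4 δ)`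
(`P4`): `104 δ ≤ 1/2`.
-/

namespace Pool.Agent.NKL

open Finset Pool.Agent.ChPi

section

variable {ι Ω : Type} [Fintype ι] [DecidableEq ι] [Fintype Ω] [DecidableEq Ω]

omit [Fintype ι] in
private theorem f2l_ite (s : Finset ι) (n : ℕ) (hn : s.card ≤ n) (v : ι) {x Y : ℝ}
    (hY : 0 ≤ Y) (hYv : v ∈ s → x ≤ Y) :
    (if v ∈ s then x * ((1 / 2 : ℝ)⁻¹) ^ s.card else 0) ≤ 2 ^ n * Y := by
  split_ifs with h
  · have h1 : ((1 / 2 : ℝ)⁻¹) ^ s.card ≤ 2 ^ n := by
      rw [one_div, inv_inv]
      exact pow_le_pow_right₀ (by norm_num) hn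
    calc x * ((1 / 2 : ℝ)⁻¹) ^ s.card ≤ Y * 2 ^ n :=
          mul_le_mul (hYv h) h1 (by positivity) hY
      _ = 2 ^ n * Y := mul_comm _ _
  · positivity

open Classical in
private theorem f2l_fin [Nonempty ι]
    (A : ι → Finset Ω) {a0 δ : ℝ} (ha0 : 0 < a0) (ha : ∀ i, a0 ≤ (A i).card)
    (hδ : δ ≤ 1 / 256)
    (P2 Pa : ι → ι → Ω → Ω → Prop) (P3 : ι → ι → ι → Ω → Ω → Ω → Prop)
    (P4 : ι → ι → ι → ι → Ω → Ω → Ω → Ω → Prop)
    (hs2 : ∀ i j p q, P2 i j p q → P2 j i q p)
    (hs3 : ∀ i j k p q u, P3 i j k p q u → P3 j i k q p u ∧ P3 k j i u q p)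
    (hs4 : ∀ i j k l p q u w, P4 i j k l p q u w →
      P4 j i k l q p u w ∧ P4 k j i l u q p w ∧ P4 l j k i w q u p)
    (h2 : ∀ i, ∀ p ∈ A i, ((∑ j, (univ.filter fun q => P2 i j p q).card : ℕ) : ℝ) ≤ δ * a0)
    (ha1 : ∀ i, ∀ p ∈ A i, ((∑ j, (univ.filter fun q => Pa i j p q).card : ℕ) : ℝ) ≤ δ * a0)
    (ha2 : ∀ i j, ∀ p ∈ A i,
      (Fintype.card ι : ℝ) * ((univ.filter fun q => Pa i j p q).card : ℝ) ≤ δ * a0)
    (h3a : ∀ i, ∀ p ∈ A i,
      ((∑ j, ∑ k, (univ.filter fun z : Ω × Ω => P3 i j k p z.1 z.2).card : ℕ) : ℝ) ≤ δ * a0 ^ 2)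
    (h4 : ∀ i, ∀ p ∈ A i, ((∑ j, ∑ k, ∑ l,
      (univ.filter fun z : Ω × Ω × Ω => P4 i j k l p z.1 z.2.1 z.2.2).card : ℕ) : ℝ) ≤
        δ * a0 ^ 3) :
    ∃ ω : ι → Ω, (∀ i, ω i ∈ A i) ∧ (∀ i j, i ≠ j → ¬ P2 i j (ω i) (ω j)) ∧
      (∀ i j, i ≠ j → ¬ Pa i j (ω i) (ω j)) ∧
      (∀ i j k, i ≠ j → i ≠ k → j ≠ k → ¬ P3 i j k (ω i) (ω j) (ω k)) ∧
      (∀ i j k l, [i, j, k, l].Nodup → ¬ P4 i j k l (ω i) (ω j) (ω k) (ω l)) := by
  have hAne : ∀ i, (A i).Nonempty := fun i => by
    rw [← Finset.card_pos]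
    have := ha i
    have h1 : (0 : ℝ) < (A i).card := lt_of_lt_of_le ha0 this
    exact_mod_cast h1
  have hδ0 : 0 ≤ δ := by
    obtain ⟨i⟩ := ‹Nonempty ι›
    obtain ⟨p, hp⟩ := hAne i
    have h1 := h2 i p hp
    have h3 : (0 : ℝ) ≤ δ * a0 := le_trans (Nat.cast_nonneg _) h1
    by_contra hlt
    push Not at hlt
    have := mul_neg_of_neg_of_pos hlt ha0
    linarith
  have hcι : (0 : ℝ) < Fintype.card ι := by exact_mod_cast Fintype.card_pos
  set pp := unif A with hpp
  have hp0 : ∀ v o, 0 ≤ pp v o := fun v o => unif_nonneg A v o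
  have hp1 : ∀ v, ∑ o, pp v o = 1 := fun v => unif_sum A hAne v
  have hPn : ∀ B : (ι → Ω) → Prop, 0 ≤ Pr pp B := fun B => L.Pr_nonneg hp0 B
  -- pairs
  have e2 : ∀ v, ∑ j ∈ univ.filter (fun j => j ≠ v), Pr pp (fun ω => P2 v j (ω v) (ω j)) ≤ δ := by
    intro v
    have h := pr_two_sum A hAne ha0 ha v (P2 v) (X := δ * a0) ?_
    · rwa [mul_div_assoc, div_self ha0.ne', mul_one] at h
    · intro a haA
      refine le_trans ?_ (h2 v a haA)
      push_cast
      refine (Finset.sum_le_sum fun j _ => ?_).trans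
        (Finset.sum_le_sum_of_subset_of_nonneg (Finset.filter_subset _ _)
          fun j _ _ => Nat.cast_nonneg _)
      exact_mod_cast Finset.card_le_card (Finset.filter_subset_filter _ (Finset.subset_univ _))
  have eA : ∀ v, ∑ j ∈ univ.filter (fun j => j ≠ v), Pr pp (fun ω => Pa v j (ω v) (ω j)) ≤ δ := by
    intro v
    have h := pr_two_sum A hAne ha0 ha v (Pa v) (X := δ * a0) ?_
    · rwa [mul_div_assoc, div_self ha0.ne', mul_one] at h
    · intro a haA
      refine le_trans ?_ (ha1 v a haA)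
      push_cast
      refine (Finset.sum_le_sum fun j _ => ?_).trans
        (Finset.sum_le_sum_of_subset_of_nonneg (Finset.filter_subset _ _)
          fun j _ _ => Nat.cast_nonneg _)
      exact_mod_cast Finset.card_le_card (Finset.filter_subset_filter _ (Finset.subset_univ _))
  have eA' : ∀ v, ∑ j ∈ univ.filter (fun j => j ≠ v),
      Pr pp (fun ω => Pa j v (ω j) (ω v)) ≤ δ := by
    intro v
    have h3 : ∀ i ∈ univ.filter (fun i => i ≠ v),
        Pr pp (fun ω => Pa i v (ω i) (ω v)) ≤ δ / Fintype.card ι := by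
      intro i hi
      have h := pr_two A hAne ha0 ha (Finset.mem_filter.1 hi).2 (Pa i v)
        (X := δ / Fintype.card ι * a0) ?_
      · rwa [mul_div_assoc, div_self ha0.ne', mul_one] at h
      · intro a haA
        have h5 := ha2 i v a haA
        have h6 : ((univ.filter fun q => Pa i v a q).card : ℝ) ≤ δ / Fintype.card ι * a0 := by
          rw [div_mul_eq_mul_div, le_div_iff₀ hcι, mul_comm]
          exact h5
        refine le_trans ?_ h6
        exact_mod_cast Finset.card_le_card (Finset.filter_subset_filter _ (Finset.subset_univ _))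
    refine (Finset.sum_le_sum h3).trans ?_
    rw [Finset.sum_const, nsmul_eq_mul]
    have h4 : ((univ.filter (fun i => i ≠ v)).card : ℝ) ≤ Fintype.card ι := by
      exact_mod_cast Finset.card_le_univ _
    calc ((univ.filter (fun i => i ≠ v)).card : ℝ) * (δ / Fintype.card ι) ≤
        Fintype.card ι * (δ / Fintype.card ι) :=
          mul_le_mul_of_nonneg_right h4 (div_nonneg hδ0 hcι.le)
      _ = δ := mul_div_cancel₀ _ hcι.ne'
  have e2' : ∀ v, ∑ j ∈ univ.filter (fun j => j ≠ v),
      Pr pp (fun ω => P2 j v (ω j) (ω v)) ≤ δ := by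
    intro v
    refine le_trans (Finset.sum_le_sum fun j _ => L.Pr_mono hp0 ?_) (e2 v)
    exact fun ω h => hs2 _ _ _ _ h
  -- triples
  have e3 : ∀ v, ∑ z ∈ univ.filter (fun z : ι × ι => z.1 ≠ v ∧ z.2 ≠ v ∧ z.1 ≠ z.2),
      Pr pp (fun ω => P3 v z.1 z.2 (ω v) (ω z.1) (ω z.2)) ≤ δ := by
    intro v
    have h := pr_three_sum A hAne ha0 ha v
      (univ.filter (fun z : ι × ι => z.1 ≠ v ∧ z.2 ≠ v ∧ z.1 ≠ z.2))
      (fun z hz => (Finset.mem_filter.1 hz).2) (P3 v) (X := δ * a0 ^ 2) ?_
    · rwa [mul_div_assoc, div_self (pow_ne_zero 2 ha0.ne'), mul_one] at h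
    · intro a haA
      refine le_trans ?_ (h3a v a haA)
      rw [← Fintype.sum_prod_type' (f := fun j k =>
        (univ.filter fun z : Ω × Ω => P3 v j k a z.1 z.2).card)]
      push_cast
      refine (Finset.sum_le_sum fun j _ => ?_).trans
        (Finset.sum_le_sum_of_subset_of_nonneg (Finset.filter_subset _ _)
          fun j _ _ => Nat.cast_nonneg _)
      exact_mod_cast Finset.card_le_card (Finset.filter_subset_filter _ (Finset.subset_univ _))
  have e3' : ∀ v, ∑ z ∈ univ.filter (fun z : ι × ι => z.1 ≠ v ∧ z.2 ≠ v ∧ z.1 ≠ z.2),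
      Pr pp (fun ω => P3 z.1 v z.2 (ω z.1) (ω v) (ω z.2)) ≤ δ := by
    intro v
    refine le_trans (Finset.sum_le_sum fun j _ => L.Pr_mono hp0 ?_) (e3 v)
    exact fun ω h => (hs3 _ _ _ _ _ _ h).1
  have e3'' : ∀ v, ∑ z ∈ univ.filter (fun z : ι × ι => z.1 ≠ v ∧ z.2 ≠ v ∧ z.1 ≠ z.2),
      Pr pp (fun ω => P3 z.1 z.2 v (ω z.1) (ω z.2) (ω v)) ≤ δ := by
    intro v
    refine le_trans (Finset.sum_le_sum fun j _ => L.Pr_mono hp0 ?_) (e3 v)
    exact fun ω h => (hs3 _ _ _ _ _ _ (hs3 _ _ _ _ _ _ h).1).2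
  -- quadruples
  have e4 : ∀ v, ∑ z ∈ univ.filter (fun z : ι × ι × ι => [v, z.1, z.2.1, z.2.2].Nodup),
      Pr pp (fun ω => P4 v z.1 z.2.1 z.2.2 (ω v) (ω z.1) (ω z.2.1) (ω z.2.2)) ≤ δ := by
    intro v
    have h := pr_four_sum A hAne ha0 ha v
      (univ.filter (fun z : ι × ι × ι => [v, z.1, z.2.1, z.2.2].Nodup))
      (fun z hz => (Finset.mem_filter.1 hz).2) (P4 v) (X := δ * a0 ^ 3) ?_
    · rwa [mul_div_assoc, div_self (pow_ne_zero 3 ha0.ne'), mul_one] at h
    · intro a haA
      refine le_trans ?_ (h4 v a haA)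
      have h8 : (∑ j, ∑ k, ∑ l,
          (univ.filter fun z : Ω × Ω × Ω => P4 v j k l a z.1 z.2.1 z.2.2).card) =
          ∑ y : ι × ι × ι,
            (univ.filter fun z : Ω × Ω × Ω => P4 v y.1 y.2.1 y.2.2 a z.1 z.2.1 z.2.2).card := by
        rw [Fintype.sum_prod_type]
        refine Finset.sum_congr rfl fun j _ => ?_
        rw [Fintype.sum_prod_type]
      rw [h8]
      push_cast
      refine (Finset.sum_le_sum fun j _ => ?_).trans
        (Finset.sum_le_sum_of_subset_of_nonneg (Finset.filter_subset _ _)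
          fun j _ _ => Nat.cast_nonneg _)
      exact_mod_cast Finset.card_le_card (Finset.filter_subset_filter _ (Finset.subset_univ _))
  have e4b : ∀ v, ∑ z ∈ univ.filter (fun z : ι × ι × ι => [v, z.1, z.2.1, z.2.2].Nodup),
      Pr pp (fun ω => P4 z.1 v z.2.1 z.2.2 (ω z.1) (ω v) (ω z.2.1) (ω z.2.2)) ≤ δ := by
    intro v
    refine le_trans (Finset.sum_le_sum fun j _ => L.Pr_mono hp0 ?_) (e4 v)
    exact fun ω h => (hs4 _ _ _ _ _ _ _ _ h).1
  have e4c : ∀ v, ∑ z ∈ univ.filter (fun z : ι × ι × ι => [v, z.1, z.2.1, z.2.2].Nodup),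
      Pr pp (fun ω => P4 z.2.1 z.1 v z.2.2 (ω z.2.1) (ω z.1) (ω v) (ω z.2.2)) ≤ δ := by
    intro v
    refine le_trans (Finset.sum_le_sum fun j _ => L.Pr_mono hp0 ?_) (e4 v)
    exact fun ω h => (hs4 _ _ _ _ _ _ _ _ h).2.1
  have e4d : ∀ v, ∑ z ∈ univ.filter (fun z : ι × ι × ι => [v, z.1, z.2.1, z.2.2].Nodup),
      Pr pp (fun ω => P4 z.2.2 z.1 z.2.1 v (ω z.2.2) (ω z.1) (ω z.2.1) (ω v)) ≤ δ := by
    intro v
    refine le_trans (Finset.sum_le_sum fun j _ => L.Pr_mono hp0 ?_) (e4 v)
    exact fun ω h => (hs4 _ _ _ _ _ _ _ _ h).2.2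
  -- the local lemma
  set T2 : Finset (ι × ι) := univ.filter fun z => z.1 ≠ z.2 with hT2
  set T3 : Finset (ι × ι × ι) := univ.filter fun z => z.1 ≠ z.2.1 ∧ z.1 ≠ z.2.2 ∧ z.2.1 ≠ z.2.2
    with hT3
  set T4 : Finset (ι × ι × ι × ι) := univ.filter fun z => [z.1, z.2.1, z.2.2.1, z.2.2.2].Nodup
    with hT4
  set Es : Finset (ι ⊕ ((ι × ι) ⊕ ((ι × ι) ⊕ ((ι × ι × ι) ⊕ (ι × ι × ι × ι))))) :=
    (univ : Finset ι).disjSum (T2.disjSum (T2.disjSum (T3.disjSum T4))) with hEs
  set supp : (ι ⊕ ((ι × ι) ⊕ ((ι × ι) ⊕ ((ι × ι × ι) ⊕ (ι × ι × ι × ι))))) → Finset ι :=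
    Sum.elim (fun i => {i}) (Sum.elim (fun z => {z.1, z.2}) (Sum.elim (fun z => {z.1, z.2})
      (Sum.elim (fun z => {z.1, z.2.1, z.2.2}) (fun z => {z.1, z.2.1, z.2.2.1, z.2.2.2}))))
      with hsupp
  set bad : (ι ⊕ ((ι × ι) ⊕ ((ι × ι) ⊕ ((ι × ι × ι) ⊕ (ι × ι × ι × ι))))) → (ι → Ω) → Prop :=
    Sum.elim (fun i ω => ω i ∉ A i) (Sum.elim (fun z ω => P2 z.1 z.2 (ω z.1) (ω z.2))
      (Sum.elim (fun z ω => Pa z.1 z.2 (ω z.1) (ω z.2)) (Sum.elim
      (fun z ω => P3 z.1 z.2.1 z.2.2 (ω z.1) (ω z.2.1) (ω z.2.2))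
      (fun z ω => P4 z.1 z.2.1 z.2.2.1 z.2.2.2 (ω z.1) (ω z.2.1) (ω z.2.2.1) (ω z.2.2.2)))))
      with hbad
  have hmain : ∃ ω, ∀ e ∈ Es, ¬ bad e ω := by
    refine lll pp hp0 hp1 Es supp bad ?_ ?_ (1 / 2) (by norm_num) (by norm_num) ?_
    · rintro (i | z | z | z | z) - ω ω' h
      · have h1 := h i (by simp [hsupp])
        simp only [hbad, Sum.elim_inl, h1]
      · have h1 := h z.1 (by simp [hsupp])
        have h2 := h z.2 (by simp [hsupp])
        simp only [hbad, Sum.elim_inl, Sum.elim_inr, h1, h2]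
      · have h1 := h z.1 (by simp [hsupp])
        have h2 := h z.2 (by simp [hsupp])
        simp only [hbad, Sum.elim_inl, Sum.elim_inr, h1, h2]
      · have h1 := h z.1 (by simp [hsupp])
        have h2 := h z.2.1 (by simp [hsupp])
        have h3 := h z.2.2 (by simp [hsupp])
        simp only [hbad, Sum.elim_inl, Sum.elim_inr, h1, h2, h3]
      · have h1 := h z.1 (by simp [hsupp])
        have h2 := h z.2.1 (by simp [hsupp])
        have h3 := h z.2.2.1 (by simp [hsupp])
        have h4 := h z.2.2.2 (by simp [hsupp])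
        simp only [hbad, Sum.elim_inr, h1, h2, h3, h4]
    · rintro (i | z | z | z | z) - <;> simp [hsupp]
    · intro v
      rw [Finset.sum_filter, hEs, Finset.sum_disjSum, Finset.sum_disjSum, Finset.sum_disjSum,
        Finset.sum_disjSum]
      simp only [hsupp, hbad, Sum.elim_inl, Sum.elim_inr]
      have s1 : ∑ i, (if v ∈ ({i} : Finset ι) then Pr pp (fun ω => ω i ∉ A i) *
          ((1 / 2 : ℝ)⁻¹) ^ ({i} : Finset ι).card else 0) = 0 := by
        refine Finset.sum_eq_zero fun i _ => ?_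
        have h0 : Pr pp (fun ω => ω i ∉ A i) = 0 := by
          unfold Pr Ex
          refine Finset.sum_eq_zero fun ω _ => ?_
          by_cases hw : wt pp ω = 0
          · rw [hw, zero_mul]
          · beta_reduce
            rw [if_neg (not_not.2 (unif_pos ω hw i)), mul_zero]
        rw [h0, zero_mul, ite_self]
      have s2 : ∑ z ∈ T2, (if v ∈ ({z.1, z.2} : Finset ι) then
          Pr pp (fun ω => P2 z.1 z.2 (ω z.1) (ω z.2)) *
          ((1 / 2 : ℝ)⁻¹) ^ ({z.1, z.2} : Finset ι).card else 0) ≤ 4 * (2 * δ) := by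
        refine (Finset.sum_le_sum fun z _ => f2l_ite ({z.1, z.2} : Finset ι) 2
          Finset.card_le_two v
          (Y := (if z.1 = v then Pr pp (fun ω => P2 z.1 z.2 (ω z.1) (ω z.2)) else 0) +
            (if z.2 = v then Pr pp (fun ω => P2 z.1 z.2 (ω z.1) (ω z.2)) else 0)) ?_ ?_).trans ?_
        · exact add_nonneg (by split_ifs <;> [exact hPn _; exact le_refl _])
            (by split_ifs <;> [exact hPn _; exact le_refl _])
        · intro hv
          have n1 := hPn (fun ω => P2 z.1 z.2 (ω z.1) (ω z.2))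
          rw [Finset.mem_insert, Finset.mem_singleton] at hv
          rcases hv with hv | hv
          · rw [if_pos hv.symm]; split_ifs <;> linarith
          · rw [if_pos hv.symm]; split_ifs <;> linarith
        · rw [← Finset.mul_sum, Finset.sum_add_distrib, ← Finset.sum_filter, ← Finset.sum_filter]
          have a1 : ∑ z ∈ T2.filter (fun z => z.1 = v),
              Pr pp (fun ω => P2 z.1 z.2 (ω z.1) (ω z.2)) ≤ δ := by
            refine le_trans (le_of_eq ?_) (e2 v)
            refine Finset.sum_nbij' (fun z => z.2) (fun j => (v, j)) ?_ ?_ ?_ ?_ ?_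
            · intro z hz
              simp only [hT2, Finset.mem_filter, Finset.mem_univ, true_and] at hz ⊢
              rw [← hz.2]; exact hz.1.symm
            · intro j hj
              simp only [hT2, Finset.mem_filter, Finset.mem_univ, true_and] at hj ⊢
              exact ⟨hj.symm, trivial⟩
            · intro z hz
              exact Prod.ext (Finset.mem_filter.1 hz).2.symm rfl
            · intro j _; rfl
            · intro z hz
              rw [← (Finset.mem_filter.1 hz).2]
          have a2 : ∑ z ∈ T2.filter (fun z => z.2 = v),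
              Pr pp (fun ω => P2 z.1 z.2 (ω z.1) (ω z.2)) ≤ δ := by
            refine le_trans (le_of_eq ?_) (e2' v)
            refine Finset.sum_nbij' (fun z => z.1) (fun j => (j, v)) ?_ ?_ ?_ ?_ ?_
            · intro z hz
              simp only [hT2, Finset.mem_filter, Finset.mem_univ, true_and] at hz ⊢
              rw [← hz.2]; exact hz.1
            · intro j hj
              simp only [hT2, Finset.mem_filter, Finset.mem_univ, true_and] at hj ⊢
              exact ⟨hj, trivial⟩
            · intro z hz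
              exact Prod.ext rfl (Finset.mem_filter.1 hz).2.symm
            · intro j _; rfl
            · intro z hz
              rw [← (Finset.mem_filter.1 hz).2]
          norm_num
          linarith
      have sA : ∑ z ∈ T2, (if v ∈ ({z.1, z.2} : Finset ι) then
          Pr pp (fun ω => Pa z.1 z.2 (ω z.1) (ω z.2)) *
          ((1 / 2 : ℝ)⁻¹) ^ ({z.1, z.2} : Finset ι).card else 0) ≤ 4 * (2 * δ) := by
        refine (Finset.sum_le_sum fun z _ => f2l_ite ({z.1, z.2} : Finset ι) 2
          Finset.card_le_two v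
          (Y := (if z.1 = v then Pr pp (fun ω => Pa z.1 z.2 (ω z.1) (ω z.2)) else 0) +
            (if z.2 = v then Pr pp (fun ω => Pa z.1 z.2 (ω z.1) (ω z.2)) else 0)) ?_ ?_).trans ?_
        · exact add_nonneg (by split_ifs <;> [exact hPn _; exact le_refl _])
            (by split_ifs <;> [exact hPn _; exact le_refl _])
        · intro hv
          have n1 := hPn (fun ω => Pa z.1 z.2 (ω z.1) (ω z.2))
          rw [Finset.mem_insert, Finset.mem_singleton] at hv
          rcases hv with hv | hv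
          · rw [if_pos hv.symm]; split_ifs <;> linarith
          · rw [if_pos hv.symm]; split_ifs <;> linarith
        · rw [← Finset.mul_sum, Finset.sum_add_distrib, ← Finset.sum_filter, ← Finset.sum_filter]
          have a1 : ∑ z ∈ T2.filter (fun z => z.1 = v),
              Pr pp (fun ω => Pa z.1 z.2 (ω z.1) (ω z.2)) ≤ δ := by
            refine le_trans (le_of_eq ?_) (eA v)
            refine Finset.sum_nbij' (fun z => z.2) (fun j => (v, j)) ?_ ?_ ?_ ?_ ?_
            · intro z hz
              simp only [hT2, Finset.mem_filter, Finset.mem_univ, true_and] at hz ⊢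
              rw [← hz.2]; exact hz.1.symm
            · intro j hj
              simp only [hT2, Finset.mem_filter, Finset.mem_univ, true_and] at hj ⊢
              exact ⟨hj.symm, trivial⟩
            · intro z hz
              exact Prod.ext (Finset.mem_filter.1 hz).2.symm rfl
            · intro j _; rfl
            · intro z hz
              rw [← (Finset.mem_filter.1 hz).2]
          have a2 : ∑ z ∈ T2.filter (fun z => z.2 = v),
              Pr pp (fun ω => Pa z.1 z.2 (ω z.1) (ω z.2)) ≤ δ := by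
            refine le_trans (le_of_eq ?_) (eA' v)
            refine Finset.sum_nbij' (fun z => z.1) (fun j => (j, v)) ?_ ?_ ?_ ?_ ?_
            · intro z hz
              simp only [hT2, Finset.mem_filter, Finset.mem_univ, true_and] at hz ⊢
              rw [← hz.2]; exact hz.1
            · intro j hj
              simp only [hT2, Finset.mem_filter, Finset.mem_univ, true_and] at hj ⊢
              exact ⟨hj, trivial⟩
            · intro z hz
              exact Prod.ext rfl (Finset.mem_filter.1 hz).2.symm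
            · intro j _; rfl
            · intro z hz
              rw [← (Finset.mem_filter.1 hz).2]
          norm_num
          linarith
      have s3 : ∑ z ∈ T3, (if v ∈ ({z.1, z.2.1, z.2.2} : Finset ι) then
          Pr pp (fun ω => P3 z.1 z.2.1 z.2.2 (ω z.1) (ω z.2.1) (ω z.2.2)) *
          ((1 / 2 : ℝ)⁻¹) ^ ({z.1, z.2.1, z.2.2} : Finset ι).card else 0) ≤ 8 * (3 * δ) := by
        refine (Finset.sum_le_sum fun z _ => f2l_ite ({z.1, z.2.1, z.2.2} : Finset ι) 3
          Finset.card_le_three v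
          (Y := (if z.1 = v then
              Pr pp (fun ω => P3 z.1 z.2.1 z.2.2 (ω z.1) (ω z.2.1) (ω z.2.2)) else 0) +
            ((if z.2.1 = v then
              Pr pp (fun ω => P3 z.1 z.2.1 z.2.2 (ω z.1) (ω z.2.1) (ω z.2.2)) else 0) +
            (if z.2.2 = v then
              Pr pp (fun ω => P3 z.1 z.2.1 z.2.2 (ω z.1) (ω z.2.1) (ω z.2.2)) else 0)))
            ?_ ?_).trans ?_
        · exact add_nonneg (by split_ifs <;> [exact hPn _; exact le_refl _])
            (add_nonneg (by split_ifs <;> [exact hPn _; exact le_refl _])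
            (by split_ifs <;> [exact hPn _; exact le_refl _]))
        · intro hv
          have n1 := hPn (fun ω => P3 z.1 z.2.1 z.2.2 (ω z.1) (ω z.2.1) (ω z.2.2))
          rw [Finset.mem_insert, Finset.mem_insert, Finset.mem_singleton] at hv
          rcases hv with hv | hv | hv
          · rw [if_pos hv.symm]; split_ifs <;> linarith
          · rw [if_pos hv.symm]; split_ifs <;> linarith
          · rw [if_pos hv.symm]; split_ifs <;> linarith
        · rw [← Finset.mul_sum, Finset.sum_add_distrib, Finset.sum_add_distrib,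
            ← Finset.sum_filter, ← Finset.sum_filter, ← Finset.sum_filter]
          have a1 : ∑ z ∈ T3.filter (fun z => z.1 = v),
              Pr pp (fun ω => P3 z.1 z.2.1 z.2.2 (ω z.1) (ω z.2.1) (ω z.2.2)) ≤ δ := by
            refine le_trans (le_of_eq ?_) (e3 v)
            refine Finset.sum_nbij' (fun z => z.2) (fun j => (v, j)) ?_ ?_ ?_ ?_ ?_
            · intro z hz
              simp only [hT3, Finset.mem_filter, Finset.mem_univ, true_and] at hz ⊢
              obtain ⟨⟨b1, b2, b3⟩, b4⟩ := hz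
              rw [← b4]; exact ⟨b1.symm, b2.symm, b3⟩
            · intro j hj
              simp only [hT3, Finset.mem_filter, Finset.mem_univ, true_and] at hj ⊢
              exact ⟨⟨hj.1.symm, hj.2.1.symm, hj.2.2⟩, trivial⟩
            · intro z hz
              exact Prod.ext (Finset.mem_filter.1 hz).2.symm rfl
            · intro j _; rfl
            · intro z hz
              rw [← (Finset.mem_filter.1 hz).2]
          have a2 : ∑ z ∈ T3.filter (fun z => z.2.1 = v),
              Pr pp (fun ω => P3 z.1 z.2.1 z.2.2 (ω z.1) (ω z.2.1) (ω z.2.2)) ≤ δ := by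
            refine le_trans (le_of_eq ?_) (e3' v)
            refine Finset.sum_nbij' (fun z => (z.1, z.2.2)) (fun j => (j.1, v, j.2)) ?_ ?_ ?_ ?_ ?_
            · intro z hz
              simp only [hT3, Finset.mem_filter, Finset.mem_univ, true_and] at hz ⊢
              obtain ⟨⟨b1, b2, b3⟩, b4⟩ := hz
              rw [← b4]; exact ⟨b1, b3.symm, b2⟩
            · intro j hj
              simp only [hT3, Finset.mem_filter, Finset.mem_univ, true_and] at hj ⊢
              exact ⟨⟨hj.1, hj.2.2, hj.2.1.symm⟩, trivial⟩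
            · intro z hz
              exact Prod.ext rfl (Prod.ext (Finset.mem_filter.1 hz).2.symm rfl)
            · intro j _; rfl
            · intro z hz
              rw [← (Finset.mem_filter.1 hz).2]
          have a3 : ∑ z ∈ T3.filter (fun z => z.2.2 = v),
              Pr pp (fun ω => P3 z.1 z.2.1 z.2.2 (ω z.1) (ω z.2.1) (ω z.2.2)) ≤ δ := by
            refine le_trans (le_of_eq ?_) (e3'' v)
            refine Finset.sum_nbij' (fun z => (z.1, z.2.1)) (fun j => (j.1, j.2, v)) ?_ ?_ ?_ ?_ ?_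
            · intro z hz
              simp only [hT3, Finset.mem_filter, Finset.mem_univ, true_and] at hz ⊢
              obtain ⟨⟨b1, b2, b3⟩, b4⟩ := hz
              rw [← b4]; exact ⟨b2, b3, b1⟩
            · intro j hj
              simp only [hT3, Finset.mem_filter, Finset.mem_univ, true_and] at hj ⊢
              exact ⟨⟨hj.2.2, hj.1, hj.2.1⟩, trivial⟩
            · intro z hz
              exact Prod.ext rfl (Prod.ext rfl (Finset.mem_filter.1 hz).2.symm)
            · intro j _; rfl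
            · intro z hz
              rw [← (Finset.mem_filter.1 hz).2]
          norm_num
          linarith
      have s4 : ∑ z ∈ T4, (if v ∈ ({z.1, z.2.1, z.2.2.1, z.2.2.2} : Finset ι) then
          Pr pp (fun ω => P4 z.1 z.2.1 z.2.2.1 z.2.2.2 (ω z.1) (ω z.2.1) (ω z.2.2.1) (ω z.2.2.2)) *
          ((1 / 2 : ℝ)⁻¹) ^ ({z.1, z.2.1, z.2.2.1, z.2.2.2} : Finset ι).card else 0) ≤
          16 * (4 * δ) := by
        refine (Finset.sum_le_sum fun z _ =>
          f2l_ite ({z.1, z.2.1, z.2.2.1, z.2.2.2} : Finset ι) 4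
          Finset.card_le_four v
          (Y := (if z.1 = v then Pr pp (fun ω => P4 z.1 z.2.1 z.2.2.1 z.2.2.2
                (ω z.1) (ω z.2.1) (ω z.2.2.1) (ω z.2.2.2)) else 0) +
            ((if z.2.1 = v then Pr pp (fun ω => P4 z.1 z.2.1 z.2.2.1 z.2.2.2
                (ω z.1) (ω z.2.1) (ω z.2.2.1) (ω z.2.2.2)) else 0) +
            ((if z.2.2.1 = v then Pr pp (fun ω => P4 z.1 z.2.1 z.2.2.1 z.2.2.2
                (ω z.1) (ω z.2.1) (ω z.2.2.1) (ω z.2.2.2)) else 0) +
            (if z.2.2.2 = v then Pr pp (fun ω => P4 z.1 z.2.1 z.2.2.1 z.2.2.2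
                (ω z.1) (ω z.2.1) (ω z.2.2.1) (ω z.2.2.2)) else 0))))
            ?_ ?_).trans ?_
        · exact add_nonneg (by split_ifs <;> [exact hPn _; exact le_refl _])
            (add_nonneg (by split_ifs <;> [exact hPn _; exact le_refl _])
            (add_nonneg (by split_ifs <;> [exact hPn _; exact le_refl _])
            (by split_ifs <;> [exact hPn _; exact le_refl _])))
        · intro hv
          have n1 := hPn (fun ω => P4 z.1 z.2.1 z.2.2.1 z.2.2.2
                (ω z.1) (ω z.2.1) (ω z.2.2.1) (ω z.2.2.2))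
          rw [Finset.mem_insert, Finset.mem_insert, Finset.mem_insert,
            Finset.mem_singleton] at hv
          rcases hv with hv | hv | hv | hv
          · rw [if_pos hv.symm]; split_ifs <;> linarith
          · rw [if_pos hv.symm]; split_ifs <;> linarith
          · rw [if_pos hv.symm]; split_ifs <;> linarith
          · rw [if_pos hv.symm]; split_ifs <;> linarith
        · rw [← Finset.mul_sum, Finset.sum_add_distrib, Finset.sum_add_distrib,
            Finset.sum_add_distrib,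
            ← Finset.sum_filter, ← Finset.sum_filter, ← Finset.sum_filter, ← Finset.sum_filter]
          have a1 : ∑ z ∈ T4.filter (fun z => z.1 = v), Pr pp (fun ω =>
              P4 z.1 z.2.1 z.2.2.1 z.2.2.2 (ω z.1) (ω z.2.1) (ω z.2.2.1) (ω z.2.2.2)) ≤ δ := by
            refine le_trans (le_of_eq ?_) (e4 v)
            refine Finset.sum_nbij' (fun z => z.2) (fun j => (v, j)) ?_ ?_ ?_ ?_ ?_
            · intro z hz
              simp only [hT4, Finset.mem_filter, Finset.mem_univ, true_and] at hz ⊢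
              rw [← hz.2]; exact hz.1
            · intro j hj
              simp only [hT4, Finset.mem_filter, Finset.mem_univ, true_and] at hj ⊢
              exact ⟨hj, trivial⟩
            · intro z hz
              exact Prod.ext (Finset.mem_filter.1 hz).2.symm rfl
            · intro j _; rfl
            · intro z hz
              rw [← (Finset.mem_filter.1 hz).2]
          have a2 : ∑ z ∈ T4.filter (fun z => z.2.1 = v), Pr pp (fun ω =>
              P4 z.1 z.2.1 z.2.2.1 z.2.2.2 (ω z.1) (ω z.2.1) (ω z.2.2.1) (ω z.2.2.2)) ≤ δ := by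
            refine le_trans (le_of_eq ?_) (e4b v)
            refine Finset.sum_nbij' (fun z => (z.1, z.2.2)) (fun j => (j.1, v, j.2)) ?_ ?_ ?_ ?_ ?_
            · intro z hz
              simp only [hT4, Finset.mem_filter, Finset.mem_univ, true_and] at hz ⊢
              obtain ⟨b1, b2⟩ := hz
              rw [← b2]
              simp only [List.nodup_cons, List.mem_cons, List.not_mem_nil, or_false,
                not_or, List.nodup_nil, not_false_eq_true, and_true] at b1 ⊢
              obtain ⟨⟨c1, c2, c3⟩, ⟨c4, c5⟩, c6⟩ := b1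
              exact ⟨⟨Ne.symm c1, c4, c5⟩, ⟨c2, c3⟩, c6⟩
            · intro j hj
              simp only [hT4, Finset.mem_filter, Finset.mem_univ, true_and] at hj ⊢
              refine ⟨?_, trivial⟩
              simp only [List.nodup_cons, List.mem_cons, List.not_mem_nil, or_false,
                not_or, List.nodup_nil, not_false_eq_true, and_true] at hj ⊢
              obtain ⟨⟨c1, c2, c3⟩, ⟨c4, c5⟩, c6⟩ := hj
              exact ⟨⟨Ne.symm c1, c4, c5⟩, ⟨c2, c3⟩, c6⟩
            · intro z hz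
              exact Prod.ext rfl (Prod.ext (Finset.mem_filter.1 hz).2.symm rfl)
            · intro j _; rfl
            · intro z hz
              rw [← (Finset.mem_filter.1 hz).2]
          have a3 : ∑ z ∈ T4.filter (fun z => z.2.2.1 = v), Pr pp (fun ω =>
              P4 z.1 z.2.1 z.2.2.1 z.2.2.2 (ω z.1) (ω z.2.1) (ω z.2.2.1) (ω z.2.2.2)) ≤ δ := by
            refine le_trans (le_of_eq ?_) (e4c v)
            refine Finset.sum_nbij' (fun z => (z.2.1, z.1, z.2.2.2))
              (fun j => (j.2.1, j.1, v, j.2.2)) ?_ ?_ ?_ ?_ ?_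
            · intro z hz
              simp only [hT4, Finset.mem_filter, Finset.mem_univ, true_and] at hz ⊢
              obtain ⟨b1, b2⟩ := hz
              rw [← b2]
              simp only [List.nodup_cons, List.mem_cons, List.not_mem_nil, or_false,
                not_or, List.nodup_nil, not_false_eq_true, and_true] at b1 ⊢
              obtain ⟨⟨c1, c2, c3⟩, ⟨c4, c5⟩, c6⟩ := b1
              exact ⟨⟨Ne.symm c4, Ne.symm c2, c6⟩, ⟨Ne.symm c1, c5⟩, c3⟩
            · intro j hj
              simp only [hT4, Finset.mem_filter, Finset.mem_univ, true_and] at hj ⊢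
              refine ⟨?_, trivial⟩
              simp only [List.nodup_cons, List.mem_cons, List.not_mem_nil, or_false,
                not_or, List.nodup_nil, not_false_eq_true, and_true] at hj ⊢
              obtain ⟨⟨c1, c2, c3⟩, ⟨c4, c5⟩, c6⟩ := hj
              exact ⟨⟨Ne.symm c4, Ne.symm c2, c6⟩, ⟨Ne.symm c1, c5⟩, c3⟩
            · intro z hz
              exact Prod.ext rfl (Prod.ext rfl (Prod.ext (Finset.mem_filter.1 hz).2.symm rfl))
            · intro j _; rfl
            · intro z hz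
              rw [← (Finset.mem_filter.1 hz).2]
          have a4 : ∑ z ∈ T4.filter (fun z => z.2.2.2 = v), Pr pp (fun ω =>
              P4 z.1 z.2.1 z.2.2.1 z.2.2.2 (ω z.1) (ω z.2.1) (ω z.2.2.1) (ω z.2.2.2)) ≤ δ := by
            refine le_trans (le_of_eq ?_) (e4d v)
            refine Finset.sum_nbij' (fun z => (z.2.1, z.2.2.1, z.1))
              (fun j => (j.2.2, j.1, j.2.1, v)) ?_ ?_ ?_ ?_ ?_
            · intro z hz
              simp only [hT4, Finset.mem_filter, Finset.mem_univ, true_and] at hz ⊢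
              obtain ⟨b1, b2⟩ := hz
              rw [← b2]
              simp only [List.nodup_cons, List.mem_cons, List.not_mem_nil, or_false,
                not_or, List.nodup_nil, not_false_eq_true, and_true] at b1 ⊢
              obtain ⟨⟨c1, c2, c3⟩, ⟨c4, c5⟩, c6⟩ := b1
              exact ⟨⟨Ne.symm c5, Ne.symm c6, Ne.symm c3⟩, ⟨c4, Ne.symm c1⟩, Ne.symm c2⟩
            · intro j hj
              simp only [hT4, Finset.mem_filter, Finset.mem_univ, true_and] at hj ⊢
              refine ⟨?_, trivial⟩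
              simp only [List.nodup_cons, List.mem_cons, List.not_mem_nil, or_false,
                not_or, List.nodup_nil, not_false_eq_true, and_true] at hj ⊢
              obtain ⟨⟨c1, c2, c3⟩, ⟨c4, c5⟩, c6⟩ := hj
              exact ⟨⟨Ne.symm c5, Ne.symm c6, Ne.symm c3⟩, ⟨c4, Ne.symm c1⟩, Ne.symm c2⟩
            · intro z hz
              exact Prod.ext rfl (Prod.ext rfl (Prod.ext rfl (Finset.mem_filter.1 hz).2.symm))
            · intro j _; rfl
            · intro z hz
              rw [← (Finset.mem_filter.1 hz).2]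
          norm_num
          linarith
      linarith
  obtain ⟨ω, hω⟩ := hmain
  refine ⟨ω, fun i => ?_, fun i j hij hP => ?_, fun i j hij hP => ?_,
    fun i j k h1 h2 h3 hP => ?_, fun i j k l hn hP => ?_⟩
  · have h := hω (Sum.inl i) (by simp [hEs])
    simpa [hbad] using h
  · refine hω (Sum.inr (Sum.inl (i, j))) ?_ hP
    simp [hEs, hT2, hij]
  · refine hω (Sum.inr (Sum.inr (Sum.inl (i, j)))) ?_ hP
    simp [hEs, hT2, hij]
  · refine hω (Sum.inr (Sum.inr (Sum.inr (Sum.inl (i, j, k))))) ?_ hP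
    simp [hEs, hT3, h1, h2, h3]
  · refine hω (Sum.inr (Sum.inr (Sum.inr (Sum.inr (i, j, k, l))))) ?_ hP
    simp only [hEs, Finset.inr_mem_disjSum, hT4, Finset.mem_filter, Finset.mem_univ, true_and]
    exact hn

end

open Classical in
theorem ll5 {ι Ω : Type} [Fintype ι] [DecidableEq ι] [DecidableEq Ω] (S : Finset Ω)
    (A : ι → Finset Ω) (hA : ∀ i, A i ⊆ S) {a0 δ : ℝ} (ha0 : 0 < a0) (ha : ∀ i, a0 ≤ (A i).card)
    (hδ : δ ≤ 1 / 256)
    (P2 Pa : ι → ι → Ω → Ω → Prop) (P3 : ι → ι → ι → Ω → Ω → Ω → Prop)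
    (P4 : ι → ι → ι → ι → Ω → Ω → Ω → Ω → Prop)
    (hs2 : ∀ i j p q, P2 i j p q → P2 j i q p)
    (hs3 : ∀ i j k p q u, P3 i j k p q u → P3 j i k q p u ∧ P3 k j i u q p)
    (hs4 : ∀ i j k l p q u w, P4 i j k l p q u w →
      P4 j i k l q p u w ∧ P4 k j i l u q p w ∧ P4 l j k i w q u p)
    (h2 : ∀ i, ∀ p ∈ A i, ((∑ j, (S.filter fun q => P2 i j p q).card : ℕ) : ℝ) ≤ δ * a0)
    (ha1 : ∀ i, ∀ p ∈ A i, ((∑ j, (S.filter fun q => Pa i j p q).card : ℕ) : ℝ) ≤ δ * a0)
    (ha2 : ∀ i j, ∀ p ∈ A i,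
      (Fintype.card ι : ℝ) * ((S.filter fun q => Pa i j p q).card : ℝ) ≤ δ * a0)
    (h3 : ∀ i, ∀ p ∈ A i,
      ((∑ j, ∑ k, ((S ×ˢ S).filter fun z => P3 i j k p z.1 z.2).card : ℕ) : ℝ) ≤ δ * a0 ^ 2)
    (h4 : ∀ i, ∀ p ∈ A i, ((∑ j, ∑ k, ∑ l,
      ((S ×ˢ S ×ˢ S).filter fun z => P4 i j k l p z.1 z.2.1 z.2.2).card : ℕ) : ℝ) ≤ δ * a0 ^ 3) :
    ∃ ω : ι → Ω, (∀ i, ω i ∈ A i) ∧ (∀ i j, i ≠ j → ¬ P2 i j (ω i) (ω j)) ∧
      (∀ i j, i ≠ j → ¬ Pa i j (ω i) (ω j)) ∧
      (∀ i j k, i ≠ j → i ≠ k → j ≠ k → ¬ P3 i j k (ω i) (ω j) (ω k)) ∧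
      (∀ i j k l, [i, j, k, l].Nodup → ¬ P4 i j k l (ω i) (ω j) (ω k) (ω l)) := by
  rcases isEmpty_or_nonempty ι with he | hne
  · exact ⟨fun i => he.elim i, fun i => he.elim i, fun i => he.elim i, fun i => he.elim i,
      fun i => he.elim i, fun i => he.elim i⟩
  · have hc : ∀ B : Finset Ω, B ⊆ S →
        (univ.filter fun x : {x // x ∈ S} => x.1 ∈ B).card = B.card := by
      intro B hB
      refine Finset.card_bij (fun x _ => x.1) ?_ ?_ ?_
      · intro x hx; exact (Finset.mem_filter.1 hx).2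
      · intro x _ y _ h; exact Subtype.ext h
      · intro b hb
        exact ⟨⟨b, hB hb⟩, Finset.mem_filter.2 ⟨Finset.mem_univ _, hb⟩, rfl⟩
    have c2 : ∀ Q : Ω → Prop,
        (univ.filter fun x : {x // x ∈ S} => Q x.1).card ≤ (S.filter Q).card := by
      intro Q
      refine Finset.card_le_card_of_injOn (fun x => x.1) ?_ ?_
      · intro x hx
        exact Finset.mem_coe.2 (Finset.mem_filter.2
          ⟨x.2, (Finset.mem_filter.1 (Finset.mem_coe.1 hx)).2⟩)
      · intro x _ y _ h; exact Subtype.ext h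
    have c3 : ∀ Q : Ω → Ω → Prop,
        (univ.filter fun x : {x // x ∈ S} × {x // x ∈ S} => Q x.1.1 x.2.1).card ≤
          ((S ×ˢ S).filter fun z => Q z.1 z.2).card := by
      intro Q
      refine Finset.card_le_card_of_injOn (fun x => (x.1.1, x.2.1)) ?_ ?_
      · intro x hx
        exact Finset.mem_coe.2 (Finset.mem_filter.2
          ⟨Finset.mem_product.2 ⟨x.1.2, x.2.2⟩, (Finset.mem_filter.1 (Finset.mem_coe.1 hx)).2⟩)
      · intro x _ y _ h
        have h' := Prod.mk.inj h
        exact Prod.ext (Subtype.ext h'.1) (Subtype.ext h'.2)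
    have c4 : ∀ Q : Ω → Ω → Ω → Prop,
        (univ.filter fun x : {x // x ∈ S} × {x // x ∈ S} × {x // x ∈ S} =>
          Q x.1.1 x.2.1.1 x.2.2.1).card ≤
          ((S ×ˢ S ×ˢ S).filter fun z => Q z.1 z.2.1 z.2.2).card := by
      intro Q
      refine Finset.card_le_card_of_injOn (fun x => (x.1.1, x.2.1.1, x.2.2.1)) ?_ ?_
      · intro x hx
        exact Finset.mem_coe.2 (Finset.mem_filter.2
          ⟨Finset.mem_product.2 ⟨x.1.2, Finset.mem_product.2 ⟨x.2.1.2, x.2.2.2⟩⟩,
            (Finset.mem_filter.1 (Finset.mem_coe.1 hx)).2⟩)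
      · intro x _ y _ h
        have h' := Prod.mk.inj h
        have h'' := Prod.mk.inj h'.2
        exact Prod.ext (Subtype.ext h'.1) (Prod.ext (Subtype.ext h''.1) (Subtype.ext h''.2))
    have hmain := f2l_fin (ι := ι) (Ω := {x // x ∈ S})
      (fun i => univ.filter fun x : {x // x ∈ S} => x.1 ∈ A i) ha0
      (fun i => by rw [hc (A i) (hA i)]; exact ha i) hδ
      (fun i j p q => P2 i j p.1 q.1) (fun i j p q => Pa i j p.1 q.1) (fun i j k p q u => P3 i j k p.1 q.1 u.1)
      (fun i j k l p q u w => P4 i j k l p.1 q.1 u.1 w.1)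
      (fun i j p q h => hs2 i j _ _ h) (fun i j k p q u h => hs3 i j k _ _ _ h)
      (fun i j k l p q u w h => hs4 i j k l _ _ _ _ h)
      (fun i p hp => le_trans (Nat.cast_le.2 (Finset.sum_le_sum fun j _ => c2 _))
        (h2 i p.1 (Finset.mem_filter.1 hp).2))
      (fun i p hp => le_trans (Nat.cast_le.2 (Finset.sum_le_sum fun j _ => c2 _))
        (ha1 i p.1 (Finset.mem_filter.1 hp).2))
      (fun i j p hp => le_trans (mul_le_mul_of_nonneg_left (Nat.cast_le.2 (c2 _))
        (Nat.cast_nonneg _)) (ha2 i j p.1 (Finset.mem_filter.1 hp).2))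
      (fun i p hp => le_trans (Nat.cast_le.2 (Finset.sum_le_sum fun j _ =>
          Finset.sum_le_sum fun k _ => c3 (fun q u => P3 i j k p.1 q u)))
        (h3 i p.1 (Finset.mem_filter.1 hp).2))
      (fun i p hp => le_trans (Nat.cast_le.2 (Finset.sum_le_sum fun j _ =>
          Finset.sum_le_sum fun k _ => Finset.sum_le_sum fun l _ =>
            c4 (fun q u w => P4 i j k l p.1 q u w)))
        (h4 i p.1 (Finset.mem_filter.1 hp).2))
    obtain ⟨ω, w1, w2, w2a, w3, w4⟩ := hmain
    exact ⟨fun i => (ω i).1, fun i => (Finset.mem_filter.1 (w1 i)).2, w2, w2a, w3, w4⟩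

end Pool.Agent.NKL
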