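import Pool.Agent.NKL.FDefs

set_option autoImplicit false

/-!
# NKL / FSQ : listing the missing points

`∑_{x < N} (s - #{p ∈ S | p.1 = x}) = s N - |S|` (`S ⊆ grid N`, `card_eq_sum_card_fiberwise`), and the
same for the second coordinate.  For a function `d : ℤ → ℕ` on `Ico 0 N` with sum `L` there is
`r : Fin L → ℤ` taking each value `x ∈ Ico 0 N` exactly `d x` times (induction on the interval, or
`Fintype.equivFin` of the sigma type `Σ x : Ico 0 N, Fin (d x)`, whose cardinality is `L`).
-/

namespace Pool.Agent.NKL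

open Finset

private theorem lst (d : ℤ → ℕ) (N L : ℕ) (hL : ∑ x ∈ Finset.Ico (0 : ℤ) N, d x = L) :
    ∃ r : Fin L → ℤ, (∀ i, 0 ≤ r i ∧ r i < N) ∧
      ∀ x : ℤ, 0 ≤ x → x < N → (univ.filter fun i => r i = x).card = d x := by
  classical
  have hc : Fintype.card (Σ x : {x // x ∈ Finset.Ico (0 : ℤ) N}, Fin (d x.1)) = L := by
    rw [Fintype.card_sigma, ← hL]
    simp only [Fintype.card_fin]
    exact Finset.sum_coe_sort (Finset.Ico (0 : ℤ) N) d
  let e : Fin L ≃ (Σ x : {x // x ∈ Finset.Ico (0 : ℤ) N}, Fin (d x.1)) :=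
    (Fintype.equivFinOfCardEq hc).symm
  refine ⟨fun i => (e i).1.1, fun i => ?_, fun x hx0 hxN => ?_⟩
  · have := (e i).1.2
    rw [Finset.mem_Ico] at this
    exact this
  · have hx : x ∈ Finset.Ico (0 : ℤ) N := Finset.mem_Ico.2 ⟨hx0, hxN⟩
    have h1 : (univ.filter fun i : Fin L => (e i).1.1 = x)
        = (univ : Finset (Fin (d x))).map
          ⟨fun j => e.symm ⟨⟨x, hx⟩, j⟩, by
            intro a b hab
            have h2 := e.symm.injective hab
            simpa using h2⟩ := by
      ext i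
      simp only [mem_filter, mem_univ, true_and, mem_map, Function.Embedding.coeFn_mk]
      constructor
      · intro h
        rcases hei : e i with ⟨⟨y, hy⟩, j⟩
        rw [hei] at h
        dsimp at h
        subst h
        refine ⟨j, ?_⟩
        rw [Equiv.symm_apply_eq, hei]
      · rintro ⟨j, rfl⟩
        rw [Equiv.apply_symm_apply]
    rw [h1, card_map, card_univ, Fintype.card_fin]

private theorem sm (s N : ℕ) (S : Finset (ℤ × ℤ)) (f : ℤ × ℤ → ℤ)
    (hf : ∀ p ∈ S, 0 ≤ f p ∧ f p < N) (hs : ∀ x : ℤ, (S.filter fun p => f p = x).card ≤ s) :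
    ∑ x ∈ Finset.Ico (0 : ℤ) N, (s - (S.filter fun p => f p = x).card) + S.card = s * N := by
  have h1 : S.card = ∑ x ∈ Finset.Ico (0 : ℤ) N, (S.filter fun p => f p = x).card :=
    card_eq_sum_card_fiberwise (fun p hp => by
      have := hf p hp
      simpa using this)
  rw [h1, ← sum_add_distrib]
  have h2 : ∀ x ∈ Finset.Ico (0 : ℤ) N,
      (s - (S.filter fun p => f p = x).card) + (S.filter fun p => f p = x).card = s := by
    intro x _
    exact Nat.sub_add_cancel (hs x)
  rw [sum_congr rfl h2, sum_const, Int.card_Ico, smul_eq_mul]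
  simp [mul_comm]

theorem fsq {s c₁ N : ℕ} {ε : ℝ} {S : Finset (ℤ × ℤ)} (h : Near s c₁ N ε S) :
    ∃ (L : ℕ) (r c : Fin L → ℤ), Def s N L S r c := by
  have hg : ∀ p ∈ S, (0 ≤ p.1 ∧ p.1 < N) ∧ (0 ≤ p.2 ∧ p.2 < N) := by
    intro p hp
    have h1 := h.sub hp
    unfold grid at h1
    rw [mem_product, Finset.mem_Ico, Finset.mem_Ico] at h1
    exact h1
  have hr := sm s N S (fun p => p.1) (fun p hp => (hg p hp).1) h.col
  have hc := sm s N S (fun p => p.2) (fun p hp => (hg p hp).2) h.row
  obtain ⟨r, hr1, hr2⟩ := lst (fun x => s - (S.filter fun p => p.1 = x).card) N _ rfl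
  obtain ⟨c, hc1, hc2⟩ := lst (fun x => s - (S.filter fun p => p.2 = x).card) N
    (∑ x ∈ Finset.Ico (0 : ℤ) N, (s - (S.filter fun p => p.1 = x).card)) (by
      have h1 := hr.trans hc.symm
      exact (Nat.add_right_cancel h1).symm)
  refine ⟨_, r, c, ⟨hr, hr1, hc1, fun x hx0 hxN => ?_, fun y hy0 hyN => ?_⟩⟩
  · rw [hr2 x hx0 hxN]
    exact Nat.sub_add_cancel (h.col x)
  · rw [hc2 y hy0 hyN]
    exact Nat.sub_add_cancel (h.row y)

theorem def_mult {s N L : ℕ} {S : Finset (ℤ × ℤ)} {r c : Fin L → ℤ} (h : Def s N L S r c) :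
    (∀ x, (univ.filter fun i => r i = x).card ≤ s) ∧
    (∀ y, (univ.filter fun i => c i = y).card ≤ s) := by
  refine ⟨fun x => ?_, fun y => ?_⟩
  · by_cases hx : 0 ≤ x ∧ x < N
    · have := h.r_cnt x hx.1 hx.2
      omega
    · have h0 : (univ.filter fun i => r i = x) = ∅ := by
        rw [filter_eq_empty_iff]
        intro i _ hi
        have := h.r_mem i
        rw [hi] at this
        exact hx this
      rw [h0, card_empty]
      exact Nat.zero_le _
  · by_cases hx : 0 ≤ y ∧ y < N
    · have := h.c_cnt y hx.1 hx.2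
      omega
    · have h0 : (univ.filter fun i => c i = y) = ∅ := by
        rw [filter_eq_empty_iff]
        intro i _ hi
        have := h.c_mem i
        rw [hi] at this
        exact hx this
      rw [h0, card_empty]
      exact Nat.zero_le _

end Pool.Agent.NKL
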