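import Pool.Agent.NKL.F2D
import Pool.Agent.NKL.F2H
import Pool.Agent.NKL.FSQ

set_option autoImplicit false

/-!
# NKL / F2P : pairing the missing rows and columns

`bdp_row`: fix `r`, `0 ≤ r < N`.  `∑_{c} |bdp S r c| = ∑_{p ∈ S} #{c ∈ [0,N) | p ∈ bdp S r c}`.  Fix `p ∈ S`
and put `R = (r, p.2) ∈ grid N`, `R ∉ S`, so `p.1 ≠ r`.  For a bad `c` choose a skew `v` as in `bdp`;
the line contains the different grid points `R`, `(p.1, c)`, so `hgt v < N`, and we may take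
`v ∈ SDir N` (`prim_dir`, `On_neg`); as `R ∉ S`, `dg0 S v R` is the number of points of `S` on it,
so `2 ≤ dg0 S v R`.  `c` is determined by `v` (`On v (p.1, c) = On v R`, `v.1 ≠ 0`), so there are at
most `deg2 N S R ≤ d` bad `c`.  `bdp_col`: the same with rows and columns exchanged.
`pairing`: for fixed `i`, `∑_j |bdp S (r i) (c j)| ≤ s ∑_{y} |bdp S (r i) y| ≤ s |S| d ≤ s² N d`
(`c_cnt`: each value at most `s` times), so at most `s² N d/((β/8) N) = 8 s² d/β ≤ L/4` of the `j`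
satisfy `|bdp| > (β/8) N`; the same for fixed `j`.  `dense_matching`.
-/

namespace Pool.Agent.NKL

open Finset

variable {s N : ℕ} {ε β η : ℝ} {S : Finset (ℤ × ℤ)}

private theorem f2p_dir {v : ℤ × ℤ} (hv : Skew v) (h1 : |v.1| < (N : ℤ)) (h2 : |v.2| < (N : ℤ)) :
    ∃ w ∈ SDir N, w.1 ≠ 0 ∧ w.2 ≠ 0 ∧ ∀ x y, On w x = On w y ↔ On v x = On v y := by
  obtain ⟨hg, ha, hb⟩ := hv
  rw [abs_lt] at h1 h2
  rcases lt_or_gt_of_ne ha with h | h
  · refine ⟨(-v.1, -v.2), ?_, neg_ne_zero.mpr ha, neg_ne_zero.mpr hb, fun x y => ?_⟩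
    · unfold SDir Dir
      rw [mem_filter, mem_filter, mem_product, mem_Icc, mem_Icc]
      refine ⟨⟨⟨⟨?_, ?_⟩, ⟨?_, ?_⟩⟩, ?_, fun h0 => ?_⟩, neg_ne_zero.mpr ha, neg_ne_zero.mpr hb⟩
      · change (0 : ℤ) ≤ -v.1
        omega
      · change -v.1 ≤ (N : ℤ)
        omega
      · change -(N : ℤ) ≤ -v.2
        omega
      · change -v.2 ≤ (N : ℤ)
        omega
      · change Int.gcd (-v.1) (-v.2) = 1
        rw [Int.neg_gcd, Int.gcd_neg]
        exact hg
      · exact absurd h0 (neg_ne_zero.mpr ha)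
    · unfold On
      constructor
      · intro h0
        dsimp only at h0
        linarith
      · intro h0
        dsimp only
        linarith
  · refine ⟨v, ?_, ha, hb, fun x y => Iff.rfl⟩
    unfold SDir Dir
    rw [mem_filter, mem_filter, mem_product, mem_Icc, mem_Icc]
    refine ⟨⟨⟨⟨by omega, by omega⟩, ⟨by omega, by omega⟩⟩, hg, fun h0 => absurd h0 ha⟩, ha, hb⟩

private theorem f2p_hgt {v R Q : ℤ × ℤ} (hv : Skew v) (hR : R ∈ grid N) (hQ : Q ∈ grid N)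
    (hne : Q ≠ R) (h : On v R = On v Q) : |v.1| < (N : ℤ) ∧ |v.2| < (N : ℤ) := by
  obtain ⟨hg, ha, hb⟩ := hv
  unfold grid at hR hQ
  rw [mem_product, mem_Ico, mem_Ico] at hR hQ
  unfold On at h
  have h1 : v.2 * (R.1 - Q.1) = v.1 * (R.2 - Q.2) := by linarith
  have hc : IsCoprime v.1 v.2 := Int.isCoprime_iff_gcd_eq_one.2 hg
  have h2 : v.1 ∣ R.1 - Q.1 := hc.dvd_of_dvd_mul_left ⟨R.2 - Q.2, h1⟩
  have h3 : v.2 ∣ R.2 - Q.2 := hc.symm.dvd_of_dvd_mul_left ⟨R.1 - Q.1, h1.symm⟩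
  have h4 : R.1 - Q.1 ≠ 0 := by
    intro h0
    rw [h0, mul_zero] at h1
    have h5 : R.2 - Q.2 = 0 := by
      rcases mul_eq_zero.1 h1.symm with h6 | h6
      · exact absurd h6 ha
      · exact h6
    apply hne
    ext
    · omega
    · omega
  have h5 : R.2 - Q.2 ≠ 0 := by
    intro h0
    rw [h0, mul_zero] at h1
    rcases mul_eq_zero.1 h1 with h6 | h6
    · exact hb h6
    · exact h4 h6
  have h6 : |v.1| ≤ |R.1 - Q.1| := Int.le_of_dvd (abs_pos.2 h4) ((abs_dvd_abs _ _).2 h2)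
  have h7 : |v.2| ≤ |R.2 - Q.2| := Int.le_of_dvd (abs_pos.2 h5) ((abs_dvd_abs _ _).2 h3)
  have h8 : |R.1 - Q.1| < (N : ℤ) := by
    rw [abs_lt]
    constructor <;> omega
  have h9 : |R.2 - Q.2| < (N : ℤ) := by
    rw [abs_lt]
    constructor <;> omega
  exact ⟨lt_of_le_of_lt h6 h8, lt_of_le_of_lt h7 h9⟩

private theorem f2p_one {R Q : ℤ × ℤ} (hR : R ∈ grid N) (hRS : R ∉ S) (hQ : Q ∈ grid N)
    (hne : Q ≠ R) {v : ℤ × ℤ} (hv : Skew v) (h : On v R = On v Q)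
    (h2 : 2 ≤ (S.filter fun q => On v q = On v R).card) :
    ∃ w ∈ (SDir N).filter (fun w => 2 ≤ dg0 S w R), w.1 ≠ 0 ∧ w.2 ≠ 0 ∧ On w R = On w Q := by
  obtain ⟨ha, hb⟩ := f2p_hgt hv hR hQ hne h
  obtain ⟨w, hw, hw1, hw2, hwv⟩ := f2p_dir hv ha hb
  refine ⟨w, mem_filter.2 ⟨hw, ?_⟩, hw1, hw2, (hwv _ _).2 h⟩
  refine le_trans h2 ?_
  unfold dg0
  refine card_le_card fun q hq => ?_
  rw [mem_filter] at hq ⊢
  refine ⟨hq.1, fun h0 => hRS (h0 ▸ hq.1), (hwv _ _).2 hq.2⟩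

private theorem f2p_cnt {R : ℤ × ℤ} (hR : R ∈ grid N) (hRS : R ∉ S) (C : Finset ℤ)
    (g : ℤ → ℤ × ℤ)
    (hg : ∀ c ∈ C, g c ∈ grid N ∧ g c ≠ R ∧ ∃ v, Skew v ∧ On v R = On v (g c) ∧
      2 ≤ (S.filter fun q => On v q = On v R).card)
    (hinj : ∀ w : ℤ × ℤ, w.1 ≠ 0 → w.2 ≠ 0 → ∀ c c', On w (g c) = On w (g c') → c = c') :
    C.card ≤ deg2 N S R := by
  classical
  have h1 : ∀ c, ∃ w, c ∈ C → w ∈ (SDir N).filter (fun w => 2 ≤ dg0 S w R) ∧ w.1 ≠ 0 ∧ w.2 ≠ 0 ∧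
      On w R = On w (g c) := by
    intro c
    by_cases hc : c ∈ C
    · obtain ⟨h2, h3, v, hv, h4, h5⟩ := hg c hc
      obtain ⟨w, hw, hw1, hw2, hw3⟩ := f2p_one hR hRS h2 h3 hv h4 h5
      exact ⟨w, fun _ => ⟨hw, hw1, hw2, hw3⟩⟩
    · exact ⟨0, fun h => absurd h hc⟩
  choose f hf using h1
  unfold deg2
  refine card_le_card_of_injOn f (fun c hc => (hf c hc).1) ?_
  intro c hc c' hc' hcc
  have h2 := hf c hc
  have h3 := hf c' hc'
  rw [← hcc] at h3
  exact hinj (f c) h2.2.1 h2.2.2.1 c c' (by rw [← h2.2.2.2, h3.2.2.2])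

private theorem f2p_sum (A : ℤ → Finset (ℤ × ℤ)) (hA : ∀ c, A c ⊆ S) (C : Finset ℤ) (d : ℕ)
    (h : ∀ p ∈ S, (C.filter fun c => p ∈ A c).card ≤ d) :
    ∑ c ∈ C, (A c).card ≤ S.card * d := by
  classical
  have h1 : ∀ c ∈ C, (A c).card = ∑ p ∈ S, if p ∈ A c then 1 else 0 := by
    intro c _
    rw [← card_filter]
    congr 1
    ext p
    rw [mem_filter]
    exact ⟨fun h2 => ⟨hA c h2, h2⟩, fun h2 => h2.2⟩
  rw [sum_congr rfl h1, sum_comm]
  have h2 : ∀ p ∈ S, (∑ c ∈ C, if p ∈ A c then 1 else 0) ≤ d := by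
    intro p hp
    rw [← card_filter]
    exact h p hp
  calc ∑ p ∈ S, ∑ c ∈ C, (if p ∈ A c then 1 else 0) ≤ ∑ p ∈ S, d := sum_le_sum h2
    _ = S.card * d := by rw [sum_const, smul_eq_mul]

private theorem f2p_sub (r c : ℤ) : bdp S r c ⊆ S := by
  classical
  intro p hp
  unfold bdp at hp
  exact (mem_filter.1 hp).1

theorem bdp_row (hS : S ⊆ grid N) {d : ℕ} (hd : ∀ z ∈ grid N, deg2 N S z ≤ d) (r : ℤ)
    (hr : 0 ≤ r) (hr' : r < N) :
    ∑ c ∈ Finset.Ico (0 : ℤ) N, (bdp S r c).card ≤ S.card * d := by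
  classical
  refine f2p_sum (fun c => bdp S r c) (fun c => f2p_sub r c) _ d fun p hp => ?_
  have hpg := hS hp
  unfold grid at hpg
  rw [mem_product, mem_Ico, mem_Ico] at hpg
  by_cases hRS : (r, p.2) ∈ S
  · have h0 : (Finset.Ico (0 : ℤ) N).filter (fun c => p ∈ bdp S r c) = ∅ := by
      rw [filter_eq_empty_iff]
      intro c _ hc
      unfold bdp at hc
      rw [mem_filter] at hc
      exact hc.2.1 hRS
    rw [h0, card_empty]
    exact Nat.zero_le _
  have hR : (r, p.2) ∈ grid N := by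
    unfold grid
    rw [mem_product, mem_Ico, mem_Ico]
    exact ⟨⟨hr, hr'⟩, hpg.2⟩
  refine le_trans (f2p_cnt hR hRS _ (fun c => (p.1, c)) ?_ ?_) (hd _ hR)
  · intro c hc
    rw [mem_filter, mem_Ico] at hc
    obtain ⟨hc1, hc2⟩ := hc
    unfold bdp at hc2
    rw [mem_filter] at hc2
    obtain ⟨_, _, h3, v, hv, h4, h5⟩ := hc2
    refine ⟨?_, ?_, v, hv, h4, h5⟩
    · unfold grid
      rw [mem_product, mem_Ico, mem_Ico]
      exact ⟨hpg.1, hc1⟩
    · intro h6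
      have h7 : p.1 = r := congrArg Prod.fst h6
      apply hRS
      rw [← h7]
      exact hp
  · intro w hw1 _ c c' h
    unfold On at h
    dsimp only at h
    have h2 : w.1 * (c - c') = 0 := by linarith
    rcases mul_eq_zero.1 h2 with h3 | h3
    · exact absurd h3 hw1
    · omega

theorem bdp_col (hS : S ⊆ grid N) {d : ℕ} (hd : ∀ z ∈ grid N, deg2 N S z ≤ d) (c : ℤ)
    (hc : 0 ≤ c) (hc' : c < N) :
    ∑ r ∈ Finset.Ico (0 : ℤ) N, (bdp S r c).card ≤ S.card * d := by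
  classical
  refine f2p_sum (fun r => bdp S r c) (fun r => f2p_sub r c) _ d fun p hp => ?_
  have hpg := hS hp
  unfold grid at hpg
  rw [mem_product, mem_Ico, mem_Ico] at hpg
  by_cases hRS : (p.1, c) ∈ S
  · have h0 : (Finset.Ico (0 : ℤ) N).filter (fun r => p ∈ bdp S r c) = ∅ := by
      rw [filter_eq_empty_iff]
      intro r _ hr
      unfold bdp at hr
      rw [mem_filter] at hr
      exact hr.2.2.1 hRS
    rw [h0, card_empty]
    exact Nat.zero_le _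
  have hR : (p.1, c) ∈ grid N := by
    unfold grid
    rw [mem_product, mem_Ico, mem_Ico]
    exact ⟨hpg.1, ⟨hc, hc'⟩⟩
  refine le_trans (f2p_cnt hR hRS _ (fun r => (r, p.2)) ?_ ?_) (hd _ hR)
  · intro r hr
    rw [mem_filter, mem_Ico] at hr
    obtain ⟨hr1, hr2⟩ := hr
    unfold bdp at hr2
    rw [mem_filter] at hr2
    obtain ⟨_, _, h3, v, hv, h4, h5⟩ := hr2
    refine ⟨?_, ?_, v, hv, h4.symm, ?_⟩
    · unfold grid
      rw [mem_product, mem_Ico, mem_Ico]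
      exact ⟨hr1, hpg.2⟩
    · intro h6
      have h7 : p.2 = c := congrArg Prod.snd h6
      apply hRS
      rw [← h7]
      exact hp
    · rw [← h4]
      exact h5
  · intro w _ hw2 r r' h
    unfold On at h
    dsimp only at h
    have h2 : w.2 * (r - r') = 0 := by linarith
    rcases mul_eq_zero.1 h2 with h3 | h3
    · exact absurd h3 hw2
    · omega

private theorem f2p_half {L d : ℕ} (f : ℤ → ℕ) (c : Fin L → ℤ) (hc : ∀ j, 0 ≤ c j ∧ c j < N)
    (hm : ∀ y, (univ.filter fun j => c j = y).card ≤ s)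
    (hf : ∑ y ∈ Finset.Ico (0 : ℤ) N, f y ≤ s * N * d) (hN : 0 < N) (hβ : 0 < β)
    (hL : 32 * (s : ℝ) ^ 2 * d ≤ β * L) :
    L ≤ 2 * (univ.filter fun j => (f (c j) : ℝ) ≤ β / 8 * N).card := by
  classical
  have hNr : (0 : ℝ) < N := by exact_mod_cast hN
  have h1 : ∑ j : Fin L, f (c j) ≤ s * (s * N * d) := by
    calc ∑ j : Fin L, f (c j)
        = ∑ y ∈ Finset.Ico (0 : ℤ) N, ∑ j ∈ univ.filter (fun j => c j = y), f (c j) :=
          (sum_fiberwise_of_maps_to (fun j _ => mem_Ico.2 (hc j)) _).symm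
      _ = ∑ y ∈ Finset.Ico (0 : ℤ) N, (univ.filter fun j => c j = y).card * f y := by
          refine sum_congr rfl fun y _ => ?_
          rw [← smul_eq_mul, ← sum_const]
          refine sum_congr rfl fun j hj => ?_
          rw [(mem_filter.1 hj).2]
      _ ≤ ∑ y ∈ Finset.Ico (0 : ℤ) N, s * f y :=
          sum_le_sum fun y _ => Nat.mul_le_mul_right _ (hm y)
      _ = s * ∑ y ∈ Finset.Ico (0 : ℤ) N, f y := by rw [mul_sum]
      _ ≤ s * (s * N * d) := Nat.mul_le_mul_left _ hf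
  have h2 : ((univ.filter fun j => ¬ (f (c j) : ℝ) ≤ β / 8 * N).card : ℝ) * (β / 8 * N)
      ≤ s * (s * N * d) := by
    calc ((univ.filter fun j => ¬ (f (c j) : ℝ) ≤ β / 8 * N).card : ℝ) * (β / 8 * N)
        = ∑ j ∈ univ.filter (fun j => ¬ (f (c j) : ℝ) ≤ β / 8 * N), (β / 8 * N) := by
          rw [sum_const, nsmul_eq_mul]
      _ ≤ ∑ j ∈ univ.filter (fun j => ¬ (f (c j) : ℝ) ≤ β / 8 * N), (f (c j) : ℝ) :=
          sum_le_sum fun j hj => (not_le.1 (mem_filter.1 hj).2).le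
      _ ≤ ∑ j : Fin L, (f (c j) : ℝ) :=
          sum_le_sum_of_subset_of_nonneg (filter_subset _ _) fun j _ _ => Nat.cast_nonneg _
      _ = ((∑ j : Fin L, f (c j) : ℕ) : ℝ) := by push_cast; rfl
      _ ≤ ((s * (s * N * d) : ℕ) : ℝ) := by exact_mod_cast h1
      _ = s * (s * N * d) := by push_cast; ring
  have h3 : (univ.filter fun j => (f (c j) : ℝ) ≤ β / 8 * N).card
      + (univ.filter fun j => ¬ (f (c j) : ℝ) ≤ β / 8 * N).card = L := by
    rw [card_filter_add_card_filter_not, card_univ, Fintype.card_fin]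
  set B := (univ.filter fun j => ¬ (f (c j) : ℝ) ≤ β / 8 * N).card with hB
  have h4 : (B : ℝ) * β ≤ 8 * (s : ℝ) ^ 2 * d := by
    have h5 : (B : ℝ) * (β / 8 * N) = (B : ℝ) * β / 8 * N := by ring
    have h6 : (s : ℝ) * (s * N * d) = (s : ℝ) ^ 2 * d * N := by ring
    rw [h5, h6] at h2
    have h7 := le_of_mul_le_mul_right h2 hNr
    linarith
  have h5 : β * (4 * (B : ℝ)) ≤ β * L := by linarith
  have h6 : 4 * (B : ℝ) ≤ L := le_of_mul_le_mul_left h5 hβ
  have h7 : 4 * B ≤ L := by exact_mod_cast h6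
  omega

theorem pairing (h : Near2 s N ε β η S) (hβ : 0 < β) {L : ℕ} {r c : Fin L → ℤ}
    (hD : Def s N L S r c) {d : ℕ} (hd : ∀ z ∈ grid N, deg2 N S z ≤ d)
    (hL : 32 * (s : ℝ) ^ 2 * d ≤ β * L) :
    ∃ σ : Equiv.Perm (Fin L), ∀ i, ((bdp S (r i) (c (σ i))).card : ℝ) ≤ β / 8 * N := by
  classical
  have hS : S.card ≤ s * N := by
    have := hD.L_eq
    omega
  have hm := def_mult hD
  have hsub := h.near.sub
  have hSd : S.card * d ≤ s * N * d := Nat.mul_le_mul_right _ hS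
  have h1 : ∀ i, L ≤ 2 * (univ.filter fun j => ((bdp S (r i) (c j)).card : ℝ) ≤ β / 8 * N).card := by
    intro i
    have hri := hD.r_mem i
    have hN : 0 < N := by
      by_contra h0
      have h0' : N = 0 := by omega
      rw [h0'] at hri
      simp at hri
      omega
    exact f2p_half (fun y => (bdp S (r i) y).card) c hD.c_mem hm.2
      ((bdp_row hsub hd (r i) hri.1 hri.2).trans hSd) hN hβ hL
  have h2 : ∀ j, L ≤ 2 * (univ.filter fun i => ((bdp S (r i) (c j)).card : ℝ) ≤ β / 8 * N).card := by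
    intro j
    have hcj := hD.c_mem j
    have hN : 0 < N := by
      by_contra h0
      have h0' : N = 0 := by omega
      rw [h0'] at hcj
      simp at hcj
      omega
    exact f2p_half (fun x => (bdp S x (c j)).card) r hD.r_mem hm.1
      ((bdp_col hsub hd (c j) hcj.1 hcj.2).trans hSd) hN hβ hL
  obtain ⟨σ, hσ⟩ := dense_matching
    (fun i j => ((bdp S (r i) (c j)).card : ℝ) ≤ β / 8 * N)
    (fun i => by
      refine (h1 i).trans (le_of_eq ?_)
      congr 2)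
    (fun j => by
      refine (h2 j).trans (le_of_eq ?_)
      congr 2)
  exact ⟨σ, hσ⟩

theorem def_perm {L : ℕ} {r c : Fin L → ℤ} (hD : Def s N L S r c) (σ : Equiv.Perm (Fin L)) :
    Def s N L S r (fun i => c (σ i)) := by
  refine ⟨hD.L_eq, hD.r_mem, fun i => hD.c_mem (σ i), hD.r_cnt, fun y hy hy' => ?_⟩
  rw [← hD.c_cnt y hy hy']
  congr 1
  refine card_bij (fun i _ => σ i) (fun i hi => ?_) (fun i _ j _ hij => σ.injective hij)
    (fun j hj => ⟨σ.symm j, ?_, σ.apply_symm_apply j⟩)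
  · rw [mem_filter] at hi ⊢
    exact ⟨mem_univ _, hi.2⟩
  · rw [mem_filter] at hj ⊢
    refine ⟨mem_univ _, ?_⟩
    rw [σ.apply_symm_apply]
    exact hj.2

end Pool.Agent.NKL
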