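import Pool.Agent.NKL.GD1

set_option autoImplicit false

/-!
# NKL / GD2 : cells on a line, the assumptions `Ok`

* `On_inj`: if `v.1 ≠ 0`, then `On v p = On v q` and `p.1 = q.1` give `p = q`; similarly for
  `v.2 ≠ 0` and `p.2 = q.2`.
* `line_card_gen`: a set `A ⊆ [0,M)²` on a line `On v = l` of primitive direction `v` with height
  `h`: say `h = |v.1|`.  `v.2 (p.1 - q.1) = v.1 (p.2 - q.2)` and gcd 1 give `v.1 ∣ p.1 - q.1`, so
  all `p.1` lie in one residue class mod `h`, and `p ↦ p.1` is injective on `A` (`v.1 ≠ 0`).  A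
  residue class mod `h` has at most `(M-1)/h + 1` elements in `[0,M)`.
* `gsys_ok`: `f ∈ {4/5, 6/5}`; `codeg`: the determinant `dir_det` is not `0`, so two equations
  `On v p = On v p'`, `On v' p = On v' p'` give `pt p = pt p'`; `len`: at most `4n ≤ N` cells on a
  line (`v.1 ≠ 0`: `p.1` determines `p`; `v.1 = 0`: `v = (0,1)`, the line is a column);
  `rowlen`, `rows`: `4n ≤ N`.
-/

namespace Pool.Agent.NKL

open Finset

private theorem gd2_res_card {M h : ℕ} (hM : 1 ≤ M) (hh : 1 ≤ h) (B : Finset ℤ)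
    (hB : ∀ b ∈ B, 0 ≤ b ∧ b < M) (hr : ∀ b ∈ B, ∀ b' ∈ B, (h : ℤ) ∣ b - b') :
    B.card ≤ (M - 1) / h + 1 := by
  have hh' : (0 : ℤ) < h := by exact_mod_cast hh
  rw [← Finset.card_range ((M - 1) / h + 1)]
  refine Finset.card_le_card_of_injOn (fun b => (b / (h : ℤ)).toNat) ?_ ?_
  · intro b hb
    rw [Finset.mem_coe] at hb
    obtain ⟨h0, h1⟩ := hB b hb
    rw [Finset.mem_coe, Finset.mem_range]
    have h2 : b ≤ ((M - 1 : ℕ) : ℤ) := by
      rw [Nat.cast_sub hM]; push_cast; omega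
    have h3 : b / (h : ℤ) ≤ ((M - 1 : ℕ) : ℤ) / (h : ℤ) := Int.ediv_le_ediv hh' h2
    have h4 : (((M - 1) / h : ℕ) : ℤ) = ((M - 1 : ℕ) : ℤ) / (h : ℤ) := by
      rw [Int.natCast_div]
    have h5 : (0 : ℤ) ≤ b / (h : ℤ) := Int.ediv_nonneg h0 hh'.le
    show (b / (h : ℤ)).toNat < (M - 1) / h + 1
    omega
  · intro b hb b' hb' he
    rw [Finset.mem_coe] at hb hb'
    have h5 : (0 : ℤ) ≤ b / (h : ℤ) := Int.ediv_nonneg (hB b hb).1 hh'.le
    have h6 : (0 : ℤ) ≤ b' / (h : ℤ) := Int.ediv_nonneg (hB b' hb').1 hh'.le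
    have he' : (b / (h : ℤ)).toNat = (b' / (h : ℤ)).toNat := he
    have h7 : b / (h : ℤ) = b' / (h : ℤ) := by omega
    have h8 : b % (h : ℤ) = b' % (h : ℤ) :=
      Int.emod_eq_emod_iff_emod_sub_eq_zero.2 (Int.emod_eq_zero_of_dvd (hr b hb b' hb'))
    rw [← Int.mul_ediv_add_emod b h, ← Int.mul_ediv_add_emod b' h, h7, h8]

theorem line_card_gen {M : ℕ} (hM : 1 ≤ M) {v : ℤ × ℤ} (hv : Int.gcd v.1 v.2 = 1) (l : ℤ)
    (A : Finset (ℤ × ℤ)) (hA : ∀ p ∈ A, 0 ≤ p.1 ∧ p.1 < M ∧ 0 ≤ p.2 ∧ p.2 < M)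
    (hl : ∀ p ∈ A, On v p = l) : A.card ≤ (M - 1) / hgt v + 1 := by
  have hpos : 1 ≤ hgt v := hgt_pos hv
  have hcop : IsCoprime v.1 v.2 := Int.isCoprime_iff_gcd_eq_one.2 hv
  have hkey : ∀ p ∈ A, ∀ q ∈ A, v.2 * (p.1 - q.1) = v.1 * (p.2 - q.2) := by
    intro p hp q hq
    have h := (hl p hp).trans (hl q hq).symm
    unfold On at h
    linarith
  rcases le_total v.2.natAbs v.1.natAbs with hle | hle
  · have hh : hgt v = v.1.natAbs := max_eq_left hle
    rw [hh] at hpos ⊢
    have hne : v.1 ≠ 0 := fun h0 => by rw [h0] at hpos; simp at hpos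
    have hinj : Set.InjOn Prod.fst (A : Set (ℤ × ℤ)) := by
      intro p hp q hq he
      rw [Finset.mem_coe] at hp hq
      have h := hkey p hp q hq
      have he' : p.1 = q.1 := he
      rw [he', sub_self, mul_zero] at h
      rcases mul_eq_zero.1 h.symm with h0 | h0
      · exact absurd h0 hne
      · exact Prod.ext he' (by linarith)
    rw [← Finset.card_image_of_injOn hinj]
    refine gd2_res_card hM hpos _ ?_ ?_
    · intro b hb
      obtain ⟨p, hp, rfl⟩ := Finset.mem_image.1 hb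
      exact ⟨(hA p hp).1, (hA p hp).2.1⟩
    · intro b hb b' hb'
      obtain ⟨p, hp, rfl⟩ := Finset.mem_image.1 hb
      obtain ⟨q, hq, rfl⟩ := Finset.mem_image.1 hb'
      rw [Int.natAbs_dvd]
      exact hcop.dvd_of_dvd_mul_left ⟨p.2 - q.2, hkey p hp q hq⟩
  · have hh : hgt v = v.2.natAbs := max_eq_right hle
    rw [hh] at hpos ⊢
    have hne : v.2 ≠ 0 := fun h0 => by rw [h0] at hpos; simp at hpos
    have hinj : Set.InjOn Prod.snd (A : Set (ℤ × ℤ)) := by
      intro p hp q hq he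
      rw [Finset.mem_coe] at hp hq
      have h := hkey p hp q hq
      have he' : p.2 = q.2 := he
      rw [he', sub_self, mul_zero] at h
      rcases mul_eq_zero.1 h with h0 | h0
      · exact absurd h0 hne
      · exact Prod.ext (by linarith) he'
    rw [← Finset.card_image_of_injOn hinj]
    refine gd2_res_card hM hpos _ ?_ ?_
    · intro b hb
      obtain ⟨p, hp, rfl⟩ := Finset.mem_image.1 hb
      exact ⟨(hA p hp).2.2.1, (hA p hp).2.2.2⟩
    · intro b hb b' hb'
      obtain ⟨p, hp, rfl⟩ := Finset.mem_image.1 hb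
      obtain ⟨q, hq, rfl⟩ := Finset.mem_image.1 hb'
      rw [Int.natAbs_dvd]
      exact hcop.symm.dvd_of_dvd_mul_left ⟨p.1 - q.1, (hkey p hp q hq).symm⟩

theorem pt_inj {n : ℕ} : Function.Injective (pt : Cell n → ℤ × ℤ) := by
  rintro ⟨a, b⟩ ⟨c, d⟩ h
  unfold pt at h
  rw [Prod.mk.injEq] at h
  obtain ⟨h1, h2⟩ := h
  have h1' : (a : ℕ) = (c : ℕ) := by exact_mod_cast h1
  have h2' : (b : ℕ) = (d : ℕ) := by exact_mod_cast h2
  exact Prod.ext (Fin.ext h1') (Fin.ext h2')

private theorem gd2_psi (n x : ℕ) : psi n x = 1 ∨ psi n x = -1 := by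
  unfold psi
  split_ifs
  · exact Or.inl rfl
  · exact Or.inr rfl

theorem gsys_ok {s c₁ n D N : ℕ} (hs : 3 ≤ s) (hc : 1 ≤ c₁) (hn : 1 ≤ n) (h : 4 * n ≤ N)
    (hD : 1 ≤ D) : (gsys s c₁ n D N h hD).Ok := by
  refine ⟨?_, ?_, ?_, ?_, ?_, ?_, ?_⟩
  · intro v
    show 1 ≤ capf s c₁ v.1
    unfold capf
    split_ifs <;> omega
  · intro p
    show 0 ≤ 1 - psi n p.1 * psi n p.2 / 5
    rcases gd2_psi n p.1 with h1 | h1 <;> rcases gd2_psi n p.2 with h2 | h2 <;>
      rw [h1, h2] <;> norm_num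
  · intro p
    show 1 - psi n p.1 * psi n p.2 / 5 ≤ 2
    rcases gd2_psi n p.1 with h1 | h1 <;> rcases gd2_psi n p.2 with h2 | h2 <;>
      rw [h1, h2] <;> norm_num
  · rintro ⟨v, hv⟩ ⟨w, hw⟩ p q hne h1 h2
    have hvw : v ≠ w := fun e => hne (Subtype.ext e)
    have hdet := dir_det hv hw hvw
    have h1' : On v (pt p) = On v (pt q) := h1
    have h2' : On w (pt p) = On w (pt q) := h2
    unfold On at h1' h2'
    have e1 : (v.1 * w.2 - v.2 * w.1) * ((pt p).1 - (pt q).1) = 0 := by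
      linear_combination v.1 * h2' - w.1 * h1'
    have e2 : (v.1 * w.2 - v.2 * w.1) * ((pt p).2 - (pt q).2) = 0 := by
      linear_combination v.2 * h2' - w.2 * h1'
    have f1 : (pt p).1 = (pt q).1 := by
      rcases mul_eq_zero.1 e1 with h0 | h0
      · exact absurd h0 hdet
      · linarith
    have f2 : (pt p).2 = (pt q).2 := by
      rcases mul_eq_zero.1 e2 with h0 | h0
      · exact absurd h0 hdet
      · linarith
    exact pt_inj (Prod.ext f1 f2)
  · rintro ⟨v, hv⟩ l
    have h1 := line_card_gen (M := 4 * n) (by omega) (dir_gcd hv) l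
      ((univ.filter fun p : Cell n => On v (pt p) = l).image pt) ?_ ?_
    · rw [Finset.card_image_of_injective _ pt_inj] at h1
      have h2 : (4 * n - 1) / hgt v ≤ 4 * n - 1 := Nat.div_le_self _ _
      have h3 : (univ.filter fun p : Cell n => On v (pt p) = l).card ≤ N := by omega
      exact h3
    · intro p hp
      obtain ⟨q, -, rfl⟩ := Finset.mem_image.1 hp
      have a1 := q.1.isLt
      have a2 := q.2.isLt
      unfold pt
      dsimp only
      refine ⟨by positivity, by exact_mod_cast a1, by positivity, by exact_mod_cast a2⟩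
    · intro p hp
      obtain ⟨q, hq, rfl⟩ := Finset.mem_image.1 hp
      exact (Finset.mem_filter.1 hq).2
  · intro x
    refine le_trans ?_ h
    have h1 : (univ.filter fun p : Cell n => Fin.castLE h p.1 = x).card ≤
        (univ : Finset (Fin (4 * n))).card := by
      refine Finset.card_le_card_of_injOn Prod.snd (fun p _ => by simp) ?_
      intro p hp q hq he
      have hp' := (Finset.mem_filter.1 (Finset.mem_coe.1 hp)).2
      have hq' := (Finset.mem_filter.1 (Finset.mem_coe.1 hq)).2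
      have h2 : p.1 = q.1 := Fin.castLE_injective h (hp'.trans hq'.symm)
      exact Prod.ext h2 he
    rw [Finset.card_univ, Fintype.card_fin] at h1
    exact h1
  · refine le_trans ?_ h
    have h1 : (univ.image fun p : Cell n => On (0, 1) (pt p)) ⊆
        (univ : Finset (Fin (4 * n))).image (fun a : Fin (4 * n) => ((a : ℕ) : ℤ)) := by
      intro z hz
      obtain ⟨p, -, rfl⟩ := Finset.mem_image.1 hz
      refine Finset.mem_image.2 ⟨p.1, Finset.mem_univ _, ?_⟩
      unfold On pt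
      dsimp only
      ring
    have h2 := (Finset.card_le_card h1).trans Finset.card_image_le
    rw [Finset.card_univ, Fintype.card_fin] at h2
    exact h2

end Pool.Agent.NKL
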