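import Pool.Agent.NKL.FDefs
import Pool.Agent.NKL.GD2

/-!
# NKL / FH1 : new cells on a given line

Let `v` be skew.  For given `j` and `l`: `On v (r j, q.2) = l` determines `q.2` (`v.1 ≠ 0`), so there
are at most `s` such `q ∈ S`; `On v (q.1, c j) = l` determines `q.1`, at most `s` such `q`.
`fh_one`: at most `2 s` points `q ∈ S` with a new cell on the line.
`fh_sum_L`: summing over `j`.
`fh_sum_N`: if some `q ∈ S` has `On v (r j, q.2) = l`, then `(r j, q.2)` is a grid point of the line with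
first coordinate `r j`; the line has at most `(N-1)/hgt v + 1` grid points (`line_card_gen`), for each
grid point `z` at most `s` indices `j` have `r j = z.1`.  So at most `s ((N-1)/hgt v + 1)` indices
contribute, each at most `s`; the same for the other type.
-/

set_option autoImplicit false

namespace Pool.Agent.NKL

open Finset

variable {s c₁ N L : ℕ} {ε : ℝ} {S : Finset (ℤ × ℤ)} {r c : Fin L → ℤ}

open Classical in
private theorem fh1_false (h : Near s c₁ N ε S) {v : ℤ × ℤ} (hv : Skew v) (l : ℤ) (j : Fin L) :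
    (S.filter fun q => On v (sl (r j) (c j) false q) = l).card ≤ s := by
  rcases (S.filter fun q => On v (sl (r j) (c j) false q) = l).eq_empty_or_nonempty with he | ⟨q₀, hq₀⟩
  · rw [he, Finset.card_empty]
    exact Nat.zero_le _
  · refine le_trans (Finset.card_le_card ?_) (h.col q₀.1)
    intro q hq
    rw [Finset.mem_filter] at hq hq₀ ⊢
    refine ⟨hq.1, ?_⟩
    have h1 : v.2 * q.1 - v.1 * c j = l := hq.2
    have h2 : v.2 * q₀.1 - v.1 * c j = l := hq₀.2
    have h3 : v.2 * q.1 = v.2 * q₀.1 := by linarith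
    exact mul_left_cancel₀ hv.2.2 h3

open Classical in
theorem fh_true (h : Near s c₁ N ε S) {v : ℤ × ℤ} (hv : Skew v) (l : ℤ) (j : Fin L) :
    (S.filter fun q => On v (sl (r j) (c j) true q) = l).card ≤ s := by
  rcases (S.filter fun q => On v (sl (r j) (c j) true q) = l).eq_empty_or_nonempty with he | ⟨q₀, hq₀⟩
  · rw [he, Finset.card_empty]
    exact Nat.zero_le _
  · refine le_trans (Finset.card_le_card ?_) (h.row q₀.2)
    intro q hq
    rw [Finset.mem_filter] at hq hq₀ ⊢
    refine ⟨hq.1, ?_⟩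
    have h1 : v.2 * r j - v.1 * q.2 = l := hq.2
    have h2 : v.2 * r j - v.1 * q₀.2 = l := hq₀.2
    have h3 : v.1 * q.2 = v.1 * q₀.2 := by linarith
    exact mul_left_cancel₀ hv.2.1 h3

open Classical in
private theorem fh1_split (S : Finset (ℤ × ℤ)) (v : ℤ × ℤ) (l : ℤ) (x y : ℤ) :
    (S.filter fun q => ∃ γ, On v (sl x y γ q) = l).card ≤
      (S.filter fun q => On v (sl x y true q) = l).card + (S.filter fun q => On v (sl x y false q) = l).card := by
  refine le_trans (Finset.card_le_card ?_) (Finset.card_union_le _ _)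
  intro q hq
  rw [Finset.mem_filter] at hq
  rw [Finset.mem_union, Finset.mem_filter, Finset.mem_filter]
  obtain ⟨hq1, γ, hγ⟩ := hq
  cases γ
  · exact Or.inr ⟨hq1, hγ⟩
  · exact Or.inl ⟨hq1, hγ⟩

open Classical in
theorem fh_one (h : Near s c₁ N ε S) {v : ℤ × ℤ} (hv : Skew v) (l : ℤ) (j : Fin L) :
    (S.filter fun q => ∃ γ, On v (sl (r j) (c j) γ q) = l).card ≤ 2 * s := by
  have h1 := fh1_split S v l (r j) (c j)
  have h2 := fh_true (r := r) (c := c) h hv l j
  have h3 := fh1_false (r := r) (c := c) h hv l j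
  omega

open Classical in
theorem fh_sum_L (h : Near s c₁ N ε S) {v : ℤ × ℤ} (hv : Skew v) (l : ℤ) :
    ∑ j : Fin L, (S.filter fun q => ∃ γ, On v (sl (r j) (c j) γ q) = l).card ≤ 2 * s * L := by
  calc ∑ j : Fin L, (S.filter fun q => ∃ γ, On v (sl (r j) (c j) γ q) = l).card
      ≤ ∑ _j : Fin L, 2 * s := Finset.sum_le_sum fun j _ => fh_one h hv l j
    _ = 2 * s * L := by
      rw [Finset.sum_const, Finset.card_univ, Fintype.card_fin, smul_eq_mul, mul_comm]

open Classical in
private theorem fh1_cnt {A : Finset (ℤ × ℤ)} {K s : ℕ} (hA : A.card ≤ K) (g : Fin L → Finset (ℤ × ℤ))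
    (x : Fin L → ℤ) (π : ℤ × ℤ → ℤ) (hg : ∀ j, (g j).card ≤ s)
    (hne : ∀ j, (g j).Nonempty → ∃ z ∈ A, π z = x j)
    (hx : ∀ z ∈ A, (univ.filter fun j => x j = π z).card ≤ s) :
    ∑ j : Fin L, (g j).card ≤ s ^ 2 * K := by
  set J : Finset (Fin L) := univ.filter fun j => (g j).Nonempty with hJ
  have h1 : ∑ j : Fin L, (g j).card = ∑ j ∈ J, (g j).card := by
    symm
    refine Finset.sum_subset (Finset.subset_univ _) fun j _ hj => ?_
    have : ¬ (g j).Nonempty := fun h => hj (Finset.mem_filter.2 ⟨Finset.mem_univ _, h⟩)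
    rw [Finset.not_nonempty_iff_eq_empty.1 this, Finset.card_empty]
  have h2 : J ⊆ A.biUnion fun z => univ.filter fun j => x j = π z := by
    intro j hj
    obtain ⟨z, hz, hzx⟩ := hne j (Finset.mem_filter.1 hj).2
    rw [Finset.mem_biUnion]
    exact ⟨z, hz, Finset.mem_filter.2 ⟨Finset.mem_univ _, hzx.symm⟩⟩
  have h3 : J.card ≤ A.card * s := (Finset.card_le_card h2).trans (Finset.card_biUnion_le_card_mul _ _ _ hx)
  calc ∑ j : Fin L, (g j).card = ∑ j ∈ J, (g j).card := h1
    _ ≤ ∑ _j ∈ J, s := Finset.sum_le_sum fun j _ => hg j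
    _ = J.card * s := by rw [Finset.sum_const, smul_eq_mul]
    _ ≤ A.card * s * s := Nat.mul_le_mul_right s h3
    _ ≤ K * s * s := Nat.mul_le_mul_right s (Nat.mul_le_mul_right s hA)
    _ = s ^ 2 * K := by ring

open Classical in
theorem fh_sum_N (h : Near s c₁ N ε S) (hD : Def s N L S r c) {v : ℤ × ℤ} (hv : Skew v) (l : ℤ) :
    ∑ j : Fin L, (S.filter fun q => ∃ γ, On v (sl (r j) (c j) γ q) = l).card
      ≤ 2 * s ^ 2 * ((N - 1) / hgt v + 1) := by
  rcases Nat.eq_zero_or_pos N with hN | hN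
  · have hS : S = ∅ := by
      rw [Finset.eq_empty_iff_forall_notMem]
      intro p hp
      have := h.sub hp
      unfold grid at this
      rw [Finset.mem_product, Finset.mem_Ico] at this
      rw [hN] at this
      have h1 := this.1
      push_cast at h1
      omega
    rw [hS]
    simp
  set A : Finset (ℤ × ℤ) := (grid N).filter fun z => On v z = l with hA
  have hAc : A.card ≤ (N - 1) / hgt v + 1 := by
    refine line_card_gen hN hv.1 l A (fun p hp => ?_) (fun p hp => (Finset.mem_filter.1 hp).2)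
    have h1 := (Finset.mem_filter.1 hp).1
    unfold grid at h1
    rw [Finset.mem_product, Finset.mem_Ico, Finset.mem_Ico] at h1
    exact ⟨h1.1.1, h1.1.2, h1.2.1, h1.2.2⟩
  have hgr : ∀ q ∈ S, 0 ≤ q.1 ∧ q.1 < N ∧ 0 ≤ q.2 ∧ q.2 < N := by
    intro q hq
    have h1 := h.sub hq
    unfold grid at h1
    rw [Finset.mem_product, Finset.mem_Ico, Finset.mem_Ico] at h1
    exact ⟨h1.1.1, h1.1.2, h1.2.1, h1.2.2⟩
  have hAm : ∀ z ∈ A, 0 ≤ z.1 ∧ z.1 < N ∧ 0 ≤ z.2 ∧ z.2 < N := by
    intro z hz
    have h1 := (Finset.mem_filter.1 hz).1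
    unfold grid at h1
    rw [Finset.mem_product, Finset.mem_Ico, Finset.mem_Ico] at h1
    exact ⟨h1.1.1, h1.1.2, h1.2.1, h1.2.2⟩
  have hT := fh1_cnt (L := L) (s := s) hAc (fun j => S.filter fun q => On v (sl (r j) (c j) true q) = l) r Prod.fst
    (fun j => fh_true h hv l j)
    (by
      rintro j ⟨q, hq⟩
      rw [Finset.mem_filter] at hq
      have h1 := hgr q hq.1
      have h2 := hD.r_mem j
      refine ⟨(r j, q.2), Finset.mem_filter.2 ⟨?_, hq.2⟩, rfl⟩
      unfold grid
      rw [Finset.mem_product, Finset.mem_Ico, Finset.mem_Ico]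
      exact ⟨h2, h1.2.2⟩)
    (by
      intro z hz
      have h1 := hAm z hz
      have h2 := hD.r_cnt z.1 h1.1 h1.2.1
      omega)
  have hF := fh1_cnt (L := L) (s := s) hAc (fun j => S.filter fun q => On v (sl (r j) (c j) false q) = l) c Prod.snd
    (fun j => fh1_false h hv l j)
    (by
      rintro j ⟨q, hq⟩
      rw [Finset.mem_filter] at hq
      have h1 := hgr q hq.1
      have h2 := hD.c_mem j
      refine ⟨(q.1, c j), Finset.mem_filter.2 ⟨?_, hq.2⟩, rfl⟩
      unfold grid
      rw [Finset.mem_product, Finset.mem_Ico, Finset.mem_Ico]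
      exact ⟨⟨h1.1, h1.2.1⟩, h2⟩)
    (by
      intro z hz
      have h1 := hAm z hz
      have h2 := hD.c_cnt z.2 h1.2.2.1 h1.2.2.2
      omega)
  calc ∑ j : Fin L, (S.filter fun q => ∃ γ, On v (sl (r j) (c j) γ q) = l).card
      ≤ ∑ j : Fin L, ((S.filter fun q => On v (sl (r j) (c j) true q) = l).card +
          (S.filter fun q => On v (sl (r j) (c j) false q) = l).card) :=
        Finset.sum_le_sum fun j _ => fh1_split S v l (r j) (c j)
    _ = _ := Finset.sum_add_distrib
    _ ≤ s ^ 2 * ((N - 1) / hgt v + 1) + s ^ 2 * ((N - 1) / hgt v + 1) := add_le_add hT hF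
    _ = 2 * s ^ 2 * ((N - 1) / hgt v + 1) := by ring

end Pool.Agent.NKL
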