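import Pool.Agent.NKL.FH1
import Pool.Agent.NKL.FAV
import Pool.Agent.NKL.FSQ

set_option autoImplicit false

/-!
# NKL / FQ2 : the conflicts of two exchanges

`B2_symm`: clear for the first three alternatives (swap `β, γ`); in the fourth all four cells lie on
one line.
`fq2`: fix `i` and `p ∈ avl`.  `p = q`: one `q` for each `j`, total `≤ L`.
Common cell: `(r i, p.2) = (r j, q.2)`: at most `s` indices `j` with `r j = r i` (`def_mult`), at most
`s` points `q` with `q.2 = p.2`; the other three types `(β,γ)` similarly: total `≤ 4 s²`.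
Small lines: for each `β`, each `v ∈ Dir s` skew: `fh_sum_L` with `l = On v (sl .. β p)`:
total `≤ 2 |Dir s| * 2 s L`.
All four on a line: the two new cells of `i` differ in both coordinates (`avl_ne`), so the line
through them is unique: two skew `v, v'` satisfying `On v (R) = On v (C)`, `On v' R = On v' C` are
parallel (both are multiples of `R - C`), so `v' = ± v` and the condition on `q` is the same.  By
`fh_true` at most `s` points `q` for each `j`: total `≤ s L`.
-/

namespace Pool.Agent.NKL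

open Finset

variable {s c₁ N L : ℕ} {ε : ℝ} {S : Finset (ℤ × ℤ)} {r c : Fin L → ℤ}

private theorem fq2_B2_aux {ι : Type} (s : ℕ) (r c : ι → ℤ) (i j : ι) (p q : ℤ × ℤ)
    (h : B2 s r c i j p q) : B2 s r c j i q p := by
  rcases h with h | ⟨β, γ, h⟩ | ⟨β, γ, v, hv, h1, h2, h3⟩ | ⟨v, hv, h1, h2⟩
  · exact Or.inl h.symm
  · exact Or.inr (Or.inl ⟨γ, β, h.symm⟩)
  · exact Or.inr (Or.inr (Or.inl ⟨γ, β, v, hv, h1, h2, h3.symm⟩))
  · refine Or.inr (Or.inr (Or.inr ⟨v, hv, ?_, ?_⟩))
    · rw [h2 false, h2 true]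
    · intro γ
      cases γ
      · rw [h1, h2 true]
      · rw [h2 true]

private theorem fq2_cm {s L : ℕ} (x : Fin L → ℤ) (a : ℤ)
    (hx : (univ.filter fun j => x j = a).card ≤ s) (g : Fin L → Finset (ℤ × ℤ))
    (hg : ∀ j, (g j).card ≤ s) (hne : ∀ j, (g j).Nonempty → x j = a) :
    ∑ j : Fin L, (g j).card ≤ s * s := by
  have h1 : ∑ j : Fin L, (g j).card = ∑ j ∈ univ.filter (fun j => x j = a), (g j).card := by
    symm
    refine Finset.sum_subset (Finset.subset_univ _) fun j _ hj => ?_
    have : ¬ (g j).Nonempty := fun h => hj (Finset.mem_filter.2 ⟨Finset.mem_univ _, hne j h⟩)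
    rw [Finset.not_nonempty_iff_eq_empty.1 this, Finset.card_empty]
  rw [h1]
  refine (Finset.sum_le_card_nsmul _ _ s fun j _ => hg j).trans ?_
  rw [smul_eq_mul]
  exact Nat.mul_le_mul_right s hx

open Classical in
private theorem fq2_common (h : Near s c₁ N ε S) (hD : Def s N L S r c) (i : Fin L) (p : ℤ × ℤ)
    (β γ : Bool) :
    ∑ j : Fin L, (S.filter fun q => sl (r i) (c i) β p = sl (r j) (c j) γ q).card ≤ s * s := by
  obtain ⟨hr, hc⟩ := def_mult hD
  cases γ
  · refine fq2_cm c (sl (r i) (c i) β p).2 (hc _) _ (fun j => ?_) fun j => ?_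
    · refine le_trans (Finset.card_le_card ?_) (h.col (sl (r i) (c i) β p).1)
      intro q hq
      rw [Finset.mem_filter] at hq ⊢
      exact ⟨hq.1, (congrArg Prod.fst hq.2).symm⟩
    · rintro ⟨q, hq⟩
      rw [Finset.mem_filter] at hq
      exact (congrArg Prod.snd hq.2).symm
  · refine fq2_cm r (sl (r i) (c i) β p).1 (hr _) _ (fun j => ?_) fun j => ?_
    · refine le_trans (Finset.card_le_card ?_) (h.row (sl (r i) (c i) β p).2)
      intro q hq
      rw [Finset.mem_filter] at hq ⊢
      exact ⟨hq.1, (congrArg Prod.snd hq.2).symm⟩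
    · rintro ⟨q, hq⟩
      rw [Finset.mem_filter] at hq
      exact (congrArg Prod.fst hq.2).symm

open Classical in
private theorem fq2_small (h : Near s c₁ N ε S) (i : Fin L) (p : ℤ × ℤ) :
    ∑ j : Fin L, (S.filter fun q => ∃ β γ, ∃ v ∈ Dir s, v.1 ≠ 0 ∧ v.2 ≠ 0 ∧
      On v (sl (r i) (c i) β p) = On v (sl (r j) (c j) γ q)).card
      ≤ 4 * s * (Dir s).card * L := by
  have h1 : ∀ j : Fin L, (S.filter fun q => ∃ β γ, ∃ v ∈ Dir s, v.1 ≠ 0 ∧ v.2 ≠ 0 ∧
      On v (sl (r i) (c i) β p) = On v (sl (r j) (c j) γ q)).card ≤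
      ∑ v ∈ (Dir s).filter (fun v => Skew v), ∑ β : Bool,
        (S.filter fun q => ∃ γ, On v (sl (r j) (c j) γ q) = On v (sl (r i) (c i) β p)).card := by
    intro j
    refine le_trans (Finset.card_le_card (t := ((Dir s).filter (fun v => Skew v)).biUnion fun v =>
      (univ : Finset Bool).biUnion fun β =>
        S.filter fun q => ∃ γ, On v (sl (r j) (c j) γ q) = On v (sl (r i) (c i) β p)) ?_) ?_
    · intro q hq
      rw [Finset.mem_filter] at hq
      obtain ⟨hqS, β, γ, v, hv, hv1, hv2, he⟩ := hq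
      rw [Finset.mem_biUnion]
      refine ⟨v, Finset.mem_filter.2 ⟨hv, dir_gcd hv, hv1, hv2⟩, ?_⟩
      rw [Finset.mem_biUnion]
      exact ⟨β, Finset.mem_univ _, Finset.mem_filter.2 ⟨hqS, γ, he.symm⟩⟩
    · refine (Finset.card_biUnion_le).trans (Finset.sum_le_sum fun v _ => ?_)
      exact Finset.card_biUnion_le
  refine (Finset.sum_le_sum fun j _ => h1 j).trans ?_
  rw [Finset.sum_comm]
  have h2 : ∀ v ∈ (Dir s).filter (fun v => Skew v), ∑ j : Fin L, ∑ β : Bool,
      (S.filter fun q => ∃ γ, On v (sl (r j) (c j) γ q) = On v (sl (r i) (c i) β p)).card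
      ≤ 4 * s * L := by
    intro v hv
    rw [Finset.sum_comm, Fintype.sum_bool]
    have h3 := fh_sum_L (r := r) (c := c) h (Finset.mem_filter.1 hv).2 (On v (sl (r i) (c i) true p))
    have h4 := fh_sum_L (r := r) (c := c) h (Finset.mem_filter.1 hv).2 (On v (sl (r i) (c i) false p))
    calc _ ≤ 2 * s * L + 2 * s * L := Nat.add_le_add h3 h4
      _ = 4 * s * L := by ring
  refine (Finset.sum_le_card_nsmul _ _ _ h2).trans ?_
  rw [smul_eq_mul]
  calc ((Dir s).filter (fun v => Skew v)).card * (4 * s * L)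
      ≤ (Dir s).card * (4 * s * L) := Nat.mul_le_mul_right _ (Finset.card_filter_le _ _)
    _ = 4 * s * (Dir s).card * L := by ring

theorem B2_symm (s : ℕ) (r c : Fin L → ℤ) (i j : Fin L) (p q : ℤ × ℤ) (h : B2 s r c i j p q) :
    B2 s r c j i q p := by
  exact fq2_B2_aux s r c i j p q h

/-- two skew lines through two points with different coordinates have parallel directions -/
theorem skew_unique {v w x y : ℤ × ℤ} (hv : Skew v) (hw : Skew w) (hxy : x ≠ y)
    (h1 : On v x = On v y) (h2 : On w x = On w y) : w = v ∨ w = (-v.1, -v.2) := by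
  have e1 : v.2 * (x.1 - y.1) = v.1 * (x.2 - y.2) := by
    unfold On at h1
    linarith
  have e2 : w.2 * (x.1 - y.1) = w.1 * (x.2 - y.2) := by
    unfold On at h2
    linarith
  have hv0 := hv.2.1
  have hv0' := hv.2.2
  have hw0 := hw.2.1
  have hxy1 : x.1 - y.1 ≠ 0 := by
    intro h0
    rw [h0, mul_zero] at e1
    have h3 : x.2 - y.2 = 0 := by
      rcases mul_eq_zero.1 e1.symm with h4 | h4
      · exact absurd h4 hv0
      · exact h4
    exact hxy (Prod.ext (by linarith) (by linarith))
  -- the determinant vanishes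
  have hdet : v.1 * w.2 = v.2 * w.1 := by
    have h3 : (x.1 - y.1) * (v.1 * w.2 - v.2 * w.1) = 0 := by
      linear_combination v.1 * e2 - w.1 * e1
    rcases mul_eq_zero.1 h3 with h4 | h4
    · exact absurd h4 hxy1
    · linarith
  have cv : IsCoprime v.1 v.2 := Int.isCoprime_iff_gcd_eq_one.2 hv.1
  have cw : IsCoprime w.1 w.2 := Int.isCoprime_iff_gcd_eq_one.2 hw.1
  have d1 : v.1 ∣ w.1 := cv.dvd_of_dvd_mul_left (hdet ▸ Dvd.intro _ rfl)
  have d2 : w.1 ∣ v.1 := cw.dvd_of_dvd_mul_right (by rw [hdet]; exact Dvd.intro_left _ rfl)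
  rcases Int.natAbs_eq_natAbs_iff.1 (Int.natAbs_eq_of_dvd_dvd d2 d1) with h3 | h3
  · left
    refine Prod.ext h3 ?_
    rw [h3] at hdet
    exact mul_left_cancel₀ hv0 (by rw [hdet]; ring)
  · right
    refine Prod.ext h3 ?_
    rw [h3] at hdet
    exact mul_left_cancel₀ hv0 (by rw [hdet]; ring)

open Classical in
theorem fq2 (h : Near s c₁ N ε S) (hD : Def s N L S r c) (i : Fin L) {p : ℤ × ℤ}
    (hp : p ∈ avl s S (r i) (c i)) :
    ∑ j : Fin L, (S.filter fun q => B2 s r c i j p q).card
      ≤ L + 4 * s ^ 2 + 4 * s * (Dir s).card * L + s * L := by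
  have hne : sl (r i) (c i) false p ≠ sl (r i) (c i) true p := by
    intro he
    exact (avl_ne hp).1 (congrArg Prod.fst he)
  have hA : ∑ j : Fin L, (S.filter fun q => p = q).card ≤ L := by
    refine (Finset.sum_le_card_nsmul _ _ 1 fun j _ => ?_).trans ?_
    · refine (Finset.card_le_card (t := {p}) ?_).trans (by rw [Finset.card_singleton])
      intro q hq
      rw [Finset.mem_singleton]
      exact (Finset.mem_filter.1 hq).2.symm
    · rw [Finset.card_univ, Fintype.card_fin, smul_eq_mul, mul_one]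
  have hB : ∑ j : Fin L, (S.filter fun q => ∃ β γ, sl (r i) (c i) β p = sl (r j) (c j) γ q).card
      ≤ 4 * s ^ 2 := by
    have h1 : ∀ j : Fin L, (S.filter fun q => ∃ β γ, sl (r i) (c i) β p = sl (r j) (c j) γ q).card ≤
        ∑ β : Bool, ∑ γ : Bool, (S.filter fun q => sl (r i) (c i) β p = sl (r j) (c j) γ q).card := by
      intro j
      refine le_trans (Finset.card_le_card (t := (univ : Finset Bool).biUnion fun β =>
        (univ : Finset Bool).biUnion fun γ =>
          S.filter fun q => sl (r i) (c i) β p = sl (r j) (c j) γ q) ?_) ?_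
      · intro q hq
        rw [Finset.mem_filter] at hq
        obtain ⟨hqS, β, γ, he⟩ := hq
        rw [Finset.mem_biUnion]
        refine ⟨β, Finset.mem_univ _, ?_⟩
        rw [Finset.mem_biUnion]
        exact ⟨γ, Finset.mem_univ _, Finset.mem_filter.2 ⟨hqS, he⟩⟩
      · refine (Finset.card_biUnion_le).trans (Finset.sum_le_sum fun v _ => ?_)
        exact Finset.card_biUnion_le
    refine (Finset.sum_le_sum fun j _ => h1 j).trans ?_
    rw [Finset.sum_comm]
    refine (Finset.sum_le_card_nsmul _ _ (2 * (s * s)) fun β _ => ?_).trans ?_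
    · rw [Finset.sum_comm]
      refine (Finset.sum_le_card_nsmul _ _ (s * s) fun γ _ => fq2_common h hD i p β γ).trans ?_
      rw [Finset.card_univ, Fintype.card_bool, smul_eq_mul]
    · rw [Finset.card_univ, Fintype.card_bool, smul_eq_mul]
      exact le_of_eq (by ring)
  have hC := fq2_small (r := r) (c := c) h i p
  have hE : ∑ j : Fin L, (S.filter fun q => ∃ v, Skew v ∧
      On v (sl (r i) (c i) false p) = On v (sl (r i) (c i) true p) ∧
      ∀ γ, On v (sl (r j) (c j) γ q) = On v (sl (r i) (c i) true p)).card ≤ s * L := by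
    refine (Finset.sum_le_card_nsmul _ _ s fun j _ => ?_).trans ?_
    · by_cases hex : ∃ v, Skew v ∧ On v (sl (r i) (c i) false p) = On v (sl (r i) (c i) true p)
      · obtain ⟨v, hv, hve⟩ := hex
        refine (Finset.card_le_card ?_).trans
          (fh_true (r := r) (c := c) h hv (On v (sl (r i) (c i) true p)) j)
        intro q hq
        rw [Finset.mem_filter] at hq ⊢
        obtain ⟨hqS, w, hw, hwe, hall⟩ := hq
        refine ⟨hqS, ?_⟩
        rcases skew_unique hv hw hne hve hwe with h3 | h3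
        · rw [← h3]
          exact hall true
        · have h4 := hall true
          rw [h3, On_neg, On_neg] at h4
          linarith
      · rw [Finset.card_eq_zero.2]
        · exact Nat.zero_le _
        · rw [Finset.eq_empty_iff_forall_notMem]
          intro q hq
          obtain ⟨_, w, hw, hwe, _⟩ := Finset.mem_filter.1 hq
          exact hex ⟨w, hw, hwe⟩
    · rw [Finset.card_univ, Fintype.card_fin, smul_eq_mul, mul_comm]
  have hF : ∀ j : Fin L, (S.filter fun q => B2 s r c i j p q).card ≤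
      (S.filter fun q => p = q).card +
      (S.filter fun q => ∃ β γ, sl (r i) (c i) β p = sl (r j) (c j) γ q).card +
      (S.filter fun q => ∃ β γ, ∃ v ∈ Dir s, v.1 ≠ 0 ∧ v.2 ≠ 0 ∧
        On v (sl (r i) (c i) β p) = On v (sl (r j) (c j) γ q)).card +
      (S.filter fun q => ∃ v, Skew v ∧
        On v (sl (r i) (c i) false p) = On v (sl (r i) (c i) true p) ∧
        ∀ γ, On v (sl (r j) (c j) γ q) = On v (sl (r i) (c i) true p)).card := by
    intro j
    refine le_trans (Finset.card_le_card (t := (((S.filter fun q => p = q) ∪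
      (S.filter fun q => ∃ β γ, sl (r i) (c i) β p = sl (r j) (c j) γ q)) ∪
      (S.filter fun q => ∃ β γ, ∃ v ∈ Dir s, v.1 ≠ 0 ∧ v.2 ≠ 0 ∧
        On v (sl (r i) (c i) β p) = On v (sl (r j) (c j) γ q))) ∪
      (S.filter fun q => ∃ v, Skew v ∧
        On v (sl (r i) (c i) false p) = On v (sl (r i) (c i) true p) ∧
        ∀ γ, On v (sl (r j) (c j) γ q) = On v (sl (r i) (c i) true p))) ?_) ?_
    · intro q hq
      rw [Finset.mem_filter] at hq
      obtain ⟨hqS, h1 | h1 | h1 | h1⟩ := hq
      · exact Finset.mem_union_left _ (Finset.mem_union_left _ (Finset.mem_union_left _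
          (Finset.mem_filter.2 ⟨hqS, h1⟩)))
      · exact Finset.mem_union_left _ (Finset.mem_union_left _ (Finset.mem_union_right _
          (Finset.mem_filter.2 ⟨hqS, h1⟩)))
      · exact Finset.mem_union_left _ (Finset.mem_union_right _
          (Finset.mem_filter.2 ⟨hqS, h1⟩))
      · exact Finset.mem_union_right _ (Finset.mem_filter.2 ⟨hqS, h1⟩)
    · refine (Finset.card_union_le _ _).trans (Nat.add_le_add_right ?_ _)
      refine (Finset.card_union_le _ _).trans (Nat.add_le_add_right ?_ _)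
      exact Finset.card_union_le _ _
  refine (Finset.sum_le_sum fun j _ => hF j).trans ?_
  rw [Finset.sum_add_distrib, Finset.sum_add_distrib, Finset.sum_add_distrib]
  exact Nat.add_le_add (Nat.add_le_add (Nat.add_le_add hA hB) hC) hE

end Pool.Agent.NKL
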