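import Pool.Agent.NKL.F2D
import Pool.Agent.NKL.FH1
import Pool.Agent.NKL.FAV
import Pool.Agent.NKL.FQ2

set_option autoImplicit false

/-!
# NKL / F2Q : the conflicts of stage 2

`H(v,l) = ∑_j #{q ∈ S | a new cell of (j,q) is on the line}`.
`hh_le`: `H ≤ 4 s² N wh ε v` for skew `v` with `hgt v ≤ N`: `fh_sum_L` with `L ≤ ε N`
(`L + |S| = s N`, `Near.card`) gives `2 s ε N`, and `fh_sum_N` gives
`2 s² ((N-1)/h + 1) ≤ 4 s² N/h` (`h ≤ N`).
`B2s_symm`, `B3s_perm`: the count condition is on the common line.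
`fq2s`: fix `i`, `p ∈ avl2` and the first cell `z = sl .. β p ∉ S`.  If `B2s` holds with `v`, the line
contains the two different grid points `z` and `sl .. γ q`, so `hgt v < N`, and we may take `v ∈ SDir N`
(`prim_dir`, `On_neg`); since `z ∉ S`, the number of points on the line is `dg0 S v z`.  So the sum
is at most `∑_β ∑_{v ∈ SDir N, s ≤ dg0 + 1} H(v, On v z) ≤ 4 s² N ∑_β dgs z_β ≤ 8 s² η₂ N`.
`fq2a`: the line through the two new cells of `i` is unique (`skew_unique`, `avl_ne`): `fh_sum_L`.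
`fq2b`: `fh_one`.
`fq3s`: the same as `fq2s` with two partners: at most
`∑_β ∑_{v ∈ SDir N, s ≤ dg0 + 2} H² ≤ 16 s⁴ N² ∑_β dgs z_β ≤ 32 s⁴ η₂ N²`.
-/

namespace Pool.Agent.NKL

open Finset

variable {s N L : ℕ} {ε β η η₂ : ℝ} {S : Finset (ℤ × ℤ)} {r c : Fin L → ℤ}

open Classical in
theorem hh_le (h : Near s s N ε S) (hε : 0 ≤ ε) (hs : 1 ≤ s) (hD : Def s N L S r c) {v : ℤ × ℤ}
    (hv : Skew v) (hvN : hgt v ≤ N) (l : ℤ) :
    ((∑ j : Fin L, (S.filter fun q => ∃ γ, On v (sl (r j) (c j) γ q) = l).card : ℕ) : ℝ)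
      ≤ 4 * (s : ℝ) ^ 2 * N * wh ε v := by
  have hh := hgt_pos hv.1
  have hh0 : (0 : ℝ) < hgt v := by exact_mod_cast hh
  have hs' : (1 : ℝ) ≤ s := by exact_mod_cast hs
  have hN1 : 1 ≤ N := hh.trans hvN
  have hN' : (0 : ℝ) ≤ N := by positivity
  have hL : (L : ℝ) ≤ ε * N := by
    have h1 := h.card
    have h2 : (L : ℝ) + S.card = s * N := by exact_mod_cast hD.L_eq
    linarith
  have hA : ((∑ j : Fin L, (S.filter fun q => ∃ γ, On v (sl (r j) (c j) γ q) = l).card : ℕ) : ℝ)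
      ≤ 4 * (s : ℝ) ^ 2 * N * ε := by
    have h1 : ((∑ j : Fin L, (S.filter fun q => ∃ γ, On v (sl (r j) (c j) γ q) = l).card : ℕ) : ℝ) ≤
        2 * s * L := by exact_mod_cast fh_sum_L (r := r) (c := c) h hv l
    refine h1.trans ?_
    have h2 : 2 * (s : ℝ) * L ≤ 2 * s * (ε * N) := mul_le_mul_of_nonneg_left hL (by positivity)
    refine h2.trans ?_
    have h3 : (s : ℝ) ≤ s ^ 2 := by nlinarith
    have h4 : 0 ≤ ε * N := by positivity
    nlinarith [mul_le_mul_of_nonneg_right h3 h4, mul_nonneg (sq_nonneg (s : ℝ)) h4]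
  have hB : ((∑ j : Fin L, (S.filter fun q => ∃ γ, On v (sl (r j) (c j) γ q) = l).card : ℕ) : ℝ)
      ≤ 4 * (s : ℝ) ^ 2 * N * (1 / hgt v) := by
    have h1 : ((∑ j : Fin L, (S.filter fun q => ∃ γ, On v (sl (r j) (c j) γ q) = l).card : ℕ) : ℝ) ≤
        2 * (s : ℝ) ^ 2 * ((((N - 1) / hgt v : ℕ) : ℝ) + 1) := by
      exact_mod_cast fh_sum_N (r := r) (c := c) h hD hv l
    refine h1.trans ?_
    have h2 : (((N - 1) / hgt v : ℕ) : ℝ) ≤ ((N - 1 : ℕ) : ℝ) / hgt v := Nat.cast_div_le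
    have h3 : ((N - 1 : ℕ) : ℝ) / hgt v ≤ N / hgt v := by
      apply div_le_div_of_nonneg_right _ hh0.le
      exact_mod_cast Nat.sub_le N 1
    have h4 : (1 : ℝ) ≤ N / hgt v := by
      rw [le_div_iff₀ hh0, one_mul]
      exact_mod_cast hvN
    calc 2 * (s : ℝ) ^ 2 * ((((N - 1) / hgt v : ℕ) : ℝ) + 1)
        ≤ 2 * (s : ℝ) ^ 2 * (N / hgt v + N / hgt v) :=
          mul_le_mul_of_nonneg_left (by linarith) (by positivity)
      _ = 4 * (s : ℝ) ^ 2 * N * (1 / hgt v) := by ring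
  unfold wh
  rcases le_total ε (1 / (hgt v : ℝ)) with h1 | h1
  · rw [min_eq_left h1]
    exact hA
  · rw [min_eq_right h1]
    exact hB

theorem B2s_symm (s : ℕ) (S : Finset (ℤ × ℤ)) (r c : Fin L → ℤ) (i j : Fin L) (p q : ℤ × ℤ)
    (h : B2s s S r c i j p q) : B2s s S r c j i q p := by
  obtain ⟨b, g, hne, v, hv, ho, hc⟩ := h
  exact ⟨g, b, hne.symm, v, hv, ho.symm, by rw [ho]; exact hc⟩

theorem B3s_perm (s : ℕ) (S : Finset (ℤ × ℤ)) (r c : Fin L → ℤ) (i j k : Fin L) (p q u : ℤ × ℤ)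
    (h : B3s s S r c i j k p q u) : B3s s S r c j i k q p u ∧ B3s s S r c k j i u q p := by
  obtain ⟨b1, b2, b3, hn, v, hv, ho1, ho2, hc⟩ := h
  refine ⟨⟨b2, b1, b3, ?_, v, hv, ho1.symm, by rw [ho2, ho1], by rw [ho1]; exact hc⟩,
    ⟨b3, b2, b1, ?_, v, hv, by rw [ho2, ho1], by rw [ho2], by rw [ho2]; exact hc⟩⟩
  · simp only [List.nodup_cons, List.mem_cons, List.not_mem_nil, or_false, not_or, not_false_eq_true,
      List.nodup_nil, and_true] at hn ⊢
    exact ⟨⟨fun h => hn.1.1 h.symm, hn.2⟩, hn.1.2⟩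
  · simp only [List.nodup_cons, List.mem_cons, List.not_mem_nil, or_false, not_or, not_false_eq_true,
      List.nodup_nil, and_true] at hn ⊢
    exact ⟨⟨fun h => hn.2 h.symm, fun h => hn.1.2 h.symm⟩, fun h => hn.1.1 h.symm⟩

private theorem f2q_abs {a b v w : ℤ} {M : ℕ} (hg : Int.gcd v w = 1) (hv : v ≠ 0) (ha : a ≠ 0)
    (he : w * a = v * b) (hM : |a| < M) : v.natAbs ≤ M := by
  have hd : v ∣ a := by
    have h1 : v ∣ w * a := ⟨b, he⟩
    have cv : IsCoprime v w := Int.isCoprime_iff_gcd_eq_one.2 hg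
    exact cv.dvd_of_dvd_mul_left h1
  have h2 := Int.natAbs_dvd_natAbs.2 hd
  have h3 := Nat.le_of_dvd (Int.natAbs_pos.2 ha) h2
  have h4 : ((a.natAbs : ℕ) : ℤ) = |a| := Int.natCast_natAbs a
  omega

private theorem f2q_dir {z z' : ℤ × ℤ} (hz : z ∈ grid N) (hz' : z' ∈ grid N) (hne : z ≠ z') {v : ℤ × ℤ}
    (hv : Skew v) (ho : On v z' = On v z) :
    ∃ w ∈ SDir N, Skew w ∧ ∀ x y, On v x = On v y ↔ On w x = On w y := by
  have e : v.2 * (z.1 - z'.1) = v.1 * (z.2 - z'.2) := by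
    unfold On at ho
    linarith
  unfold grid at hz hz'
  rw [mem_product, mem_Ico, mem_Ico] at hz hz'
  have h1 : z.1 - z'.1 ≠ 0 := by
    intro h0
    rw [h0, mul_zero] at e
    rcases mul_eq_zero.1 e.symm with h2 | h2
    · exact hv.2.1 h2
    · exact hne (Prod.ext (by linarith) (by linarith))
  have h2 : z.2 - z'.2 ≠ 0 := by
    intro h0
    rw [h0, mul_zero] at e
    rcases mul_eq_zero.1 e with h2 | h2
    · exact hv.2.2 h2
    · exact h1 h2
  have h3 : |z.1 - z'.1| < N := by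
    rw [abs_lt]
    constructor <;> linarith [hz.1.1, hz.1.2, hz'.1.1, hz'.1.2]
  have h4 : |z.2 - z'.2| < N := by
    rw [abs_lt]
    constructor <;> linarith [hz.2.1, hz.2.2, hz'.2.1, hz'.2.2]
  have h5 : hgt v ≤ N := by
    unfold hgt
    refine max_le ?_ ?_
    · exact f2q_abs hv.1 hv.2.1 h1 e h3
    · exact f2q_abs (by rw [Int.gcd_comm]; exact hv.1) hv.2.2 h2 e.symm h4
  rcases prim_dir hv.1 h5 with h6 | h6
  · refine ⟨v, ?_, hv, fun x y => Iff.rfl⟩
    unfold SDir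
    rw [mem_filter]
    exact ⟨h6, hv.2.1, hv.2.2⟩
  · refine ⟨(-v.1, -v.2), ?_, ⟨?_, ?_, ?_⟩, fun x y => ?_⟩
    · unfold SDir
      rw [mem_filter]
      exact ⟨h6, neg_ne_zero.2 hv.2.1, neg_ne_zero.2 hv.2.2⟩
    · exact dir_gcd h6
    · exact neg_ne_zero.2 hv.2.1
    · exact neg_ne_zero.2 hv.2.2
    · rw [On_neg, On_neg, neg_inj]

private theorem f2q_dg {v z : ℤ × ℤ} (hz : z ∉ S) :
    (S.filter fun u => On v u = On v z).card = dg0 S v z := by
  unfold dg0
  congr 1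
  refine filter_congr fun u hu => ?_
  constructor
  · intro h
    exact ⟨fun h1 => hz (h1 ▸ hu), h⟩
  · exact fun h => h.2

private theorem f2q_slg (h : Near s s N ε S) (hD : Def s N L S r c) (j : Fin L) (γ : Bool) {q : ℤ × ℤ}
    (hq : q ∈ S) : sl (r j) (c j) γ q ∈ grid N := by
  have h1 := h.sub hq
  have h2 := hD.r_mem j
  have h3 := hD.c_mem j
  unfold grid at h1 ⊢
  rw [mem_product, mem_Ico, mem_Ico] at h1 ⊢
  cases γ
  · exact ⟨h1.1, h3⟩
  · exact ⟨h2, h1.2⟩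

private theorem f2q_nS {i : Fin L} {p : ℤ × ℤ} (hp : p ∈ avl2 s N ε η₂ S (r i) (c i)) :
    p ∈ S ∧ (∀ b, sl (r i) (c i) b p ∉ S) ∧ (∀ b, dgs s N ε S (sl (r i) (c i) b p) ≤ η₂) ∧
      sl (r i) (c i) false p ≠ sl (r i) (c i) true p := by
  classical
  unfold avl2 at hp
  rw [mem_filter] at hp
  obtain ⟨ha, _, _, h1, h2, _⟩ := hp
  have hne := avl_ne ha
  unfold avl at ha
  rw [mem_filter] at ha
  refine ⟨ha.1, ?_, ?_, ?_⟩
  · intro b
    cases b
    · exact ha.2.2.1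
    · exact ha.2.1
  · intro b
    cases b
    · exact h2
    · exact h1
  · intro he
    exact hne.1 (congrArg Prod.fst he)

private theorem f2q_wh (hε : 0 ≤ ε) (v : ℤ × ℤ) : 0 ≤ wh ε v := by
  unfold wh
  exact le_min hε (by positivity)

private theorem f2q_sdir {v : ℤ × ℤ} (hv : v ∈ SDir N) : Skew v ∧ hgt v ≤ N := by
  unfold SDir at hv
  rw [mem_filter] at hv
  exact ⟨⟨dir_gcd hv.1, hv.2⟩, dir_hgt hv.1⟩

open Classical in
theorem fq2s (h : Near2 s N ε β η S) (hε : 0 ≤ ε) (hs : 1 ≤ s) (hD : Def s N L S r c) (i : Fin L)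
    {p : ℤ × ℤ} (hp : p ∈ avl2 s N ε η₂ S (r i) (c i)) :
    ((∑ j : Fin L, (S.filter fun q => B2s s S r c i j p q).card : ℕ) : ℝ)
      ≤ 8 * (s : ℝ) ^ 2 * η₂ * N := by
  obtain ⟨hpS, hnS, hdg, hne⟩ := f2q_nS hp
  have hj : ∀ j : Fin L, (S.filter fun q => B2s s S r c i j p q).card ≤
      ∑ b : Bool, ∑ v ∈ (SDir N).filter (fun v => s ≤ dg0 S v (sl (r i) (c i) b p) + 1),
        (S.filter fun q => ∃ γ, On v (sl (r j) (c j) γ q) = On v (sl (r i) (c i) b p)).card := by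
    intro j
    refine le_trans (card_le_card (t := (univ : Finset Bool).biUnion fun b =>
      ((SDir N).filter (fun v => s ≤ dg0 S v (sl (r i) (c i) b p) + 1)).biUnion fun v =>
        S.filter fun q => ∃ γ, On v (sl (r j) (c j) γ q) = On v (sl (r i) (c i) b p)) ?_) ?_
    · intro q hq
      rw [mem_filter] at hq
      obtain ⟨hqS, b, γ, hbg, v, hv, ho, hc⟩ := hq
      obtain ⟨w, hw, hws, hww⟩ := f2q_dir (f2q_slg h.near hD i b hpS) (f2q_slg h.near hD j γ hqS) hbg hv ho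
      rw [mem_biUnion]
      refine ⟨b, mem_univ _, ?_⟩
      rw [mem_biUnion]
      refine ⟨w, ?_, ?_⟩
      · rw [mem_filter]
        refine ⟨hw, ?_⟩
        rw [← f2q_dg (hnS b)]
        have h1 : (S.filter fun u => On w u = On w (sl (r i) (c i) b p)) =
            (S.filter fun u => On v u = On v (sl (r i) (c i) b p)) :=
          filter_congr fun u _ => (hww _ _).symm
        rw [h1]
        exact hc
      · rw [mem_filter]
        exact ⟨hqS, γ, (hww _ _).1 ho⟩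
    · refine card_biUnion_le.trans (sum_le_sum fun b _ => ?_)
      exact card_biUnion_le
  have hsum : ∑ j : Fin L, (S.filter fun q => B2s s S r c i j p q).card ≤
      ∑ b : Bool, ∑ v ∈ (SDir N).filter (fun v => s ≤ dg0 S v (sl (r i) (c i) b p) + 1),
        ∑ j : Fin L, (S.filter fun q => ∃ γ, On v (sl (r j) (c j) γ q) = On v (sl (r i) (c i) b p)).card := by
    refine (sum_le_sum fun j _ => hj j).trans (le_of_eq ?_)
    rw [sum_comm]
    refine sum_congr rfl fun b _ => ?_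
    rw [sum_comm]
  have hsum' : ((∑ j : Fin L, (S.filter fun q => B2s s S r c i j p q).card : ℕ) : ℝ) ≤
      ∑ b : Bool, ∑ v ∈ (SDir N).filter (fun v => s ≤ dg0 S v (sl (r i) (c i) b p) + 1),
        ((∑ j : Fin L, (S.filter fun q => ∃ γ, On v (sl (r j) (c j) γ q) = On v (sl (r i) (c i) b p)).card : ℕ) : ℝ) := by
    exact_mod_cast hsum
  refine hsum'.trans ?_
  have hb : ∀ b : Bool, ∑ v ∈ (SDir N).filter (fun v => s ≤ dg0 S v (sl (r i) (c i) b p) + 1),
        ((∑ j : Fin L, (S.filter fun q => ∃ γ, On v (sl (r j) (c j) γ q) = On v (sl (r i) (c i) b p)).card : ℕ) : ℝ)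
        ≤ 4 * (s : ℝ) ^ 2 * N * η₂ := by
    intro b
    calc ∑ v ∈ (SDir N).filter (fun v => s ≤ dg0 S v (sl (r i) (c i) b p) + 1),
        ((∑ j : Fin L, (S.filter fun q => ∃ γ, On v (sl (r j) (c j) γ q) = On v (sl (r i) (c i) b p)).card : ℕ) : ℝ)
        ≤ ∑ v ∈ (SDir N).filter (fun v => s ≤ dg0 S v (sl (r i) (c i) b p) + 1), 4 * (s : ℝ) ^ 2 * N * wh ε v := by
          refine sum_le_sum fun v hv => ?_
          obtain ⟨h1, h2⟩ := f2q_sdir (mem_filter.1 hv).1
          exact hh_le h.near hε hs hD h1 h2 _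
      _ = 4 * (s : ℝ) ^ 2 * N * ∑ v ∈ SDir N, (if s ≤ dg0 S v (sl (r i) (c i) b p) + 1 then wh ε v else 0) := by
          rw [← mul_sum, sum_filter]
      _ ≤ 4 * (s : ℝ) ^ 2 * N * dgs s N ε S (sl (r i) (c i) b p) := by
          refine mul_le_mul_of_nonneg_left ?_ (by positivity)
          unfold dgs
          refine sum_le_sum fun v _ => ?_
          have h3 := f2q_wh hε v
          have h4 : (0 : ℝ) ≤ (if s ≤ dg0 S v (sl (r i) (c i) b p) + 2 then wh ε v ^ 2 else 0) := by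
            split_ifs
            · positivity
            · exact le_refl _
          linarith
      _ ≤ 4 * (s : ℝ) ^ 2 * N * η₂ := mul_le_mul_of_nonneg_left (hdg b) (by positivity)
  refine (sum_le_sum fun b _ => hb b).trans (le_of_eq ?_)
  rw [sum_const, card_univ, Fintype.card_bool, nsmul_eq_mul]
  push_cast
  ring

open Classical in
private theorem f2q_a (h : Near2 s N ε β η S) (i j : Fin L) {p : ℤ × ℤ}
    (hne : sl (r i) (c i) false p ≠ sl (r i) (c i) true p) {v : ℤ × ℤ} (hv : Skew v)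
    (ho : On v (sl (r i) (c i) false p) = On v (sl (r i) (c i) true p)) :
    (S.filter fun q => B2a r c i j p q) ⊆
      S.filter fun q => ∃ γ, On v (sl (r j) (c j) γ q) = On v (sl (r i) (c i) true p) := by
  intro q hq
  rw [mem_filter] at hq ⊢
  obtain ⟨hqS, w, hw, hwo, γ, hγ⟩ := hq
  refine ⟨hqS, γ, ?_⟩
  rcases skew_unique hv hw hne ho hwo with h1 | h1
  · rw [← h1]
    exact hγ
  · rw [h1, On_neg, On_neg] at hγ
    linarith

open Classical in
theorem fq2a (h : Near2 s N ε β η S) (i : Fin L)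
    {p : ℤ × ℤ} (hp : p ∈ avl2 s N ε η₂ S (r i) (c i)) :
    ∑ j : Fin L, (S.filter fun q => B2a r c i j p q).card ≤ 2 * s * L := by
  obtain ⟨hpS, hnS, hdg, hne⟩ := f2q_nS hp
  by_cases hex : ∃ v, Skew v ∧ On v (sl (r i) (c i) false p) = On v (sl (r i) (c i) true p)
  · obtain ⟨v, hv, ho⟩ := hex
    exact (sum_le_sum fun j _ => card_le_card (f2q_a h i j hne hv ho)).trans
      (fh_sum_L (r := r) (c := c) h.near hv _)
  · have h1 : ∀ j : Fin L, (S.filter fun q => B2a r c i j p q).card = 0 := by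
      intro j
      rw [card_eq_zero, eq_empty_iff_forall_notMem]
      intro q hq
      obtain ⟨_, w, hw, hwo, _⟩ := mem_filter.1 hq
      exact hex ⟨w, hw, hwo⟩
    rw [sum_eq_zero fun j _ => h1 j]
    exact Nat.zero_le _

open Classical in
theorem fq2b (h : Near2 s N ε β η S) (i j : Fin L)
    {p : ℤ × ℤ} (hp : p ∈ avl2 s N ε η₂ S (r i) (c i)) :
    (S.filter fun q => B2a r c i j p q).card ≤ 2 * s := by
  obtain ⟨hpS, hnS, hdg, hne⟩ := f2q_nS hp
  by_cases hex : ∃ v, Skew v ∧ On v (sl (r i) (c i) false p) = On v (sl (r i) (c i) true p)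
  · obtain ⟨v, hv, ho⟩ := hex
    exact (card_le_card (f2q_a h i j hne hv ho)).trans (fh_one (r := r) (c := c) h.near hv _ j)
  · have h1 : (S.filter fun q => B2a r c i j p q).card = 0 := by
      rw [card_eq_zero, eq_empty_iff_forall_notMem]
      intro q hq
      obtain ⟨_, w, hw, hwo, _⟩ := mem_filter.1 hq
      exact hex ⟨w, hw, hwo⟩
    rw [h1]
    exact Nat.zero_le _

open Classical in
theorem fq3s (h : Near2 s N ε β η S) (hε : 0 ≤ ε) (hs : 1 ≤ s) (hD : Def s N L S r c) (i : Fin L)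
    {p : ℤ × ℤ} (hp : p ∈ avl2 s N ε η₂ S (r i) (c i)) :
    ((∑ j : Fin L, ∑ k : Fin L,
      ((S ×ˢ S).filter fun z => B3s s S r c i j k p z.1 z.2).card : ℕ) : ℝ)
      ≤ 32 * (s : ℝ) ^ 4 * η₂ * N ^ 2 := by
  obtain ⟨hpS, hnS, hdg, hne⟩ := f2q_nS hp
  have hj : ∀ j k : Fin L, ((S ×ˢ S).filter fun z => B3s s S r c i j k p z.1 z.2).card ≤
      ∑ b : Bool, ∑ v ∈ (SDir N).filter (fun v => s ≤ dg0 S v (sl (r i) (c i) b p) + 2),
        (S.filter fun q => ∃ γ, On v (sl (r j) (c j) γ q) = On v (sl (r i) (c i) b p)).card *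
        (S.filter fun q => ∃ γ, On v (sl (r k) (c k) γ q) = On v (sl (r i) (c i) b p)).card := by
    intro j k
    refine le_trans (card_le_card (t := (univ : Finset Bool).biUnion fun b =>
      ((SDir N).filter (fun v => s ≤ dg0 S v (sl (r i) (c i) b p) + 2)).biUnion fun v =>
        (S.filter fun q => ∃ γ, On v (sl (r j) (c j) γ q) = On v (sl (r i) (c i) b p)) ×ˢ
        (S.filter fun q => ∃ γ, On v (sl (r k) (c k) γ q) = On v (sl (r i) (c i) b p))) ?_) ?_
    · intro q hq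
      rw [mem_filter, mem_product] at hq
      obtain ⟨⟨hq1, hq2⟩, b, b2, b3, hbg, v, hv, ho1, ho2, hc⟩ := hq
      have hb12 : sl (r i) (c i) b p ≠ sl (r j) (c j) b2 q.1 := by
        intro he
        rw [List.nodup_cons] at hbg
        exact hbg.1 (by rw [he]; exact List.mem_cons_self)
      obtain ⟨w, hw, hws, hww⟩ := f2q_dir (f2q_slg h.near hD i b hpS) (f2q_slg h.near hD j b2 hq1) hb12 hv ho1
      rw [mem_biUnion]
      refine ⟨b, mem_univ _, ?_⟩
      rw [mem_biUnion]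
      refine ⟨w, ?_, ?_⟩
      · rw [mem_filter]
        refine ⟨hw, ?_⟩
        rw [← f2q_dg (hnS b)]
        have h1 : (S.filter fun u => On w u = On w (sl (r i) (c i) b p)) =
            (S.filter fun u => On v u = On v (sl (r i) (c i) b p)) :=
          filter_congr fun u _ => (hww _ _).symm
        rw [h1]
        exact hc
      · rw [mem_product, mem_filter, mem_filter]
        exact ⟨⟨hq1, b2, (hww _ _).1 ho1⟩, ⟨hq2, b3, (hww _ _).1 ho2⟩⟩
    · refine card_biUnion_le.trans (sum_le_sum fun b _ => ?_)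
      refine card_biUnion_le.trans (sum_le_sum fun v _ => ?_)
      rw [card_product]
  have hsum : ∑ j : Fin L, ∑ k : Fin L, ((S ×ˢ S).filter fun z => B3s s S r c i j k p z.1 z.2).card ≤
      ∑ b : Bool, ∑ v ∈ (SDir N).filter (fun v => s ≤ dg0 S v (sl (r i) (c i) b p) + 2),
        (∑ j : Fin L, (S.filter fun q => ∃ γ, On v (sl (r j) (c j) γ q) = On v (sl (r i) (c i) b p)).card) ^ 2 := by
    refine (sum_le_sum fun j _ => sum_le_sum fun k _ => hj j k).trans (le_of_eq ?_)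
    have e1 : ∀ j : Fin L, ∑ k : Fin L, ∑ b : Bool, ∑ v ∈ (SDir N).filter (fun v => s ≤ dg0 S v (sl (r i) (c i) b p) + 2),
        (S.filter fun q => ∃ γ, On v (sl (r j) (c j) γ q) = On v (sl (r i) (c i) b p)).card *
        (S.filter fun q => ∃ γ, On v (sl (r k) (c k) γ q) = On v (sl (r i) (c i) b p)).card =
        ∑ b : Bool, ∑ v ∈ (SDir N).filter (fun v => s ≤ dg0 S v (sl (r i) (c i) b p) + 2), ∑ k : Fin L,
        (S.filter fun q => ∃ γ, On v (sl (r j) (c j) γ q) = On v (sl (r i) (c i) b p)).card *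
        (S.filter fun q => ∃ γ, On v (sl (r k) (c k) γ q) = On v (sl (r i) (c i) b p)).card := by
      intro j
      rw [sum_comm]
      refine sum_congr rfl fun b _ => ?_
      rw [sum_comm]
    rw [sum_congr rfl fun j _ => e1 j, sum_comm]
    refine sum_congr rfl fun b _ => ?_
    rw [sum_comm]
    refine sum_congr rfl fun v _ => ?_
    rw [pow_two, sum_mul_sum]
  have hsum' : ((∑ j : Fin L, ∑ k : Fin L, ((S ×ˢ S).filter fun z => B3s s S r c i j k p z.1 z.2).card : ℕ) : ℝ) ≤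
      ∑ b : Bool, ∑ v ∈ (SDir N).filter (fun v => s ≤ dg0 S v (sl (r i) (c i) b p) + 2),
        ((∑ j : Fin L, (S.filter fun q => ∃ γ, On v (sl (r j) (c j) γ q) = On v (sl (r i) (c i) b p)).card : ℕ) : ℝ) ^ 2 := by
    exact_mod_cast hsum
  refine hsum'.trans ?_
  have hb : ∀ b : Bool, ∑ v ∈ (SDir N).filter (fun v => s ≤ dg0 S v (sl (r i) (c i) b p) + 2),
        ((∑ j : Fin L, (S.filter fun q => ∃ γ, On v (sl (r j) (c j) γ q) = On v (sl (r i) (c i) b p)).card : ℕ) : ℝ) ^ 2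
        ≤ 16 * (s : ℝ) ^ 4 * N ^ 2 * η₂ := by
    intro b
    calc ∑ v ∈ (SDir N).filter (fun v => s ≤ dg0 S v (sl (r i) (c i) b p) + 2),
        ((∑ j : Fin L, (S.filter fun q => ∃ γ, On v (sl (r j) (c j) γ q) = On v (sl (r i) (c i) b p)).card : ℕ) : ℝ) ^ 2
        ≤ ∑ v ∈ (SDir N).filter (fun v => s ≤ dg0 S v (sl (r i) (c i) b p) + 2),
          16 * (s : ℝ) ^ 4 * N ^ 2 * wh ε v ^ 2 := by
          refine sum_le_sum fun v hv => ?_
          obtain ⟨h1, h2⟩ := f2q_sdir (mem_filter.1 hv).1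
          refine (pow_le_pow_left₀ (by positivity) (hh_le h.near hε hs hD h1 h2
            (On v (sl (r i) (c i) b p))) 2).trans (le_of_eq ?_)
          ring
      _ = 16 * (s : ℝ) ^ 4 * N ^ 2 *
          ∑ v ∈ SDir N, (if s ≤ dg0 S v (sl (r i) (c i) b p) + 2 then wh ε v ^ 2 else 0) := by
          rw [← mul_sum, sum_filter]
      _ ≤ 16 * (s : ℝ) ^ 4 * N ^ 2 * dgs s N ε S (sl (r i) (c i) b p) := by
          refine mul_le_mul_of_nonneg_left ?_ (by positivity)
          unfold dgs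
          refine sum_le_sum fun v _ => ?_
          have h3 := f2q_wh hε v
          have h4 : (0 : ℝ) ≤ (if s ≤ dg0 S v (sl (r i) (c i) b p) + 1 then wh ε v else 0) := by
            split_ifs
            · exact h3
            · exact le_refl _
          linarith
      _ ≤ 16 * (s : ℝ) ^ 4 * N ^ 2 * η₂ := mul_le_mul_of_nonneg_left (hdg b) (by positivity)
  refine (sum_le_sum fun b _ => hb b).trans (le_of_eq ?_)
  rw [sum_const, card_univ, Fintype.card_bool, nsmul_eq_mul]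
  push_cast
  ring

end Pool.Agent.NKL
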