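import Pool.Agent.NKL.FQ2

set_option autoImplicit false

/-!
# NKL / FQ3 : conflicts of type 2+1+1

`B3_symm`: exchange the last two.
Fix `i`, `p ∈ avl`.  By `skew_unique` all skew `v` with `On v (R_i) = On v (C_i)` (`R_i ≠ C_i`, `avl_ne`)
are `± v₀`, so `B3 i j k p q u` implies that `q` and `u` have a new cell on the line
`On v₀ = On v₀ (R_i)`.  Hence for fixed `j, k` the number of pairs `(q,u)` is at most the product of
the two numbers, `fq3a`: `(∑_j ..)(∑_k ..) ≤ (2 s L)²` (`fh_sum_L`), `fq3b`: `2 s * 2 s L` (`fh_one`,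
`fh_sum_L`).
-/

namespace Pool.Agent.NKL

open Finset

variable {s c₁ N L : ℕ} {ε : ℝ} {S : Finset (ℤ × ℤ)} {r c : Fin L → ℤ}

theorem B3_symm (r c : Fin L → ℤ) (i j k : Fin L) (p q u : ℤ × ℤ) (h : B3 r c i j k p q u) :
    B3 r c i k j p u q := by
  obtain ⟨v, hv, h1, h2, h3⟩ := h
  exact ⟨v, hv, h1, h3, h2⟩

/-- all lines in the conflicts of the pair `i, p` are the same -/
private theorem b3_line (i : Fin L) {p : ℤ × ℤ} (hp : p ∈ avl s S (r i) (c i)) :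
    (∃ v₀ : ℤ × ℤ, Skew v₀ ∧ ∃ l : ℤ, ∀ j k : Fin L, ∀ q u : ℤ × ℤ, B3 r c i j k p q u →
      (∃ γ, On v₀ (sl (r j) (c j) γ q) = l) ∧ (∃ γ, On v₀ (sl (r k) (c k) γ u) = l)) := by
  by_cases hex : ∃ v₀ : ℤ × ℤ, Skew v₀ ∧
      On v₀ (sl (r i) (c i) false p) = On v₀ (sl (r i) (c i) true p)
  · obtain ⟨v₀, hs, h0⟩ := hex
    refine ⟨v₀, hs, On v₀ (sl (r i) (c i) true p), fun j k q u hB => ?_⟩
    obtain ⟨v, hv, h1, h2, h3⟩ := hB
    have hne : sl (r i) (c i) false p ≠ sl (r i) (c i) true p := by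
      intro he
      have := congrArg Prod.fst he
      simp only [sl] at this
      exact (avl_ne hp).1 (by simpa using this)
    rcases skew_unique hs hv hne h0 h1 with h | h
    · rw [← h]; exact ⟨h2, h3⟩
    · subst h
      obtain ⟨γ, h2⟩ := h2
      obtain ⟨δ, h3⟩ := h3
      rw [On_neg, On_neg] at h2 h3
      exact ⟨⟨γ, neg_inj.1 h2⟩, ⟨δ, neg_inj.1 h3⟩⟩
  · refine ⟨(1, 1), ⟨by norm_num, by norm_num, by norm_num⟩, 0, fun j k q u hB => ?_⟩
    obtain ⟨v, hv, h1, _, _⟩ := hB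
    exact absurd ⟨v, hv, h1⟩ hex

open Classical in
private theorem b3_card (i : Fin L) {p : ℤ × ℤ} (hp : p ∈ avl s S (r i) (c i)) :
    ∃ v₀ : ℤ × ℤ, Skew v₀ ∧ ∃ l : ℤ, ∀ j k : Fin L,
      ((S ×ˢ S).filter fun z => B3 r c i j k p z.1 z.2).card ≤
        (S.filter fun q => ∃ γ, On v₀ (sl (r j) (c j) γ q) = l).card *
        (S.filter fun q => ∃ γ, On v₀ (sl (r k) (c k) γ q) = l).card := by
  obtain ⟨v₀, hs, l, h⟩ := b3_line i hp
  refine ⟨v₀, hs, l, fun j k => ?_⟩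
  rw [← Finset.card_product]
  refine Finset.card_le_card fun z hz => ?_
  rw [mem_filter, mem_product] at hz
  obtain ⟨h1, h2⟩ := h j k z.1 z.2 hz.2
  rw [mem_product, mem_filter, mem_filter]
  exact ⟨⟨hz.1.1, h1⟩, ⟨hz.1.2, h2⟩⟩

open Classical in
theorem fq3a (h : Near s c₁ N ε S) (i : Fin L) {p : ℤ × ℤ}
    (hp : p ∈ avl s S (r i) (c i)) :
    ∑ j : Fin L, ∑ k : Fin L, ((S ×ˢ S).filter fun z => B3 r c i j k p z.1 z.2).card
      ≤ (2 * s * L) ^ 2 := by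
  obtain ⟨v₀, hs, l, hc⟩ := b3_card i hp
  calc ∑ j : Fin L, ∑ k : Fin L, ((S ×ˢ S).filter fun z => B3 r c i j k p z.1 z.2).card
      ≤ ∑ j : Fin L, ∑ k : Fin L,
        (S.filter fun q => ∃ γ, On v₀ (sl (r j) (c j) γ q) = l).card *
        (S.filter fun q => ∃ γ, On v₀ (sl (r k) (c k) γ q) = l).card :=
        Finset.sum_le_sum fun j _ => Finset.sum_le_sum fun k _ => hc j k
    _ = (∑ j : Fin L, (S.filter fun q => ∃ γ, On v₀ (sl (r j) (c j) γ q) = l).card) ^ 2 := by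
        rw [sq, Finset.sum_mul_sum]
    _ ≤ (2 * s * L) ^ 2 := Nat.pow_le_pow_left (fh_sum_L h hs l) 2

open Classical in
theorem fq3b (h : Near s c₁ N ε S) (i j : Fin L) {p : ℤ × ℤ}
    (hp : p ∈ avl s S (r i) (c i)) :
    ∑ k : Fin L, ((S ×ˢ S).filter fun z => B3 r c i j k p z.1 z.2).card
      ≤ 4 * s ^ 2 * L := by
  obtain ⟨v₀, hs, l, hc⟩ := b3_card i hp
  calc ∑ k : Fin L, ((S ×ˢ S).filter fun z => B3 r c i j k p z.1 z.2).card
      ≤ ∑ k : Fin L, (S.filter fun q => ∃ γ, On v₀ (sl (r j) (c j) γ q) = l).card *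
        (S.filter fun q => ∃ γ, On v₀ (sl (r k) (c k) γ q) = l).card :=
        Finset.sum_le_sum fun k _ => hc j k
    _ = (S.filter fun q => ∃ γ, On v₀ (sl (r j) (c j) γ q) = l).card *
        ∑ k : Fin L, (S.filter fun q => ∃ γ, On v₀ (sl (r k) (c k) γ q) = l).card := by
        rw [Finset.mul_sum]
    _ ≤ (2 * s) * (2 * s * L) := Nat.mul_le_mul (fh_one h hs l j) (fh_sum_L h hs l)
    _ = 4 * s ^ 2 * L := by ring

end Pool.Agent.NKL
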