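import Pool.Agent.NKL.FQ4
import Pool.Agent.NKL.FQ3

set_option autoImplicit false

/-!
# NKL / FEX : the set after the exchange

`T = (S \ {ω i}) ∪ {(r i, (ω i).2)} ∪ {((ω i).1, c i)}` = `xch`.
By `h2` (no `B2`) the `ω i` are different points of `S`, and the `2L` new cells
`sl (r i) (c i) β (ω i)` are pairwise different (for the same `i` they differ by `avl_ne`) and not in
`S` (`avl`).
Rows/columns: for `0 ≤ x < N`: `#{p ∈ T | p.1 = x} = #{p ∈ S | p.1 = x} - #{i | (ω i).1 = x}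
+ #{i | r i = x} + #{i | (ω i).1 = x} = s` (`r_cnt`); similarly for the second coordinate.
Skew lines `On v = l`: the new cells on it.  If `hgt v ≤ s`: there is at most one (two new cells of
different `i, j`: third alternative of `B2` (with `v` or `-v` in `Dir s`, `prim_dir`); two new cells of
the same `i`: excluded by the last condition of `avl`), so at most `(s-1) + 1` points.
If `hgt v > s`: at most three.  Four new cells on the line (different cells, at most two for each
index): four different indices: `B4`; one index twice and two others: `B3`; two indices twice: the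
fourth alternative of `B2`.  So at most `3 + 3 ≤ s` points (`Near.lrg`).
-/

namespace Pool.Agent.NKL

open Finset

variable {s N L : ℕ} {ε : ℝ} {S : Finset (ℤ × ℤ)} {r c : Fin L → ℤ}

/-- the set after the exchanges -/
noncomputable def xch (S : Finset (ℤ × ℤ)) (r c : Fin L → ℤ) (ω : Fin L → ℤ × ℤ) :
    Finset (ℤ × ℤ) :=
  (S \ univ.image ω) ∪ (univ.image fun i => (r i, (ω i).2)) ∪ (univ.image fun i => ((ω i).1, c i))

private theorem av_mem {i : Fin L} {p : ℤ × ℤ} (h : p ∈ avl s S (r i) (c i)) :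
    p ∈ S ∧ (r i, p.2) ∉ S ∧ (p.1, c i) ∉ S ∧
      ∀ v ∈ Dir s, On v (r i, p.2) ≠ On v (p.1, c i) := by
  classical
  unfold avl at h
  rw [mem_filter] at h
  exact h

private theorem inj_w {ω : Fin L → ℤ × ℤ} (h2 : ∀ i j, i ≠ j → ¬ B2 s r c i j (ω i) (ω j)) :
    Function.Injective ω := by
  intro i j hij
  by_contra hne
  exact h2 i j hne (Or.inl hij)

private theorem nc_inj {ω : Fin L → ℤ × ℤ} (hω : ∀ i, ω i ∈ avl s S (r i) (c i))
    (h2 : ∀ i j, i ≠ j → ¬ B2 s r c i j (ω i) (ω j)) {i j : Fin L} {β γ : Bool}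
    (h : sl (r i) (c i) β (ω i) = sl (r j) (c j) γ (ω j)) : i = j ∧ β = γ := by
  by_cases hij : i = j
  · subst hij
    refine ⟨rfl, ?_⟩
    have hn := avl_ne (hω i)
    cases β <;> cases γ
    · rfl
    · exfalso
      simp only [sl, Prod.ext_iff] at h
      exact hn.1 (by simpa using h.1)
    · exfalso
      simp only [sl, Prod.ext_iff] at h
      exact hn.1 (by simpa using h.1.symm)
    · rfl
  · exfalso
    exact h2 i j hij (Or.inr (Or.inl ⟨β, γ, h⟩))

private theorem cnt_gen {ω : Fin L → ℤ × ℤ} (hω : ∀ i, ω i ∈ avl s S (r i) (c i))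
    (h2 : ∀ i j, i ≠ j → ¬ B2 s r c i j (ω i) (ω j)) (P : ℤ × ℤ → Prop) [DecidablePred P] :
    ((xch S r c ω).filter P).card + (univ.filter fun i => P (ω i)).card =
      (S.filter P).card + (univ.filter fun i => P (r i, (ω i).2)).card +
        (univ.filter fun i => P ((ω i).1, c i)).card := by
  classical
  have hA : Function.Injective fun i => ((r i, (ω i).2) : ℤ × ℤ) := by
    intro i j hij
    exact (nc_inj hω h2 (β := true) (γ := true) (by simpa [sl] using hij)).1
  have hB : Function.Injective fun i => (((ω i).1, c i) : ℤ × ℤ) := by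
    intro i j hij
    exact (nc_inj hω h2 (β := false) (γ := false) (by simpa [sl] using hij)).1
  have hd1 : Disjoint ((S \ univ.image ω).filter P)
      ((univ.image fun i => ((r i, (ω i).2) : ℤ × ℤ)).filter P) := by
    rw [Finset.disjoint_left]
    intro p hp hq
    rw [mem_filter, mem_sdiff] at hp
    rw [mem_filter, mem_image] at hq
    obtain ⟨⟨i, -, rfl⟩, -⟩ := hq
    exact (av_mem (hω i)).2.1 hp.1.1
  have hd2 : Disjoint ((S \ univ.image ω).filter P ∪
      (univ.image fun i => ((r i, (ω i).2) : ℤ × ℤ)).filter P)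
      ((univ.image fun i => (((ω i).1, c i) : ℤ × ℤ)).filter P) := by
    rw [Finset.disjoint_left]
    intro p hp hq
    rw [mem_filter, mem_image] at hq
    obtain ⟨⟨i, -, rfl⟩, -⟩ := hq
    simp only [mem_union, mem_filter, mem_sdiff, mem_image, mem_univ, true_and] at hp
    rcases hp with hp | ⟨⟨j, hj⟩, -⟩
    · exact (av_mem (hω i)).2.2.1 hp.1.1
    · have := (nc_inj hω h2 (β := true) (γ := false) (i := j) (j := i) (by simpa [sl] using hj)).2
      exact absurd this (by decide)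
  have hc1 : ((univ.image fun i => ((r i, (ω i).2) : ℤ × ℤ)).filter P).card =
      (univ.filter fun i => P (r i, (ω i).2)).card := by
    rw [Finset.filter_image, card_image_of_injective _ hA]
  have hc2 : ((univ.image fun i => (((ω i).1, c i) : ℤ × ℤ)).filter P).card =
      (univ.filter fun i => P ((ω i).1, c i)).card := by
    rw [Finset.filter_image, card_image_of_injective _ hB]
  have hc3 : ((S \ univ.image ω).filter P).card + (univ.filter fun i => P (ω i)).card =
      (S.filter P).card := by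
    have h1 : (univ.filter fun i => P (ω i)).card = ((univ.image ω).filter P).card := by
      rw [Finset.filter_image, card_image_of_injective _ (inj_w h2)]
    rw [h1, ← card_union_of_disjoint, ← filter_union, sdiff_union_of_subset]
    · intro p hp
      rw [mem_image] at hp
      obtain ⟨i, -, rfl⟩ := hp
      exact (av_mem (hω i)).1
    · rw [Finset.disjoint_left]
      intro p hp hq
      rw [mem_filter, mem_sdiff] at hp
      rw [mem_filter] at hq
      exact hp.1.2 hq.1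
  have hx : ((xch S r c ω).filter P).card = ((S \ univ.image ω).filter P).card +
      (univ.filter fun i => P (r i, (ω i).2)).card +
      (univ.filter fun i => P ((ω i).1, c i)).card := by
    unfold xch
    rw [filter_union, filter_union, card_union_of_disjoint hd2, card_union_of_disjoint hd1,
      hc1, hc2]
  omega

theorem xch_sub (h : Near s (s - 1) N ε S) (hD : Def s N L S r c) (ω : Fin L → ℤ × ℤ)
    (hω : ∀ i, ω i ∈ avl s S (r i) (c i)) : xch S r c ω ⊆ grid N := by
  have hg : ∀ i, (0 ≤ (ω i).1 ∧ (ω i).1 < N) ∧ (0 ≤ (ω i).2 ∧ (ω i).2 < N) := by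
    intro i
    have h1 := h.sub (av_mem (hω i)).1
    unfold grid at h1
    rw [mem_product, Finset.mem_Ico, Finset.mem_Ico] at h1
    exact h1
  intro p hp
  unfold xch at hp
  simp only [mem_union, mem_sdiff, mem_image, mem_univ, true_and] at hp
  rcases hp with (⟨hp, -⟩ | ⟨i, rfl⟩) | ⟨i, rfl⟩
  · exact h.sub hp
  · unfold grid
    rw [mem_product, Finset.mem_Ico, Finset.mem_Ico]
    exact ⟨hD.r_mem i, (hg i).2⟩
  · unfold grid
    rw [mem_product, Finset.mem_Ico, Finset.mem_Ico]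
    exact ⟨(hg i).1, hD.c_mem i⟩

theorem xch_col (h : Near s (s - 1) N ε S) (hD : Def s N L S r c) (ω : Fin L → ℤ × ℤ)
    (hω : ∀ i, ω i ∈ avl s S (r i) (c i)) (h2 : ∀ i j, i ≠ j → ¬ B2 s r c i j (ω i) (ω j))
    (x : ℤ) (hx : 0 ≤ x) (hxN : x < N) : ((xch S r c ω).filter fun p => p.1 = x).card = s := by
  have h1 := cnt_gen hω h2 (fun p => p.1 = x)
  have h3 := hD.r_cnt x hx hxN
  dsimp only at h1
  omega

theorem xch_row (h : Near s (s - 1) N ε S) (hD : Def s N L S r c) (ω : Fin L → ℤ × ℤ)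
    (hω : ∀ i, ω i ∈ avl s S (r i) (c i)) (h2 : ∀ i j, i ≠ j → ¬ B2 s r c i j (ω i) (ω j))
    (y : ℤ) (hy : 0 ≤ y) (hyN : y < N) : ((xch S r c ω).filter fun p => p.2 = y).card = s := by
  have h1 := cnt_gen hω h2 (fun p => p.2 = y)
  have h3 := hD.c_cnt y hy hyN
  dsimp only at h1
  omega

private theorem pair_sum (ω : Fin L → ℤ × ℤ) (v : ℤ × ℤ) (l : ℤ) :
    (univ.filter fun i => On v (r i, (ω i).2) = l).card +
        (univ.filter fun i => On v ((ω i).1, c i) = l).card =
      ((univ : Finset (Fin L × Bool)).filter fun z =>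
        On v (sl (r z.1) (c z.1) z.2 (ω z.1)) = l).card := by
  classical
  rw [card_filter, card_filter, card_filter, ← univ_product_univ, sum_product, ← sum_add_distrib]
  refine sum_congr rfl fun i _ => ?_
  rw [Fintype.sum_bool]
  simp only [sl, if_true, Bool.false_eq_true, if_false]

private theorem dir_or {v : ℤ × ℤ} (hv : Skew v) (hs : hgt v ≤ s) :
    ∃ w ∈ Dir s, w.1 ≠ 0 ∧ w.2 ≠ 0 ∧ ∀ x y, On v x = On v y → On w x = On w y := by
  rcases prim_dir hv.1 hs with h | h
  · exact ⟨v, h, hv.2.1, hv.2.2, fun x y hxy => hxy⟩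
  · refine ⟨(-v.1, -v.2), h, neg_ne_zero.mpr hv.2.1, neg_ne_zero.mpr hv.2.2, fun x y hxy => ?_⟩
    rw [On_neg, On_neg, hxy]

private theorem new_sml {ω : Fin L → ℤ × ℤ} (hω : ∀ i, ω i ∈ avl s S (r i) (c i))
    (h2 : ∀ i j, i ≠ j → ¬ B2 s r c i j (ω i) (ω j)) {v : ℤ × ℤ} (hv : Skew v) (hs : hgt v ≤ s)
    (l : ℤ) : ((univ : Finset (Fin L × Bool)).filter fun z =>
        On v (sl (r z.1) (c z.1) z.2 (ω z.1)) = l).card ≤ 1 := by
  classical
  obtain ⟨w, hw, hw1, hw2, hvw⟩ := dir_or hv hs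
  rw [card_le_one]
  rintro ⟨i, β⟩ hz ⟨j, γ⟩ hz'
  rw [mem_filter] at hz hz'
  have h1 : On v (sl (r i) (c i) β (ω i)) = On v (sl (r j) (c j) γ (ω j)) := by
    rw [hz.2, hz'.2]
  by_cases hij : i = j
  · subst hij
    have hne := (av_mem (hω i)).2.2.2 w hw
    cases β <;> cases γ
    · rfl
    · exfalso
      exact hne (by simpa [sl] using (hvw _ _ h1).symm)
    · exfalso
      exact hne (by simpa [sl] using hvw _ _ h1)
    · rfl
  · exfalso
    exact h2 i j hij (Or.inr (Or.inr (Or.inl ⟨β, γ, w, hw, hw1, hw2, hvw _ _ h1⟩)))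

private theorem pair_ne {ω : Fin L → ℤ × ℤ}
    (h2 : ∀ i j, i ≠ j → ¬ B2 s r c i j (ω i) (ω j))
    (h3 : ∀ i j k, i ≠ j → i ≠ k → j ≠ k → ¬ B3 r c i j k (ω i) (ω j) (ω k))
    {v : ℤ × ℤ} (hv : Skew v) (l : ℤ) {a b d e : Fin L × Bool}
    (ha : On v (sl (r a.1) (c a.1) a.2 (ω a.1)) = l)
    (hb : On v (sl (r b.1) (c b.1) b.2 (ω b.1)) = l)
    (hd : On v (sl (r d.1) (c d.1) d.2 (ω d.1)) = l)
    (he : On v (sl (r e.1) (c e.1) e.2 (ω e.1)) = l)
    (hab : a ≠ b) (had : a ≠ d) (hae : a ≠ e) (hbd : b ≠ d) (hbe : b ≠ e) (hde : d ≠ e) :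
    a.1 ≠ b.1 := by
  obtain ⟨i, α⟩ := a
  obtain ⟨j, β⟩ := b
  obtain ⟨k, γ⟩ := d
  obtain ⟨m, δ⟩ := e
  dsimp only at *
  intro hij
  subst hij
  -- both cells of `i` are on the line
  have hαβ : α ≠ β := fun h => hab (by rw [h])
  have hall : ∀ x : Bool, On v (sl (r i) (c i) x (ω i)) = l := by
    intro x
    cases x <;> cases α <;> cases β <;> first | exact ha | exact hb | exact absurd rfl hαβ
  have hik : i ≠ k := by
    intro h
    subst h
    cases α <;> cases β <;> cases γ <;>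
      first | exact hαβ rfl | exact had rfl | exact hbd rfl
  have him : i ≠ m := by
    intro h
    subst h
    cases α <;> cases β <;> cases δ <;>
      first | exact hαβ rfl | exact hae rfl | exact hbe rfl
  by_cases hkm : k = m
  · subst hkm
    have hγδ : γ ≠ δ := fun h => hde (by rw [h])
    have hall2 : ∀ x : Bool, On v (sl (r k) (c k) x (ω k)) = l := by
      intro x
      cases x <;> cases γ <;> cases δ <;> first | exact hd | exact he | exact absurd rfl hγδ
    refine h2 i k hik (Or.inr (Or.inr (Or.inr ⟨v, hv, ?_, fun x => ?_⟩)))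
    · rw [hall, hall]
    · rw [hall, hall2]
  · refine h3 i k m hik him hkm ⟨v, hv, ?_, ⟨γ, ?_⟩, ⟨δ, ?_⟩⟩
    · rw [hall, hall]
    · rw [hall, hd]
    · rw [hall, he]

private theorem new_lrg {ω : Fin L → ℤ × ℤ} (hω : ∀ i, ω i ∈ avl s S (r i) (c i))
    (h2 : ∀ i j, i ≠ j → ¬ B2 s r c i j (ω i) (ω j))
    (h3 : ∀ i j k, i ≠ j → i ≠ k → j ≠ k → ¬ B3 r c i j k (ω i) (ω j) (ω k))
    (h4 : ∀ i j k l, [i, j, k, l].Nodup → ¬ B4 r c i j k l (ω i) (ω j) (ω k) (ω l))
    {v : ℤ × ℤ} (hv : Skew v) (l : ℤ) :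
    ((univ : Finset (Fin L × Bool)).filter fun z =>
        On v (sl (r z.1) (c z.1) z.2 (ω z.1)) = l).card ≤ 3 := by
  classical
  by_contra hcon
  obtain ⟨a, b, d, e, ha, hb, hd, he, hab, had, hae, hbd, hbe, hde⟩ :
      ∃ a b d e : Fin L × Bool,
        On v (sl (r a.1) (c a.1) a.2 (ω a.1)) = l ∧ On v (sl (r b.1) (c b.1) b.2 (ω b.1)) = l ∧
        On v (sl (r d.1) (c d.1) d.2 (ω d.1)) = l ∧ On v (sl (r e.1) (c e.1) e.2 (ω e.1)) = l ∧
        a ≠ b ∧ a ≠ d ∧ a ≠ e ∧ b ≠ d ∧ b ≠ e ∧ d ≠ e := by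
    obtain ⟨F, hF, hF4⟩ := Finset.exists_subset_card_eq
      (show 4 ≤ ((univ : Finset (Fin L × Bool)).filter fun z =>
        On v (sl (r z.1) (c z.1) z.2 (ω z.1)) = l).card by omega)
    obtain ⟨a, F1, haF, rfl, hF1⟩ := Finset.card_eq_succ.mp hF4
    obtain ⟨b, d, e, hbd, hbe, hde, rfl⟩ := Finset.card_eq_three.mp hF1
    have hm : ∀ z ∈ insert a ({b, d, e} : Finset (Fin L × Bool)),
        On v (sl (r z.1) (c z.1) z.2 (ω z.1)) = l := fun z hz => (mem_filter.mp (hF hz)).2
    simp only [mem_insert, mem_singleton, not_or] at haF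
    refine ⟨a, b, d, e, hm a (by simp), hm b (by simp), hm d (by simp), hm e (by simp),
      haF.1, haF.2.1, haF.2.2, hbd, hbe, hde⟩
  have n1 := pair_ne h2 h3 hv l ha hb hd he hab had hae hbd hbe hde
  have n2 := pair_ne h2 h3 hv l ha hd hb he had hab hae hbd.symm hde hbe
  have n3 := pair_ne h2 h3 hv l ha he hb hd hae hab had hbe.symm hde.symm hbd
  have n4 := pair_ne h2 h3 hv l hb hd ha he hbd hab.symm hbe had.symm hde hae
  have n5 := pair_ne h2 h3 hv l hb he ha hd hbe hab.symm hbd hae.symm hde.symm had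
  have n6 := pair_ne h2 h3 hv l hd he ha hb hde had.symm hbd.symm hae.symm hbe.symm hab
  refine h4 a.1 b.1 d.1 e.1 (by simp [n1, n2, n3, n4, n5, n6])
    ⟨a.2, b.2, d.2, e.2, ?_, v, hv, ?_, ?_, ?_⟩
  · have key : ∀ x y : Fin L × Bool, x.1 ≠ y.1 →
        sl (r x.1) (c x.1) x.2 (ω x.1) ≠ sl (r y.1) (c y.1) y.2 (ω y.1) :=
      fun x y hxy h => hxy (nc_inj hω h2 h).1
    simp [key _ _ n1, key _ _ n2, key _ _ n3, key _ _ n4, key _ _ n5, key _ _ n6]
  · rw [ha, hb]
  · rw [ha, hd]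
  · rw [ha, he]

theorem xch_skew (hs : 6 ≤ s) (h : Near s (s - 1) N ε S) (hD : Def s N L S r c)
    (ω : Fin L → ℤ × ℤ) (hω : ∀ i, ω i ∈ avl s S (r i) (c i))
    (h2 : ∀ i j, i ≠ j → ¬ B2 s r c i j (ω i) (ω j))
    (h3 : ∀ i j k, i ≠ j → i ≠ k → j ≠ k → ¬ B3 r c i j k (ω i) (ω j) (ω k))
    (h4 : ∀ i j k l, [i, j, k, l].Nodup → ¬ B4 r c i j k l (ω i) (ω j) (ω k) (ω l))
    {v : ℤ × ℤ} (hv : Skew v) (l : ℤ) : ((xch S r c ω).filter fun p => On v p = l).card ≤ s := by
  have h1 := cnt_gen hω h2 (fun p => On v p = l)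
  have h5 := pair_sum (r := r) (c := c) ω v l
  by_cases hh : hgt v ≤ s
  · have h6 := h.sml v hv.1 hv.2.1 hv.2.2 hh l
    have h7 := new_sml hω h2 hv hh l
    omega
  · have h6 := h.lrg v hv.1 (by omega) l
    have h7 := new_lrg hω h2 h3 h4 hv l
    omega

end Pool.Agent.NKL
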