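import Pool.Agent.NKL.F2D
import Pool.Agent.NKL.FEX
import Pool.Agent.NKL.FAV
import Pool.Agent.NKL.FQ2

set_option autoImplicit false

/-!
# NKL / F2X : the set after the exchange, stage 2

`x2_sub`, `x2_col`, `x2_row`: copies of the proofs of `xch_sub`, `xch_col`, `xch_row` in FEX (they do not
use that the capacity of the skew lines is `s - 1`).
`x2_skew`: let `v` be skew, `ℓ` the line `On v = l`, `a` the number of points of `S` on `ℓ`, `m` the
number of new cells on `ℓ`; the number of points of the new set on `ℓ` is at most `a + m`.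
* Some index `i` has both new cells on `ℓ`: then no other index has a new cell on `ℓ` (`B2a`), so
  `m = 2`, and `a ≤ 1` (last condition of `avl2`): `a + m ≤ 3 ≤ s`.
* Otherwise the new cells on `ℓ` belong to different indices; they are different points
  (second alternative of `B2`).  `m ≥ 4`: `B4`.  `m = 3`: `a + 3 ≤ s` by `B3s`.  `m = 2`: `a + 2 ≤ s` by
  `B2s`.  `m = 1`: the new cell `z` is not in `S`, so `a = dg0 S v z ≤ s - 1` (`Safe`).  `m = 0`:
  `a ≤ s` (`Near.sml` for `hgt v ≤ s`, `Near.lrg` otherwise, `3 ≤ s`).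
-/

namespace Pool.Agent.NKL

open Finset

variable {s N L : ℕ} {ε β η η₂ : ℝ} {S : Finset (ℤ × ℤ)} {r c : Fin L → ℤ}

private theorem av_mem {i : Fin L} {p : ℤ × ℤ} (h : p ∈ avl s S (r i) (c i)) :
    p ∈ S ∧ (r i, p.2) ∉ S ∧ (p.1, c i) ∉ S ∧
      ∀ v ∈ Dir s, On v (r i, p.2) ≠ On v (p.1, c i) := by
  classical
  unfold avl at h
  rw [mem_filter] at h
  exact h

private theorem inj_w {ω : Fin L → ℤ × ℤ} (h2 : ∀ i j, i ≠ j → ¬ B2 s r c i j (ω i) (ω j)) :
    Function.Injective ω := by
  intro i j hij
  by_contra hne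
  exact h2 i j hne (Or.inl hij)

private theorem nc_inj {ω : Fin L → ℤ × ℤ} (hω : ∀ i, ω i ∈ avl s S (r i) (c i))
    (h2 : ∀ i j, i ≠ j → ¬ B2 s r c i j (ω i) (ω j)) {i j : Fin L} {β γ : Bool}
    (h : sl (r i) (c i) β (ω i) = sl (r j) (c j) γ (ω j)) : i = j ∧ β = γ := by
  by_cases hij : i = j
  · subst hij
    refine ⟨rfl, ?_⟩
    have hn := avl_ne (hω i)
    cases β <;> cases γ
    · rfl
    · exfalso
      simp only [sl, Prod.ext_iff] at h
      exact hn.1 (by simpa using h.1)
    · exfalso
      simp only [sl, Prod.ext_iff] at h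
      exact hn.1 (by simpa using h.1.symm)
    · rfl
  · exfalso
    exact h2 i j hij (Or.inr (Or.inl ⟨β, γ, h⟩))

private theorem cnt_gen {ω : Fin L → ℤ × ℤ} (hω : ∀ i, ω i ∈ avl s S (r i) (c i))
    (h2 : ∀ i j, i ≠ j → ¬ B2 s r c i j (ω i) (ω j)) (P : ℤ × ℤ → Prop) [DecidablePred P] :
    ((xch S r c ω).filter P).card + (univ.filter fun i => P (ω i)).card =
      (S.filter P).card + (univ.filter fun i => P (r i, (ω i).2)).card +
        (univ.filter fun i => P ((ω i).1, c i)).card := by
  classical
  have hA : Function.Injective fun i => ((r i, (ω i).2) : ℤ × ℤ) := by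
    intro i j hij
    exact (nc_inj hω h2 (β := true) (γ := true) (by simpa [sl] using hij)).1
  have hB : Function.Injective fun i => (((ω i).1, c i) : ℤ × ℤ) := by
    intro i j hij
    exact (nc_inj hω h2 (β := false) (γ := false) (by simpa [sl] using hij)).1
  have hd1 : Disjoint ((S \ univ.image ω).filter P)
      ((univ.image fun i => ((r i, (ω i).2) : ℤ × ℤ)).filter P) := by
    rw [Finset.disjoint_left]
    intro p hp hq
    rw [mem_filter, mem_sdiff] at hp
    rw [mem_filter, mem_image] at hq
    obtain ⟨⟨i, -, rfl⟩, -⟩ := hq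
    exact (av_mem (hω i)).2.1 hp.1.1
  have hd2 : Disjoint ((S \ univ.image ω).filter P ∪
      (univ.image fun i => ((r i, (ω i).2) : ℤ × ℤ)).filter P)
      ((univ.image fun i => (((ω i).1, c i) : ℤ × ℤ)).filter P) := by
    rw [Finset.disjoint_left]
    intro p hp hq
    rw [mem_filter, mem_image] at hq
    obtain ⟨⟨i, -, rfl⟩, -⟩ := hq
    simp only [mem_union, mem_filter, mem_sdiff, mem_image, mem_univ, true_and] at hp
    rcases hp with hp | ⟨⟨j, hj⟩, -⟩
    · exact (av_mem (hω i)).2.2.1 hp.1.1
    · have := (nc_inj hω h2 (β := true) (γ := false) (i := j) (j := i) (by simpa [sl] using hj)).2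
      exact absurd this (by decide)
  have hc1 : ((univ.image fun i => ((r i, (ω i).2) : ℤ × ℤ)).filter P).card =
      (univ.filter fun i => P (r i, (ω i).2)).card := by
    rw [Finset.filter_image, card_image_of_injective _ hA]
  have hc2 : ((univ.image fun i => (((ω i).1, c i) : ℤ × ℤ)).filter P).card =
      (univ.filter fun i => P ((ω i).1, c i)).card := by
    rw [Finset.filter_image, card_image_of_injective _ hB]
  have hc3 : ((S \ univ.image ω).filter P).card + (univ.filter fun i => P (ω i)).card =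
      (S.filter P).card := by
    have h1 : (univ.filter fun i => P (ω i)).card = ((univ.image ω).filter P).card := by
      rw [Finset.filter_image, card_image_of_injective _ (inj_w h2)]
    rw [h1, ← card_union_of_disjoint, ← filter_union, sdiff_union_of_subset]
    · intro p hp
      rw [mem_image] at hp
      obtain ⟨i, -, rfl⟩ := hp
      exact (av_mem (hω i)).1
    · rw [Finset.disjoint_left]
      intro p hp hq
      rw [mem_filter, mem_sdiff] at hp
      rw [mem_filter] at hq
      exact hp.1.2 hq.1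
  have hx : ((xch S r c ω).filter P).card = ((S \ univ.image ω).filter P).card +
      (univ.filter fun i => P (r i, (ω i).2)).card +
      (univ.filter fun i => P ((ω i).1, c i)).card := by
    unfold xch
    rw [filter_union, filter_union, card_union_of_disjoint hd2, card_union_of_disjoint hd1,
      hc1, hc2]
  omega

theorem x2_sub (h : Near s s N ε S) (hD : Def s N L S r c) (ω : Fin L → ℤ × ℤ)
    (hω : ∀ i, ω i ∈ avl s S (r i) (c i)) : xch S r c ω ⊆ grid N := by
  have hg : ∀ i, (0 ≤ (ω i).1 ∧ (ω i).1 < N) ∧ (0 ≤ (ω i).2 ∧ (ω i).2 < N) := by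
    intro i
    have h1 := h.sub (av_mem (hω i)).1
    unfold grid at h1
    rw [mem_product, Finset.mem_Ico, Finset.mem_Ico] at h1
    exact h1
  intro p hp
  unfold xch at hp
  simp only [mem_union, mem_sdiff, mem_image, mem_univ, true_and] at hp
  rcases hp with (⟨hp, -⟩ | ⟨i, rfl⟩) | ⟨i, rfl⟩
  · exact h.sub hp
  · unfold grid
    rw [mem_product, Finset.mem_Ico, Finset.mem_Ico]
    exact ⟨hD.r_mem i, (hg i).2⟩
  · unfold grid
    rw [mem_product, Finset.mem_Ico, Finset.mem_Ico]
    exact ⟨(hg i).1, hD.c_mem i⟩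

theorem x2_col (h : Near s s N ε S) (hD : Def s N L S r c) (ω : Fin L → ℤ × ℤ)
    (hω : ∀ i, ω i ∈ avl s S (r i) (c i)) (h2 : ∀ i j, i ≠ j → ¬ B2 s r c i j (ω i) (ω j))
    (x : ℤ) (hx : 0 ≤ x) (hxN : x < N) : ((xch S r c ω).filter fun p => p.1 = x).card = s := by
  have h1 := cnt_gen hω h2 (fun p => p.1 = x)
  have h3 := hD.r_cnt x hx hxN
  dsimp only at h1
  omega

theorem x2_row (h : Near s s N ε S) (hD : Def s N L S r c) (ω : Fin L → ℤ × ℤ)
    (hω : ∀ i, ω i ∈ avl s S (r i) (c i)) (h2 : ∀ i j, i ≠ j → ¬ B2 s r c i j (ω i) (ω j))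
    (y : ℤ) (hy : 0 ≤ y) (hyN : y < N) : ((xch S r c ω).filter fun p => p.2 = y).card = s := by
  have h1 := cnt_gen hω h2 (fun p => p.2 = y)
  have h3 := hD.c_cnt y hy hyN
  dsimp only at h1
  omega

private theorem a2_mem {i : Fin L} {p : ℤ × ℤ} (h : p ∈ avl2 s N ε η₂ S (r i) (c i)) :
    p ∈ avl s S (r i) (c i) ∧ Safe s S (r i, p.2) ∧ Safe s S (p.1, c i) ∧
      ∀ v, Skew v → On v (r i, p.2) = On v (p.1, c i) →
        (S.filter fun q => On v q = On v (r i, p.2)).card ≤ 1 := by
  classical
  unfold avl2 at h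
  rw [mem_filter] at h
  exact ⟨h.1, h.2.1, h.2.2.1, h.2.2.2.2.2⟩

private theorem pair_sum (ω : Fin L → ℤ × ℤ) (v : ℤ × ℤ) (l : ℤ) :
    (univ.filter fun i => On v (r i, (ω i).2) = l).card +
        (univ.filter fun i => On v ((ω i).1, c i) = l).card =
      ((univ : Finset (Fin L × Bool)).filter fun z =>
        On v (sl (r z.1) (c z.1) z.2 (ω z.1)) = l).card := by
  classical
  rw [card_filter, card_filter, card_filter, ← univ_product_univ, sum_product, ← sum_add_distrib]
  refine sum_congr rfl fun i _ => ?_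
  rw [Fintype.sum_bool]
  simp only [sl, if_true, Bool.false_eq_true, if_false]

theorem x2_skew (hs : 3 ≤ s) (h : Near s s N ε S) (hD : Def s N L S r c)
    (ω : Fin L → ℤ × ℤ) (hω : ∀ i, ω i ∈ avl2 s N ε η₂ S (r i) (c i))
    (h2 : ∀ i j, i ≠ j → ¬ B2 s r c i j (ω i) (ω j))
    (h2s : ∀ i j, i ≠ j → ¬ B2s s S r c i j (ω i) (ω j))
    (h2a : ∀ i j, i ≠ j → ¬ B2a r c i j (ω i) (ω j))
    (h3 : ∀ i j k, i ≠ j → i ≠ k → j ≠ k → ¬ B3s s S r c i j k (ω i) (ω j) (ω k))
    (h4 : ∀ i j k l, [i, j, k, l].Nodup → ¬ B4 r c i j k l (ω i) (ω j) (ω k) (ω l))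
    {v : ℤ × ℤ} (hv : Skew v) (l : ℤ) : ((xch S r c ω).filter fun p => On v p = l).card ≤ s := by
  classical
  have hωa : ∀ i, ω i ∈ avl s S (r i) (c i) := fun i => (a2_mem (hω i)).1
  have h1 := cnt_gen hωa h2 (fun p => On v p = l)
  have h5 := pair_sum (r := r) (c := c) ω v l
  have hZ : ((xch S r c ω).filter fun p => On v p = l).card ≤
      (S.filter fun p => On v p = l).card + ((univ : Finset (Fin L × Bool)).filter fun z =>
        On v (sl (r z.1) (c z.1) z.2 (ω z.1)) = l).card := by omega
  refine hZ.trans ?_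
  by_cases hA : ∃ i, ∀ x : Bool, On v (sl (r i) (c i) x (ω i)) = l
  · obtain ⟨i, hi⟩ := hA
    have hm : ((univ : Finset (Fin L × Bool)).filter fun z =>
        On v (sl (r z.1) (c z.1) z.2 (ω z.1)) = l).card ≤ 2 := by
      have hsub : ((univ : Finset (Fin L × Bool)).filter fun z =>
          On v (sl (r z.1) (c z.1) z.2 (ω z.1)) = l) ⊆ {(i, false), (i, true)} := by
        rintro ⟨j, γ⟩ hz
        rw [mem_filter] at hz
        by_cases hij : i = j
        · subst hij
          cases γ <;> simp
        · exfalso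
          refine h2a i j hij ⟨v, hv, ?_, γ, ?_⟩
          · rw [hi, hi]
          · rw [hi]
            exact hz.2
      exact (card_le_card hsub).trans card_le_two
    have ha : (S.filter fun p => On v p = l).card ≤ 1 := by
      have h6 := (a2_mem (hω i)).2.2.2 v hv
      have h7 : On v (r i, (ω i).2) = l := by simpa [sl] using hi true
      have h8 : On v ((ω i).1, c i) = l := by simpa [sl] using hi false
      rw [h7, h8] at h6
      exact h6 rfl
    omega
  · have hne : ∀ z z' : Fin L × Bool, On v (sl (r z.1) (c z.1) z.2 (ω z.1)) = l →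
        On v (sl (r z'.1) (c z'.1) z'.2 (ω z'.1)) = l → z ≠ z' → z.1 ≠ z'.1 := by
      rintro ⟨i, β⟩ ⟨j, γ⟩ hz hz' hzz hij
      dsimp only at hz hz' hij
      subst hij
      apply hA
      refine ⟨i, fun x => ?_⟩
      have hβγ : β ≠ γ := fun h => hzz (by rw [h])
      cases x <;> cases β <;> cases γ <;> first | exact hz | exact hz' | exact absurd rfl hβγ
    have key : ∀ x y : Fin L × Bool, x.1 ≠ y.1 →
        sl (r x.1) (c x.1) x.2 (ω x.1) ≠ sl (r y.1) (c y.1) y.2 (ω y.1) :=
      fun x y hxy h => hxy (nc_inj hωa h2 h).1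
    rcases lt_or_ge 3 ((univ : Finset (Fin L × Bool)).filter fun z =>
        On v (sl (r z.1) (c z.1) z.2 (ω z.1)) = l).card with hm | hm
    · exfalso
      obtain ⟨F, hF, hF4⟩ := Finset.exists_subset_card_eq
        (show 4 ≤ ((univ : Finset (Fin L × Bool)).filter fun z =>
          On v (sl (r z.1) (c z.1) z.2 (ω z.1)) = l).card by omega)
      obtain ⟨a, F1, haF, rfl, hF1⟩ := Finset.card_eq_succ.mp hF4
      obtain ⟨b, d, e, hbd, hbe, hde, rfl⟩ := Finset.card_eq_three.mp hF1
      have hm : ∀ z ∈ insert a ({b, d, e} : Finset (Fin L × Bool)),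
          On v (sl (r z.1) (c z.1) z.2 (ω z.1)) = l := fun z hz => (mem_filter.mp (hF hz)).2
      simp only [mem_insert, mem_singleton, not_or] at haF
      have ha := hm a (by simp)
      have hb := hm b (by simp)
      have hd := hm d (by simp)
      have he := hm e (by simp)
      have n1 := hne a b ha hb haF.1
      have n2 := hne a d ha hd haF.2.1
      have n3 := hne a e ha he haF.2.2
      have n4 := hne b d hb hd hbd
      have n5 := hne b e hb he hbe
      have n6 := hne d e hd he hde
      refine h4 a.1 b.1 d.1 e.1 (by simp [n1, n2, n3, n4, n5, n6])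
        ⟨a.2, b.2, d.2, e.2, ?_, v, hv, ?_, ?_, ?_⟩
      · simp [key _ _ n1, key _ _ n2, key _ _ n3, key _ _ n4, key _ _ n5, key _ _ n6]
      · rw [ha, hb]
      · rw [ha, hd]
      · rw [ha, he]
    · generalize hM : ((univ : Finset (Fin L × Bool)).filter fun z =>
        On v (sl (r z.1) (c z.1) z.2 (ω z.1)) = l).card = m at hm ⊢
      have hml : ∀ z ∈ ((univ : Finset (Fin L × Bool)).filter fun z =>
          On v (sl (r z.1) (c z.1) z.2 (ω z.1)) = l),
          On v (sl (r z.1) (c z.1) z.2 (ω z.1)) = l := fun z hz => (mem_filter.mp hz).2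
      have hm4 : m = 0 ∨ m = 1 ∨ m = 2 ∨ m = 3 := by omega
      rcases hm4 with rfl | rfl | rfl | rfl
      · have ha : (S.filter fun p => On v p = l).card ≤ s := by
          by_cases hh : hgt v ≤ s
          · exact h.sml v hv.1 hv.2.1 hv.2.2 hh l
          · exact (h.lrg v hv.1 (by omega) l).trans hs
        omega
      · obtain ⟨z, hz⟩ := Finset.card_eq_one.mp hM
        have hzl := hml z (by rw [hz]; simp)
        have hzS : sl (r z.1) (c z.1) z.2 (ω z.1) ∉ S := by
          obtain ⟨i, β⟩ := z
          cases β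
          · exact (av_mem (hωa i)).2.2.1
          · exact (av_mem (hωa i)).2.1
        have hsafe : Safe s S (sl (r z.1) (c z.1) z.2 (ω z.1)) := by
          obtain ⟨i, β⟩ := z
          cases β
          · exact (a2_mem (hω i)).2.2.1
          · exact (a2_mem (hω i)).2.1
        have h6 := hsafe v hv
        have h7 : dg0 S v (sl (r z.1) (c z.1) z.2 (ω z.1)) = (S.filter fun p => On v p = l).card := by
          unfold dg0
          rw [hzl]
          congr 1
          refine filter_congr fun q hq => ⟨fun h => h.2, fun h => ⟨?_, h⟩⟩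
          rintro rfl
          exact hzS hq
        omega
      · obtain ⟨a, b, hab, hz⟩ := Finset.card_eq_two.mp hM
        have ha := hml a (by rw [hz]; simp)
        have hb := hml b (by rw [hz]; simp)
        have n1 := hne a b ha hb hab
        have h6 := h2s a.1 b.1 n1
        by_contra hcon
        apply h6
        refine ⟨a.2, b.2, key a b n1, v, hv, ?_, ?_⟩
        · rw [ha, hb]
        · rw [ha]
          omega
      · obtain ⟨a, b, d, hab, had, hbd, hz⟩ := Finset.card_eq_three.mp hM
        have ha := hml a (by rw [hz]; simp)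
        have hb := hml b (by rw [hz]; simp)
        have hd := hml d (by rw [hz]; simp)
        have n1 := hne a b ha hb hab
        have n2 := hne a d ha hd had
        have n3 := hne b d hb hd hbd
        have h6 := h3 a.1 b.1 d.1 n1 n2 n3
        by_contra hcon
        apply h6
        refine ⟨a.2, b.2, d.2, ?_, v, hv, ?_, ?_, ?_⟩
        · simp [key _ _ n1, key _ _ n2, key _ _ n3]
        · rw [ha, hb]
        · rw [ha, hd]
        · rw [ha]
          omega

end Pool.Agent.NKL
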