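import Pool.Agent.NKL.FQ2

set_option autoImplicit false

/-!
# NKL / FQ4 : four new cells of four exchanges on a line

`B4_swap`: permute the four.
`fq4`: fix `i`, `p ∈ avl` (so `p ∈ S ⊆ grid N`).  Let `B4 i j k l p q u w` with `β₁` and `v`; the points
`P = sl .. β₁ p`, `Q = sl .. β₂ q` are in `grid N` (`r_mem`, `c_mem`), different, and `On v P = On v Q`, so
`Q - P` is a nonzero multiple of `v` and `hgt v ≤ N - 1`; so `± v ∈ Dir N` (`prim_dir`) and we may take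
`v ∈ Dir N` (`On_neg`).  Hence the sum is at most
`∑_{β₁} ∑_{v ∈ Dir N, skew} H(v, On v P)³`, `H(v,l) = ∑_j #{q ∈ S | some new cell of (j,q) on the line}`.
`H ≤ 2 s L` (`fh_sum_L`) and `H ≤ 2 s² ((N-1)/h + 1) ≤ 4 s² N/h` for `h = hgt v ≤ N` (`fh_sum_N`).
With `card_hgt` / `sum_dir`: for a threshold `K`,
`∑_{v ∈ Dir N} H³ ≤ ∑_{h ≤ K} 8 h (2 s L)³ + ∑_{h > K} 8 h (4 s² N/h)³ ≤ 8 K² 8 s³ L³ + 512 s⁶ N³/K`
(`sum_inv_sq`), and a factor `2` for `β₁`.
-/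

namespace Pool.Agent.NKL

open Finset

variable {s c₁ N L : ℕ} {ε : ℝ} {S : Finset (ℤ × ℤ)} {r c : Fin L → ℤ}

theorem B4_swap (r c : Fin L → ℤ) (i j k l : Fin L) (p q u w : ℤ × ℤ)
    (h : B4 r c i j k l p q u w) :
    B4 r c j i k l q p u w ∧ B4 r c k j i l u q p w ∧ B4 r c l j k i w q u p := by
  obtain ⟨β₁, β₂, β₃, β₄, hn, v, hv, h2, h3, h4⟩ := h
  refine ⟨⟨β₂, β₁, β₃, β₄, ?_, v, hv, h2.symm, h3.trans h2.symm, h4.trans h2.symm⟩,
    ⟨β₃, β₂, β₁, β₄, ?_, v, hv, h2.trans h3.symm, h3.symm, h4.trans h3.symm⟩,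
    ⟨β₄, β₂, β₃, β₁, ?_, v, hv, h2.trans h4.symm, h3.trans h4.symm, h4.symm⟩⟩
  all_goals
    simp only [List.nodup_cons, List.mem_cons, List.not_mem_nil, or_false, not_or, not_false_iff,
      List.nodup_nil, and_true] at hn ⊢
    obtain ⟨⟨a, b, c⟩, ⟨d, e⟩, f⟩ := hn
    refine ⟨⟨?_, ?_, ?_⟩, ⟨?_, ?_⟩, ?_⟩ <;> first | assumption | exact Ne.symm ‹_›

private theorem fq4_dvd {v P Q : ℤ × ℤ} (hv : Skew v) (hPQ : P ≠ Q) (hl : On v P = On v Q) :
    v.1.natAbs ≤ (P.1 - Q.1).natAbs ∧ v.2.natAbs ≤ (P.2 - Q.2).natAbs := by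
  obtain ⟨hg, h1, h2⟩ := hv
  have hco : IsCoprime v.1 v.2 := Int.isCoprime_iff_gcd_eq_one.2 hg
  have e : v.2 * (P.1 - Q.1) = v.1 * (P.2 - Q.2) := by
    unfold On at hl
    linarith
  have d1 : v.1 ∣ P.1 - Q.1 := hco.dvd_of_dvd_mul_left (Dvd.intro _ e.symm)
  have d2 : v.2 ∣ P.2 - Q.2 := hco.symm.dvd_of_dvd_mul_left (Dvd.intro _ e)
  have n1 : P.1 - Q.1 ≠ 0 := by
    intro h0
    rw [h0, mul_zero] at e
    rcases mul_eq_zero.1 e.symm with h3 | h3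
    · exact h1 h3
    · exact hPQ (Prod.ext (by linarith) (by linarith))
  have n2 : P.2 - Q.2 ≠ 0 := by
    intro h0
    rw [h0, mul_zero] at e
    rcases mul_eq_zero.1 e with h3 | h3
    · exact h2 h3
    · exact n1 h3
  exact ⟨Int.natAbs_le_of_dvd_ne_zero d1 n1, Int.natAbs_le_of_dvd_ne_zero d2 n2⟩

private theorem fq4_hgt {v P Q : ℤ × ℤ} (hv : Skew v) (hPQ : P ≠ Q) (hl : On v P = On v Q)
    (hP : P ∈ grid N) (hQ : Q ∈ grid N) : hgt v ≤ N := by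
  obtain ⟨a, b⟩ := fq4_dvd hv hPQ hl
  unfold grid at hP hQ
  rw [mem_product, mem_Ico, mem_Ico] at hP hQ
  unfold hgt
  omega

private theorem fq4_grid (h : Near s c₁ N ε S) (hD : Def s N L S r c) (i : Fin L) {p : ℤ × ℤ} (hp : p ∈ S)
    (β : Bool) : sl (r i) (c i) β p ∈ grid N := by
  have h1 := h.sub hp
  have h2 := hD.r_mem i
  have h3 := hD.c_mem i
  unfold grid at h1 ⊢
  unfold sl
  rw [mem_product, mem_Ico, mem_Ico] at h1 ⊢
  by_cases hβ : β = true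
  · rw [if_pos hβ]
    exact ⟨h2, h1.2⟩
  · rw [if_neg hβ]
    exact ⟨h1.1, h3⟩

private theorem fq4_trip {ι κ : Type} [Fintype ι] (X : Finset κ) (f : κ → ι → ℕ) :
    ∑ j : ι, ∑ k : ι, ∑ l : ι, ∑ x ∈ X, f x j * (f x k * f x l) = ∑ x ∈ X, (∑ j, f x j) ^ 3 := by
  have h1 : ∀ j k : ι, ∑ l : ι, ∑ x ∈ X, f x j * (f x k * f x l) =
      ∑ x ∈ X, ∑ l : ι, f x j * (f x k * f x l) := fun j k => Finset.sum_comm
  have h2 : ∀ j : ι, ∑ k : ι, ∑ x ∈ X, ∑ l : ι, f x j * (f x k * f x l) =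
      ∑ x ∈ X, ∑ k : ι, ∑ l : ι, f x j * (f x k * f x l) := fun j => Finset.sum_comm
  simp only [h1, h2]
  rw [Finset.sum_comm]
  refine Finset.sum_congr rfl fun x _ => ?_
  have h3 : (∑ j, f x j) ^ 3 = (∑ j, f x j) * ((∑ k, f x k) * (∑ l, f x l)) := by ring
  rw [h3, Finset.sum_mul]
  refine Finset.sum_congr rfl fun j _ => ?_
  rw [Finset.sum_mul, Finset.mul_sum]
  refine Finset.sum_congr rfl fun k _ => ?_
  rw [Finset.mul_sum, Finset.mul_sum]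

open Classical in
/-- the points with a new cell on the line -/
private noncomputable def fq4Q (S : Finset (ℤ × ℤ)) (r c : Fin L → ℤ) (v : ℤ × ℤ) (l : ℤ) (j : Fin L) :
    Finset (ℤ × ℤ) := S.filter fun q => ∃ γ, On v (sl (r j) (c j) γ q) = l

open Classical in
private theorem fq4_count (h : Near s c₁ N ε S) (hD : Def s N L S r c) (i j k l : Fin L) {p : ℤ × ℤ}
    (hp : p ∈ S) :
    ((S ×ˢ S ×ˢ S).filter fun z => B4 r c i j k l p z.1 z.2.1 z.2.2).card ≤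
      ∑ x ∈ (univ : Finset Bool) ×ˢ ((Dir N).filter fun v => v.1 ≠ 0 ∧ v.2 ≠ 0),
        (fq4Q S r c x.2 (On x.2 (sl (r i) (c i) x.1 p)) j).card *
        ((fq4Q S r c x.2 (On x.2 (sl (r i) (c i) x.1 p)) k).card *
         (fq4Q S r c x.2 (On x.2 (sl (r i) (c i) x.1 p)) l).card) := by
  have hsub : ((S ×ˢ S ×ˢ S).filter fun z => B4 r c i j k l p z.1 z.2.1 z.2.2) ⊆
      ((univ : Finset Bool) ×ˢ ((Dir N).filter fun v => v.1 ≠ 0 ∧ v.2 ≠ 0)).biUnion fun x =>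
        fq4Q S r c x.2 (On x.2 (sl (r i) (c i) x.1 p)) j ×ˢ
        (fq4Q S r c x.2 (On x.2 (sl (r i) (c i) x.1 p)) k ×ˢ
         fq4Q S r c x.2 (On x.2 (sl (r i) (c i) x.1 p)) l) := by
    rintro ⟨q, u, w⟩ hz
    rw [mem_filter, mem_product, mem_product] at hz
    obtain ⟨⟨hq, hu, hw⟩, β₁, β₂, β₃, β₄, hn, v, hv, h2, h3, h4⟩ := hz
    have hne : sl (r j) (c j) β₂ q ≠ sl (r i) (c i) β₁ p := by
      intro he
      simp only [List.nodup_cons, List.mem_cons, not_or] at hn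
      exact hn.1.1 he.symm
    have hh : hgt v ≤ N := fq4_hgt hv hne h2 (fq4_grid h hD j hq β₂) (fq4_grid h hD i hp β₁)
    rw [mem_biUnion]
    rcases prim_dir hv.1 hh with hd | hd
    · refine ⟨(β₁, v), ?_, ?_⟩
      · rw [mem_product, mem_filter]
        exact ⟨mem_univ _, hd, hv.2.1, hv.2.2⟩
      · rw [mem_product, mem_product]
        unfold fq4Q
        rw [mem_filter, mem_filter, mem_filter]
        exact ⟨⟨hq, β₂, h2⟩, ⟨hu, β₃, h3⟩, ⟨hw, β₄, h4⟩⟩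
    · refine ⟨(β₁, (-v.1, -v.2)), ?_, ?_⟩
      · rw [mem_product, mem_filter]
        exact ⟨mem_univ _, hd, neg_ne_zero.2 hv.2.1, neg_ne_zero.2 hv.2.2⟩
      · rw [mem_product, mem_product]
        unfold fq4Q
        rw [mem_filter, mem_filter, mem_filter]
        simp only [On_neg, neg_inj]
        exact ⟨⟨hq, β₂, h2⟩, ⟨hu, β₃, h3⟩, ⟨hw, β₄, h4⟩⟩
  refine (card_le_card hsub).trans (card_biUnion_le.trans (le_of_eq ?_))
  refine Finset.sum_congr rfl fun x _ => ?_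
  rw [card_product, card_product]

open Classical in
theorem fq4 (h : Near s c₁ N ε S) (hD : Def s N L S r c) (i : Fin L) {p : ℤ × ℤ}
    (hp : p ∈ avl s S (r i) (c i)) (K : ℕ) (hK : 1 ≤ K) :
    ((∑ j : Fin L, ∑ k : Fin L, ∑ l : Fin L,
      ((S ×ˢ S ×ˢ S).filter fun z => B4 r c i j k l p z.1 z.2.1 z.2.2).card : ℕ) : ℝ)
      ≤ 128 * (K : ℝ) ^ 2 * s ^ 3 * L ^ 3 + 1024 * s ^ 6 * N ^ 3 / K := by
  have hpS : p ∈ S := avl_sub s S _ _ hp
  have hK' : (1 : ℝ) ≤ K := by exact_mod_cast hK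
  have hK0 : (0 : ℝ) < K := by linarith
  set D' : Finset (ℤ × ℤ) := (Dir N).filter fun v => v.1 ≠ 0 ∧ v.2 ≠ 0 with hD'
  set X : Finset (Bool × (ℤ × ℤ)) := (univ : Finset Bool) ×ˢ D' with hX
  set f : Bool × (ℤ × ℤ) → Fin L → ℕ := fun x j =>
    (fq4Q S r c x.2 (On x.2 (sl (r i) (c i) x.1 p)) j).card with hf
  have h1 : (∑ j : Fin L, ∑ k : Fin L, ∑ l : Fin L,
      ((S ×ˢ S ×ˢ S).filter fun z => B4 r c i j k l p z.1 z.2.1 z.2.2).card : ℕ) ≤
      ∑ x ∈ X, (∑ j, f x j) ^ 3 := by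
    rw [← fq4_trip]
    exact Finset.sum_le_sum fun j _ => Finset.sum_le_sum fun k _ => Finset.sum_le_sum fun l _ =>
      fq4_count h hD i j k l hpS
  -- the bound for one direction
  set g : ℕ → ℝ := fun d => (if d ≤ K then (2 * (s : ℝ) * L) ^ 3 else 0) +
    (if K < d then (4 * (s : ℝ) ^ 2 * N) ^ 3 / (d : ℝ) ^ 3 else 0) with hg
  have hg0 : ∀ d, 0 ≤ g d := by
    intro d
    refine add_nonneg ?_ ?_
    · split_ifs <;> positivity
    · split_ifs <;> positivity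
  have hone : ∀ x ∈ X, ((∑ j, f x j : ℕ) : ℝ) ^ 3 ≤ g (hgt x.2) := by
    intro x hx
    rw [hX, mem_product, hD', mem_filter] at hx
    obtain ⟨-, hd, hv1, hv2⟩ := hx
    have hv : Skew x.2 := ⟨dir_gcd hd, hv1, hv2⟩
    by_cases hk : hgt x.2 ≤ K
    · have e1 : g (hgt x.2) = (2 * (s : ℝ) * L) ^ 3 := by
        show (if hgt x.2 ≤ K then (2 * (s : ℝ) * L) ^ 3 else 0) +
          (if K < hgt x.2 then (4 * (s : ℝ) ^ 2 * N) ^ 3 / ((hgt x.2 : ℕ) : ℝ) ^ 3 else 0) = _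
        rw [if_pos hk, if_neg (not_lt.2 hk), add_zero]
      rw [e1]
      have e2 := fh_sum_L (r := r) (c := c) h hv (On x.2 (sl (r i) (c i) x.1 p))
      have e3 : ((∑ j, f x j : ℕ) : ℝ) ≤ 2 * s * L := by exact_mod_cast e2
      exact pow_le_pow_left₀ (Nat.cast_nonneg _) e3 3
    · have hk' : K < hgt x.2 := not_le.1 hk
      have e1 : g (hgt x.2) = (4 * (s : ℝ) ^ 2 * N) ^ 3 / ((hgt x.2 : ℕ) : ℝ) ^ 3 := by
        show (if hgt x.2 ≤ K then (2 * (s : ℝ) * L) ^ 3 else 0) +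
          (if K < hgt x.2 then (4 * (s : ℝ) ^ 2 * N) ^ 3 / ((hgt x.2 : ℕ) : ℝ) ^ 3 else 0) = _
        rw [if_neg hk, if_pos hk', zero_add]
      rw [e1, ← div_pow]
      have e2 := fh_sum_N h hD hv (On x.2 (sl (r i) (c i) x.1 p))
      have hh : hgt x.2 ≤ N := dir_hgt hd
      have hh0 : 0 < hgt x.2 := by omega
      have hh0' : (0 : ℝ) < (hgt x.2 : ℕ) := by exact_mod_cast hh0
      have e3 : ((∑ j, f x j : ℕ) : ℝ) ≤ 2 * s ^ 2 * (((N - 1) / hgt x.2 : ℕ) + 1) := by exact_mod_cast e2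
      have e4 : (((N - 1) / hgt x.2 : ℕ) : ℝ) + 1 ≤ 2 * N / (hgt x.2 : ℕ) := by
        have k1 : (((N - 1) / hgt x.2 : ℕ) : ℝ) ≤ ((N - 1 : ℕ) : ℝ) / (hgt x.2 : ℕ) := Nat.cast_div_le
        have k2 : ((N - 1 : ℕ) : ℝ) ≤ N := by exact_mod_cast Nat.sub_le _ _
        have k3 : ((hgt x.2 : ℕ) : ℝ) ≤ N := by exact_mod_cast hh
        have k4 : ((N - 1 : ℕ) : ℝ) / (hgt x.2 : ℕ) ≤ (N : ℝ) / (hgt x.2 : ℕ) :=
          div_le_div_of_nonneg_right k2 hh0'.le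
        have k5 : (1 : ℝ) ≤ (N : ℝ) / (hgt x.2 : ℕ) := by
          rw [le_div_iff₀ hh0', one_mul]
          exact k3
        have k6 : 2 * (N : ℝ) / (hgt x.2 : ℕ) = (N : ℝ) / (hgt x.2 : ℕ) + (N : ℝ) / (hgt x.2 : ℕ) := by ring
        rw [k6]
        linarith
      have e5 : ((∑ j, f x j : ℕ) : ℝ) ≤ 4 * (s : ℝ) ^ 2 * N / (hgt x.2 : ℕ) := by
        refine e3.trans ((mul_le_mul_of_nonneg_left e4 (by positivity)).trans (le_of_eq ?_))
        ring
      exact pow_le_pow_left₀ (Nat.cast_nonneg _) e5 3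
  have h2 : ((∑ x ∈ X, (∑ j, f x j) ^ 3 : ℕ) : ℝ) ≤ 2 * ∑ d ∈ Finset.Ioc 0 N, 8 * (d : ℝ) * g d := by
    push_cast
    calc ∑ x ∈ X, (∑ j, (f x j : ℝ)) ^ 3 ≤ ∑ x ∈ X, g (hgt x.2) := by
          refine Finset.sum_le_sum fun x hx => ?_
          have := hone x hx
          push_cast at this
          exact this
      _ = 2 * ∑ v ∈ D', g (hgt v) := by
          rw [hX, Finset.sum_product]
          simp only [Finset.sum_const, card_univ, Fintype.card_bool, nsmul_eq_mul]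
          norm_num
      _ ≤ 2 * ∑ v ∈ (Dir N).filter (fun v => 0 < hgt v), g (hgt v) := by
          refine mul_le_mul_of_nonneg_left ?_ (by norm_num)
          refine Finset.sum_le_sum_of_subset_of_nonneg ?_ fun v _ _ => hg0 _
          intro v hv
          rw [hD', mem_filter] at hv
          rw [mem_filter]
          refine ⟨hv.1, ?_⟩
          have := hgt_pos (dir_gcd hv.1)
          omega
      _ ≤ _ := mul_le_mul_of_nonneg_left (sum_dir N 0 g hg0) (by norm_num)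
  have h3 : ∑ d ∈ Finset.Ioc 0 N, 8 * (d : ℝ) * g d ≤
      64 * (K : ℝ) ^ 2 * s ^ 3 * L ^ 3 + 512 * s ^ 6 * N ^ 3 / K := by
    have e0 : ∀ d : ℕ, 8 * (d : ℝ) * g d = (if d ≤ K then 8 * (d : ℝ) * (2 * (s : ℝ) * L) ^ 3 else 0) +
        (if K < d then 8 * (4 * (s : ℝ) ^ 2 * N) ^ 3 * (1 / (d : ℝ) ^ 2) else 0) := by
      intro d
      show 8 * (d : ℝ) * ((if d ≤ K then (2 * (s : ℝ) * L) ^ 3 else 0) +
        (if K < d then (4 * (s : ℝ) ^ 2 * N) ^ 3 / (d : ℝ) ^ 3 else 0)) = _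
      by_cases hk : d ≤ K
      · rw [if_pos hk, if_pos hk, if_neg (not_lt.2 hk), if_neg (not_lt.2 hk)]
        ring
      · have hk' : K < d := not_le.1 hk
        rw [if_neg hk, if_neg hk, if_pos hk', if_pos hk']
        have hd0 : (d : ℝ) ≠ 0 := by
          have : 0 < d := by omega
          exact_mod_cast this.ne'
        field_simp
        ring
    simp only [e0]
    rw [Finset.sum_add_distrib]
    refine add_le_add ?_ ?_
    · rw [← Finset.sum_filter]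
      have hcard : ((Finset.Ioc 0 N).filter fun d => d ≤ K).card ≤ K := by
        have hs : ((Finset.Ioc 0 N).filter fun d => d ≤ K) ⊆ Finset.Ioc 0 K := by
          intro d hd
          rw [mem_filter, mem_Ioc] at hd
          rw [mem_Ioc]
          exact ⟨hd.1.1, hd.2⟩
        refine (card_le_card hs).trans ?_
        rw [Nat.card_Ioc, Nat.sub_zero]
      calc ∑ d ∈ (Finset.Ioc 0 N).filter (fun d => d ≤ K), 8 * (d : ℝ) * (2 * (s : ℝ) * L) ^ 3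
          ≤ ∑ d ∈ (Finset.Ioc 0 N).filter (fun d => d ≤ K), 8 * (K : ℝ) * (2 * (s : ℝ) * L) ^ 3 := by
            refine Finset.sum_le_sum fun d hd => ?_
            rw [mem_filter] at hd
            have : (d : ℝ) ≤ K := by exact_mod_cast hd.2
            have h0 : (0 : ℝ) ≤ (2 * (s : ℝ) * L) ^ 3 := by positivity
            exact mul_le_mul_of_nonneg_right (by linarith) h0
        _ = (((Finset.Ioc 0 N).filter fun d => d ≤ K).card : ℝ) * (8 * (K : ℝ) * (2 * (s : ℝ) * L) ^ 3) := by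
            rw [Finset.sum_const, nsmul_eq_mul]
        _ ≤ (K : ℝ) * (8 * (K : ℝ) * (2 * (s : ℝ) * L) ^ 3) := by
            refine mul_le_mul_of_nonneg_right ?_ (by positivity)
            exact_mod_cast hcard
        _ = _ := by ring
    · rw [← Finset.sum_filter]
      have hs : ((Finset.Ioc 0 N).filter fun d => K < d) = Finset.Ioc K N := by
        ext d
        rw [mem_filter, mem_Ioc, mem_Ioc]
        omega
      rw [hs, ← Finset.mul_sum]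
      calc 8 * (4 * (s : ℝ) ^ 2 * N) ^ 3 * ∑ d ∈ Finset.Ioc K N, 1 / (d : ℝ) ^ 2
          ≤ 8 * (4 * (s : ℝ) ^ 2 * N) ^ 3 * (1 / (K : ℝ)) :=
            mul_le_mul_of_nonneg_left (sum_inv_sq K N hK) (by positivity)
        _ = _ := by ring
  have h4 : ((∑ j : Fin L, ∑ k : Fin L, ∑ l : Fin L,
      ((S ×ˢ S ×ˢ S).filter fun z => B4 r c i j k l p z.1 z.2.1 z.2.2).card : ℕ) : ℝ) ≤
      ((∑ x ∈ X, (∑ j, f x j) ^ 3 : ℕ) : ℝ) := by exact_mod_cast h1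
  refine h4.trans (h2.trans ((mul_le_mul_of_nonneg_left h3 (by norm_num)).trans (le_of_eq ?_)))
  ring

end Pool.Agent.NKL
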