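import Pool.Agent.NKL.F2L
import Pool.Agent.NKL.F2P
import Pool.Agent.NKL.F2A
import Pool.Agent.NKL.F2Q
import Pool.Agent.NKL.F2X
import Pool.Agent.NKL.FQ4

set_option autoImplicit false

/-!
# NKL / F2N : exact sets from near-perfect sets, stage 2

`hE`: near-perfect sets exist (hypothesis, proved in `G2N`).
`δ = 1/256`, `β ≤ 1`, `a0 = (β/2) N`, `A i = avl2 s N ε η₂ S (r i) (c i)`,
`η₂ = β²/(32768 s⁴)`, `η = β η₂/(16 s)`, `K ≥ 2²² s⁶/β³`, `ε M ≤ β³/4096` with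
`M = 128 K² s³ + (1 + 4 s |Dir s| + s) + 2 s + 1`, `N` large, `d = sqrt N`.
-/

namespace Pool.Agent.NKL

open Finset

private theorem le_of_sq_le_sq' {a b : ℝ} (h : a ^ 2 ≤ b ^ 2) (hb : 0 ≤ b) : a ≤ b := by
  by_contra hc
  push Not at hc
  nlinarith

theorem fin2 (s : ℕ) (hs : 3 ≤ s)
    (hE : ∃ β : ℝ, 0 < β ∧ ∀ η : ℝ, 0 < η → ∃ ε₁ : ℝ, 0 < ε₁ ∧ ∀ ε : ℝ, 0 < ε → ε ≤ ε₁ →
      ∃ N₀ : ℕ, ∀ N ≥ N₀, ∃ S, Near2 s N ε β η S) :
    ∃ N₀ : ℕ, ∀ N ≥ N₀, ∃ T : Finset (ℤ × ℤ), T ⊆ grid N ∧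
    (∀ x : ℤ, 0 ≤ x → x < N → (T.filter fun p => p.1 = x).card = s) ∧
    (∀ y : ℤ, 0 ≤ y → y < N → (T.filter fun p => p.2 = y).card = s) ∧
    (∀ v : ℤ × ℤ, Skew v → ∀ l, (T.filter fun p => On v p = l).card ≤ s) := by
  classical
  obtain ⟨β₀, hβ₀, hE⟩ := hE
  set G : ℕ := (Dir s).card with hG
  have hs' : (3 : ℝ) ≤ s := by exact_mod_cast hs
  have hs0 : (0 : ℝ) < s := by linarith
  have hs1 : (1 : ℝ) ≤ s := by linarith
  have hGr : (0 : ℝ) ≤ G := Nat.cast_nonneg _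
  -- `β ≤ 1`
  set β : ℝ := min β₀ 1 with hβd
  have hβ : 0 < β := lt_min hβ₀ one_pos
  have hβ1 : β ≤ 1 := min_le_right _ _
  have hβ0 : β ≤ β₀ := min_le_left _ _
  have hβ2 : β ^ 2 ≤ β := by
    have : β * β ≤ β * 1 := mul_le_mul_of_nonneg_left hβ1 hβ.le
    calc β ^ 2 = β * β := by ring
      _ ≤ β := by linarith
  have hβ3 : β ^ 3 ≤ β := by
    have h1 : β ^ 2 * β ≤ β ^ 2 * 1 := mul_le_mul_of_nonneg_left hβ1 (by positivity)
    calc β ^ 3 = β ^ 2 * β := by ring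
      _ ≤ β := by linarith
  -- `η₂`, `η`
  set η₂ : ℝ := β ^ 2 / (32768 * (s : ℝ) ^ 4) with hη₂d
  have hη₂ : 0 < η₂ := by positivity
  have e1 : 32 * (s : ℝ) ^ 4 * η₂ = β ^ 2 / 1024 := by
    rw [hη₂d]
    field_simp
    norm_num
  have e2 : 8 * (s : ℝ) ^ 2 * η₂ ≤ β / 1024 := by
    have h1 : 8 * (s : ℝ) ^ 2 * η₂ ≤ 32 * (s : ℝ) ^ 4 * η₂ := by
      refine mul_le_mul_of_nonneg_right ?_ hη₂.le
      have h2 : (s : ℝ) ^ 2 * 1 ≤ (s : ℝ) ^ 2 * (s : ℝ) ^ 2 :=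
        mul_le_mul_of_nonneg_left (one_le_pow₀ hs1) (by positivity)
      have h3 : (s : ℝ) ^ 2 * (s : ℝ) ^ 2 = (s : ℝ) ^ 4 := by ring
      have h4 : (0 : ℝ) ≤ (s : ℝ) ^ 2 := by positivity
      linarith
    linarith
  set η : ℝ := β * η₂ / (16 * s) with hηd
  have hη : 0 < η := by positivity
  have e3 : 16 * (s : ℝ) * η ≤ β * η₂ := by
    rw [hηd]
    apply le_of_eq
    field_simp
  -- `K`
  obtain ⟨K₀, hK₀⟩ := exists_nat_ge (4194304 * (s : ℝ) ^ 6 / β ^ 3)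
  set K : ℕ := K₀ + 1 with hKd
  have hK : 1 ≤ K := by omega
  have hKr : 4194304 * (s : ℝ) ^ 6 / β ^ 3 ≤ (K : ℝ) := by
    rw [hKd]
    push_cast
    linarith
  have hK0 : (0 : ℝ) < K := by exact_mod_cast hK
  have e4 : 1024 * (s : ℝ) ^ 6 / K ≤ β ^ 3 / 4096 := by
    have hb3 : 0 < β ^ 3 := by positivity
    rw [div_le_iff₀ hb3] at hKr
    rw [div_le_iff₀ hK0]
    nlinarith [hKr]
  -- `ε`
  obtain ⟨ε₁, hε₁, hE⟩ := hE η hη
  set M : ℝ := 128 * (K : ℝ) ^ 2 * s ^ 3 + (1 + 4 * s * G + s) + 2 * s + 1 with hM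
  have hM1 : (1 : ℝ) ≤ M := by
    have h1 : (0 : ℝ) ≤ 128 * (K : ℝ) ^ 2 * s ^ 3 := by positivity
    have h2 : (0 : ℝ) ≤ 1 + 4 * s * G + s := by positivity
    linarith
  have hM0 : 0 < M := by linarith
  set ε : ℝ := min ε₁ (β ^ 3 / 4096 / M) with hεd
  have hε0 : 0 < ε := lt_min hε₁ (by positivity)
  have hεε : ε ≤ ε₁ := min_le_left _ _
  have hεM : M * ε ≤ β ^ 3 / 4096 := by
    have h1 : ε ≤ β ^ 3 / 4096 / M := min_le_right _ _
    rw [le_div_iff₀ hM0] at h1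
    linarith
  have hε1 : ε ≤ 1 := by
    have h1 : 1 * ε ≤ M * ε := mul_le_mul_of_nonneg_right hM1 hε0.le
    linarith
  have b1 : 128 * (K : ℝ) ^ 2 * s ^ 3 * ε ≤ β ^ 3 / 4096 := by
    refine le_trans (mul_le_mul_of_nonneg_right ?_ hε0.le) hεM
    have h3 : (0 : ℝ) ≤ 1 + 4 * s * G + s := by positivity
    linarith
  have b2 : 2 * (s : ℝ) * ε ≤ β ^ 3 / 4096 := by
    refine le_trans (mul_le_mul_of_nonneg_right ?_ hε0.le) hεM
    have h1 : (0 : ℝ) ≤ 128 * (K : ℝ) ^ 2 * s ^ 3 := by positivity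
    have h3 : (0 : ℝ) ≤ 1 + 4 * s * G + s := by positivity
    linarith
  have b3 : (1 + 4 * (s : ℝ) * G + s) * ε ≤ β ^ 3 / 4096 := by
    refine le_trans (mul_le_mul_of_nonneg_right ?_ hε0.le) hεM
    have h1 : (0 : ℝ) ≤ 128 * (K : ℝ) ^ 2 * s ^ 3 := by positivity
    linarith
  obtain ⟨N₁, hN₁⟩ := hE ε hε0 hεε
  -- `N` large
  set cc : ℝ := β * ε / (64 * (s : ℝ) ^ 2) with hcc
  have hcc0 : 0 < cc := by positivity
  obtain ⟨N₂, hN₂⟩ := exists_nat_ge (8 * (2 * (s : ℝ) ^ 2 + s * G) / β)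
  obtain ⟨N₃, hN₃⟩ := exists_nat_ge (8192 * (s : ℝ) ^ 2 / β)
  obtain ⟨N₄, hN₄⟩ := exists_nat_ge (1 / cc ^ 2)
  refine ⟨N₁ + N₂ + N₃ + N₄ + 1, fun N hN => ?_⟩
  obtain ⟨S, hS₀⟩ := hN₁ N (by omega)
  have hN' : ((N₁ : ℝ) + N₂ + N₃ + N₄ + 1) ≤ N := by exact_mod_cast hN
  have hN1' : (0 : ℝ) ≤ N₁ := Nat.cast_nonneg _
  have hN2' : (0 : ℝ) ≤ N₂ := Nat.cast_nonneg _
  have hN3' : (0 : ℝ) ≤ N₃ := Nat.cast_nonneg _
  have hN4' : (0 : ℝ) ≤ N₄ := Nat.cast_nonneg _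
  have hN1 : (1 : ℝ) ≤ N := by linarith
  have hN0 : (0 : ℝ) < N := by linarith
  have c1 : 2 * (s : ℝ) ^ 2 + s * G ≤ β / 8 * N := by
    have h1 : 8 * (2 * (s : ℝ) ^ 2 + s * G) / β ≤ N := by linarith
    rw [div_le_iff₀ hβ] at h1
    linarith
  have c2 : 4 * (s : ℝ) ^ 2 ≤ β / 2048 * N := by
    have h1 : 8192 * (s : ℝ) ^ 2 / β ≤ N := by linarith
    rw [div_le_iff₀ hβ] at h1
    linarith
  have c3 : 1 ≤ cc ^ 2 * N := by
    have h1 : 1 / cc ^ 2 ≤ N := by linarith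
    rw [div_le_iff₀ (by positivity)] at h1
    linarith
  have hS : Near2 s N ε β η S :=
    ⟨hS₀.near, hS₀.card', fun r c h1 h2 h3 h4 =>
      le_trans (mul_le_mul_of_nonneg_right hβ0 hN0.le) (hS₀.avail r c h1 h2 h3 h4),
      hS₀.dsum, hS₀.deg⟩
  obtain ⟨L, r, c, hD₀⟩ := fsq hS.near
  -- the number of missing points
  have hLr : (L : ℝ) + S.card = s * N := by exact_mod_cast hD₀.L_eq
  have hL : (L : ℝ) ≤ ε * N := by
    have h2 := hS.near.card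
    linarith
  have hL2 : ε / 2 * N ≤ L := by
    have h2 := hS.card'
    linarith
  have hL0 : (0 : ℝ) ≤ L := Nat.cast_nonneg _
  -- the pairing
  have hdg : ∀ z ∈ grid N, deg2 N S z ≤ Nat.sqrt N := by
    intro z hz
    rw [Nat.le_sqrt']
    have h1 := hS.deg z hz
    rcases Nat.eq_zero_or_pos (deg2 N S z) with h0 | h0
    · rw [h0]; simp
    · exact le_trans (Nat.pow_le_pow_right h0 (by norm_num)) h1
  have hd2 : ((Nat.sqrt N : ℕ) : ℝ) ^ 2 ≤ N := by exact_mod_cast Nat.sqrt_le' N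
  have hdc : ((Nat.sqrt N : ℕ) : ℝ) ≤ cc * N := by
    have h1 : ((Nat.sqrt N : ℕ) : ℝ) ^ 2 ≤ (cc * N) ^ 2 := by
      calc ((Nat.sqrt N : ℕ) : ℝ) ^ 2 ≤ N := hd2
        _ = 1 * N := (one_mul _).symm
        _ ≤ (cc ^ 2 * N) * N := mul_le_mul_of_nonneg_right c3 hN0.le
        _ = (cc * N) ^ 2 := by ring
    exact le_of_sq_le_sq' h1 (by positivity)
  obtain ⟨σ, hσ⟩ := pairing hS hβ hD₀ hdg (by
    have h1 : 32 * (s : ℝ) ^ 2 * ((Nat.sqrt N : ℕ) : ℝ) ≤ 32 * (s : ℝ) ^ 2 * (cc * N) :=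
      mul_le_mul_of_nonneg_left hdc (by positivity)
    have h2 : 32 * (s : ℝ) ^ 2 * (cc * N) = β * (ε / 2 * N) := by
      rw [hcc]
      field_simp
      norm_num
    have h3 : β * (ε / 2 * N) ≤ β * L := mul_le_mul_of_nonneg_left hL2 hβ.le
    linarith)
  have hD : Def s N L S r (fun i => c (σ i)) := def_perm hD₀ σ
  set c' : Fin L → ℤ := fun i => c (σ i) with hc'
  set a0 : ℝ := β / 2 * N with ha0d
  have ha0 : 0 < a0 := by positivity
  have hsG : 2 * (s : ℝ) ^ 2 + s * ((Dir s).card : ℝ) ≤ β / 8 * N := c1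
  have ha : ∀ i, a0 ≤ ((avl2 s N ε η₂ S (r i) (c' i)).card : ℝ) := by
    intro i
    exact avl2_card hS hε0.le hβ hη₂ e3 hsG (hD.r_mem i).1 (hD.r_mem i).2 (hD.c_mem i).1
      (hD.c_mem i).2 (hσ i)
  have hLLL : (L : ℝ) ^ 3 ≤ ε * N ^ 3 := by
    have h1 : (L : ℝ) ^ 3 ≤ (ε * N) ^ 3 := pow_le_pow_left₀ hL0 hL 3
    have h2 : (ε * (N : ℝ)) ^ 3 = ε * N ^ 3 * ε ^ 2 := by ring
    have h4 : ε ^ 2 ≤ 1 := pow_le_one₀ hε0.le hε1
    have h3 : ε * (N : ℝ) ^ 3 * ε ^ 2 ≤ ε * N ^ 3 * 1 := mul_le_mul_of_nonneg_left h4 (by positivity)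
    linarith
  have h2sL : 2 * (s : ℝ) * L ≤ 1 / 256 * a0 := by
    have h1 : 2 * (s : ℝ) * L ≤ 2 * (s : ℝ) * (ε * N) := mul_le_mul_of_nonneg_left hL (by positivity)
    have h2 : 2 * (s : ℝ) * (ε * N) = 2 * (s : ℝ) * ε * N := by ring
    have h3 : 2 * (s : ℝ) * ε * N ≤ β ^ 3 / 4096 * N := mul_le_mul_of_nonneg_right b2 hN0.le
    have h4 : β ^ 3 / 4096 * N ≤ β / 512 * N := mul_le_mul_of_nonneg_right (by linarith) hN0.le
    have h5 : 1 / 256 * a0 = β / 512 * N := by rw [ha0d]; ring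
    linarith
  obtain ⟨ω, w1, w2, wa, w3, w4⟩ := ll5 S (fun i : Fin L => avl2 s N ε η₂ S (r i) (c' i))
    (fun i => (avl2_sub s N ε η₂ S _ _).trans (avl_sub s S _ _)) ha0 ha
    (δ := 1 / 256) le_rfl (fun i j p q => B2 s r c' i j p q ∨ B2s s S r c' i j p q) (B2a r c')
    (B3s s S r c') (B4 r c')
    (fun i j p q h => h.elim (fun h => Or.inl (B2_symm s r c' i j p q h))
      (fun h => Or.inr (B2s_symm s S r c' i j p q h)))
    (fun i j k p q u h => B3s_perm s S r c' i j k p q u h)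
    (fun i j k l p q u w h => B4_swap r c' i j k l p q u w h)
    (by
      intro i p hp
      have h1 := fq2 hS.near hD i (avl2_sub s N ε η₂ S _ _ hp)
      have h2 : ((∑ j : Fin L, (S.filter fun q => B2 s r c' i j p q).card : ℕ) : ℝ) ≤
          L + 4 * s ^ 2 + 4 * s * G * L + s * L := by exact_mod_cast h1
      have h3 := fq2s (r := r) (c := c') hS hε0.le (by omega) hD i hp
      have h4 : ∑ j : Fin L, (S.filter fun q => B2 s r c' i j p q ∨ B2s s S r c' i j p q).card ≤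
          ∑ j : Fin L, (S.filter fun q => B2 s r c' i j p q).card +
          ∑ j : Fin L, (S.filter fun q => B2s s S r c' i j p q).card := by
        rw [← Finset.sum_add_distrib]
        apply Finset.sum_le_sum
        intro j _
        rw [Finset.filter_or]
        exact Finset.card_union_le _ _
      have h5 : ((∑ j : Fin L, (S.filter fun q => B2 s r c' i j p q ∨ B2s s S r c' i j p q).card : ℕ) : ℝ)
          ≤ ((∑ j : Fin L, (S.filter fun q => B2 s r c' i j p q).card : ℕ) : ℝ) +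
          ((∑ j : Fin L, (S.filter fun q => B2s s S r c' i j p q).card : ℕ) : ℝ) := by
        exact_mod_cast h4
      refine le_trans (le_of_eq ?_) (h5.trans ?_)
      · congr!
      have h6 : (L : ℝ) + 4 * s ^ 2 + 4 * s * G * L + s * L =
          (1 + 4 * (s : ℝ) * G + s) * L + 4 * s ^ 2 := by ring
      have h7 : (1 + 4 * (s : ℝ) * G + s) * L ≤ (1 + 4 * (s : ℝ) * G + s) * (ε * N) :=
        mul_le_mul_of_nonneg_left hL (by positivity)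
      have h8 : (1 + 4 * (s : ℝ) * G + s) * (ε * N) = (1 + 4 * (s : ℝ) * G + s) * ε * N := by ring
      have h9 : (1 + 4 * (s : ℝ) * G + s) * ε * N ≤ β ^ 3 / 4096 * N :=
        mul_le_mul_of_nonneg_right b3 hN0.le
      have h10 : β ^ 3 / 4096 * N ≤ β / 2048 * N := mul_le_mul_of_nonneg_right (by linarith) hN0.le
      have h11 : 8 * (s : ℝ) ^ 2 * η₂ * N ≤ β / 1024 * N := mul_le_mul_of_nonneg_right e2 hN0.le
      have h12 : 1 / 256 * a0 = β / 512 * N := by rw [ha0d]; ring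
      rw [h12]
      linarith)
    (by
      intro i p hp
      have h1 := fq2a (r := r) (c := c') hS i hp
      have h2 : ((∑ j : Fin L, (S.filter fun q => B2a r c' i j p q).card : ℕ) : ℝ) ≤
          2 * s * L := by exact_mod_cast h1
      exact h2.trans h2sL)
    (by
      intro i j p hp
      have h1 := fq2b (r := r) (c := c') hS i j hp
      have h2 : (((S.filter fun q => B2a r c' i j p q).card : ℕ) : ℝ) ≤ 2 * s := by exact_mod_cast h1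
      rw [Fintype.card_fin]
      refine (mul_le_mul_of_nonneg_left h2 hL0).trans ?_
      have h3 : (L : ℝ) * (2 * s) = 2 * s * L := by ring
      rw [h3]
      exact h2sL)
    (by
      intro i p hp
      have h1 := fq3s (r := r) (c := c') hS hε0.le (by omega) hD i hp
      refine h1.trans (le_of_eq ?_)
      have h2 : 32 * (s : ℝ) ^ 4 * η₂ * N ^ 2 = β ^ 2 / 1024 * N ^ 2 := by rw [e1]
      rw [h2, ha0d]
      ring)
    (by
      intro i p hp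
      have h1 := fq4 hS.near hD i (avl2_sub s N ε η₂ S _ _ hp) K hK
      refine h1.trans ?_
      have h2 : 1024 * (s : ℝ) ^ 6 * N ^ 3 / K ≤ β ^ 3 / 4096 * N ^ 3 := by
        have h3 : 1024 * (s : ℝ) ^ 6 * N ^ 3 / K = 1024 * (s : ℝ) ^ 6 / K * N ^ 3 := by ring
        rw [h3]
        exact mul_le_mul_of_nonneg_right e4 (by positivity)
      have h3 : 128 * (K : ℝ) ^ 2 * s ^ 3 * L ^ 3 ≤ 128 * (K : ℝ) ^ 2 * s ^ 3 * (ε * N ^ 3) :=
        mul_le_mul_of_nonneg_left hLLL (by positivity)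
      have h4 : 128 * (K : ℝ) ^ 2 * s ^ 3 * (ε * N ^ 3) = 128 * (K : ℝ) ^ 2 * s ^ 3 * ε * N ^ 3 := by ring
      have h5 : 128 * (K : ℝ) ^ 2 * s ^ 3 * ε * N ^ 3 ≤ β ^ 3 / 4096 * N ^ 3 :=
        mul_le_mul_of_nonneg_right b1 (by positivity)
      have h6 : 1 / 256 * a0 ^ 3 = β ^ 3 / 4096 * N ^ 3 + β ^ 3 / 4096 * N ^ 3 := by
        rw [ha0d]; ring
      rw [h6]
      linarith)
  have w2' : ∀ i j, i ≠ j → ¬ B2 s r c' i j (ω i) (ω j) := fun i j hij h => w2 i j hij (Or.inl h)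
  have w2s : ∀ i j, i ≠ j → ¬ B2s s S r c' i j (ω i) (ω j) := fun i j hij h => w2 i j hij (Or.inr h)
  have w1' : ∀ i, ω i ∈ avl s S (r i) (c' i) := fun i => avl2_sub s N ε η₂ S _ _ (w1 i)
  exact ⟨xch S r c' ω, x2_sub hS.near hD ω w1', x2_col hS.near hD ω w1' w2',
    x2_row hS.near hD ω w1' w2',
    fun v hv l => x2_skew hs hS.near hD ω w1 w2' w2s wa w3 w4 hv l⟩

end Pool.Agent.NKL
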