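import Pool.Agent.NKL.GDefs

set_option autoImplicit false

/-!
# NKL / FDefs : the exchange (definitions only)

A row coordinate `r` and a column coordinate `c` with a missing point are repaired by removing a
point `p` of `S` and adding the two cells `(r, p.2)` and `(p.1, c)`.
-/

namespace Pool.Agent.NKL

open Finset

/-- the two new cells -/
def sl (r c : ℤ) (β : Bool) (p : ℤ × ℤ) : ℤ × ℤ := if β then (r, p.2) else (p.1, c)

/-- primitive directions which are neither horizontal nor vertical -/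
def Skew (v : ℤ × ℤ) : Prop := Int.gcd v.1 v.2 = 1 ∧ v.1 ≠ 0 ∧ v.2 ≠ 0

open Classical in
/-- the points which may be removed -/
noncomputable def avl (s : ℕ) (S : Finset (ℤ × ℤ)) (r c : ℤ) : Finset (ℤ × ℤ) :=
  S.filter fun p => (r, p.2) ∉ S ∧ (p.1, c) ∉ S ∧ ∀ v ∈ Dir s, On v (r, p.2) ≠ On v (p.1, c)

variable {ι : Type}

/-- conflicts between two exchanges: same removed point, a common new cell, two new cells on a line
of small height, or all four new cells on a line -/
def B2 (s : ℕ) (r c : ι → ℤ) (i j : ι) (p q : ℤ × ℤ) : Prop :=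
  p = q ∨ (∃ β γ, sl (r i) (c i) β p = sl (r j) (c j) γ q) ∨
  (∃ β γ, ∃ v ∈ Dir s, v.1 ≠ 0 ∧ v.2 ≠ 0 ∧
    On v (sl (r i) (c i) β p) = On v (sl (r j) (c j) γ q)) ∨
  (∃ v, Skew v ∧ On v (sl (r i) (c i) false p) = On v (sl (r i) (c i) true p) ∧
    ∀ γ, On v (sl (r j) (c j) γ q) = On v (sl (r i) (c i) true p))

/-- both new cells of `i` and a new cell of `j` and of `k` on a line -/
def B3 (r c : ι → ℤ) (i j k : ι) (p q u : ℤ × ℤ) : Prop :=
  ∃ v, Skew v ∧ On v (sl (r i) (c i) false p) = On v (sl (r i) (c i) true p) ∧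
    (∃ γ, On v (sl (r j) (c j) γ q) = On v (sl (r i) (c i) true p)) ∧
    (∃ γ, On v (sl (r k) (c k) γ u) = On v (sl (r i) (c i) true p))

/-- four different new cells of four exchanges on a line -/
def B4 (r c : ι → ℤ) (i j k l : ι) (p q u w : ℤ × ℤ) : Prop :=
  ∃ β₁ β₂ β₃ β₄, [sl (r i) (c i) β₁ p, sl (r j) (c j) β₂ q, sl (r k) (c k) β₃ u,
      sl (r l) (c l) β₄ w].Nodup ∧
    ∃ v, Skew v ∧ On v (sl (r j) (c j) β₂ q) = On v (sl (r i) (c i) β₁ p) ∧
      On v (sl (r k) (c k) β₃ u) = On v (sl (r i) (c i) β₁ p) ∧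
      On v (sl (r l) (c l) β₄ w) = On v (sl (r i) (c i) β₁ p)

/-- the missing points: `r` and `c` list the coordinates of the rows and columns with multiplicity -/
structure Def (s N L : ℕ) (S : Finset (ℤ × ℤ)) (r c : Fin L → ℤ) : Prop where
  L_eq : L + S.card = s * N
  r_mem : ∀ i, 0 ≤ r i ∧ r i < N
  c_mem : ∀ i, 0 ≤ c i ∧ c i < N
  r_cnt : ∀ x : ℤ, 0 ≤ x → x < N →
    (univ.filter fun i => r i = x).card + (S.filter fun p => p.1 = x).card = s
  c_cnt : ∀ y : ℤ, 0 ≤ y → y < N →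
    (univ.filter fun i => c i = y).card + (S.filter fun p => p.2 = y).card = s

end Pool.Agent.NKL
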