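import Pool.Agent.NKL.CHU
import Pool.Agent.NKL.ACC

set_option autoImplicit false

/-!
# NKL / HYP : the standing assumptions of the nibble (definitions only)

`θ` = step, `R` = number of rounds, `b` = bound for the number of directions, `s` = bound for the
capacities, `φ` = lower bound for all `FF`, `W` = bound for the normalised proposal densities.
-/

namespace Pool.Agent.NKL

open Finset Pool.Agent.ChPi

variable {α V Λ : Type} [Fintype α] [DecidableEq α] [Fintype V] [DecidableEq V] [DecidableEq Λ]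
  {N : ℕ}

structure Sys.Hyp (Y : Sys α V Λ N) (θ : ℝ) (R b s : ℕ) (φ W : ℝ) : Prop where
  ok : Y.Ok
  cardV : Fintype.card V ≤ b
  b1 : 1 ≤ b
  N1 : 1 ≤ N
  cap_le : ∀ v, Y.cap v ≤ s
  ch : ∀ v l, ChOk θ (Y.mass v l) (Y.cap v) R φ
  θ0 : 0 < θ
  θφ : 2 * θ ≤ φ
  φ0 : 0 < φ
  φ1 : φ ≤ 1
  wb : ∀ i ≤ R, ∀ p, Y.f p * ∏ v, (FF θ (Y.mass v (Y.line v p)) (Y.cap v) i)⁻¹ ≤ W
  W0 : 0 ≤ W
  θW : θ * W ≤ 1

/-- the constant of the error recursion -/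
noncomputable def CC (b s : ℕ) (φ : ℝ) : ℝ :=
  2 * (φ⁻¹) ^ b * (36 * (b : ℝ) ^ 2 / φ ^ 2 + 2 * (b : ℝ) ^ 2 + 2 * b * s + 4 * 2 ^ b / φ ^ 2
    + 2 * b / φ) + 1

theorem CC_pos (b s : ℕ) {φ : ℝ} (hφ : 0 < φ) : 0 < CC b s φ := by
  unfold CC; positivity

end Pool.Agent.NKL
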