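import Pool.Agent.NKL.GD4
import Pool.Agent.NKL.CHB
import Pool.Agent.NKL.HYP

set_option autoImplicit false

/-!
# NKL / GD5 : the normalised densities are bounded independently of `D`

`t = s - ε₀`, `φ = ε₀/(25 s)`, `θ = t/R` with `R ≥ R₁ := ⌈50 s²/ε₀⌉` (so that `2θ ≤ φ`), `i ≤ R`.
Directions with `hgt v ≤ s`: `FF⁻¹ ≤ φ⁻¹` (`FF_ge` with `ChOk θ mass cap R φ`: the mass condition is
`mass_cond`, `step`: `θ mass ≤ 2θ ≤ φ`); there are `(Dir s).card` of them (`dir_filter`; if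
`D < s` there are at most that many).
Directions with `d = hgt v > s`: `cap = 3`, `ChOk θ mass 3 R (1/2)` (`far_mass`: `t mass ≤ 3/2`), so
`FF ≥ 1/2` and by `FF_far` `1 - FF ≤ (2 t mass)^3 ≤ (24/5 s/d)^3 ≤ 111 s³/d³`, hence
`FF⁻¹ ≤ 1 + 2 (1 - FF) ≤ exp(222 s³/d³)`.  The product over these directions is at most
`exp(∑_{d > s} 8 d * 222 s³/d³) ≤ exp(1776 s³ ∑_{d>s} 1/d²) ≤ exp(1776 s²)` (`sum_dir`,
`sum_inv_sq`; `Real.exp_sum`).  With `f ≤ 6/5 ≤ 2`: `W = 2 φ^{-|Dir s|} exp(1776 s²)`.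
-/

namespace Pool.Agent.NKL

open Finset

variable {s c₁ n D N : ℕ}

private theorem gd5_mass (Y : Sys (Cell n) {v : ℤ × ℤ // v ∈ Dir D} ℤ N) (hY : Y.Ok)
    (v : {v : ℤ × ℤ // v ∈ Dir D}) (l : ℤ) : 0 ≤ Y.mass v l ∧ Y.mass v l ≤ 2 := by
  unfold Sys.mass
  have h1 : 0 ≤ ∑ p ∈ Y.cells v l, Y.f p := sum_nonneg fun p _ => hY.f_nonneg p
  refine ⟨div_nonneg h1 (Nat.cast_nonneg _), ?_⟩
  have h2 : ∑ p ∈ Y.cells v l, Y.f p ≤ 2 * N := by
    have h3 : ∑ p ∈ Y.cells v l, Y.f p ≤ ∑ _p ∈ Y.cells v l, (2 : ℝ) :=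
      sum_le_sum fun p _ => hY.f_le p
    rw [sum_const, nsmul_eq_mul] at h3
    have h4 : ((Y.cells v l).card : ℝ) ≤ N := by
      have h5 : (Y.cells v l).card ≤ N := hY.len v l
      exact_mod_cast h5
    linarith
  exact div_le_of_le_mul₀ (Nat.cast_nonneg _) (by norm_num) h2

private theorem gd5_inv {F : ℝ} (h1 : 1 / 2 ≤ F) (h2 : F ≤ 1) : F⁻¹ ≤ Real.exp (2 * (1 - F)) := by
  have h0 : 0 < F := by linarith
  have h3 : F⁻¹ ≤ 2 * (1 - F) + 1 := by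
    rw [inv_le_iff_one_le_mul₀ h0]
    nlinarith
  exact le_trans h3 (Real.add_one_le_exp _)

private theorem gd5_far_cap {v : ℤ × ℤ} (hs : 3 ≤ s) (hm : v ∈ Dir D) (hv : s < hgt v) :
    capf s c₁ v = 3 := by
  have hg := dir_gcd hm
  unfold capf
  rw [if_neg, if_neg (not_le.mpr hv)]
  rintro (hh | hh)
  · rw [hh, Int.gcd_zero_left] at hg
    have : hgt v = 1 := by
      unfold hgt
      rw [hh, hg]
      norm_num
    omega
  · rw [hh, Int.gcd_zero_right] at hg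
    have : hgt v = 1 := by
      unfold hgt
      rw [hh, hg]
      norm_num
    omega

private theorem gd5_sub : (Dir D).filter (fun v => hgt v ≤ s) ⊆ Dir s := by
  intro v hv
  have hm := (mem_filter.mp hv).1
  have hh := (mem_filter.mp hv).2
  unfold Dir at hm ⊢
  rw [mem_filter, mem_product, mem_Icc, mem_Icc] at hm ⊢
  unfold hgt at hh
  have h1 := le_trans (le_max_left v.1.natAbs v.2.natAbs) hh
  have h2 := le_trans (le_max_right v.1.natAbs v.2.natAbs) hh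
  refine ⟨⟨⟨hm.1.1.1, by omega⟩, ⟨by omega, by omega⟩⟩, hm.2⟩

private noncomputable def gd5G (s : ℕ) (φ : ℝ) (v : ℤ × ℤ) : ℝ :=
  if hgt v ≤ s then φ⁻¹ else Real.exp (222 * (s : ℝ) ^ 3 / (hgt v : ℝ) ^ 3)

private theorem gd5_prod (hs : 3 ≤ s) {φ : ℝ} (hφ : 0 < φ) (hφ1 : φ ≤ 1) :
    ∏ v ∈ Dir D, gd5G s φ v ≤ (φ⁻¹) ^ (Dir s).card * Real.exp (1776 * (s : ℝ) ^ 2) := by
  rw [← prod_filter_mul_prod_filter_not (Dir D) (fun v => hgt v ≤ s)]
  have h1 : ∏ v ∈ (Dir D).filter (fun v => hgt v ≤ s), gd5G s φ v ≤ (φ⁻¹) ^ (Dir s).card := by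
    rw [prod_congr rfl (g := fun _ => φ⁻¹) (fun v hv => by
      unfold gd5G
      rw [if_pos (mem_filter.mp hv).2]), prod_const]
    exact pow_le_pow_right₀ ((one_le_inv₀ hφ).mpr hφ1) (card_le_card gd5_sub)
  have h2 : ∏ v ∈ (Dir D).filter (fun v => ¬ hgt v ≤ s), gd5G s φ v ≤
      Real.exp (1776 * (s : ℝ) ^ 2) := by
    rw [prod_congr rfl (g := fun v => Real.exp (222 * (s : ℝ) ^ 3 / (hgt v : ℝ) ^ 3)) (fun v hv => by
      unfold gd5G
      rw [if_neg (mem_filter.mp hv).2]), ← Real.exp_sum]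
    refine Real.exp_le_exp.mpr ?_
    have h3 := sum_dir D s (fun d => 222 * (s : ℝ) ^ 3 / (d : ℝ) ^ 3) (fun d => by positivity)
    have h4 : (Dir D).filter (fun v => ¬ hgt v ≤ s) = (Dir D).filter (fun v => s < hgt v) :=
      filter_congr fun v _ => not_le
    rw [h4]
    refine le_trans h3 ?_
    have h5 : ∑ d ∈ Finset.Ioc s D, 8 * (d : ℝ) * (222 * (s : ℝ) ^ 3 / (d : ℝ) ^ 3) =
        1776 * (s : ℝ) ^ 3 * ∑ d ∈ Finset.Ioc s D, 1 / (d : ℝ) ^ 2 := by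
      rw [mul_sum]
      refine sum_congr rfl fun d hd => ?_
      have hd0 : (0 : ℝ) < d := by
        have := (mem_Ioc.mp hd).1
        have h6 : 0 < d := by omega
        exact_mod_cast h6
      field_simp
      ring
    rw [h5]
    have h6 := sum_inv_sq s D (by omega)
    have hs0 : (0 : ℝ) < s := by
      have : 0 < s := by omega
      exact_mod_cast this
    calc 1776 * (s : ℝ) ^ 3 * ∑ d ∈ Finset.Ioc s D, 1 / (d : ℝ) ^ 2
        ≤ 1776 * (s : ℝ) ^ 3 * (1 / (s : ℝ)) := mul_le_mul_of_nonneg_left h6 (by positivity)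
      _ = 1776 * (s : ℝ) ^ 2 := by
        field_simp
  have h0 : 0 ≤ ∏ v ∈ (Dir D).filter (fun v => ¬ hgt v ≤ s), gd5G s φ v := by
    refine prod_nonneg fun v _ => ?_
    unfold gd5G
    split_ifs
    · exact inv_nonneg.mpr hφ.le
    · exact (Real.exp_pos _).le
  exact mul_le_mul h1 h2 h0 (pow_nonneg (inv_nonneg.mpr hφ.le) _)

theorem wbound (hs : 3 ≤ s) (hc : 5 * s ≤ 6 * c₁) {ε₀ : ℝ} (hε : 0 < ε₀) (hε1 : ε₀ ≤ 1)
    (hn : 1 ≤ n) (h : 4 * n ≤ N) (hD : 1 ≤ D) (hDN : D ≤ N) (hN : 12 * s ≤ N)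
    {R : ℕ} (hR : 50 * (s : ℝ) ^ 2 / ε₀ ≤ R) {i : ℕ} (hi : i ≤ R) (p : Cell n) :
    (gsys s c₁ n D N h hD).f p * ∏ v, (FF (((s : ℝ) - ε₀) / R)
        ((gsys s c₁ n D N h hD).mass v ((gsys s c₁ n D N h hD).line v p))
        ((gsys s c₁ n D N h hD).cap v) i)⁻¹
      ≤ 2 * ((ε₀ / (25 * s))⁻¹) ^ (Dir s).card * Real.exp (1776 * (s : ℝ) ^ 2) := by
  have hY : (gsys s c₁ n D N h hD).Ok := gsys_ok hs (by omega) hn h hD
  have hsr : (3 : ℝ) ≤ s := by exact_mod_cast hs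
  have hφ : 0 < ε₀ / (25 * s) := by positivity
  have hφ1 : ε₀ / (25 * s) ≤ 1 := by
    rw [div_le_one (by positivity)]
    linarith
  have hφ2 : ε₀ / (25 * s) ≤ 1 / 2 := by
    rw [div_le_iff₀ (by positivity)]
    linarith
  have hR0 : (0 : ℝ) < R := by
    refine lt_of_lt_of_le ?_ hR
    positivity
  have hθR : (((s : ℝ) - ε₀) / R) * R = (s : ℝ) - ε₀ := div_mul_cancel₀ _ hR0.ne'
  have hθ0 : 0 ≤ ((s : ℝ) - ε₀) / R := div_nonneg (by linarith) hR0.le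
  have h2θ : 2 * (((s : ℝ) - ε₀) / R) ≤ ε₀ / (25 * s) := by
    have h1 : 50 * (s : ℝ) ^ 2 ≤ R * ε₀ := (div_le_iff₀ hε).mp hR
    rw [← mul_div_assoc, div_le_div_iff₀ hR0 (by positivity)]
    nlinarith
  have hstep : ∀ (v : {v : ℤ × ℤ // v ∈ Dir D}) (l : ℤ),
      (((s : ℝ) - ε₀) / R) * (gsys s c₁ n D N h hD).mass v l ≤ ε₀ / (25 * s) := by
    intro v l
    have h1 := gd5_mass (gsys s c₁ n D N h hD) hY v l
    refine le_trans ?_ h2θ
    rw [mul_comm 2 (((s : ℝ) - ε₀) / R)]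
    exact mul_le_mul_of_nonneg_left h1.2 hθ0
  have hch : ∀ (v : {v : ℤ × ℤ // v ∈ Dir D}) (l : ℤ),
      ChOk (((s : ℝ) - ε₀) / R) ((gsys s c₁ n D N h hD).mass v l)
        ((gsys s c₁ n D N h hD).cap v) R (ε₀ / (25 * s)) := by
    intro v l
    refine ⟨hθ0, (gd5_mass (gsys s c₁ n D N h hD) hY v l).1, hY.cap_pos v, hφ, hφ1, ?_, hstep v l⟩
    rw [hθR]
    exact mass_cond hs hc hε hε1 hn h hD hDN hN v l
  have hF0 : ∀ v : {v : ℤ × ℤ // v ∈ Dir D}, 0 < FF (((s : ℝ) - ε₀) / R)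
        ((gsys s c₁ n D N h hD).mass v ((gsys s c₁ n D N h hD).line v p))
        ((gsys s c₁ n D N h hD).cap v) i := fun v =>
    lt_of_lt_of_le hφ (FF_ge (hch v _) hi)
  have hG : ∀ v : {v : ℤ × ℤ // v ∈ Dir D}, (FF (((s : ℝ) - ε₀) / R)
        ((gsys s c₁ n D N h hD).mass v ((gsys s c₁ n D N h hD).line v p))
        ((gsys s c₁ n D N h hD).cap v) i)⁻¹ ≤ gd5G s (ε₀ / (25 * s)) v.1 := by
    intro v
    unfold gd5G
    by_cases hv : hgt v.1 ≤ s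
    · rw [if_pos hv]
      exact inv_anti₀ hφ (FF_ge (hch v _) hi)
    · rw [if_neg hv]
      have hv' : s < hgt v.1 := not_le.mp hv
      have hcap : (gsys s c₁ n D N h hD).cap v = 3 := gd5_far_cap hs v.2 hv'
      rw [hcap]
      obtain ⟨m, hm⟩ : ∃ m, m = (gsys s c₁ n D N h hD).mass v ((gsys s c₁ n D N h hD).line v p) :=
        ⟨_, rfl⟩
      have hfm := far_mass (c₁ := c₁) hs (t := (s : ℝ) - ε₀) (by linarith) (by linarith) hn h hD hDN hN v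
        ((gsys s c₁ n D N h hD).line v p) hv'
      have hst := hstep v ((gsys s c₁ n D N h hD).line v p)
      have hm0 := (gd5_mass (gsys s c₁ n D N h hD) hY v ((gsys s c₁ n D N h hD).line v p)).1
      rw [← hm] at hfm hst hm0 ⊢
      have hch3 : ChOk (((s : ℝ) - ε₀) / R) m 3 R (1 / 2) := by
        refine ⟨hθ0, hm0, by norm_num, by norm_num, by norm_num, ?_, le_trans hst hφ2⟩
        rw [hθR]
        refine le_trans hfm.1 ?_
        norm_num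
      refine le_trans (gd5_inv (FF_ge hch3 hi) (FF_le hch3 hi)) (Real.exp_le_exp.mpr ?_)
      have h1 := FF_far hch3 hi
      have hd0 : (0 : ℝ) < (hgt v.1 : ℝ) := by
        have : 0 < hgt v.1 := by omega
        exact_mod_cast this
      have h2 : 2 * (((s : ℝ) - ε₀) / R) * R * m = 2 * (((s : ℝ) - ε₀) * m) := by
        rw [mul_assoc 2 (((s : ℝ) - ε₀) / R) (R : ℝ), hθR]
        ring
      rw [h2] at h1
      have h3 : 0 ≤ 2 * (((s : ℝ) - ε₀) * m) :=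
        mul_nonneg (by norm_num) (mul_nonneg (by linarith) hm0)
      have h4 : 2 * (((s : ℝ) - ε₀) * m) ≤ 24 / 5 * s / (hgt v.1 : ℝ) := by
        have h5 := hfm.2
        calc 2 * (((s : ℝ) - ε₀) * m) ≤ 2 * (12 / 5 * s / (hgt v.1 : ℝ)) := by linarith
          _ = 24 / 5 * s / (hgt v.1 : ℝ) := by ring
      have h6 : (2 * (((s : ℝ) - ε₀) * m)) ^ 3 ≤ (24 / 5 * s / (hgt v.1 : ℝ)) ^ 3 :=
        pow_le_pow_left₀ h3 h4 3
      have h7 : (24 / 5 * s / (hgt v.1 : ℝ)) ^ 3 ≤ 111 * (s : ℝ) ^ 3 / (hgt v.1 : ℝ) ^ 3 := by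
        rw [div_pow, mul_pow]
        refine div_le_div_of_nonneg_right ?_ (by positivity)
        refine mul_le_mul_of_nonneg_right (by norm_num) (by positivity)
      have h8 : 222 * (s : ℝ) ^ 3 / (hgt v.1 : ℝ) ^ 3 = 2 * (111 * (s : ℝ) ^ 3 / (hgt v.1 : ℝ) ^ 3) := by
        ring
      rw [h8]
      linarith
  have hprod : ∏ v, (FF (((s : ℝ) - ε₀) / R)
        ((gsys s c₁ n D N h hD).mass v ((gsys s c₁ n D N h hD).line v p))
        ((gsys s c₁ n D N h hD).cap v) i)⁻¹ ≤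
      ((ε₀ / (25 * s))⁻¹) ^ (Dir s).card * Real.exp (1776 * (s : ℝ) ^ 2) := by
    refine le_trans (prod_le_prod (fun v _ => inv_nonneg.mpr (hF0 v).le) (fun v _ => hG v)) ?_
    have h1 : ∏ v : {v : ℤ × ℤ // v ∈ Dir D}, gd5G s (ε₀ / (25 * s)) v.1 =
        ∏ v ∈ Dir D, gd5G s (ε₀ / (25 * s)) v :=
      prod_coe_sort (Dir D) (gd5G s (ε₀ / (25 * s)))
    rw [h1]
    exact gd5_prod hs hφ hφ1
  have hf0 := hY.f_nonneg p
  have hf2 := hY.f_le p
  have hp0 : 0 ≤ ∏ v, (FF (((s : ℝ) - ε₀) / R)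
        ((gsys s c₁ n D N h hD).mass v ((gsys s c₁ n D N h hD).line v p))
        ((gsys s c₁ n D N h hD).cap v) i)⁻¹ := prod_nonneg fun v _ => inv_nonneg.mpr (hF0 v).le
  rw [mul_assoc]
  exact mul_le_mul hf2 hprod hp0 (by norm_num)

end Pool.Agent.NKL
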