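import Pool.Agent.NKL.GD2

set_option autoImplicit false

/-!
# NKL / GD6 : number of collinear quadruples in directions of height larger than `D`

Let `M = 4n`.  Let `A ∈ quads n D` with the direction `v`; replacing `v` by `-v` we may take
`v ∈ Dir M` (`prim_dir`; `hgt v < M` because `A` has two different points on a line of direction
`v`: their difference is a nonzero multiple of `v`).  All points of `A` are `p₀ + t v` with
`0 < t ≤ (M-1)/hgt v` for the point `p₀ ∈ A` with the smallest parameter.  So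
`A = {p₀, p₀ + t₁ v, p₀ + t₂ v, p₀ + t₃ v}` and
`|quads| ≤ ∑_{v ∈ Dir M, hgt v > D} M² (M/hgt v)³ ≤ M² M³ ∑_{d > D} 8 d/d³ ≤ 8 M⁵/D`
(`sum_dir`, `sum_inv_sq`).
-/

namespace Pool.Agent.NKL

open Finset

private theorem gd6_pt_bd {n : ℕ} (B : Finset (Cell n)) :
    ∀ p ∈ B.image pt, 0 ≤ p.1 ∧ p.1 < ((4 * n : ℕ) : ℤ) ∧ 0 ≤ p.2 ∧ p.2 < ((4 * n : ℕ) : ℤ) := by
  intro p hp
  obtain ⟨q, -, rfl⟩ := Finset.mem_image.1 hp
  have a1 := q.1.isLt
  have a2 := q.2.isLt
  unfold pt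
  dsimp only
  refine ⟨by positivity, by exact_mod_cast a1, by positivity, by exact_mod_cast a2⟩

/-- number of cells on a line -/
private theorem gd6_line {n : ℕ} (hn : 1 ≤ n) {v : ℤ × ℤ} (hv : Int.gcd v.1 v.2 = 1) (l : ℤ)
    (B : Finset (Cell n)) (hB : ∀ p ∈ B, On v (pt p) = l) :
    B.card ≤ (4 * n - 1) / hgt v + 1 := by
  rw [← Finset.card_image_of_injective B pt_inj]
  refine line_card_gen (M := 4 * n) (by omega) hv l _ (gd6_pt_bd B) ?_
  intro p hp
  obtain ⟨q, hq, rfl⟩ := Finset.mem_image.1 hp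
  exact hB q hq

/-- the sets of four cells on a line of direction `v` -/
private theorem gd6_quadv {n : ℕ} (hn : 1 ≤ n) {v : ℤ × ℤ} (hv : Int.gcd v.1 v.2 = 1)
    (Q : Finset (Finset (Cell n))) (hQ : ∀ A ∈ Q, A.card = 4 ∧ ∃ l, ∀ p ∈ A, On v (pt p) = l) :
    Q.card ≤ (4 * n) ^ 2 * ((4 * n - 1) / hgt v) ^ 3 := by
  classical
  have hsub : Q ⊆ (univ : Finset (Cell n)).biUnion fun p₀ =>
      (powersetCard 3 ((univ.filter fun p : Cell n => On v (pt p) = On v (pt p₀)).erase p₀)).image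
        (fun B => insert p₀ B) := by
    intro A hA
    obtain ⟨h4, l, hl⟩ := hQ A hA
    have hne : A.Nonempty := by
      rw [← Finset.card_pos, h4]
      norm_num
    obtain ⟨p₀, hp₀⟩ := hne
    rw [mem_biUnion]
    refine ⟨p₀, mem_univ _, ?_⟩
    rw [mem_image]
    refine ⟨A.erase p₀, ?_, insert_erase hp₀⟩
    rw [mem_powersetCard]
    refine ⟨?_, by rw [card_erase_of_mem hp₀, h4]⟩
    refine erase_subset_erase _ ?_
    intro p hp
    rw [mem_filter]
    exact ⟨mem_univ _, by rw [hl p hp, hl p₀ hp₀]⟩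
  refine (card_le_card hsub).trans (card_biUnion_le.trans ?_)
  have hterm : ∀ p₀ ∈ (univ : Finset (Cell n)),
      ((powersetCard 3 ((univ.filter fun p : Cell n =>
        On v (pt p) = On v (pt p₀)).erase p₀)).image (fun B => insert p₀ B)).card ≤
      ((4 * n - 1) / hgt v) ^ 3 := by
    intro p₀ _
    refine card_image_le.trans ?_
    rw [card_powersetCard]
    have hmem : p₀ ∈ (univ.filter fun p : Cell n => On v (pt p) = On v (pt p₀)) := by
      rw [mem_filter]
      exact ⟨mem_univ _, rfl⟩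
    rw [card_erase_of_mem hmem]
    have h1 := gd6_line hn hv (On v (pt p₀))
      (univ.filter fun p : Cell n => On v (pt p) = On v (pt p₀))
      (fun p hp => (mem_filter.1 hp).2)
    refine (Nat.choose_le_pow _ _).trans ?_
    exact Nat.pow_le_pow_left (Nat.sub_le_iff_le_add.2 h1) 3
  refine (sum_le_sum hterm).trans ?_
  rw [sum_const, card_univ, Fintype.card_prod, Fintype.card_fin, smul_eq_mul, pow_two]

theorem quads_card4 {n D : ℕ} {A : Finset (Cell n)} (hA : A ∈ quads n D) : A.card = 4 := by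
  classical
  unfold quads at hA
  rw [mem_filter, mem_powersetCard] at hA
  exact hA.1.2

theorem quads_card {n D : ℕ} (hn : 1 ≤ n) (hD : 1 ≤ D) :
    ((quads n D).card : ℝ) ≤ 8 * (4 * n) ^ 5 / D := by
  classical
  have hsub : quads n D ⊆ ((Dir (4 * n)).filter fun v => D < hgt v).biUnion fun v =>
      (quads n D).filter fun A => ∃ l, ∀ p ∈ A, On v (pt p) = l := by
    intro A hA
    have h4 := quads_card4 hA
    have hA' := hA
    unfold quads at hA'
    rw [mem_filter] at hA'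
    obtain ⟨_, v, hg, hDv, l, hl⟩ := hA'
    have h1 := gd6_line hn hg l A hl
    rw [h4] at h1
    have hpos := hgt_pos hg
    have h2 : hgt v ≤ 4 * n := by
      by_contra hc
      have h3 : (4 * n - 1) / hgt v = 0 := Nat.div_eq_of_lt (by omega)
      rw [h3] at h1
      omega
    rw [mem_biUnion]
    rcases prim_dir hg h2 with h3 | h3
    · refine ⟨v, mem_filter.2 ⟨h3, hDv⟩, mem_filter.2 ⟨hA, l, hl⟩⟩
    · refine ⟨(-v.1, -v.2), mem_filter.2 ⟨h3, by rw [hgt_neg]; exact hDv⟩,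
        mem_filter.2 ⟨hA, -l, fun p hp => by rw [On_neg, hl p hp]⟩⟩
  have h1 : ((quads n D).card : ℝ) ≤ ∑ v ∈ (Dir (4 * n)).filter (fun v => D < hgt v),
      (((quads n D).filter fun A => ∃ l, ∀ p ∈ A, On v (pt p) = l).card : ℝ) := by
    have := (card_le_card hsub).trans card_biUnion_le
    exact_mod_cast this
  refine h1.trans ?_
  have h2 : ∀ v ∈ (Dir (4 * n)).filter (fun v => D < hgt v),
      (((quads n D).filter fun A => ∃ l, ∀ p ∈ A, On v (pt p) = l).card : ℝ) ≤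
        (fun d : ℕ => (4 * (n : ℝ)) ^ 5 * (1 / (d : ℝ) ^ 3)) (hgt v) := by
    intro v hv
    rw [mem_filter] at hv
    have hg := dir_gcd hv.1
    have hpos := hgt_pos hg
    have h3 := gd6_quadv hn hg ((quads n D).filter fun A => ∃ l, ∀ p ∈ A, On v (pt p) = l)
      (fun A hA => by
        rw [mem_filter] at hA
        exact ⟨quads_card4 hA.1, hA.2⟩)
    have h4 : (((quads n D).filter fun A => ∃ l, ∀ p ∈ A, On v (pt p) = l).card : ℝ) ≤
        (4 * (n : ℝ)) ^ 2 * (((4 * n - 1) / hgt v : ℕ) : ℝ) ^ 3 := by exact_mod_cast h3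
    have hposr : (0 : ℝ) < (hgt v : ℝ) := by exact_mod_cast hpos
    have h5 : (((4 * n - 1) / hgt v : ℕ) : ℝ) ≤ 4 * (n : ℝ) / (hgt v : ℝ) := by
      refine (Nat.cast_div_le).trans ?_
      refine div_le_div_of_nonneg_right ?_ hposr.le
      have : (4 * n - 1 : ℕ) ≤ 4 * n := Nat.sub_le _ _
      exact_mod_cast this
    have h6 : (((4 * n - 1) / hgt v : ℕ) : ℝ) ^ 3 ≤ (4 * (n : ℝ) / (hgt v : ℝ)) ^ 3 :=
      pow_le_pow_left₀ (Nat.cast_nonneg _) h5 3
    refine h4.trans ?_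
    refine (mul_le_mul_of_nonneg_left h6 (by positivity)).trans ?_
    show (4 * (n : ℝ)) ^ 2 * (4 * (n : ℝ) / (hgt v : ℝ)) ^ 3 ≤
      (4 * (n : ℝ)) ^ 5 * (1 / (hgt v : ℝ) ^ 3)
    refine le_of_eq ?_
    rw [div_pow]
    ring
  refine (sum_le_sum h2).trans ?_
  refine (sum_dir (4 * n) D (fun d : ℕ => (4 * (n : ℝ)) ^ 5 * (1 / (d : ℝ) ^ 3))
    (fun d => by positivity)).trans ?_
  have h3 : ∑ d ∈ Finset.Ioc D (4 * n), 8 * (d : ℝ) * ((4 * (n : ℝ)) ^ 5 * (1 / (d : ℝ) ^ 3)) =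
      8 * (4 * (n : ℝ)) ^ 5 * ∑ d ∈ Finset.Ioc D (4 * n), 1 / (d : ℝ) ^ 2 := by
    rw [mul_sum]
    refine sum_congr rfl fun d hd => ?_
    rw [mem_Ioc] at hd
    have hd0 : (d : ℝ) ≠ 0 := by
      have : 0 < d := by omega
      exact_mod_cast this.ne'
    field_simp
  rw [h3]
  refine (mul_le_mul_of_nonneg_left (sum_inv_sq D (4 * n) hD) (by positivity)).trans ?_
  refine le_of_eq ?_
  ring

end Pool.Agent.NKL
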