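import Pool.Agent.NKL.GD2

set_option autoImplicit false

/-!
# NKL / GD7 : from a valid set of cells without bad quadruples to a near-perfect set

`S` = image of `S₁` under `pt` (injective, `pt_inj`; `4n ≤ N`, so the points lie in `grid N`).
For a primitive direction `v` with `hgt v ≤ D`, `v` or `-v` is in `Dir D` (`prim_dir`), and
`On (-v) = - On v`, so the number of points on a line of direction `v` is at most `capf`:
`s` for rows and columns (`v = (0,1)`: `On v p = p.1`; `v = (1,0)`: `On v p = - p.2`), `c₁` for the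
other directions of height at most `s`, `3` for `s < hgt v ≤ D`.
For `hgt v > D`: if a line had 4 points of `S`, the corresponding 4 cells would form a member of
`quads n D` contained in `S₁`.
-/

namespace Pool.Agent.NKL

open Finset

private theorem gd7_filter {n : ℕ} (S₁ : Finset (Cell n)) (P : ℤ × ℤ → Prop) [DecidablePred P] :
    ((S₁.image pt).filter P).card = (S₁.filter fun c => P (pt c)).card := by
  rw [filter_image, card_image_of_injective _ pt_inj]

private theorem gd7_dir {s c₁ n D N : ℕ} (h : 4 * n ≤ N) (hD : 1 ≤ D) (S₁ : Finset (Cell n))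
    (hv : (gsys s c₁ n D N h hD).Valid S₁) {v : ℤ × ℤ} (hm : v ∈ Dir D) (l : ℤ) :
    ((S₁.image pt).filter fun p => On v p = l).card ≤ capf s c₁ v := by
  rw [gd7_filter]
  exact hv ⟨v, hm⟩ l

private theorem gd7_capf_neg {s c₁ : ℕ} (v : ℤ × ℤ) : capf s c₁ (-v.1, -v.2) = capf s c₁ v := by
  unfold capf
  rw [hgt_neg]
  have h1 : (-v.1 = 0 ∨ -v.2 = 0) ↔ (v.1 = 0 ∨ v.2 = 0) := by
    rw [neg_eq_zero, neg_eq_zero]
  by_cases hz : v.1 = 0 ∨ v.2 = 0
  · rw [if_pos (h1.mpr hz), if_pos hz]
  · rw [if_neg (fun hh => hz (h1.mp hh)), if_neg hz]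

private theorem gd7_prim {s c₁ n D N : ℕ} (h : 4 * n ≤ N) (hD : 1 ≤ D) (S₁ : Finset (Cell n))
    (hv : (gsys s c₁ n D N h hD).Valid S₁) {v : ℤ × ℤ} (hg : Int.gcd v.1 v.2 = 1)
    (hD2 : hgt v ≤ D) (l : ℤ) :
    ((S₁.image pt).filter fun p => On v p = l).card ≤ capf s c₁ v := by
  rcases prim_dir hg hD2 with hm | hm
  · exact gd7_dir h hD S₁ hv hm l
  · have h1 := gd7_dir h hD S₁ hv hm (-l)
    rw [gd7_capf_neg] at h1
    refine le_trans (le_of_eq ?_) h1
    congr 1
    refine filter_congr fun p _ => ?_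
    rw [On_neg, neg_inj]

theorem near_of_cells {s c₁ n D N : ℕ} (hs : 3 ≤ s) (hn : 1 ≤ n) (h : 4 * n ≤ N) (hD : 1 ≤ D)
    (hsD : s ≤ D) (S₁ : Finset (Cell n)) (hv : (gsys s c₁ n D N h hD).Valid S₁)
    (hq : ∀ A ∈ quads n D, ¬ A ⊆ S₁) {ε : ℝ} (hcard : ((s : ℝ) - ε) * N ≤ S₁.card) :
    Near s c₁ N ε (S₁.image pt) := by
  classical
  refine ⟨?_, ?_, ?_, ?_, ?_, ?_⟩
  · intro p hp
    obtain ⟨c, _, rfl⟩ := mem_image.mp hp
    have h1 := c.1.2
    have h2 := c.2.2
    unfold grid pt
    rw [mem_product, mem_Ico, mem_Ico]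
    dsimp only
    omega
  · intro x
    have h1 := gd7_prim h hD S₁ hv (v := ((0 : ℤ), (1 : ℤ))) (by norm_num)
      (by unfold hgt; norm_num; exact hD) x
    have h2 : capf s c₁ ((0 : ℤ), (1 : ℤ)) = s := by
      unfold capf
      rw [if_pos (Or.inl rfl)]
    rw [h2] at h1
    refine le_trans (le_of_eq ?_) h1
    congr 1
    refine filter_congr fun p _ => ?_
    unfold On
    dsimp only
    rw [one_mul, zero_mul, sub_zero]
  · intro y
    have h1 := gd7_prim h hD S₁ hv (v := ((1 : ℤ), (0 : ℤ))) (by norm_num)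
      (by unfold hgt; norm_num; exact hD) (-y)
    have h2 : capf s c₁ ((1 : ℤ), (0 : ℤ)) = s := by
      unfold capf
      rw [if_pos (Or.inr rfl)]
    rw [h2] at h1
    refine le_trans (le_of_eq ?_) h1
    congr 1
    refine filter_congr fun p _ => ?_
    unfold On
    dsimp only
    rw [one_mul, zero_mul, zero_sub, neg_inj]
  · intro v hg h1 h2 h3 l
    have h4 := gd7_prim h hD S₁ hv hg (le_trans h3 hsD) l
    have h5 : capf s c₁ v = c₁ := by
      unfold capf
      rw [if_neg (by rintro (hh | hh); exacts [h1 hh, h2 hh]), if_pos h3]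
    rwa [h5] at h4
  · intro v hg h3 l
    by_cases h6 : hgt v ≤ D
    · have h4 := gd7_prim h hD S₁ hv hg h6 l
      have h5 : capf s c₁ v = 3 := by
        unfold capf
        rw [if_neg, if_neg (not_le.mpr h3)]
        rintro (hh | hh)
        · rw [hh, Int.gcd_zero_left] at hg
          have : hgt v = 1 := by
            unfold hgt
            rw [hh, hg]
            norm_num
          omega
        · rw [hh, Int.gcd_zero_right] at hg
          have : hgt v = 1 := by
            unfold hgt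
            rw [hh, hg]
            norm_num
          omega
      rwa [h5] at h4
    · rw [gd7_filter]
      by_contra hcon
      obtain ⟨A, hA1, hA2⟩ := exists_subset_card_eq (show 4 ≤
        (S₁.filter fun c => On v (pt c) = l).card by omega)
      refine hq A ?_ (fun x hx => (mem_filter.mp (hA1 hx)).1)
      unfold quads
      rw [mem_filter, mem_powersetCard]
      exact ⟨⟨subset_univ _, hA2⟩, v, hg, by omega, l, fun p hp => (mem_filter.mp (hA1 hp)).2⟩
  · rw [card_image_of_injective _ pt_inj]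
    exact hcard

/-- removing one point from each bad quadruple -/
theorem remove_quads {α : Type} [DecidableEq α] (C : Finset (Finset α)) (S : Finset α)
    (hC : ∀ A ∈ C, A.Nonempty) :
    ∃ S' ⊆ S, (∀ A ∈ C, ¬ A ⊆ S') ∧ S.card ≤ S'.card + (C.filter fun A => A ⊆ S).card := by
  classical
  obtain ⟨g, hg⟩ : ∃ g : Finset α → Finset α, ∀ A ∈ C, ∃ a ∈ A, g A = {a} := by
    refine ⟨fun A => if h : A.Nonempty then {h.choose} else ∅, fun A hA => ?_⟩
    refine ⟨(hC A hA).choose, (hC A hA).choose_spec, ?_⟩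
    dsimp only
    rw [dif_pos (hC A hA)]
  refine ⟨S \ (C.filter fun A => A ⊆ S).biUnion g, sdiff_subset, ?_, ?_⟩
  · intro A hA hsub
    obtain ⟨a, ha, hga⟩ := hg A hA
    have h1 := mem_sdiff.mp (hsub ha)
    refine h1.2 (mem_biUnion.mpr ⟨A, mem_filter.mpr ⟨hA, fun x hx => (mem_sdiff.mp (hsub hx)).1⟩, ?_⟩)
    rw [hga]
    exact mem_singleton_self a
  · have h1 : ((C.filter fun A => A ⊆ S).biUnion g).card ≤
        (C.filter fun A => A ⊆ S).card := by
      have h2 := card_biUnion_le_card_mul (C.filter fun A => A ⊆ S) g 1 (fun A hA => by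
        obtain ⟨a, _, hga⟩ := hg A (mem_filter.mp hA).1
        rw [hga, card_singleton])
      rwa [mul_one] at h2
    have h3 := le_card_sdiff ((C.filter fun A => A ⊆ S).biUnion g) S
    omega

end Pool.Agent.NKL
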