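import Pool.Agent.NKL.NIB
import Pool.Agent.NKL.GD5
import Pool.Agent.NKL.GD6
import Pool.Agent.NKL.GD7

set_option autoImplicit false

/-!
# NKL / NPS : near-perfect sets exist

WLOG `ε ≤ 1` (`Near` is monotone in `ε`).  Let `ε₀ = ε/4`, `t = s - ε₀`, `φ = ε₀/(25 s)`,
`W = 2 φ^{-|Dir s|} exp(1776 s²)`, `η = ε/4`, `D = max s ⌈64 (s W)^4/ε⌉`, `b = max 1 (Dir D).card`,
`R₁ = ⌈50 s²/ε₀⌉`.  `nib` (with the capacity bound `max s c₁`) gives `R` and `N₀`.  Take `N ≥ N₀`,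
`N ≥ 12 s`, `N ≥ D`, `N ≥ 24 s/ε + 8`, `n = N/4`.  Apply it to `gsys` (`gsys_ok`, `mass_cond`,
`wbound`, `Fintype.card {v // v ∈ Dir D} = (Dir D).card`), `C = quads n D`, `K = ∅`: a valid `S` with
`|S| ≥ t total - η N` and at most `2 |quads| (tW/N)^4 ≤ 16 (4n)^5/D (sW)^4/N^4 ≤ ε N/4` members of
`quads n D` inside `S` (`quads_card`, `quads_card4`, `4n ≤ N`).  `remove_quads`: `S₁ ⊆ S` (valid)
without bad quadruples.  `total = (4n)²/N ≥ (N-3)²/N ≥ N - 6`, so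
`|S₁| ≥ (s - ε/4)(N - 6) - ε N/4 - ε N/4 ≥ (s - 3ε/4) N - 6 s ≥ (s - ε) N`.  `near_of_cells`.
-/

namespace Pool.Agent.NKL

open Finset

theorem nps (s c₁ : ℕ) (hs : 3 ≤ s) (hc : 5 * s ≤ 6 * c₁) (ε : ℝ) (hε : 0 < ε) :
    ∃ N₀ : ℕ, ∀ N ≥ N₀, ∃ S, Near s c₁ N ε S := by
  -- we may assume that `ε ≤ 1`
  obtain ⟨ε', hε'0, hε'1, hε'ε⟩ : ∃ ε' : ℝ, 0 < ε' ∧ ε' ≤ 1 ∧ ε' ≤ ε :=
    ⟨min ε 1, lt_min hε one_pos, min_le_right _ _, min_le_left _ _⟩
  have hs0 : (3 : ℝ) ≤ s := by exact_mod_cast hs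
  set ε₀ : ℝ := ε' / 4 with hε₀
  have hε₀0 : 0 < ε₀ := by positivity
  have hε₀1 : ε₀ ≤ 1 := by rw [hε₀]; linarith
  set φ : ℝ := ε₀ / (25 * s) with hφ
  have hφ0 : 0 < φ := by positivity
  have hφ1 : φ ≤ 1 := by
    rw [hφ, div_le_one (by positivity)]
    linarith
  set W : ℝ := 2 * (φ⁻¹) ^ (Dir s).card * Real.exp (1776 * (s : ℝ) ^ 2) with hW
  have hW0 : 0 < W := by positivity
  set D : ℕ := max s ⌈64 * ((s : ℝ) * W) ^ 4 / ε'⌉₊ with hD
  have hsD : s ≤ D := le_max_left _ _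
  have hD1 : 1 ≤ D := by omega
  have hDr : 64 * ((s : ℝ) * W) ^ 4 / ε' ≤ D :=
    (Nat.le_ceil _).trans (by exact_mod_cast le_max_right _ _)
  set t : ℝ := (s : ℝ) - ε₀ with ht
  have ht0 : 0 < t := by rw [ht]; linarith
  obtain ⟨R, hR1, -, N₀, hN₀⟩ := nib (max 1 (Dir D).card) (max s c₁) (le_max_left _ _) φ t W (ε' / 4)
    hφ0 hφ1 ht0 hW0.le (by positivity) ⌈50 * (s : ℝ) ^ 2 / ε₀⌉₊
  have hR : 50 * (s : ℝ) ^ 2 / ε₀ ≤ R := (Nat.le_ceil _).trans (by exact_mod_cast hR1)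
  refine ⟨max (max N₀ (12 * s)) (max D ⌈24 * (s : ℝ) / ε'⌉₊), fun N hN => ?_⟩
  have hNN₀ : N₀ ≤ N := ((le_max_left _ _).trans (le_max_left _ _)).trans hN
  have hN12 : 12 * s ≤ N := ((le_max_right _ _).trans (le_max_left _ _)).trans hN
  have hDN : D ≤ N := ((le_max_left _ _).trans (le_max_right _ _)).trans hN
  have hNε : 24 * (s : ℝ) / ε' ≤ N :=
    (Nat.le_ceil _).trans (by exact_mod_cast ((le_max_right _ _).trans (le_max_right _ _)).trans hN)
  set n := N / 4 with hn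
  have hn1 : 1 ≤ n := by omega
  have h4n : 4 * n ≤ N := by omega
  have h4n' : N ≤ 4 * n + 3 := by omega
  have hN0 : (36 : ℝ) ≤ N := by
    have : 36 ≤ N := by omega
    exact_mod_cast this
  have hNpos : (0 : ℝ) < N := by linarith
  obtain ⟨S, hSv, hSc, hSq, -⟩ := hN₀ N hNN₀ (Cell n) {v : ℤ × ℤ // v ∈ Dir D} ℤ (gsys s c₁ n D N h4n hD1)
    (gsys_ok hs (by omega) hn1 h4n hD1) (by
      rw [Fintype.card_coe]
      exact le_max_right _ _)
    (by
      intro v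
      show capf s c₁ v.1 ≤ max s c₁
      unfold capf
      split_ifs
      · exact le_max_left _ _
      · exact le_max_right _ _
      · exact hs.trans (le_max_left _ _))
    (fun v l => mass_cond hs hc hε₀0 hε₀1 hn1 h4n hD1 hDN hN12 v l)
    (fun i hi p => wbound hs hc hε₀0 hε₀1 hn1 h4n hD1 hDN hN12 hR hi p)
    (quads n D) Unit ∅ (by simp) (fun _ _ _ => 0) (fun _ _ => 0) (fun _ _ => 0) (fun _ _ => le_rfl)
    (fun k hk => absurd hk (Finset.notMem_empty k)) (fun k hk => absurd hk (Finset.notMem_empty k))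
    (fun k hk => absurd hk (Finset.notMem_empty k))
    (fun _ _ _ _ _ _ _ _ _ _ k hk => absurd hk (Finset.notMem_empty k))
  -- the bad quadruples
  have h4nr : (4 * (n : ℝ)) ≤ N := by exact_mod_cast h4n
  have hbad : (((quads n D).filter fun A => A ⊆ S).card : ℝ) ≤ ε' * N / 4 := by
    refine hSq.trans ?_
    have h1 : ∑ A ∈ quads n D, (t * W / N) ^ A.card = (quads n D).card * (t * W / N) ^ 4 := by
      rw [Finset.sum_congr rfl (g := fun _ => (t * W / N) ^ 4) fun A hA => by rw [quads_card4 hA],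
        Finset.sum_const, nsmul_eq_mul]
    rw [h1]
    have h2 : t * W / N ≤ s * W / N := by
      gcongr
      rw [ht]
      linarith
    have h3 : (t * W / N) ^ 4 ≤ (s * W / N) ^ 4 := by
      gcongr
    have h5 := quads_card (n := n) (D := D) hn1 hD1
    have hD0 : (0 : ℝ) < D := by exact_mod_cast (show 0 < D by omega)
    have h6 : 8 * (4 * (n : ℝ)) ^ 5 / D ≤ 8 * (N : ℝ) ^ 5 / D := by gcongr
    calc 2 * ((quads n D).card * (t * W / N) ^ 4)
        ≤ 2 * ((8 * (N : ℝ) ^ 5 / D) * (s * W / N) ^ 4) := by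
          gcongr
          exact h5.trans h6
      _ = 16 * N * (s * W) ^ 4 / D := by
          field_simp
          ring
      _ ≤ ε' * N / 4 := by
          rw [div_le_iff₀ hD0]
          have h7 : 64 * ((s : ℝ) * W) ^ 4 ≤ D * ε' := by
            rw [div_le_iff₀ hε'0] at hDr
            exact hDr
          nlinarith
  obtain ⟨S', hS'S, hS'q, hS'c⟩ := remove_quads (quads n D) S (fun A hA => by
    rw [← Finset.card_pos, quads_card4 hA]
    norm_num)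
  have hS'v : (gsys s c₁ n D N h4n hD1).Valid S' := fun v l => (cnt_mono _ hS'S v l).trans (hSv v l)
  have htot := total_gsys (s := s) (c₁ := c₁) (D := D) hn1 h4n hD1
  rw [htot] at hSc
  have h4n3 : (N : ℝ) - 3 ≤ 4 * n := by
    have : (N : ℝ) ≤ 4 * n + 3 := by exact_mod_cast h4n'
    linarith
  have htot2 : (N : ℝ) - 6 ≤ (4 * (n : ℝ)) ^ 2 / N := by
    rw [le_div_iff₀ hNpos]
    nlinarith
  have hcard : ((s : ℝ) - ε') * N ≤ S'.card := by
    have h1 : (S.card : ℝ) ≤ S'.card + ((quads n D).filter fun A => A ⊆ S).card := by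
      exact_mod_cast hS'c
    have h2 : t * ((N : ℝ) - 6) ≤ t * ((4 * (n : ℝ)) ^ 2 / N) := mul_le_mul_of_nonneg_left htot2 ht0.le
    have h3 : 24 * (s : ℝ) ≤ N * ε' := by
      rw [div_le_iff₀ hε'0] at hNε
      exact hNε
    have h4 : t * ((N : ℝ) - 6) = s * N - ε' / 4 * N - 6 * s + 6 * (ε' / 4) := by
      rw [ht, hε₀]
      ring
    nlinarith
  have hnear := near_of_cells hs hn1 h4n hD1 hsD S' hS'v hS'q hcard
  refine ⟨S'.image pt, hnear.sub, hnear.col, hnear.row, hnear.sml, hnear.lrg, ?_⟩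
  refine le_trans ?_ hnear.card
  gcongr

end Pool.Agent.NKL
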