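import Pool.Agent.NKL.FEX
import Pool.Agent.NKL.LL4
import Pool.Agent.NKL.NPS

set_option autoImplicit false

/-!
# NKL / FIN : exact sets for `s ≥ 6`

Let `δ = 1/192`, `A i = avl s S (r i) (c i)`, `a0 = (s-1) N`.
Choose `K = 2 * 192 * 1024 * s^6` (so `1024 s^6/K ≤ δ/2`), then `ε ∈ (0, 1/2]` with
`128 K² s³ ε³ ≤ δ/2`, `4 s² ε² ≤ δ`, `(1 + 4 s |Dir s| + s) ε ≤ δ/2`, and `N₀` from `nps` with this `ε`
and `c₁ = s - 1` (`5 s ≤ 6 (s-1)`), `N₀ ≥ 1`, `4 s²/N ≤ δ/2`, `2 s² + s |Dir s| ≤ N/2`.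
`L ≤ ε N` (`L + |S| = s N`, `|S| ≥ (s-ε) N`), `|A i| ≥ |S| - 2 s² - s |Dir s| ≥ (s - 1) N = a0`
(`avl_card`).  As `a0 ≥ N`: `h2` of `ll4` from `fq2`: `L (1 + 4 s |Dir s| + s) + 4 s² ≤ δ N ≤ δ a0`;
`h3a`: `(2 s L)² ≤ δ N²`; `h3b`: `L * 4 s² L ≤ δ N²`; `h4`: `fq4`.  Then `xch_*`.
-/

namespace Pool.Agent.NKL

open Finset

theorem fin_exact (s : ℕ) (hs : 6 ≤ s) : ∃ N₀ : ℕ, ∀ N ≥ N₀, ∃ T : Finset (ℤ × ℤ), T ⊆ grid N ∧
    (∀ x : ℤ, 0 ≤ x → x < N → (T.filter fun p => p.1 = x).card = s) ∧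
    (∀ y : ℤ, 0 ≤ y → y < N → (T.filter fun p => p.2 = y).card = s) ∧
    (∀ v : ℤ × ℤ, Skew v → ∀ l, (T.filter fun p => On v p = l).card ≤ s) := by
  classical
  set K : ℕ := 2 * 192 * 1024 * s ^ 6 with hKd
  set G : ℕ := (Dir s).card with hG
  have hs' : (6 : ℝ) ≤ s := by exact_mod_cast hs
  have hK : 1 ≤ K := by
    have : 1 ≤ s ^ 6 := Nat.one_le_pow _ _ (by omega)
    omega
  have hK0 : (0 : ℝ) < K := by exact_mod_cast hK
  set M : ℝ := 128 * (K : ℝ) ^ 2 * s ^ 3 + 4 * (s : ℝ) ^ 2 + (1 + 4 * s * G + s) + 1 with hM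
  have hM1 : 1 ≤ M := by
    have h1 : (0 : ℝ) ≤ 128 * (K : ℝ) ^ 2 * s ^ 3 := by positivity
    have h2 : (0 : ℝ) ≤ 4 * (s : ℝ) ^ 2 := by positivity
    have h3 : (0 : ℝ) ≤ 1 + 4 * s * G + s := by positivity
    linarith
  set ε : ℝ := (1 / 384) / M with hε
  have hε0 : 0 < ε := by positivity
  have hεM : M * ε = 1 / 384 := by
    rw [hε]
    field_simp
  have hε1 : ε ≤ 1 / 384 := by
    rw [hε]
    exact div_le_self (by norm_num) hM1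
  have b1 : 128 * (K : ℝ) ^ 2 * s ^ 3 * ε ≤ 1 / 384 := by
    rw [← hεM]
    refine mul_le_mul_of_nonneg_right ?_ hε0.le
    have h2 : (0 : ℝ) ≤ 4 * (s : ℝ) ^ 2 := by positivity
    have h3 : (0 : ℝ) ≤ 1 + 4 * s * G + s := by positivity
    linarith
  have b2 : 4 * (s : ℝ) ^ 2 * ε ≤ 1 / 384 := by
    rw [← hεM]
    refine mul_le_mul_of_nonneg_right ?_ hε0.le
    have h1 : (0 : ℝ) ≤ 128 * (K : ℝ) ^ 2 * s ^ 3 := by positivity
    have h3 : (0 : ℝ) ≤ 1 + 4 * s * G + s := by positivity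
    linarith
  have b3 : (1 + 4 * (s : ℝ) * G + s) * ε ≤ 1 / 384 := by
    rw [← hεM]
    refine mul_le_mul_of_nonneg_right ?_ hε0.le
    have h1 : (0 : ℝ) ≤ 128 * (K : ℝ) ^ 2 * s ^ 3 := by positivity
    have h2 : (0 : ℝ) ≤ 4 * (s : ℝ) ^ 2 := by positivity
    linarith
  obtain ⟨N₁, hN₁⟩ := nps s (s - 1) (by omega) (by omega) ε hε0
  refine ⟨N₁ + 1536 * s ^ 2 + 2 * s * G + 1, fun N hN => ?_⟩
  obtain ⟨S, hS⟩ := hN₁ N (by omega)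
  obtain ⟨L, r, c, hD⟩ := fsq hS
  have hN' : ((N₁ : ℝ) + 1536 * (s : ℝ) ^ 2 + 2 * s * G + 1) ≤ N := by exact_mod_cast hN
  have hN1' : (0 : ℝ) ≤ N₁ := Nat.cast_nonneg _
  have hsG : (0 : ℝ) ≤ 2 * (s : ℝ) * G := by positivity
  have hss : (0 : ℝ) ≤ (s : ℝ) ^ 2 := by positivity
  have hN1 : (1 : ℝ) ≤ N := by linarith
  have hN0 : (0 : ℝ) ≤ N := by linarith
  have hN2 : 4 * (s : ℝ) ^ 2 ≤ 1 / 384 * N := by linarith
  have hN3 : 2 * (s : ℝ) ^ 2 + s * G ≤ 1 / 2 * N := by linarith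
  -- the number of missing points
  have hL : (L : ℝ) ≤ ε * N := by
    have h1 : (L : ℝ) + S.card = s * N := by exact_mod_cast hD.L_eq
    have h2 := hS.card
    linarith
  have hL0 : (0 : ℝ) ≤ L := Nat.cast_nonneg _
  set a0 : ℝ := ((s : ℝ) - 1) * N with ha0d
  have ha0N : (N : ℝ) ≤ a0 := by
    have : 1 * (N : ℝ) ≤ ((s : ℝ) - 1) * N := mul_le_mul_of_nonneg_right (by linarith) hN0
    linarith
  have ha0 : 0 < a0 := by linarith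
  have ha : ∀ i, a0 ≤ ((avl s S (r i) (c i)).card : ℝ) := by
    intro i
    have h1 := avl_card (by omega : s - 1 ≤ s) hS (r i) (c i)
    have h2 : (S.card : ℝ) ≤ (avl s S (r i) (c i)).card + 2 * s ^ 2 + s * G := by exact_mod_cast h1
    have h3 := hS.card
    have h4 : ε * N ≤ 1 / 2 * N := mul_le_mul_of_nonneg_right (by linarith) hN0
    rw [ha0d]
    linarith
  have p2 : (N : ℝ) ^ 2 ≤ a0 ^ 2 := pow_le_pow_left₀ hN0 ha0N 2
  have p3 : (N : ℝ) ^ 3 ≤ a0 ^ 3 := pow_le_pow_left₀ hN0 ha0N 3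
  have hLL : (L : ℝ) ^ 2 ≤ ε * N ^ 2 := by
    have h1 : (L : ℝ) ^ 2 ≤ (ε * N) ^ 2 := pow_le_pow_left₀ hL0 hL 2
    have h2 : (ε * (N : ℝ)) ^ 2 = ε * N ^ 2 * ε := by ring
    have h3 : ε * (N : ℝ) ^ 2 * ε ≤ ε * N ^ 2 * 1 := mul_le_mul_of_nonneg_left (by linarith) (by positivity)
    linarith
  have hLLL : (L : ℝ) ^ 3 ≤ ε * N ^ 3 := by
    have h1 : (L : ℝ) ^ 3 ≤ (ε * N) ^ 3 := pow_le_pow_left₀ hL0 hL 3
    have h2 : (ε * (N : ℝ)) ^ 3 = ε * N ^ 3 * ε ^ 2 := by ring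
    have h4 : ε ^ 2 ≤ 1 := pow_le_one₀ hε0.le (by linarith)
    have h3 : ε * (N : ℝ) ^ 3 * ε ^ 2 ≤ ε * N ^ 3 * 1 := mul_le_mul_of_nonneg_left h4 (by positivity)
    linarith
  have hlow2 : 4 * (s : ℝ) ^ 2 * L ^ 2 ≤ 1 / 192 * a0 ^ 2 := by
    have h1 : 4 * (s : ℝ) ^ 2 * L ^ 2 ≤ 4 * (s : ℝ) ^ 2 * (ε * N ^ 2) :=
      mul_le_mul_of_nonneg_left hLL (by positivity)
    have h2 : 4 * (s : ℝ) ^ 2 * (ε * N ^ 2) = 4 * (s : ℝ) ^ 2 * ε * N ^ 2 := by ring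
    have h3 : 4 * (s : ℝ) ^ 2 * ε * N ^ 2 ≤ 1 / 384 * N ^ 2 := mul_le_mul_of_nonneg_right b2 (by positivity)
    have h4 : (0 : ℝ) ≤ (N : ℝ) ^ 2 := by positivity
    linarith
  obtain ⟨ω, w1, w2, w3, w4⟩ := ll4 S (fun i : Fin L => avl s S (r i) (c i)) (fun i => avl_sub s S _ _) ha0 ha
    (δ := 1 / 192) le_rfl (B2 s r c) (B3 r c) (B4 r c)
    (fun i j p q h => B2_symm s r c i j p q h)
    (fun i j k p q u h => B3_symm r c i j k p q u h)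
    (fun i j k l p q u w h => B4_swap r c i j k l p q u w h)
    (by
      intro i p hp
      have h1 := fq2 hS hD i hp
      have h2 : ((∑ j : Fin L, (S.filter fun q => B2 s r c i j p q).card : ℕ) : ℝ) ≤
          L + 4 * s ^ 2 + 4 * s * G * L + s * L := by exact_mod_cast h1
      refine h2.trans ?_
      have h3 : (L : ℝ) + 4 * s ^ 2 + 4 * s * G * L + s * L = (1 + 4 * (s : ℝ) * G + s) * L + 4 * s ^ 2 := by ring
      have h4 : (1 + 4 * (s : ℝ) * G + s) * L ≤ (1 + 4 * (s : ℝ) * G + s) * (ε * N) :=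
        mul_le_mul_of_nonneg_left hL (by positivity)
      have h5 : (1 + 4 * (s : ℝ) * G + s) * (ε * N) = (1 + 4 * (s : ℝ) * G + s) * ε * N := by ring
      have h6 : (1 + 4 * (s : ℝ) * G + s) * ε * N ≤ 1 / 384 * N := mul_le_mul_of_nonneg_right b3 hN0
      rw [h3]
      linarith)
    (by
      intro i p hp
      have h1 := fq3a hS i hp
      have h2 : ((∑ j : Fin L, ∑ k : Fin L, ((S ×ˢ S).filter fun z => B3 r c i j k p z.1 z.2).card : ℕ) : ℝ) ≤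
          (2 * s * L) ^ 2 := by exact_mod_cast h1
      refine h2.trans ?_
      have h3 : (2 * (s : ℝ) * L) ^ 2 = 4 * (s : ℝ) ^ 2 * L ^ 2 := by ring
      rw [h3]
      exact hlow2)
    (by
      intro i j p hp
      have h1 := fq3b (r := r) (c := c) hS i j hp
      have h2 : ((∑ k : Fin L, ((S ×ˢ S).filter fun z => B3 r c i j k p z.1 z.2).card : ℕ) : ℝ) ≤
          4 * s ^ 2 * L := by exact_mod_cast h1
      rw [Fintype.card_fin]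
      refine (mul_le_mul_of_nonneg_left h2 hL0).trans ?_
      have h3 : (L : ℝ) * (4 * (s : ℝ) ^ 2 * L) = 4 * (s : ℝ) ^ 2 * L ^ 2 := by ring
      rw [h3]
      exact hlow2)
    (by
      intro i p hp
      have h1 := fq4 hS hD i hp K hK
      refine h1.trans ?_
      have h2 : 1024 * (s : ℝ) ^ 6 * N ^ 3 / K = 1 / 384 * N ^ 3 := by
        have e1 : (K : ℝ) = 2 * 192 * 1024 * (s : ℝ) ^ 6 := by
          rw [hKd]
          push_cast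
          ring
        have e2 : (s : ℝ) ^ 6 ≠ 0 := by positivity
        rw [e1]
        field_simp
        norm_num
      have h3 : 128 * (K : ℝ) ^ 2 * s ^ 3 * L ^ 3 ≤ 128 * (K : ℝ) ^ 2 * s ^ 3 * (ε * N ^ 3) :=
        mul_le_mul_of_nonneg_left hLLL (by positivity)
      have h4 : 128 * (K : ℝ) ^ 2 * s ^ 3 * (ε * N ^ 3) = 128 * (K : ℝ) ^ 2 * s ^ 3 * ε * N ^ 3 := by ring
      have h5 : 128 * (K : ℝ) ^ 2 * s ^ 3 * ε * N ^ 3 ≤ 1 / 384 * N ^ 3 :=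
        mul_le_mul_of_nonneg_right b1 (by positivity)
      rw [h2]
      linarith)
  exact ⟨xch S r c ω, xch_sub hS hD ω w1, xch_col hS hD ω w1 w2, xch_row hS hD ω w1 w2,
    fun v hv l => xch_skew hs hS hD ω w1 w2 w3 w4 hv l⟩

end Pool.Agent.NKL
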