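import Pool.Agent.NKL.ITA
import Pool.Agent.NKL.EKK
import Pool.Agent.NKL.REJ

set_option autoImplicit false

/-!
# NKL / ITM : the expected value of an item after one round

Take the expectation of `ita` with `X = props ω` (`nxt S ω = S ∪ acc S (props ω)` by definition):
`|Ex Z - Ex Z'| ≤ Ex |Z - Z'|` (`L.Ex_mono` twice), the expectation of the comparison quantity is
computed with `Ex_cnt` (linearity: `L.Ex_sum`, `L.Ex_mul_right`, ...), and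
`Ex K(K-1) ≤ (∑ rt)² + |B|² κ ≤ b² ρ² + b² κ` (`Ex_kk`),
`Ex 1[q ∈ X ∧ (q ∉ acc ∨ q ∈ S)] ≤ Ex 1[q ∈ X, q ∉ acc] + (if q ∈ S then Ex 1[q ∈ X] = 0)
≤ π q * (b ρ)` (`Ex_rej`, `Ex_taken`), whose sum over `q ∈ cells L`, `L ∈ B` is at most `b ρ b ρ`.
Total: `U^b (2 b² ρ² + 2 b² κ + 2 b² ρ²)`; `U^|B| ≤ U^b` as `U ≥ 1`.
-/

namespace Pool.Agent.NKL

open Finset Pool.Agent.ChPi

variable {α V Λ : Type} [Fintype α] [DecidableEq α] [Fintype V] [DecidableEq V] [DecidableEq Λ]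
  {N : ℕ} {Y : Sys α V Λ N} {S : Finset α} {π : α → ℝ} {κ ρ : ℝ}

omit [DecidableEq α] in
private theorem itm_ex_abs {p : Fin N → Option α → ℝ} (hp0 : ∀ v o, 0 ≤ p v o)
    {Z C R : (Fin N → Option α) → ℝ} (hZ : ∀ ω, |Z ω - C ω| ≤ R ω) :
    |Ex p Z - Ex p C| ≤ Ex p R := by
  rw [abs_le]
  constructor
  · have h1 : Ex p C ≤ Ex p (fun ω => Z ω + R ω) := by
      apply L.Ex_mono hp0
      intro ω
      have := (abs_le.1 (hZ ω)).1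
      linarith
    rw [L.Ex_add] at h1
    linarith
  · have h1 : Ex p Z ≤ Ex p (fun ω => C ω + R ω) := by
      apply L.Ex_mono hp0
      intro ω
      have := (abs_le.1 (hZ ω)).2
      linarith
    rw [L.Ex_add] at h1
    linarith

omit [DecidableEq α] [Fintype V] [DecidableEq V] in
private theorem itm_rt_nonneg (h : Y.Adm S π κ ρ) (L : V × Λ) : 0 ≤ Y.rt π L :=
  Finset.sum_nonneg fun p _ => h.nonneg p

omit [DecidableEq α] [Fintype V] [DecidableEq V] in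
private theorem itm_sum_rt (h : Y.Adm S π κ ρ) (hρ : 0 ≤ ρ) {b : ℕ}
    (B : Finset (V × Λ)) (hB : B.card ≤ b) : ∑ L ∈ B, Y.rt π L ≤ b * ρ := by
  calc ∑ L ∈ B, Y.rt π L ≤ ∑ _L ∈ B, ρ := Finset.sum_le_sum fun L _ => h.line L
    _ = B.card * ρ := by rw [Finset.sum_const, nsmul_eq_mul]
    _ ≤ b * ρ := mul_le_mul_of_nonneg_right (by exact_mod_cast hB) hρ

private theorem itm_comp (h : Y.Adm S π κ ρ) (B : Finset (V × Λ)) (P : ℝ) (Q : V × Λ → ℝ) :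
    Ex (Y.law π) (fun ω => P * (1 - ∑ L ∈ B, (Y.cnt (Y.props ω) L.1 L.2 : ℝ))
        + ∑ L ∈ B, (Y.cnt (Y.props ω) L.1 L.2 : ℝ) * Q L)
      = P * (1 - ∑ L ∈ B, Y.rt π L) + ∑ L ∈ B, Y.rt π L * Q L := by
  have hs : ∀ v, ∑ o, Y.law π v o = 1 := law_sum Y π
  have e1 : (fun ω => P * (1 - ∑ L ∈ B, (Y.cnt (Y.props ω) L.1 L.2 : ℝ))
        + ∑ L ∈ B, (Y.cnt (Y.props ω) L.1 L.2 : ℝ) * Q L)
      = (fun ω => P + ∑ L ∈ B, (Y.cnt (Y.props ω) L.1 L.2 : ℝ) * (Q L - P)) := by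
    funext ω
    have : ∑ L ∈ B, (Y.cnt (Y.props ω) L.1 L.2 : ℝ) * (Q L - P)
        = ∑ L ∈ B, (Y.cnt (Y.props ω) L.1 L.2 : ℝ) * Q L
          - (∑ L ∈ B, (Y.cnt (Y.props ω) L.1 L.2 : ℝ)) * P := by
      rw [Finset.sum_mul, ← Finset.sum_sub_distrib]
      exact Finset.sum_congr rfl fun L _ => by ring
    rw [this]
    ring
  rw [e1, L.Ex_add, L.Ex_const hs, L.Ex_sum]
  have e2 : ∀ L ∈ B, Ex (Y.law π) (fun ω => (Y.cnt (Y.props ω) L.1 L.2 : ℝ) * (Q L - P))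
      = Y.rt π L * (Q L - P) := by
    intro M _
    rw [L.Ex_mul_right, Ex_cnt h]
  rw [Finset.sum_congr rfl e2]
  have : ∑ L ∈ B, Y.rt π L * (Q L - P)
      = ∑ L ∈ B, Y.rt π L * Q L - (∑ L ∈ B, Y.rt π L) * P := by
    rw [Finset.sum_mul, ← Finset.sum_sub_distrib]
    exact Finset.sum_congr rfl fun L _ => by ring
  rw [this]
  ring

private theorem itm_bad (h : Y.Adm S π κ ρ) (hρ : 0 ≤ ρ) {b : ℕ} (hV : Fintype.card V ≤ b)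
    (q : α) :
    Ex (Y.law π) (fun ω => if q ∈ Y.props ω ∧ (q ∉ Y.acc S (Y.props ω) ∨ q ∈ S)
      then (1 : ℝ) else 0) ≤ π q * (b * ρ) := by
  have hw : ∀ v o, 0 ≤ Y.law π v o := law_nonneg h
  by_cases hq : q ∈ S
  · calc Ex (Y.law π) (fun ω => if q ∈ Y.props ω ∧ (q ∉ Y.acc S (Y.props ω) ∨ q ∈ S)
          then (1 : ℝ) else 0)
        ≤ Ex (Y.law π) (fun ω => if q ∈ Y.props ω then (1 : ℝ) else 0) := by
          apply L.Ex_mono hw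
          intro ω
          by_cases h1 : q ∈ Y.props ω
          · rw [if_pos h1]
            split_ifs
            · exact le_refl _
            · exact zero_le_one
          · rw [if_neg h1, if_neg (fun hh => h1 hh.1)]
      _ = 0 := Ex_taken h hq
      _ ≤ π q * (b * ρ) := mul_nonneg (h.nonneg q) (mul_nonneg (Nat.cast_nonneg b) hρ)
  · have e : (fun ω => if q ∈ Y.props ω ∧ (q ∉ Y.acc S (Y.props ω) ∨ q ∈ S)
          then (1 : ℝ) else 0)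
        = (fun ω => if q ∈ Y.props ω ∧ q ∉ Y.acc S (Y.props ω) then (1 : ℝ) else 0) := by
      funext ω
      have : (q ∈ Y.props ω ∧ (q ∉ Y.acc S (Y.props ω) ∨ q ∈ S))
          ↔ (q ∈ Y.props ω ∧ q ∉ Y.acc S (Y.props ω)) := by
        constructor
        · rintro ⟨h1, h2 | h2⟩
          · exact ⟨h1, h2⟩
          · exact absurd h2 hq
        · rintro ⟨h1, h2⟩
          exact ⟨h1, Or.inl h2⟩
      simp only [this]
    rw [e]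
    refine (Ex_rej h q).trans ?_
    refine mul_le_mul_of_nonneg_left ?_ (h.nonneg q)
    exact mul_le_mul_of_nonneg_right (by exact_mod_cast hV) hρ

theorem itm (hY : Y.Ok) (h : Y.Adm S π κ ρ) (hκ : 0 ≤ κ) (hρ : 0 ≤ ρ) {b : ℕ}
    (hV : Fintype.card V ≤ b) (B : Finset (V × Λ)) (hB : B.card ≤ b) (G : V × Λ → ℕ → ℝ) {U : ℝ}
    (hU : 1 ≤ U) (hG0 : ∀ L ∈ B, ∀ j, 0 ≤ G L j) (hG1 : ∀ L ∈ B, ∀ j, G L j ≤ U) :
    |Ex (Y.law π) (fun ω => ∏ L ∈ B, G L (Y.cnt (Y.nxt S ω) L.1 L.2))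
      - ((∏ L ∈ B, G L (Y.cnt S L.1 L.2)) * (1 - ∑ L ∈ B, Y.rt π L)
        + ∑ L ∈ B, Y.rt π L *
          (G L (Y.cnt S L.1 L.2 + 1) * ∏ L' ∈ B.erase L, G L' (Y.cnt S L'.1 L'.2)))|
    ≤ U ^ b * (4 * (b : ℝ) ^ 2 * ρ ^ 2 + 2 * (b : ℝ) ^ 2 * κ) := by
  have hw : ∀ v o, 0 ≤ Y.law π v o := law_nonneg h
  have hb0 : (0 : ℝ) ≤ b := Nat.cast_nonneg b
  have hpt := fun ω => ita Y S (Y.props ω) B G hU hG0 hG1
  have h1 := itm_ex_abs hw hpt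
  rw [itm_comp h B (∏ L ∈ B, G L (Y.cnt S L.1 L.2))
    (fun L => G L (Y.cnt S L.1 L.2 + 1) * ∏ L' ∈ B.erase L, G L' (Y.cnt S L'.1 L'.2))] at h1
  refine le_trans h1 ?_
  have hKK := Ex_kk hY h hκ B
  have hsr := itm_sum_rt h hρ B hB
  have hsr0 : 0 ≤ ∑ L ∈ B, Y.rt π L := Finset.sum_nonneg fun L _ => itm_rt_nonneg h L
  have hBb : (B.card : ℝ) ≤ b := by exact_mod_cast hB
  have hKK2 : Ex (Y.law π) (fun ω => (∑ L ∈ B, (Y.cnt (Y.props ω) L.1 L.2 : ℝ))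
      * ((∑ L ∈ B, (Y.cnt (Y.props ω) L.1 L.2 : ℝ)) - 1)) ≤ (b * ρ) ^ 2 + (b : ℝ) ^ 2 * κ := by
    refine hKK.trans (add_le_add (pow_le_pow_left₀ hsr0 hsr 2) ?_)
    exact mul_le_mul_of_nonneg_right (pow_le_pow_left₀ (Nat.cast_nonneg _) hBb 2) hκ
  have hbad : Ex (Y.law π) (fun ω => ∑ L ∈ B, ∑ q ∈ Y.cells L.1 L.2,
        (if q ∈ Y.props ω ∧ (q ∉ Y.acc S (Y.props ω) ∨ q ∈ S) then (1 : ℝ) else 0))
      ≤ (b * ρ) * (b * ρ) := by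
    rw [L.Ex_sum]
    calc ∑ L ∈ B, Ex (Y.law π) (fun ω => ∑ q ∈ Y.cells L.1 L.2,
          (if q ∈ Y.props ω ∧ (q ∉ Y.acc S (Y.props ω) ∨ q ∈ S) then (1 : ℝ) else 0))
        ≤ ∑ L ∈ B, Y.rt π L * (b * ρ) := by
          refine Finset.sum_le_sum fun M _ => ?_
          rw [L.Ex_sum]
          unfold Sys.rt
          rw [Finset.sum_mul]
          exact Finset.sum_le_sum fun q _ => itm_bad h hρ hV q
      _ = (∑ L ∈ B, Y.rt π L) * (b * ρ) := by rw [Finset.sum_mul]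
      _ ≤ (b * ρ) * (b * ρ) := mul_le_mul_of_nonneg_right hsr (mul_nonneg hb0 hρ)
  rw [L.Ex_mul_left, L.Ex_add, L.Ex_mul_left, L.Ex_mul_left]
  have hU0 : (0 : ℝ) ≤ U := le_trans zero_le_one hU
  have hUb : U ^ B.card ≤ U ^ b := pow_le_pow_right₀ hU hB
  have htot : 2 * Ex (Y.law π) (fun ω => (∑ L ∈ B, (Y.cnt (Y.props ω) L.1 L.2 : ℝ))
        * ((∑ L ∈ B, (Y.cnt (Y.props ω) L.1 L.2 : ℝ)) - 1))
      + 2 * Ex (Y.law π) (fun ω => ∑ L ∈ B, ∑ q ∈ Y.cells L.1 L.2,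
        (if q ∈ Y.props ω ∧ (q ∉ Y.acc S (Y.props ω) ∨ q ∈ S) then (1 : ℝ) else 0))
      ≤ 4 * (b : ℝ) ^ 2 * ρ ^ 2 + 2 * (b : ℝ) ^ 2 * κ := by
    have e : (b * ρ) ^ 2 = (b : ℝ) ^ 2 * ρ ^ 2 := by ring
    have e' : (b * ρ) * (b * ρ) = (b : ℝ) ^ 2 * ρ ^ 2 := by ring
    rw [e] at hKK2
    rw [e'] at hbad
    linarith
  refine (mul_le_mul_of_nonneg_left htot (pow_nonneg hU0 _)).trans ?_
  refine mul_le_mul_of_nonneg_right hUb ?_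
  have : (0 : ℝ) ≤ (b : ℝ) ^ 2 * ρ ^ 2 := by positivity
  have h3 : (0 : ℝ) ≤ (b : ℝ) ^ 2 * κ := mul_nonneg (sq_nonneg _) hκ
  linarith

end Pool.Agent.NKL
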