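import Mathlib

set_option autoImplicit false

/-!
# NKL / PRD : first order expansion of a product

Let `P_B = ∏ ((1-β) A + β A')`, `F_B` the first order expression.  Induction on `B`:
(1) `|P_B - ∏ A| ≤ U^|B| |B| βm`: for `insert a B`:
`P_ins - ∏_ins A = A_a (P_B - ∏ A) + β_a (A'_a - A_a) P_B`, `0 ≤ P_B ≤ U^|B|`, `|A'_a - A_a| ≤ U`.
(2) `P_ins - F_ins = A_a (P_B - F_B) + β_a (A'_a - A_a) (P_B - ∏_B A)`, because
`F_ins = A_a F_B + β_a (A'_a - A_a) ∏_B A`.  So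
`|P_ins - F_ins| ≤ U U^|B| 2^|B| βm² + βm U U^|B| |B| βm ≤ U^(|B|+1) 2^(|B|+1) βm²` as `|B| ≤ 2^|B|`.
-/

namespace Pool.Agent.NKL

open Finset

private theorem prdAux {ι : Type} [DecidableEq ι] (A A' β : ι → ℝ) {U βm : ℝ} (hU : 1 ≤ U)
    (hβm : βm ≤ 1) (B : Finset ι)
    (hA0 : ∀ L ∈ B, 0 ≤ A L) (hA1 : ∀ L ∈ B, A L ≤ U)
    (hA'0 : ∀ L ∈ B, 0 ≤ A' L) (hA'1 : ∀ L ∈ B, A' L ≤ U)
    (hβ0 : ∀ L ∈ B, 0 ≤ β L) (hβ1 : ∀ L ∈ B, β L ≤ βm) :
    (0 ≤ ∏ L ∈ B, ((1 - β L) * A L + β L * A' L) ∧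
      ∏ L ∈ B, ((1 - β L) * A L + β L * A' L) ≤ U ^ B.card) ∧
    |(∏ L ∈ B, ((1 - β L) * A L + β L * A' L)) - ∏ L ∈ B, A L| ≤ U ^ B.card * B.card * βm ∧
    |(∏ L ∈ B, ((1 - β L) * A L + β L * A' L))
      - ((∏ L ∈ B, A L) * (1 - ∑ L ∈ B, β L)
        + ∑ L ∈ B, β L * (A' L * ∏ L' ∈ B.erase L, A L'))|
    ≤ U ^ B.card * 2 ^ B.card * βm ^ 2 := by
  induction B using Finset.induction_on with
  | empty => simp; positivity
  | insert a B ha ih =>
    obtain ⟨⟨ih1, ih2⟩, ih3, ih4⟩ := ih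
      (fun L hL => hA0 L (Finset.mem_insert_of_mem hL)) (fun L hL => hA1 L (Finset.mem_insert_of_mem hL))
      (fun L hL => hA'0 L (Finset.mem_insert_of_mem hL)) (fun L hL => hA'1 L (Finset.mem_insert_of_mem hL))
      (fun L hL => hβ0 L (Finset.mem_insert_of_mem hL)) (fun L hL => hβ1 L (Finset.mem_insert_of_mem hL))
    have a0 := hA0 a (Finset.mem_insert_self a B)
    have a1 := hA1 a (Finset.mem_insert_self a B)
    have b0 := hA'0 a (Finset.mem_insert_self a B)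
    have b1 := hA'1 a (Finset.mem_insert_self a B)
    have c0 := hβ0 a (Finset.mem_insert_self a B)
    have c1 := hβ1 a (Finset.mem_insert_self a B)
    have hF : (∏ L ∈ insert a B, A L) * (1 - ∑ L ∈ insert a B, β L)
        + ∑ L ∈ insert a B, β L * (A' L * ∏ L' ∈ (insert a B).erase L, A L')
        = A a * ((∏ L ∈ B, A L) * (1 - ∑ L ∈ B, β L)
          + ∑ L ∈ B, β L * (A' L * ∏ L' ∈ B.erase L, A L')) + β a * (A' a - A a) * ∏ L ∈ B, A L := by
      rw [Finset.prod_insert ha, Finset.sum_insert ha, Finset.sum_insert ha, Finset.erase_insert ha]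
      have h2 : ∑ L ∈ B, β L * (A' L * ∏ L' ∈ (insert a B).erase L, A L')
          = A a * ∑ L ∈ B, β L * (A' L * ∏ L' ∈ B.erase L, A L') := by
        rw [Finset.mul_sum]
        refine Finset.sum_congr rfl fun L hL => ?_
        have hne : a ≠ L := fun h => ha (h ▸ hL)
        rw [Finset.erase_insert_of_ne hne, Finset.prod_insert (fun h => ha (Finset.mem_of_mem_erase h))]
        ring
      rw [h2]
      ring
    rw [hF, Finset.prod_insert ha, Finset.prod_insert ha, Finset.card_insert_of_notMem ha]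
    set P := ∏ L ∈ B, ((1 - β L) * A L + β L * A' L) with hP
    set Q := ∏ L ∈ B, A L with hQ
    set F := (Q * (1 - ∑ L ∈ B, β L) + ∑ L ∈ B, β L * (A' L * ∏ L' ∈ B.erase L, A L')) with hFd
    have hm0 : 0 ≤ βm := c0.trans c1
    have hUB : 0 ≤ U ^ B.card := by positivity
    have hU0 : (0 : ℝ) ≤ U := by linarith
    have hda : |A' a - A a| ≤ U := by
      rw [abs_le]
      constructor <;> linarith
    have hba : |β a * (A' a - A a)| ≤ βm * U := by
      rw [abs_mul, abs_of_nonneg c0]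
      exact mul_le_mul c1 hda (abs_nonneg _) hm0
    refine ⟨⟨?_, ?_⟩, ?_, ?_⟩
    · refine mul_nonneg ?_ ih1
      have := mul_nonneg (sub_nonneg.2 (c1.trans hβm)) a0
      have := mul_nonneg c0 b0
      linarith
    · have h1 : (1 - β a) * A a + β a * A' a ≤ U := by
        have e1 := mul_le_mul_of_nonneg_left a1 (sub_nonneg.2 (c1.trans hβm))
        have e2 := mul_le_mul_of_nonneg_left b1 c0
        nlinarith
      rw [pow_succ, mul_comm (U ^ B.card)]
      exact mul_le_mul h1 ih2 ih1 hU0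
    · have h1 : ((1 - β a) * A a + β a * A' a) * P - A a * Q
          = A a * (P - Q) + β a * (A' a - A a) * P := by ring
      rw [h1]
      refine (abs_add_le _ _).trans ?_
      rw [abs_mul, abs_mul (β a * (A' a - A a)), abs_of_nonneg a0, abs_of_nonneg ih1]
      have e1 : A a * |P - Q| ≤ U * (U ^ B.card * B.card * βm) :=
        mul_le_mul a1 ih3 (abs_nonneg _) hU0
      have e2 : |β a * (A' a - A a)| * P ≤ (βm * U) * U ^ B.card :=
        mul_le_mul hba ih2 ih1 (mul_nonneg hm0 hU0)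
      refine (add_le_add e1 e2).trans (le_of_eq ?_)
      push_cast
      ring
    · have h1 : ((1 - β a) * A a + β a * A' a) * P - (A a * F + β a * (A' a - A a) * Q)
          = A a * (P - F) + β a * (A' a - A a) * (P - Q) := by ring
      rw [h1]
      refine (abs_add_le _ _).trans ?_
      rw [abs_mul, abs_mul (β a * (A' a - A a)), abs_of_nonneg a0]
      have e1 : A a * |P - F| ≤ U * (U ^ B.card * 2 ^ B.card * βm ^ 2) :=
        mul_le_mul a1 ih4 (abs_nonneg _) hU0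
      have e2 : |β a * (A' a - A a)| * |P - Q| ≤ (βm * U) * (U ^ B.card * B.card * βm) :=
        mul_le_mul hba ih3 (abs_nonneg _) (mul_nonneg hm0 hU0)
      refine (add_le_add e1 e2).trans ?_
      have h3 : (B.card : ℝ) ≤ 2 ^ B.card := by
        exact_mod_cast (Nat.lt_two_pow_self (n := B.card)).le
      have h4 : 0 ≤ U ^ B.card * U * βm ^ 2 := by positivity
      have h5 := mul_le_mul_of_nonneg_left h3 h4
      calc U * (U ^ B.card * 2 ^ B.card * βm ^ 2) + (βm * U) * (U ^ B.card * B.card * βm)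
          = U ^ B.card * U * βm ^ 2 * 2 ^ B.card + U ^ B.card * U * βm ^ 2 * B.card := by ring
        _ ≤ U ^ B.card * U * βm ^ 2 * 2 ^ B.card + U ^ B.card * U * βm ^ 2 * 2 ^ B.card := by
          linarith
        _ = U ^ (B.card + 1) * 2 ^ (B.card + 1) * βm ^ 2 := by ring

theorem prd {ι : Type} [DecidableEq ι] (B : Finset ι) (A A' β : ι → ℝ) {U βm : ℝ} (hU : 1 ≤ U)
    (hA0 : ∀ L ∈ B, 0 ≤ A L) (hA1 : ∀ L ∈ B, A L ≤ U)
    (hA'0 : ∀ L ∈ B, 0 ≤ A' L) (hA'1 : ∀ L ∈ B, A' L ≤ U)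
    (hβ0 : ∀ L ∈ B, 0 ≤ β L) (hβ1 : ∀ L ∈ B, β L ≤ βm) (hβm : βm ≤ 1) :
    |(∏ L ∈ B, ((1 - β L) * A L + β L * A' L))
      - ((∏ L ∈ B, A L) * (1 - ∑ L ∈ B, β L)
        + ∑ L ∈ B, β L * (A' L * ∏ L' ∈ B.erase L, A L'))|
    ≤ U ^ B.card * 2 ^ B.card * βm ^ 2 := by
  exact (prdAux A A' β hU hβm B hA0 hA1 hA'0 hA'1 hβ0 hβ1).2.2

end Pool.Agent.NKL
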