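import Pool.Agent.NKL.CHU
import Pool.Agent.NKL.ITM
import Pool.Agent.NKL.PRD

set_option autoImplicit false

/-!
# NKL / STP : one round for a product of backward functions

For `L ∈ B` let `m_L, c_L` be mass and capacity, `n_L = cnt S L`, `G_L j = uu .. (T L) (T L - (i+1)) j`
(values in `[0, φ⁻¹]` by `uu_nonneg`, `uu_le`), `β'_L = bb .. i` if `n_L < c_L` and `0` otherwise.
If `n_L ≥ c_L`, every cell of `L` is blocked, so `rt π L = 0`.  Hence `|rt π L - β'_L| ≤ ξ` for all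
`L ∈ B` and replacing `rt` by `β'` in `itm` changes the expression by at most `2 b ξ U^b`,
`U = φ⁻¹` (`|∏ G| ≤ U^|B|` and `|G_L ∏ G| ≤ U^|B|`).  Then `prd` with `A L = G_L n_L`,
`A' L = G_L (n_L + 1)`, and `(1 - β'_L) G_L n_L + β'_L G_L (n_L+1) = uu .. (T L) (T L - i) n_L`
(`uu_step` if `n_L < c_L`; both sides are `0` by `uu_full` otherwise).
`U^|B| 2^|B| ≤ U^b 2^b`.
-/

namespace Pool.Agent.NKL

open Finset Pool.Agent.ChPi

variable {α V Λ : Type} [Fintype α] [DecidableEq α] [Fintype V] [DecidableEq V] [DecidableEq Λ]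
  {N : ℕ} {Y : Sys α V Λ N} {S : Finset α} {π : α → ℝ} {κ ρ θ φ : ℝ}

theorem rt_full (h : Y.Adm S π κ ρ) {v : V} {l : Λ} (hf : Y.cap v ≤ Y.cnt S v l) :
    Y.rt π (v, l) = 0 := by
  unfold Sys.rt
  refine Finset.sum_eq_zero fun p hp => h.blk p (Or.inr ⟨v, ?_⟩)
  have h1 : Y.line v p = l := (Finset.mem_filter.1 hp).2
  rw [h1]
  exact hf

/-- a product of numbers in `[0, U]` over at most `b` indices is at most `U ^ b` -/
private theorem prod_le_pow' {ι : Type} [DecidableEq ι] (B : Finset ι) (A : ι → ℝ) {U : ℝ}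
    (hU : 1 ≤ U) {b : ℕ} (hB : B.card ≤ b) (h0 : ∀ L ∈ B, 0 ≤ A L) (h1 : ∀ L ∈ B, A L ≤ U) :
    ∏ L ∈ B, A L ≤ U ^ b := by
  calc ∏ L ∈ B, A L ≤ ∏ _L ∈ B, U := Finset.prod_le_prod h0 h1
    _ = U ^ B.card := by rw [Finset.prod_const]
    _ ≤ U ^ b := pow_le_pow_right₀ hU hB

theorem stp (hY : Y.Ok) (h : Y.Adm S π κ ρ) (hκ : 0 ≤ κ) (hρ : 0 ≤ ρ) (hφ : 0 < φ) (hφ1 : φ ≤ 1)
    {b R i : ℕ}
    (hV : Fintype.card V ≤ b) (B : Finset (V × Λ)) (hB : B.card ≤ b) (T : V × Λ → ℕ)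
    (hi : ∀ L ∈ B, i < T L) (hT : ∀ L ∈ B, T L ≤ R)
    (hch : ∀ L ∈ B, ChOk θ (Y.mass L.1 L.2) (Y.cap L.1) R φ) {ξ βm : ℝ} (hξ : 0 ≤ ξ)
    (hrate : ∀ L ∈ B, Y.cnt S L.1 L.2 < Y.cap L.1 →
      |Y.rt π L - bb θ (Y.mass L.1 L.2) (Y.cap L.1) i| ≤ ξ)
    (hβ : ∀ L ∈ B, bb θ (Y.mass L.1 L.2) (Y.cap L.1) i ≤ βm) (hβ0 : 0 ≤ βm) (hβ1 : βm ≤ 1) :
    |Ex (Y.law π) (fun ω => ∏ L ∈ B, uu θ (Y.mass L.1 L.2) (Y.cap L.1) (T L) (T L - (i + 1))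
        (Y.cnt (Y.nxt S ω) L.1 L.2))
      - ∏ L ∈ B, uu θ (Y.mass L.1 L.2) (Y.cap L.1) (T L) (T L - i) (Y.cnt S L.1 L.2)|
    ≤ (φ⁻¹) ^ b * (4 * (b : ℝ) ^ 2 * ρ ^ 2 + 2 * (b : ℝ) ^ 2 * κ + 2 * b * ξ
        + 2 ^ b * βm ^ 2) := by
  have hU : 1 ≤ φ⁻¹ := (one_le_inv₀ hφ).2 hφ1
  set G : V × Λ → ℕ → ℝ := fun L j =>
    uu θ (Y.mass L.1 L.2) (Y.cap L.1) (T L) (T L - (i + 1)) j with hG
  have hG0 : ∀ L ∈ B, ∀ j, 0 ≤ G L j := fun L hL j =>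
    uu_nonneg (hch L hL) (hT L hL) (Nat.sub_le _ _) j
  have hG1 : ∀ L ∈ B, ∀ j, G L j ≤ φ⁻¹ := fun L hL j =>
    uu_le (hch L hL) (hT L hL) (Nat.sub_le _ _) j
  set n : V × Λ → ℕ := fun L => Y.cnt S L.1 L.2 with hn
  set β : V × Λ → ℝ := fun L =>
    if n L < Y.cap L.1 then bb θ (Y.mass L.1 L.2) (Y.cap L.1) i else 0 with hβd
  have h1 := itm hY h hκ hρ hV B hB G hU hG0 hG1
  have hiR : ∀ L ∈ B, i ≤ R := fun L hL => ((hi L hL).trans_le (hT L hL)).le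
  have hb0 : ∀ L ∈ B, 0 ≤ β L := by
    intro L hL
    simp only [hβd]
    split_ifs
    · exact bb_nonneg (hch L hL) (hiR L hL)
    · exact le_rfl
  have hb1 : ∀ L ∈ B, β L ≤ βm := by
    intro L hL
    simp only [hβd]
    split_ifs
    · exact hβ L hL
    · exact hβ0
  have h3 := prd B (fun L => G L (n L)) (fun L => G L (n L + 1)) β hU (fun L hL => hG0 L hL _)
    (fun L hL => hG1 L hL _) (fun L hL => hG0 L hL _) (fun L hL => hG1 L hL _) hb0 hb1 hβ1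
  have h4 : ∏ L ∈ B, ((1 - β L) * G L (n L) + β L * G L (n L + 1)) =
      ∏ L ∈ B, uu θ (Y.mass L.1 L.2) (Y.cap L.1) (T L) (T L - i) (n L) := by
    refine Finset.prod_congr rfl fun L hL => ?_
    rw [uu_step _ _ _ _ _ (hi L hL)]
    simp only [hβd, hG]
    split_ifs with hc
    · rfl
    · rw [uu_full _ _ _ _ _ (not_lt.1 hc)]
      ring
  have hdiff : ∀ L ∈ B, |Y.rt π L - β L| ≤ ξ := by
    intro L hL
    simp only [hβd]
    split_ifs with hc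
    · exact hrate L hL hc
    · have : Y.rt π L = 0 := rt_full (v := L.1) (l := L.2) h (not_lt.1 hc)
      rw [this]
      simpa using hξ
  have hP1 : ∏ L ∈ B, G L (n L) ≤ φ⁻¹ ^ b :=
    prod_le_pow' B _ hU hB (fun L hL => hG0 L hL _) (fun L hL => hG1 L hL _)
  have hP0 : 0 ≤ ∏ L ∈ B, G L (n L) := Finset.prod_nonneg fun L hL => hG0 L hL _
  have hQ : ∀ L ∈ B, G L (n L + 1) * ∏ L' ∈ B.erase L, G L' (n L') ≤ φ⁻¹ ^ b := by
    intro L hL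
    have hc : (B.erase L).card + 1 = B.card := Finset.card_erase_add_one hL
    have h5 : ∏ L' ∈ B.erase L, G L' (n L') ≤ φ⁻¹ ^ (B.erase L).card :=
      prod_le_pow' (B.erase L) _ hU le_rfl (fun L' hL' => hG0 L' (Finset.mem_of_mem_erase hL') _)
        (fun L' hL' => hG1 L' (Finset.mem_of_mem_erase hL') _)
    calc G L (n L + 1) * ∏ L' ∈ B.erase L, G L' (n L')
        ≤ φ⁻¹ * φ⁻¹ ^ (B.erase L).card :=
          mul_le_mul (hG1 L hL _) h5 (Finset.prod_nonneg fun L' hL' =>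
            hG0 L' (Finset.mem_of_mem_erase hL') _) (by linarith)
      _ = φ⁻¹ ^ B.card := by rw [← hc, pow_succ]; ring
      _ ≤ φ⁻¹ ^ b := pow_le_pow_right₀ hU hB
  have hQ0 : ∀ L ∈ B, 0 ≤ G L (n L + 1) * ∏ L' ∈ B.erase L, G L' (n L') := fun L hL =>
    mul_nonneg (hG0 L hL _) (Finset.prod_nonneg fun L' hL' =>
      hG0 L' (Finset.mem_of_mem_erase hL') _)
  have h2 : |((∏ L ∈ B, G L (n L)) * (1 - ∑ L ∈ B, Y.rt π L)
        + ∑ L ∈ B, Y.rt π L * (G L (n L + 1) * ∏ L' ∈ B.erase L, G L' (n L')))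
      - ((∏ L ∈ B, G L (n L)) * (1 - ∑ L ∈ B, β L)
        + ∑ L ∈ B, β L * (G L (n L + 1) * ∏ L' ∈ B.erase L, G L' (n L')))|
      ≤ 2 * b * ξ * φ⁻¹ ^ b := by
    have he : ((∏ L ∈ B, G L (n L)) * (1 - ∑ L ∈ B, Y.rt π L)
        + ∑ L ∈ B, Y.rt π L * (G L (n L + 1) * ∏ L' ∈ B.erase L, G L' (n L')))
      - ((∏ L ∈ B, G L (n L)) * (1 - ∑ L ∈ B, β L)
        + ∑ L ∈ B, β L * (G L (n L + 1) * ∏ L' ∈ B.erase L, G L' (n L')))
      = ∑ L ∈ B, (Y.rt π L - β L) *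
        (G L (n L + 1) * (∏ L' ∈ B.erase L, G L' (n L')) - ∏ L ∈ B, G L (n L)) := by
      simp only [sub_mul, mul_sub, Finset.sum_sub_distrib, ← Finset.sum_mul]
      ring
    rw [he]
    calc |∑ L ∈ B, (Y.rt π L - β L) *
        (G L (n L + 1) * (∏ L' ∈ B.erase L, G L' (n L')) - ∏ L ∈ B, G L (n L))|
        ≤ ∑ L ∈ B, |(Y.rt π L - β L) *
        (G L (n L + 1) * (∏ L' ∈ B.erase L, G L' (n L')) - ∏ L ∈ B, G L (n L))| :=
          Finset.abs_sum_le_sum_abs _ _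
      _ ≤ ∑ _L ∈ B, ξ * (2 * φ⁻¹ ^ b) := by
          refine Finset.sum_le_sum fun L hL => ?_
          rw [abs_mul]
          refine mul_le_mul (hdiff L hL) ?_ (abs_nonneg _) hξ
          have e1 := hQ L hL
          have e2 := hQ0 L hL
          rw [abs_le]
          constructor <;> linarith
      _ = B.card * (ξ * (2 * φ⁻¹ ^ b)) := by rw [Finset.sum_const, nsmul_eq_mul]
      _ ≤ b * (ξ * (2 * φ⁻¹ ^ b)) := by
          refine mul_le_mul_of_nonneg_right (by exact_mod_cast hB) ?_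
          have : 0 ≤ φ⁻¹ ^ b := by positivity
          positivity
      _ = 2 * b * ξ * φ⁻¹ ^ b := by ring
  have h5 : φ⁻¹ ^ B.card * 2 ^ B.card * βm ^ 2 ≤ φ⁻¹ ^ b * 2 ^ b * βm ^ 2 := by
    refine mul_le_mul_of_nonneg_right ?_ (sq_nonneg _)
    refine mul_le_mul (pow_le_pow_right₀ hU hB) (pow_le_pow_right₀ (by norm_num) hB)
      (by positivity) (by positivity)
  rw [h4, abs_sub_comm] at h3
  have h6 : |Ex (Y.law π) (fun ω => ∏ L ∈ B, G L (Y.cnt (Y.nxt S ω) L.1 L.2))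
      - ∏ L ∈ B, uu θ (Y.mass L.1 L.2) (Y.cap L.1) (T L) (T L - i) (n L)|
      ≤ φ⁻¹ ^ b * (4 * (b : ℝ) ^ 2 * ρ ^ 2 + 2 * (b : ℝ) ^ 2 * κ) + 2 * b * ξ * φ⁻¹ ^ b
        + φ⁻¹ ^ b * 2 ^ b * βm ^ 2 := by
    refine (abs_sub_le _ _ _).trans (add_le_add ((abs_sub_le _ _ _).trans (add_le_add h1 h2)) ?_)
    exact h3.trans h5
  refine h6.trans (le_of_eq ?_)
  ring

end Pool.Agent.NKL
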