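import Pool.Agent.NKL.RAT
import Pool.Agent.NKL.STP

set_option autoImplicit false

/-!
# NKL / RTL : upper bound for the rate of a line

For a full line `rt = 0` (`rt_full` with `pi_adm`, or directly: all its cells are blocked) and the
right hand side is nonnegative.  For a line which is not full the proof of `pi_rate` shows
`rt = θ/(N FF) (Phi θ v l i 0 S - ∑_{p ∈ S} ..) ≤ θ/(N FF) (N mass + e N)` (the subtracted terms are
nonnegative, `Trk` with `T = i`).
-/

namespace Pool.Agent.NKL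

open Finset Pool.Agent.ChPi

variable {α V Λ : Type} [Fintype α] [DecidableEq α] [Fintype V] [DecidableEq V] [DecidableEq Λ]
  {N : ℕ} {Y : Sys α V Λ N} {θ φ W e : ℝ} {R b s i : ℕ} {S : Finset α}

private theorem rat_eq (v : V) (l : Λ) (hvl : Y.cnt S v l < Y.cap v) {p : α} (hp : p ∈ Y.cells v l) :
    Y.pi θ i S p = if p ∈ S then 0 else θ / (N * FF θ (Y.mass v l) (Y.cap v) i) *
      (Y.f p * ∏ v' ∈ univ.erase v,
        uu θ (Y.mass v' (Y.line v' p)) (Y.cap v') i 0 (Y.cnt S v' (Y.line v' p))) := by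
  have hl : Y.line v p = l := (Finset.mem_filter.1 hp).2
  unfold Sys.pi
  by_cases hpS : p ∈ S
  · have hB : Y.Blk S p := Or.inl hpS
    rw [if_pos hpS, if_pos hB]
  · rw [if_neg hpS]
    by_cases hb : Y.Blk S p
    · rw [if_pos hb]
      rcases hb with hb | ⟨v', hv'⟩
      · exact absurd hb hpS
      have hne : v' ≠ v := by
        rintro rfl
        rw [hl] at hv'
        omega
      symm
      rw [Finset.prod_eq_zero (Finset.mem_erase.2 ⟨hne, Finset.mem_univ _⟩) (uu_full _ _ _ _ _ hv'),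
        mul_zero, mul_zero]
    · rw [if_neg hb]
      have h1 : ∏ v', (FF θ (Y.mass v' (Y.line v' p)) (Y.cap v') i)⁻¹
          = (FF θ (Y.mass v (Y.line v p)) (Y.cap v) i)⁻¹ *
            ∏ v' ∈ univ.erase v, (FF θ (Y.mass v' (Y.line v' p)) (Y.cap v') i)⁻¹ :=
        (Finset.mul_prod_erase univ (fun v' => (FF θ (Y.mass v' (Y.line v' p)) (Y.cap v') i)⁻¹)
          (Finset.mem_univ v)).symm
      have h2 : ∏ v' ∈ univ.erase v,
          uu θ (Y.mass v' (Y.line v' p)) (Y.cap v') i 0 (Y.cnt S v' (Y.line v' p))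
          = ∏ v' ∈ univ.erase v, (FF θ (Y.mass v' (Y.line v' p)) (Y.cap v') i)⁻¹ := by
        refine Finset.prod_congr rfl fun v' _ => ?_
        rw [uu, if_pos]
        by_contra hc
        exact hb (Or.inr ⟨v', not_lt.1 hc⟩)
      rw [h1, h2, hl]
      ring

private theorem rat_uu0 (h : Y.Hyp θ R b s φ W) (hi : i ≤ R) (v : V) (l : Λ) (j : ℕ) :
    0 ≤ uu θ (Y.mass v l) (Y.cap v) i 0 j ∧
      uu θ (Y.mass v l) (Y.cap v) i 0 j ≤ (FF θ (Y.mass v l) (Y.cap v) i)⁻¹ := by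
  have hF : 0 < FF θ (Y.mass v l) (Y.cap v) i := lt_of_lt_of_le h.φ0 (FF_ge (h.ch v l) hi)
  rw [uu]
  split_ifs
  · exact ⟨(inv_pos.2 hF).le, le_rfl⟩
  · exact ⟨le_rfl, (inv_pos.2 hF).le⟩

private theorem rat_g (h : Y.Hyp θ R b s φ W) (hi : i ≤ R) (v : V) (l : Λ) {p : α}
    (hp : p ∈ Y.cells v l) :
    0 ≤ θ / (N * FF θ (Y.mass v l) (Y.cap v) i) *
      (Y.f p * ∏ v' ∈ univ.erase v,
        uu θ (Y.mass v' (Y.line v' p)) (Y.cap v') i 0 (Y.cnt S v' (Y.line v' p))) ∧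
    θ / (N * FF θ (Y.mass v l) (Y.cap v) i) *
      (Y.f p * ∏ v' ∈ univ.erase v,
        uu θ (Y.mass v' (Y.line v' p)) (Y.cap v') i 0 (Y.cnt S v' (Y.line v' p))) ≤ θ * W / N := by
  have hl : Y.line v p = l := (Finset.mem_filter.1 hp).2
  have hN : (0 : ℝ) < N := by
    have := h.N1
    exact_mod_cast this
  have hF : 0 < FF θ (Y.mass v l) (Y.cap v) i := lt_of_lt_of_le h.φ0 (FF_ge (h.ch v l) hi)
  have hp0 : 0 ≤ ∏ v' ∈ univ.erase v,
        uu θ (Y.mass v' (Y.line v' p)) (Y.cap v') i 0 (Y.cnt S v' (Y.line v' p)) :=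
    Finset.prod_nonneg fun v' _ => (rat_uu0 h hi _ _ _).1
  have hp1 : ∏ v' ∈ univ.erase v,
        uu θ (Y.mass v' (Y.line v' p)) (Y.cap v') i 0 (Y.cnt S v' (Y.line v' p))
        ≤ ∏ v' ∈ univ.erase v, (FF θ (Y.mass v' (Y.line v' p)) (Y.cap v') i)⁻¹ :=
    Finset.prod_le_prod (fun v' _ => (rat_uu0 h hi _ _ _).1) fun v' _ => (rat_uu0 h hi _ _ _).2
  have hc : 0 ≤ θ / (N * FF θ (Y.mass v l) (Y.cap v) i) := by
    have := h.θ0
    positivity
  have hf := h.ok.f_nonneg p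
  refine ⟨mul_nonneg hc (mul_nonneg hf hp0), ?_⟩
  have h1 : ∏ v', (FF θ (Y.mass v' (Y.line v' p)) (Y.cap v') i)⁻¹
      = (FF θ (Y.mass v (Y.line v p)) (Y.cap v) i)⁻¹ *
        ∏ v' ∈ univ.erase v, (FF θ (Y.mass v' (Y.line v' p)) (Y.cap v') i)⁻¹ :=
    (Finset.mul_prod_erase univ (fun v' => (FF θ (Y.mass v' (Y.line v' p)) (Y.cap v') i)⁻¹)
      (Finset.mem_univ v)).symm
  have hW := h.wb i hi p
  rw [h1, hl] at hW
  calc θ / (N * FF θ (Y.mass v l) (Y.cap v) i) *
      (Y.f p * ∏ v' ∈ univ.erase v,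
        uu θ (Y.mass v' (Y.line v' p)) (Y.cap v') i 0 (Y.cnt S v' (Y.line v' p)))
      ≤ θ / (N * FF θ (Y.mass v l) (Y.cap v) i) *
      (Y.f p * ∏ v' ∈ univ.erase v, (FF θ (Y.mass v' (Y.line v' p)) (Y.cap v') i)⁻¹) :=
        mul_le_mul_of_nonneg_left (mul_le_mul_of_nonneg_left hp1 hf) hc
    _ = θ / N * (Y.f p * ((FF θ (Y.mass v l) (Y.cap v) i)⁻¹ *
        ∏ v' ∈ univ.erase v, (FF θ (Y.mass v' (Y.line v' p)) (Y.cap v') i)⁻¹)) := by ring
    _ ≤ θ / N * W := mul_le_mul_of_nonneg_left hW (by have := h.θ0; positivity)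
    _ = θ * W / N := by ring

/-- the rate of a line which is not full is the tracked quantity minus a small correction -/
private theorem rat_key (h : Y.Hyp θ R b s φ W) (hi : i ≤ R) (hS : Y.Valid S) (v : V) (l : Λ)
    (hvl : Y.cnt S v l < Y.cap v) :
    ∃ D : ℝ, 0 ≤ D ∧ D ≤ s * (θ * W / N) ∧ Y.rt (Y.pi θ i S) (v, l) =
      θ / (N * FF θ (Y.mass v l) (Y.cap v) i) * Y.Phi θ v l i 0 S - D := by
  classical
  set g : α → ℝ := fun p => θ / (N * FF θ (Y.mass v l) (Y.cap v) i) *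
      (Y.f p * ∏ v' ∈ univ.erase v,
        uu θ (Y.mass v' (Y.line v' p)) (Y.cap v') i 0 (Y.cnt S v' (Y.line v' p))) with hg
  refine ⟨∑ p ∈ Y.cells v l, if p ∈ S then g p else 0, ?_, ?_, ?_⟩
  · refine Finset.sum_nonneg fun p hp => ?_
    split_ifs
    · exact (rat_g h hi v l hp).1
    · exact le_rfl
  · rw [← Finset.sum_filter]
    have hκ : 0 ≤ θ * W / N := by
      have := h.θ0
      have := h.W0
      positivity
    calc ∑ p ∈ (Y.cells v l).filter (fun p => p ∈ S), g p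
        ≤ ∑ _p ∈ (Y.cells v l).filter (fun p => p ∈ S), θ * W / N :=
          Finset.sum_le_sum fun p hp => (rat_g h hi v l (Finset.mem_filter.1 hp).1).2
      _ = ((Y.cells v l).filter (fun p => p ∈ S)).card * (θ * W / N) := by
          rw [Finset.sum_const, nsmul_eq_mul]
      _ ≤ s * (θ * W / N) := by
          refine mul_le_mul_of_nonneg_right ?_ hκ
          have h1 : (Y.cells v l).filter (fun p => p ∈ S) ⊆ S.filter (fun p => Y.line v p = l) := by
            intro p hp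
            obtain ⟨hp1, hp2⟩ := Finset.mem_filter.1 hp
            exact Finset.mem_filter.2 ⟨hp2, (Finset.mem_filter.1 hp1).2⟩
          have h2 := Finset.card_le_card h1
          have h3 := hS v l
          have h4 := h.cap_le v
          unfold Sys.cnt at h3
          have h5 : ((Y.cells v l).filter (fun p => p ∈ S)).card ≤ s := by omega
          exact_mod_cast h5
  · unfold Sys.rt Sys.Phi
    rw [Finset.mul_sum, ← Finset.sum_sub_distrib]
    refine Finset.sum_congr rfl fun p hp => ?_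
    rw [rat_eq v l hvl hp]
    by_cases hpS : p ∈ S
    · rw [if_pos hpS, if_pos hpS, hg]
      ring
    · rw [if_neg hpS, if_neg hpS, sub_zero]

private theorem rat_pi0 (h : Y.Hyp θ R b s φ W) (hi : i ≤ R) (p : α) :
    0 ≤ Y.pi θ i S p ∧ Y.pi θ i S p ≤ θ * W / N := by
  have hN : (0 : ℝ) < N := by
    have := h.N1
    exact_mod_cast this
  have hθ := h.θ0
  have hW := h.W0
  unfold Sys.pi
  split_ifs
  · exact ⟨le_rfl, by positivity⟩
  · constructor
    · refine mul_nonneg (by positivity) (mul_nonneg (h.ok.f_nonneg p)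
        (Finset.prod_nonneg fun v _ => inv_nonneg.2 (h.φ0.le.trans (FF_ge (h.ch v _) hi))))
    · calc θ / N * (Y.f p * ∏ v, (FF θ (Y.mass v (Y.line v p)) (Y.cap v) i)⁻¹)
          ≤ θ / N * W := mul_le_mul_of_nonneg_left (h.wb i hi p) (by positivity)
        _ = θ * W / N := by ring

theorem rt_le (h : Y.Hyp θ R b s φ W) (hi : i ≤ R) (he : 0 ≤ e) (hS : Y.Valid S)
    (ht : Y.Trk θ R i e S) (v : V) (l : Λ) :
    Y.rt (Y.pi θ i S) (v, l) ≤ θ * (Y.mass v l + e) / FF θ (Y.mass v l) (Y.cap v) i := by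
  have hN : (0 : ℝ) < N := by
    have := h.N1
    exact_mod_cast this
  have hθ := h.θ0
  have hφ := h.φ0
  have hF0 := FF_ge (h.ch v l) hi
  have hF : 0 < FF θ (Y.mass v l) (Y.cap v) i := lt_of_lt_of_le h.φ0 hF0
  have hm := mass_nonneg h.ok v l
  by_cases hvl : Y.cnt S v l < Y.cap v
  · obtain ⟨D, hD0, -, hD⟩ := rat_key h hi hS v l hvl
    have h1 := ht.1 v l i le_rfl hi
    rw [Nat.sub_self] at h1
    have h2 := (abs_le.1 h1).2
    have hc : 0 ≤ θ / (N * FF θ (Y.mass v l) (Y.cap v) i) := by positivity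
    calc Y.rt (Y.pi θ i S) (v, l)
        ≤ θ / (N * FF θ (Y.mass v l) (Y.cap v) i) * Y.Phi θ v l i 0 S := by linarith
      _ ≤ θ / (N * FF θ (Y.mass v l) (Y.cap v) i) * (N * (Y.mass v l + e)) :=
          mul_le_mul_of_nonneg_left (by linarith) hc
      _ = θ * (Y.mass v l + e) / FF θ (Y.mass v l) (Y.cap v) i := by field_simp
  · have h0 : Y.rt (Y.pi θ i S) (v, l) = 0 := by
      unfold Sys.rt
      refine Finset.sum_eq_zero fun p hp => ?_
      have hl : Y.line v p = l := (Finset.mem_filter.1 hp).2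
      unfold Sys.pi
      rw [if_pos]
      refine Or.inr ⟨v, ?_⟩
      rw [hl]
      exact not_lt.1 hvl
    rw [h0]
    positivity

/-- crude bound for arbitrary sets of cells -/
theorem pi_sum_le (h : Y.Hyp θ R b s φ W) (hi : i ≤ R) (S : Finset α) (Q : Finset α) :
    ∑ q ∈ Q, Y.pi θ i S q ≤ Q.card * (θ * W / N) := by
  calc ∑ q ∈ Q, Y.pi θ i S q ≤ ∑ _q ∈ Q, θ * W / N := Finset.sum_le_sum fun q _ => (rat_pi0 h hi q).2
    _ = Q.card * (θ * W / N) := by rw [Finset.sum_const, nsmul_eq_mul]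

end Pool.Agent.NKL
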