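import Pool.Agent.NKL.G2F
import Pool.Agent.NKL.GD5
import Pool.Agent.NKL.RTL

set_option autoImplicit false

/-!
# NKL / G2A : chains and rates of the skew lines

`Y = gsys s s n D N`, `t = s - ε₀`, `θ = t/R`, `R ≥ 50 s²/ε₀`.
`ff_skew`: `hgt v ≤ s`: `cap = s`, and `t mass ≤ (4/5) s`: for `hgt v = 1`, `v.1 = (1,±1)`, by
`mass_diag`; for `hgt v ≥ 2` by `mass_gen`: `mass ≤ 6/5 (1/2 + 1/N) ≤ 4/5`.  So
`ChOk θ mass s R (1/5)` (`θ mass ≤ 2θ ≤ 1/5`) and `FF_ge`.  `hgt v > s`: `cap = 3`,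
`t mass ≤ 3/2` (`far_mass`), `ChOk θ mass 3 R (1/2)`.
`w2bound`: the factors with `hgt v ≤ s` (at most `|Dir s|`, `dir_filter`) are at most `5`; the others
as in `wbound` (GD5): `FF⁻¹ ≤ exp(222 s³/d³)`, the product of all is at most `exp(1776 s²)`.
`rate_near`: `rt_le`: `rt ≤ θ (mass + e)/FF`.  `hgt v = 1`: `≤ 5 θ (4/5 + 1) ≤ 17 θ`.  `2 ≤ h ≤ s`:
`mass ≤ 6/5 (1/h + 1/N) ≤ 12/5/h`, `e ≤ 1/D ≤ 1/h`: `≤ 5 θ (17/5)/h`.  `h > s`: `≤ 2 θ (17/5)/h`.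
`rate_far`: the line has at most `(4n-1)/h + 1 ≤ 2 N/h` cells (`line_card_gen`, `h ≤ N`), each with
`pi ≤ θ W/N` (`pi_sum_le`).
-/

namespace Pool.Agent.NKL

open Finset

variable {s n D N : ℕ}

private theorem g2_mass (Y : Sys (Cell n) {v : ℤ × ℤ // v ∈ Dir D} ℤ N) (hY : Y.Ok)
    (v : {v : ℤ × ℤ // v ∈ Dir D}) (l : ℤ) : 0 ≤ Y.mass v l ∧ Y.mass v l ≤ 2 :=
  ⟨mass_nonneg hY v l, mass_le hY v l⟩

private theorem g2_inv {F : ℝ} (h1 : 1 / 2 ≤ F) (h2 : F ≤ 1) : F⁻¹ ≤ Real.exp (2 * (1 - F)) := by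
  have h0 : 0 < F := by linarith
  have h3 : F⁻¹ ≤ 2 * (1 - F) + 1 := by
    rw [inv_le_iff_one_le_mul₀ h0]
    nlinarith
  exact le_trans h3 (Real.add_one_le_exp _)

private theorem g2_sub : (Dir D).filter (fun v => hgt v ≤ s) ⊆ Dir s := by
  intro v hv
  have hm := (mem_filter.mp hv).1
  have hh := (mem_filter.mp hv).2
  unfold Dir at hm ⊢
  rw [mem_filter, mem_product, mem_Icc, mem_Icc] at hm ⊢
  unfold hgt at hh
  have h1 := le_trans (le_max_left v.1.natAbs v.2.natAbs) hh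
  have h2 := le_trans (le_max_right v.1.natAbs v.2.natAbs) hh
  refine ⟨⟨⟨hm.1.1.1, by omega⟩, ⟨by omega, by omega⟩⟩, hm.2⟩

private noncomputable def g2G (s : ℕ) (v : ℤ × ℤ) : ℝ :=
  if hgt v ≤ s then 5 else Real.exp (222 * (s : ℝ) ^ 3 / (hgt v : ℝ) ^ 3)

private theorem g2G_one (s : ℕ) (v : ℤ × ℤ) : 1 ≤ g2G s v := by
  unfold g2G
  split_ifs
  · norm_num
  · exact Real.one_le_exp (by positivity)

private theorem g2_prod (hs : 3 ≤ s) :
    ∏ v ∈ Dir D, g2G s v ≤ 5 ^ (Dir s).card * Real.exp (1776 * (s : ℝ) ^ 2) := by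
  rw [← prod_filter_mul_prod_filter_not (Dir D) (fun v => hgt v ≤ s)]
  have h1 : ∏ v ∈ (Dir D).filter (fun v => hgt v ≤ s), g2G s v ≤ 5 ^ (Dir s).card := by
    rw [prod_congr rfl (g := fun _ => (5 : ℝ)) (fun v hv => by
      unfold g2G
      rw [if_pos (mem_filter.mp hv).2]), prod_const]
    exact pow_le_pow_right₀ (by norm_num) (card_le_card g2_sub)
  have h2 : ∏ v ∈ (Dir D).filter (fun v => ¬ hgt v ≤ s), g2G s v ≤
      Real.exp (1776 * (s : ℝ) ^ 2) := by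
    rw [prod_congr rfl (g := fun v => Real.exp (222 * (s : ℝ) ^ 3 / (hgt v : ℝ) ^ 3)) (fun v hv => by
      unfold g2G
      rw [if_neg (mem_filter.mp hv).2]), ← Real.exp_sum]
    refine Real.exp_le_exp.mpr ?_
    have h3 := sum_dir D s (fun d => 222 * (s : ℝ) ^ 3 / (d : ℝ) ^ 3) (fun d => by positivity)
    have h4 : (Dir D).filter (fun v => ¬ hgt v ≤ s) = (Dir D).filter (fun v => s < hgt v) :=
      filter_congr fun v _ => not_le
    rw [h4]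
    refine le_trans h3 ?_
    have h5 : ∑ d ∈ Finset.Ioc s D, 8 * (d : ℝ) * (222 * (s : ℝ) ^ 3 / (d : ℝ) ^ 3) =
        1776 * (s : ℝ) ^ 3 * ∑ d ∈ Finset.Ioc s D, 1 / (d : ℝ) ^ 2 := by
      rw [mul_sum]
      refine sum_congr rfl fun d hd => ?_
      have hd0 : (0 : ℝ) < d := by
        have := (mem_Ioc.mp hd).1
        have h6 : 0 < d := by omega
        exact_mod_cast h6
      field_simp
      ring
    rw [h5]
    have h6 := sum_inv_sq s D (by omega)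
    have hs0 : (0 : ℝ) < s := by
      have : 0 < s := by omega
      exact_mod_cast this
    calc 1776 * (s : ℝ) ^ 3 * ∑ d ∈ Finset.Ioc s D, 1 / (d : ℝ) ^ 2
        ≤ 1776 * (s : ℝ) ^ 3 * (1 / (s : ℝ)) := mul_le_mul_of_nonneg_left h6 (by positivity)
      _ = 1776 * (s : ℝ) ^ 2 := by
        field_simp
  have h0 : 0 ≤ ∏ v ∈ (Dir D).filter (fun v => ¬ hgt v ≤ s), g2G s v :=
    prod_nonneg fun v _ => zero_le_one.trans (g2G_one s v)
  exact mul_le_mul h1 h2 h0 (by positivity)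

/-- the bound of the mass of a line of height at least `a` -/
private theorem g2_gen (hn : 1 ≤ n) (h : 4 * n ≤ N) (hD : 1 ≤ D)
    (v : {v : ℤ × ℤ // v ∈ Dir D}) (l : ℤ) :
    (gsys s s n D N h hD).mass v l ≤ 6 / 5 * (1 / (hgt v.1 : ℝ) + 1 / (N : ℝ)) := by
  refine le_trans (mass_gen hn h hD v l) ?_
  have hg : 0 < (hgt v.1 : ℝ) := by
    have h1 := hgt_pos (dir_gcd v.2)
    exact_mod_cast h1
  have hN : 0 < (N : ℝ) := by
    have h2 : 0 < N := by omega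
    exact_mod_cast h2
  have h4 : (4 : ℝ) * n ≤ N := by exact_mod_cast h
  rw [mul_div_assoc]
  refine mul_le_mul_of_nonneg_left ?_ (by norm_num)
  rw [add_div]
  refine add_le_add ?_ le_rfl
  rw [div_div, mul_comm (hgt v.1 : ℝ) (N : ℝ), ← div_div]
  refine div_le_div_of_nonneg_right ?_ hg.le
  rw [div_le_one hN]
  exact h4

private theorem g2_theta (hs : 3 ≤ s) {ε₀ : ℝ} (hε : 0 < ε₀) (hε1 : ε₀ ≤ 1) {R : ℕ}
    (hR : 50 * (s : ℝ) ^ 2 / ε₀ ≤ R) :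
    (((s : ℝ) - ε₀) / R) * R = (s : ℝ) - ε₀ ∧ 0 < ((s : ℝ) - ε₀) / R ∧
      ((s : ℝ) - ε₀) / R * 2 ≤ 1 / 5 := by
  have hsr : (3 : ℝ) ≤ s := by exact_mod_cast hs
  have hR0 : (0 : ℝ) < R := by
    refine lt_of_lt_of_le ?_ hR
    positivity
  refine ⟨div_mul_cancel₀ _ hR0.ne', div_pos (by linarith) hR0, ?_⟩
  have h1 : 50 * (s : ℝ) ^ 2 ≤ R * ε₀ := (div_le_iff₀ hε).mp hR
  have h2 : R * ε₀ ≤ R * 1 := mul_le_mul_of_nonneg_left hε1 hR0.le
  rw [div_mul_eq_mul_div, div_le_div_iff₀ hR0 (by norm_num)]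
  nlinarith

private theorem g2_chain (hs : 3 ≤ s) {ε₀ : ℝ} (hε : 0 < ε₀) (hε1 : ε₀ ≤ 1)
    (hn : 1 ≤ n) (h : 4 * n ≤ N) (hD : 1 ≤ D) (hDN : D ≤ N) (hN : 12 * s ≤ N)
    {R : ℕ} (hR : 50 * (s : ℝ) ^ 2 / ε₀ ≤ R)
    (v : {v : ℤ × ℤ // v ∈ Dir D}) (hv : v.1.1 ≠ 0 ∧ v.1.2 ≠ 0) (l : ℤ) :
    (hgt v.1 ≤ s → ChOk (((s : ℝ) - ε₀) / R) ((gsys s s n D N h hD).mass v l)
        ((gsys s s n D N h hD).cap v) R (1 / 5)) ∧
      (s < hgt v.1 → (gsys s s n D N h hD).cap v = 3 ∧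
        ChOk (((s : ℝ) - ε₀) / R) ((gsys s s n D N h hD).mass v l)
          ((gsys s s n D N h hD).cap v) R (1 / 2)) := by
  have hY : (gsys s s n D N h hD).Ok := gsys_ok hs (by omega) hn h hD
  have hsr : (3 : ℝ) ≤ s := by exact_mod_cast hs
  obtain ⟨hθR, hθ0, hθ5⟩ := g2_theta hs hε hε1 hR
  obtain ⟨hm0, hm2⟩ := g2_mass (gsys s s n D N h hD) hY v l
  have hst : (((s : ℝ) - ε₀) / R) * (gsys s s n D N h hD).mass v l ≤ 1 / 5 :=
    (mul_le_mul_of_nonneg_left hm2 hθ0.le).trans hθ5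
  have hcap : (gsys s s n D N h hD).cap v = capf s s v.1 := rfl
  have hnv : ¬ (v.1.1 = 0 ∨ v.1.2 = 0) := by
    rintro (h1 | h1)
    · exact hv.1 h1
    · exact hv.2 h1
  constructor
  · intro hh
    have hc : (gsys s s n D N h hD).cap v = s := by
      rw [hcap, capf, if_neg hnv, if_pos hh]
    have hNs : (12 : ℝ) * s ≤ N := by exact_mod_cast hN
    have hN0 : 0 < (N : ℝ) := by linarith
    have h4 : (4 : ℝ) * n ≤ N := by exact_mod_cast h
    have hm : (gsys s s n D N h hD).mass v l ≤ 4 / 5 := by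
      by_cases h1 : hgt v.1 ≤ 1
      · have hdir := v.2
        unfold Dir at hdir
        rw [mem_filter, mem_product, mem_Icc, mem_Icc] at hdir
        have hv' : v.1 = (1, 1) ∨ v.1 = (1, -1) := by
          unfold hgt at h1
          have ha := le_trans (le_max_left _ _) h1
          have hb := le_trans (le_max_right _ _) h1
          have h10 := hdir.1.1.1
          have ha1 := hv.1
          have hb1 := hv.2
          have ha2 : v.1.1 = 1 := by omega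
          have hb2 : v.1.2 = 1 ∨ v.1.2 = -1 := by omega
          rcases hb2 with hb3 | hb3
          · exact Or.inl (Prod.ext ha2 hb3)
          · exact Or.inr (Prod.ext ha2 hb3)
        refine le_trans (mass_diag (s := s) (c₁ := s) hn h hD v l hv') ?_
        have h5 : 4 * n / (N : ℝ) ≤ 1 := by
          rw [div_le_one hN0]
          exact h4
        linarith
      · have hg2 : (2 : ℝ) ≤ hgt v.1 := by exact_mod_cast (by omega : 2 ≤ hgt v.1)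
        refine le_trans (g2_gen hn h hD v l) ?_
        have h7 : 1 / (hgt v.1 : ℝ) ≤ 1 / 2 := one_div_le_one_div_of_le (by norm_num) hg2
        have h8 : 1 / (N : ℝ) ≤ 1 / 36 := one_div_le_one_div_of_le (by norm_num) (by linarith)
        linarith
    refine ⟨hθ0.le, hm0, hY.cap_pos v, by norm_num, by norm_num, ?_, hst⟩
    rw [hθR, hc]
    have h5 : ((s : ℝ) - ε₀) * (gsys s s n D N h hD).mass v l ≤ s * (4 / 5) :=
      mul_le_mul (by linarith) hm hm0 (by linarith)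
    linarith
  · intro hh
    have hc : (gsys s s n D N h hD).cap v = 3 := by
      rw [hcap, capf, if_neg hnv, if_neg (not_le.2 hh)]
    refine ⟨hc, hθ0.le, hm0, hY.cap_pos v, by norm_num, by norm_num, ?_, hst.trans (by norm_num)⟩
    rw [hθR, hc]
    have hfm := far_mass (c₁ := s) hs (t := (s : ℝ) - ε₀) (by linarith) (by linarith) hn h hD hDN hN v
      l hh
    refine le_trans hfm.1 ?_
    norm_num

theorem ff_skew (hs : 3 ≤ s) {ε₀ : ℝ} (hε : 0 < ε₀) (hε1 : ε₀ ≤ 1)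
    (hn : 1 ≤ n) (h : 4 * n ≤ N) (hD : 1 ≤ D) (hDN : D ≤ N) (hN : 12 * s ≤ N)
    {R : ℕ} (hR : 50 * (s : ℝ) ^ 2 / ε₀ ≤ R) {i : ℕ} (hi : i ≤ R)
    (v : {v : ℤ × ℤ // v ∈ Dir D}) (hv : v.1.1 ≠ 0 ∧ v.1.2 ≠ 0) (l : ℤ) :
    1 / 5 ≤ FF (((s : ℝ) - ε₀) / R) ((gsys s s n D N h hD).mass v l)
        ((gsys s s n D N h hD).cap v) i ∧
      (s < hgt v.1 → 1 / 2 ≤ FF (((s : ℝ) - ε₀) / R) ((gsys s s n D N h hD).mass v l)
        ((gsys s s n D N h hD).cap v) i) := by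
  obtain ⟨h1, h2⟩ := g2_chain hs hε hε1 hn h hD hDN hN hR v hv l
  have h3 : s < hgt v.1 → 1 / 2 ≤ FF (((s : ℝ) - ε₀) / R) ((gsys s s n D N h hD).mass v l)
        ((gsys s s n D N h hD).cap v) i := fun hh => FF_ge (h2 hh).2 hi
  refine ⟨?_, h3⟩
  by_cases hh : hgt v.1 ≤ s
  · exact FF_ge (h1 hh) hi
  · refine le_trans ?_ (h3 (not_le.1 hh))
    norm_num

theorem w2bound (hs : 3 ≤ s) {ε₀ : ℝ} (hε : 0 < ε₀) (hε1 : ε₀ ≤ 1)
    (hn : 1 ≤ n) (h : 4 * n ≤ N) (hD : 1 ≤ D) (hDN : D ≤ N) (hN : 12 * s ≤ N)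
    {R : ℕ} (hR : 50 * (s : ℝ) ^ 2 / ε₀ ≤ R) {i : ℕ} (hi : i ≤ R)
    (g : {v : ℤ × ℤ // v ∈ Dir D} → ℤ) :
    ∏ v ∈ skw D, (FF (((s : ℝ) - ε₀) / R) ((gsys s s n D N h hD).mass v (g v))
        ((gsys s s n D N h hD).cap v) i)⁻¹
      ≤ 5 ^ (Dir s).card * Real.exp (1776 * (s : ℝ) ^ 2) := by
  have hY : (gsys s s n D N h hD).Ok := gsys_ok hs (by omega) hn h hD
  have hsr : (3 : ℝ) ≤ s := by exact_mod_cast hs
  obtain ⟨hθR, hθ0, hθ5⟩ := g2_theta hs hε hε1 hR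
  unfold skw
  rw [prod_filter]
  have hG : ∀ v : {v : ℤ × ℤ // v ∈ Dir D}, 0 ≤ (if v.1.1 ≠ 0 ∧ v.1.2 ≠ 0 then
      (FF (((s : ℝ) - ε₀) / R) ((gsys s s n D N h hD).mass v (g v))
        ((gsys s s n D N h hD).cap v) i)⁻¹ else 1) ∧ (if v.1.1 ≠ 0 ∧ v.1.2 ≠ 0 then
      (FF (((s : ℝ) - ε₀) / R) ((gsys s s n D N h hD).mass v (g v))
        ((gsys s s n D N h hD).cap v) i)⁻¹ else 1) ≤ g2G s v.1 := by
    intro v
    by_cases hv : v.1.1 ≠ 0 ∧ v.1.2 ≠ 0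
    · rw [if_pos hv]
      have hF := (ff_skew hs hε hε1 hn h hD hDN hN hR hi v hv (g v)).1
      refine ⟨inv_nonneg.2 ((by norm_num : (0 : ℝ) ≤ 1 / 5).trans hF), ?_⟩
      obtain ⟨h1, h2⟩ := g2_chain hs hε hε1 hn h hD hDN hN hR v hv (g v)
      unfold g2G
      by_cases hh : hgt v.1 ≤ s
      · rw [if_pos hh]
        have h3 := inv_anti₀ (by norm_num : (0 : ℝ) < 1 / 5) hF
        refine h3.trans (le_of_eq (by norm_num))
      · rw [if_neg hh]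
        have hv' : s < hgt v.1 := not_le.mp hh
        obtain ⟨hcap, hch3⟩ := h2 hv'
        refine le_trans (g2_inv (FF_ge hch3 hi) (FF_le hch3 hi)) (Real.exp_le_exp.mpr ?_)
        rw [hcap] at hch3 ⊢
        have hfm := far_mass (c₁ := s) hs (t := (s : ℝ) - ε₀) (by linarith) (by linarith) hn h hD hDN
          hN v (g v) hv'
        have hm0 := (g2_mass (gsys s s n D N h hD) hY v (g v)).1
        generalize (gsys s s n D N h hD).mass v (g v) = m at hch3 hfm hm0 ⊢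
        have h1 := FF_far hch3 hi
        have hd0 : (0 : ℝ) < (hgt v.1 : ℝ) := by
          have : 0 < hgt v.1 := by omega
          exact_mod_cast this
        have h2 : 2 * (((s : ℝ) - ε₀) / R) * R * m = 2 * (((s : ℝ) - ε₀) * m) := by
          rw [mul_assoc 2 (((s : ℝ) - ε₀) / R) (R : ℝ), hθR]
          ring
        rw [h2] at h1
        have h3 : 0 ≤ 2 * (((s : ℝ) - ε₀) * m) :=
          mul_nonneg (by norm_num) (mul_nonneg (by linarith) hm0)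
        have h4 : 2 * (((s : ℝ) - ε₀) * m) ≤ 24 / 5 * s / (hgt v.1 : ℝ) := by
          have h5 := hfm.2
          calc 2 * (((s : ℝ) - ε₀) * m) ≤ 2 * (12 / 5 * s / (hgt v.1 : ℝ)) := by linarith
            _ = 24 / 5 * s / (hgt v.1 : ℝ) := by ring
        have h6 : (2 * (((s : ℝ) - ε₀) * m)) ^ 3 ≤ (24 / 5 * s / (hgt v.1 : ℝ)) ^ 3 :=
          pow_le_pow_left₀ h3 h4 3
        have h7 : (24 / 5 * s / (hgt v.1 : ℝ)) ^ 3 ≤ 111 * (s : ℝ) ^ 3 / (hgt v.1 : ℝ) ^ 3 := by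
          rw [div_pow, mul_pow]
          refine div_le_div_of_nonneg_right ?_ (by positivity)
          refine mul_le_mul_of_nonneg_right (by norm_num) (by positivity)
        have h8 : 222 * (s : ℝ) ^ 3 / (hgt v.1 : ℝ) ^ 3
            = 2 * (111 * (s : ℝ) ^ 3 / (hgt v.1 : ℝ) ^ 3) := by
          ring
        rw [h8]
        linarith
    · rw [if_neg hv]
      exact ⟨zero_le_one, g2G_one s v.1⟩
  refine le_trans (prod_le_prod (fun v _ => (hG v).1) (fun v _ => (hG v).2)) ?_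
  have h1 : ∏ v : {v : ℤ × ℤ // v ∈ Dir D}, g2G s v.1 = ∏ v ∈ Dir D, g2G s v :=
    prod_coe_sort (Dir D) (g2G s)
  rw [h1]
  exact g2_prod hs

theorem rate_near (hs : 3 ≤ s) {ε₀ : ℝ} (hε : 0 < ε₀) (hε1 : ε₀ ≤ 1)
    (hn : 1 ≤ n) (h : 4 * n ≤ N) (hD : 1 ≤ D) (hDN : D ≤ N) (hN : 12 * s ≤ N)
    {R : ℕ} (hR : 50 * (s : ℝ) ^ 2 / ε₀ ≤ R) {i : ℕ} (hi : i ≤ R) {b : ℕ} {φ W e : ℝ}
    (hY : (gsys s s n D N h hD).Hyp (((s : ℝ) - ε₀) / R) R b s φ W) (he : 0 ≤ e)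
    (heD : e ≤ 1 / D) {S : Finset (Cell n)} (hS : (gsys s s n D N h hD).Valid S)
    (ht : (gsys s s n D N h hD).Trk (((s : ℝ) - ε₀) / R) R i e S)
    (v : {v : ℤ × ℤ // v ∈ Dir D}) (hv : v.1.1 ≠ 0 ∧ v.1.2 ≠ 0) (l : ℤ) :
    (gsys s s n D N h hD).rt ((gsys s s n D N h hD).pi (((s : ℝ) - ε₀) / R) i S) (v, l)
      ≤ ((s : ℝ) - ε₀) / R * (17 / (hgt v.1 : ℝ)) := by
  obtain ⟨hθR, hθ0, hθ5⟩ := g2_theta hs hε hε1 hR
  have hF := (ff_skew hs hε hε1 hn h hD hDN hN hR hi v hv l).1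
  have hF0 : 0 < FF (((s : ℝ) - ε₀) / R) ((gsys s s n D N h hD).mass v l)
        ((gsys s s n D N h hD).cap v) i := (by norm_num : (0 : ℝ) < 1 / 5).trans_le hF
  refine (rt_le hY hi he hS ht v l).trans ?_
  have hh : 0 < (hgt v.1 : ℝ) := by
    have h1 := hgt_pos (dir_gcd v.2)
    exact_mod_cast h1
  have hhD : (hgt v.1 : ℝ) ≤ D := by exact_mod_cast dir_hgt v.2
  have hDN' : (D : ℝ) ≤ N := by exact_mod_cast hDN
  have h1 : 1 / (D : ℝ) ≤ 1 / (hgt v.1 : ℝ) := one_div_le_one_div_of_le hh hhD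
  have h2 : 1 / (N : ℝ) ≤ 1 / (hgt v.1 : ℝ) := one_div_le_one_div_of_le hh (hhD.trans hDN')
  have h3 : (gsys s s n D N h hD).mass v l + e ≤ 17 / 5 * (1 / (hgt v.1 : ℝ)) := by
    have h4 := g2_gen (s := s) hn h hD v l
    linarith
  have hm := mass_nonneg hY.ok v l
  rw [div_le_iff₀ hF0]
  have h5 : ((s : ℝ) - ε₀) / R * ((gsys s s n D N h hD).mass v l + e)
      ≤ ((s : ℝ) - ε₀) / R * (17 / 5 * (1 / (hgt v.1 : ℝ))) := mul_le_mul_of_nonneg_left h3 hθ0.le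
  have h6 : ((s : ℝ) - ε₀) / R * (17 / 5 * (1 / (hgt v.1 : ℝ)))
      = ((s : ℝ) - ε₀) / R * (17 / (hgt v.1 : ℝ)) * (1 / 5) := by ring
  have h7 : ((s : ℝ) - ε₀) / R * (17 / (hgt v.1 : ℝ)) * (1 / 5)
      ≤ ((s : ℝ) - ε₀) / R * (17 / (hgt v.1 : ℝ)) * FF (((s : ℝ) - ε₀) / R)
        ((gsys s s n D N h hD).mass v l) ((gsys s s n D N h hD).cap v) i :=
    mul_le_mul_of_nonneg_left hF (by positivity)
  linarith

theorem rate_far (hn : 1 ≤ n) (h : 4 * n ≤ N) (hD : 1 ≤ D) {R b : ℕ} {θ φ W : ℝ}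
    (hY : (gsys s s n D N h hD).Hyp θ R b s φ W) {i : ℕ} (hi : i ≤ R) (S : Finset (Cell n))
    {v : ℤ × ℤ} (hv : Skew v) (hvN : hgt v ≤ N) (l : ℤ) :
    ∑ q ∈ (univ : Finset (Cell n)).filter (fun q => On v (pt q) = l),
      (gsys s s n D N h hD).pi θ i S q ≤ θ * (2 * W / (hgt v : ℝ)) := by
  refine (pi_sum_le hY hi S _).trans ?_
  have hθ := hY.θ0
  have hW := hY.W0
  have hN : (0 : ℝ) < N := by
    have := hY.N1
    exact_mod_cast this
  have hh1 : 1 ≤ hgt v := hgt_pos hv.1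
  have hh : 0 < (hgt v : ℝ) := by exact_mod_cast hh1
  have hcard : (((univ : Finset (Cell n)).filter (fun q => On v (pt q) = l)).card : ℝ)
      ≤ 2 * N / (hgt v : ℝ) := by
    have h1 := line_card_gen (M := 4 * n) (by omega) hv.1 l
      ((univ.filter fun p : Cell n => On v (pt p) = l).image pt) ?_ ?_
    · rw [Finset.card_image_of_injective _ pt_inj] at h1
      have h2 : (((4 * n - 1) / hgt v : ℕ) : ℝ) ≤ N / (hgt v : ℝ) := by
        refine Nat.cast_div_le.trans ?_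
        refine div_le_div_of_nonneg_right ?_ hh.le
        have h3 : 4 * n - 1 ≤ N := by omega
        exact_mod_cast h3
      have h4 : (1 : ℝ) ≤ N / (hgt v : ℝ) := by
        rw [le_div_iff₀ hh, one_mul]
        exact_mod_cast hvN
      have h5 : (((univ : Finset (Cell n)).filter (fun q => On v (pt q) = l)).card : ℝ)
          ≤ (((4 * n - 1) / hgt v : ℕ) : ℝ) + 1 := by exact_mod_cast h1
      have h6 : 2 * N / (hgt v : ℝ) = N / (hgt v : ℝ) + N / (hgt v : ℝ) := by ring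
      linarith
    · intro p hp
      obtain ⟨q, -, rfl⟩ := Finset.mem_image.1 hp
      have a1 := q.1.isLt
      have a2 := q.2.isLt
      unfold pt
      dsimp only
      refine ⟨by positivity, by exact_mod_cast a1, by positivity, by exact_mod_cast a2⟩
    · intro p hp
      obtain ⟨q, hq, rfl⟩ := Finset.mem_image.1 hp
      exact (Finset.mem_filter.1 hq).2
  calc (((univ : Finset (Cell n)).filter (fun q => On v (pt q) = l)).card : ℝ) * (θ * W / N)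
      ≤ 2 * N / (hgt v : ℝ) * (θ * W / N) := mul_le_mul_of_nonneg_right hcard (by positivity)
    _ = θ * (2 * W / (hgt v : ℝ)) := by field_simp

end Pool.Agent.NKL
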