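import Pool.Agent.NKL.GD2

set_option autoImplicit false

/-!
# NKL / GD3 : the masses of the lines

`f p = 4/5` if `psi p.1 = psi p.2` and `6/5` otherwise.  `∑_{y < 4n} psi n y = 0`.
* `sum_axis`: for a line with `v = (0,1)` (`v.1 = 0` forces this, `dir_gcd` and the normalisation)
  or `v = (1,0)` the sum of `f` over the cells is `4n - psi x/5 * ∑ psi y = 4n` or the line is empty.
* `sum_diag`: for `v = (1,1)` the cells are `(x, x - l)`; with `c = |l|` there are at most `4n - c` of
  them, and `psi x ≠ psi (x-l)` for at most `2c` of them (one of the boundaries `n`, `3n` lies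
  between `x-l` and `x`: at most `c` values of `x` for each).  So
  `∑ f = 4/5 #cells + 2/5 #mismatch ≤ 4/5 (4n - c) + 2/5 * 2c = 4/5 * 4n`.
  For `v = (1,-1)` reflect `y ↦ 4n-1-y` (`psi n (4n-1-y) = psi n y`).
* `mass_gen`: `line_card_gen` (with `M = 4n`) and `f ≤ 6/5`; `(M-1)/h + 1 ≤ M/h + 1` in `ℝ`.
* `total_gsys`: `∑_p f p = (4n)² - (∑ psi)²/5 = (4n)²`.
-/

namespace Pool.Agent.NKL

open Finset

variable {s c₁ n D N : ℕ}

private theorem gd3_psi (n x : ℕ) : psi n x = 1 ∨ psi n x = -1 := by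
  unfold psi
  split_ifs
  · exact Or.inl rfl
  · exact Or.inr rfl

theorem f_le_gsys (h : 4 * n ≤ N) (hD : 1 ≤ D) (p : Cell n) :
    0 ≤ (gsys s c₁ n D N h hD).f p ∧ (gsys s c₁ n D N h hD).f p ≤ 6 / 5 := by
  show 0 ≤ 1 - psi n p.1 * psi n p.2 / 5 ∧ 1 - psi n p.1 * psi n p.2 / 5 ≤ 6 / 5
  rcases gd3_psi n p.1 with h1 | h1 <;> rcases gd3_psi n p.2 with h2 | h2 <;>
    rw [h1, h2] <;> norm_num

/-- the sum of the signs is zero -/
private theorem gd3_psi_sum (n : ℕ) : ∑ y : Fin (4 * n), psi n y = 0 := by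
  rw [Fin.sum_univ_eq_sum_range (fun y => psi n y) (4 * n), Finset.range_eq_Ico,
    ← Finset.sum_Ico_consecutive (fun y => psi n y) (Nat.zero_le n) (by omega : n ≤ 4 * n),
    ← Finset.sum_Ico_consecutive (fun y => psi n y) (by omega : n ≤ 3 * n)
      (by omega : 3 * n ≤ 4 * n)]
  have h1 : ∑ y ∈ Finset.Ico 0 n, psi n y = ∑ y ∈ Finset.Ico 0 n, (1 : ℝ) := by
    refine sum_congr rfl fun y hy => ?_
    rw [mem_Ico] at hy
    unfold psi
    rw [if_pos (Or.inl hy.2)]
  have h2 : ∑ y ∈ Finset.Ico n (3 * n), psi n y = ∑ y ∈ Finset.Ico n (3 * n), (-1 : ℝ) := by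
    refine sum_congr rfl fun y hy => ?_
    rw [mem_Ico] at hy
    unfold psi
    rw [if_neg (by omega)]
  have h3 : ∑ y ∈ Finset.Ico (3 * n) (4 * n), psi n y =
      ∑ y ∈ Finset.Ico (3 * n) (4 * n), (1 : ℝ) := by
    refine sum_congr rfl fun y hy => ?_
    rw [mem_Ico] at hy
    unfold psi
    rw [if_pos (Or.inr hy.1)]
  rw [h1, h2, h3, sum_const, sum_const, sum_const, Nat.card_Ico, Nat.card_Ico, Nat.card_Ico,
    nsmul_eq_mul, nsmul_eq_mul, nsmul_eq_mul]
  have e1 : 3 * n - n = 2 * n := by omega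
  have e2 : 4 * n - 3 * n = n := by omega
  rw [e1, e2, Nat.sub_zero]
  push_cast
  ring

/-- the sum over a row -/
private theorem gd3_row (n : ℕ) (a : ℝ) :
    ∑ y : Fin (4 * n), (1 - a * psi n y / 5) = 4 * n := by
  rw [sum_sub_distrib, ← sum_div, ← mul_sum, gd3_psi_sum, sum_const, card_univ, Fintype.card_fin,
    nsmul_eq_mul]
  push_cast
  ring

private theorem gd3_psi_symm (n x : ℕ) (hx : x < 4 * n) : psi n (4 * n - 1 - x) = psi n x := by
  unfold psi
  by_cases h : x < n ∨ 3 * n ≤ x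
  · rw [if_pos h, if_pos (by omega)]
  · rw [if_neg h, if_neg (by omega)]

/-- the sum over a part of a diagonal -/
private theorem gd3_diag (n c : ℕ) (A : Finset (ℕ × ℕ))
    (hA : ∀ p ∈ A, p.1 < 4 * n ∧ p.2 < 4 * n ∧ p.1 = p.2 + c) :
    ∑ p ∈ A, (1 - psi n p.1 * psi n p.2 / 5) ≤ 4 / 5 * (4 * n) := by
  classical
  have h1 : ∑ p ∈ A, (1 - psi n p.1 * psi n p.2 / 5) =
      4 / 5 * (A.card : ℝ) + 2 / 5 * ((A.filter fun p => psi n p.1 ≠ psi n p.2).card : ℝ) := by
    have e1 : ∀ p ∈ A, (1 - psi n p.1 * psi n p.2 / 5) =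
        4 / 5 + (if psi n p.1 ≠ psi n p.2 then 2 / 5 else 0) := by
      intro p _
      rcases gd3_psi n p.1 with h1 | h1 <;> rcases gd3_psi n p.2 with h2 | h2 <;>
        rw [h1, h2] <;> norm_num
    rw [sum_congr rfl e1, sum_add_distrib, sum_const, nsmul_eq_mul, ← sum_filter, sum_const,
      nsmul_eq_mul]
    ring
  rw [h1]
  have h2 : A.card ≤ 4 * n - c := by
    rw [← card_range (4 * n - c)]
    refine card_le_card_of_injOn Prod.snd ?_ ?_
    · intro p hp
      rw [mem_coe] at hp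
      have := hA p hp
      rw [mem_coe, mem_range]
      omega
    · intro p hp q hq he
      rw [mem_coe] at hp hq
      have a1 := hA p hp
      have a2 := hA q hq
      have he' : p.2 = q.2 := he
      exact Prod.ext (by omega) he'
  have h3 : (A.filter fun p => psi n p.1 ≠ psi n p.2).card ≤ 2 * c := by
    have h4 : (A.filter fun p => psi n p.1 ≠ psi n p.2).card ≤
        (Finset.Ico n (n + c) ∪ Finset.Ico (3 * n) (3 * n + c)).card := by
      refine card_le_card_of_injOn Prod.fst ?_ ?_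
      · intro p hp
        rw [mem_coe, mem_filter] at hp
        obtain ⟨hp1, hp2⟩ := hp
        have a1 := hA p hp1
        rw [mem_coe, mem_union, mem_Ico, mem_Ico]
        by_contra hcon
        apply hp2
        unfold psi
        by_cases h : p.1 < n ∨ 3 * n ≤ p.1
        · rw [if_pos h, if_pos (by omega)]
        · rw [if_neg h, if_neg (by omega)]
      · intro p hp q hq he
        rw [mem_coe, mem_filter] at hp hq
        have a1 := hA p hp.1
        have a2 := hA q hq.1
        have he' : p.1 = q.1 := he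
        exact Prod.ext he' (by omega)
    refine h4.trans ((card_union_le _ _).trans ?_)
    rw [Nat.card_Ico, Nat.card_Ico]
    omega
  by_cases hc : c ≤ 4 * n
  · have h4 : (A.card : ℝ) ≤ 4 * n - c := by
      have : ((A.card : ℕ) : ℝ) ≤ ((4 * n - c : ℕ) : ℝ) := by exact_mod_cast h2
      rw [Nat.cast_sub hc] at this
      push_cast at this
      exact this
    have h5 : ((A.filter fun p => psi n p.1 ≠ psi n p.2).card : ℝ) ≤ 2 * c := by
      exact_mod_cast h3
    linarith
  · have h4 : A.card = 0 := by omega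
    have h5 : (A.filter fun p => psi n p.1 ≠ psi n p.2).card = 0 := by
      have := card_filter_le A fun p => psi n p.1 ≠ psi n p.2
      omega
    rw [h4, h5]
    have : (0 : ℝ) ≤ n := Nat.cast_nonneg n
    push_cast
    linarith

/-- a set of cells which is mapped to a part of a diagonal -/
private theorem gd3_diag' (n c : ℕ) (B : Finset (Cell n)) (φ : Cell n → ℕ × ℕ)
    (hinj : ∀ p ∈ B, ∀ q ∈ B, φ p = φ q → p = q)
    (hφ : ∀ p ∈ B, (φ p).1 < 4 * n ∧ (φ p).2 < 4 * n ∧ (φ p).1 = (φ p).2 + c)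
    (hv : ∀ p ∈ B, psi n (φ p).1 * psi n (φ p).2 = psi n p.1 * psi n p.2) :
    ∑ p ∈ B, (1 - psi n p.1 * psi n p.2 / 5) ≤ 4 / 5 * (4 * n) := by
  classical
  have h1 := gd3_diag n c (B.image φ) (by
    intro p hp
    obtain ⟨q, hq, rfl⟩ := mem_image.1 hp
    exact hφ q hq)
  rw [sum_image (fun p hp q hq he => hinj p hp q hq he)] at h1
  refine le_trans (le_of_eq ?_) h1
  refine sum_congr rfl fun p hp => ?_
  rw [hv p hp]

private theorem gd3_axis_v {v : ℤ × ℤ} (hv : v ∈ Dir D) (h : v.1 = 0 ∨ v.2 = 0) :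
    v = (0, 1) ∨ v = (1, 0) := by
  have hg := dir_gcd hv
  unfold Dir at hv
  rw [mem_filter, mem_product, mem_Icc, mem_Icc] at hv
  obtain ⟨⟨⟨h1, _⟩, _⟩, _, h0⟩ := hv
  rcases h with h | h
  · left
    exact Prod.ext h (h0 h)
  · right
    rw [h, Int.gcd_zero_right] at hg
    exact Prod.ext (by show v.1 = 1; omega) h

theorem mass_axis (hn : 1 ≤ n) (h : 4 * n ≤ N) (hD : 1 ≤ D) (v : {v : ℤ × ℤ // v ∈ Dir D}) (l : ℤ)
    (hv : v.1.1 = 0 ∨ v.1.2 = 0) : (gsys s c₁ n D N h hD).mass v l ≤ 4 * n / N := by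
  classical
  have hN : (0 : ℝ) < N := by
    have : 0 < N := by omega
    exact_mod_cast this
  unfold Sys.mass
  refine div_le_div_of_nonneg_right ?_ hN.le
  show ∑ p ∈ univ.filter (fun p : Cell n => On v.1 (pt p) = l),
    (1 - psi n p.1 * psi n p.2 / 5) ≤ 4 * n
  rw [sum_filter]
  have key : ∀ (m : ℤ), ∑ x : Fin (4 * n), (if ((x : ℕ) : ℤ) = m then (4 * (n : ℝ)) else 0) ≤
      4 * n := by
    intro m
    rw [← sum_filter, sum_const, nsmul_eq_mul]
    have h1 : (univ.filter fun x : Fin (4 * n) => ((x : ℕ) : ℤ) = m).card ≤ 1 := by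
      rw [card_le_one]
      intro a ha b hb
      rw [mem_filter] at ha hb
      exact Fin.ext (by exact_mod_cast ha.2.trans hb.2.symm)
    have h2 : ((univ.filter fun x : Fin (4 * n) => ((x : ℕ) : ℤ) = m).card : ℝ) ≤ 1 := by
      exact_mod_cast h1
    have h3 : (0 : ℝ) ≤ 4 * n := by positivity
    nlinarith
  rcases gd3_axis_v v.2 hv with h1 | h1
  · rw [h1, Fintype.sum_prod_type]
    refine le_trans (le_of_eq ?_) (key l)
    refine sum_congr rfl fun x _ => ?_
    have e1 : ∀ y : Fin (4 * n), On (0, 1) (pt (x, y)) = ((x : ℕ) : ℤ) := by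
      intro y
      unfold On pt
      dsimp only
      ring
    simp only [e1]
    split_ifs with hx
    · exact gd3_row n (psi n x)
    · exact sum_const_zero
  · rw [h1, Fintype.sum_prod_type_right]
    refine le_trans (le_of_eq ?_) (key (-l))
    refine sum_congr rfl fun y _ => ?_
    have e1 : ∀ x : Fin (4 * n), (On (1, 0) (pt (x, y)) = l ↔ ((y : ℕ) : ℤ) = -l) := by
      intro x
      unfold On pt
      dsimp only
      constructor <;> intro h <;> linarith
    simp only [e1]
    split_ifs with hx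
    · have e2 := gd3_row n (psi n y)
      rw [← e2]
      refine sum_congr rfl fun x _ => ?_
      ring
    · exact sum_const_zero

theorem mass_diag (hn : 1 ≤ n) (h : 4 * n ≤ N) (hD : 1 ≤ D) (v : {v : ℤ × ℤ // v ∈ Dir D}) (l : ℤ)
    (hv : v.1 = (1, 1) ∨ v.1 = (1, -1)) :
    (gsys s c₁ n D N h hD).mass v l ≤ 4 / 5 * (4 * n / N) := by
  classical
  have hN : (0 : ℝ) < N := by
    have : 0 < N := by omega
    exact_mod_cast this
  unfold Sys.mass
  rw [← mul_div_assoc]
  refine div_le_div_of_nonneg_right ?_ hN.le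
  show ∑ p ∈ univ.filter (fun p : Cell n => On v.1 (pt p) = l),
    (1 - psi n p.1 * psi n p.2 / 5) ≤ 4 / 5 * (4 * n)
  have hlt : ∀ p : Cell n, (p.1 : ℕ) < 4 * n ∧ (p.2 : ℕ) < 4 * n :=
    fun p => ⟨p.1.isLt, p.2.isLt⟩
  rcases hv with h1 | h1
  · rw [h1]
    have hmem : ∀ p ∈ univ.filter (fun p : Cell n => On (1, 1) (pt p) = l),
        ((p.1 : ℕ) : ℤ) - ((p.2 : ℕ) : ℤ) = l := by
      intro p hp
      rw [mem_filter] at hp
      have h2 := hp.2
      unfold On pt at h2
      dsimp only at h2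
      linarith
    rcases le_total 0 l with hl | hl
    · refine gd3_diag' n l.toNat _ (fun p => ((p.1 : ℕ), (p.2 : ℕ))) ?_ ?_ ?_
      · intro p _ q _ he
        rw [Prod.mk.injEq] at he
        exact Prod.ext (Fin.ext he.1) (Fin.ext he.2)
      · intro p hp
        have a1 := hmem p hp
        have a2 := hlt p
        dsimp only
        omega
      · intro p _
        rfl
    · refine gd3_diag' n (-l).toNat _ (fun p => ((p.2 : ℕ), (p.1 : ℕ))) ?_ ?_ ?_
      · intro p _ q _ he
        rw [Prod.mk.injEq] at he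
        exact Prod.ext (Fin.ext he.2) (Fin.ext he.1)
      · intro p hp
        have a1 := hmem p hp
        have a2 := hlt p
        dsimp only
        omega
      · intro p _
        exact mul_comm _ _
  · rw [h1]
    have hmem : ∀ p ∈ univ.filter (fun p : Cell n => On (1, -1) (pt p) = l),
        ((p.1 : ℕ) : ℤ) + ((p.2 : ℕ) : ℤ) = -l := by
      intro p hp
      rw [mem_filter] at hp
      have h2 := hp.2
      unfold On pt at h2
      dsimp only at h2
      linarith
    rcases le_total (4 * (n : ℤ) - 1) (-l) with hl | hl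
    · refine gd3_diag' n (-l - (4 * (n : ℤ) - 1)).toNat _
        (fun p => ((p.1 : ℕ), 4 * n - 1 - (p.2 : ℕ))) ?_ ?_ ?_
      · intro p _ q _ he
        rw [Prod.mk.injEq] at he
        have a1 := hlt p
        have a2 := hlt q
        exact Prod.ext (Fin.ext he.1) (Fin.ext (by omega))
      · intro p hp
        have a1 := hmem p hp
        have a2 := hlt p
        dsimp only
        omega
      · intro p _
        have a2 := hlt p
        dsimp only
        rw [gd3_psi_symm n _ a2.2]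
    · refine gd3_diag' n ((4 * (n : ℤ) - 1) - (-l)).toNat _
        (fun p => (4 * n - 1 - (p.2 : ℕ), (p.1 : ℕ))) ?_ ?_ ?_
      · intro p _ q _ he
        rw [Prod.mk.injEq] at he
        have a1 := hlt p
        have a2 := hlt q
        exact Prod.ext (Fin.ext he.2) (Fin.ext (by omega))
      · intro p hp
        have a1 := hmem p hp
        have a2 := hlt p
        dsimp only
        omega
      · intro p _
        have a2 := hlt p
        dsimp only
        rw [gd3_psi_symm n _ a2.2]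
        exact mul_comm _ _

theorem mass_gen (hn : 1 ≤ n) (h : 4 * n ≤ N) (hD : 1 ≤ D) (v : {v : ℤ × ℤ // v ∈ Dir D}) (l : ℤ) :
    (gsys s c₁ n D N h hD).mass v l ≤ 6 / 5 * (4 * n / hgt v.1 + 1) / N := by
  classical
  have hN : (0 : ℝ) < N := by
    have : 0 < N := by omega
    exact_mod_cast this
  unfold Sys.mass
  refine div_le_div_of_nonneg_right ?_ hN.le
  have hg := dir_gcd v.2
  have hpos := hgt_pos hg
  have hposr : (0 : ℝ) < (hgt v.1 : ℝ) := by exact_mod_cast hpos
  have h1 : ∑ p ∈ (gsys s c₁ n D N h hD).cells v l, (gsys s c₁ n D N h hD).f p ≤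
      ∑ p ∈ (gsys s c₁ n D N h hD).cells v l, (6 / 5 : ℝ) :=
    sum_le_sum fun p _ => (f_le_gsys h hD p).2
  refine h1.trans ?_
  rw [sum_const, nsmul_eq_mul, mul_comm]
  refine mul_le_mul_of_nonneg_left ?_ (by norm_num)
  have h2 : ((gsys s c₁ n D N h hD).cells v l).card ≤ (4 * n - 1) / hgt v.1 + 1 := by
    show (univ.filter fun p : Cell n => On v.1 (pt p) = l).card ≤ (4 * n - 1) / hgt v.1 + 1
    rw [← Finset.card_image_of_injective _ pt_inj]
    refine line_card_gen (M := 4 * n) (by omega) hg l _ ?_ ?_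
    · intro p hp
      obtain ⟨q, -, rfl⟩ := Finset.mem_image.1 hp
      have a1 := q.1.isLt
      have a2 := q.2.isLt
      unfold pt
      dsimp only
      refine ⟨by positivity, by exact_mod_cast a1, by positivity, by exact_mod_cast a2⟩
    · intro p hp
      obtain ⟨q, hq, rfl⟩ := Finset.mem_image.1 hp
      exact (Finset.mem_filter.1 hq).2
  have h3 : (((gsys s c₁ n D N h hD).cells v l).card : ℝ) ≤
      (((4 * n - 1) / hgt v.1 : ℕ) : ℝ) + 1 := by exact_mod_cast h2
  have h5 : (((4 * n - 1) / hgt v.1 : ℕ) : ℝ) ≤ 4 * (n : ℝ) / (hgt v.1 : ℝ) := by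
    refine (Nat.cast_div_le).trans ?_
    refine div_le_div_of_nonneg_right ?_ hposr.le
    have : (4 * n - 1 : ℕ) ≤ 4 * n := Nat.sub_le _ _
    exact_mod_cast this
  linarith

theorem total_gsys (hn : 1 ≤ n) (h : 4 * n ≤ N) (hD : 1 ≤ D) :
    (gsys s c₁ n D N h hD).total = (4 * n) ^ 2 / N := by
  unfold Sys.total
  congr 1
  show ∑ p : Cell n, (1 - psi n p.1 * psi n p.2 / 5) = (4 * n) ^ 2
  rw [Fintype.sum_prod_type]
  have e1 : ∀ x : Fin (4 * n), ∑ y : Fin (4 * n),
      (1 - psi n (x : ℕ) * psi n (y : ℕ) / 5) = 4 * n := fun x => gd3_row n (psi n x)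
  simp only [e1]
  rw [sum_const, card_univ, Fintype.card_fin, nsmul_eq_mul]
  push_cast
  ring

end Pool.Agent.NKL
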