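import Pool.Agent.NKL.G2F
import Pool.Agent.NKL.EDefs
import Pool.Agent.NKL.GD3
import Pool.Agent.NKL.GD2

set_option autoImplicit false

/-!
# NKL / G2B : the families `famI`, `famB`

`fam_ok`, with `b = 3 |Dir D|`, `κ = (r, c)`:
* `disj`: let `v` be skew, `On v (r, p.2) = On v p`; then `v.2 (r - p.1) = 0`, so `p.1 = r`, and
  `v' = (0,1) ∈ Dir D` has `On v' (r, p.2) = r = On v' (p.1, c)`, contradicting `p ∈ famI`.  If
  `On v (p.1, c) = On v p`, then `p.2 = c` and `v' = (1,0) ∈ Dir D` gives a contradiction.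
* `cardB`: `|famB| ≤ 2 |Dir D|`, `card V = |Dir D|`.
* `kap`: `(v,l) ∈ famB p` means (`v` skew and) `On v (r, p.2) = l`, which determines `p.2`, at most
  `4n` cells, or `On v (p.1, c) = l`, which determines `p.1`: at most `8n ≤ 2N` cells.
* `kap2`: the points of a valid `S` with given `p.2` are on a row: at most `cap (1,0) = s`; with given
  `p.1`: at most `cap (0,1) = s`.
`famI_sum`: if `p ∉ famI`, then for some `v ∈ Dir D`: `v.2 p.1 + v.1 p.2 = v.2 r + v.1 c`, at most `4n`
cells for each `v` (`v ≠ 0`); `f ≤ 6/5 ≤ 2` (`f_le_gsys`) and `∑ f = N total = (4n)²` (`total_gsys`).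
-/

namespace Pool.Agent.NKL

open Finset

variable {s c₁ n D N : ℕ}

private theorem g2b_dir10 (hD : 1 ≤ D) : ((1 : ℤ), (0 : ℤ)) ∈ Dir D := by
  unfold Dir
  rw [mem_filter, mem_product, mem_Icc, mem_Icc]
  refine ⟨⟨⟨by norm_num, by dsimp; omega⟩, by dsimp; omega, by positivity⟩, by norm_num,
    fun h => absurd h (by norm_num)⟩

private theorem g2b_pt1 (p : Cell n) : (pt p).1 = ((p.1 : ℕ) : ℤ) := rfl

private theorem g2b_pt2 (p : Cell n) : (pt p).2 = ((p.2 : ℕ) : ℤ) := rfl

private theorem g2b_card (F : Finset (Cell n)) (g : Cell n → Fin (4 * n))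
    (hg : Set.InjOn g (F : Set (Cell n))) : F.card ≤ 4 * n := by
  have h1 : F.card ≤ (univ : Finset (Fin (4 * n))).card :=
    Finset.card_le_card_of_injOn g (fun p _ => Finset.mem_coe.2 (Finset.mem_univ _)) hg
  rwa [Finset.card_univ, Fintype.card_fin] at h1

private theorem g2b_ext {p q : Cell n} (h1 : (pt p).1 = (pt q).1) (h2 : (pt p).2 = (pt q).2) :
    p = q := pt_inj (Prod.ext h1 h2)

private theorem g2b_fst {p q : Cell n} (h : p.1 = q.1) : (pt p).1 = (pt q).1 := by
  rw [g2b_pt1, g2b_pt1, h]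

private theorem g2b_snd {p q : Cell n} (h : p.2 = q.2) : (pt p).2 = (pt q).2 := by
  rw [g2b_pt2, g2b_pt2, h]

/-- cells of the first kind for the line `(v, l)` -/
private noncomputable def G2F1 (n : ℕ) (κ : ℤ × ℤ) (v : ℤ × ℤ) (l : ℤ) : Finset (Cell n) :=
  univ.filter fun p => v.1 ≠ 0 ∧ On v (κ.1, (pt p).2) = l

/-- cells of the second kind for the line `(v, l)` -/
private noncomputable def G2F2 (n : ℕ) (κ : ℤ × ℤ) (v : ℤ × ℤ) (l : ℤ) : Finset (Cell n) :=
  univ.filter fun p => v.2 ≠ 0 ∧ On v ((pt p).1, κ.2) = l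

private theorem g2b_F1 {κ v : ℤ × ℤ} {l : ℤ} {p q : Cell n} (hp : p ∈ G2F1 n κ v l)
    (hq : q ∈ G2F1 n κ v l) : (pt p).2 = (pt q).2 := by
  unfold G2F1 at hp hq
  rw [mem_filter] at hp hq
  obtain ⟨-, h0, h1⟩ := hp
  obtain ⟨-, -, h2⟩ := hq
  unfold On at h1 h2
  dsimp only at h1 h2
  have : v.1 * ((pt p).2 - (pt q).2) = 0 := by linear_combination h2 - h1
  rcases mul_eq_zero.1 this with h | h
  · exact absurd h h0
  · linarith

private theorem g2b_F2 {κ v : ℤ × ℤ} {l : ℤ} {p q : Cell n} (hp : p ∈ G2F2 n κ v l)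
    (hq : q ∈ G2F2 n κ v l) : (pt p).1 = (pt q).1 := by
  unfold G2F2 at hp hq
  rw [mem_filter] at hp hq
  obtain ⟨-, h0, h1⟩ := hp
  obtain ⟨-, -, h2⟩ := hq
  unfold On at h1 h2
  dsimp only at h1 h2
  have : v.2 * ((pt p).1 - (pt q).1) = 0 := by linear_combination h1 - h2
  rcases mul_eq_zero.1 this with h | h
  · exact absurd h h0
  · linarith

private theorem g2b_sub {κ : ℤ × ℤ} {p : Cell n} {L : {v : ℤ × ℤ // v ∈ Dir D} × ℤ}
    (h : L ∈ famB n D κ p) :
    (L.1.1.1 ≠ 0 ∧ L.1.1.2 ≠ 0) ∧ (p ∈ G2F1 n κ L.1.1 L.2 ∨ p ∈ G2F2 n κ L.1.1 L.2) := by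
  unfold famB at h
  rw [mem_union, mem_image, mem_image] at h
  rcases h with ⟨v, hv, rfl⟩ | ⟨v, hv, rfl⟩
  · have h1 : v.1.1 ≠ 0 ∧ v.1.2 ≠ 0 := (mem_filter.1 hv).2
    refine ⟨h1, Or.inl ?_⟩
    unfold G2F1
    rw [mem_filter]
    exact ⟨mem_univ _, h1.1, rfl⟩
  · have h1 : v.1.1 ≠ 0 ∧ v.1.2 ≠ 0 := (mem_filter.1 hv).2
    refine ⟨h1, Or.inr ?_⟩
    unfold G2F2
    rw [mem_filter]
    exact ⟨mem_univ _, h1.2, rfl⟩

theorem fam_ok (hn : 1 ≤ n) (h : 4 * n ≤ N) (hD : 1 ≤ D) (κ : ℤ × ℤ) :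
    (gsys s c₁ n D N h hD).Fam s (3 * (Dir D).card) (famI n D κ) (famB n D κ) := by
  refine ⟨?_, ?_, ?_, ?_⟩
  · intro p hp L hL heq
    have hI : ∀ v ∈ Dir D, On v (κ.1, (pt p).2) ≠ On v ((pt p).1, κ.2) := (mem_filter.1 hp).2
    have heq' : L.2 = On L.1.1 (pt p) := heq
    obtain ⟨⟨hv1, hv2⟩, hF | hF⟩ := g2b_sub hL
    · unfold G2F1 at hF
      have h1 := (mem_filter.1 hF).2.2
      rw [heq'] at h1
      unfold On at h1
      dsimp only at h1
      have h2 : L.1.1.2 * (κ.1 - (pt p).1) = 0 := by linear_combination h1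
      have h3 : κ.1 = (pt p).1 := by
        rcases mul_eq_zero.1 h2 with h | h
        · exact absurd h hv2
        · linarith
      refine hI (0, 1) (mem_dir01 hD) ?_
      unfold On
      dsimp only
      linarith
    · unfold G2F2 at hF
      have h1 := (mem_filter.1 hF).2.2
      rw [heq'] at h1
      unfold On at h1
      dsimp only at h1
      have h2 : L.1.1.1 * (κ.2 - (pt p).2) = 0 := by linear_combination -h1
      have h3 : κ.2 = (pt p).2 := by
        rcases mul_eq_zero.1 h2 with h | h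
        · exact absurd h hv1
        · linarith
      refine hI (1, 0) (g2b_dir10 hD) ?_
      unfold On
      dsimp only
      linarith
  · intro p _
    have hV : Fintype.card {v : ℤ × ℤ // v ∈ Dir D} = (Dir D).card := Fintype.card_coe _
    have hs1 : (skw D).card ≤ (Dir D).card := by
      rw [← hV]
      exact Finset.card_le_univ _
    have h1 : (famB n D κ p).card ≤ (skw D).card + (skw D).card := by
      unfold famB
      refine (Finset.card_union_le _ _).trans ?_
      exact Nat.add_le_add Finset.card_image_le Finset.card_image_le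
    omega
  · intro L
    have hsub : ((famI n D κ).filter fun p => L ∈ famB n D κ p) ⊆
        G2F1 n κ L.1.1 L.2 ∪ G2F2 n κ L.1.1 L.2 := by
      intro p hp
      rw [mem_union]
      exact (g2b_sub (mem_filter.1 hp).2).2
    have h1 : (G2F1 n κ L.1.1 L.2).card ≤ 4 * n := by
      refine g2b_card _ (fun p => p.1) ?_
      intro p hp q hq hpq
      exact g2b_ext (g2b_fst hpq) (g2b_F1 (Finset.mem_coe.1 hp) (Finset.mem_coe.1 hq))
    have h2 : (G2F2 n κ L.1.1 L.2).card ≤ 4 * n := by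
      refine g2b_card _ (fun p => p.2) ?_
      intro p hp q hq hpq
      exact g2b_ext (g2b_F2 (Finset.mem_coe.1 hp) (Finset.mem_coe.1 hq)) (g2b_snd hpq)
    have h3 := (Finset.card_le_card hsub).trans (Finset.card_union_le _ _)
    omega
  · intro S hS L
    have hsub : ((S ∩ famI n D κ).filter fun p => L ∈ famB n D κ p) ⊆
        (S ∩ G2F1 n κ L.1.1 L.2) ∪ (S ∩ G2F2 n κ L.1.1 L.2) := by
      intro p hp
      rw [mem_filter, mem_inter] at hp
      rw [mem_union, mem_inter, mem_inter]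
      rcases (g2b_sub hp.2).2 with h | h
      · exact Or.inl ⟨hp.1.1, h⟩
      · exact Or.inr ⟨hp.1.1, h⟩
    have h1 : (S ∩ G2F1 n κ L.1.1 L.2).card ≤ s := by
      rcases (S ∩ G2F1 n κ L.1.1 L.2).eq_empty_or_nonempty with h0 | ⟨q, hq⟩
      · rw [h0, Finset.card_empty]
        exact Nat.zero_le _
      · have hv := hS ⟨(1, 0), g2b_dir10 hD⟩ (On (1, 0) (pt q))
        have hc : (gsys s c₁ n D N h hD).cap ⟨(1, 0), g2b_dir10 hD⟩ = s := by
          show capf s c₁ (1, 0) = s
          unfold capf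
          rw [if_pos (Or.inr rfl)]
        rw [hc] at hv
        refine le_trans (Finset.card_le_card ?_) hv
        intro p hp
        rw [mem_inter] at hp hq
        rw [mem_filter]
        refine ⟨hp.1, ?_⟩
        show On (1, 0) (pt p) = On (1, 0) (pt q)
        have := g2b_F1 hp.2 hq.2
        unfold On
        dsimp only
        linarith
    have h2 : (S ∩ G2F2 n κ L.1.1 L.2).card ≤ s := by
      rcases (S ∩ G2F2 n κ L.1.1 L.2).eq_empty_or_nonempty with h0 | ⟨q, hq⟩
      · rw [h0, Finset.card_empty]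
        exact Nat.zero_le _
      · have hv := hS ⟨(0, 1), mem_dir01 hD⟩ (On (0, 1) (pt q))
        have hc : (gsys s c₁ n D N h hD).cap ⟨(0, 1), mem_dir01 hD⟩ = s := by
          show capf s c₁ (0, 1) = s
          unfold capf
          rw [if_pos (Or.inl rfl)]
        rw [hc] at hv
        refine le_trans (Finset.card_le_card ?_) hv
        intro p hp
        rw [mem_inter] at hp hq
        rw [mem_filter]
        refine ⟨hp.1, ?_⟩
        show On (0, 1) (pt p) = On (0, 1) (pt q)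
        have := g2b_F2 hp.2 hq.2
        unfold On
        dsimp only
        linarith
    have h3 := (Finset.card_le_card hsub).trans (Finset.card_union_le _ _)
    omega

private theorem g2b_bad (hD : 1 ≤ D) (κ : ℤ × ℤ) :
    ((famI n D κ)ᶜ).card ≤ (Dir D).card * (4 * n) := by
  have hsub : (famI n D κ)ᶜ ⊆ (Dir D).biUnion fun v =>
      univ.filter fun p : Cell n => On v (κ.1, (pt p).2) = On v ((pt p).1, κ.2) := by
    intro p hp
    rw [mem_compl] at hp
    unfold famI at hp
    rw [mem_filter] at hp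
    push Not at hp
    obtain ⟨v, hv, he⟩ := hp (mem_univ _)
    rw [mem_biUnion]
    exact ⟨v, hv, mem_filter.2 ⟨mem_univ _, he⟩⟩
  refine (Finset.card_le_card hsub).trans (Finset.card_biUnion_le_card_mul _ _ _ ?_)
  intro v hv
  by_cases h0 : v.1 = 0
  · have h1 : v.2 = 1 := by
      unfold Dir at hv
      exact (mem_filter.1 hv).2.2 h0
    refine g2b_card _ (fun p => p.2) ?_
    intro p hp q hq hpq
    have hp' := (mem_filter.1 (Finset.mem_coe.1 hp)).2
    have hq' := (mem_filter.1 (Finset.mem_coe.1 hq)).2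
    unfold On at hp' hq'
    dsimp only at hp' hq'
    rw [h0, h1] at hp' hq'
    exact g2b_ext (by linarith) (g2b_snd hpq)
  · refine g2b_card _ (fun p => p.1) ?_
    intro p hp q hq hpq
    have hp' := (mem_filter.1 (Finset.mem_coe.1 hp)).2
    have hq' := (mem_filter.1 (Finset.mem_coe.1 hq)).2
    unfold On at hp' hq'
    dsimp only at hp' hq'
    have e1 := g2b_fst hpq
    rw [e1] at hp'
    have : v.1 * ((pt p).2 - (pt q).2) = 0 := by linear_combination hq' - hp'
    rcases mul_eq_zero.1 this with h | h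
    · exact absurd h h0
    · exact g2b_ext e1 (by linarith)

theorem famI_sum (hn : 1 ≤ n) (h : 4 * n ≤ N) (hD : 1 ≤ D) (κ : ℤ × ℤ) :
    (4 * (n : ℝ)) ^ 2 - 2 * (Dir D).card * (4 * n) ≤
      ∑ p ∈ famI n D κ, (gsys s c₁ n D N h hD).f p := by
  have hN : (0 : ℝ) < N := by
    have : 0 < N := by omega
    exact_mod_cast this
  have htot : ∑ p, (gsys s c₁ n D N h hD).f p = (4 * (n : ℝ)) ^ 2 := by
    have h1 := total_gsys (s := s) (c₁ := c₁) hn h hD
    unfold Sys.total at h1
    exact (div_left_inj' hN.ne').1 h1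
  have hsplit := Finset.sum_add_sum_compl (famI n D κ) (gsys s c₁ n D N h hD).f
  have hbad : ∑ p ∈ (famI n D κ)ᶜ, (gsys s c₁ n D N h hD).f p ≤
      2 * (Dir D).card * (4 * n) := by
    calc ∑ p ∈ (famI n D κ)ᶜ, (gsys s c₁ n D N h hD).f p
        ≤ ∑ _p ∈ (famI n D κ)ᶜ, (2 : ℝ) := by
          refine Finset.sum_le_sum fun p _ => ?_
          have := (f_le_gsys (s := s) (c₁ := c₁) h hD p).2
          linarith
      _ = 2 * (((famI n D κ)ᶜ).card : ℝ) := by rw [Finset.sum_const, nsmul_eq_mul, mul_comm]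
      _ ≤ 2 * (((Dir D).card : ℝ) * (4 * n)) := by
          have h1 := g2b_bad (n := n) hD κ
          have h2 : ((((famI n D κ)ᶜ).card : ℕ) : ℝ) ≤ (((Dir D).card * (4 * n) : ℕ) : ℝ) := by
            exact_mod_cast h1
          push_cast at h2
          linarith
      _ = 2 * (Dir D).card * (4 * n) := by ring
  linarith

end Pool.Agent.NKL
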