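import Pool.Agent.NKL.G2A
import Pool.Agent.NKL.EDefs

set_option autoImplicit false

/-!
# NKL / G2C : the number of points with two free cells

`Y = gsys s s n D N`.  `WW θ R I B R S = ∑_{p ∈ S ∩ I} ∏_{L ∈ B p} (if cnt < cap then FF⁻¹ else 0)`
(`uu .. R (R-R) = uu .. R 0`).  A term is `0` if a line of `famB p` is full, so only the points counted
on the right contribute (for `v ∈ skw D`: `line v` through `(r, p.2)` and `(p.1, c)` not full).  Each
contribution is at most `∏_{L ∈ famB p} FF⁻¹ ≤ (∏_{v ∈ skw D} FF(v, On v (r,p.2))⁻¹)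
(∏_{v ∈ skw D} FF(v, On v (p.1,c))⁻¹) ≤ W₂²` (the `FF⁻¹` are at least `1`, `FF_le`; the product over
a union is at most the product of the two products; `w2bound`).
-/

namespace Pool.Agent.NKL

open Finset

variable {s n D N : ℕ}

private theorem g2c_le (hs : 3 ≤ s) {ε₀ : ℝ} (hε : 0 < ε₀) (hε1 : ε₀ ≤ 1)
    (hn : 1 ≤ n) (h : 4 * n ≤ N) (hD : 1 ≤ D) (hDN : D ≤ N) (hN : 12 * s ≤ N)
    {R : ℕ} (hR : 50 * (s : ℝ) ^ 2 / ε₀ ≤ R) {i : ℕ} (hi : i ≤ R)
    (v : {v : ℤ × ℤ // v ∈ Dir D}) (l : ℤ) :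
    FF (((s : ℝ) - ε₀) / R) ((gsys s s n D N h hD).mass v l)
        ((gsys s s n D N h hD).cap v) i ≤ 1 := by
  have hY : (gsys s s n D N h hD).Ok := gsys_ok hs (by omega) hn h hD
  have hsr : (3 : ℝ) ≤ s := by exact_mod_cast hs
  have hφ : 0 < ε₀ / (25 * s) := by positivity
  have hφ1 : ε₀ / (25 * s) ≤ 1 := by
    rw [div_le_one (by positivity)]
    linarith
  have hR0 : (0 : ℝ) < R := by
    refine lt_of_lt_of_le ?_ hR
    positivity
  have hθR : (((s : ℝ) - ε₀) / R) * R = (s : ℝ) - ε₀ := div_mul_cancel₀ _ hR0.ne'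
  have hθ0 : 0 ≤ ((s : ℝ) - ε₀) / R := div_nonneg (by linarith) hR0.le
  have h2θ : ((s : ℝ) - ε₀) / R * 2 ≤ ε₀ / (25 * s) := by
    have h1 : 50 * (s : ℝ) ^ 2 ≤ R * ε₀ := (div_le_iff₀ hε).mp hR
    rw [div_mul_eq_mul_div, div_le_div_iff₀ hR0 (by positivity)]
    nlinarith
  have hm0 := mass_nonneg hY v l
  have hm2 := mass_le hY v l
  have hch : ChOk (((s : ℝ) - ε₀) / R) ((gsys s s n D N h hD).mass v l)
        ((gsys s s n D N h hD).cap v) R (ε₀ / (25 * s)) := by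
    refine ⟨hθ0, hm0, hY.cap_pos v, hφ, hφ1, ?_, (mul_le_mul_of_nonneg_left hm2 hθ0).trans h2θ⟩
    rw [hθR]
    exact mass_cond hs (by omega) hε hε1 hn h hD hDN hN v l
  exact FF_le hch hi

private theorem g2c_union {ι : Type} [DecidableEq ι] (A B : Finset ι) (f : ι → ℝ)
    (hf : ∀ x ∈ A ∪ B, 1 ≤ f x) : ∏ x ∈ A ∪ B, f x ≤ (∏ x ∈ A, f x) * ∏ x ∈ B, f x := by
  rw [← Finset.prod_union_inter]
  have h1 : 1 ≤ ∏ x ∈ A ∩ B, f x := by
    have h2 : ∏ _x ∈ A ∩ B, (1 : ℝ) ≤ ∏ x ∈ A ∩ B, f x :=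
      Finset.prod_le_prod (fun _ _ => zero_le_one)
        fun x hx => hf x (Finset.mem_union_left _ (Finset.mem_inter.1 hx).1)
    rwa [Finset.prod_const_one] at h2
  have h3 : 0 ≤ ∏ x ∈ A ∪ B, f x := Finset.prod_nonneg fun x hx => zero_le_one.trans (hf x hx)
  calc ∏ x ∈ A ∪ B, f x = (∏ x ∈ A ∪ B, f x) * 1 := (mul_one _).symm
    _ ≤ (∏ x ∈ A ∪ B, f x) * ∏ x ∈ A ∩ B, f x := mul_le_mul_of_nonneg_left h1 h3

private theorem g2c_union2 {β : Type} [DecidableEq β] (A : Finset β) (e₁ e₂ : β → ℤ)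
    (F : β × ℤ → ℝ) (hF : ∀ L ∈ A.image (fun v => (v, e₁ v)) ∪ A.image (fun v => (v, e₂ v)), 1 ≤ F L) :
    ∏ L ∈ A.image (fun v => (v, e₁ v)) ∪ A.image (fun v => (v, e₂ v)), F L
      ≤ (∏ v ∈ A, F (v, e₁ v)) * ∏ v ∈ A, F (v, e₂ v) := by
  refine (g2c_union _ _ F hF).trans (le_of_eq ?_)
  rw [Finset.prod_image, Finset.prod_image]
  · intro v _ w _ hvw
    exact (Prod.mk.inj hvw).1
  · intro v _ w _ hvw
    exact (Prod.mk.inj hvw).1

open Classical in
theorem ww_count (hs : 3 ≤ s) {ε₀ : ℝ} (hε : 0 < ε₀) (hε1 : ε₀ ≤ 1)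
    (hn : 1 ≤ n) (h : 4 * n ≤ N) (hD : 1 ≤ D) (hDN : D ≤ N) (hN : 12 * s ≤ N)
    {R : ℕ} (hR : 50 * (s : ℝ) ^ 2 / ε₀ ≤ R) (S : Finset (Cell n)) (κ : ℤ × ℤ) :
    (gsys s s n D N h hD).WW (((s : ℝ) - ε₀) / R) R (famI n D κ) (famB n D κ) R S
      ≤ (5 ^ (Dir s).card * Real.exp (1776 * (s : ℝ) ^ 2)) ^ 2 *
        ((S.filter fun p => ∀ v ∈ skw D,
          (gsys s s n D N h hD).cnt S v (On v.1 (κ.1, (pt p).2)) < (gsys s s n D N h hD).cap v ∧
          (gsys s s n D N h hD).cnt S v (On v.1 ((pt p).1, κ.2)) < (gsys s s n D N h hD).cap v).card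
          : ℝ) := by
  set Y := gsys s s n D N h hD with hYd
  set θ := ((s : ℝ) - ε₀) / R with hθd
  set W := 5 ^ (Dir s).card * Real.exp (1776 * (s : ℝ) ^ 2) with hWd
  have hW0 : 0 ≤ W := by positivity
  set good : Cell n → Prop := fun p => ∀ v ∈ skw D,
    Y.cnt S v (On v.1 (κ.1, (pt p).2)) < Y.cap v ∧
      Y.cnt S v (On v.1 ((pt p).1, κ.2)) < Y.cap v with hgood
  have hterm : ∀ p : Cell n,
      0 ≤ ∏ L ∈ famB n D κ p, uu θ (Y.mass L.1 L.2) (Y.cap L.1) R (R - R) (Y.cnt S L.1 L.2) ∧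
      ∏ L ∈ famB n D κ p, uu θ (Y.mass L.1 L.2) (Y.cap L.1) R (R - R) (Y.cnt S L.1 L.2)
        ≤ if good p then W ^ 2 else 0 := by
    intro p
    have hskw : ∀ L ∈ famB n D κ p, L.1.1.1 ≠ 0 ∧ L.1.1.2 ≠ 0 := by
      intro L hL
      rcases Finset.mem_union.1 hL with hL | hL
      · obtain ⟨v, hv, rfl⟩ := Finset.mem_image.1 hL
        exact (Finset.mem_filter.1 hv).2
      · obtain ⟨v, hv, rfl⟩ := Finset.mem_image.1 hL
        exact (Finset.mem_filter.1 hv).2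
    have hFF : ∀ L ∈ famB n D κ p, 1 ≤ (FF θ (Y.mass L.1 L.2) (Y.cap L.1) R)⁻¹ := by
      intro L hL
      have h1 := (ff_skew hs hε hε1 hn h hD hDN hN hR le_rfl L.1 (hskw L hL) L.2).1
      have h2 := g2c_le hs hε hε1 hn h hD hDN hN hR le_rfl L.1 L.2
      exact (one_le_inv₀ ((by norm_num : (0 : ℝ) < 1 / 5).trans_le h1)).2 h2
    have huu : ∀ L ∈ famB n D κ p,
        uu θ (Y.mass L.1 L.2) (Y.cap L.1) R (R - R) (Y.cnt S L.1 L.2)
          = if Y.cnt S L.1 L.2 < Y.cap L.1 then (FF θ (Y.mass L.1 L.2) (Y.cap L.1) R)⁻¹ else 0 := by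
      intro L _
      rw [Nat.sub_self, uu]
    rw [Finset.prod_congr rfl huu]
    constructor
    · refine Finset.prod_nonneg fun L hL => ?_
      split_ifs
      · exact zero_le_one.trans (hFF L hL)
      · exact le_rfl
    · by_cases hg : good p
      · rw [if_pos hg]
        have h1 : ∏ L ∈ famB n D κ p,
            (if Y.cnt S L.1 L.2 < Y.cap L.1 then (FF θ (Y.mass L.1 L.2) (Y.cap L.1) R)⁻¹ else 0)
            ≤ ∏ L ∈ famB n D κ p, (FF θ (Y.mass L.1 L.2) (Y.cap L.1) R)⁻¹ := by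
          refine Finset.prod_le_prod (fun L hL => ?_) (fun L hL => ?_)
          · split_ifs
            · exact zero_le_one.trans (hFF L hL)
            · exact le_rfl
          · split_ifs
            · exact le_rfl
            · exact zero_le_one.trans (hFF L hL)
        refine h1.trans ?_
        have h2 := g2c_union2 (skw D) (fun v => On v.1 (κ.1, (pt p).2))
          (fun v => On v.1 ((pt p).1, κ.2))
          (fun L => (FF θ (Y.mass L.1 L.2) (Y.cap L.1) R)⁻¹) hFF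
        refine h2.trans ?_
        rw [sq]
        have h3 := w2bound hs hε hε1 hn h hD hDN hN hR le_rfl (fun v => On v.1 (κ.1, (pt p).2))
        have h4 := w2bound hs hε hε1 hn h hD hDN hN hR le_rfl (fun v => On v.1 ((pt p).1, κ.2))
        refine mul_le_mul h3 h4 ?_ hW0
        refine Finset.prod_nonneg fun v hv => ?_
        have h5 := (ff_skew hs hε hε1 hn h hD hDN hN hR le_rfl v (Finset.mem_filter.1 hv).2
          (On v.1 ((pt p).1, κ.2))).1
        exact inv_nonneg.2 ((by norm_num : (0 : ℝ) ≤ 1 / 5).trans h5)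
      · rw [if_neg hg]
        obtain ⟨v, hv, hvn⟩ : ∃ v ∈ skw D, ¬ (Y.cnt S v (On v.1 (κ.1, (pt p).2)) < Y.cap v ∧
            Y.cnt S v (On v.1 ((pt p).1, κ.2)) < Y.cap v) := by
          by_contra hc
          push Not at hc
          exact hg fun v hv => ⟨(hc v hv).1, (hc v hv).2⟩
        by_cases h1 : Y.cnt S v (On v.1 (κ.1, (pt p).2)) < Y.cap v
        · have h2 : ¬ Y.cnt S v (On v.1 ((pt p).1, κ.2)) < Y.cap v := fun hc => hvn ⟨h1, hc⟩
          refine le_of_eq (Finset.prod_eq_zero (i := (v, On v.1 ((pt p).1, κ.2))) ?_ (if_neg h2))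
          exact Finset.mem_union_right _ (Finset.mem_image_of_mem _ hv)
        · refine le_of_eq (Finset.prod_eq_zero (i := (v, On v.1 (κ.1, (pt p).2))) ?_ (if_neg h1))
          exact Finset.mem_union_left _ (Finset.mem_image_of_mem _ hv)
  unfold Sys.WW
  calc ∑ p ∈ S ∩ famI n D κ, ∏ L ∈ famB n D κ p,
        uu θ (Y.mass L.1 L.2) (Y.cap L.1) R (R - R) (Y.cnt S L.1 L.2)
      ≤ ∑ p ∈ S, ∏ L ∈ famB n D κ p,
        uu θ (Y.mass L.1 L.2) (Y.cap L.1) R (R - R) (Y.cnt S L.1 L.2) :=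
        Finset.sum_le_sum_of_subset_of_nonneg Finset.inter_subset_left
          fun p _ _ => (hterm p).1
    _ ≤ ∑ p ∈ S, (if good p then W ^ 2 else 0) := Finset.sum_le_sum fun p _ => (hterm p).2
    _ = W ^ 2 * ((S.filter fun p => good p).card : ℝ) := by
        rw [← Finset.sum_filter, Finset.sum_const, nsmul_eq_mul, mul_comm]

end Pool.Agent.NKL
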