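import Pool.Agent.NKL.G2F
import Pool.Agent.NKL.GD2

set_option autoImplicit false

/-!
# NKL / G2D : the degrees are small

`dg0_image`: `pt` is injective.
`deg_small`: fix `z`, `m = deg2 N P z`, `P = S.image pt`.  For every `v ∈ SDir N` with `2 ≤ dg0 P v z` choose
a pair `A_v` of cells of `S` different from `z` on the line (`dg0_image`): `A_v ∈ prs n z`, and for
`v ≠ w` the pairs are disjoint: a common cell `q` has `On v (pt q) = On v z`, `On w (pt q) = On w z`, so
`pt q = z` by `dir_det`.  So there are `m` pairwise disjoint pairs.  If `m < 40`, then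
`m^10 ≤ 40^10 ≤ N`.  Otherwise `m^40 ≤ 40^40 N³ (32 u² (1 + log N))^40 ≤ N^4` for large `N` (powers of
`log N` are `o(N)`, e.g. `isLittleO_log_rpow_rpow_atTop` / `Real.isLittleO_pow_log_id_atTop`), so
`m^10 ≤ N`.
-/

namespace Pool.Agent.NKL

open Finset

theorem dg0_image {n : ℕ} (S : Finset (Cell n)) (v z : ℤ × ℤ) :
    dg0 (S.image pt) v z = (S ∩ dQ n (z, v)).card := by
  unfold dg0
  have h1 : (S.image pt).filter (fun q => q ≠ z ∧ On v q = On v z) = (S ∩ dQ n (z, v)).image pt := by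
    ext q
    unfold dQ
    simp only [mem_filter, mem_image, mem_inter, mem_univ, true_and]
    constructor
    · rintro ⟨⟨p, hp, rfl⟩, h2, h3⟩
      exact ⟨p, ⟨hp, h2, h3⟩, rfl⟩
    · rintro ⟨p, ⟨hp, h2, h3⟩, rfl⟩
      exact ⟨⟨p, hp, rfl⟩, h2, h3⟩
  rw [h1, Finset.card_image_of_injective _ pt_inj]

theorem dg0_mono {P Q : Finset (ℤ × ℤ)} (h : P ⊆ Q) (v z : ℤ × ℤ) : dg0 P v z ≤ dg0 Q v z := by
  unfold dg0
  exact Finset.card_le_card (Finset.filter_subset_filter _ h)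

theorem dg0_neg (P : Finset (ℤ × ℤ)) (v z : ℤ × ℤ) : dg0 P (-v.1, -v.2) z = dg0 P v z := by
  unfold dg0
  congr 1
  ext q
  simp only [mem_filter, On_neg, neg_inj]

/-- a skew line through a grid point and another point of the grid has height less than `N` -/
theorem hgt_lt {N : ℕ} {v y z : ℤ × ℤ} (hv : Int.gcd v.1 v.2 = 1) (hy : y ∈ grid N)
    (hz : z ∈ grid N) (hyz : y ≠ z) (h : On v y = On v z) : hgt v < N := by
  unfold grid at hy hz
  rw [mem_product, mem_Ico, mem_Ico] at hy hz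
  obtain ⟨⟨hy1, hy2⟩, hy3, hy4⟩ := hy
  obtain ⟨⟨hz1, hz2⟩, hz3, hz4⟩ := hz
  have hc : IsCoprime v.1 v.2 := Int.isCoprime_iff_gcd_eq_one.2 hv
  have hkey : v.2 * (y.1 - z.1) = v.1 * (y.2 - z.2) := by
    unfold On at h
    linarith
  have hd1 : v.1 ∣ y.1 - z.1 := hc.dvd_of_dvd_mul_left ⟨y.2 - z.2, hkey⟩
  have hd2 : v.2 ∣ y.2 - z.2 := hc.symm.dvd_of_dvd_mul_left ⟨y.1 - z.1, hkey.symm⟩
  have hpos := hgt_pos hv
  by_cases hx : y.1 - z.1 = 0
  · have hy0 : y.2 - z.2 ≠ 0 := by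
      intro h0
      exact hyz (Prod.ext (by omega) (by omega))
    have hv1 : v.1 = 0 := by
      rw [hx, mul_zero] at hkey
      rcases mul_eq_zero.1 hkey.symm with h3 | h3
      · exact h3
      · exact absurd h3 hy0
    have e2 := Int.natAbs_le_of_dvd_ne_zero hd2 hy0
    unfold hgt
    rw [hv1]
    omega
  · by_cases hy0 : y.2 - z.2 = 0
    · have hv2 : v.2 = 0 := by
        rw [hy0, mul_zero] at hkey
        rcases mul_eq_zero.1 hkey with h3 | h3
        · exact h3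
        · exact absurd h3 hx
      have e1 := Int.natAbs_le_of_dvd_ne_zero hd1 hx
      unfold hgt
      rw [hv2]
      omega
    · have e1 := Int.natAbs_le_of_dvd_ne_zero hd1 hx
      have e2 := Int.natAbs_le_of_dvd_ne_zero hd2 hy0
      unfold hgt
      omega

private theorem g2d_log (a : ℝ) (ha : 0 < a) : ∃ N₀ : ℕ, ∀ N ≥ N₀,
    (a * (1 + Real.log N)) ^ 40 ≤ (N : ℝ) := by
  have h1 := (Real.isLittleO_pow_log_id_atTop (n := 40)).bound (c := 1 / (2 * a) ^ 40) (by positivity)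
  rw [Filter.eventually_atTop] at h1
  obtain ⟨x₀, hx₀⟩ := h1
  refine ⟨max ⌈x₀⌉₊ 3, fun N hN => ?_⟩
  have hN1 : x₀ ≤ N := (Nat.le_ceil x₀).trans (by exact_mod_cast (le_max_left _ _).trans hN)
  have hN3 : (3 : ℝ) ≤ N := by exact_mod_cast (le_max_right _ _).trans hN
  have hlog : 1 ≤ Real.log N := by
    rw [Real.le_log_iff_exp_le (by linarith)]
    exact (Real.exp_one_lt_d9.le.trans (by norm_num)).trans hN3
  have h2 := hx₀ N hN1
  rw [Real.norm_eq_abs, Real.norm_eq_abs, abs_of_nonneg (by positivity), id,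
    abs_of_nonneg (by positivity)] at h2
  have h3 : (2 * a) ^ 40 * Real.log N ^ 40 ≤ N := by
    have h4 : (0 : ℝ) < (2 * a) ^ 40 := by positivity
    calc (2 * a) ^ 40 * Real.log N ^ 40 ≤ (2 * a) ^ 40 * (1 / (2 * a) ^ 40 * N) :=
          mul_le_mul_of_nonneg_left h2 h4.le
      _ = N := by field_simp
  calc (a * (1 + Real.log N)) ^ 40 ≤ (2 * a * Real.log N) ^ 40 := by
        refine pow_le_pow_left₀ (by positivity) ?_ 40
        nlinarith
    _ = (2 * a) ^ 40 * Real.log N ^ 40 := by rw [mul_pow]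
    _ ≤ N := h3

open Classical in
theorem deg_small (u : ℝ) (hu : 0 < u) : ∃ N₀ : ℕ, ∀ N ≥ N₀, ∀ n : ℕ, 1 ≤ n → 4 * n ≤ N →
    ∀ S : Finset (Cell n),
    (∀ z ∈ grid N, ∀ P₀ ⊆ prs n z, (∀ A ∈ P₀, ∀ B ∈ P₀, A ≠ B → Disjoint A B) →
      (∀ A ∈ P₀, A ⊆ S) → 40 ≤ P₀.card →
      (P₀.card : ℝ) ^ 40 ≤ 40 ^ 40 * N * (N ^ 2 * (32 * u ^ 2 * (1 + Real.log N)) ^ 40)) →
    ∀ z ∈ grid N, deg2 N (S.image pt) z ^ 10 ≤ N := by
  obtain ⟨N₁, hN₁⟩ := g2d_log (40 * (32 * u ^ 2)) (by positivity)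
  refine ⟨max N₁ (40 ^ 10), fun N hN n hn hnN S hS z hz => ?_⟩
  have hNa : N₁ ≤ N := (le_max_left _ _).trans hN
  have hNb : 40 ^ 10 ≤ N := (le_max_right _ _).trans hN
  set D : Finset (ℤ × ℤ) := (SDir N).filter fun v => 2 ≤ dg0 (S.image pt) v z with hD
  have hm : deg2 N (S.image pt) z = D.card := rfl
  rw [hm]
  by_cases h40 : D.card < 40
  · exact (Nat.pow_le_pow_left h40.le 10).trans hNb
  push Not at h40
  have hch : ∀ v ∈ D, ∃ A : Finset (Cell n), A ⊆ S ∩ dQ n (z, v) ∧ A.card = 2 := by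
    intro v hv
    rw [hD, mem_filter, dg0_image] at hv
    exact Finset.exists_subset_card_eq hv.2
  choose! A hA using hch
  have hdis : ∀ v ∈ D, ∀ w ∈ D, v ≠ w → Disjoint (A v) (A w) := by
    intro v hv w hw hvw
    rw [Finset.disjoint_left]
    intro q hq1 hq2
    have h1 := (hA v hv).1 hq1
    have h2 := (hA w hw).1 hq2
    unfold dQ at h1 h2
    rw [mem_inter, mem_filter] at h1 h2
    obtain ⟨-, -, h3, h4⟩ := h1
    obtain ⟨-, -, -, h5⟩ := h2
    dsimp only at h3 h4 h5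
    have hv' : v ∈ Dir N := by
      rw [hD, mem_filter] at hv
      exact (mem_filter.1 hv.1).1
    have hw' : w ∈ Dir N := by
      rw [hD, mem_filter] at hw
      exact (mem_filter.1 hw.1).1
    have hdet := dir_det hv' hw' hvw
    unfold On at h4 h5
    have e1 : (v.1 * w.2 - v.2 * w.1) * ((pt q).1 - z.1) = 0 := by
      linear_combination v.1 * h5 - w.1 * h4
    have e2 : (v.1 * w.2 - v.2 * w.1) * ((pt q).2 - z.2) = 0 := by
      linear_combination v.2 * h5 - w.2 * h4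
    apply h3
    have f1 : (pt q).1 = z.1 := by
      rcases mul_eq_zero.1 e1 with h0 | h0
      · exact absurd h0 hdet
      · linarith
    have f2 : (pt q).2 = z.2 := by
      rcases mul_eq_zero.1 e2 with h0 | h0
      · exact absurd h0 hdet
      · linarith
    exact Prod.ext f1 f2
  have hinj : Set.InjOn A (D : Set (ℤ × ℤ)) := by
    intro v hv w hw he
    by_contra hne
    have h1 := hdis v hv w hw hne
    have he' : A v = A w := he
    rw [he', Finset.disjoint_self_iff_empty] at h1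
    have h2 := (hA w hw).2
    rw [h1] at h2
    simp at h2
  have hcard : (D.image A).card = D.card := Finset.card_image_of_injOn hinj
  have h1 := hS z hz (D.image A) ?_ ?_ ?_ ?_
  · rw [hcard] at h1
    have h2 := hN₁ N hNa
    have h3 : (40 * (32 * u ^ 2) * (1 + Real.log N)) ^ 40 =
        40 ^ 40 * (32 * u ^ 2 * (1 + Real.log N)) ^ 40 := by
      rw [← mul_pow]
      ring
    rw [h3] at h2
    have h4 : (D.card : ℝ) ^ 40 ≤ (N : ℝ) ^ 4 := by
      calc (D.card : ℝ) ^ 40 ≤ 40 ^ 40 * N * (N ^ 2 * (32 * u ^ 2 * (1 + Real.log N)) ^ 40) := h1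
        _ = N * N ^ 2 * (40 ^ 40 * (32 * u ^ 2 * (1 + Real.log N)) ^ 40) := by ring
        _ ≤ N * N ^ 2 * N := mul_le_mul_of_nonneg_left h2 (by positivity)
        _ = (N : ℝ) ^ 4 := by ring
    have h5 : (D.card ^ 10) ^ 4 ≤ N ^ 4 := by
      rw [← pow_mul]
      exact_mod_cast h4
    exact (Nat.pow_le_pow_iff_left (by norm_num)).1 h5
  · intro B hB
    obtain ⟨v, hv, rfl⟩ := mem_image.1 hB
    unfold prs
    rw [mem_filter, mem_powersetCard]
    refine ⟨⟨Finset.subset_univ _, (hA v hv).2⟩, v, ?_, ?_⟩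
    · rw [hD, mem_filter] at hv
      have h2 := hv.1
      unfold SDir at h2
      rw [mem_filter] at h2
      exact ⟨dir_gcd h2.1, h2.2⟩
    · intro q hq
      have h2 := (hA v hv).1 hq
      unfold dQ at h2
      rw [mem_inter, mem_filter] at h2
      exact h2.2.2
  · intro B hB C hC hBC
    obtain ⟨v, hv, rfl⟩ := mem_image.1 hB
    obtain ⟨w, hw, rfl⟩ := mem_image.1 hC
    refine hdis v hv w hw ?_
    rintro rfl
    exact hBC rfl
  · intro B hB
    obtain ⟨v, hv, rfl⟩ := mem_image.1 hB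
    exact (hA v hv).1.trans Finset.inter_subset_left
  · rw [hcard]
    exact h40

end Pool.Agent.NKL
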