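import Pool.Agent.NKL.G2F
import Pool.Agent.NKL.GD2

set_option autoImplicit false

/-!
# NKL / G2E : counting pairs and triples

`sum_inv`: `∑_{h ≤ N} 1/h ≤ 1 + log N` (`harmonic_le_one_add_log` or by induction).
`line_cells`: a line of primitive direction `v`, `hgt v ≤ N`, has at most
`(4n-1)/h + 1 ≤ 2 N/h` cells (`line_card_gen`).
`prs_card`: for `A = {q, q'} ∈ prs n z` with the direction `v`: `q ≠ z` are grid points on a line of
direction `v`, so `hgt v < N`, and we may take `v ∈ SDir N` (`prim_dir`, `On_neg`).  For each such `v`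
there are at most `(2 N/h)²` pairs; `∑_{v ∈ Dir N} 4 N²/h² ≤ ∑_h 8 h 4 N²/h² = 32 N² ∑ 1/h`
(`card_hgt`/`sum_dir` with `d₀ = 0`).
`trs_card`: the same with `z ∈ Zl N κ` (at most `N` cells), heights `H < h` (and `h < N`, the triple has
two different points): `N ∑_{h > H} 8 h (2 N/h)³ ≤ 64 N⁴ ∑_{h>H} 1/h² ≤ 64 N⁴/H` (`sum_inv_sq`).
-/

namespace Pool.Agent.NKL

open Finset

theorem sum_inv {N : ℕ} (hN : 1 ≤ N) : ∑ h ∈ Finset.Icc 1 N, 1 / (h : ℝ) ≤ 1 + Real.log N := by
  have h1 := harmonic_le_one_add_log N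
  rw [harmonic_eq_sum_Icc] at h1
  push_cast at h1
  simpa only [one_div] using h1

theorem zl_card (N : ℕ) (κ : Bool × ℤ) : (Zl N κ).card ≤ N := by
  have h0 : (Finset.Ico (0 : ℤ) N).card = N := by simp
  obtain ⟨b, l⟩ := κ
  cases b with
  | false =>
    calc (Zl N (false, l)).card ≤ (Finset.Ico (0 : ℤ) N).card := by
          refine Finset.card_le_card_of_injOn Prod.snd ?_ ?_
          · intro z hz
            have hz' := Finset.mem_coe.1 hz
            unfold Zl grid at hz'
            rw [mem_filter, mem_product] at hz'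
            exact Finset.mem_coe.2 hz'.1.2
          · intro z hz w hw he
            have hz' := Finset.mem_coe.1 hz
            have hw' := Finset.mem_coe.1 hw
            unfold Zl at hz' hw'
            rw [mem_filter] at hz' hw'
            have h1 : z.1 = l := by simpa using hz'.2
            have h2 : w.1 = l := by simpa using hw'.2
            exact Prod.ext (h1.trans h2.symm) he
      _ = N := h0
  | true =>
    calc (Zl N (true, l)).card ≤ (Finset.Ico (0 : ℤ) N).card := by
          refine Finset.card_le_card_of_injOn Prod.fst ?_ ?_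
          · intro z hz
            have hz' := Finset.mem_coe.1 hz
            unfold Zl grid at hz'
            rw [mem_filter, mem_product] at hz'
            exact Finset.mem_coe.2 hz'.1.1
          · intro z hz w hw he
            have hz' := Finset.mem_coe.1 hz
            have hw' := Finset.mem_coe.1 hw
            unfold Zl at hz' hw'
            rw [mem_filter] at hz' hw'
            have h1 : z.2 = l := by simpa using hz'.2
            have h2 : w.2 = l := by simpa using hw'.2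
            exact Prod.ext he (h1.trans h2.symm)
      _ = N := h0

theorem line_cells {n N : ℕ} (hn : 1 ≤ n) (h : 4 * n ≤ N) {v : ℤ × ℤ} (hv : Int.gcd v.1 v.2 = 1)
    (hvN : hgt v ≤ N) (l : ℤ) :
    (((univ : Finset (Cell n)).filter fun q => On v (pt q) = l).card : ℝ) ≤ 2 * N / hgt v := by
  have h1 := line_card_gen (M := 4 * n) (by omega) hv l
    ((univ.filter fun p : Cell n => On v (pt p) = l).image pt) ?_ ?_
  · rw [Finset.card_image_of_injective _ pt_inj] at h1
    have hp := hgt_pos hv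
    have hp' : (0 : ℝ) < hgt v := by exact_mod_cast hp
    have h2 : (((4 * n - 1) / hgt v + 1 : ℕ) : ℝ) ≤ 2 * N / hgt v := by
      rw [le_div_iff₀ hp']
      have h3 : ((4 * n - 1) / hgt v + 1) * hgt v ≤ 2 * N := by
        have h4 := Nat.div_mul_le_self (4 * n - 1) (hgt v)
        calc ((4 * n - 1) / hgt v + 1) * hgt v = (4 * n - 1) / hgt v * hgt v + hgt v := by ring
          _ ≤ (4 * n - 1) + hgt v := by omega
          _ ≤ 2 * N := by omega
      exact_mod_cast h3
    refine le_trans ?_ h2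
    exact_mod_cast h1
  · intro p hp
    obtain ⟨q, -, rfl⟩ := Finset.mem_image.1 hp
    have a1 := q.1.isLt
    have a2 := q.2.isLt
    unfold pt
    dsimp only
    refine ⟨by positivity, by exact_mod_cast a1, by positivity, by exact_mod_cast a2⟩
  · intro p hp
    obtain ⟨q, hq, rfl⟩ := Finset.mem_image.1 hp
    exact (Finset.mem_filter.1 hq).2

private theorem g2e_hgt {N : ℕ} {v z w : ℤ × ℤ} (hv : Skew v) (hz : z ∈ grid N) (hw : w ∈ grid N)
    (hne : w ≠ z) (he : On v w = On v z) : hgt v ≤ N := by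
  obtain ⟨hg, h1, h2⟩ := hv
  unfold grid at hz hw
  rw [mem_product, mem_Ico, mem_Ico] at hz hw
  have hc : IsCoprime v.1 v.2 := Int.isCoprime_iff_gcd_eq_one.2 hg
  have hkey : v.2 * (w.1 - z.1) = v.1 * (w.2 - z.2) := by
    unfold On at he
    linarith
  have hd1 : v.1 ∣ w.1 - z.1 := hc.dvd_of_dvd_mul_left ⟨w.2 - z.2, hkey⟩
  have hd2 : v.2 ∣ w.2 - z.2 := hc.symm.dvd_of_dvd_mul_left ⟨w.1 - z.1, hkey.symm⟩
  have hx : w.1 - z.1 ≠ 0 := by
    intro h0
    rw [h0, mul_zero] at hkey
    rcases mul_eq_zero.1 hkey.symm with h3 | h3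
    · exact h1 h3
    · exact hne (Prod.ext (by omega) (by omega))
  have hy : w.2 - z.2 ≠ 0 := by
    intro h0
    rw [h0, mul_zero] at hkey
    rcases mul_eq_zero.1 hkey with h3 | h3
    · exact h2 h3
    · exact hne (Prod.ext (by omega) (by omega))
  have e1 := Int.natAbs_le_of_dvd_ne_zero hd1 hx
  have e2 := Int.natAbs_le_of_dvd_ne_zero hd2 hy
  unfold hgt
  omega

private theorem g2e_pt {n N : ℕ} (h : 4 * n ≤ N) (q : Cell n) : pt q ∈ grid N := by
  have a1 := q.1.isLt
  have a2 := q.2.isLt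
  unfold pt grid
  rw [mem_product, mem_Ico, mem_Ico]
  dsimp only
  refine ⟨⟨by positivity, ?_⟩, ⟨by positivity, ?_⟩⟩
  · exact_mod_cast (by omega : (q.1 : ℕ) < N)
  · exact_mod_cast (by omega : (q.2 : ℕ) < N)

/-- the direction may be taken in `SDir N` -/
private theorem g2e_norm {N : ℕ} {v : ℤ × ℤ} (hv : Skew v) (hN : hgt v ≤ N) :
    ∃ v' ∈ SDir N, hgt v' = hgt v ∧ ∀ p q, On v p = On v q → On v' p = On v' q := by
  rcases prim_dir hv.1 hN with h | h
  · refine ⟨v, ?_, rfl, fun p q he => he⟩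
    unfold SDir
    rw [mem_filter]
    exact ⟨h, hv.2⟩
  · refine ⟨(-v.1, -v.2), ?_, hgt_neg v, fun p q he => ?_⟩
    · unfold SDir
      rw [mem_filter]
      exact ⟨h, by simpa using hv.2.1, by simpa using hv.2.2⟩
    · rw [On_neg, On_neg, he]

private theorem g2e_ps {n N : ℕ} (hn : 1 ≤ n) (h : 4 * n ≤ N) {v : ℤ × ℤ} (hv : v ∈ SDir N) (l : ℤ)
    (m : ℕ) :
    ((((univ : Finset (Cell n)).filter fun q => On v (pt q) = l).powersetCard m).card : ℝ)
      ≤ (2 * N / hgt v) ^ m := by
  unfold SDir at hv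
  rw [mem_filter] at hv
  have h1 := line_cells hn h (dir_gcd hv.1) (dir_hgt hv.1) l
  rw [card_powersetCard]
  refine le_trans ?_ (pow_le_pow_left₀ (by positivity) h1 m)
  exact_mod_cast Nat.choose_le_pow _ _

private theorem g2e_sum {N H : ℕ} (g : ℕ → ℝ) (hg : ∀ d, 0 ≤ g d) :
    ∑ v ∈ (SDir N).filter (fun v => H < hgt v), g (hgt v) ≤ ∑ d ∈ Finset.Ioc H N, 8 * (d : ℝ) * g d := by
  refine le_trans ?_ (sum_dir N H g hg)
  refine sum_le_sum_of_subset_of_nonneg ?_ fun v _ _ => hg _
  intro v hv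
  unfold SDir at hv
  rw [mem_filter, mem_filter] at hv
  rw [mem_filter]
  exact ⟨hv.1.1, hv.2⟩

theorem prs_card {n N : ℕ} (hn : 1 ≤ n) (h : 4 * n ≤ N) {z : ℤ × ℤ} (hz : z ∈ grid N) :
    ((prs n z).card : ℝ) ≤ 32 * N ^ 2 * (1 + Real.log N) := by
  classical
  have hN : 1 ≤ N := by omega
  have hsub : prs n z ⊆ ((SDir N).filter fun v => 0 < hgt v).biUnion fun v =>
      ((univ : Finset (Cell n)).filter fun q => On v (pt q) = On v z).powersetCard 2 := by
    intro A hA
    unfold prs at hA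
    rw [mem_filter, mem_powersetCard] at hA
    obtain ⟨⟨-, hc⟩, v, hv, hq⟩ := hA
    obtain ⟨a, ha⟩ : A.Nonempty := by
      rw [← card_pos, hc]
      norm_num
    have hh := g2e_hgt hv hz (g2e_pt h a) (hq a ha).1 (hq a ha).2
    obtain ⟨v', hv', hhv, hon⟩ := g2e_norm hv hh
    rw [mem_biUnion]
    refine ⟨v', ?_, ?_⟩
    · rw [mem_filter]
      exact ⟨hv', by rw [hhv]; exact hgt_pos hv.1⟩
    · rw [mem_powersetCard]
      refine ⟨fun q hqA => ?_, hc⟩
      rw [mem_filter]
      exact ⟨mem_univ _, hon _ _ (hq q hqA).2⟩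
  calc ((prs n z).card : ℝ)
      ≤ ∑ v ∈ (SDir N).filter (fun v => 0 < hgt v),
        ((((univ : Finset (Cell n)).filter fun q => On v (pt q) = On v z).powersetCard 2).card : ℝ) := by
        exact_mod_cast (card_le_card hsub).trans card_biUnion_le
    _ ≤ ∑ v ∈ (SDir N).filter (fun v => 0 < hgt v), (fun d : ℕ => (2 * (N : ℝ) / d) ^ 2) (hgt v) :=
        sum_le_sum fun v hv => g2e_ps hn h (mem_filter.1 hv).1 _ _
    _ ≤ ∑ d ∈ Finset.Ioc 0 N, 8 * (d : ℝ) * (2 * (N : ℝ) / d) ^ 2 :=
        g2e_sum (fun d : ℕ => (2 * (N : ℝ) / d) ^ 2) fun d => by positivity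
    _ = 32 * N ^ 2 * ∑ d ∈ Finset.Icc 1 N, 1 / (d : ℝ) := by
        rw [mul_sum]
        refine sum_congr rfl fun d hd => ?_
        have hd' : (d : ℝ) ≠ 0 := by
          have := (mem_Ioc.1 hd).1
          positivity
        field_simp
        ring
    _ ≤ 32 * N ^ 2 * (1 + Real.log N) := mul_le_mul_of_nonneg_left (sum_inv hN) (by positivity)

theorem trs_card {n H N : ℕ} (hn : 1 ≤ n) (h : 4 * n ≤ N) (hH : 1 ≤ H) (κ : Bool × ℤ) :
    ((trs n H N κ).card : ℝ) ≤ 64 * N ^ 4 / H := by
  classical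
  have hN : 1 ≤ N := by omega
  have hsub : trs n H N κ ⊆ (Zl N κ).biUnion fun z => ((SDir N).filter fun v => H < hgt v).biUnion fun v =>
      ((univ : Finset (Cell n)).filter fun q => On v (pt q) = On v z).powersetCard 3 := by
    intro A hA
    unfold trs at hA
    rw [mem_filter, mem_powersetCard] at hA
    obtain ⟨⟨-, hc⟩, v, hv, hHv, z, hz, hq⟩ := hA
    obtain ⟨a, ha⟩ : A.Nonempty := by
      rw [← card_pos, hc]
      norm_num
    have hzg : z ∈ grid N := by
      unfold Zl at hz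
      exact (mem_filter.1 hz).1
    have hh := g2e_hgt hv hzg (g2e_pt h a) (hq a ha).1 (hq a ha).2
    obtain ⟨v', hv', hhv, hon⟩ := g2e_norm hv hh
    rw [mem_biUnion]
    refine ⟨z, hz, ?_⟩
    rw [mem_biUnion]
    refine ⟨v', ?_, ?_⟩
    · rw [mem_filter]
      exact ⟨hv', by rw [hhv]; exact hHv⟩
    · rw [mem_powersetCard]
      refine ⟨fun q hqA => ?_, hc⟩
      rw [mem_filter]
      exact ⟨mem_univ _, hon _ _ (hq q hqA).2⟩
  have hin : ∀ z, (((((SDir N).filter fun v => H < hgt v).biUnion fun v =>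
      ((univ : Finset (Cell n)).filter fun q => On v (pt q) = On v z).powersetCard 3).card : ℕ) : ℝ)
      ≤ 64 * N ^ 3 / H := by
    intro z
    calc (((((SDir N).filter fun v => H < hgt v).biUnion fun v =>
          ((univ : Finset (Cell n)).filter fun q => On v (pt q) = On v z).powersetCard 3).card : ℕ) : ℝ)
        ≤ ∑ v ∈ (SDir N).filter (fun v => H < hgt v),
          ((((univ : Finset (Cell n)).filter fun q => On v (pt q) = On v z).powersetCard 3).card : ℝ) := by
          exact_mod_cast card_biUnion_le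
      _ ≤ ∑ v ∈ (SDir N).filter (fun v => H < hgt v), (fun d : ℕ => (2 * (N : ℝ) / d) ^ 3) (hgt v) :=
          sum_le_sum fun v hv => g2e_ps hn h (mem_filter.1 hv).1 _ _
      _ ≤ ∑ d ∈ Finset.Ioc H N, 8 * (d : ℝ) * (2 * (N : ℝ) / d) ^ 3 :=
          g2e_sum (fun d : ℕ => (2 * (N : ℝ) / d) ^ 3) fun d => by positivity
      _ = 64 * N ^ 3 * ∑ d ∈ Finset.Ioc H N, 1 / (d : ℝ) ^ 2 := by
          rw [mul_sum]
          refine sum_congr rfl fun d hd => ?_
          have hd' : (d : ℝ) ≠ 0 := by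
            have := (mem_Ioc.1 hd).1
            have h2 : 0 < d := by omega
            positivity
          field_simp
          ring
      _ ≤ 64 * N ^ 3 * (1 / (H : ℝ)) := mul_le_mul_of_nonneg_left (sum_inv_sq H N hH) (by positivity)
      _ = 64 * N ^ 3 / H := by ring
  calc ((trs n H N κ).card : ℝ)
      ≤ ∑ z ∈ Zl N κ, (((((SDir N).filter fun v => H < hgt v).biUnion fun v =>
          ((univ : Finset (Cell n)).filter fun q => On v (pt q) = On v z).powersetCard 3).card : ℕ) : ℝ) := by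
        exact_mod_cast (card_le_card hsub).trans card_biUnion_le
    _ ≤ ∑ _z ∈ Zl N κ, 64 * (N : ℝ) ^ 3 / H := sum_le_sum fun z _ => hin z
    _ = (Zl N κ).card * (64 * (N : ℝ) ^ 3 / H) := by rw [sum_const, nsmul_eq_mul]
    _ ≤ N * (64 * (N : ℝ) ^ 3 / H) :=
        mul_le_mul_of_nonneg_right (by exact_mod_cast zl_card N κ) (by positivity)
    _ = 64 * N ^ 4 / H := by ring

end Pool.Agent.NKL
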