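import Pool.Agent.NKL.F2D

set_option autoImplicit false

/-!
# NKL / G2F : stage 2, definitions for the geometry (definitions only)
-/

namespace Pool.Agent.NKL

open Finset

/-- skew elements of `Dir D` -/
noncomputable def skw (D : ℕ) : Finset {v : ℤ × ℤ // v ∈ Dir D} :=
  univ.filter fun v => v.1.1 ≠ 0 ∧ v.1.2 ≠ 0

/-- the cells `p` such that the cells `(r, p.2)` and `(p.1, c)` are on no common line of small
height; `κ = (r, c)` -/
noncomputable def famI (n D : ℕ) (κ : ℤ × ℤ) : Finset (Cell n) :=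
  univ.filter fun p => ∀ v ∈ Dir D, On v (κ.1, (pt p).2) ≠ On v ((pt p).1, κ.2)

/-- the skew lines of small height through `(r, p.2)` and `(p.1, c)` -/
noncomputable def famB (n D : ℕ) (κ : ℤ × ℤ) (p : Cell n) :
    Finset ({v : ℤ × ℤ // v ∈ Dir D} × ℤ) :=
  ((skw D).image fun v => (v, On v.1 (κ.1, (pt p).2))) ∪
    ((skw D).image fun v => (v, On v.1 ((pt p).1, κ.2)))

open Classical in
/-- pairwise disjoint `J`-tuples of members of `E` -/
noncomputable def JF {α : Type} [DecidableEq α] (J : ℕ) (E : Finset (Finset α)) :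
    Finset (Finset (Finset α)) :=
  (E.powersetCard J).filter fun P => ∀ A ∈ P, ∀ B ∈ P, A ≠ B → Disjoint A B

open Classical in
/-- pairs of cells different from `z` on a skew line through `z` -/
noncomputable def prs (n : ℕ) (z : ℤ × ℤ) : Finset (Finset (Cell n)) :=
  ((univ : Finset (Cell n)).powersetCard 2).filter
    fun A => ∃ v, Skew v ∧ ∀ q ∈ A, pt q ≠ z ∧ On v (pt q) = On v z

open Classical in
/-- triples of cells on a skew line of height larger than `H` through a cell of the base line -/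
noncomputable def trs (n H N : ℕ) (κ : Bool × ℤ) : Finset (Finset (Cell n)) :=
  ((univ : Finset (Cell n)).powersetCard 3).filter
    fun A => ∃ v, Skew v ∧ H < hgt v ∧ ∃ z ∈ Zl N κ, ∀ q ∈ A, pt q ≠ z ∧ On v (pt q) = On v z

/-- the base lines -/
noncomputable def BL (N : ℕ) : Finset (Bool × ℤ) := univ ×ˢ Finset.Ico (0 : ℤ) N

/-- index set of the weighted estimator; the second component is the type -/
noncomputable def eC (n D H N : ℕ) : Finset (Finset (Finset (Cell n)) × ℕ) :=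
  ((quads n D).image fun A => ({A}, 0)) ∪
    ((grid N).biUnion fun z => (JF 40 (prs n z)).image fun P => (P, 1)) ∪
    ((BL N).biUnion fun κ => (JF 40 (trs n H N κ)).image fun P => (P, 2))

/-- the cells of a tuple -/
noncomputable def eA (n : ℕ) (x : Finset (Finset (Cell n)) × ℕ) : Finset (Cell n) :=
  x.1.biUnion id

/-- the weights; `u = t W` -/
noncomputable def eW (n H N : ℕ) (u : ℝ) (x : Finset (Finset (Cell n)) × ℕ) : ℝ :=
  if x.2 = 0 then 1 else if x.2 = 1 then ((N : ℝ) ^ 2 * (32 * u ^ 2 * (1 + Real.log N)) ^ 40)⁻¹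
  else (2 * N * (64 * u ^ 3 * N / H) ^ 40)⁻¹

/-- index sets of the upper trackers: base line and type `0, 1, 2` -/
noncomputable def dX (D H N : ℕ) (k : (Bool × ℤ) × ℕ) : Finset ((ℤ × ℤ) × (ℤ × ℤ)) :=
  Zl N k.1 ×ˢ (SDir H).filter fun v => k.2 = 2 → D < hgt v

/-- the cells different from `z` on the line of direction `v` through `z` -/
noncomputable def dQ (n : ℕ) (x : (ℤ × ℤ) × (ℤ × ℤ)) : Finset (Cell n) :=
  univ.filter fun q => pt q ≠ x.1 ∧ On x.2 (pt q) = On x.2 x.1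

noncomputable def dW (ε : ℝ) (k : (Bool × ℤ) × ℕ) (x : (ℤ × ℤ) × (ℤ × ℤ)) : ℝ :=
  if k.2 = 0 then wh ε x.2 else if k.2 = 1 then wh ε x.2 ^ 2 else 1

noncomputable def dR (D : ℕ) (W : ℝ) (x : (ℤ × ℤ) × (ℤ × ℤ)) : ℝ :=
  if hgt x.2 ≤ D then 17 / (hgt x.2 : ℝ) else 2 * W / (hgt x.2 : ℝ)

def dM (s : ℕ) (k : (Bool × ℤ) × ℕ) : ℕ := if k.2 = 0 then s - 1 else if k.2 = 1 then s - 2 else 3

open Classical in
/-- the output of the nibble -/
structure Raw (s D H N : ℕ) (ε β η : ℝ) (P : Finset (ℤ × ℤ)) : Prop where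
  sub : P ⊆ grid N
  col : ∀ x : ℤ, (P.filter fun p => p.1 = x).card ≤ s
  row : ∀ y : ℤ, (P.filter fun p => p.2 = y).card ≤ s
  sml : ∀ v : ℤ × ℤ, Int.gcd v.1 v.2 = 1 → v.1 ≠ 0 → v.2 ≠ 0 → hgt v ≤ s → ∀ l,
    (P.filter fun p => On v p = l).card ≤ s
  lrg : ∀ v : ℤ × ℤ, Int.gcd v.1 v.2 = 1 → s < hgt v → hgt v ≤ D → ∀ l,
    (P.filter fun p => On v p = l).card ≤ 3
  quad : ∃ E ⊆ P, (E.card : ℝ) ≤ ε / 8 * N + 4 ∧ ∀ v : ℤ × ℤ, Int.gcd v.1 v.2 = 1 →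
    D < hgt v → ∀ l, ((P \ E).filter fun p => On v p = l).card ≤ 3
  card : ((s : ℝ) - ε / 4) * N ≤ P.card
  free : ∀ r c : ℤ, 0 ≤ r → r < N → 0 ≤ c → c < N → 4 * β * N ≤ (P.filter fun p =>
    ∀ v, Skew v → hgt v ≤ D → dg0 P v (r, p.2) + 1 ≤ s ∧ dg0 P v (p.1, c) + 1 ≤ s).card
  da : ∀ κ ∈ BL N, ∑ z ∈ Zl N κ, ∑ v ∈ SDir H, (if s ≤ dg0 P v z + 1 then wh ε v else 0)
    ≤ η / 8 * N
  db : ∀ κ ∈ BL N, ∑ z ∈ Zl N κ, ∑ v ∈ SDir H, (if s ≤ dg0 P v z + 2 then wh ε v ^ 2 else 0)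
    ≤ η / 8 * N
  du : ∀ κ ∈ BL N, (((Zl N κ).filter fun z => ∃ v ∈ SDir H, D < hgt v ∧ 3 ≤ dg0 P v z).card : ℝ)
    ≤ η / 8 * N
  deg : ∀ z ∈ grid N, deg2 N P z ^ 10 ≤ N
  tri : ∀ κ ∈ BL N, (((Zl N κ).filter fun z => ∃ v ∈ SDir N, H < hgt v ∧ 3 ≤ dg0 P v z).card : ℝ)
    ≤ η / 8 * N

end Pool.Agent.NKL
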