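import Pool.Agent.NKL.G2E
import Pool.Agent.NKL.GD1

/-!
# NKL / G2H : lines of large height with a point: double counting

`κ = (false, x)` (column): for skew `v` with `a = |v.1| ≥ 1`: if `z ∈ Zl N κ` and `q ∈ P`, `q ≠ z`,
`On v q = On v z`, then `v.2 (q.1 - x) = v.1 (q.2 - z.2)` and gcd 1 give `a ∣ q.1 - x`, and `q.1 ≠ x`
(otherwise `q = z`); `q` determines `z`.  There are at most `2 N/a` values `q.1 ≠ x` in `[0,N)` with
`a ∣ q.1 - x`, each with at most `s` points `q ∈ P`.  So the number of `z` with `1 ≤ dg0 P v z` is at most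
`2 s N/a`, and the sum is at most `2 s N ∑_{a=1}^N (1/a) ∑_{|b| ≤ N} 1/max(|b|,H)²` (as `H < hgt v`,
`hgt v ≥ max(|v.2|, H)`), `∑_b ≤ (2H+1)/H² + 2 ∑_{b>H} 1/b² ≤ 5/H` (`sum_inv_sq`), `∑ 1/a ≤ 1 + log N`
(`sum_inv`).
`κ = (true, y)` (row): the same with `|v.2|`: `2 s N ∑_{b ≠ 0} (1/|b|) ∑_{a=1}^N 1/max(a,H)²
≤ 2 s N 2 (1 + log N) 2/H`.
-/

set_option autoImplicit false

namespace Pool.Agent.NKL

open Finset

/-- residues -/
private theorem g2h_T {N : ℕ} {c x : ℤ} (hc : c ≠ 0) (hx : x ∈ Finset.Ico (0 : ℤ) N) :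
    ((Finset.Ico (0 : ℤ) N).filter fun t => t ≠ x ∧ c ∣ t - x).card * c.natAbs ≤ 2 * N := by
  rw [Finset.mem_Ico] at hx
  have hN : 1 ≤ N := by omega
  have hc' : 0 < c.natAbs := Int.natAbs_pos.2 hc
  obtain ⟨K, hK⟩ : ∃ K : ℕ, K = (N - 1) / c.natAbs := ⟨_, rfl⟩
  have hKN : K * c.natAbs ≤ N - 1 := by
    rw [hK]
    exact Nat.div_mul_le_self _ _
  have h1 : ((Finset.Ico (0 : ℤ) N).filter fun t => t ≠ x ∧ c ∣ t - x).card ≤
      ((Finset.Icc (-(K : ℤ)) K).erase 0).card := by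
    refine Finset.card_le_card_of_injOn (fun t => (t - x) / c) ?_ ?_
    · intro t ht
      rw [Finset.mem_coe, Finset.mem_filter, Finset.mem_Ico] at ht
      obtain ⟨⟨h1, h2⟩, h3, m, hm⟩ := ht
      have e : (t - x) / c = m := by
        rw [hm]
        exact Int.mul_ediv_cancel_left m hc
      rw [Finset.mem_coe, Finset.mem_erase, Finset.mem_Icc]
      show (t - x) / c ≠ 0 ∧ -(K : ℤ) ≤ (t - x) / c ∧ (t - x) / c ≤ K
      rw [e]
      have hm0 : m ≠ 0 := by
        rintro rfl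
        rw [mul_zero] at hm
        exact h3 (by omega)
      have h4 : m.natAbs * c.natAbs ≤ N - 1 := by
        have h5 : (t - x).natAbs = c.natAbs * m.natAbs := by rw [hm, Int.natAbs_mul]
        have h6 : (t - x).natAbs ≤ N - 1 := by omega
        rw [mul_comm]
        omega
      have h5 : m.natAbs ≤ K := by
        rw [hK]
        exact (Nat.le_div_iff_mul_le hc').2 h4
      clear hK hKN
      refine ⟨hm0, ?_, ?_⟩ <;> omega
    · intro t ht t' ht' h
      rw [Finset.mem_coe, Finset.mem_filter] at ht ht'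
      have h' : (t - x) / c = (t' - x) / c := h
      have h1 := Int.ediv_mul_cancel ht.2.2
      have h2 := Int.ediv_mul_cancel ht'.2.2
      rw [h', h2] at h1
      omega
  have h2 : ((Finset.Icc (-(K : ℤ)) K).erase 0).card = 2 * K := by
    clear hK hKN
    rw [Finset.card_erase_of_mem (by rw [Finset.mem_Icc]; constructor <;> omega), Int.card_Icc]
    omega
  rw [h2] at h1
  calc _ ≤ 2 * K * c.natAbs := Nat.mul_le_mul_right _ h1
    _ = 2 * (K * c.natAbs) := by ring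
    _ ≤ 2 * N := by omega

/-- the number of cells of the base line with a point on the line of direction `v` -/
private theorem g2h_count {s N : ℕ} {P : Finset (ℤ × ℤ)} (hP : P ⊆ grid N)
    (hcol : ∀ x : ℤ, (P.filter fun p => p.1 = x).card ≤ s)
    (hrow : ∀ y : ℤ, (P.filter fun p => p.2 = y).card ≤ s) {κ : Bool × ℤ} (hκ : κ ∈ BL N)
    {v : ℤ × ℤ} (hg : Int.gcd v.1 v.2 = 1) (h1 : v.1 ≠ 0) (h2 : v.2 ≠ 0) :
    ((Zl N κ).filter fun z => 1 ≤ dg0 P v z).card * (if κ.1 then v.2 else v.1).natAbs ≤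
      2 * s * N := by
  classical
  obtain ⟨β, x⟩ := κ
  have hx : x ∈ Finset.Ico (0 : ℤ) N := by
    unfold BL at hκ
    rw [Finset.mem_product] at hκ
    exact hκ.2
  cases β with
  | false =>
    show ((Zl N (false, x)).filter fun z => 1 ≤ dg0 P v z).card * v.1.natAbs ≤ 2 * s * N
    have a1 : ((Zl N (false, x)).filter fun z => 1 ≤ dg0 P v z) ⊆
        (P.filter fun q => q.1 ≠ x ∧ v.1 ∣ q.1 - x).image
          (fun q => (x, q.2 - v.2 * (q.1 - x) / v.1)) := by
      intro z hz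
      rw [Finset.mem_filter] at hz
      obtain ⟨hz1, hz2⟩ := hz
      unfold Zl at hz1
      rw [Finset.mem_filter] at hz1
      have hzx : z.1 = x := by simpa using hz1.2
      unfold dg0 at hz2
      obtain ⟨q, hq⟩ := Finset.card_pos.1 hz2
      rw [Finset.mem_filter] at hq
      obtain ⟨hqP, hqz, hon⟩ := hq
      unfold On at hon
      have e : v.2 * (q.1 - x) = v.1 * (q.2 - z.2) := by rw [← hzx]; linarith
      have hd : v.1 ∣ q.1 - x :=
        Int.dvd_of_dvd_mul_right_of_gcd_one ⟨q.2 - z.2, e⟩ hg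
      rw [Finset.mem_image]
      refine ⟨q, Finset.mem_filter.2 ⟨hqP, ?_, hd⟩, ?_⟩
      · intro h
        rw [h, sub_self, mul_zero] at e
        have h3 : q.2 - z.2 = 0 := by
          rcases mul_eq_zero.1 e.symm with h3 | h3
          · exact absurd h3 h1
          · exact h3
        exact hqz (Prod.ext (h.trans hzx.symm) (by linarith))
      · rw [e, Int.mul_ediv_cancel_left _ h1]
        refine Prod.ext hzx.symm ?_
        show q.2 - (q.2 - z.2) = z.2
        ring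
    have a2 : (P.filter fun q => q.1 ≠ x ∧ v.1 ∣ q.1 - x).card ≤
        s * ((Finset.Ico (0 : ℤ) N).filter fun t => t ≠ x ∧ v.1 ∣ t - x).card := by
      refine Finset.card_le_mul_card_image_of_maps_to (f := fun q : ℤ × ℤ => q.1) ?_ s ?_
      · intro q hq
        rw [Finset.mem_filter] at hq
        have h3 := hP hq.1
        unfold grid at h3
        rw [Finset.mem_product] at h3
        exact Finset.mem_filter.2 ⟨h3.1, hq.2⟩
      · intro t _
        refine le_trans (Finset.card_le_card ?_) (hcol t)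
        intro q hq
        rw [Finset.mem_filter, Finset.mem_filter] at hq
        exact Finset.mem_filter.2 ⟨hq.1.1, hq.2⟩
    have a3 := g2h_T (N := N) h1 hx
    calc _ ≤ (s * ((Finset.Ico (0 : ℤ) N).filter fun t => t ≠ x ∧ v.1 ∣ t - x).card) * v.1.natAbs :=
          Nat.mul_le_mul_right _ ((Finset.card_le_card a1).trans (Finset.card_image_le.trans a2))
      _ = s * (((Finset.Ico (0 : ℤ) N).filter fun t => t ≠ x ∧ v.1 ∣ t - x).card * v.1.natAbs) := by
          ring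
      _ ≤ s * (2 * N) := Nat.mul_le_mul_left _ a3
      _ = 2 * s * N := by ring
  | true =>
    show ((Zl N (true, x)).filter fun z => 1 ≤ dg0 P v z).card * v.2.natAbs ≤ 2 * s * N
    have a1 : ((Zl N (true, x)).filter fun z => 1 ≤ dg0 P v z) ⊆
        (P.filter fun q => q.2 ≠ x ∧ v.2 ∣ q.2 - x).image
          (fun q => (q.1 - v.1 * (q.2 - x) / v.2, x)) := by
      intro z hz
      rw [Finset.mem_filter] at hz
      obtain ⟨hz1, hz2⟩ := hz
      unfold Zl at hz1
      rw [Finset.mem_filter] at hz1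
      have hzx : z.2 = x := by simpa using hz1.2
      unfold dg0 at hz2
      obtain ⟨q, hq⟩ := Finset.card_pos.1 hz2
      rw [Finset.mem_filter] at hq
      obtain ⟨hqP, hqz, hon⟩ := hq
      unfold On at hon
      have e : v.1 * (q.2 - x) = v.2 * (q.1 - z.1) := by rw [← hzx]; linarith
      have hd : v.2 ∣ q.2 - x :=
        Int.dvd_of_dvd_mul_right_of_gcd_one ⟨q.1 - z.1, e⟩ (by rw [Int.gcd_comm]; exact hg)
      rw [Finset.mem_image]
      refine ⟨q, Finset.mem_filter.2 ⟨hqP, ?_, hd⟩, ?_⟩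
      · intro h
        rw [h, sub_self, mul_zero] at e
        have h3 : q.1 - z.1 = 0 := by
          rcases mul_eq_zero.1 e.symm with h3 | h3
          · exact absurd h3 h2
          · exact h3
        exact hqz (Prod.ext (by linarith) (h.trans hzx.symm))
      · rw [e, Int.mul_ediv_cancel_left _ h2]
        refine Prod.ext ?_ hzx.symm
        show q.1 - (q.1 - z.1) = z.1
        ring
    have a2 : (P.filter fun q => q.2 ≠ x ∧ v.2 ∣ q.2 - x).card ≤
        s * ((Finset.Ico (0 : ℤ) N).filter fun t => t ≠ x ∧ v.2 ∣ t - x).card := by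
      refine Finset.card_le_mul_card_image_of_maps_to (f := fun q : ℤ × ℤ => q.2) ?_ s ?_
      · intro q hq
        rw [Finset.mem_filter] at hq
        have h3 := hP hq.1
        unfold grid at h3
        rw [Finset.mem_product] at h3
        exact Finset.mem_filter.2 ⟨h3.2, hq.2⟩
      · intro t _
        refine le_trans (Finset.card_le_card ?_) (hrow t)
        intro q hq
        rw [Finset.mem_filter, Finset.mem_filter] at hq
        exact Finset.mem_filter.2 ⟨hq.1.1, hq.2⟩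
    have a3 := g2h_T (N := N) h2 hx
    calc _ ≤ (s * ((Finset.Ico (0 : ℤ) N).filter fun t => t ≠ x ∧ v.2 ∣ t - x).card) * v.2.natAbs :=
          Nat.mul_le_mul_right _ ((Finset.card_le_card a1).trans (Finset.card_image_le.trans a2))
      _ = s * (((Finset.Ico (0 : ℤ) N).filter fun t => t ≠ x ∧ v.2 ∣ t - x).card * v.2.natAbs) := by
          ring
      _ ≤ s * (2 * N) := Nat.mul_le_mul_left _ a3
      _ = 2 * s * N := by ring

/-- skew directions have positive first coordinate -/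
private theorem g2h_sd {N : ℕ} {v : ℤ × ℤ} (hv : v ∈ SDir N) :
    0 < v.1 ∧ v.1 ≤ N ∧ v.2 ≠ 0 ∧ v.2.natAbs ≤ N ∧ Int.gcd v.1 v.2 = 1 := by
  unfold SDir Dir at hv
  rw [mem_filter, mem_filter, mem_product, mem_Icc, mem_Icc] at hv
  obtain ⟨⟨⟨⟨a1, a2⟩, a3, a4⟩, a5, a6⟩, a7, a8⟩ := hv
  refine ⟨by omega, a2, a8, by omega, a5⟩

private theorem g2h_sum {N : ℕ} (p : ℤ × ℤ → Prop) [DecidablePred p] (F : ℕ → ℕ → ℝ)
    (hF : ∀ i j, 0 ≤ F i j) :
    ∑ v ∈ (SDir N).filter p, F v.1.natAbs v.2.natAbs ≤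
      2 * ∑ i ∈ Finset.Icc 1 N, ∑ j ∈ Finset.Icc 1 N, F i j := by
  classical
  rw [← Finset.sum_product', Finset.mul_sum]
  rw [← Finset.sum_fiberwise_of_maps_to (s := (SDir N).filter p)
    (t := Finset.Icc 1 N ×ˢ Finset.Icc 1 N) (g := fun v : ℤ × ℤ => (v.1.natAbs, v.2.natAbs))
    (fun v hv => by
      have h := g2h_sd (Finset.mem_filter.1 hv).1
      rw [Finset.mem_product, Finset.mem_Icc, Finset.mem_Icc]
      show (1 ≤ v.1.natAbs ∧ v.1.natAbs ≤ N) ∧ 1 ≤ v.2.natAbs ∧ v.2.natAbs ≤ N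
      omega)]
  refine Finset.sum_le_sum fun ij hij => ?_
  have h1 : ∑ v ∈ ((SDir N).filter p).filter (fun v : ℤ × ℤ => (v.1.natAbs, v.2.natAbs) = ij),
      F v.1.natAbs v.2.natAbs =
      ∑ _v ∈ ((SDir N).filter p).filter (fun v : ℤ × ℤ => (v.1.natAbs, v.2.natAbs) = ij),
        F ij.1 ij.2 := by
    refine Finset.sum_congr rfl fun v hv => ?_
    rw [← (Finset.mem_filter.1 hv).2]
  have h2 : (((SDir N).filter p).filter
      (fun v : ℤ × ℤ => (v.1.natAbs, v.2.natAbs) = ij)).card ≤ 2 := by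
    have h3 : ((SDir N).filter p).filter (fun v : ℤ × ℤ => (v.1.natAbs, v.2.natAbs) = ij) ⊆
        {((ij.1 : ℤ), (ij.2 : ℤ)), ((ij.1 : ℤ), -(ij.2 : ℤ))} := by
      intro v hv
      rw [Finset.mem_filter, Finset.mem_filter] at hv
      obtain ⟨⟨hv1, _⟩, hv2⟩ := hv
      have h := g2h_sd hv1
      rw [← hv2]
      simp only [Finset.mem_insert, Finset.mem_singleton]
      have e1 : ((v.1.natAbs : ℕ) : ℤ) = v.1 := by omega
      rcases Int.natAbs_eq v.2 with h4 | h4
      · left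
        exact Prod.ext e1.symm h4
      · right
        exact Prod.ext e1.symm h4
    exact (Finset.card_le_card h3).trans Finset.card_le_two
  rw [h1, Finset.sum_const, nsmul_eq_mul]
  exact mul_le_mul_of_nonneg_right (by exact_mod_cast h2) (hF _ _)

private theorem g2h_max {H N : ℕ} (hH : 1 ≤ H) :
    ∑ j ∈ Finset.Icc 1 N, 1 / (max (j : ℝ) H) ^ 2 ≤ 2 / (H : ℝ) := by
  have hH0 : (0 : ℝ) < H := by exact_mod_cast hH
  have hsub : Finset.Icc 1 N ⊆ Finset.Icc 1 H ∪ Finset.Ioc H N := by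
    intro j hj
    rw [Finset.mem_Icc] at hj
    rw [Finset.mem_union, Finset.mem_Icc, Finset.mem_Ioc]
    omega
  have hnn : ∀ j : ℕ, 0 ≤ 1 / (max (j : ℝ) H) ^ 2 := fun j => by positivity
  have h1 := Finset.sum_le_sum_of_subset_of_nonneg hsub (fun j _ _ => hnn j)
  have h2 : ∑ j ∈ Finset.Icc 1 H ∪ Finset.Ioc H N, 1 / (max (j : ℝ) H) ^ 2 ≤
      ∑ j ∈ Finset.Icc 1 H, 1 / (max (j : ℝ) H) ^ 2 +
        ∑ j ∈ Finset.Ioc H N, 1 / (max (j : ℝ) H) ^ 2 := by
    rw [← Finset.sum_union_inter]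
    have : 0 ≤ ∑ j ∈ Finset.Icc 1 H ∩ Finset.Ioc H N, 1 / (max (j : ℝ) H) ^ 2 :=
      Finset.sum_nonneg fun j _ => hnn j
    linarith
  have h3 : ∑ j ∈ Finset.Icc 1 H, 1 / (max (j : ℝ) H) ^ 2 ≤ 1 / (H : ℝ) := by
    calc ∑ j ∈ Finset.Icc 1 H, 1 / (max (j : ℝ) H) ^ 2 ≤ ∑ _j ∈ Finset.Icc 1 H, 1 / (H : ℝ) ^ 2 := by
          refine Finset.sum_le_sum fun j _ => ?_
          refine one_div_le_one_div_of_le (by positivity) ?_
          exact pow_le_pow_left₀ hH0.le (le_max_right _ _) 2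
      _ = 1 / (H : ℝ) := by
          rw [Finset.sum_const, Nat.card_Icc, nsmul_eq_mul]
          simp only [Nat.add_sub_cancel]
          field_simp
  have h4 : ∑ j ∈ Finset.Ioc H N, 1 / (max (j : ℝ) H) ^ 2 ≤ 1 / (H : ℝ) := by
    refine le_trans (Finset.sum_le_sum fun j hj => ?_) (sum_inv_sq H N hH)
    rw [Finset.mem_Ioc] at hj
    have hj0 : (0 : ℝ) < j := by
      have : 0 < j := by omega
      exact_mod_cast this
    refine one_div_le_one_div_of_le (by positivity) ?_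
    exact pow_le_pow_left₀ hj0.le (le_max_left _ _) 2
  have h5 : (2 : ℝ) / H = 1 / H + 1 / H := by ring
  rw [h5]
  linarith

theorem far_b {s H N : ℕ} (hH : 1 ≤ H) (hN : 1 ≤ N) {P : Finset (ℤ × ℤ)} (hP : P ⊆ grid N)
    (hcol : ∀ x : ℤ, (P.filter fun p => p.1 = x).card ≤ s)
    (hrow : ∀ y : ℤ, (P.filter fun p => p.2 = y).card ≤ s) {κ : Bool × ℤ} (hκ : κ ∈ BL N) :
    ∑ z ∈ Zl N κ, ∑ v ∈ (SDir N).filter (fun v => H < hgt v),
      (if 1 ≤ dg0 P v z then 1 / (hgt v : ℝ) ^ 2 else 0)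
      ≤ 10 * s * N * (1 + Real.log N) / H := by
  classical
  have hH0 : (0 : ℝ) < H := by exact_mod_cast hH
  set F : ℕ → ℕ → ℝ := fun i j => if κ.1 then 1 / (j : ℝ) * (1 / (max (i : ℝ) H) ^ 2)
    else 1 / (i : ℝ) * (1 / (max (j : ℝ) H) ^ 2) with hF
  have hF0 : ∀ i j, 0 ≤ F i j := by
    intro i j
    show 0 ≤ (if κ.1 then 1 / (j : ℝ) * (1 / (max (i : ℝ) H) ^ 2)
      else 1 / (i : ℝ) * (1 / (max (j : ℝ) H) ^ 2))
    split_ifs <;> positivity
  rw [Finset.sum_comm]
  have h1 : ∀ v ∈ (SDir N).filter (fun v => H < hgt v),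
      ∑ z ∈ Zl N κ, (if 1 ≤ dg0 P v z then 1 / (hgt v : ℝ) ^ 2 else 0) ≤
        2 * s * N * F v.1.natAbs v.2.natAbs := by
    intro v hv
    rw [Finset.mem_filter] at hv
    obtain ⟨a1, a2, a3, a4, a5⟩ := g2h_sd hv.1
    have hc := g2h_count hP hcol hrow hκ a5 a1.ne' a3
    have hc' : (((Zl N κ).filter fun z => 1 ≤ dg0 P v z).card : ℝ) *
        ((if κ.1 then v.2 else v.1).natAbs : ℝ) ≤ 2 * s * N := by exact_mod_cast hc
    rw [← Finset.sum_filter, Finset.sum_const, nsmul_eq_mul]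
    have hgt1 : (H : ℝ) ≤ hgt v := by exact_mod_cast hv.2.le
    have hgt2 : (v.1.natAbs : ℝ) ≤ hgt v := by
      have : v.1.natAbs ≤ hgt v := le_max_left _ _
      exact_mod_cast this
    have hgt3 : (v.2.natAbs : ℝ) ≤ hgt v := by
      have : v.2.natAbs ≤ hgt v := le_max_right _ _
      exact_mod_cast this
    have p1 : (0 : ℝ) < v.1.natAbs := by
      have : 0 < v.1.natAbs := by omega
      exact_mod_cast this
    have p2 : (0 : ℝ) < v.2.natAbs := by
      have : 0 < v.2.natAbs := by omega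
      exact_mod_cast this
    have key : ∀ c m : ℝ, 0 < c → m ≤ hgt v →
        (((Zl N κ).filter fun z => 1 ≤ dg0 P v z).card : ℝ) * c ≤ 2 * s * N →
        (((Zl N κ).filter fun z => 1 ≤ dg0 P v z).card : ℝ) * (1 / (hgt v : ℝ) ^ 2) ≤
          2 * s * N * (1 / c * (1 / (max m H) ^ 2)) := by
      intro c m hc0 hm hcc
      have e1 : (((Zl N κ).filter fun z => 1 ≤ dg0 P v z).card : ℝ) ≤ 2 * s * N * (1 / c) := by
        rw [mul_one_div, le_div_iff₀ hc0]
        exact hcc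
      have e2 : 1 / (hgt v : ℝ) ^ 2 ≤ 1 / (max m H) ^ 2 := by
        have hm0 : 0 < max m (H : ℝ) := lt_max_of_lt_right hH0
        refine one_div_le_one_div_of_le (by positivity) ?_
        exact pow_le_pow_left₀ hm0.le (max_le hm hgt1) 2
      calc _ ≤ (2 * s * N * (1 / c)) * (1 / (max m H) ^ 2) :=
            mul_le_mul e1 e2 (by positivity) (by positivity)
        _ = 2 * s * N * (1 / c * (1 / (max m H) ^ 2)) := by ring
    show _ ≤ (2 : ℝ) * s * N * (if κ.1 then 1 / (v.2.natAbs : ℝ) * (1 / (max (v.1.natAbs : ℝ) H) ^ 2)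
      else 1 / (v.1.natAbs : ℝ) * (1 / (max (v.2.natAbs : ℝ) H) ^ 2))
    by_cases hk : κ.1 = true
    · rw [if_pos hk] at hc' ⊢
      exact key _ _ p2 hgt2 hc'
    · rw [if_neg hk] at hc' ⊢
      exact key _ _ p1 hgt3 hc'
  have h2 := (Finset.sum_le_sum h1)
  rw [← Finset.mul_sum] at h2
  have h3 := g2h_sum (N := N) (fun v => H < hgt v) F hF0
  have hm := g2h_max (N := N) hH
  have hl := sum_inv hN
  have hl0 : 0 ≤ ∑ h ∈ Finset.Icc 1 N, 1 / (h : ℝ) := Finset.sum_nonneg fun h _ => by positivity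
  have h4 : ∑ i ∈ Finset.Icc 1 N, ∑ j ∈ Finset.Icc 1 N, F i j =
      (∑ h ∈ Finset.Icc 1 N, 1 / (h : ℝ)) * ∑ j ∈ Finset.Icc 1 N, 1 / (max (j : ℝ) H) ^ 2 := by
    by_cases hk : κ.1 = true
    · have : ∀ i j : ℕ, F i j = 1 / (j : ℝ) * (1 / (max (i : ℝ) H) ^ 2) := fun i j => if_pos hk
      simp only [this]
      rw [Finset.sum_comm, Finset.sum_mul_sum]
    · have : ∀ i j : ℕ, F i j = 1 / (i : ℝ) * (1 / (max (j : ℝ) H) ^ 2) := fun i j => if_neg hk
      simp only [this]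
      rw [Finset.sum_mul_sum]
  rw [h4] at h3
  have hlog : 0 ≤ Real.log N := Real.log_natCast_nonneg N
  have h5 : (∑ h ∈ Finset.Icc 1 N, 1 / (h : ℝ)) * ∑ j ∈ Finset.Icc 1 N, 1 / (max (j : ℝ) H) ^ 2 ≤
      (1 + Real.log N) * (2 / H) := mul_le_mul hl hm (Finset.sum_nonneg fun j _ => by positivity)
        (by linarith)
  have hs : (0 : ℝ) ≤ 2 * s * N := by positivity
  calc _ ≤ 2 * s * N * ∑ v ∈ (SDir N).filter (fun v => H < hgt v), F v.1.natAbs v.2.natAbs := h2
    _ ≤ 2 * s * N * (2 * ((1 + Real.log N) * (2 / H))) :=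
        mul_le_mul_of_nonneg_left (h3.trans (by linarith)) hs
    _ = 8 * s * N * (1 + Real.log N) / H := by ring
    _ ≤ 10 * s * N * (1 + Real.log N) / H := by
        refine div_le_div_of_nonneg_right ?_ hH0.le
        have : (0 : ℝ) ≤ s * N * (1 + Real.log N) := by positivity
        nlinarith

end Pool.Agent.NKL
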