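import Pool.Agent.NKL.G2F

set_option autoImplicit false

/-!
# NKL / G2J : tuples of disjoint sets

`jf_card`: the union of `J` pairwise disjoint sets of size `c` has `J c` elements
(`Finset.card_biUnion`).
`jf_sum`: `|JF J E| ≤ C(|E|, J) ≤ |E|^J` (`card_powersetCard`, `Nat.choose_le_pow`), each term is
`k^(J c)`.
`jf_lower`: all `J`-subsets of `P₀` are in `JF J E` and their union is in `S`: at least `C(m, J)`,
`m = |P₀| ≥ J`, and `J^J C(m,J) ≥ m^J` (`J (m-i) ≥ m (J-i)`; e.g. by induction on `J`: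
`C(m,J) J = m C(m-1,J-1)` and `(m-1)/(J-1) ≥ m/J`).
-/

namespace Pool.Agent.NKL

open Finset

variable {α : Type} [DecidableEq α]

theorem jf_card {J c : ℕ} {E : Finset (Finset α)} (hE : ∀ A ∈ E, A.card = c)
    {P : Finset (Finset α)} (hP : P ∈ JF J E) : (P.biUnion id).card = J * c := by
  classical
  unfold JF at hP
  obtain ⟨h1, h2⟩ := Finset.mem_filter.1 hP
  obtain ⟨h3, h4⟩ := Finset.mem_powersetCard.1 h1
  rw [Finset.card_biUnion (t := id) h2]
  rw [Finset.sum_congr rfl fun A hA => show (id A).card = c from hE A (h3 hA), Finset.sum_const, h4, smul_eq_mul]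

theorem jf_sum {J c : ℕ} {E : Finset (Finset α)} (hE : ∀ A ∈ E, A.card = c) {k : ℝ} (hk : 0 ≤ k) :
    ∑ P ∈ JF J E, k ^ (P.biUnion id).card ≤ ((E.card : ℝ) * k ^ c) ^ J := by
  have h1 : (JF J E).card ≤ E.card ^ J := by
    unfold JF
    refine (Finset.card_filter_le _ _).trans ?_
    rw [Finset.card_powersetCard]
    exact Nat.choose_le_pow _ _
  have h2 : ((JF J E).card : ℝ) ≤ (E.card : ℝ) ^ J := by exact_mod_cast h1
  calc ∑ P ∈ JF J E, k ^ (P.biUnion id).card = ∑ _P ∈ JF J E, k ^ (J * c) :=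
        Finset.sum_congr rfl fun P hP => by rw [jf_card hE hP]
    _ = ((JF J E).card : ℝ) * k ^ (J * c) := by rw [Finset.sum_const, nsmul_eq_mul]
    _ ≤ (E.card : ℝ) ^ J * k ^ (J * c) := mul_le_mul_of_nonneg_right h2 (by positivity)
    _ = ((E.card : ℝ) * k ^ c) ^ J := by rw [mul_pow, ← pow_mul, Nat.mul_comm c J]

theorem choose_lower {m J : ℕ} (h : J ≤ m) : m ^ J ≤ J ^ J * m.choose J := by
  induction J generalizing m with
  | zero => simp
  | succ J ih =>
    obtain ⟨m, rfl⟩ : ∃ m', m = m' + 1 := ⟨m - 1, by omega⟩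
    have hJm : J ≤ m := by omega
    have h1 := ih hJm
    have h2 : (m + 1) ^ J ≤ (J + 1) ^ J * m.choose J := by
      rcases Nat.eq_zero_or_pos J with h0 | h0
      · subst h0
        simp
      · have h3 : (J * (m + 1)) ^ J ≤ (m * (J + 1)) ^ J := Nat.pow_le_pow_left (by nlinarith) J
        have h4 : 0 < J ^ J := by positivity
        have h5 : J ^ J * (m + 1) ^ J ≤ J ^ J * ((J + 1) ^ J * m.choose J) := by
          calc J ^ J * (m + 1) ^ J = (J * (m + 1)) ^ J := (mul_pow _ _ _).symm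
            _ ≤ (m * (J + 1)) ^ J := h3
            _ = m ^ J * (J + 1) ^ J := mul_pow _ _ _
            _ ≤ (J ^ J * m.choose J) * (J + 1) ^ J := Nat.mul_le_mul_right _ h1
            _ = J ^ J * ((J + 1) ^ J * m.choose J) := by ring
        exact Nat.le_of_mul_le_mul_left h5 h4
    have h6 : (m + 1) * m.choose J = (m + 1).choose (J + 1) * (J + 1) := Nat.add_one_mul_choose_eq m J
    calc (m + 1) ^ (J + 1) = (m + 1) ^ J * (m + 1) := pow_succ _ _
      _ ≤ ((J + 1) ^ J * m.choose J) * (m + 1) := Nat.mul_le_mul_right _ h2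
      _ = (J + 1) ^ J * ((m + 1) * m.choose J) := by ring
      _ = (J + 1) ^ J * ((m + 1).choose (J + 1) * (J + 1)) := by rw [h6]
      _ = (J + 1) ^ (J + 1) * (m + 1).choose (J + 1) := by ring

open Classical in
theorem jf_lower {J : ℕ} {E P₀ : Finset (Finset α)} (h₀ : P₀ ⊆ E)
    (hd : ∀ A ∈ P₀, ∀ B ∈ P₀, A ≠ B → Disjoint A B) {S : Finset α} (hS : ∀ A ∈ P₀, A ⊆ S)
    (hJ : J ≤ P₀.card) :
    P₀.card ^ J ≤ J ^ J * ((JF J E).filter fun P => P.biUnion id ⊆ S).card := by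
  refine (choose_lower hJ).trans (Nat.mul_le_mul_left _ ?_)
  rw [← Finset.card_powersetCard]
  refine Finset.card_le_card fun P hP => ?_
  obtain ⟨h1, h2⟩ := Finset.mem_powersetCard.1 hP
  unfold JF
  rw [Finset.mem_filter, Finset.mem_filter, Finset.mem_powersetCard]
  refine ⟨⟨⟨h1.trans h₀, h2⟩, fun A hA B hB hne => hd A (h1 hA) B (h1 hB) hne⟩, ?_⟩
  intro x hx
  obtain ⟨A, hA, hxA⟩ := Finset.mem_biUnion.1 hx
  exact hS A (h1 hA) hxA

end Pool.Agent.NKL
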