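import Pool.Agent.NKL.G2A
import Pool.Agent.NKL.G2E

set_option autoImplicit false

/-!
# NKL / G2K : the upper trackers: start, weights, rates

`d_a0`: `|Zl N κ| ≤ N` (`zl_card`), so the sum is at most `N ∑_{v} dW dR^M`, and by `card_hgt`/`sum_dir` (with
`d₀ = 0`, resp. `D`) at most `N ∑_h 8 h (..)`.
Type 0 (`M = s-1 ≥ 2`): `h ≤ D`: `8 h min(ε,1/h) (17/h)^(s-1) ≤ 8 17^s min(ε,1/h)/h`, and
`∑_{h ≤ K} ε/h + ∑_{h > K} 1/h² ≤ ε K + 1/K` (`sum_inv_sq`); `h > D`:
`8 h (1/h) (2W/h)^(s-1) ≤ 8 (2W+1)^(s+1)/h²`, sum `≤ 8 (2W+1)^(s+1)/D`.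
Type 1 (`M = s-2 ≥ 1`): `8 h min(ε,1/h)² (17/h)^(s-2) ≤ 8 17^s min(ε,1/h)²`, sum
`≤ 8 17^s (ε² K + 1/K) ≤ 8 17^s (ε K + 1/K)`; `h > D`: `8 h (1/h²) (2W/h)^(s-2) ≤ 8 (2W+1)^(s+1)/h²`.
Type 2 (`M = 3`, only `h > D`): `8 h (2W/h)³ ≤ 8 (2W+1)^(s+1)/h²`.
`d_cQ`: every `v ∈ SDir H` gives at most one `z ∈ Zl N κ` with `On v (pt q) = On v z` (`v` skew),
`|SDir H| ≤ |Dir H| ≤ (H+1)(2H+1) ≤ 6 H²` (`H ≥ 1`; for `H = 0` the set is empty), weights `≤ 1`,
`dR ≤ 17 + 2W`, exponent `≤ dM ≤ s`.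
`d_rate`: `dQ n (z,v)` is a subset of the cells of the line `On v = On v z`; `hgt v ≤ D`: `v ∈ Dir D`
(`dir_filter` or directly) and `rate_near`; otherwise `rate_far` (`hgt v ≤ H ≤ N`).
-/

namespace Pool.Agent.NKL

open Finset

variable {s n D H N : ℕ}

private theorem g2k_main {K : ℕ} (hK : 1 ≤ K) {ε : ℝ} (hε : 0 ≤ ε) (H : ℕ) :
    ∑ d ∈ Finset.Ioc 0 H, (if d ≤ K then ε else 1 / (d : ℝ) ^ 2) ≤ ε * K + 1 / K := by
  rw [← sum_filter_add_sum_filter_not (Finset.Ioc 0 H) (fun d => d ≤ K)]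
  refine add_le_add ?_ ?_
  · calc ∑ d ∈ (Finset.Ioc 0 H).filter (fun d => d ≤ K), (if d ≤ K then ε else 1 / (d : ℝ) ^ 2)
        = ∑ _d ∈ (Finset.Ioc 0 H).filter (fun d => d ≤ K), ε :=
          sum_congr rfl fun d hd => by rw [if_pos (mem_filter.1 hd).2]
      _ = ((Finset.Ioc 0 H).filter (fun d => d ≤ K)).card * ε := by rw [sum_const, nsmul_eq_mul]
      _ ≤ K * ε := by
          refine mul_le_mul_of_nonneg_right ?_ hε
          have h1 : (Finset.Ioc 0 H).filter (fun d => d ≤ K) ⊆ Finset.Ioc 0 K := by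
            intro d hd
            rw [mem_filter, mem_Ioc] at hd
            rw [mem_Ioc]
            exact ⟨hd.1.1, hd.2⟩
          have h2 := card_le_card h1
          rw [Nat.card_Ioc, Nat.sub_zero] at h2
          exact_mod_cast h2
      _ = ε * K := by ring
  · calc ∑ d ∈ (Finset.Ioc 0 H).filter (fun d => ¬ d ≤ K), (if d ≤ K then ε else 1 / (d : ℝ) ^ 2)
        = ∑ d ∈ (Finset.Ioc 0 H).filter (fun d => ¬ d ≤ K), 1 / (d : ℝ) ^ 2 :=
          sum_congr rfl fun d hd => by rw [if_neg (mem_filter.1 hd).2]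
      _ ≤ ∑ d ∈ Finset.Ioc K H, 1 / (d : ℝ) ^ 2 := by
          refine sum_le_sum_of_subset_of_nonneg ?_ fun d _ _ => by positivity
          intro d hd
          rw [mem_filter, mem_Ioc] at hd
          rw [mem_Ioc]
          exact ⟨not_le.1 hd.2, hd.1.2⟩
      _ ≤ 1 / K := sum_inv_sq K H hK

private theorem g2k_pow_le {a : ℝ} (ha0 : 0 ≤ a) (ha : a ≤ 1) {m : ℕ} (hm : 2 ≤ m) : a ^ m ≤ a ^ 2 :=
  pow_le_pow_of_le_one ha0 ha hm

/-- the summand as a function of the height -/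
private noncomputable def gk (s D : ℕ) (ε W : ℝ) (j d : ℕ) : ℝ :=
  (if j = 0 then min ε (1 / (d : ℝ)) else if j = 1 then min ε (1 / (d : ℝ)) ^ 2 else 1) *
    (if d ≤ D then 17 / (d : ℝ) else 2 * W / (d : ℝ)) ^ (if j = 0 then s - 1 else if j = 1 then s - 2 else 3)

private theorem gk_nonneg (s D : ℕ) {ε W : ℝ} (hε : 0 ≤ ε) (hW : 0 ≤ W) (j d : ℕ) : 0 ≤ gk s D ε W j d := by
  unfold gk
  have h1 : (0 : ℝ) ≤ min ε (1 / (d : ℝ)) := le_min hε (by positivity)
  refine mul_nonneg ?_ (pow_nonneg ?_ _)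
  · split_ifs
    · exact h1
    · exact pow_nonneg h1 2
    · norm_num
  · split_ifs <;> positivity

private theorem gk_near (hs : 3 ≤ s) {ε W : ℝ} (hε : 0 ≤ ε) (hε1 : ε ≤ 1) {j d K : ℕ} (hj : j ≤ 1)
    (hd : 1 ≤ d) (hdD : d ≤ D) :
    8 * (d : ℝ) * gk s D ε W j d ≤ 8 * 17 ^ s * (if d ≤ K then ε else 1 / (d : ℝ) ^ 2) := by
  have hd0 : (0 : ℝ) < d := by exact_mod_cast hd
  have hd1 : (1 : ℝ) ≤ d := by exact_mod_cast hd
  set a : ℝ := 1 / d with ha
  have ha0 : 0 ≤ a := by positivity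
  have ha1 : a ≤ 1 := by
    rw [ha, div_le_one hd0]
    exact hd1
  have hda : (d : ℝ) * a = 1 := by
    rw [ha]
    field_simp
  have hm0 : 0 ≤ min ε a := le_min hε ha0
  have hmε : min ε a ≤ ε := min_le_left _ _
  have hma : min ε a ≤ a := min_le_right _ _
  have hm1 : min ε a ≤ 1 := hmε.trans hε1
  have h17 : (17 : ℝ) / d = 17 * a := by
    rw [ha]
    ring
  have hR : (if d ≤ K then ε else 1 / (d : ℝ) ^ 2) = if d ≤ K then ε else a ^ 2 := by
    rw [ha]
    split_ifs <;> ring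
  rw [hR]
  unfold gk
  rw [if_pos hdD, h17, ← ha]
  have hrr : min ε a * a ≤ if d ≤ K then ε else a ^ 2 := by
    split_ifs
    · calc min ε a * a ≤ ε * 1 := mul_le_mul hmε ha1 ha0 hε
        _ = ε := mul_one ε
    · calc min ε a * a ≤ a * a := mul_le_mul_of_nonneg_right hma ha0
        _ = a ^ 2 := by ring
  have hrr2 : min ε a ^ 2 ≤ if d ≤ K then ε else a ^ 2 := by
    split_ifs
    · calc min ε a ^ 2 = min ε a * min ε a := by ring
        _ ≤ ε * 1 := mul_le_mul hmε hm1 hm0 hε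
        _ = ε := mul_one ε
    · exact pow_le_pow_left₀ hm0 hma 2
  have hrn : 0 ≤ if d ≤ K then ε else a ^ 2 := by
    split_ifs
    · exact hε
    · positivity
  rcases Nat.le_one_iff_eq_zero_or_eq_one.1 hj with rfl | rfl
  · rw [if_pos rfl, if_pos rfl, mul_pow]
    have h1 : a ^ (s - 1) ≤ a ^ 2 := g2k_pow_le ha0 ha1 (by omega)
    have h2 : (17 : ℝ) ^ (s - 1) ≤ 17 ^ s := pow_le_pow_right₀ (by norm_num) (by omega)
    calc 8 * (d : ℝ) * (min ε a * (17 ^ (s - 1) * a ^ (s - 1)))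
        = 8 * (17 ^ (s - 1) * (d * min ε a * a ^ (s - 1))) := by ring
      _ ≤ 8 * (17 ^ (s - 1) * (d * min ε a * a ^ 2)) := by gcongr
      _ = 8 * (17 ^ (s - 1) * ((d * a) * (min ε a * a))) := by ring
      _ = 8 * (17 ^ (s - 1) * (min ε a * a)) := by rw [hda, one_mul]
      _ ≤ 8 * (17 ^ s * (if d ≤ K then ε else a ^ 2)) := by
          refine mul_le_mul_of_nonneg_left ?_ (by norm_num)
          exact mul_le_mul h2 hrr (mul_nonneg hm0 ha0) (by positivity)
      _ = 8 * 17 ^ s * (if d ≤ K then ε else a ^ 2) := by ring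
  · rw [if_neg (one_ne_zero : (1 : ℕ) ≠ 0), if_neg (one_ne_zero : (1 : ℕ) ≠ 0), if_pos rfl, if_pos rfl, mul_pow]
    have h1 : a ^ (s - 2) ≤ a ^ 1 := pow_le_pow_of_le_one ha0 ha1 (by omega)
    rw [pow_one] at h1
    have h2 : (17 : ℝ) ^ (s - 2) ≤ 17 ^ s := pow_le_pow_right₀ (by norm_num) (by omega)
    calc 8 * (d : ℝ) * (min ε a ^ 2 * (17 ^ (s - 2) * a ^ (s - 2)))
        = 8 * (17 ^ (s - 2) * (d * min ε a ^ 2 * a ^ (s - 2))) := by ring
      _ ≤ 8 * (17 ^ (s - 2) * (d * min ε a ^ 2 * a)) := by gcongr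
      _ = 8 * (17 ^ (s - 2) * ((d * a) * min ε a ^ 2)) := by ring
      _ = 8 * (17 ^ (s - 2) * min ε a ^ 2) := by rw [hda, one_mul]
      _ ≤ 8 * (17 ^ s * (if d ≤ K then ε else a ^ 2)) := by
          refine mul_le_mul_of_nonneg_left ?_ (by norm_num)
          exact mul_le_mul h2 hrr2 (by positivity) (by positivity)
      _ = 8 * 17 ^ s * (if d ≤ K then ε else a ^ 2) := by ring

private theorem gk_far (hs : 3 ≤ s) {ε W : ℝ} (hε : 0 ≤ ε) (hW : 0 ≤ W) {j d : ℕ}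
    (hd : 1 ≤ d) (hdD : D < d) :
    8 * (d : ℝ) * gk s D ε W j d ≤ 8 * (2 * W + 1) ^ (s + 1) * (1 / (d : ℝ) ^ 2) := by
  have hd0 : (0 : ℝ) < d := by exact_mod_cast hd
  have hd1 : (1 : ℝ) ≤ d := by exact_mod_cast hd
  set a : ℝ := 1 / d with ha
  have ha0 : 0 ≤ a := by positivity
  have ha1 : a ≤ 1 := by
    rw [ha, div_le_one hd0]
    exact hd1
  have hda : (d : ℝ) * a = 1 := by
    rw [ha]
    field_simp
  have hm0 : 0 ≤ min ε a := le_min hε ha0
  have hma : min ε a ≤ a := min_le_right _ _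
  have h2W : 2 * W / (d : ℝ) = 2 * W * a := by
    rw [ha]
    ring
  have hR : 1 / (d : ℝ) ^ 2 = a ^ 2 := by
    rw [ha]
    ring
  have hp : ∀ m, m ≤ s + 1 → (2 * W) ^ m ≤ (2 * W + 1) ^ (s + 1) := fun m hm =>
    (pow_le_pow_left₀ (by positivity) (by linarith) m).trans (pow_le_pow_right₀ (by linarith) hm)
  have hW1 : (0 : ℝ) ≤ (2 * W + 1) ^ (s + 1) := by positivity
  rw [hR]
  unfold gk
  rw [if_neg (not_le.2 hdD), h2W, ← ha]
  by_cases hj0 : j = 0
  · rw [if_pos hj0, if_pos hj0, mul_pow]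
    have h1 : a ^ (s - 1) ≤ a ^ 2 := g2k_pow_le ha0 ha1 (by omega)
    calc 8 * (d : ℝ) * (min ε a * ((2 * W) ^ (s - 1) * a ^ (s - 1)))
        ≤ 8 * (d : ℝ) * (a * ((2 * W + 1) ^ (s + 1) * a ^ 2)) := by
          refine mul_le_mul_of_nonneg_left ?_ (by positivity)
          refine mul_le_mul hma ?_ (by positivity) ha0
          exact mul_le_mul (hp _ (by omega)) h1 (by positivity) hW1
      _ = 8 * (2 * W + 1) ^ (s + 1) * ((d * a) * a ^ 2) := by ring
      _ = 8 * (2 * W + 1) ^ (s + 1) * a ^ 2 := by rw [hda, one_mul]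
  · by_cases hj1 : j = 1
    · rw [if_neg hj0, if_pos hj1, if_neg hj0, if_pos hj1, mul_pow]
      have h1 : a ^ (s - 2) ≤ a ^ 1 := pow_le_pow_of_le_one ha0 ha1 (by omega)
      calc 8 * (d : ℝ) * (min ε a ^ 2 * ((2 * W) ^ (s - 2) * a ^ (s - 2)))
          ≤ 8 * (d : ℝ) * (a ^ 2 * ((2 * W + 1) ^ (s + 1) * a ^ 1)) := by
            refine mul_le_mul_of_nonneg_left ?_ (by positivity)
            refine mul_le_mul (pow_le_pow_left₀ hm0 hma 2) ?_ (by positivity) (by positivity)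
            exact mul_le_mul (hp _ (by omega)) h1 (by positivity) hW1
        _ = 8 * (2 * W + 1) ^ (s + 1) * ((d * a) * a ^ 2) := by ring
        _ = 8 * (2 * W + 1) ^ (s + 1) * a ^ 2 := by rw [hda, one_mul]
    · rw [if_neg hj0, if_neg hj1, if_neg hj0, if_neg hj1, mul_pow]
      calc 8 * (d : ℝ) * (1 * ((2 * W) ^ 3 * a ^ 3))
          = 8 * (2 * W) ^ 3 * ((d * a) * a ^ 2) := by ring
        _ = 8 * (2 * W) ^ 3 * a ^ 2 := by rw [hda, one_mul]
        _ ≤ 8 * (2 * W + 1) ^ (s + 1) * a ^ 2 := by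
            have := hp 3 (by omega)
            gcongr

theorem d_a0 (hs : 3 ≤ s) (hD : 1 ≤ D) {K : ℕ} (hK : 1 ≤ K) {ε W : ℝ} (hε : 0 ≤ ε) (hε1 : ε ≤ 1)
    (hW : 0 ≤ W) {k : (Bool × ℤ) × ℕ} (hk : k.2 ≤ 2) :
    ∑ x ∈ dX D H N k, dW ε k x * dR D W x ^ dM s k
      ≤ (8 * 17 ^ s * (ε * K + 1 / K) + 8 * (2 * W + 1) ^ (s + 1) / D) * N := by
  classical
  set g : ℕ → ℝ := fun d => if k.2 = 2 ∧ d ≤ D then 0 else gk s D ε W k.2 d with hg
  have hg0 : ∀ d, 0 ≤ g d := by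
    intro d
    rw [hg]
    simp only
    split_ifs
    · exact le_rfl
    · exact gk_nonneg s D hε hW _ _
  have hx : ∀ x ∈ dX D H N k, dW ε k x * dR D W x ^ dM s k = g (hgt x.2) := by
    intro x hx
    unfold dX at hx
    rw [mem_product, mem_filter] at hx
    rw [hg]
    simp only
    rw [if_neg]
    · unfold dW dR dM gk wh
      rfl
    · rintro ⟨h1, h2⟩
      exact absurd (hx.2.2 h1) (not_lt.2 h2)
  have hpt : ∀ d ∈ Finset.Ioc 0 H, 8 * (d : ℝ) * g d ≤
      8 * 17 ^ s * (if d ≤ K then ε else 1 / (d : ℝ) ^ 2) +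
        (if D < d then 8 * (2 * W + 1) ^ (s + 1) * (1 / (d : ℝ) ^ 2) else 0) := by
    intro d hd
    have hd1 : 1 ≤ d := (mem_Ioc.1 hd).1
    have hn1 : 0 ≤ 8 * (17 : ℝ) ^ s * (if d ≤ K then ε else 1 / (d : ℝ) ^ 2) := by
      refine mul_nonneg (by positivity) ?_
      split_ifs
      · exact hε
      · positivity
    rcases le_or_gt d D with h1 | h1
    · rw [if_neg (not_lt.2 h1), add_zero]
      by_cases h2 : k.2 = 2
      · rw [hg]
        simp only
        rw [if_pos ⟨h2, h1⟩, mul_zero]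
        exact hn1
      · rw [hg]
        simp only
        rw [if_neg fun h3 => h2 h3.1]
        exact gk_near hs hε hε1 (by omega) hd1 h1
    · rw [if_pos h1, hg]
      simp only
      rw [if_neg fun h3 => absurd h3.2 (not_le.2 h1)]
      have := gk_far (j := k.2) hs hε hW hd1 h1
      linarith
  have hv : ∑ v ∈ (SDir H).filter (fun v => k.2 = 2 → D < hgt v), g (hgt v) ≤
      8 * 17 ^ s * (ε * K + 1 / K) + 8 * (2 * W + 1) ^ (s + 1) / D := by
    calc ∑ v ∈ (SDir H).filter (fun v => k.2 = 2 → D < hgt v), g (hgt v)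
        ≤ ∑ v ∈ (Dir H).filter (fun v => 0 < hgt v), g (hgt v) := by
          refine sum_le_sum_of_subset_of_nonneg ?_ fun v _ _ => hg0 _
          intro v hv
          unfold SDir at hv
          rw [mem_filter, mem_filter] at hv
          rw [mem_filter]
          exact ⟨hv.1.1, hgt_pos (dir_gcd hv.1.1)⟩
      _ ≤ ∑ d ∈ Finset.Ioc 0 H, 8 * (d : ℝ) * g d := sum_dir H 0 g hg0
      _ ≤ ∑ d ∈ Finset.Ioc 0 H, (8 * 17 ^ s * (if d ≤ K then ε else 1 / (d : ℝ) ^ 2) +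
          (if D < d then 8 * (2 * W + 1) ^ (s + 1) * (1 / (d : ℝ) ^ 2) else 0)) := sum_le_sum hpt
      _ = 8 * 17 ^ s * ∑ d ∈ Finset.Ioc 0 H, (if d ≤ K then ε else 1 / (d : ℝ) ^ 2) +
          8 * (2 * W + 1) ^ (s + 1) * ∑ d ∈ (Finset.Ioc 0 H).filter (fun d => D < d), 1 / (d : ℝ) ^ 2 := by
          rw [sum_add_distrib, ← mul_sum, ← sum_filter, ← mul_sum]
      _ ≤ 8 * 17 ^ s * (ε * K + 1 / K) + 8 * (2 * W + 1) ^ (s + 1) * (1 / D) := by
          refine add_le_add (mul_le_mul_of_nonneg_left (g2k_main hK hε H) (by positivity))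
            (mul_le_mul_of_nonneg_left ?_ (by positivity))
          refine le_trans (sum_le_sum_of_subset_of_nonneg ?_ fun d _ _ => by positivity) (sum_inv_sq D H hD)
          intro d hd
          rw [mem_filter, mem_Ioc] at hd
          rw [mem_Ioc]
          exact ⟨hd.2, hd.1.2⟩
      _ = 8 * 17 ^ s * (ε * K + 1 / K) + 8 * (2 * W + 1) ^ (s + 1) / D := by ring
  have hC : 0 ≤ 8 * (17 : ℝ) ^ s * (ε * K + 1 / K) + 8 * (2 * W + 1) ^ (s + 1) / D := by positivity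
  rw [sum_congr rfl hx]
  unfold dX
  rw [sum_product]
  calc ∑ x ∈ Zl N k.1, ∑ y ∈ (SDir H).filter (fun v => k.2 = 2 → D < hgt v), g (hgt (x, y).2)
      ≤ ∑ _x ∈ Zl N k.1, (8 * 17 ^ s * (ε * K + 1 / K) + 8 * (2 * W + 1) ^ (s + 1) / D) :=
        sum_le_sum fun x _ => hv
    _ = (Zl N k.1).card * (8 * 17 ^ s * (ε * K + 1 / K) + 8 * (2 * W + 1) ^ (s + 1) / D) := by
        rw [sum_const, nsmul_eq_mul]
    _ ≤ N * (8 * 17 ^ s * (ε * K + 1 / K) + 8 * (2 * W + 1) ^ (s + 1) / D) :=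
        mul_le_mul_of_nonneg_right (by exact_mod_cast zl_card N k.1) hC
    _ = (8 * 17 ^ s * (ε * K + 1 / K) + 8 * (2 * W + 1) ^ (s + 1) / D) * N := by ring

private theorem sdir_card (H : ℕ) : ((SDir H).card : ℝ) ≤ 6 * (H : ℝ) ^ 2 := by
  rcases Nat.eq_zero_or_pos H with rfl | hH
  · have h1 : SDir 0 = ∅ := by
      rw [Finset.eq_empty_iff_forall_notMem]
      intro v hv
      unfold SDir at hv
      rw [mem_filter] at hv
      have h2 := hgt_pos (dir_gcd hv.1)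
      have h3 := dir_hgt hv.1
      omega
    rw [h1]
    simp
  · have h1 : (SDir H).card ≤ (H + 1) * (2 * H + 1) := by
      refine (card_le_card (filter_subset _ _)).trans ?_
      unfold Dir
      refine (card_le_card (filter_subset _ _)).trans ?_
      rw [card_product, Int.card_Icc, Int.card_Icc]
      have h4 : ((H : ℤ) + 1 - 0).toNat = H + 1 := by omega
      have h5 : ((H : ℤ) + 1 - -(H : ℤ)).toNat = 2 * H + 1 := by omega
      rw [h4, h5]
    have h2 : (H + 1) * (2 * H + 1) ≤ 6 * H ^ 2 := by nlinarith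
    exact_mod_cast h1.trans h2

theorem d_cQ (hs : 3 ≤ s) {ε W : ℝ} (hε : 0 ≤ ε) (hε1 : ε ≤ 1)
    (hW : 0 ≤ W) (k : (Bool × ℤ) × ℕ) (m : ℕ) (q : Cell n) :
    ∑ x ∈ (dX D H N k).filter (fun x => q ∈ dQ n x), dW ε k x * dR D W x ^ (dM s k - m)
      ≤ 6 * (H : ℝ) ^ 2 * (18 + 2 * W) ^ s := by
  classical
  have hterm : ∀ x ∈ (dX D H N k).filter (fun x => q ∈ dQ n x),
      dW ε k x * dR D W x ^ (dM s k - m) ≤ (18 + 2 * W) ^ s := by
    intro x hx
    rw [mem_filter] at hx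
    unfold dX at hx
    rw [mem_product, mem_filter] at hx
    have hxs := hx.1.2.1
    unfold SDir at hxs
    have hh := hgt_pos (dir_gcd (mem_filter.1 hxs).1)
    have hh0 : (0 : ℝ) < hgt x.2 := by exact_mod_cast hh
    have hh1 : (1 : ℝ) ≤ hgt x.2 := by exact_mod_cast hh
    have hw0 : 0 ≤ wh ε x.2 := le_min hε (by positivity)
    have hw1 : wh ε x.2 ≤ 1 := (min_le_left _ _).trans hε1
    have hdW0 : 0 ≤ dW ε k x := by
      unfold dW
      split_ifs
      · exact hw0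
      · exact pow_nonneg hw0 2
      · norm_num
    have hdW : dW ε k x ≤ 1 := by
      unfold dW
      split_ifs
      · exact hw1
      · exact pow_le_one₀ hw0 hw1
      · exact le_rfl
    have hR0 : 0 ≤ dR D W x := by
      unfold dR
      split_ifs <;> positivity
    have hR : dR D W x ≤ 18 + 2 * W := by
      unfold dR
      split_ifs
      · have : (17 : ℝ) / hgt x.2 ≤ 17 := div_le_self (by norm_num) hh1
        linarith
      · have : 2 * W / (hgt x.2 : ℝ) ≤ 2 * W := div_le_self (by positivity) hh1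
        linarith
    have hM : dM s k ≤ s := by
      unfold dM
      split_ifs <;> omega
    calc dW ε k x * dR D W x ^ (dM s k - m)
        ≤ 1 * (18 + 2 * W) ^ (dM s k - m) :=
          mul_le_mul hdW (pow_le_pow_left₀ hR0 hR _) (by positivity) (by norm_num)
      _ = (18 + 2 * W) ^ (dM s k - m) := one_mul _
      _ ≤ (18 + 2 * W) ^ s := pow_le_pow_right₀ (by linarith) (by omega)
  have hcard : (((dX D H N k).filter (fun x => q ∈ dQ n x)).card : ℝ) ≤ 6 * (H : ℝ) ^ 2 := by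
    refine le_trans ?_ (sdir_card H)
    have h1 : ((dX D H N k).filter (fun x => q ∈ dQ n x)).card ≤ (SDir H).card := by
      refine card_le_card_of_injOn Prod.snd ?_ ?_
      · intro x hx
        have hx' := mem_filter.1 (mem_coe.1 hx)
        have h2 := hx'.1
        unfold dX at h2
        rw [mem_product, mem_filter] at h2
        exact mem_coe.2 h2.2.1
      · intro x hx y hy hxy
        have hx' := mem_filter.1 (mem_coe.1 hx)
        have hy' := mem_filter.1 (mem_coe.1 hy)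
        have hx1 := hx'.1
        have hy1 := hy'.1
        unfold dX at hx1 hy1
        rw [mem_product, mem_filter] at hx1 hy1
        have hx2 := hx'.2
        have hy2 := hy'.2
        unfold dQ at hx2 hy2
        rw [mem_filter] at hx2 hy2
        have hon : On x.2 x.1 = On x.2 y.1 := by
          have e1 := hx2.2.2
          have e2 := hy2.2.2
          have e3 : x.2 = y.2 := hxy
          rw [← e3] at e2
          rw [← e1, ← e2]
        have hsk := hx1.2.1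
        unfold SDir at hsk
        rw [mem_filter] at hsk
        have hzx := hx1.1
        have hzy := hy1.1
        unfold Zl at hzx hzy
        rw [mem_filter] at hzx hzy
        have hfst : x.1 = y.1 := by
          unfold On at hon
          rcases hb : k.1.1 with _ | _
          · rw [hb] at hzx hzy
            have a1 : x.1.1 = k.1.2 := by simpa using hzx.2
            have a2 : y.1.1 = k.1.2 := by simpa using hzy.2
            have a3 : x.1.1 = y.1.1 := a1.trans a2.symm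
            rw [a3] at hon
            have a4 : x.2.1 * x.1.2 = x.2.1 * y.1.2 := by linarith
            exact Prod.ext a3 (mul_left_cancel₀ hsk.2.1 a4)
          · rw [hb] at hzx hzy
            have a1 : x.1.2 = k.1.2 := by simpa using hzx.2
            have a2 : y.1.2 = k.1.2 := by simpa using hzy.2
            have a3 : x.1.2 = y.1.2 := a1.trans a2.symm
            rw [a3] at hon
            have a4 : x.2.2 * x.1.1 = x.2.2 * y.1.1 := by linarith
            exact Prod.ext (mul_left_cancel₀ hsk.2.2 a4) a3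
        exact Prod.ext hfst hxy
    exact_mod_cast h1
  calc ∑ x ∈ (dX D H N k).filter (fun x => q ∈ dQ n x), dW ε k x * dR D W x ^ (dM s k - m)
      ≤ ∑ _x ∈ (dX D H N k).filter (fun x => q ∈ dQ n x), (18 + 2 * W) ^ s := sum_le_sum hterm
    _ = ((dX D H N k).filter (fun x => q ∈ dQ n x)).card * (18 + 2 * W) ^ s := by
        rw [sum_const, nsmul_eq_mul]
    _ ≤ 6 * (H : ℝ) ^ 2 * (18 + 2 * W) ^ s := mul_le_mul_of_nonneg_right hcard (by positivity)

theorem d_rate (hs : 3 ≤ s) {ε₀ : ℝ} (hε : 0 < ε₀) (hε1 : ε₀ ≤ 1)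
    (hn : 1 ≤ n) (h : 4 * n ≤ N) (hD : 1 ≤ D) (hDN : D ≤ N) (hN : 12 * s ≤ N) (hHN : H ≤ N)
    {R : ℕ} (hR : 50 * (s : ℝ) ^ 2 / ε₀ ≤ R) {i : ℕ} (hi : i ≤ R) {b : ℕ} {φ W e : ℝ}
    (hY : (gsys s s n D N h hD).Hyp (((s : ℝ) - ε₀) / R) R b s φ W) (he : 0 ≤ e)
    (heD : e ≤ 1 / D) {S : Finset (Cell n)} (hS : (gsys s s n D N h hD).Valid S)
    (ht : (gsys s s n D N h hD).Trk (((s : ℝ) - ε₀) / R) R i e S)
    {k : (Bool × ℤ) × ℕ} {x : (ℤ × ℤ) × (ℤ × ℤ)} (hx : x ∈ dX D H N k) :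
    ∑ q ∈ dQ n x, (gsys s s n D N h hD).pi (((s : ℝ) - ε₀) / R) i S q
      ≤ ((s : ℝ) - ε₀) / R * dR D W x := by
  classical
  have hpi0 : ∀ q, 0 ≤ (gsys s s n D N h hD).pi (((s : ℝ) - ε₀) / R) i S q := by
    intro q
    have hθ := hY.θ0
    unfold Sys.pi
    split_ifs
    · exact le_rfl
    · exact mul_nonneg (by positivity) (mul_nonneg (hY.ok.f_nonneg q)
        (Finset.prod_nonneg fun v _ => inv_nonneg.2 (hY.φ0.le.trans (FF_ge (hY.ch v _) hi))))
  have hsum : ∑ q ∈ dQ n x, (gsys s s n D N h hD).pi (((s : ℝ) - ε₀) / R) i S q ≤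
      ∑ q ∈ (univ : Finset (Cell n)).filter (fun q => On x.2 (pt q) = On x.2 x.1),
        (gsys s s n D N h hD).pi (((s : ℝ) - ε₀) / R) i S q := by
    refine sum_le_sum_of_subset_of_nonneg ?_ fun q _ _ => hpi0 q
    intro q hq
    unfold dQ at hq
    rw [mem_filter] at hq ⊢
    exact ⟨hq.1, hq.2.2⟩
  refine hsum.trans ?_
  unfold dX at hx
  rw [mem_product, mem_filter] at hx
  have hxs := hx.2.1
  unfold SDir at hxs
  rw [mem_filter] at hxs
  rcases le_or_gt (hgt x.2) D with h1 | h1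
  · have hR' : dR D W x = 17 / (hgt x.2 : ℝ) := by
      unfold dR
      rw [if_pos h1]
    rw [hR']
    have hvD : x.2 ∈ Dir D := by
      rcases le_total H D with h2 | h2
      · have h3 := hxs.1
        rw [← dir_filter h2, mem_filter] at h3
        exact h3.1
      · rw [← dir_filter h2, mem_filter]
        exact ⟨hxs.1, h1⟩
    exact rate_near hs hε hε1 hn h hD hDN hN hR hi hY he heD hS ht ⟨x.2, hvD⟩ hxs.2 (On x.2 x.1)
  · have hR' : dR D W x = 2 * W / (hgt x.2 : ℝ) := by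
      unfold dR
      rw [if_neg (not_le.2 h1)]
    rw [hR']
    exact rate_far hn h hD hY hi S ⟨dir_gcd hxs.1, hxs.2⟩ ((dir_hgt hxs.1).trans hHN) (On x.2 x.1)

end Pool.Agent.NKL
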