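import Pool.Agent.NKL.G2D
import Pool.Agent.NKL.G2H

set_option autoImplicit false

/-!
# NKL / G2N : near-perfect sets of stage 2

`near2_of_raw`: let `E` be the set of `Raw.quad`, `P₁ = P \ E`,
`|P₁| ≥ (s - ε/4 - ε/8) N - 4 ≥ (s - ε/2) N`.  Choose `S ⊆ P₁` with `|S| = ⌊(s - ε/2) N⌋`
(`Finset.exists_subset_card_eq`).  `Near s s N ε S`: `lrg`: `hgt v ≤ D` by `Raw.lrg`, otherwise by `quad`;
`|S| ≥ (s - ε/2) N - 1 ≥ (s - ε) N`.
`avail`: `|P| ≤ s N` (columns), so `|P \ S| ≤ (ε/2) N + 1`.  Let `p ∈ S` be in the set of `Raw.free` and let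
neither `(r, p.2)` nor `(p.1, c)` be in the set `U κ = {z ∈ Zl N κ | ∃ v ∈ SDir N, D < hgt v ∧ 3 ≤ dg0 P v z}`,
`κ = (false, r)` resp. `(true, c)`.  Then both are safe: for skew `v` with `hgt v ≤ D` by `free` and
`dg0_mono`; for `hgt v > D`: if `dg0 S v z ≥ s ≥ 3`, then `hgt v < N` (`hgt_lt`), `v` or `-v` is in `SDir N`
(`prim_dir`, `dg0_neg`), so `z ∈ U κ`.  `|U κ| ≤ (η/4) N` (`du` and `tri`: either `hgt v ≤ H`, then
`v ∈ SDir H`, or `hgt v > H`), and each `z ∈ U κ` is `(r, p.2)` for at most `s` points `p ∈ P` (`row`, `col`).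
Total loss at most `(ε/2) N + 1 + 2 s (η/4) N ≤ (β/2) N + 1 + (β/2) N ≤ 3 β N`.
`dsum`: split `SDir N` into `hgt ≤ H` (these are in `SDir H`): `da + db ≤ (η/4) N`; and `hgt v > H`:
`wh ε v ≤ 1/hgt v`; `s ≤ dg0 + 1` implies `2 ≤ dg0`: at most `∑_z deg2 N P z/H ≤ N d/H`, `d^10 ≤ N`; and
`s ≤ dg0 + 2` implies `1 ≤ dg0`: at most `10 s N (1 + log N)/H` (`far_b`).  `N < (H+1)^5 ≤ 32 H^5`, so both
are at most `(η/4) N` for large `N`.
`deg`: `dg0_mono`.
`near2_exists`: take `η' = min η (β/s)`, `ε₁' = min ε₁ (min β 1)`; for `N ≥ 1` there is `H` with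
`H^5 ≤ N < (H+1)^5` (`Nat.find`/`Nat.findGreatest`); `Near2` is monotone in `η`.
-/

namespace Pool.Agent.NKL

open Finset

private theorem g2n_deg2 {N : ℕ} {S P : Finset (ℤ × ℤ)} (h : S ⊆ P) (z : ℤ × ℤ) :
    deg2 N S z ≤ deg2 N P z := by
  unfold deg2
  refine Finset.card_le_card fun v hv => ?_
  rw [mem_filter] at hv ⊢
  exact ⟨hv.1, hv.2.trans (dg0_mono h v z)⟩

private theorem g2n_sdir {N H : ℕ} {v : ℤ × ℤ} (hv : v ∈ SDir N) (h : hgt v ≤ H) : v ∈ SDir H := by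
  unfold SDir Dir at hv ⊢
  rw [mem_filter, mem_filter, mem_product, mem_Icc, mem_Icc] at hv ⊢
  unfold hgt at h
  obtain ⟨⟨⟨⟨h1, h2⟩, h3, h4⟩, h5⟩, h6⟩ := hv
  refine ⟨⟨⟨⟨h1, ?_⟩, ?_, ?_⟩, h5⟩, h6⟩ <;> omega

/-- growth -/
private theorem g2n_big (s : ℕ) {η : ℝ} (hη : 0 < η) : ∃ K : ℕ, ∀ H ≥ K,
    10 * (s : ℝ) * (1 + 5 * Real.log ((H : ℝ) + 1)) ≤ η / 4 * H := by
  have h1 := (Real.isLittleO_log_id_atTop).bound (c := η / (1600 * ((s : ℝ) + 1))) (by positivity)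
  rw [Filter.eventually_atTop] at h1
  obtain ⟨x₀, hx₀⟩ := h1
  refine ⟨max (max ⌈x₀⌉₊ 3) ⌈80 * (s : ℝ) / η⌉₊, fun H hH => ?_⟩
  have hH1 : x₀ ≤ H := (Nat.le_ceil x₀).trans
    (by exact_mod_cast ((le_max_left _ _).trans (le_max_left _ _)).trans hH)
  have hH3 : (3 : ℝ) ≤ H := by exact_mod_cast ((le_max_right _ _).trans (le_max_left _ _)).trans hH
  have hH4 : 80 * (s : ℝ) / η ≤ H := (Nat.le_ceil _).trans (by exact_mod_cast (le_max_right _ _).trans hH)
  have h2 := hx₀ ((H : ℝ) + 1) (by linarith)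
  have hl : 0 ≤ Real.log ((H : ℝ) + 1) := Real.log_nonneg (by linarith)
  rw [Real.norm_eq_abs, Real.norm_eq_abs, abs_of_nonneg hl, id, abs_of_nonneg (by linarith)] at h2
  rw [div_le_iff₀ hη] at hH4
  have h3 : 50 * (s : ℝ) * Real.log ((H : ℝ) + 1) ≤ η / 32 * ((H : ℝ) + 1) := by
    calc 50 * (s : ℝ) * Real.log ((H : ℝ) + 1) ≤
          50 * ((s : ℝ) + 1) * (η / (1600 * ((s : ℝ) + 1)) * ((H : ℝ) + 1)) := by
          refine mul_le_mul (by linarith) h2 hl (by positivity)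
      _ = η / 32 * ((H : ℝ) + 1) := by
          have : (s : ℝ) + 1 ≠ 0 := by positivity
          field_simp
          ring
  have h4 : (0 : ℝ) ≤ s := Nat.cast_nonneg s
  have h5 : η * 1 ≤ η * H := mul_le_mul_of_nonneg_left (by linarith) hη.le
  nlinarith

private theorem g2n_U {s D H N : ℕ} {ε β η : ℝ} {P : Finset (ℤ × ℤ)} (hR : Raw s D H N ε β η P)
    {κ : Bool × ℤ} (hκ : κ ∈ BL N) :
    (((Zl N κ).filter fun z => ∃ v ∈ SDir N, D < hgt v ∧ 3 ≤ dg0 P v z).card : ℝ) ≤ η / 4 * N := by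
  classical
  have h1 : (((Zl N κ).filter fun z => ∃ v ∈ SDir H, D < hgt v ∧ 3 ≤ dg0 P v z).card : ℝ)
      ≤ η / 8 * N := by
    convert hR.du κ hκ
  have h2 : (((Zl N κ).filter fun z => ∃ v ∈ SDir N, H < hgt v ∧ 3 ≤ dg0 P v z).card : ℝ)
      ≤ η / 8 * N := by
    convert hR.tri κ hκ
  have h3 : (Zl N κ).filter (fun z => ∃ v ∈ SDir N, D < hgt v ∧ 3 ≤ dg0 P v z) ⊆
      (Zl N κ).filter (fun z => ∃ v ∈ SDir H, D < hgt v ∧ 3 ≤ dg0 P v z) ∪
      (Zl N κ).filter (fun z => ∃ v ∈ SDir N, H < hgt v ∧ 3 ≤ dg0 P v z) := by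
    intro z hz
    rw [mem_filter] at hz
    obtain ⟨hz, v, hv, hv1, hv2⟩ := hz
    rw [mem_union, mem_filter, mem_filter]
    rcases le_or_gt (hgt v) H with h | h
    · exact Or.inl ⟨hz, v, g2n_sdir hv h, hv1, hv2⟩
    · exact Or.inr ⟨hz, v, hv, h, hv2⟩
  have h4 := (Finset.card_le_card h3).trans (Finset.card_union_le _ _)
  have h5 : (((Zl N κ).filter fun z => ∃ v ∈ SDir N, D < hgt v ∧ 3 ≤ dg0 P v z).card : ℝ) ≤
      ((Zl N κ).filter (fun z => ∃ v ∈ SDir H, D < hgt v ∧ 3 ≤ dg0 P v z)).card +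
      ((Zl N κ).filter (fun z => ∃ v ∈ SDir N, H < hgt v ∧ 3 ≤ dg0 P v z)).card := by
    exact_mod_cast h4
  refine (h5.trans (add_le_add h1 h2)).trans (le_of_eq ?_)
  ring

/-- a cell of the base line outside `U` is safe -/
private theorem g2n_safe {s D N : ℕ} (hs : 3 ≤ s) {P S : Finset (ℤ × ℤ)} (hSP : S ⊆ P)
    (hP : P ⊆ grid N) {z : ℤ × ℤ} (hz : z ∈ grid N)
    (h1 : ∀ v, Skew v → hgt v ≤ D → dg0 P v z + 1 ≤ s)
    (h2 : ¬ ∃ v ∈ SDir N, D < hgt v ∧ 3 ≤ dg0 P v z) : Safe s S z := by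
  intro v hv
  rcases le_or_gt (hgt v) D with h | h
  · have h3 := h1 v hv h
    have h4 := dg0_mono hSP v z
    omega
  · by_contra h3
    have h4 := dg0_mono hSP v z
    apply h2
    have h5 : 0 < dg0 S v z := by omega
    unfold dg0 at h5
    obtain ⟨q, hq⟩ := Finset.card_pos.1 h5
    rw [mem_filter] at hq
    have h6 := hgt_lt hv.1 (hP (hSP hq.1)) hz hq.2.1 hq.2.2
    rcases prim_dir hv.1 h6.le with h7 | h7
    · refine ⟨v, ?_, h, by omega⟩
      unfold SDir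
      rw [mem_filter]
      exact ⟨h7, hv.2⟩
    · refine ⟨(-v.1, -v.2), ?_, ?_, ?_⟩
      · unfold SDir
        rw [mem_filter]
        exact ⟨h7, by simpa using hv.2.1, by simpa using hv.2.2⟩
      · rw [hgt_neg]
        exact h
      · rw [dg0_neg]
        omega

private theorem g2n_card {s N : ℕ} {P : Finset (ℤ × ℤ)} (hP : P ⊆ grid N)
    (hcol : ∀ x : ℤ, (P.filter fun p => p.1 = x).card ≤ s) : P.card ≤ s * N := by
  have h1 : ∀ p ∈ P, p.1 ∈ Finset.Ico (0 : ℤ) N := by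
    intro p hp
    have h2 := hP hp
    unfold grid at h2
    exact (mem_product.1 h2).1
  have h2 := Finset.card_le_mul_card_image_of_maps_to h1 s (fun x _ => hcol x)
  simpa using h2

/-- points of `P` in few rows or columns -/
private theorem g2n_fib {s : ℕ} {P U : Finset (ℤ × ℤ)} (f : ℤ × ℤ → ℤ × ℤ)
    (hf : ∀ z ∈ U, (P.filter fun p => f p = z).card ≤ s) :
    (P.filter fun p => f p ∈ U).card ≤ s * U.card := by
  refine Finset.card_le_mul_card_image_of_maps_to (f := f) (fun p hp => (mem_filter.1 hp).2) s ?_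
  intro z hz
  refine le_trans (Finset.card_le_card ?_) (hf z hz)
  intro p hp
  rw [mem_filter, mem_filter] at hp
  rw [mem_filter]
  exact ⟨hp.1.1, hp.2⟩

private theorem g2n_deg {N H d : ℕ} {η : ℝ} (hη : 0 < η) (hH : 1 ≤ H) (hN : N < (H + 1) ^ 5)
    (hη2 : 32 ≤ η ^ 2 * H) (hd : d ^ 10 ≤ N) : (d : ℝ) ≤ η / 4 * H := by
  have h1 : (d ^ 2) ^ 5 < (2 * H) ^ 5 := by
    rw [← pow_mul]
    calc d ^ (2 * 5) = d ^ 10 := by norm_num
      _ ≤ N := hd
      _ < (H + 1) ^ 5 := hN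
      _ ≤ (2 * H) ^ 5 := Nat.pow_le_pow_left (by omega) 5
  have h2 : d ^ 2 < 2 * H := lt_of_pow_lt_pow_left₀ 5 (Nat.zero_le _) h1
  have h3 : (d : ℝ) ^ 2 ≤ 2 * H := by exact_mod_cast h2.le
  have h4 : (0 : ℝ) < H := by exact_mod_cast hH
  refine le_of_sq_le_sq ?_ (by positivity)
  nlinarith

private theorem g2n_dsum {s D H N : ℕ} {ε β η : ℝ} (hs : 3 ≤ s) (hε : 0 < ε) (hη : 0 < η)
    (hH : 1 ≤ H) (hN1 : 1 ≤ N) (hN : N < (H + 1) ^ 5) (hη2 : 32 ≤ η ^ 2 * H)
    (hbig : 10 * (s : ℝ) * (1 + 5 * Real.log ((H : ℝ) + 1)) ≤ η / 4 * H)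
    {P S : Finset (ℤ × ℤ)} (hR : Raw s D H N ε β η P) (hSP : S ⊆ P) (κ : Bool × ℤ)
    (hκ0 : 0 ≤ κ.2) (hκ1 : κ.2 < N) :
    ∑ z ∈ Zl N κ, dgs s N ε S z ≤ η * N := by
  have hκ : κ ∈ BL N := by
    unfold BL
    rw [mem_product, mem_Ico]
    exact ⟨mem_univ _, hκ0, hκ1⟩
  have hH0 : (0 : ℝ) < H := by exact_mod_cast hH
  have hN0 : (0 : ℝ) < N := by exact_mod_cast hN1
  have hwh0 : ∀ v, 0 ≤ wh ε v := fun v => le_min hε.le (by positivity)
  have hwh1 : ∀ v, wh ε v ≤ 1 / (hgt v : ℝ) := fun v => min_le_right _ _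
  set A : ℤ × ℤ → ℤ × ℤ → ℝ := fun z v => (if s ≤ dg0 P v z + 1 then wh ε v else 0) +
    (if s ≤ dg0 P v z + 2 then wh ε v ^ 2 else 0) with hA
  set B : ℤ × ℤ → ℤ × ℤ → ℝ := fun z v => (if 2 ≤ dg0 P v z then 1 / (H : ℝ) else 0) with hB
  set C : ℤ × ℤ → ℤ × ℤ → ℝ := fun z v => (if 1 ≤ dg0 P v z then 1 / (hgt v : ℝ) ^ 2 else 0) with hC
  have hA0 : ∀ z v, 0 ≤ A z v := by
    intro z v
    have := hwh0 v
    simp only [hA]
    split_ifs <;> positivity
  have hB0 : ∀ z v, 0 ≤ B z v := by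
    intro z v
    simp only [hB]
    split_ifs <;> positivity
  have hSA : ∀ z v, ((if s ≤ dg0 S v z + 1 then wh ε v else 0)
      + (if s ≤ dg0 S v z + 2 then wh ε v ^ 2 else 0)) ≤ A z v := by
    intro z v
    have h1 := dg0_mono hSP v z
    have h2 := hwh0 v
    have h3 : 0 ≤ wh ε v ^ 2 := by positivity
    simp only [hA]
    refine add_le_add ?_ ?_
    · split_ifs with a b
      · exact le_refl _
      · omega
      · exact h2
      · exact le_refl _
    · split_ifs with a b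
      · exact le_refl _
      · omega
      · exact h3
      · exact le_refl _
  have hAB : ∀ z v, H < hgt v → A z v ≤ B z v + C z v := by
    intro z v hv
    have h2 := hwh0 v
    have h3 := hwh1 v
    have hv' : (H : ℝ) < hgt v := by exact_mod_cast hv
    have h4 : 1 / (hgt v : ℝ) ≤ 1 / (H : ℝ) := one_div_le_one_div_of_le hH0 hv'.le
    have h5 : wh ε v ^ 2 ≤ 1 / (hgt v : ℝ) ^ 2 := by
      calc wh ε v ^ 2 ≤ (1 / (hgt v : ℝ)) ^ 2 := pow_le_pow_left₀ h2 h3 2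
        _ = 1 / (hgt v : ℝ) ^ 2 := by rw [div_pow, one_pow]
    simp only [hA, hB, hC]
    refine add_le_add ?_ ?_
    · split_ifs with a b
      · exact h3.trans h4
      · omega
      · positivity
      · exact le_refl _
    · split_ifs with a b
      · exact h5
      · omega
      · positivity
      · exact le_refl _
  have hz : ∀ z ∈ Zl N κ, dgs s N ε S z ≤ ∑ v ∈ SDir H, A z v +
      (η / 4 + ∑ v ∈ (SDir N).filter (fun v => H < hgt v), C z v) := by
    intro z hz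
    have hzg : z ∈ grid N := by
      unfold Zl at hz
      exact (mem_filter.1 hz).1
    unfold dgs
    refine (Finset.sum_le_sum fun v _ => hSA z v).trans ?_
    rw [← Finset.sum_filter_add_sum_filter_not (SDir N) (fun v => hgt v ≤ H)]
    refine add_le_add ?_ ?_
    · refine Finset.sum_le_sum_of_subset_of_nonneg ?_ fun v _ _ => hA0 z v
      intro v hv
      rw [mem_filter] at hv
      exact g2n_sdir hv.1 hv.2
    · have h1 : (SDir N).filter (fun v => ¬ hgt v ≤ H) = (SDir N).filter (fun v => H < hgt v) := by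
        refine Finset.filter_congr fun v _ => ?_
        rw [not_le]
      rw [h1]
      refine (Finset.sum_le_sum fun v hv => hAB z v (mem_filter.1 hv).2).trans ?_
      rw [Finset.sum_add_distrib]
      refine add_le_add ?_ (le_refl _)
      have h2 : ∑ v ∈ (SDir N).filter (fun v => H < hgt v), B z v ≤ ∑ v ∈ SDir N, B z v :=
        Finset.sum_le_sum_of_subset_of_nonneg (Finset.filter_subset _ _) fun v _ _ => hB0 z v
      have h3 : ∑ v ∈ SDir N, B z v = (deg2 N P z : ℝ) * (1 / H) := by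
        simp only [hB]
        rw [← Finset.sum_filter, Finset.sum_const, nsmul_eq_mul]
        rfl
      have h4 := g2n_deg hη hH hN hη2 (hR.deg z hzg)
      rw [h3] at h2
      refine h2.trans ?_
      rw [mul_one_div, div_le_iff₀ hH0]
      exact h4
  refine (Finset.sum_le_sum hz).trans ?_
  rw [Finset.sum_add_distrib, Finset.sum_add_distrib]
  have h1 : ∑ z ∈ Zl N κ, ∑ v ∈ SDir H, A z v ≤ η / 8 * N + η / 8 * N := by
    simp only [hA]
    rw [show (∑ z ∈ Zl N κ, ∑ v ∈ SDir H, ((if s ≤ dg0 P v z + 1 then wh ε v else 0) +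
      (if s ≤ dg0 P v z + 2 then wh ε v ^ 2 else 0))) =
      (∑ z ∈ Zl N κ, ∑ v ∈ SDir H, (if s ≤ dg0 P v z + 1 then wh ε v else 0)) +
      (∑ z ∈ Zl N κ, ∑ v ∈ SDir H, (if s ≤ dg0 P v z + 2 then wh ε v ^ 2 else 0)) by
        rw [← Finset.sum_add_distrib]
        exact Finset.sum_congr rfl fun z _ => Finset.sum_add_distrib]
    exact add_le_add (hR.da κ hκ) (hR.db κ hκ)
  have h2 : ∑ z ∈ Zl N κ, (η / 4 : ℝ) ≤ η / 4 * N := by
    rw [Finset.sum_const, nsmul_eq_mul, mul_comm]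
    refine mul_le_mul_of_nonneg_left ?_ (by positivity)
    exact_mod_cast zl_card N κ
  have h3 : ∑ z ∈ Zl N κ, ∑ v ∈ (SDir N).filter (fun v => H < hgt v), C z v ≤ η / 4 * N := by
    refine (far_b hH hN1 hR.sub hR.col hR.row hκ).trans ?_
    rw [div_le_iff₀ hH0]
    have h4 : Real.log N ≤ 5 * Real.log ((H : ℝ) + 1) := by
      rw [← Real.log_rpow (by positivity)]
      refine Real.log_le_log hN0 ?_
      have h5 : ((H : ℝ) + 1) ^ (5 : ℝ) = ((H : ℝ) + 1) ^ 5 := by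
        rw [← Real.rpow_natCast]
        norm_num
      rw [h5]
      exact_mod_cast hN.le
    have h6 : (0 : ℝ) ≤ s := Nat.cast_nonneg s
    calc 10 * (s : ℝ) * N * (1 + Real.log N) ≤
          10 * (s : ℝ) * N * (1 + 5 * Real.log ((H : ℝ) + 1)) :=
          mul_le_mul_of_nonneg_left (by linarith) (by positivity)
      _ = N * (10 * (s : ℝ) * (1 + 5 * Real.log ((H : ℝ) + 1))) := by ring
      _ ≤ N * (η / 4 * H) := mul_le_mul_of_nonneg_left hbig hN0.le
      _ = η / 4 * N * H := by ring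
  have h7 : 0 < η * N := by positivity
  linarith

theorem near2_of_raw {s D : ℕ} (hs : 3 ≤ s) (hsD : s ≤ D) {ε β η : ℝ} (hε : 0 < ε) (hε1 : ε ≤ 1)
    (hεβ : ε ≤ β) (hη : 0 < η) (hηβ : s * η ≤ β) :
    ∃ N₀ : ℕ, ∀ N ≥ N₀, ∀ H : ℕ, H ^ 5 ≤ N → N < (H + 1) ^ 5 → ∀ P, Raw s D H N ε β η P →
      ∃ S, Near2 s N ε β η S := by
  classical
  obtain ⟨K, hK⟩ := g2n_big s hη
  refine ⟨max (max (K ^ 5) ((⌈32 / η ^ 2⌉₊ + 1) ^ 5)) (max ⌈32 / ε⌉₊ 1), fun N hN H hH1 hH2 P hR => ?_⟩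
  have hNK : K ^ 5 ≤ N := ((le_max_left _ _).trans (le_max_left _ _)).trans hN
  have hNL : (⌈32 / η ^ 2⌉₊ + 1) ^ 5 ≤ N := ((le_max_right _ _).trans (le_max_left _ _)).trans hN
  have hNε : 32 / ε ≤ N := (Nat.le_ceil _).trans
    (by exact_mod_cast ((le_max_left _ _).trans (le_max_right _ _)).trans hN)
  have hN1 : 1 ≤ N := ((le_max_right _ _).trans (le_max_right _ _)).trans hN
  have hN0 : (1 : ℝ) ≤ N := by exact_mod_cast hN1
  rw [div_le_iff₀ hε] at hNε
  have hHK : K ≤ H := by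
    have h1 : K ^ 5 < (H + 1) ^ 5 := lt_of_le_of_lt hNK hH2
    have h2 := lt_of_pow_lt_pow_left₀ 5 (Nat.zero_le _) h1
    omega
  have hHL : ⌈32 / η ^ 2⌉₊ + 1 ≤ H := by
    have h1 : (⌈32 / η ^ 2⌉₊ + 1) ^ 5 < (H + 1) ^ 5 := lt_of_le_of_lt hNL hH2
    have h2 := lt_of_pow_lt_pow_left₀ 5 (Nat.zero_le _) h1
    omega
  have hH0 : 1 ≤ H := by omega
  have hη2 : 32 ≤ η ^ 2 * H := by
    have h1 : 32 / η ^ 2 ≤ H := (Nat.le_ceil _).trans (by exact_mod_cast (by omega : ⌈32 / η ^ 2⌉₊ ≤ H))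
    rw [div_le_iff₀ (by positivity)] at h1
    linarith
  have hsR : (3 : ℝ) ≤ s := by exact_mod_cast hs
  obtain ⟨E, hEP, hEc, hE⟩ := hR.quad
  have hPc : P.card ≤ s * N := g2n_card hR.sub hR.col
  have hPc' : (P.card : ℝ) ≤ s * N := by exact_mod_cast hPc
  have h1 := hR.card
  have hPE : (P \ E).card = P.card - E.card := Finset.card_sdiff_of_subset hEP
  have hPE' : ((P \ E).card : ℝ) = P.card - E.card := by
    rw [hPE, Nat.cast_sub (Finset.card_le_card hEP)]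
  have hq : (0 : ℝ) ≤ ((s : ℝ) - ε / 2) * N := mul_nonneg (by linarith) (by linarith)
  have hfl : ⌊((s : ℝ) - ε / 2) * N⌋₊ ≤ (P \ E).card := by
    have h2 : ((⌊((s : ℝ) - ε / 2) * N⌋₊ : ℕ) : ℝ) ≤ ((s : ℝ) - ε / 2) * N := Nat.floor_le hq
    have h3 : ((⌊((s : ℝ) - ε / 2) * N⌋₊ : ℕ) : ℝ) ≤ ((P \ E).card : ℝ) := by
      rw [hPE']
      nlinarith
    exact_mod_cast h3
  obtain ⟨S, hSPE, hSc⟩ := Finset.exists_subset_card_eq hfl
  have hSP : S ⊆ P := hSPE.trans Finset.sdiff_subset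
  have hSc1 : (S.card : ℝ) ≤ ((s : ℝ) - ε / 2) * N := by
    rw [hSc]
    exact Nat.floor_le hq
  have hSc2 : ((s : ℝ) - ε / 2) * N < (S.card : ℝ) + 1 := by
    rw [hSc]
    exact Nat.lt_floor_add_one _
  refine ⟨S, ?_, hSc1, ?_, ?_, ?_⟩
  · refine ⟨hSP.trans hR.sub, ?_, ?_, ?_, ?_, ?_⟩
    · exact fun x => (Finset.card_le_card (Finset.filter_subset_filter _ hSP)).trans (hR.col x)
    · exact fun x => (Finset.card_le_card (Finset.filter_subset_filter _ hSP)).trans (hR.row x)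
    · exact fun v a b c d l => (Finset.card_le_card (Finset.filter_subset_filter _ hSP)).trans
        (hR.sml v a b c d l)
    · intro v a b l
      rcases le_or_gt (hgt v) D with h | h
      · exact (Finset.card_le_card (Finset.filter_subset_filter _ hSP)).trans (hR.lrg v a b h l)
      · exact (Finset.card_le_card (Finset.filter_subset_filter _ hSPE)).trans (hE v a h l)
    · nlinarith
  · intro r c hr0 hr1 hc0 hc1
    have hfree := hR.free r c hr0 hr1 hc0 hc1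
    set F : Finset (ℤ × ℤ) := P.filter fun p =>
      ∀ v, Skew v → hgt v ≤ D → dg0 P v (r, p.2) + 1 ≤ s ∧ dg0 P v (p.1, c) + 1 ≤ s with hF
    have hfree' : 4 * β * N ≤ (F.card : ℝ) := by
      rw [hF]
      convert hfree
    set U₁ : Finset (ℤ × ℤ) := (Zl N (false, r)).filter fun z => ∃ v ∈ SDir N, D < hgt v ∧ 3 ≤ dg0 P v z
      with hU₁
    set U₂ : Finset (ℤ × ℤ) := (Zl N (true, c)).filter fun z => ∃ v ∈ SDir N, D < hgt v ∧ 3 ≤ dg0 P v z
      with hU₂
    have hu1 : (U₁.card : ℝ) ≤ η / 4 * N := by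
      have hκ : ((false, r) : Bool × ℤ) ∈ BL N := by
        unfold BL
        rw [mem_product, mem_Ico]
        exact ⟨mem_univ _, hr0, hr1⟩
      convert g2n_U hR hκ
    have hu2 : (U₂.card : ℝ) ≤ η / 4 * N := by
      have hκ : ((true, c) : Bool × ℤ) ∈ BL N := by
        unfold BL
        rw [mem_product, mem_Ico]
        exact ⟨mem_univ _, hc0, hc1⟩
      convert g2n_U hR hκ
    have hw1 : (P.filter fun p => (r, p.2) ∈ U₁).card ≤ s * U₁.card := by
      refine g2n_fib (fun p => (r, p.2)) fun z _ => ?_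
      refine (Finset.card_le_card ?_).trans (hR.row z.2)
      intro p hp
      rw [mem_filter] at hp ⊢
      exact ⟨hp.1, by rw [← hp.2]⟩
    have hw2 : (P.filter fun p => (p.1, c) ∈ U₂).card ≤ s * U₂.card := by
      refine g2n_fib (fun p => (p.1, c)) fun z _ => ?_
      refine (Finset.card_le_card ?_).trans (hR.col z.1)
      intro p hp
      rw [mem_filter] at hp ⊢
      exact ⟨hp.1, by rw [← hp.2]⟩
    have hsub : F ⊆ (S.filter fun p => Safe s S (r, p.2) ∧ Safe s S (p.1, c)) ∪ ((P \ S) ∪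
        ((P.filter fun p => (r, p.2) ∈ U₁) ∪ (P.filter fun p => (p.1, c) ∈ U₂))) := by
      intro p hp
      rw [hF, mem_filter] at hp
      obtain ⟨hpP, hpf⟩ := hp
      have hpg := hR.sub hpP
      unfold grid at hpg
      rw [mem_product, mem_Ico, mem_Ico] at hpg
      by_cases hpS : p ∈ S
      · by_cases ha : (r, p.2) ∈ U₁
        · simp only [mem_union, mem_filter]
          right; right; left
          exact ⟨hpP, ha⟩
        · by_cases hb : (p.1, c) ∈ U₂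
          · simp only [mem_union, mem_filter]
            right; right; right
            exact ⟨hpP, hb⟩
          · rw [mem_union]
            left
            rw [mem_filter]
            have hg1 : ((r, p.2) : ℤ × ℤ) ∈ grid N := by
              unfold grid
              rw [mem_product, mem_Ico, mem_Ico]
              exact ⟨⟨hr0, hr1⟩, hpg.2⟩
            have hg2 : ((p.1, c) : ℤ × ℤ) ∈ grid N := by
              unfold grid
              rw [mem_product, mem_Ico, mem_Ico]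
              exact ⟨hpg.1, hc0, hc1⟩
            refine ⟨hpS, ?_, ?_⟩
            · refine g2n_safe hs hSP hR.sub hg1 (fun v hv hv2 => (hpf v hv hv2).1) ?_
              intro hex
              apply ha
              rw [hU₁, mem_filter]
              refine ⟨?_, hex⟩
              unfold Zl
              rw [mem_filter]
              exact ⟨hg1, by simp⟩
            · refine g2n_safe hs hSP hR.sub hg2 (fun v hv hv2 => (hpf v hv hv2).2) ?_
              intro hex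
              apply hb
              rw [hU₂, mem_filter]
              refine ⟨?_, hex⟩
              unfold Zl
              rw [mem_filter]
              exact ⟨hg2, by simp⟩
      · rw [mem_union, mem_union]
        right; left
        exact mem_sdiff.2 ⟨hpP, hpS⟩
    have hcc := (Finset.card_le_card hsub).trans ((Finset.card_union_le _ _).trans
      (Nat.add_le_add_left ((Finset.card_union_le _ _).trans
        (Nat.add_le_add_left (Finset.card_union_le _ _) _)) _))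
    have hPS : ((P \ S).card : ℝ) = P.card - S.card := by
      rw [Finset.card_sdiff_of_subset hSP, Nat.cast_sub (Finset.card_le_card hSP)]
    have hcc' : (F.card : ℝ) ≤ ((S.filter fun p => Safe s S (r, p.2) ∧ Safe s S (p.1, c)).card : ℝ) +
        (((P \ S).card : ℝ) + (((P.filter fun p => (r, p.2) ∈ U₁).card : ℝ) +
          ((P.filter fun p => (p.1, c) ∈ U₂).card : ℝ))) := by exact_mod_cast hcc
    have hw1' : ((P.filter fun p => (r, p.2) ∈ U₁).card : ℝ) ≤ s * (η / 4 * N) := by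
      have : ((P.filter fun p => (r, p.2) ∈ U₁).card : ℝ) ≤ s * U₁.card := by exact_mod_cast hw1
      exact this.trans (mul_le_mul_of_nonneg_left hu1 (by positivity))
    have hw2' : ((P.filter fun p => (p.1, c) ∈ U₂).card : ℝ) ≤ s * (η / 4 * N) := by
      have : ((P.filter fun p => (p.1, c) ∈ U₂).card : ℝ) ≤ s * U₂.card := by exact_mod_cast hw2
      exact this.trans (mul_le_mul_of_nonneg_left hu2 (by positivity))
    have hsη : s * (η / 4 * N) ≤ β / 4 * N := by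
      calc s * (η / 4 * N) = (s * η) * (N / 4) := by ring
        _ ≤ β * (N / 4) := mul_le_mul_of_nonneg_right hηβ (by positivity)
        _ = β / 4 * N := by ring
    have hβN : ε * N ≤ β * N := mul_le_mul_of_nonneg_right hεβ (by positivity)
    have hfin : β * N ≤ ((S.filter fun p => Safe s S (r, p.2) ∧ Safe s S (p.1, c)).card : ℝ) := by
      nlinarith
    convert hfin
  · intro κ h0 h1
    exact g2n_dsum hs hε hη hH0 hN1 hH2 hη2 (hK H hHK) hR hSP κ h0 h1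
  · intro z hz
    exact (Nat.pow_le_pow_left (g2n_deg2 hSP z) 10).trans (hR.deg z hz)

theorem near2_exists (s : ℕ) (hs : 3 ≤ s)
    (hR : ∃ β : ℝ, 0 < β ∧ ∀ η : ℝ, 0 < η → ∃ ε₁ : ℝ, 0 < ε₁ ∧
      ∀ ε : ℝ, 0 < ε → ε ≤ ε₁ → ∃ D : ℕ, s ≤ D ∧ ∃ N₀ : ℕ, ∀ N ≥ N₀, ∀ H : ℕ, H ^ 5 ≤ N →
        N < (H + 1) ^ 5 → ∃ P, Raw s D H N ε β η P) :
    ∃ β : ℝ, 0 < β ∧ ∀ η : ℝ, 0 < η → ∃ ε₁ : ℝ, 0 < ε₁ ∧ ∀ ε : ℝ, 0 < ε → ε ≤ ε₁ →
      ∃ N₀ : ℕ, ∀ N ≥ N₀, ∃ S, Near2 s N ε β η S := by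
  obtain ⟨β, hβ, hR⟩ := hR
  refine ⟨β, hβ, fun η hη => ?_⟩
  have hs0 : (0 : ℝ) < s := by
    have : 0 < s := by omega
    exact_mod_cast this
  have hη' : 0 < min η (β / s) := lt_min hη (by positivity)
  obtain ⟨ε₁, hε₁, hR⟩ := hR (min η (β / s)) hη'
  refine ⟨min ε₁ (min β 1), lt_min hε₁ (lt_min hβ one_pos), fun ε hε hεε => ?_⟩
  obtain ⟨D, hsD, N₀, hR⟩ := hR ε hε (hεε.trans (min_le_left _ _))
  have hεβ : ε ≤ β := (hεε.trans (min_le_right _ _)).trans (min_le_left _ _)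
  have hε1 : ε ≤ 1 := (hεε.trans (min_le_right _ _)).trans (min_le_right _ _)
  have hηβ : s * min η (β / s) ≤ β := by
    calc s * min η (β / s) ≤ s * (β / s) := mul_le_mul_of_nonneg_left (min_le_right _ _) hs0.le
      _ = β := by field_simp
  obtain ⟨N₁, hN₁⟩ := near2_of_raw hs hsD hε hε1 hεβ hη' hηβ
  refine ⟨max N₀ N₁, fun N hN => ?_⟩
  obtain ⟨H, hH1, hH2⟩ : ∃ H : ℕ, H ^ 5 ≤ N ∧ N < (H + 1) ^ 5 := by
    refine ⟨Nat.findGreatest (fun H => H ^ 5 ≤ N) N, ?_, ?_⟩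
    · exact Nat.findGreatest_spec (P := fun H => H ^ 5 ≤ N) (Nat.zero_le N) (by simp)
    · by_contra h
      push Not at h
      have h1 : Nat.findGreatest (fun H => H ^ 5 ≤ N) N + 1 ≤ N := by
        calc Nat.findGreatest (fun H => H ^ 5 ≤ N) N + 1 ≤
              (Nat.findGreatest (fun H => H ^ 5 ≤ N) N + 1) ^ 5 := Nat.le_self_pow (by norm_num) _
          _ ≤ N := h
      have h2 := Nat.le_findGreatest (P := fun H => H ^ 5 ≤ N) h1 h
      omega
  obtain ⟨P, hP⟩ := hR N ((le_max_left _ _).trans hN) H hH1 hH2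
  obtain ⟨S, hS⟩ := hN₁ N ((le_max_right _ _).trans hN) H hH1 hH2 P hP
  refine ⟨S, hS.near, hS.card', hS.avail, fun κ h0 h1 => (hS.dsum κ h0 h1).trans ?_, hS.deg⟩
  exact mul_le_mul_of_nonneg_right (min_le_left _ _) (by positivity)

end Pool.Agent.NKL
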