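import Pool.Agent.NKL.G2J
import Pool.Agent.NKL.G2E
import Pool.Agent.NKL.GD6

set_option autoImplicit false

/-!
# NKL / G2S : evaluation of the weighted estimator

`k = u/N`, `u = t W > 0`.
`est_total`: the three parts of `eC` (the sum over a union is at most the sum of the sums, over a
`biUnion` likewise, all terms are nonnegative):
type 0: `|quads| (u/N)^4 ≤ 8 (4n)^5/D u^4/N^4 ≤ 8 N u^4/D` (`quads_card`, `quads_card4`);
type 1: for each `z` (`N²` of them) `jf_sum` with `c = 2`, `J = 40`: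
`(|prs| (u/N)²)^40 ≤ (32 u² (1 + log N))^40` (`prs_card`), times the weight: total at most `1`;
type 2: for each of the `2N` base lines `(|trs| (u/N)³)^40 ≤ (64 u³ N/H)^40`: total at most `1`.
`est_quads`, `est_prs`, `est_trs`: the sum over `{x ∈ eC | eA x ⊆ S}` is at most `B`; it contains the
terms of the given type (and, for the types 1, 2, of the given `z`, `κ`; `x ↦ (x, type)` is injective);
then `jf_lower` with `J = 40`.
-/

namespace Pool.Agent.NKL

open Finset

variable {n D H N : ℕ} {u B : ℝ}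

private theorem logN_nonneg {N : ℕ} (hN : 1 ≤ N) : 0 < 1 + Real.log (N : ℝ) := by
  have h1 : (1 : ℝ) ≤ N := by exact_mod_cast hN
  have h2 := Real.log_nonneg h1
  linarith

theorem eW_nonneg (n H N : ℕ) (hN : 1 ≤ N) (hu : 0 ≤ u) (x : Finset (Finset (Cell n)) × ℕ) :
    0 ≤ eW n H N u x := by
  have h1 := (logN_nonneg hN).le
  unfold eW
  split_ifs
  · exact zero_le_one
  · positivity
  · positivity

private theorem g2s_sum_union_le {ι : Type} [DecidableEq ι] (f : ι → ℝ) (hf : ∀ x, 0 ≤ f x)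
    (s t : Finset ι) : ∑ x ∈ s ∪ t, f x ≤ ∑ x ∈ s, f x + ∑ x ∈ t, f x := by
  have h := Finset.sum_union_inter (s₁ := s) (s₂ := t) (f := f)
  have h2 : 0 ≤ ∑ x ∈ s ∩ t, f x := Finset.sum_nonneg fun x _ => hf x
  linarith

private theorem g2s_sum_biUnion_le {ι κ : Type} [DecidableEq ι] [DecidableEq κ] (f : ι → ℝ)
    (hf : ∀ x, 0 ≤ f x) (s : Finset κ) (t : κ → Finset ι) :
    ∑ x ∈ s.biUnion t, f x ≤ ∑ i ∈ s, ∑ x ∈ t i, f x := by
  induction s using Finset.induction_on with
  | empty => simp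
  | insert a s ha ih =>
    rw [Finset.biUnion_insert, Finset.sum_insert ha]
    exact (g2s_sum_union_le f hf _ _).trans (by linarith)

private theorem g2s_pair_inj {α : Type} (j : ℕ) :
    Function.Injective fun P : Finset (Finset α) => ((P, j) : Finset (Finset α) × ℕ) := by
  intro P Q h
  exact (Prod.ext_iff.1 h).1

private theorem g2s_sing_inj {α : Type} (j : ℕ) :
    Function.Injective fun A : Finset α => (({A}, j) : Finset (Finset α) × ℕ) := by
  intro P Q h
  exact Finset.singleton_injective (Prod.ext_iff.1 h).1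

private theorem g2s_prs_two {n : ℕ} {z : ℤ × ℤ} : ∀ A ∈ prs n z, A.card = 2 := by
  classical
  intro A hA
  unfold prs at hA
  exact (Finset.mem_powersetCard.1 (Finset.mem_filter.1 hA).1).2

private theorem g2s_trs_three {n H N : ℕ} {κ : Bool × ℤ} : ∀ A ∈ trs n H N κ, A.card = 3 := by
  classical
  intro A hA
  unfold trs at hA
  exact (Finset.mem_powersetCard.1 (Finset.mem_filter.1 hA).1).2

private theorem g2s_grid_card (N : ℕ) : (grid N).card = N ^ 2 := by
  unfold grid
  rw [Finset.card_product]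
  simp [sq]

private theorem g2s_bl_card (N : ℕ) : (BL N).card = 2 * N := by
  unfold BL
  rw [Finset.card_product]
  simp

theorem est_total (hn : 1 ≤ n) (h : 4 * n ≤ N) (hD : 1 ≤ D) (hH : 1 ≤ H) (hu : 0 < u) :
    ∑ x ∈ eC n D H N, eW n H N u x * (u / N) ^ (eA n x).card ≤ 8 * N * u ^ 4 / D + 2 := by
  classical
  have hN : 1 ≤ N := by omega
  have hNr : (0 : ℝ) < N := by exact_mod_cast hN
  have hDr : (0 : ℝ) < D := by exact_mod_cast hD
  have hHr : (0 : ℝ) < H := by exact_mod_cast hH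
  have hlog := logN_nonneg hN
  have hf : ∀ x : Finset (Finset (Cell n)) × ℕ, 0 ≤ eW n H N u x * (u / N) ^ (eA n x).card :=
    fun x => mul_nonneg (eW_nonneg n H N hN hu.le x) (by positivity)
  have e0 : ∑ x ∈ (quads n D).image (fun A => (({A}, 0) : Finset (Finset (Cell n)) × ℕ)),
      eW n H N u x * (u / N) ^ (eA n x).card ≤ 8 * N * u ^ 4 / D := by
    rw [Finset.sum_image fun a _ b _ hab => g2s_sing_inj 0 hab]
    have h1 : ∀ A ∈ quads n D, eW n H N u ({A}, 0) * (u / N) ^ (eA n ({A}, 0)).card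
        = (u / N) ^ 4 := by
      intro A hA
      have h2 : eA n ({A}, 0) = A := by
        unfold eA
        rw [Finset.singleton_biUnion]
        rfl
      rw [h2, quads_card4 hA]
      unfold eW
      rw [if_pos rfl, one_mul]
    rw [Finset.sum_congr rfl h1, Finset.sum_const, nsmul_eq_mul]
    have h3 := quads_card hn hD
    have h4 : (4 * (n : ℝ)) ≤ N := by exact_mod_cast h
    have h5 : (4 * (n : ℝ)) ^ 5 ≤ (N : ℝ) ^ 5 := pow_le_pow_left₀ (by positivity) h4 5
    calc ((quads n D).card : ℝ) * (u / N) ^ 4 ≤ (8 * (4 * n) ^ 5 / D) * (u / N) ^ 4 :=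
          mul_le_mul_of_nonneg_right h3 (by positivity)
      _ ≤ (8 * N ^ 5 / D) * (u / N) ^ 4 := by
          refine mul_le_mul_of_nonneg_right ?_ (by positivity)
          exact div_le_div_of_nonneg_right (by linarith) hDr.le
      _ = 8 * N * u ^ 4 / D := by
          field_simp
  have e1 : ∑ x ∈ (grid N).biUnion (fun z => (JF 40 (prs n z)).image
      fun P => ((P, 1) : Finset (Finset (Cell n)) × ℕ)),
      eW n H N u x * (u / N) ^ (eA n x).card ≤ 1 := by
    have hX : (0 : ℝ) < (N : ℝ) ^ 2 * (32 * u ^ 2 * (1 + Real.log N)) ^ 40 := by positivity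
    refine (g2s_sum_biUnion_le _ hf _ _).trans ?_
    have h1 : ∀ z ∈ grid N, ∑ x ∈ (JF 40 (prs n z)).image
        (fun P => ((P, 1) : Finset (Finset (Cell n)) × ℕ)),
        eW n H N u x * (u / N) ^ (eA n x).card ≤
        ((N : ℝ) ^ 2 * (32 * u ^ 2 * (1 + Real.log N)) ^ 40)⁻¹ *
          (32 * u ^ 2 * (1 + Real.log N)) ^ 40 := by
      intro z hz
      rw [Finset.sum_image fun a _ b _ hab => g2s_pair_inj 1 hab]
      have h2 : ∀ P ∈ JF 40 (prs n z), eW n H N u (P, 1) * (u / N) ^ (eA n (P, 1)).card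
          = ((N : ℝ) ^ 2 * (32 * u ^ 2 * (1 + Real.log N)) ^ 40)⁻¹ *
            (u / N) ^ (P.biUnion id).card := by
        intro P _
        unfold eW eA
        rw [if_neg (by norm_num), if_pos rfl]
      rw [Finset.sum_congr rfl h2, ← Finset.mul_sum]
      refine mul_le_mul_of_nonneg_left ?_ (inv_nonneg.2 hX.le)
      refine (jf_sum g2s_prs_two (by positivity)).trans ?_
      refine pow_le_pow_left₀ (by positivity) ?_ 40
      have h3 := prs_card hn h hz
      calc ((prs n z).card : ℝ) * (u / N) ^ 2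
          ≤ (32 * N ^ 2 * (1 + Real.log N)) * (u / N) ^ 2 :=
            mul_le_mul_of_nonneg_right h3 (by positivity)
        _ = 32 * u ^ 2 * (1 + Real.log N) := by
            field_simp
    refine (Finset.sum_le_sum h1).trans ?_
    rw [Finset.sum_const, nsmul_eq_mul, g2s_grid_card]
    push_cast
    have h4 : (0 : ℝ) < (32 * u ^ 2 * (1 + Real.log N)) ^ 40 := by positivity
    have h5 : (0 : ℝ) < (N : ℝ) ^ 2 := by positivity
    rw [mul_inv, ← mul_assoc, ← mul_assoc, mul_inv_cancel₀ h5.ne', one_mul,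
      inv_mul_cancel₀ h4.ne']
  have e2 : ∑ x ∈ (BL N).biUnion (fun κ => (JF 40 (trs n H N κ)).image
      fun P => ((P, 2) : Finset (Finset (Cell n)) × ℕ)),
      eW n H N u x * (u / N) ^ (eA n x).card ≤ 1 := by
    have hX : (0 : ℝ) < 2 * N * (64 * u ^ 3 * N / H) ^ 40 := by positivity
    refine (g2s_sum_biUnion_le _ hf _ _).trans ?_
    have h1 : ∀ κ ∈ BL N, ∑ x ∈ (JF 40 (trs n H N κ)).image
        (fun P => ((P, 2) : Finset (Finset (Cell n)) × ℕ)),
        eW n H N u x * (u / N) ^ (eA n x).card ≤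
        (2 * (N : ℝ) * (64 * u ^ 3 * N / H) ^ 40)⁻¹ * (64 * u ^ 3 * N / H) ^ 40 := by
      intro κ _
      rw [Finset.sum_image fun a _ b _ hab => g2s_pair_inj 2 hab]
      have h2 : ∀ P ∈ JF 40 (trs n H N κ), eW n H N u (P, 2) * (u / N) ^ (eA n (P, 2)).card
          = (2 * (N : ℝ) * (64 * u ^ 3 * N / H) ^ 40)⁻¹ * (u / N) ^ (P.biUnion id).card := by
        intro P _
        unfold eW eA
        rw [if_neg (by norm_num), if_neg (by norm_num)]
      rw [Finset.sum_congr rfl h2, ← Finset.mul_sum]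
      refine mul_le_mul_of_nonneg_left ?_ (inv_nonneg.2 hX.le)
      refine (jf_sum g2s_trs_three (by positivity)).trans ?_
      refine pow_le_pow_left₀ (by positivity) ?_ 40
      have h3 := trs_card hn h hH κ
      calc ((trs n H N κ).card : ℝ) * (u / N) ^ 3
          ≤ (64 * N ^ 4 / H) * (u / N) ^ 3 :=
            mul_le_mul_of_nonneg_right h3 (by positivity)
        _ = 64 * u ^ 3 * N / H := by
            field_simp
    refine (Finset.sum_le_sum h1).trans ?_
    rw [Finset.sum_const, nsmul_eq_mul, g2s_bl_card]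
    push_cast
    have h4 : (0 : ℝ) < (64 * u ^ 3 * N / H) ^ 40 := by positivity
    have h5 : (0 : ℝ) < 2 * (N : ℝ) := by positivity
    rw [mul_inv, ← mul_assoc, ← mul_assoc, mul_inv_cancel₀ h5.ne', one_mul,
      inv_mul_cancel₀ h4.ne']
  unfold eC
  refine (g2s_sum_union_le _ hf _ _).trans ?_
  have e3 := g2s_sum_union_le (fun x => eW n H N u x * (u / N) ^ (eA n x).card) hf
    ((quads n D).image fun A => (({A}, 0) : Finset (Finset (Cell n)) × ℕ))
    ((grid N).biUnion fun z => (JF 40 (prs n z)).image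
      fun P => ((P, 1) : Finset (Finset (Cell n)) × ℕ))
  linarith

private theorem g2s_lower {J : ℕ} (j : ℕ) (hN : 1 ≤ N) (hu : 0 < u) {S : Finset (Cell n)}
    (hB : ∑ x ∈ (eC n D H N).filter (fun x => eA n x ⊆ S), eW n H N u x ≤ B)
    {E P₀ : Finset (Finset (Cell n))} (h₀ : P₀ ⊆ E)
    (hd : ∀ A ∈ P₀, ∀ B ∈ P₀, A ≠ B → Disjoint A B) (hS : ∀ A ∈ P₀, A ⊆ S)
    (hJ : J ≤ P₀.card) (hsub : ∀ P ∈ JF J E, (P, j) ∈ eC n D H N) {X : ℝ} (hX : 0 < X)
    (hw : ∀ P : Finset (Finset (Cell n)), eW n H N u (P, j) = X⁻¹) :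
    (P₀.card : ℝ) ^ J ≤ J ^ J * B * X := by
  classical
  have h1 := jf_lower h₀ hd hS hJ
  have h2 : (((JF J E).filter fun P => P.biUnion id ⊆ S).card : ℝ) * X⁻¹ ≤ B := by
    refine le_trans ?_ hB
    calc (((JF J E).filter fun P => P.biUnion id ⊆ S).card : ℝ) * X⁻¹
        = ∑ x ∈ ((JF J E).filter fun P => P.biUnion id ⊆ S).image
            (fun P => ((P, j) : Finset (Finset (Cell n)) × ℕ)), eW n H N u x := by
          rw [Finset.sum_image fun a _ b _ hab => g2s_pair_inj j hab,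
            Finset.sum_congr rfl fun P _ => hw P, Finset.sum_const, nsmul_eq_mul]
      _ ≤ ∑ x ∈ (eC n D H N).filter (fun x => eA n x ⊆ S), eW n H N u x := by
          refine Finset.sum_le_sum_of_subset_of_nonneg ?_
            fun x _ _ => eW_nonneg n H N hN hu.le x
          intro x hx
          obtain ⟨P, hP, rfl⟩ := Finset.mem_image.1 hx
          obtain ⟨hP1, hP2⟩ := Finset.mem_filter.1 hP
          exact Finset.mem_filter.2 ⟨hsub P hP1, hP2⟩
  have h3 : (((JF J E).filter fun P => P.biUnion id ⊆ S).card : ℝ) ≤ B * X := by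
    rw [← div_eq_mul_inv, div_le_iff₀ hX] at h2
    exact h2
  have h4 : (P₀.card : ℝ) ^ J ≤
      (J : ℝ) ^ J * (((JF J E).filter fun P => P.biUnion id ⊆ S).card : ℝ) := by
    exact_mod_cast h1
  calc (P₀.card : ℝ) ^ J ≤
      (J : ℝ) ^ J * (((JF J E).filter fun P => P.biUnion id ⊆ S).card : ℝ) := h4
    _ ≤ (J : ℝ) ^ J * (B * X) := mul_le_mul_of_nonneg_left h3 (by positivity)
    _ = J ^ J * B * X := by ring

theorem est_quads (hN : 1 ≤ N) (hu : 0 < u) {S : Finset (Cell n)}
    (hB : ∑ x ∈ (eC n D H N).filter (fun x => eA n x ⊆ S), eW n H N u x ≤ B) :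
    (((quads n D).filter fun A => A ⊆ S).card : ℝ) ≤ B := by
  classical
  refine le_trans ?_ hB
  calc (((quads n D).filter fun A => A ⊆ S).card : ℝ)
      = ∑ x ∈ ((quads n D).filter fun A => A ⊆ S).image
          (fun A => (({A}, 0) : Finset (Finset (Cell n)) × ℕ)), eW n H N u x := by
        rw [Finset.sum_image fun a _ b _ hab => g2s_sing_inj 0 hab]
        have h1 : ∀ A ∈ (quads n D).filter (fun A => A ⊆ S), eW n H N u ({A}, 0) = 1 := by
          intro A _
          unfold eW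
          rw [if_pos rfl]
        rw [Finset.sum_congr rfl h1, Finset.sum_const, nsmul_eq_mul, mul_one]
    _ ≤ ∑ x ∈ (eC n D H N).filter (fun x => eA n x ⊆ S), eW n H N u x := by
        refine Finset.sum_le_sum_of_subset_of_nonneg ?_
          fun x _ _ => eW_nonneg n H N hN hu.le x
        intro x hx
        obtain ⟨A, hA, rfl⟩ := Finset.mem_image.1 hx
        obtain ⟨hA1, hA2⟩ := Finset.mem_filter.1 hA
        refine Finset.mem_filter.2 ⟨?_, ?_⟩
        · unfold eC
          exact Finset.mem_union_left _ (Finset.mem_union_left _ (Finset.mem_image_of_mem _ hA1))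
        · unfold eA
          rw [Finset.singleton_biUnion]
          exact hA2

theorem est_prs (hN : 1 ≤ N) (hu : 0 < u) {S : Finset (Cell n)}
    (hB : ∑ x ∈ (eC n D H N).filter (fun x => eA n x ⊆ S), eW n H N u x ≤ B)
    {z : ℤ × ℤ} (hz : z ∈ grid N) {P₀ : Finset (Finset (Cell n))} (h₀ : P₀ ⊆ prs n z)
    (hd : ∀ A ∈ P₀, ∀ B ∈ P₀, A ≠ B → Disjoint A B) (hS : ∀ A ∈ P₀, A ⊆ S)
    (hJ : 40 ≤ P₀.card) :
    (P₀.card : ℝ) ^ 40 ≤ 40 ^ 40 * B * (N ^ 2 * (32 * u ^ 2 * (1 + Real.log N)) ^ 40) := by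
  have hNr : (0 : ℝ) < N := by exact_mod_cast hN
  have hlog := logN_nonneg hN
  have h := g2s_lower (J := 40) 1 hN hu hB h₀ hd hS hJ (by
    intro P hP
    unfold eC
    refine Finset.mem_union_left _ (Finset.mem_union_right _ ?_)
    exact Finset.mem_biUnion.2 ⟨z, hz, Finset.mem_image_of_mem _ hP⟩)
    (X := (N : ℝ) ^ 2 * (32 * u ^ 2 * (1 + Real.log N)) ^ 40) (by positivity) (by
    intro P
    unfold eW
    rw [if_neg (by norm_num), if_pos rfl])
  exact_mod_cast h

theorem est_trs (hN : 1 ≤ N) (hH : 1 ≤ H) (hu : 0 < u) {S : Finset (Cell n)}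
    (hB : ∑ x ∈ (eC n D H N).filter (fun x => eA n x ⊆ S), eW n H N u x ≤ B)
    {κ : Bool × ℤ} (hκ : κ ∈ BL N) {P₀ : Finset (Finset (Cell n))} (h₀ : P₀ ⊆ trs n H N κ)
    (hd : ∀ A ∈ P₀, ∀ B ∈ P₀, A ≠ B → Disjoint A B) (hS : ∀ A ∈ P₀, A ⊆ S)
    (hJ : 40 ≤ P₀.card) :
    (P₀.card : ℝ) ^ 40 ≤ 40 ^ 40 * B * (2 * N * (64 * u ^ 3 * N / H) ^ 40) := by
  have hNr : (0 : ℝ) < N := by exact_mod_cast hN
  have hHr : (0 : ℝ) < H := by exact_mod_cast hH
  have h := g2s_lower (J := 40) 2 hN hu hB h₀ hd hS hJ (by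
    intro P hP
    unfold eC
    refine Finset.mem_union_right _ ?_
    exact Finset.mem_biUnion.2 ⟨κ, hκ, Finset.mem_image_of_mem _ hP⟩)
    (X := 2 * (N : ℝ) * (64 * u ^ 3 * N / H) ^ 40) (by positivity) (by
    intro P
    unfold eW
    rw [if_neg (by norm_num), if_neg (by norm_num)])
  exact_mod_cast h

end Pool.Agent.NKL
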