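import Pool.Agent.NKL.G2D

set_option autoImplicit false

/-!
# NKL / G2T : few cells of a base line are on lines of large height with three points

Fix `κ`, let `U` be the set on the right, `P = S.image pt`, `d` = largest `deg2 N P z`, `d^10 ≤ N`.
Let `P₀` be a maximal set of pairwise disjoint members of `trs n H N κ` which are subsets of `S`,
`m = |P₀|`.  Let `z ∈ U` with the direction `v`, and `A ⊆ S` a triple on this line (`dg0_image`), so
`A ∈ trs`.  By maximality `A` has a common cell `q` with some member of `P₀` (or `A ∈ P₀`).  The line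
has at least two points of `P` besides `pt q`, so `v` is one of the at most `d` directions counted in
`deg2 N P (pt q)`; `q` and `v` determine `z` (a skew line meets a row or column in one point).
Hence `|U| ≤ 3 m d`.  If `m < 40`: `|U| ≤ 120 d ≤ η N`.  Otherwise
`m^40 ≤ 40^40 N 2N (64 u³ N/H)^40`, `N < (H+1)^5 ≤ (2H)^5 = 32 H^5` (`H ≥ 1` for `N ≥ 1`), so
`(N/H)^40 = N^40/(H^5)^8 ≤ 32^8 N^32`, `m^40 ≤ C N^34`, `(3 m d)^40 ≤ 3^40 C N^34 N^4 ≤ (η N)^40` for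
large `N`.
-/

namespace Pool.Agent.NKL

open Finset

private theorem pt_grid {n N : ℕ} (h : 4 * n ≤ N) (q : Cell n) : pt q ∈ grid N := by
  have h1 := q.1.2
  have h2 := q.2.2
  unfold grid pt
  rw [Finset.mem_product, Finset.mem_Ico, Finset.mem_Ico]
  dsimp only
  omega

private theorem mem_dQ {n : ℕ} {z v : ℤ × ℤ} {q : Cell n} : q ∈ dQ n (z, v) ↔ pt q ≠ z ∧ On v (pt q) = On v z := by
  unfold dQ
  rw [Finset.mem_filter]
  exact ⟨fun h => h.2, fun h => ⟨Finset.mem_univ _, h⟩⟩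

/-- a skew line and a base line have at most one common point -/
private theorem zl_unique {N : ℕ} {κ : Bool × ℤ} {v y z : ℤ × ℤ} (h1 : v.1 ≠ 0) (h2 : v.2 ≠ 0) (hy : y ∈ Zl N κ)
    (hz : z ∈ Zl N κ) (h : On v y = On v z) : y = z := by
  unfold Zl at hy hz
  have hy' := (Finset.mem_filter.1 hy).2
  have hz' := (Finset.mem_filter.1 hz).2
  unfold On at h
  cases hk : κ.1
  · rw [hk] at hy' hz'
    simp only [Bool.false_eq_true, if_false] at hy' hz'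
    have e1 : y.1 = z.1 := by rw [hy', hz']
    rw [e1] at h
    have e2 : v.1 * y.2 = v.1 * z.2 := by linarith
    exact Prod.ext e1 (mul_left_cancel₀ h1 e2)
  · rw [hk] at hy' hz'
    simp only [if_true] at hy' hz'
    have e1 : y.2 = z.2 := by rw [hy', hz']
    rw [e1] at h
    have e2 : v.2 * y.1 = v.2 * z.1 := by linarith
    exact Prod.ext (mul_left_cancel₀ h2 e2) e1

open Classical in
private theorem tri_comb {n H N : ℕ} (hn : 1 ≤ n) (h4 : 4 * n ≤ N) (S : Finset (Cell n)) (κ : Bool × ℤ) :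
    ∃ P₀ ⊆ trs n H N κ, (∀ A ∈ P₀, ∀ B ∈ P₀, A ≠ B → Disjoint A B) ∧ (∀ A ∈ P₀, A ⊆ S) ∧
      ∀ d : ℝ, (∀ z ∈ grid N, (deg2 N (S.image pt) z : ℝ) ≤ d) →
      (((Zl N κ).filter fun z => ∃ v ∈ SDir N, H < hgt v ∧ 3 ≤ dg0 (S.image pt) v z).card : ℝ) ≤
        3 * P₀.card * d := by
  obtain ⟨P₀, hP₀, hmax⟩ := Finset.exists_max_image (((trs n H N κ).powerset).filter
    (fun P => (∀ A ∈ P, ∀ B ∈ P, A ≠ B → Disjoint A B) ∧ ∀ A ∈ P, A ⊆ S)) Finset.card ⟨∅, by simp⟩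
  obtain ⟨hP1, hP2, hP3⟩ := Finset.mem_filter.1 hP₀
  rw [Finset.mem_powerset] at hP1
  refine ⟨P₀, hP1, hP2, hP3, fun d hd => ?_⟩
  -- every triple meets a member of the family
  have hmeet : ∀ A ∈ trs n H N κ, A ⊆ S → ∃ B ∈ P₀, ∃ q ∈ A, q ∈ B := by
    intro A hA hAS
    have hA3 : A.card = 3 := by
      unfold trs at hA
      exact (Finset.mem_powersetCard.1 (Finset.mem_filter.1 hA).1).2
    have hAne : A.Nonempty := Finset.card_pos.1 (by omega)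
    by_contra hc
    push Not at hc
    have hnot : A ∉ P₀ := by
      intro hAP
      obtain ⟨q, hq⟩ := hAne
      exact hc A hAP q hq hq
    have hdisj : ∀ B ∈ P₀, Disjoint A B := fun B hB => Finset.disjoint_left.2 fun q hq => hc B hB q hq
    have hins : insert A P₀ ∈ ((trs n H N κ).powerset).filter
        (fun P => (∀ A ∈ P, ∀ B ∈ P, A ≠ B → Disjoint A B) ∧ ∀ A ∈ P, A ⊆ S) := by
      rw [Finset.mem_filter, Finset.mem_powerset]
      refine ⟨Finset.insert_subset hA hP1, ?_, ?_⟩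
      · intro B hB C hC hne
        rcases Finset.mem_insert.1 hB with hB | hB <;> rcases Finset.mem_insert.1 hC with hC | hC
        · exact absurd (hB.trans hC.symm) hne
        · rw [hB]
          exact hdisj C hC
        · rw [hC]
          exact (hdisj B hB).symm
        · exact hP2 B hB C hC hne
      · intro B hB
        rcases Finset.mem_insert.1 hB with hB | hB
        · rw [hB]
          exact hAS
        · exact hP3 B hB
    have := hmax _ hins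
    rw [Finset.card_insert_of_notMem hnot] at this
    omega
  have key : ∀ z, ∃ x : (_ : Cell n) × (ℤ × ℤ), z ∈ (Zl N κ).filter (fun z => ∃ v ∈ SDir N, H < hgt v ∧
      3 ≤ dg0 (S.image pt) v z) → x.1 ∈ P₀.biUnion id ∧ x.2 ∈ (SDir N).filter
      (fun v => 2 ≤ dg0 (S.image pt) v (pt x.1)) ∧ On x.2 z = On x.2 (pt x.1) := by
    intro z
    by_cases hz : z ∈ (Zl N κ).filter (fun z => ∃ v ∈ SDir N, H < hgt v ∧ 3 ≤ dg0 (S.image pt) v z)
    · obtain ⟨hz1, v, hv, hvH, hv3⟩ := Finset.mem_filter.1 hz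
      rw [dg0_image] at hv3
      obtain ⟨A, hA, hA3⟩ := Finset.exists_subset_card_eq hv3
      have hAS : A ⊆ S := fun q hq => (Finset.mem_inter.1 (hA hq)).1
      have hAQ : ∀ q ∈ A, pt q ≠ z ∧ On v (pt q) = On v z := fun q hq => mem_dQ.1 (Finset.mem_inter.1 (hA hq)).2
      have hskew : Skew v := by
        unfold SDir Dir at hv
        rw [Finset.mem_filter, Finset.mem_filter] at hv
        exact ⟨hv.1.2.1, hv.2.1, hv.2.2⟩
      have hAt : A ∈ trs n H N κ := by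
        unfold trs
        rw [Finset.mem_filter, Finset.mem_powersetCard]
        exact ⟨⟨Finset.subset_univ _, hA3⟩, v, hskew, hvH, z, hz1, hAQ⟩
      obtain ⟨B, hB, q, hqA, hqB⟩ := hmeet A hAt hAS
      refine ⟨⟨q, v⟩, fun _ => ⟨Finset.mem_biUnion.2 ⟨B, hB, hqB⟩, ?_, (hAQ q hqA).2.symm⟩⟩
      rw [Finset.mem_filter]
      refine ⟨hv, ?_⟩
      rw [dg0_image]
      have hsub : A.erase q ⊆ S ∩ dQ n (pt q, v) := by
        intro q' hq'
        obtain ⟨hne, hq'A⟩ := Finset.mem_erase.1 hq'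
        rw [Finset.mem_inter, mem_dQ]
        refine ⟨hAS hq'A, fun he => hne (pt_inj he), ?_⟩
        rw [(hAQ q' hq'A).2, (hAQ q hqA).2]
      have hc := Finset.card_le_card hsub
      rw [Finset.card_erase_of_mem hqA, hA3] at hc
      exact hc
    · exact ⟨⟨(⟨0, by omega⟩, ⟨0, by omega⟩), (0, 0)⟩, fun h => absurd h hz⟩
  choose f hf using key
  have hT : ((Zl N κ).filter fun z => ∃ v ∈ SDir N, H < hgt v ∧ 3 ≤ dg0 (S.image pt) v z).card ≤
      ((P₀.biUnion id).sigma (fun q => (SDir N).filter (fun v => 2 ≤ dg0 (S.image pt) v (pt q)))).card := by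
    refine Finset.card_le_card_of_injOn f (fun z hz => ?_) (fun z hz z' hz' he => ?_)
    · obtain ⟨a1, a2, -⟩ := hf z (Finset.mem_coe.1 hz)
      exact Finset.mem_coe.2 (Finset.mem_sigma.2 ⟨a1, a2⟩)
    · have b1 := hf z (Finset.mem_coe.1 hz)
      have b2 := hf z' (Finset.mem_coe.1 hz')
      rw [← he] at b2
      have hv := (Finset.mem_filter.1 b1.2.1).1
      unfold SDir at hv
      rw [Finset.mem_filter] at hv
      exact zl_unique hv.2.1 hv.2.2 (Finset.mem_filter.1 (Finset.mem_coe.1 hz)).1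
        (Finset.mem_filter.1 (Finset.mem_coe.1 hz')).1 (b1.2.2.trans b2.2.2.symm)
  rw [Finset.card_sigma] at hT
  have hQ : (P₀.biUnion id).card ≤ 3 * P₀.card := by
    refine Finset.card_biUnion_le.trans ?_
    have : ∀ A ∈ P₀, (id A).card = 3 := by
      intro A hA
      have hA' := hP1 hA
      unfold trs at hA'
      exact (Finset.mem_powersetCard.1 (Finset.mem_filter.1 hA').1).2
    rw [Finset.sum_congr rfl this, Finset.sum_const, smul_eq_mul, mul_comm]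
  have hQ' : ((P₀.biUnion id).card : ℝ) ≤ 3 * P₀.card := by exact_mod_cast hQ
  have hd0 : 0 ≤ d := by
    have h0 : pt ((⟨0, by omega⟩, ⟨0, by omega⟩) : Cell n) ∈ grid N := pt_grid h4 _
    exact le_trans (Nat.cast_nonneg _) (hd _ h0)
  calc (((Zl N κ).filter fun z => ∃ v ∈ SDir N, H < hgt v ∧ 3 ≤ dg0 (S.image pt) v z).card : ℝ)
      ≤ ((∑ q ∈ P₀.biUnion id, ((SDir N).filter (fun v => 2 ≤ dg0 (S.image pt) v (pt q))).card : ℕ) : ℝ) := by
        exact_mod_cast hT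
    _ = ∑ q ∈ P₀.biUnion id, (deg2 N (S.image pt) (pt q) : ℝ) := by
        rw [Nat.cast_sum]
        rfl
    _ ≤ ∑ _q ∈ P₀.biUnion id, d := Finset.sum_le_sum fun q _ => hd _ (pt_grid h4 q)
    _ = (P₀.biUnion id).card * d := by rw [Finset.sum_const, nsmul_eq_mul]
    _ ≤ 3 * P₀.card * d := mul_le_mul_of_nonneg_right hQ' hd0

open Classical in
theorem tri_small (u η : ℝ) (hu : 0 < u) (hη : 0 < η) : ∃ N₀ : ℕ, ∀ N ≥ N₀, ∀ n : ℕ, 1 ≤ n →
    4 * n ≤ N → ∀ H : ℕ, H ^ 5 ≤ N → N < (H + 1) ^ 5 → ∀ S : Finset (Cell n),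
    (∀ z ∈ grid N, deg2 N (S.image pt) z ^ 10 ≤ N) →
    (∀ κ ∈ BL N, ∀ P₀ ⊆ trs n H N κ, (∀ A ∈ P₀, ∀ B ∈ P₀, A ≠ B → Disjoint A B) →
      (∀ A ∈ P₀, A ⊆ S) → 40 ≤ P₀.card →
      (P₀.card : ℝ) ^ 40 ≤ 40 ^ 40 * N * (2 * N * (64 * u ^ 3 * N / H) ^ 40)) →
    ∀ κ ∈ BL N, (((Zl N κ).filter fun z =>
      ∃ v ∈ SDir N, H < hgt v ∧ 3 ≤ dg0 (S.image pt) v z).card : ℝ) ≤ η * N := by
  obtain ⟨C, hC⟩ : ∃ C : ℝ, C = 40 ^ 40 * 2 * (64 * u ^ 3) ^ 40 * 32 ^ 8 := ⟨_, rfl⟩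
  have hC0 : 0 < C := by
    rw [hC]
    positivity
  refine ⟨max 1 (max ⌈(120 / η) ^ 40⌉₊ ⌈3 ^ 40 * C / η ^ 40⌉₊), ?_⟩
  intro N hN n hn h4 H hH1 hH2 S hdeg hP κ hκ
  have hN1 : 1 ≤ N := le_trans (le_max_left _ _) hN
  have hN1' : (1 : ℝ) ≤ N := by exact_mod_cast hN1
  have hNp : (0 : ℝ) < N := by linarith
  have hN2 := le_trans (le_max_right _ _) hN
  have hNa : (120 / η) ^ 40 ≤ (N : ℝ) := (Nat.le_ceil _).trans (by exact_mod_cast le_trans (le_max_left _ _) hN2)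
  have hNb : 3 ^ 40 * C / η ^ 40 ≤ (N : ℝ) := (Nat.le_ceil _).trans (by exact_mod_cast le_trans (le_max_right _ _) hN2)
  have hHpos : 1 ≤ H := by
    by_contra hc
    have h0 : H = 0 := by omega
    rw [h0] at hH2
    norm_num at hH2
    omega
  obtain ⟨d, hd⟩ : ∃ d : ℝ, d = (N : ℝ) ^ ((1 : ℝ) / 10) := ⟨_, rfl⟩
  have hd0 : 0 ≤ d := by
    rw [hd]
    positivity
  have hd10 : d ^ 10 = N := by
    rw [hd, ← Real.rpow_natCast, ← Real.rpow_mul hNp.le]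
    norm_num
  have hdeg' : ∀ z ∈ grid N, (deg2 N (S.image pt) z : ℝ) ≤ d := by
    intro z hz
    have h1 := hdeg z hz
    have h2 : (deg2 N (S.image pt) z : ℝ) ^ 10 ≤ d ^ 10 := by
      rw [hd10]
      exact_mod_cast h1
    exact (pow_le_pow_iff_left₀ (Nat.cast_nonneg _) hd0 (by norm_num)).1 h2
  obtain ⟨P₀, hP1, hP2, hP3, hmain⟩ := tri_comb (H := H) hn h4 S κ
  refine (hmain d hdeg').trans ?_
  have hηN : 0 ≤ η * N := by positivity
  have hη40 : 0 < η ^ 40 := by positivity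
  rw [← pow_le_pow_iff_left₀ (by positivity) hηN (n := 40) (by norm_num)]
  have hd40 : d ^ 40 = (N : ℝ) ^ 4 := by
    rw [← hd10]
    ring
  by_cases hm : 40 ≤ P₀.card
  · have h1 := hP κ hκ P₀ hP1 hP2 hP3 hm
    have hHr : (1 : ℝ) ≤ H := by exact_mod_cast hHpos
    have hHp : (0 : ℝ) < H := by linarith
    have hNH : (N : ℝ) ≤ 32 * (H : ℝ) ^ 5 := by
      have e1 : (N : ℝ) < ((H : ℝ) + 1) ^ 5 := by exact_mod_cast hH2
      have e2 : ((H : ℝ) + 1) ^ 5 ≤ (2 * (H : ℝ)) ^ 5 := pow_le_pow_left₀ (by positivity) (by linarith) 5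
      calc (N : ℝ) ≤ (2 * (H : ℝ)) ^ 5 := e1.le.trans e2
        _ = 32 * (H : ℝ) ^ 5 := by ring
    have hq : ((N : ℝ) / H) ^ 40 ≤ 32 ^ 8 * (N : ℝ) ^ 32 := by
      rw [div_pow, div_le_iff₀ (by positivity)]
      have e1 : (N : ℝ) ^ 8 ≤ (32 * (H : ℝ) ^ 5) ^ 8 := pow_le_pow_left₀ hNp.le hNH 8
      calc (N : ℝ) ^ 40 = (N : ℝ) ^ 32 * (N : ℝ) ^ 8 := by ring
        _ ≤ (N : ℝ) ^ 32 * (32 * (H : ℝ) ^ 5) ^ 8 := mul_le_mul_of_nonneg_left e1 (by positivity)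
        _ = 32 ^ 8 * (N : ℝ) ^ 32 * (H : ℝ) ^ 40 := by ring
    have h2 : (P₀.card : ℝ) ^ 40 ≤ C * (N : ℝ) ^ 34 := by
      refine h1.trans ?_
      have e1 : (40 : ℝ) ^ 40 * N * (2 * N * (64 * u ^ 3 * N / H) ^ 40) =
          40 ^ 40 * 2 * (64 * u ^ 3) ^ 40 * ((N : ℝ) / H) ^ 40 * (N : ℝ) ^ 2 := by
        rw [mul_div_assoc, mul_pow (64 * u ^ 3) ((N : ℝ) / H)]
        ring
      rw [e1, hC]
      calc (40 : ℝ) ^ 40 * 2 * (64 * u ^ 3) ^ 40 * ((N : ℝ) / H) ^ 40 * (N : ℝ) ^ 2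
          ≤ 40 ^ 40 * 2 * (64 * u ^ 3) ^ 40 * (32 ^ 8 * (N : ℝ) ^ 32) * (N : ℝ) ^ 2 := by
            gcongr
        _ = 40 ^ 40 * 2 * (64 * u ^ 3) ^ 40 * 32 ^ 8 * (N : ℝ) ^ 34 := by ring
    rw [div_le_iff₀ hη40] at hNb
    calc (3 * (P₀.card : ℝ) * d) ^ 40 = 3 ^ 40 * (P₀.card : ℝ) ^ 40 * d ^ 40 := by ring
      _ ≤ 3 ^ 40 * (C * (N : ℝ) ^ 34) * d ^ 40 := by gcongr
      _ = (3 ^ 40 * C) * (N : ℝ) ^ 38 := by
          rw [hd40]
          ring
      _ ≤ (N * η ^ 40) * (N : ℝ) ^ 38 := mul_le_mul_of_nonneg_right hNb (by positivity)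
      _ = η ^ 40 * (N : ℝ) ^ 39 := by ring
      _ ≤ η ^ 40 * (N : ℝ) ^ 40 := mul_le_mul_of_nonneg_left (pow_le_pow_right₀ hN1' (by norm_num)) hη40.le
      _ = (η * N) ^ 40 := by ring
  · have hm' : (P₀.card : ℝ) ≤ 40 := by
      have : P₀.card ≤ 40 := by omega
      exact_mod_cast this
    rw [div_pow, div_le_iff₀ hη40] at hNa
    calc (3 * (P₀.card : ℝ) * d) ^ 40 ≤ (3 * 40 * d) ^ 40 := by gcongr
      _ = 120 ^ 40 * (N : ℝ) ^ 4 := by
          rw [mul_pow, hd40]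
          norm_num
      _ ≤ (N * η ^ 40) * (N : ℝ) ^ 4 := mul_le_mul_of_nonneg_right hNa (by positivity)
      _ = η ^ 40 * (N : ℝ) ^ 5 := by ring
      _ ≤ η ^ 40 * (N : ℝ) ^ 40 := mul_le_mul_of_nonneg_left (pow_le_pow_right₀ hN1' (by norm_num)) hη40.le
      _ = (η * N) ^ 40 := by ring

end Pool.Agent.NKL
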