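import Pool.Agent.NKL.NIB3
import Pool.Agent.NKL.G2B
import Pool.Agent.NKL.G2C
import Pool.Agent.NKL.G2S
import Pool.Agent.NKL.G2T
import Pool.Agent.NKL.G2K
import Pool.Agent.NKL.GD7

set_option autoImplicit false

/-!
# NKL / G2R : the nibble for the grid, stage 2

`W₂ = 5^|Dir s| exp(1776 s²)`, `β = 1/(4 W₂²)`, `E = exp(3s)`.  Given `η > 0`: `K ≥ 1` with
`8 17^s/K ≤ η/(64 E)`; `ε₁ = min 1 (..)` with `8 17^s ε₁ K ≤ η/(64 E)`.  Given `ε ≤ ε₁`: `ε₀ = ε/8`,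
`t = s - ε₀`, `φ = ε₀/(25 s)`, `W = 2 φ^{-|Dir s|} exp(1776 s²)`; `D ≥ s`, `D ≥ 1` with
`8 (2W+1)^(s+1)/D ≤ η/(32 E)` and `16 (s W)^4/D ≤ ε/8` (and `2 * 8 (tW)^4/D ≤ 1`);
`a = 8 17^s (ε K + 1/K) + 8 (2W+1)^(s+1)/D ≤ η/(16 E)`; `η₃ = min (ε/16) (min (η/(16 E)) (min (1/D) 1))`;
`b = 3 |Dir D|`, `R₁ = ⌈50 s²/ε₀⌉`, `M₀ = s`.  `nib3` gives `R`, `N₀'`.  `N ≥ N₀'`, `N ≥ 12 s`, `N ≥ D`,
`N` large, `n = N/4`, `H^5 ≤ N < (H+1)^5` (so `1 ≤ H ≤ N`), `Y = gsys s s n D N`.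
Assumptions of `nib3`: as in `nps` (`gsys_ok`, `mass_cond`, `wbound`); `C = eC n D H N`, `A = eA n`,
`w₀ = eW n H N (t W)` (`eW_nonneg`); `K1 = ℤ × ℤ`, `F1 = grid N`, `famI n D`, `famB n D` (`fam_ok`);
`K2 = (Bool × ℤ) × ℕ`, `F2 = BL N ×ˢ range 3`, `X = dX D H N`, `Q = dQ n`, `w = dW ε`, `cr = dR D W`,
`M = dM s ≤ s`, `a₀ = a` (`d_a0`), `cQ = 6 H² (18 + 2W)^s` (`d_cQ`; `cQ^20 = const H^40 ≤ const N^8`),
rates `d_rate` (`e ≤ η₃ ≤ 1/D`).
Result: valid `S`; `P = S.image pt`.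
* `card`: `|S| ≥ t (4n)²/N - η₃ N ≥ (s - ε/8)(N - 6) - (ε/16) N ≥ (s - ε/4) N`.
* `quad`: `est_total` (`u = t W ≤ s W`): `B = 2 (8 N u⁴/D + 2) ≤ (ε/8) N + 4` and `B ≤ N`; `est_quads`,
  `remove_quads`: `S₁ ⊆ S` without bad quadruples and `|S \ S₁| ≤ B`; `E = (S \ S₁).image pt`; lines
  of height larger than `D` have at most three points of `P \ E = S₁.image pt` (as in `near_of_cells`).
* `col`, `row`, `sml`, `lrg` (for `hgt v ≤ D`): validity, as in `near_of_cells`.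
* `free`: `F ≥ ((4n)² - 2 |Dir D| 4n)/N ≥ N - 6 - 2 |Dir D|` (`famI_sum`), so
  `WW ≥ t F - η₃ N ≥ N` (`t ≥ 2`), and `ww_count` gives at least `N/W₂² = 4 β N` points `p ∈ S` for which
  the lines of `skw D` through `(r, p.2)`, `(p.1, c)` are not full; for skew `v` with `hgt v ≤ D`, `v` or
  `-v` is in `skw D` (`prim_dir`), `dg0 P v z ≤ cnt S v (On v z) < cap v ≤ s` (`dg0_neg`, `On_neg`).
* `da`, `db`, `du`: `DD ≤ N exp(3t) (a + η₃) ≤ N E η/(8 E)`; `|S ∩ dQ n (z,v)| = dg0 P v z` (`dg0_image`);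
  `du`: the number of `z` is at most the number of pairs `(z,v)`.
* `deg`: `deg_small` with `est_prs` (`B ≤ N`); `tri`: `tri_small` with `est_trs`, `η/8`.
-/

namespace Pool.Agent.NKL

open Finset

private theorem g2r_filter {n : ℕ} (S : Finset (Cell n)) (P : ℤ × ℤ → Prop) [DecidablePred P] :
    ((S.image pt).filter P).card = (S.filter fun c => P (pt c)).card := by
  rw [filter_image, card_image_of_injective _ pt_inj]

private theorem g2r_capf_neg {s c₁ : ℕ} (v : ℤ × ℤ) : capf s c₁ (-v.1, -v.2) = capf s c₁ v := by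
  unfold capf
  rw [hgt_neg]
  have h1 : (-v.1 = 0 ∨ -v.2 = 0) ↔ (v.1 = 0 ∨ v.2 = 0) := by
    rw [neg_eq_zero, neg_eq_zero]
  by_cases hz : v.1 = 0 ∨ v.2 = 0
  · rw [if_pos (h1.mpr hz), if_pos hz]
  · rw [if_neg (fun hh => hz (h1.mp hh)), if_neg hz]

private theorem g2r_prim {s n D N : ℕ} (h : 4 * n ≤ N) (hD : 1 ≤ D) (S : Finset (Cell n))
    (hv : (gsys s s n D N h hD).Valid S) {v : ℤ × ℤ} (hg : Int.gcd v.1 v.2 = 1)
    (hD2 : hgt v ≤ D) (l : ℤ) :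
    ((S.image pt).filter fun p => On v p = l).card ≤ capf s s v := by
  rcases prim_dir hg hD2 with hm | hm
  · rw [g2r_filter]
    exact hv ⟨v, hm⟩ l
  · have h1 : ((S.image pt).filter fun p => On (-v.1, -v.2) p = -l).card ≤
        capf s s (-v.1, -v.2) := by
      rw [g2r_filter]
      exact hv ⟨(-v.1, -v.2), hm⟩ (-l)
    rw [g2r_capf_neg] at h1
    refine le_trans (le_of_eq ?_) h1
    congr 1
    refine filter_congr fun p _ => ?_
    rw [On_neg, neg_inj]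

private theorem g2r_sub {n N : ℕ} (h : 4 * n ≤ N) (S : Finset (Cell n)) : S.image pt ⊆ grid N := by
  intro p hp
  obtain ⟨c, _, rfl⟩ := mem_image.mp hp
  have h1 := c.1.2
  have h2 := c.2.2
  unfold grid pt
  rw [mem_product, mem_Ico, mem_Ico]
  dsimp only
  omega

private theorem g2r_col {s n D N : ℕ} (h : 4 * n ≤ N) (hD : 1 ≤ D) (S : Finset (Cell n))
    (hv : (gsys s s n D N h hD).Valid S) (x : ℤ) :
    ((S.image pt).filter fun p => p.1 = x).card ≤ s := by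
  have h1 := g2r_prim h hD S hv (v := ((0 : ℤ), (1 : ℤ))) (by norm_num)
    (by unfold hgt; norm_num; exact hD) x
  have h2 : capf s s ((0 : ℤ), (1 : ℤ)) = s := by
    unfold capf
    rw [if_pos (Or.inl rfl)]
  rw [h2] at h1
  refine le_trans (le_of_eq ?_) h1
  congr 1
  refine filter_congr fun p _ => ?_
  unfold On
  dsimp only
  rw [one_mul, zero_mul, sub_zero]

private theorem g2r_row {s n D N : ℕ} (h : 4 * n ≤ N) (hD : 1 ≤ D) (S : Finset (Cell n))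
    (hv : (gsys s s n D N h hD).Valid S) (y : ℤ) :
    ((S.image pt).filter fun p => p.2 = y).card ≤ s := by
  have h1 := g2r_prim h hD S hv (v := ((1 : ℤ), (0 : ℤ))) (by norm_num)
    (by unfold hgt; norm_num; exact hD) (-y)
  have h2 : capf s s ((1 : ℤ), (0 : ℤ)) = s := by
    unfold capf
    rw [if_pos (Or.inr rfl)]
  rw [h2] at h1
  refine le_trans (le_of_eq ?_) h1
  congr 1
  refine filter_congr fun p _ => ?_
  unfold On
  dsimp only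
  rw [one_mul, zero_mul, zero_sub, neg_inj]

private theorem g2r_sml {s n D N : ℕ} (h : 4 * n ≤ N) (hD : 1 ≤ D) (hsD : s ≤ D)
    (S : Finset (Cell n)) (hv : (gsys s s n D N h hD).Valid S) (v : ℤ × ℤ)
    (hg : Int.gcd v.1 v.2 = 1) (h1 : v.1 ≠ 0) (h2 : v.2 ≠ 0) (h3 : hgt v ≤ s) (l : ℤ) :
    ((S.image pt).filter fun p => On v p = l).card ≤ s := by
  have h4 := g2r_prim h hD S hv hg (le_trans h3 hsD) l
  have h5 : capf s s v = s := by
    unfold capf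
    rw [if_neg (by rintro (hh | hh); exacts [h1 hh, h2 hh]), if_pos h3]
  rwa [h5] at h4

private theorem g2r_lrg {s n D N : ℕ} (hs : 3 ≤ s) (h : 4 * n ≤ N) (hD : 1 ≤ D)
    (S : Finset (Cell n)) (hv : (gsys s s n D N h hD).Valid S) (v : ℤ × ℤ)
    (hg : Int.gcd v.1 v.2 = 1) (h3 : s < hgt v) (h6 : hgt v ≤ D) (l : ℤ) :
    ((S.image pt).filter fun p => On v p = l).card ≤ 3 := by
  have h4 := g2r_prim h hD S hv hg h6 l
  have h5 : capf s s v = 3 := by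
    unfold capf
    rw [if_neg, if_neg (not_le.mpr h3)]
    rintro (hh | hh)
    · rw [hh, Int.gcd_zero_left] at hg
      have : hgt v = 1 := by
        unfold hgt
        rw [hh, hg]
        norm_num
      omega
    · rw [hh, Int.gcd_zero_right] at hg
      have : hgt v = 1 := by
        unfold hgt
        rw [hh, hg]
        norm_num
      omega
  rwa [h5] at h4

private theorem g2r_quad {n D : ℕ} (S : Finset (Cell n)) {B : ℝ}
    (hB : (((quads n D).filter fun A => A ⊆ S).card : ℝ) ≤ B) :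
    ∃ E ⊆ S.image pt, (E.card : ℝ) ≤ B ∧ ∀ v : ℤ × ℤ, Int.gcd v.1 v.2 = 1 →
      D < hgt v → ∀ l, ((S.image pt \ E).filter fun p => On v p = l).card ≤ 3 := by
  classical
  obtain ⟨S₁, hS₁S, hS₁q, hS₁c⟩ := remove_quads (quads n D) S (fun A hA => by
    rw [← Finset.card_pos, quads_card4 hA]; norm_num)
  refine ⟨(S \ S₁).image pt, image_subset_image sdiff_subset, ?_, ?_⟩
  · have h1 : ((S \ S₁).image pt).card = (S \ S₁).card := card_image_of_injective _ pt_inj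
    have h2 := card_sdiff_add_card_eq_card hS₁S
    have h3 : ((S \ S₁).image pt).card ≤ ((quads n D).filter fun A => A ⊆ S).card := by omega
    exact le_trans (by exact_mod_cast h3) hB
  · intro v hg hD l
    have h1 : S.image pt \ (S \ S₁).image pt = S₁.image pt := by
      rw [← image_sdiff _ _ pt_inj]
      congr 1
      exact Finset.sdiff_sdiff_eq_self hS₁S
    rw [h1, g2r_filter]
    by_contra hcon
    obtain ⟨A, hA1, hA2⟩ := exists_subset_card_eq (show 4 ≤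
      (S₁.filter fun c => On v (pt c) = l).card by omega)
    refine hS₁q A ?_ (fun x hx => (mem_filter.mp (hA1 hx)).1)
    unfold quads
    rw [mem_filter, mem_powersetCard]
    exact ⟨⟨subset_univ _, hA2⟩, v, hg, by omega, l, fun p hp => (mem_filter.mp (hA1 hp)).2⟩

private theorem g2r_dg0_le {s n D N : ℕ} (hs : 3 ≤ s) (h : 4 * n ≤ N) (hD : 1 ≤ D)
    (S : Finset (Cell n)) (z : ℤ × ℤ)
    (hz : ∀ v ∈ skw D, (gsys s s n D N h hD).cnt S v (On v.1 z) < (gsys s s n D N h hD).cap v)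
    {v : ℤ × ℤ} (hv : Skew v) (hvD : hgt v ≤ D) : dg0 (S.image pt) v z + 1 ≤ s := by
  have key : ∀ w : ℤ × ℤ, ∀ hw : w ∈ Dir D, w.1 ≠ 0 → w.2 ≠ 0 → dg0 (S.image pt) w z + 1 ≤ s := by
    intro w hw h1 h2
    have h3 := hz ⟨w, hw⟩ (by unfold skw; rw [mem_filter]; exact ⟨mem_univ _, h1, h2⟩)
    have h4 : (gsys s s n D N h hD).cap ⟨w, hw⟩ ≤ s := by
      show capf s s w ≤ s
      unfold capf
      split_ifs <;> omega
    have h5 : dg0 (S.image pt) w z ≤ (gsys s s n D N h hD).cnt S ⟨w, hw⟩ (On w z) := by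
      rw [dg0_image]
      unfold Sys.cnt
      refine card_le_card fun q hq => ?_
      rw [mem_inter] at hq
      have h6 := hq.2
      unfold dQ at h6
      rw [mem_filter] at h6 ⊢
      exact ⟨hq.1, h6.2.2⟩
    have h7 : (gsys s s n D N h hD).cnt S ⟨w, hw⟩ (On w z) < (gsys s s n D N h hD).cap ⟨w, hw⟩ := h3
    omega
  obtain ⟨hg, h1, h2⟩ := hv
  rcases prim_dir hg hvD with hm | hm
  · exact key v hm h1 h2
  · have := key _ hm (by simpa using h1) (by simpa using h2)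
    rwa [dg0_neg] at this

open Classical in
private theorem g2r_free {s n D N : ℕ} (hs : 3 ≤ s) (h : 4 * n ≤ N) (hD : 1 ≤ D)
    (S : Finset (Cell n)) (r c : ℤ) {B : ℝ}
    (hB : B ≤ ((S.filter fun p => ∀ v ∈ skw D,
          (gsys s s n D N h hD).cnt S v (On v.1 (r, (pt p).2)) < (gsys s s n D N h hD).cap v ∧
          (gsys s s n D N h hD).cnt S v (On v.1 ((pt p).1, c)) < (gsys s s n D N h hD).cap v).card
          : ℝ)) :
    B ≤ (((S.image pt).filter fun p => ∀ v, Skew v → hgt v ≤ D →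
      dg0 (S.image pt) v (r, p.2) + 1 ≤ s ∧ dg0 (S.image pt) v (p.1, c) + 1 ≤ s).card : ℝ) := by
  refine hB.trans ?_
  rw [g2r_filter]
  refine Nat.cast_le.2 (card_le_card fun p hp => ?_)
  rw [mem_filter] at hp ⊢
  refine ⟨hp.1, fun v hv hvD => ⟨?_, ?_⟩⟩
  · exact g2r_dg0_le hs h hD S _ (fun w hw => (hp.2 w hw).1) hv hvD
  · exact g2r_dg0_le hs h hD S _ (fun w hw => (hp.2 w hw).2) hv hvD

private theorem g2r_da {s n D H N : ℕ} (hs : 3 ≤ s) {ε W B : ℝ} (S : Finset (Cell n)) (κ : Bool × ℤ)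
    (hB : DD (dX D H N (κ, 0)) (dQ n) (dW ε (κ, 0)) (dR D W) (dM s (κ, 0)) (dM s (κ, 0)) S ≤ B) :
    ∑ z ∈ Zl N κ, ∑ v ∈ SDir H, (if s ≤ dg0 (S.image pt) v z + 1 then wh ε v else 0) ≤ B := by
  refine le_trans (le_of_eq ?_) hB
  unfold DD dX dM dW
  rw [← sum_product']
  have e1 : (SDir H).filter (fun v => ((κ, 0) : (Bool × ℤ) × ℕ).2 = 2 → D < hgt v) = SDir H := by
    refine filter_true_of_mem fun v _ hv => ?_
    exact absurd hv (by norm_num)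
  rw [e1]
  refine sum_congr rfl fun x _ => ?_
  rw [if_pos rfl, if_pos rfl, Nat.sub_self, pow_zero, mul_one, dg0_image]
  have e2 : (x.1, x.2) = x := rfl
  rw [e2]
  by_cases hc : s ≤ (S ∩ dQ n x).card + 1
  · rw [if_pos hc, if_pos (by omega), mul_one]
  · rw [if_neg hc, if_neg (by omega), mul_zero]

private theorem g2r_db {s n D H N : ℕ} (hs : 3 ≤ s) {ε W B : ℝ} (S : Finset (Cell n)) (κ : Bool × ℤ)
    (hB : DD (dX D H N (κ, 1)) (dQ n) (dW ε (κ, 1)) (dR D W) (dM s (κ, 1)) (dM s (κ, 1)) S ≤ B) :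
    ∑ z ∈ Zl N κ, ∑ v ∈ SDir H, (if s ≤ dg0 (S.image pt) v z + 2 then wh ε v ^ 2 else 0) ≤ B := by
  refine le_trans (le_of_eq ?_) hB
  unfold DD dX dM dW
  rw [← sum_product']
  have e1 : (SDir H).filter (fun v => ((κ, 1) : (Bool × ℤ) × ℕ).2 = 2 → D < hgt v) = SDir H := by
    refine filter_true_of_mem fun v _ hv => ?_
    exact absurd hv (by norm_num)
  rw [e1]
  refine sum_congr rfl fun x _ => ?_
  rw [if_neg (show ¬ ((κ, 1) : (Bool × ℤ) × ℕ).2 = 0 by norm_num), if_pos rfl,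
    if_neg (show ¬ ((κ, 1) : (Bool × ℤ) × ℕ).2 = 0 by norm_num), if_pos rfl, Nat.sub_self, pow_zero,
    mul_one, dg0_image]
  have e2 : (x.1, x.2) = x := rfl
  rw [e2]
  by_cases hc : s ≤ (S ∩ dQ n x).card + 2
  · rw [if_pos hc, if_pos (by omega), mul_one]
  · rw [if_neg hc, if_neg (by omega), mul_zero]

open Classical in
private theorem g2r_du {s n D H N : ℕ} {ε W B : ℝ} (S : Finset (Cell n)) (κ : Bool × ℤ)
    (hB : DD (dX D H N (κ, 2)) (dQ n) (dW ε (κ, 2)) (dR D W) (dM s (κ, 2)) (dM s (κ, 2)) S ≤ B) :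
    (((Zl N κ).filter fun z => ∃ v ∈ SDir H, D < hgt v ∧ 3 ≤ dg0 (S.image pt) v z).card : ℝ)
      ≤ B := by
  refine le_trans ?_ hB
  have e0 : (((Zl N κ).filter fun z => ∃ v ∈ SDir H, D < hgt v ∧
      3 ≤ dg0 (S.image pt) v z).card : ℝ)
      = ∑ z ∈ Zl N κ, if (∃ v ∈ SDir H, D < hgt v ∧ 3 ≤ dg0 (S.image pt) v z) then (1 : ℝ)
        else 0 := by
    rw [sum_ite, sum_const_zero, add_zero, sum_const, nsmul_eq_mul, mul_one]
  have e1 : DD (dX D H N (κ, 2)) (dQ n) (dW ε (κ, 2)) (dR D W) (dM s (κ, 2)) (dM s (κ, 2)) S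
      = ∑ z ∈ Zl N κ, ∑ v ∈ (SDir H).filter (fun v => ((κ, 2) : (Bool × ℤ) × ℕ).2 = 2 → D < hgt v),
        (if 3 ≤ (S ∩ dQ n (z, v)).card then (1 : ℝ) else 0) := by
    unfold DD dX
    rw [sum_product]
    refine sum_congr rfl fun z _ => sum_congr rfl fun v _ => ?_
    have e2 : dM s (κ, 2) = 3 := by
      unfold dM
      rw [if_neg (by norm_num), if_neg (by norm_num)]
    have e3 : dW ε (κ, 2) (z, v) = 1 := by
      unfold dW
      rw [if_neg (by norm_num), if_neg (by norm_num)]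
    rw [e2, e3, Nat.sub_self, pow_zero, mul_one, one_mul]
  rw [e0, e1]
  refine sum_le_sum fun z _ => ?_
  have hnn : ∀ v : ℤ × ℤ, (0 : ℝ) ≤ (if 3 ≤ (S ∩ dQ n (z, v)).card then (1 : ℝ) else 0) := by
    intro v
    split_ifs <;> norm_num
  by_cases hc : ∃ v ∈ SDir H, D < hgt v ∧ 3 ≤ dg0 (S.image pt) v z
  · rw [if_pos hc]
    obtain ⟨v, hv, hvD, h3⟩ := hc
    refine le_trans ?_ (single_le_sum (fun v _ => hnn v) (mem_filter.2 ⟨hv, fun _ => hvD⟩))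
    rw [← dg0_image, if_pos h3]
  · rw [if_neg hc]
    exact sum_nonneg fun v _ => hnn v

private theorem g2r_div {a b : ℝ} (hb : 0 < b) {D : ℕ} (hD : 0 < D) (h : ⌈a / b⌉₊ ≤ D) :
    a / D ≤ b := by
  have h1 : a / b ≤ (D : ℝ) := (Nat.le_ceil _).trans (by exact_mod_cast h)
  have h2 : (0 : ℝ) < D := by exact_mod_cast hD
  rw [div_le_iff₀ hb] at h1
  rw [div_le_iff₀ h2]
  linarith

private theorem g2r_grid (N : ℕ) : (grid N).card = N ^ 2 := by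
  unfold grid
  rw [card_product, Int.card_Ico]
  simp [sq]

private theorem g2r_BL (N : ℕ) : (BL N ×ˢ range 3).card = 6 * N := by
  unfold BL
  rw [card_product, card_product, Int.card_Ico, card_univ, Fintype.card_bool, card_range]
  simp
  ring

/-- the fields of `Raw` from the output of the nibble theorem -/
private theorem g2r_raw {s n D H N R : ℕ} (hs : 3 ≤ s) (hsD : s ≤ D) (hD : 1 ≤ D) (h : 4 * n ≤ N)
    (hn : 1 ≤ n) (hDN : D ≤ N) (hN12 : 12 * s ≤ N) (hH : 1 ≤ H)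
    {ε₀ ε W W₂ t u η B : ℝ} (hε₀ : 0 < ε₀) (hε₀1 : ε₀ ≤ 1)
    (hR : 50 * (s : ℝ) ^ 2 / ε₀ ≤ R) (ht : t = (s : ℝ) - ε₀) (hu : 0 < u)
    (hW₂ : W₂ = 5 ^ (Dir s).card * Real.exp (1776 * (s : ℝ) ^ 2)) {S : Finset (Cell n)}
    (hSv : (gsys s s n D N h hD).Valid S)
    (hcard : ((s : ℝ) - ε / 4) * N ≤ S.card)
    (hBε : B ≤ ε / 8 * N + 4) (hBN : B ≤ N)
    (hB : ∑ x ∈ (eC n D H N).filter (fun x => eA n x ⊆ S), eW n H N u x ≤ B)
    (hWW : ∀ κ ∈ grid N, (N : ℝ) ≤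
      (gsys s s n D N h hD).WW (t / R) R (famI n D κ) (famB n D κ) R S)
    (hDD : ∀ k ∈ BL N ×ˢ range 3, DD (dX D H N k) (dQ n) (dW ε k) (dR D W) (dM s k) (dM s k) S
      ≤ η / 8 * N)
    (hdeg : (∀ z ∈ grid N, ∀ P₀ ⊆ prs n z, (∀ A ∈ P₀, ∀ B ∈ P₀, A ≠ B → Disjoint A B) →
      (∀ A ∈ P₀, A ⊆ S) → 40 ≤ P₀.card →
      (P₀.card : ℝ) ^ 40 ≤ 40 ^ 40 * N * (N ^ 2 * (32 * u ^ 2 * (1 + Real.log N)) ^ 40)) →
      ∀ z ∈ grid N, deg2 N (S.image pt) z ^ 10 ≤ N)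
    (htri : (∀ z ∈ grid N, deg2 N (S.image pt) z ^ 10 ≤ N) →
      (∀ κ ∈ BL N, ∀ P₀ ⊆ trs n H N κ, (∀ A ∈ P₀, ∀ B ∈ P₀, A ≠ B → Disjoint A B) →
        (∀ A ∈ P₀, A ⊆ S) → 40 ≤ P₀.card →
        (P₀.card : ℝ) ^ 40 ≤ 40 ^ 40 * N * (2 * N * (64 * u ^ 3 * N / H) ^ 40)) →
      ∀ κ ∈ BL N, (((Zl N κ).filter fun z =>
        ∃ v ∈ SDir N, H < hgt v ∧ 3 ≤ dg0 (S.image pt) v z).card : ℝ) ≤ η / 8 * N) :
    Raw s D H N ε (1 / (4 * W₂ ^ 2)) η (S.image pt) := by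
  have hN1 : 1 ≤ N := by omega
  have hN0 : (0 : ℝ) < N := by exact_mod_cast hN1
  have hW₂0 : 0 < W₂ := by rw [hW₂]; positivity
  have hdeg' : ∀ z ∈ grid N, deg2 N (S.image pt) z ^ 10 ≤ N := by
    refine hdeg fun z hz P₀ h₀ hd hPS hJ => ?_
    refine (est_prs hN1 hu hB hz h₀ hd hPS hJ).trans ?_
    refine mul_le_mul_of_nonneg_right (mul_le_mul_of_nonneg_left hBN (by positivity)) ?_
    exact mul_nonneg (by positivity) (Even.pow_nonneg (by decide) _)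
  refine ⟨g2r_sub h S, g2r_col h hD S hSv, g2r_row h hD S hSv, g2r_sml h hD hsD S hSv,
    g2r_lrg hs h hD S hSv, ?_, ?_, ?_, ?_, ?_, ?_, hdeg', ?_⟩
  · obtain ⟨E, hE, hEB, hE3⟩ := g2r_quad S (est_quads hN1 hu hB)
    exact ⟨E, hE, hEB.trans hBε, hE3⟩
  · rw [card_image_of_injective _ pt_inj]
    exact hcard
  · intro r c hr hrN hc hcN
    refine g2r_free hs h hD S r c ?_
    have hκ : ((r, c) : ℤ × ℤ) ∈ grid N := by
      unfold grid
      rw [mem_product, mem_Ico, mem_Ico]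
      exact ⟨⟨hr, hrN⟩, hc, hcN⟩
    have h1 := hWW _ hκ
    rw [ht] at h1
    have h2 := h1.trans (ww_count hs hε₀ hε₀1 hn h hD hDN hN12 hR S (r, c))
    rw [← hW₂] at h2
    have h3 : 4 * (1 / (4 * W₂ ^ 2)) * (N : ℝ) = N / W₂ ^ 2 := by
      field_simp
    rw [h3, div_le_iff₀ (by positivity), mul_comm]
    exact h2
  · intro κ hκ
    exact g2r_da hs S κ (hDD (κ, 0) (by rw [mem_product, mem_range]; exact ⟨hκ, by norm_num⟩))
  · intro κ hκ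
    exact g2r_db hs S κ (hDD (κ, 1) (by rw [mem_product, mem_range]; exact ⟨hκ, by norm_num⟩))
  · intro κ hκ
    exact g2r_du S κ (hDD (κ, 2) (by rw [mem_product, mem_range]; exact ⟨hκ, by norm_num⟩))
  · refine htri hdeg' fun κ hκ P₀ h₀ hd hPS hJ => ?_
    refine (est_trs hN1 hH hu hB hκ h₀ hd hPS hJ).trans ?_
    refine mul_le_mul_of_nonneg_right (mul_le_mul_of_nonneg_left hBN (by positivity)) ?_
    positivity

theorem raw_exists (s : ℕ) (hs : 3 ≤ s) : ∃ β : ℝ, 0 < β ∧ ∀ η : ℝ, 0 < η → ∃ ε₁ : ℝ, 0 < ε₁ ∧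
    ∀ ε : ℝ, 0 < ε → ε ≤ ε₁ → ∃ D : ℕ, s ≤ D ∧ ∃ N₀ : ℕ, ∀ N ≥ N₀, ∀ H : ℕ, H ^ 5 ≤ N →
      N < (H + 1) ^ 5 → ∃ P, Raw s D H N ε β η P := by
  have hs0 : (3 : ℝ) ≤ s := by exact_mod_cast hs
  obtain ⟨W₂, hW₂⟩ : ∃ W₂ : ℝ, W₂ = 5 ^ (Dir s).card * Real.exp (1776 * (s : ℝ) ^ 2) := ⟨_, rfl⟩
  have hW₂0 : 0 < W₂ := by rw [hW₂]; positivity
  refine ⟨1 / (4 * W₂ ^ 2), by positivity, fun η hη => ?_⟩
  obtain ⟨E, hE⟩ : ∃ E : ℝ, E = Real.exp (3 * s) := ⟨_, rfl⟩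
  have hE0 : 0 < E := by rw [hE]; positivity
  obtain ⟨c₀, hc₀⟩ : ∃ c₀ : ℝ, c₀ = 8 * 17 ^ s := ⟨_, rfl⟩
  have hc₀0 : 0 < c₀ := by rw [hc₀]; positivity
  obtain ⟨δ, hδ⟩ : ∃ δ : ℝ, δ = η / (64 * E) := ⟨_, rfl⟩
  have hδ0 : 0 < δ := by rw [hδ]; positivity
  obtain ⟨K, hK1, hK2⟩ : ∃ K : ℕ, 1 ≤ K ∧ c₀ / K ≤ δ :=
    ⟨max 1 ⌈c₀ / δ⌉₊, le_max_left _ _, g2r_div hδ0 (by omega) (le_max_right _ _)⟩
  have hKr : (0 : ℝ) < K := by exact_mod_cast hK1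
  refine ⟨min 1 (δ / (c₀ * K)), lt_min one_pos (by positivity), fun ε hε hεε₁ => ?_⟩
  have hε1 : ε ≤ 1 := hεε₁.trans (min_le_left _ _)
  have hεK : c₀ * (ε * K) ≤ δ := by
    have h1 : ε ≤ δ / (c₀ * K) := hεε₁.trans (min_le_right _ _)
    rw [le_div_iff₀ (by positivity)] at h1
    linarith
  obtain ⟨ε₀, hε₀⟩ : ∃ ε₀ : ℝ, ε₀ = ε / 8 := ⟨_, rfl⟩
  have hε₀0 : 0 < ε₀ := by rw [hε₀]; positivity
  have hε₀1 : ε₀ ≤ 1 := by rw [hε₀]; linarith
  obtain ⟨t, ht⟩ : ∃ t : ℝ, t = (s : ℝ) - ε₀ := ⟨_, rfl⟩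
  have ht2 : 2 ≤ t := by rw [ht]; linarith
  have ht0 : 0 < t := by linarith
  have hts : t ≤ s := by rw [ht]; linarith
  obtain ⟨φ, hφ⟩ : ∃ φ : ℝ, φ = ε₀ / (25 * s) := ⟨_, rfl⟩
  have hφ0 : 0 < φ := by rw [hφ]; positivity
  have hφ1 : φ ≤ 1 := by rw [hφ, div_le_one (by positivity)]; linarith
  obtain ⟨W, hW⟩ : ∃ W : ℝ, W = 2 * ((ε₀ / (25 * s))⁻¹) ^ (Dir s).card
      * Real.exp (1776 * (s : ℝ) ^ 2) := ⟨_, rfl⟩
  have hW0 : 0 < W := by rw [hW]; positivity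
  obtain ⟨D, hsD, hD2, hD3⟩ : ∃ D : ℕ, s ≤ D ∧ 8 * (2 * W + 1) ^ (s + 1) / D ≤ 2 * δ ∧
      16 * (s * W) ^ 4 / D ≤ ε / 8 := by
    refine ⟨max s (max ⌈8 * (2 * W + 1) ^ (s + 1) / (2 * δ)⌉₊ ⌈16 * (s * W) ^ 4 / (ε / 8)⌉₊),
      le_max_left _ _, ?_, ?_⟩
    · exact g2r_div (by positivity) (by omega) ((le_max_left _ _).trans (le_max_right _ _))
    · exact g2r_div (by positivity) (by omega) ((le_max_right _ _).trans (le_max_right _ _))
  have hD1 : 1 ≤ D := by omega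
  have hDr : (0 : ℝ) < D := by exact_mod_cast (show 0 < D by omega)
  obtain ⟨a, ha⟩ : ∃ a : ℝ, a = 8 * 17 ^ s * (ε * K + 1 / K) + 8 * (2 * W + 1) ^ (s + 1) / D :=
    ⟨_, rfl⟩
  have ha0 : 0 ≤ a := by rw [ha]; positivity
  have haδ : a ≤ 4 * δ := by
    have h1 : 8 * 17 ^ s * (ε * K + 1 / K) = c₀ * (ε * K) + c₀ / K := by
      rw [hc₀]
      ring
    rw [ha, h1]
    linarith
  obtain ⟨η₃, hη₃0, hη₃ε, hη₃δ, hη₃D⟩ : ∃ η₃ : ℝ, 0 < η₃ ∧ η₃ ≤ ε / 16 ∧ η₃ ≤ 4 * δ ∧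
      η₃ ≤ 1 / D := by
    refine ⟨min (ε / 16) (min (4 * δ) (1 / D)), ?_, min_le_left _ _, ?_, ?_⟩
    · exact lt_min (by positivity) (lt_min (by positivity) (by positivity))
    · exact (min_le_right _ _).trans (min_le_left _ _)
    · exact (min_le_right _ _).trans (min_le_right _ _)
  have hEt : Real.exp (3 * t) ≤ E := by
    rw [hE]
    exact Real.exp_le_exp.2 (by linarith)
  have hEη : E * (8 * δ) = η / 8 := by
    rw [hδ]
    field_simp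
    norm_num
  obtain ⟨u, hu⟩ : ∃ u : ℝ, u = t * W := ⟨_, rfl⟩
  have hu0 : 0 < u := by rw [hu]; positivity
  have huD : 16 * u ^ 4 / D ≤ ε / 8 := by
    refine le_trans ?_ hD3
    rw [hu]
    gcongr
  obtain ⟨b, hb⟩ : ∃ b : ℕ, b = 3 * (Dir D).card := ⟨_, rfl⟩
  have hDc : 1 ≤ (Dir D).card := card_pos.2 ⟨_, mem_dir01 hD1⟩
  have hb1 : 1 ≤ b := by omega
  obtain ⟨cc, hcc⟩ : ∃ cc : ℝ, cc = ((2 + 2 * (b * s)) * (6 * (18 + 2 * W) ^ s)) ^ 20 := ⟨_, rfl⟩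
  obtain ⟨R, hR1, hR0, N₁, hN₁⟩ := nib3 b s hb1 (by omega) φ t W η₃ hφ0 hφ1 ht0 hW0.le hη₃0
    ⌈50 * (s : ℝ) ^ 2 / ε₀⌉₊ s
  have hR : 50 * (s : ℝ) ^ 2 / ε₀ ≤ R := (Nat.le_ceil _).trans (by exact_mod_cast hR1)
  obtain ⟨N₂, hN₂⟩ := deg_small u hu0
  obtain ⟨N₃, hN₃⟩ := tri_small u (η / 8) hu0 (by positivity)
  refine ⟨D, hsD, N₁ + N₂ + N₃ + 12 * s + D + ⌈96 * (s : ℝ) / ε⌉₊ + ⌈cc⌉₊
    + (24 + 8 * (Dir D).card), fun N hN H hH1 hH2 => ?_⟩
  have hNN₁ : N₁ ≤ N := by omega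
  have hNN₂ : N₂ ≤ N := by omega
  have hNN₃ : N₃ ≤ N := by omega
  have hN12 : 12 * s ≤ N := by omega
  have hDN : D ≤ N := by omega
  have hNε : 96 * (s : ℝ) / ε ≤ N :=
    (Nat.le_ceil _).trans (by exact_mod_cast (show ⌈96 * (s : ℝ) / ε⌉₊ ≤ N by omega))
  have hNcc : cc ≤ N := (Nat.le_ceil _).trans (by exact_mod_cast (show ⌈cc⌉₊ ≤ N by omega))
  have hNd : (24 : ℝ) + 8 * (Dir D).card ≤ N := by
    exact_mod_cast (show 24 + 8 * (Dir D).card ≤ N by omega)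
  clear hN
  obtain ⟨n, hn⟩ : ∃ n : ℕ, n = N / 4 := ⟨_, rfl⟩
  have hn1 : 1 ≤ n := by omega
  have h4n : 4 * n ≤ N := by omega
  have h4n' : N ≤ 4 * n + 3 := by omega
  have hN1 : 1 ≤ N := by omega
  have hN0 : (0 : ℝ) < N := by exact_mod_cast hN1
  have hNr1 : (1 : ℝ) ≤ N := by exact_mod_cast hN1
  have hH : 1 ≤ H := by
    by_contra hc
    have h0 : H = 0 := by omega
    rw [h0] at hH2
    norm_num at hH2
    omega
  have hHN : H ≤ N := (Nat.le_self_pow (by norm_num) H).trans hH1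
  have h4nr : (4 * (n : ℝ)) ≤ N := by exact_mod_cast h4n
  have h4n3 : (N : ℝ) - 3 ≤ 4 * n := by
    have : (N : ℝ) ≤ 4 * n + 3 := by exact_mod_cast h4n'
    linarith
  have hn0 : (0 : ℝ) ≤ n := Nat.cast_nonneg n
  have hN36 : (36 : ℝ) ≤ N := by
    exact_mod_cast (show 36 ≤ N by omega)
  have htot2 : (N : ℝ) - 6 ≤ (4 * (n : ℝ)) ^ 2 / N := by
    rw [le_div_iff₀ hN0]
    nlinarith
  -- the nibble
  have hcQN : ((2 + 2 * (b * s)) * (6 * (H : ℝ) ^ 2 * (18 + 2 * W) ^ s)) ^ 20 ≤ (N : ℝ) ^ 9 := by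
    have e1 : ((2 + 2 * (b * s)) * (6 * (H : ℝ) ^ 2 * (18 + 2 * W) ^ s)) ^ 20
        = cc * ((H : ℝ) ^ 5) ^ 8 := by
      rw [hcc]
      ring
    have e2 : ((H : ℝ) ^ 5) ^ 8 ≤ (N : ℝ) ^ 8 :=
      pow_le_pow_left₀ (by positivity) (by exact_mod_cast hH1) 8
    have hcc0 : 0 ≤ cc := by rw [hcc]; positivity
    rw [e1]
    calc cc * ((H : ℝ) ^ 5) ^ 8 ≤ N * (N : ℝ) ^ 8 := mul_le_mul hNcc e2 (by positivity) hN0.le
      _ = (N : ℝ) ^ 9 := by ring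
  obtain ⟨S, hSv, hSc, hSw, hSF, hSD⟩ := hN₁ N hNN₁ (Cell n) {v : ℤ × ℤ // v ∈ Dir D} ℤ
    (gsys s s n D N h4n hD1) (gsys_ok hs (by omega) hn1 h4n hD1)
    (by rw [Fintype.card_coe]; omega)
    (by
      intro v
      show capf s s v.1 ≤ s
      unfold capf
      split_ifs <;> omega)
    (fun v l => by
      rw [ht, hφ]
      exact mass_cond hs (by omega) hε₀0 hε₀1 hn1 h4n hD1 hDN hN12 v l)
    (fun i hi p => by
      rw [ht, hW]
      exact wbound hs (by omega) hε₀0 hε₀1 hn1 h4n hD1 hDN hN12 hR hi p)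
    (Finset (Finset (Cell n)) × ℕ) (eC n D H N) (eA n) (eW n H N u)
    (fun x _ => eW_nonneg n H N hN1 hu0.le x)
    (ℤ × ℤ) (grid N) (g2r_grid N).le (famI n D) (famB n D)
    (fun κ _ => by
      rw [hb]
      exact fam_ok hn1 h4n hD1 κ)
    ((Bool × ℤ) × ℕ) ((ℤ × ℤ) × (ℤ × ℤ)) (BL N ×ˢ range 3)
    (by
      rw [g2r_BL, sq]
      exact Nat.mul_le_mul_right _ (by omega))
    (dX D H N) (dQ n) (dW ε) (fun _ => dR D W) (dM s) (fun _ => a)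
    (6 * (H : ℝ) ^ 2 * (18 + 2 * W) ^ s)
    (fun k _ => by
      unfold dM
      split_ifs <;> omega)
    (fun k _ x _ => by
      have hwh : 0 ≤ wh ε x.2 := by
        unfold wh
        exact le_min hε.le (by positivity)
      unfold dW
      split_ifs
      · exact hwh
      · positivity
      · norm_num)
    (fun k _ x _ => by
      unfold dR
      split_ifs <;> positivity)
    (fun _ _ => ha0) (by positivity)
    (fun k _ m _ q => d_cQ hs hε.le hε1 hW0.le k m q)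
    hcQN
    (fun k hk => by
      rw [ha]
      refine d_a0 hs hD1 hK1 hε.le hε1 hW0.le ?_
      rw [mem_product, mem_range] at hk
      omega)
    (fun i hi S e he0 heη he1 hY hSv hTr k hk x hx => by
      rw [ht] at hY hTr ⊢
      exact d_rate hs hε₀0 hε₀1 hn1 h4n hD1 hDN hN12 hHN hR hi.le hY he0 (heη.trans hη₃D) hSv hTr
        hx)
  refine ⟨S.image pt, g2r_raw (B := 16 * N * u ^ 4 / D + 4) (u := u) (t := t) (W := W) hs hsD hD1
    h4n hn1 hDN hN12 hH hε₀0 hε₀1 hR ht hu0 hW₂ hSv ?_ ?_ ?_ ?_ ?_ ?_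
    (hN₂ N hNN₂ n hn1 h4n S) (hN₃ N hNN₃ n hn1 h4n H hH1 hH2 S)⟩
  · have htot := total_gsys (s := s) (c₁ := s) (D := D) hn1 h4n hD1
    rw [htot] at hSc
    have h2 : t * ((N : ℝ) - 6) ≤ t * ((4 * (n : ℝ)) ^ 2 / N) :=
      mul_le_mul_of_nonneg_left htot2 ht0.le
    have h3 : 96 * (s : ℝ) ≤ N * ε := by
      rw [div_le_iff₀ hε] at hNε
      exact hNε
    have h4 : t * ((N : ℝ) - 6) = s * N - ε / 8 * N - 6 * s + 6 * (ε / 8) := by
      rw [ht, hε₀]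
      ring
    have h5 : η₃ * N ≤ ε / 16 * N := mul_le_mul_of_nonneg_right hη₃ε hN0.le
    nlinarith
  · have h1 : 16 * N * u ^ 4 / D = 16 * u ^ 4 / D * N := by ring
    rw [h1]
    have := mul_le_mul_of_nonneg_right huD hN0.le
    linarith
  · have h1 : 16 * N * u ^ 4 / D = 16 * u ^ 4 / D * N := by ring
    rw [h1]
    have h2 := mul_le_mul_of_nonneg_right huD hN0.le
    have h3 : ε / 8 * N ≤ 1 / 8 * N := mul_le_mul_of_nonneg_right (by linarith) hN0.le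
    linarith
  · refine hSw.trans ?_
    rw [← hu]
    have h1 := est_total (n := n) (D := D) (H := H) (N := N) (u := u) hn1 h4n hD1 hH hu0
    have h2 : 16 * N * u ^ 4 / D + 4 = 2 * (8 * N * u ^ 4 / D + 2) := by ring
    rw [h2]
    exact mul_le_mul_of_nonneg_left h1 (by norm_num)
  · intro κ hκ
    refine le_trans ?_ (hSF κ hκ)
    have h1 := famI_sum (s := s) (c₁ := s) (D := D) hn1 h4n hD1 κ
    have h2 : (N : ℝ) - 6 - 2 * (Dir D).card ≤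
        (∑ p ∈ famI n D κ, (gsys s s n D N h4n hD1).f p) / N := by
      rw [le_div_iff₀ hN0]
      rw [le_div_iff₀ hN0] at htot2
      have h3 : 2 * ((Dir D).card : ℝ) * (4 * n) ≤ 2 * ((Dir D).card : ℝ) * N :=
        mul_le_mul_of_nonneg_left h4nr (by positivity)
      nlinarith
    have h3 : 2 * ((N : ℝ) - 6 - 2 * (Dir D).card) ≤
        t * ((∑ p ∈ famI n D κ, (gsys s s n D N h4n hD1).f p) / N) := by
      refine mul_le_mul ht2 h2 ?_ ht0.le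
      have : (0 : ℝ) ≤ (Dir D).card := Nat.cast_nonneg _
      linarith
    have h4 : η₃ * N ≤ 1 / 16 * N := mul_le_mul_of_nonneg_right (by linarith) hN0.le
    linarith
  · intro k hk
    refine (hSD k hk).trans ?_
    calc N * Real.exp (3 * t) * (a + η₃) ≤ N * E * (8 * δ) := by
          refine mul_le_mul ?_ (by linarith) (by positivity) (by positivity)
          exact mul_le_mul_of_nonneg_left hEt hN0.le
      _ = E * (8 * δ) * N := by ring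
      _ = η / 8 * N := by rw [hEη]

end Pool.Agent.NKL
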