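import Pool.Agent.NKL.PRK

set_option autoImplicit false

/-!
# NKL / GAM : the estimator

`gam_step`: `nxt S ω ⊆ S ∪ X` with `X = props ω`, so `A \ nxt ⊇ (A \ S) \ X` and, as `0 ≤ k ≤ 1`,
`k ^ |A \ nxt| ≤ k ^ |(A \ S) \ X| = ∏_{q ∈ A \ S} (if q ∈ X then 1 else k)`.
Expectation by `Ex_prodk`: `≤ ∏_{q ∈ A \ S} (π q + k) ≤ (k + κ) ^ |A \ S|`.  Sum over `A ∈ C`
(`L.Ex_sum`, `L.Ex_mono`).
`gam_zero`: for `k = 0` the term `0 ^ |A \ S|` is `1` if `A ⊆ S` and `0` otherwise.
`gam_start`: `A \ ∅ = A`.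
-/

namespace Pool.Agent.NKL

open Finset Pool.Agent.ChPi

variable {α V Λ : Type} [Fintype α] [DecidableEq α] [Fintype V] [DecidableEq V] [DecidableEq Λ]
  {N : ℕ} {Y : Sys α V Λ N} {S : Finset α} {π : α → ℝ} {κ ρ : ℝ}

theorem gam_nonneg (C : Finset (Finset α)) {k : ℝ} (hk : 0 ≤ k) (S : Finset α) :
    0 ≤ Gam C k S := by
  unfold Gam
  exact Finset.sum_nonneg fun A _ => pow_nonneg hk _

theorem gam_step (h : Y.Adm S π κ ρ) (C : Finset (Finset α)) {k : ℝ} (hk : 0 ≤ k)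
    (hk1 : k ≤ 1) :
    Ex (Y.law π) (fun ω => Gam C k (Y.nxt S ω)) ≤ Gam C (k + κ) S := by
  classical
  have hstep : ∀ (A : Finset α) (ω : Fin N → Option α),
      k ^ (A \ Y.nxt S ω).card ≤ ∏ q ∈ A \ S, (if q ∈ Y.props ω then (1 : ℝ) else k) := by
    intro A ω
    have h1 : ∏ q ∈ A \ S, (if q ∈ Y.props ω then (1 : ℝ) else k)
        = k ^ ((A \ S).filter fun q => q ∉ Y.props ω).card := by
      rw [Finset.prod_ite, Finset.prod_const_one, one_mul, Finset.prod_const]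
    rw [h1]
    apply pow_le_pow_of_le_one hk hk1
    apply Finset.card_le_card
    intro q hq
    rw [Finset.mem_filter, Finset.mem_sdiff] at hq
    rw [Finset.mem_sdiff]
    refine ⟨hq.1.1, fun hn => ?_⟩
    unfold Sys.nxt at hn
    rcases Finset.mem_union.mp hn with h2 | h2
    · exact hq.1.2 h2
    · unfold Sys.acc at h2
      exact hq.2 (Finset.mem_filter.mp h2).1
  unfold Gam
  rw [L.Ex_sum (Y.law π) C (fun A ω => k ^ (A \ Y.nxt S ω).card)]
  refine Finset.sum_le_sum fun A _ => ?_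
  calc Ex (Y.law π) (fun ω => k ^ (A \ Y.nxt S ω).card)
      ≤ Ex (Y.law π) (fun ω => ∏ q ∈ A \ S, (if q ∈ Y.props ω then (1 : ℝ) else k)) :=
        L.Ex_mono (fun x o => law_nonneg h x o) (hstep A)
    _ ≤ ∏ q ∈ A \ S, (π q + k) := Ex_prodk h _ hk
    _ ≤ ∏ _q ∈ A \ S, (k + κ) := by
        refine Finset.prod_le_prod (fun q _ => ?_) (fun q _ => ?_)
        · have := h.nonneg q
          linarith
        · have := h.le q
          linarith
    _ = (k + κ) ^ (A \ S).card := by rw [Finset.prod_const]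

theorem gam_zero (C : Finset (Finset α)) (S : Finset α) :
    Gam C 0 S = (C.filter fun A => A ⊆ S).card := by
  classical
  unfold Gam
  rw [Finset.card_filter]
  push_cast
  refine Finset.sum_congr rfl fun A _ => ?_
  by_cases hA : A ⊆ S
  · rw [if_pos hA, Finset.sdiff_eq_empty_iff_subset.mpr hA]
    simp
  · rw [if_neg hA]
    have : (A \ S).card ≠ 0 := by
      intro h0
      rw [Finset.card_eq_zero] at h0
      exact hA (Finset.sdiff_eq_empty_iff_subset.mp h0)
    exact zero_pow this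

theorem gam_start (C : Finset (Finset α)) (k : ℝ) : Gam C k ∅ = ∑ A ∈ C, k ^ A.card := by
  unfold Gam
  refine Finset.sum_congr rfl fun A _ => ?_
  rw [Finset.sdiff_empty]

end Pool.Agent.NKL
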