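import Pool.Agent.NKL.GD3

set_option autoImplicit false

/-!
# NKL / GD4 : the mass condition

`t = s - ε₀`, `φ = ε₀/(25 s) ≤ 1/25`, `N ≥ N₀ = 12 s` (and `N ≥ 12`), `4n ≤ N`.
* axis directions: `cap = s`, `t mass ≤ s - ε₀ ≤ (1-φ) s` (`mass_axis`, `4n/N ≤ 1`).
* `hgt v ≤ s`, not an axis direction, `cap = c₁`: if `hgt v = 1`, then `v.1 = (1,±1)` and
  `t mass ≤ (4/5) s ≤ (24/25) c₁ ≤ (1-φ) c₁` (as `5 s ≤ 6 c₁`); if `hgt v ≥ 2`, then
  `mass ≤ 6/5 (1/2 + 1/N) ≤ 7/10`, `t mass ≤ 7/10 s ≤ (24/25) c₁`.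
* `hgt v > s`: `cap = 3`, `mass ≤ 6/5 (1/(s+1) + 1/N)`, `t mass ≤ 6/5 + 6/5 s/N ≤ 3/2`.
`far_mass`: `s < hgt v`: `t mass ≤ 3/2` and `t mass ≤ 12/5 * s / hgt v` (as `hgt v ≤ D ≤ N`,
`1/N ≤ 1/hgt v`).
-/

namespace Pool.Agent.NKL

open Finset

variable {s c₁ n D N : ℕ}

/-- the bound of the mass of a line of height at least `a` -/
private theorem gen_le (hn : 1 ≤ n) (h : 4 * n ≤ N) (hD : 1 ≤ D)
    (v : {v : ℤ × ℤ // v ∈ Dir D}) (l : ℤ) :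
    (gsys s c₁ n D N h hD).mass v l ≤ 6 / 5 * (1 / (hgt v.1 : ℝ) + 1 / (N : ℝ)) := by
  refine le_trans (mass_gen hn h hD v l) ?_
  have hg : 0 < (hgt v.1 : ℝ) := by
    have h1 := hgt_pos (dir_gcd v.2)
    exact_mod_cast h1
  have hN : 0 < (N : ℝ) := by
    have h2 : 0 < N := by omega
    exact_mod_cast h2
  have h4 : (4 : ℝ) * n ≤ N := by exact_mod_cast h
  rw [mul_div_assoc]
  refine mul_le_mul_of_nonneg_left ?_ (by norm_num)
  rw [add_div]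
  refine add_le_add ?_ le_rfl
  rw [div_div, mul_comm (hgt v.1 : ℝ) (N : ℝ), ← div_div]
  refine div_le_div_of_nonneg_right ?_ hg.le
  rw [div_le_one hN]
  exact h4

theorem far_mass (hs : 3 ≤ s) {t : ℝ} (ht0 : 0 ≤ t) (ht : t ≤ s) (hn : 1 ≤ n) (h : 4 * n ≤ N)
    (hD : 1 ≤ D) (hDN : D ≤ N) (hN : 12 * s ≤ N) (v : {v : ℤ × ℤ // v ∈ Dir D}) (l : ℤ)
    (hv : s < hgt v.1) :
    t * (gsys s c₁ n D N h hD).mass v l ≤ 3 / 2 ∧
      t * (gsys s c₁ n D N h hD).mass v l ≤ 12 / 5 * s / hgt v.1 := by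
  have hg1 := hgt_pos (dir_gcd v.2)
  have hg : 0 < (hgt v.1 : ℝ) := by exact_mod_cast hg1
  have hgN : (hgt v.1 : ℝ) ≤ N := by exact_mod_cast le_trans (dir_hgt v.2) hDN
  have hN0 : 0 < (N : ℝ) := lt_of_lt_of_le hg hgN
  have hs0 : (3 : ℝ) ≤ s := by exact_mod_cast hs
  have hgs : (s : ℝ) + 1 ≤ hgt v.1 := by exact_mod_cast hv
  have hNs : (12 : ℝ) * s ≤ N := by exact_mod_cast hN
  have hm := gen_le (s := s) (c₁ := c₁) hn h hD v l
  have hb0 : 0 ≤ 6 / 5 * (1 / (hgt v.1 : ℝ) + 1 / (N : ℝ)) := by positivity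
  have h1 : t * (gsys s c₁ n D N h hD).mass v l ≤ s * (6 / 5 * (1 / (hgt v.1 : ℝ) + 1 / (N : ℝ))) :=
    le_trans (mul_le_mul_of_nonneg_left hm ht0) (mul_le_mul_of_nonneg_right ht hb0)
  have h2 : s * (1 / (hgt v.1 : ℝ)) ≤ 1 := by
    rw [mul_one_div, div_le_one hg]
    linarith
  have h3 : s * (1 / (N : ℝ)) ≤ 1 / 12 := by
    rw [mul_one_div, div_le_iff₀ hN0]
    linarith
  have h4 : 1 / (N : ℝ) ≤ 1 / (hgt v.1 : ℝ) := one_div_le_one_div_of_le hg hgN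
  constructor
  · refine le_trans h1 ?_
    nlinarith
  · refine le_trans h1 ?_
    have h5 : (12 / 5 * s / hgt v.1 : ℝ) = s * (6 / 5 * (1 / (hgt v.1 : ℝ) + 1 / (hgt v.1 : ℝ))) := by
      field_simp
      ring
    rw [h5]
    refine mul_le_mul_of_nonneg_left ?_ (by linarith)
    linarith

theorem mass_cond (hs : 3 ≤ s) (hc : 5 * s ≤ 6 * c₁) {ε₀ : ℝ} (hε : 0 < ε₀) (hε1 : ε₀ ≤ 1)
    (hn : 1 ≤ n) (h : 4 * n ≤ N) (hD : 1 ≤ D) (hDN : D ≤ N) (hN : 12 * s ≤ N)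
    (v : {v : ℤ × ℤ // v ∈ Dir D}) (l : ℤ) :
    ((s : ℝ) - ε₀) * (gsys s c₁ n D N h hD).mass v l ≤
      (1 - ε₀ / (25 * s)) * (gsys s c₁ n D N h hD).cap v := by
  have hs0 : (3 : ℝ) ≤ s := by exact_mod_cast hs
  have hNs : (12 : ℝ) * s ≤ N := by exact_mod_cast hN
  have hN0 : 0 < (N : ℝ) := by linarith
  have ht0 : 0 ≤ (s : ℝ) - ε₀ := by linarith
  have h4 : (4 : ℝ) * n ≤ N := by exact_mod_cast h
  have h4N : 4 * n / (N : ℝ) ≤ 1 := by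
    rw [div_le_one hN0]
    exact h4
  have h4N0 : 0 ≤ 4 * n / (N : ℝ) := by positivity
  have hcR : (5 : ℝ) * s ≤ 6 * c₁ := by exact_mod_cast hc
  have hφ : ε₀ / (25 * s) ≤ 1 / 25 := by
    rw [div_le_iff₀ (by linarith)]
    nlinarith
  have hcap : (gsys s c₁ n D N h hD).cap v = capf s c₁ v.1 := rfl
  have hc0 : (0 : ℝ) ≤ c₁ := Nat.cast_nonneg _
  rw [hcap]
  unfold capf
  by_cases hax : v.1.1 = 0 ∨ v.1.2 = 0
  · rw [if_pos hax]
    have hm := mass_axis (s := s) (c₁ := c₁) hn h hD v l hax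
    have h5 : ((s : ℝ) - ε₀) * (gsys s c₁ n D N h hD).mass v l ≤ ((s : ℝ) - ε₀) * 1 :=
      mul_le_mul_of_nonneg_left (le_trans hm h4N) ht0
    have h6 : (1 - ε₀ / (25 * s)) * (s : ℝ) = s - ε₀ / 25 := by
      field_simp
    rw [h6]
    linarith
  rw [if_neg hax]
  have hmain : ∀ K : ℝ, 0 ≤ K → (gsys s c₁ n D N h hD).mass v l ≤ 4 / 5 →
      (4 / 5 : ℝ) * s ≤ 24 / 25 * K →
      ((s : ℝ) - ε₀) * (gsys s c₁ n D N h hD).mass v l ≤ (1 - ε₀ / (25 * s)) * K := by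
    intro K hK0 hm hK
    have h5 : ((s : ℝ) - ε₀) * (gsys s c₁ n D N h hD).mass v l ≤ ((s : ℝ) - ε₀) * (4 / 5) :=
      mul_le_mul_of_nonneg_left hm ht0
    have h6 : 24 / 25 * K ≤ (1 - ε₀ / (25 * s)) * K :=
      mul_le_mul_of_nonneg_right (by linarith) hK0
    linarith
  by_cases hh : hgt v.1 ≤ s
  · rw [if_pos hh]
    refine hmain c₁ hc0 ?_ (by linarith)
    by_cases h1 : hgt v.1 ≤ 1
    · have hdir := v.2
      unfold Dir at hdir
      rw [mem_filter, mem_product, mem_Icc, mem_Icc] at hdir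
      have hv : v.1 = (1, 1) ∨ v.1 = (1, -1) := by
        unfold hgt at h1
        have ha := le_trans (le_max_left _ _) h1
        have hb := le_trans (le_max_right _ _) h1
        have h10 := hdir.1.1.1
        have ha2 : v.1.1 = 1 := by omega
        have hb2 : v.1.2 = 1 ∨ v.1.2 = -1 := by omega
        rcases hb2 with hb3 | hb3
        · exact Or.inl (Prod.ext ha2 hb3)
        · exact Or.inr (Prod.ext ha2 hb3)
      refine le_trans (mass_diag (s := s) (c₁ := c₁) hn h hD v l hv) ?_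
      linarith
    · have hg2 : (2 : ℝ) ≤ hgt v.1 := by exact_mod_cast (by omega : 2 ≤ hgt v.1)
      refine le_trans (gen_le hn h hD v l) ?_
      have h7 : 1 / (hgt v.1 : ℝ) ≤ 1 / 2 := one_div_le_one_div_of_le (by norm_num) hg2
      have h8 : 1 / (N : ℝ) ≤ 1 / 36 := one_div_le_one_div_of_le (by norm_num) (by linarith)
      linarith
  · rw [if_neg hh]
    have hf := (far_mass (c₁ := c₁) hs ht0 (by linarith) hn h hD hDN hN v l (by omega)).1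
    refine le_trans hf ?_
    push_cast
    linarith

end Pool.Agent.NKL
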