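import Pool.Agent.NKL.GAM
import Pool.Agent.NKL.EDefs

set_option autoImplicit false

/-!
# NKL / GMI : the weighted estimator (copy of GAM)

The same proofs as in `GAM.lean` with the weights `w x ≥ 0` and index type `I`.
-/

namespace Pool.Agent.NKL

open Finset Pool.Agent.ChPi

variable {α V Λ : Type} [Fintype α] [DecidableEq α] [Fintype V] [DecidableEq V] [DecidableEq Λ]
  {N : ℕ} {Y : Sys α V Λ N} {S : Finset α} {π : α → ℝ} {κ ρ : ℝ} {I : Type}

theorem gami_nonneg (C : Finset I) (A : I → Finset α) (w : I → ℝ) (hw : ∀ x ∈ C, 0 ≤ w x) {k : ℝ}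
    (hk : 0 ≤ k) (S : Finset α) : 0 ≤ GamI C A w k S := by
  unfold GamI
  exact Finset.sum_nonneg fun x hx => mul_nonneg (hw x hx) (pow_nonneg hk _)

theorem gami_step (h : Y.Adm S π κ ρ) (C : Finset I) (A : I → Finset α) (w : I → ℝ)
    (hw : ∀ x ∈ C, 0 ≤ w x) {k : ℝ} (hk : 0 ≤ k) (hk1 : k ≤ 1) :
    Ex (Y.law π) (fun ω => GamI C A w k (Y.nxt S ω)) ≤ GamI C A w (k + κ) S := by
  classical
  have hstep : ∀ (A : Finset α) (ω : Fin N → Option α),
      k ^ (A \ Y.nxt S ω).card ≤ ∏ q ∈ A \ S, (if q ∈ Y.props ω then (1 : ℝ) else k) := by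
    intro A ω
    have h1 : ∏ q ∈ A \ S, (if q ∈ Y.props ω then (1 : ℝ) else k)
        = k ^ ((A \ S).filter fun q => q ∉ Y.props ω).card := by
      rw [Finset.prod_ite, Finset.prod_const_one, one_mul, Finset.prod_const]
    rw [h1]
    apply pow_le_pow_of_le_one hk hk1
    apply Finset.card_le_card
    intro q hq
    rw [Finset.mem_filter, Finset.mem_sdiff] at hq
    rw [Finset.mem_sdiff]
    refine ⟨hq.1.1, fun hn => ?_⟩
    unfold Sys.nxt at hn
    rcases Finset.mem_union.mp hn with h2 | h2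
    · exact hq.1.2 h2
    · unfold Sys.acc at h2
      exact hq.2 (Finset.mem_filter.mp h2).1
  unfold GamI
  rw [L.Ex_sum (Y.law π) C (fun x ω => w x * k ^ (A x \ Y.nxt S ω).card)]
  refine Finset.sum_le_sum fun x hx => ?_
  rw [L.Ex_mul_left]
  refine mul_le_mul_of_nonneg_left ?_ (hw x hx)
  calc Ex (Y.law π) (fun ω => k ^ (A x \ Y.nxt S ω).card)
      ≤ Ex (Y.law π) (fun ω => ∏ q ∈ A x \ S, (if q ∈ Y.props ω then (1 : ℝ) else k)) :=
        L.Ex_mono (fun x o => law_nonneg h x o) (hstep (A x))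
    _ ≤ ∏ q ∈ A x \ S, (π q + k) := Ex_prodk h _ hk
    _ ≤ ∏ _q ∈ A x \ S, (k + κ) := by
        refine Finset.prod_le_prod (fun q _ => ?_) (fun q _ => ?_)
        · have := h.nonneg q
          linarith
        · have := h.le q
          linarith
    _ = (k + κ) ^ (A x \ S).card := by rw [Finset.prod_const]

theorem gami_zero (C : Finset I) (A : I → Finset α) (w : I → ℝ) (S : Finset α) :
    GamI C A w 0 S = ∑ x ∈ C.filter (fun x => A x ⊆ S), w x := by
  classical
  unfold GamI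
  rw [Finset.sum_filter]
  refine Finset.sum_congr rfl fun x _ => ?_
  by_cases hA : A x ⊆ S
  · rw [if_pos hA, Finset.sdiff_eq_empty_iff_subset.mpr hA]
    simp
  · rw [if_neg hA]
    have : (A x \ S).card ≠ 0 := by
      intro h0
      rw [Finset.card_eq_zero] at h0
      exact hA (Finset.sdiff_eq_empty_iff_subset.mp h0)
    rw [zero_pow this, mul_zero]

theorem gami_start (C : Finset I) (A : I → Finset α) (w : I → ℝ) (k : ℝ) :
    GamI C A w k ∅ = ∑ x ∈ C, w x * k ^ (A x).card := by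
  unfold GamI
  refine Finset.sum_congr rfl fun x _ => ?_
  rw [Finset.sdiff_empty]

end Pool.Agent.NKL
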