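import Pool.Agent.NKL.Defs

set_option autoImplicit false

/-!
# NKL / GOO : existence of a good outcome
-/

namespace Pool.Agent.NKL

open Finset Pool.Agent.ChPi

theorem goo {V Ω K : Type} [Fintype V] [DecidableEq V] [Fintype Ω] (p : V → Ω → ℝ)
    (hp0 : ∀ v o, 0 ≤ p v o) (hp1 : ∀ v, ∑ o, p v o = 1) (T : Finset K)
    (g : K → (V → Ω) → ℝ) (lam : K → ℝ) {δ : ℝ} (hδ1 : δ < 1)
    (hT : ∑ k ∈ T, Pr p (fun ω => lam k < |g k ω - Ex p (g k)|) ≤ δ)
    (h : (V → Ω) → ℝ) (hh : ∀ ω, 0 ≤ h ω) :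
    ∃ ω, 0 < wt p ω ∧ (∀ k ∈ T, |g k ω - Ex p (g k)| ≤ lam k) ∧ (1 - δ) * h ω ≤ Ex p h := by
  classical
  by_contra H
  push Not at H
  set χ : (V → Ω) → ℝ := fun ω => if ∀ k ∈ T, |g k ω - Ex p (g k)| ≤ lam k then 1 else 0 with hχ
  have hχ0 : ∀ ω, 0 ≤ χ ω := fun ω => by
    simp only [hχ]
    split_ifs <;> norm_num
  have hχ1 : ∀ ω, χ ω ≤ 1 := fun ω => by
    simp only [hχ]
    split_ifs <;> norm_num
  -- the union bound
  have h1 : 1 - δ ≤ Ex p χ := by
    have e1 : (1 : ℝ) = Ex p (fun _ => (1 : ℝ)) := (L.Ex_const hp1 1).symm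
    have e2 : Ex p (fun _ => (1 : ℝ)) ≤ Ex p (fun ω => χ ω +
        ∑ k ∈ T, (if lam k < |g k ω - Ex p (g k)| then (1 : ℝ) else 0)) := by
      refine L.Ex_mono hp0 fun ω => ?_
      by_cases hω : ∀ k ∈ T, |g k ω - Ex p (g k)| ≤ lam k
      · have : χ ω = 1 := by simp only [hχ]; rw [if_pos hω]
        rw [this]
        have : 0 ≤ ∑ k ∈ T, (if lam k < |g k ω - Ex p (g k)| then (1 : ℝ) else 0) :=
          Finset.sum_nonneg fun k _ => by split_ifs <;> norm_num
        linarith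
      · push Not at hω
        obtain ⟨k, hk, hlt⟩ := hω
        have h2 : (1 : ℝ) ≤ ∑ k ∈ T, (if lam k < |g k ω - Ex p (g k)| then (1 : ℝ) else 0) := by
          have h3 := Finset.single_le_sum (f := fun k => (if lam k < |g k ω - Ex p (g k)| then (1 : ℝ)
            else 0)) (fun k _ => by split_ifs <;> norm_num) hk
          simp only [if_pos hlt] at h3
          exact h3
        linarith [hχ0 ω]
    rw [L.Ex_add, L.Ex_sum] at e2
    have e3 : ∑ k ∈ T, Ex p (fun ω => (if lam k < |g k ω - Ex p (g k)| then (1 : ℝ) else 0)) =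
        ∑ k ∈ T, Pr p (fun ω => lam k < |g k ω - Ex p (g k)|) := by
      refine Finset.sum_congr rfl fun k _ => ?_
      unfold Pr
      congr 1
    rw [e3] at e2
    linarith
  have hM : 0 ≤ Ex p h := L.Ex_nonneg hp0 hh
  -- there is an outcome in the event
  obtain ⟨ω0, hw0, hE0⟩ : ∃ ω, 0 < wt p ω ∧ ∀ k ∈ T, |g k ω - Ex p (g k)| ≤ lam k := by
    by_contra hno
    push Not at hno
    have : Ex p χ = 0 := by
      unfold Ex
      refine Finset.sum_eq_zero fun ω _ => ?_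
      rcases (L.wt_nonneg hp0 ω).lt_or_eq with hw | hw
      · obtain ⟨k, hk, hlt⟩ := hno ω hw
        have : χ ω = 0 := by
          simp only [hχ]
          rw [if_neg]
          intro hall
          exact absurd (hall k hk) (not_le.2 hlt)
        rw [this, mul_zero]
      · rw [← hw, zero_mul]
    linarith
  have h2 : Ex p (fun ω => χ ω * Ex p h) < Ex p (fun ω => (1 - δ) * h ω) := by
    show ∑ ω, wt p ω * (χ ω * Ex p h) < ∑ ω, wt p ω * ((1 - δ) * h ω)
    refine Finset.sum_lt_sum (fun ω _ => ?_) ⟨ω0, Finset.mem_univ _, ?_⟩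
    · rcases (L.wt_nonneg hp0 ω).lt_or_eq with hw | hw
      · by_cases hω : ∀ k ∈ T, |g k ω - Ex p (g k)| ≤ lam k
        · have e1 : χ ω = 1 := by simp only [hχ]; rw [if_pos hω]
          rw [e1, one_mul]
          exact mul_le_mul_of_nonneg_left (H ω hw hω).le hw.le
        · have e1 : χ ω = 0 := by simp only [hχ]; rw [if_neg hω]
          rw [e1, zero_mul, mul_zero]
          exact mul_nonneg hw.le (mul_nonneg (by linarith) (hh ω))
      · rw [← hw, zero_mul, zero_mul]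
    · have e1 : χ ω0 = 1 := by simp only [hχ]; rw [if_pos hE0]
      rw [e1, one_mul]
      exact mul_lt_mul_of_pos_left (H ω0 hw0 hE0) hw0
  rw [L.Ex_mul_right, L.Ex_mul_left] at h2
  have h3 : (1 - δ) * Ex p h ≤ Ex p χ * Ex p h := mul_le_mul_of_nonneg_right h1 hM
  linarith

end Pool.Agent.NKL
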