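import Pool.Agent.NKL.ACC

set_option autoImplicit false

/-!
# NKL / ITA : the value of an item after one round (pointwise)
-/

namespace Pool.Agent.NKL

open Finset

variable {α V Λ : Type} [Fintype α] [DecidableEq α] [Fintype V] [DecidableEq V] [DecidableEq Λ]
  {N : ℕ}

private theorem prod_bd {ι : Type} (B : Finset ι) (F : ι → ℝ) {U : ℝ} (h0 : ∀ L ∈ B, 0 ≤ F L)
    (h1 : ∀ L ∈ B, F L ≤ U) : 0 ≤ ∏ L ∈ B, F L ∧ ∏ L ∈ B, F L ≤ U ^ B.card := by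
  refine ⟨Finset.prod_nonneg h0, ?_⟩
  calc ∏ L ∈ B, F L ≤ ∏ _L ∈ B, U := Finset.prod_le_prod h0 h1
    _ = U ^ B.card := Finset.prod_const U

private theorem cnt_same (Y : Sys α V Λ N) (S X : Finset α) (v : V) (l : Λ)
    (h : Y.cnt X v l = 0) : Y.cnt (S ∪ Y.acc S X) v l = Y.cnt S v l := by
  have h1 := cnt_union_le Y S (Y.acc S X) v l
  have h2 := cnt_mono Y (acc_sub Y S X) v l
  have h3 := cnt_mono Y (Finset.subset_union_left (s₁ := S) (s₂ := Y.acc S X)) v l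
  omega

theorem ita (Y : Sys α V Λ N) (S X : Finset α) (B : Finset (V × Λ)) (G : V × Λ → ℕ → ℝ) {U : ℝ}
    (hU : 1 ≤ U) (hG0 : ∀ L ∈ B, ∀ j, 0 ≤ G L j) (hG1 : ∀ L ∈ B, ∀ j, G L j ≤ U) :
    |(∏ L ∈ B, G L (Y.cnt (S ∪ Y.acc S X) L.1 L.2))
      - ((∏ L ∈ B, G L (Y.cnt S L.1 L.2)) * (1 - ∑ L ∈ B, (Y.cnt X L.1 L.2 : ℝ))
        + ∑ L ∈ B, (Y.cnt X L.1 L.2 : ℝ) *
          (G L (Y.cnt S L.1 L.2 + 1) * ∏ L' ∈ B.erase L, G L' (Y.cnt S L'.1 L'.2)))|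
    ≤ U ^ B.card * (2 * ((∑ L ∈ B, (Y.cnt X L.1 L.2 : ℝ)) * ((∑ L ∈ B, (Y.cnt X L.1 L.2 : ℝ)) - 1))
        + 2 * ∑ L ∈ B, ∑ q ∈ Y.cells L.1 L.2,
          (if q ∈ X ∧ (q ∉ Y.acc S X ∨ q ∈ S) then (1 : ℝ) else 0)) := by
  have hU0 : 0 ≤ U := by linarith
  have hW : 0 ≤ U ^ B.card := pow_nonneg hU0 _
  have hP := prod_bd B (fun L => G L (Y.cnt S L.1 L.2)) (fun L hL => hG0 L hL _)
    (fun L hL => hG1 L hL _)
  have hZ := prod_bd B (fun L => G L (Y.cnt (S ∪ Y.acc S X) L.1 L.2)) (fun L hL => hG0 L hL _)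
    (fun L hL => hG1 L hL _)
  have hQ : ∀ L ∈ B, 0 ≤ G L (Y.cnt S L.1 L.2 + 1) * ∏ L' ∈ B.erase L, G L' (Y.cnt S L'.1 L'.2) ∧
      G L (Y.cnt S L.1 L.2 + 1) * ∏ L' ∈ B.erase L, G L' (Y.cnt S L'.1 L'.2) ≤ U ^ B.card := by
    intro L hL
    have h1 := prod_bd (B.erase L) (fun L => G L (Y.cnt S L.1 L.2))
      (fun L hL => hG0 L (Finset.mem_of_mem_erase hL) _)
      (fun L hL => hG1 L (Finset.mem_of_mem_erase hL) _)
    refine ⟨mul_nonneg (hG0 L hL _) h1.1, ?_⟩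
    rw [← Finset.card_erase_add_one hL, pow_succ, mul_comm (U ^ _)]
    exact mul_le_mul (hG1 L hL _) h1.2 h1.1 hU0
  have hR : 0 ≤ ∑ L ∈ B, ∑ q ∈ Y.cells L.1 L.2,
      (if q ∈ X ∧ (q ∉ Y.acc S X ∨ q ∈ S) then (1 : ℝ) else 0) :=
    Finset.sum_nonneg fun L _ => Finset.sum_nonneg fun q _ => by split_ifs <;> norm_num
  have hK : (∑ L ∈ B, (Y.cnt X L.1 L.2 : ℝ)) = ((∑ L ∈ B, Y.cnt X L.1 L.2 : ℕ) : ℝ) := by
    push_cast
    rfl
  rcases Nat.lt_trichotomy (∑ L ∈ B, Y.cnt X L.1 L.2) 1 with h | h | h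
  · -- no proposal on the lines of `B`
    have h0 : ∑ L ∈ B, Y.cnt X L.1 L.2 = 0 := by omega
    have h1 : ∀ L ∈ B, Y.cnt X L.1 L.2 = 0 := fun L hL => (Finset.sum_eq_zero_iff.1 h0) L hL
    have h2 : ∏ L ∈ B, G L (Y.cnt (S ∪ Y.acc S X) L.1 L.2) = ∏ L ∈ B, G L (Y.cnt S L.1 L.2) :=
      Finset.prod_congr rfl fun L hL => by rw [cnt_same Y S X _ _ (h1 L hL)]
    have h3 : ∑ L ∈ B, (Y.cnt X L.1 L.2 : ℝ) *
          (G L (Y.cnt S L.1 L.2 + 1) * ∏ L' ∈ B.erase L, G L' (Y.cnt S L'.1 L'.2)) = 0 :=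
      Finset.sum_eq_zero fun L hL => by rw [h1 L hL]; simp
    rw [h2, h3, hK, h0]
    simp only [Nat.cast_zero, sub_zero, mul_one, add_zero, sub_self, abs_zero]
    refine mul_nonneg hW ?_
    linarith
  · -- one proposal
    obtain ⟨L0, hL0, hne⟩ := Finset.exists_ne_zero_of_sum_ne_zero
      (show ∑ L ∈ B, Y.cnt X L.1 L.2 ≠ 0 by omega)
    have hs := Finset.add_sum_erase B (fun L => Y.cnt X L.1 L.2) hL0
    rw [h] at hs
    have hc1 : Y.cnt X L0.1 L0.2 = 1 := by omega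
    have hc0 : ∑ L ∈ B.erase L0, Y.cnt X L.1 L.2 = 0 := by omega
    have h1 : ∀ L ∈ B.erase L0, Y.cnt X L.1 L.2 = 0 :=
      fun L hL => (Finset.sum_eq_zero_iff.1 hc0) L hL
    have h3 : ∑ L ∈ B, (Y.cnt X L.1 L.2 : ℝ) *
          (G L (Y.cnt S L.1 L.2 + 1) * ∏ L' ∈ B.erase L, G L' (Y.cnt S L'.1 L'.2)) =
        G L0 (Y.cnt S L0.1 L0.2 + 1) * ∏ L' ∈ B.erase L0, G L' (Y.cnt S L'.1 L'.2) := by
      rw [← Finset.add_sum_erase B _ hL0, Finset.sum_eq_zero (s := B.erase L0), hc1]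
      · simp
      · intro L hL
        rw [h1 L hL]
        simp
    obtain ⟨q, hq⟩ := Finset.card_eq_one.1 hc1
    have hqm : q ∈ X ∧ Y.line L0.1 q = L0.2 := by
      have : q ∈ X.filter fun p => Y.line L0.1 p = L0.2 := by rw [hq]; exact Finset.mem_singleton_self _
      exact Finset.mem_filter.1 this
    by_cases hgood : q ∈ Y.acc S X ∧ q ∉ S
    · have hc : Y.cnt (S ∪ Y.acc S X) L0.1 L0.2 = Y.cnt S L0.1 L0.2 + 1 := by
        apply le_antisymm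
        · have e1 := cnt_union_le Y S (Y.acc S X) L0.1 L0.2
          have e2 := cnt_mono Y (acc_sub Y S X) L0.1 L0.2
          omega
        · have hsub : insert q (S.filter fun p => Y.line L0.1 p = L0.2) ⊆
              (S ∪ Y.acc S X).filter fun p => Y.line L0.1 p = L0.2 := by
            intro x hx
            rcases Finset.mem_insert.1 hx with rfl | hx
            · exact Finset.mem_filter.2 ⟨Finset.mem_union_right _ hgood.1, hqm.2⟩
            · have := Finset.mem_filter.1 hx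
              exact Finset.mem_filter.2 ⟨Finset.mem_union_left _ this.1, this.2⟩
          have e3 := Finset.card_le_card hsub
          rw [Finset.card_insert_of_notMem
            (fun hx => hgood.2 (Finset.mem_filter.1 hx).1)] at e3
          exact e3
      have h2 : ∏ L ∈ B, G L (Y.cnt (S ∪ Y.acc S X) L.1 L.2) =
          G L0 (Y.cnt S L0.1 L0.2 + 1) * ∏ L' ∈ B.erase L0, G L' (Y.cnt S L'.1 L'.2) := by
        rw [← Finset.mul_prod_erase B _ hL0, hc]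
        congr 1
        exact Finset.prod_congr rfl fun L hL => by rw [cnt_same Y S X _ _ (h1 L hL)]
      rw [h2, h3, hK, h]
      simp only [Nat.cast_one, sub_self, mul_zero, zero_add, abs_zero]
      refine mul_nonneg hW ?_
      linarith
    · have hbig : (1 : ℝ) ≤ ∑ L ∈ B, ∑ q ∈ Y.cells L.1 L.2,
          (if q ∈ X ∧ (q ∉ Y.acc S X ∨ q ∈ S) then (1 : ℝ) else 0) := by
        have hcond : q ∈ X ∧ (q ∉ Y.acc S X ∨ q ∈ S) := by
          refine ⟨hqm.1, ?_⟩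
          by_contra hc
          push Not at hc
          exact hgood hc
        have e1 := Finset.single_le_sum (f := fun L => ∑ q ∈ Y.cells L.1 L.2,
          (if q ∈ X ∧ (q ∉ Y.acc S X ∨ q ∈ S) then (1 : ℝ) else 0))
          (fun L _ => Finset.sum_nonneg fun q _ => by split_ifs <;> norm_num) hL0
        have e2 := Finset.single_le_sum (f := fun q =>
          (if q ∈ X ∧ (q ∉ Y.acc S X ∨ q ∈ S) then (1 : ℝ) else 0))
          (s := Y.cells L0.1 L0.2) (fun q _ => by split_ifs <;> norm_num)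
          (show q ∈ Y.cells L0.1 L0.2 from Finset.mem_filter.2 ⟨Finset.mem_univ _, hqm.2⟩)
        simp only [if_pos hcond] at e2
        exact e2.trans e1
      have hb : |(∏ L ∈ B, G L (Y.cnt (S ∪ Y.acc S X) L.1 L.2)) -
          G L0 (Y.cnt S L0.1 L0.2 + 1) * ∏ L' ∈ B.erase L0, G L' (Y.cnt S L'.1 L'.2)| ≤
          U ^ B.card := by
        have := hQ L0 hL0
        rw [abs_le]
        constructor
        · linarith [hZ.1]
        · linarith [hZ.2]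
      rw [h3, hK, h]
      simp only [Nat.cast_one, sub_self, mul_zero, zero_add]
      refine hb.trans ?_
      nlinarith
  · -- several proposals
    have hK2 : (2 : ℝ) ≤ ((∑ L ∈ B, Y.cnt X L.1 L.2 : ℕ) : ℝ) := by exact_mod_cast h
    have hS0 : 0 ≤ ∑ L ∈ B, (Y.cnt X L.1 L.2 : ℝ) *
          (G L (Y.cnt S L.1 L.2 + 1) * ∏ L' ∈ B.erase L, G L' (Y.cnt S L'.1 L'.2)) :=
      Finset.sum_nonneg fun L hL => mul_nonneg (Nat.cast_nonneg _) (hQ L hL).1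
    have hS1 : ∑ L ∈ B, (Y.cnt X L.1 L.2 : ℝ) *
          (G L (Y.cnt S L.1 L.2 + 1) * ∏ L' ∈ B.erase L, G L' (Y.cnt S L'.1 L'.2)) ≤
        ((∑ L ∈ B, Y.cnt X L.1 L.2 : ℕ) : ℝ) * U ^ B.card := by
      rw [← hK, Finset.sum_mul]
      exact Finset.sum_le_sum fun L hL =>
        mul_le_mul_of_nonneg_left (hQ L hL).2 (Nat.cast_nonneg _)
    rw [hK]
    generalize hk : ((∑ L ∈ B, Y.cnt X L.1 L.2 : ℕ) : ℝ) = K at *
    generalize (∑ L ∈ B, (Y.cnt X L.1 L.2 : ℝ) *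
          (G L (Y.cnt S L.1 L.2 + 1) * ∏ L' ∈ B.erase L, G L' (Y.cnt S L'.1 L'.2))) = Q at *
    generalize (∏ L ∈ B, G L (Y.cnt S L.1 L.2)) = P at *
    generalize (∏ L ∈ B, G L (Y.cnt (S ∪ Y.acc S X) L.1 L.2)) = Z at *
    generalize U ^ B.card = W at *
    generalize (∑ L ∈ B, ∑ q ∈ Y.cells L.1 L.2,
      (if q ∈ X ∧ (q ∉ Y.acc S X ∨ q ∈ S) then (1 : ℝ) else 0)) = R at *
    have e1 : W * K ≤ W * (2 * (K * (K - 1))) := by
      apply mul_le_mul_of_nonneg_left _ hW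
      nlinarith
    have e2 : 0 ≤ W * (2 * R) := mul_nonneg hW (by linarith)
    have e3 : 0 ≤ P * (K - 1) := mul_nonneg hP.1 (by linarith)
    have e4 : P * (K - 1) ≤ W * (K - 1) := mul_le_mul_of_nonneg_right hP.2 (by linarith)
    have e5 : W * (2 * (K * (K - 1)) + 2 * R) = W * (2 * (K * (K - 1))) + W * (2 * R) := by ring
    rw [e5, abs_le]
    constructor
    · nlinarith [hZ.1]
    · nlinarith [hZ.2]

end Pool.Agent.NKL
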