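import Pool.Agent.NKL.K3D
import Pool.Agent.NKL.GD2

set_option autoImplicit false

/-!
# NKL / K3A : small grids, `s ≤ N ≤ 3s/2`

Let `d = N - s`; `3 d ≤ N`, `m = N - 2d ≥ d`.  `T = grid N \ U`, where `U` has exactly `d` points in every row
and column:
* `B₁ = [0,d) × [0,d)`;
* `B₂ = [d,2d) × [N-2d, N-d)`;
* for `x = 2d + i`, `0 ≤ i < m`: the points `(x, γ j)` with `j - i mod m < d`, `0 ≤ j < m`, where
  `γ : [0,m) → [d, N-2d) ∪ [N-d, N)` is the increasing bijection (`γ j = d + j` if `j < N - 3d`, else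
  `γ j = 2d + j`).
Skew lines: `v = ±(1,1)`: `y = x + c`.  If `|c| ≥ d` there are `N - |c| ≤ s` grid points; if `|c| < d` there
are `N - |c|`, and `d - |c|` of them are in `B₁`.  `v = ±(1,-1)`: `x + y = N - 1 + c`: the same with `B₂`:
`(d + i, N - 2d + j)` with `i + j = d - 1 + c`, `d - |c|` points.  `hgt v ≥ 2`: at most
`(N-1)/2 + 1 ≤ s` grid points (`line_card_gen`; `2 N ≤ 3 s`, for `s = 1` there is nothing: `N = 1`).
-/

namespace Pool.Agent.NKL

open Finset

private def k3g (d N y : ℤ) : ℤ := if y < N - 2 * d then y - d else y - 2 * d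

private def k3f (d N j : ℤ) : ℤ := if j < N - 3 * d then d + j else 2 * d + j

private def k3U (d N x y : ℤ) : Prop :=
  (x < d ∧ y < d) ∨ (d ≤ x ∧ x < 2 * d ∧ N - 2 * d ≤ y ∧ y < N - d) ∨
    (2 * d ≤ x ∧ ((d ≤ y ∧ y < N - 2 * d) ∨ N - d ≤ y) ∧
      (k3g d N y - (x - 2 * d)) % (N - 2 * d) < d)

private theorem k3gf {d N j : ℤ} (_hd : 0 ≤ d) : k3g d N (k3f d N j) = j := by
  unfold k3g k3f
  split_ifs <;> omega

private theorem k3fg {d N y : ℤ} (_hd : 0 ≤ d) (h : (d ≤ y ∧ y < N - 2 * d) ∨ N - d ≤ y) :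
    k3f d N (k3g d N y) = y := by
  unfold k3g k3f
  split_ifs <;> omega

private theorem k3g_rg {d N y : ℤ} (hd : 0 ≤ d) (hN : 3 * d ≤ N)
    (h : (d ≤ y ∧ y < N - 2 * d) ∨ N - d ≤ y) (hy : y < N) :
    0 ≤ k3g d N y ∧ k3g d N y < N - 2 * d := by
  unfold k3g
  split_ifs <;> omega

private theorem k3f_rg {d N j : ℤ} (hd : 0 ≤ d) (hN : 3 * d ≤ N) (hj : 0 ≤ j)
    (hj' : j < N - 2 * d) :
    ((d ≤ k3f d N j ∧ k3f d N j < N - 2 * d) ∨ N - d ≤ k3f d N j) ∧ 0 ≤ k3f d N j ∧
      k3f d N j < N := by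
  unfold k3f
  split_ifs <;> omega

open Classical in
private theorem k3_col {d N x : ℤ} (hd : 0 ≤ d) (hN : 3 * d ≤ N) (hN1 : 1 ≤ N) (hx : 0 ≤ x)
    (hxN : x < N) : ((Finset.Ico (0 : ℤ) N).filter fun y => k3U d N x y).card = d.toNat := by
  rcases lt_or_ge x d with h1 | h1
  · have h : ((Finset.Ico (0 : ℤ) N).filter fun y => k3U d N x y) = Finset.Ico 0 d := by
      ext y
      simp only [Finset.mem_filter, Finset.mem_Ico, k3U]
      constructor
      · rintro ⟨_, h | h | h⟩ <;> omega
      · intro h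
        exact ⟨by omega, Or.inl ⟨h1, h.2⟩⟩
    rw [h, Int.card_Ico]; simp
  rcases lt_or_ge x (2 * d) with h2 | h2
  · have h : ((Finset.Ico (0 : ℤ) N).filter fun y => k3U d N x y)
        = Finset.Ico (N - 2 * d) (N - d) := by
      ext y
      simp only [Finset.mem_filter, Finset.mem_Ico, k3U]
      constructor
      · rintro ⟨_, h | h | h⟩ <;> omega
      · intro h
        exact ⟨by omega, Or.inr (Or.inl ⟨h1, h2, h.1, h.2⟩)⟩
    rw [h, Int.card_Ico]; congr 1; ring
  · have hm : 0 < N - 2 * d := by omega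
    have hcard : (Finset.Ico (0 : ℤ) d).card = d.toNat := by rw [Int.card_Ico]; simp
    rw [← hcard]
    refine Finset.card_bij' (fun y _ => (k3g d N y - (x - 2 * d)) % (N - 2 * d))
      (fun t _ => k3f d N ((x - 2 * d + t) % (N - 2 * d))) ?_ ?_ ?_ ?_
    · intro y hy
      simp only [Finset.mem_filter, Finset.mem_Ico, k3U] at hy
      obtain ⟨hy1, h | h | h⟩ := hy
      · omega
      · omega
      · exact Finset.mem_Ico.2 ⟨Int.emod_nonneg _ hm.ne', h.2.2⟩
    · intro t ht
      rw [Finset.mem_Ico] at ht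
      have hj0 := Int.emod_nonneg (x - 2 * d + t) hm.ne'
      have hj1 := Int.emod_lt_of_pos (x - 2 * d + t) hm
      obtain ⟨ha, hb, hc⟩ := k3f_rg hd hN hj0 hj1
      refine Finset.mem_filter.2 ⟨Finset.mem_Ico.2 ⟨hb, hc⟩, Or.inr (Or.inr ⟨h2, ha, ?_⟩)⟩
      rw [k3gf hd, Int.emod_sub_emod, add_sub_cancel_left, Int.emod_eq_of_lt ht.1 (by omega)]
      exact ht.2
    · intro y hy
      simp only [Finset.mem_filter, Finset.mem_Ico, k3U] at hy
      obtain ⟨hy1, h | h | h⟩ := hy
      · omega
      · omega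
      · obtain ⟨e1, e2⟩ := k3g_rg hd hN h.2.1 hy1.2
        show k3f d N ((x - 2 * d + (k3g d N y - (x - 2 * d)) % (N - 2 * d)) % (N - 2 * d)) = y
        rw [Int.add_emod_emod, add_sub_cancel, Int.emod_eq_of_lt e1 e2, k3fg hd h.2.1]
    · intro t ht
      rw [Finset.mem_Ico] at ht
      show (k3g d N (k3f d N ((x - 2 * d + t) % (N - 2 * d))) - (x - 2 * d)) % (N - 2 * d) = t
      rw [k3gf hd, Int.emod_sub_emod, add_sub_cancel_left, Int.emod_eq_of_lt ht.1 (by omega)]

open Classical in
private theorem k3_row {d N y : ℤ} (hd : 0 ≤ d) (hN : 3 * d ≤ N) (hN1 : 1 ≤ N) (hy : 0 ≤ y)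
    (hyN : y < N) : ((Finset.Ico (0 : ℤ) N).filter fun x => k3U d N x y).card = d.toNat := by
  rcases lt_or_ge y d with h1 | h1
  · have h : ((Finset.Ico (0 : ℤ) N).filter fun x => k3U d N x y) = Finset.Ico 0 d := by
      ext x
      simp only [Finset.mem_filter, Finset.mem_Ico, k3U]
      constructor
      · rintro ⟨_, h | h | h⟩ <;> omega
      · intro h
        exact ⟨by omega, Or.inl ⟨h.2, h1⟩⟩
    rw [h, Int.card_Ico]; simp
  by_cases h2 : N - 2 * d ≤ y ∧ y < N - d
  · have h : ((Finset.Ico (0 : ℤ) N).filter fun x => k3U d N x y)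
        = Finset.Ico d (2 * d) := by
      ext x
      simp only [Finset.mem_filter, Finset.mem_Ico, k3U]
      constructor
      · rintro ⟨_, h | h | h⟩ <;> omega
      · intro h
        exact ⟨by omega, Or.inr (Or.inl ⟨h.1, h.2, h2.1, h2.2⟩)⟩
    rw [h, Int.card_Ico]; congr 1; ring
  · have h3 : (d ≤ y ∧ y < N - 2 * d) ∨ N - d ≤ y := by omega
    have hm : 0 < N - 2 * d := by omega
    have hcard : (Finset.Ico (0 : ℤ) d).card = d.toNat := by rw [Int.card_Ico]; simp
    rw [← hcard]
    obtain ⟨e1, e2⟩ := k3g_rg hd hN h3 hyN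
    have hsw : ∀ x : ℤ, 2 * d ≤ x → x < N →
        (k3g d N y - (k3g d N y - (x - 2 * d)) % (N - 2 * d)) % (N - 2 * d) + 2 * d = x := by
      intro x hx hxN
      rw [Int.sub_emod_emod, sub_sub_cancel, Int.emod_eq_of_lt (by omega) (by omega)]
      ring
    refine Finset.card_bij' (fun x _ => (k3g d N y - (x - 2 * d)) % (N - 2 * d))
      (fun t _ => (k3g d N y - t) % (N - 2 * d) + 2 * d) ?_ ?_ ?_ ?_
    · intro x hx
      simp only [Finset.mem_filter, Finset.mem_Ico, k3U] at hx
      obtain ⟨hx1, h | h | h⟩ := hx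
      · omega
      · omega
      · exact Finset.mem_Ico.2 ⟨Int.emod_nonneg _ hm.ne', h.2.2⟩
    · intro t ht
      rw [Finset.mem_Ico] at ht
      have hj0 := Int.emod_nonneg (k3g d N y - t) hm.ne'
      have hj1 := Int.emod_lt_of_pos (k3g d N y - t) hm
      refine Finset.mem_filter.2 ⟨Finset.mem_Ico.2 ⟨by omega, by omega⟩,
        Or.inr (Or.inr ⟨by omega, h3, ?_⟩)⟩
      rw [add_sub_cancel_right, Int.sub_emod_emod, sub_sub_cancel,
        Int.emod_eq_of_lt ht.1 (by omega)]
      exact ht.2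
    · intro x hx
      simp only [Finset.mem_filter, Finset.mem_Ico, k3U] at hx
      obtain ⟨hx1, h | h | h⟩ := hx
      · omega
      · omega
      · exact hsw x h.1 hx1.2
    · intro t ht
      rw [Finset.mem_Ico] at ht
      show (k3g d N y - ((k3g d N y - t) % (N - 2 * d) + 2 * d - 2 * d)) % (N - 2 * d) = t
      rw [add_sub_cancel_right, Int.sub_emod_emod, sub_sub_cancel,
        Int.emod_eq_of_lt ht.1 (by omega)]

theorem small_grid {s N : ℕ} (hs : 1 ≤ s) (h1 : s ≤ N) (h2 : 2 * N ≤ 3 * s) :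
    ∃ T, Exact s N T := by
  classical
  obtain ⟨d, rfl⟩ := Nat.exists_eq_add_of_le h1
  have hd : (0 : ℤ) ≤ d := Int.natCast_nonneg d
  have hN : 3 * (d : ℤ) ≤ ((s + d : ℕ) : ℤ) := by push_cast; omega
  have hN1 : (1 : ℤ) ≤ ((s + d : ℕ) : ℤ) := by push_cast; omega
  refine ⟨(grid (s + d)).filter fun p => ¬ k3U d ((s + d : ℕ) : ℤ) p.1 p.2,
    Finset.filter_subset _ _, ?_, ?_, ?_⟩
  · intro x hx hxN
    have h := k3_col hd hN hN1 hx hxN
    have h' := Finset.card_filter_add_card_filter_not (s := Finset.Ico (0 : ℤ) ((s + d : ℕ) : ℤ))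
      (fun y => k3U d ((s + d : ℕ) : ℤ) x y)
    rw [h, Int.card_Ico] at h'
    have h3 : (((grid (s + d)).filter fun p => ¬ k3U d ((s + d : ℕ) : ℤ) p.1 p.2).filter
        fun p => p.1 = x).card
        = ((Finset.Ico (0 : ℤ) ((s + d : ℕ) : ℤ)).filter
            fun y => ¬ k3U d ((s + d : ℕ) : ℤ) x y).card := by
      refine Finset.card_bij' (fun p _ => p.2) (fun y _ => (x, y)) ?_ ?_ ?_ ?_
      · intro p hp
        simp only [Finset.mem_filter, grid, Finset.mem_product] at hp
        obtain ⟨⟨⟨_, ha⟩, hb⟩, hc⟩ := hp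
        subst hc
        exact Finset.mem_filter.2 ⟨ha, hb⟩
      · intro y hy
        rw [Finset.mem_filter] at hy
        simp only [Finset.mem_filter, grid, Finset.mem_product]
        exact ⟨⟨⟨Finset.mem_Ico.2 ⟨hx, hxN⟩, hy.1⟩, hy.2⟩, trivial⟩
      · intro p hp
        rw [Finset.mem_filter] at hp
        exact Prod.ext hp.2.symm rfl
      · intro y _
        rfl
    rw [h3]
    rw [sub_zero, Int.toNat_natCast, Int.toNat_natCast] at h'
    omega
  · intro y hy hyN
    have h := k3_row hd hN hN1 hy hyN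
    have h' := Finset.card_filter_add_card_filter_not (s := Finset.Ico (0 : ℤ) ((s + d : ℕ) : ℤ))
      (fun x => k3U d ((s + d : ℕ) : ℤ) x y)
    rw [h, Int.card_Ico] at h'
    have h3 : (((grid (s + d)).filter fun p => ¬ k3U d ((s + d : ℕ) : ℤ) p.1 p.2).filter
        fun p => p.2 = y).card
        = ((Finset.Ico (0 : ℤ) ((s + d : ℕ) : ℤ)).filter
            fun x => ¬ k3U d ((s + d : ℕ) : ℤ) x y).card := by
      refine Finset.card_bij' (fun p _ => p.1) (fun x _ => (x, y)) ?_ ?_ ?_ ?_
      · intro p hp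
        simp only [Finset.mem_filter, grid, Finset.mem_product] at hp
        obtain ⟨⟨⟨ha, _⟩, hb⟩, hc⟩ := hp
        subst hc
        exact Finset.mem_filter.2 ⟨ha, hb⟩
      · intro x hx
        rw [Finset.mem_filter] at hx
        simp only [Finset.mem_filter, grid, Finset.mem_product]
        exact ⟨⟨⟨hx.1, Finset.mem_Ico.2 ⟨hy, hyN⟩⟩, hx.2⟩, trivial⟩
      · intro p hp
        rw [Finset.mem_filter] at hp
        exact Prod.ext rfl hp.2.symm
      · intro x _
        rfl
    rw [h3]
    rw [sub_zero, Int.toNat_natCast, Int.toNat_natCast] at h'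
    omega
  · intro v hv l
    set A := ((grid (s + d)).filter fun p => ¬ k3U d ((s + d : ℕ) : ℤ) p.1 p.2).filter
      fun p => On v p = l with hA
    have hmem : ∀ p ∈ A, (0 ≤ p.1 ∧ p.1 < ((s + d : ℕ) : ℤ) ∧ 0 ≤ p.2 ∧
        p.2 < ((s + d : ℕ) : ℤ)) ∧ ¬ k3U d ((s + d : ℕ) : ℤ) p.1 p.2 ∧ On v p = l := by
      intro p hp
      simp only [hA, Finset.mem_filter, grid, Finset.mem_product, Finset.mem_Ico] at hp
      exact ⟨⟨hp.1.1.1.1, hp.1.1.1.2, hp.1.1.2.1, hp.1.1.2.2⟩, hp.1.2, hp.2⟩
    rcases Nat.lt_or_ge (hgt v) 2 with hh | hh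
    · have hp1 := hgt_pos hv.1
      have hh1 : hgt v = 1 := by omega
      have ha : v.1.natAbs ≤ 1 := by rw [← hh1]; exact le_max_left _ _
      have hb : v.2.natAbs ≤ 1 := by rw [← hh1]; exact le_max_right _ _
      have ha0 := hv.2.1
      have hb0 := hv.2.2
      have hinj : Set.InjOn Prod.fst (A : Set (ℤ × ℤ)) := by
        intro p hp q hq he
        have h3 := (hmem p hp).2.2.trans (hmem q hq).2.2.symm
        have he' : p.1 = q.1 := he
        unfold On at h3
        rw [he'] at h3
        have h4 : v.1 * (p.2 - q.2) = 0 := by linarith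
        rcases mul_eq_zero.1 h4 with h5 | h5
        · exact absurd h5 ha0
        · exact Prod.ext he' (by linarith)
      rw [← Finset.card_image_of_injOn hinj]
      have ha1 : v.1 = 1 ∨ v.1 = -1 := by omega
      have hb1 : v.2 = 1 ∨ v.2 = -1 := by omega
      by_cases hs1 : v.1 = v.2
      · -- slope one : p.2 = p.1 + c
        obtain ⟨c, hc⟩ : ∃ c : ℤ, ∀ p ∈ A, p.2 = p.1 + c := by
          rcases ha1 with h | h
          · refine ⟨-l, fun p hp => ?_⟩
            have h3 := (hmem p hp).2.2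
            unfold On at h3
            rw [← hs1, h] at h3
            linarith
          · refine ⟨l, fun p hp => ?_⟩
            have h3 := (hmem p hp).2.2
            unfold On at h3
            rw [← hs1, h] at h3
            linarith
        have hsub : A.image Prod.fst ⊆
            Finset.Ico ((d : ℤ) - max 0 c) (((s + d : ℕ) : ℤ) - max 0 c) := by
          intro x hx
          obtain ⟨p, hp, rfl⟩ := Finset.mem_image.1 hx
          obtain ⟨h3, h4, _⟩ := hmem p hp
          have h5 := hc p hp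
          rw [Finset.mem_Ico]
          have h6 : ¬ (p.1 < d ∧ p.2 < d) := fun h => h4 (Or.inl h)
          rcases le_total 0 c with h7 | h7
          · rw [max_eq_right h7]; omega
          · rw [max_eq_left h7]; omega
        refine (Finset.card_le_card hsub).trans ?_
        rw [Int.card_Ico]
        push_cast
        omega
      · -- slope minus one
        obtain ⟨c, hc⟩ : ∃ c : ℤ, ∀ p ∈ A, p.1 + p.2 = ((s + d : ℕ) : ℤ) - 1 + c := by
          rcases ha1 with h | h
          · have hb2 : v.2 = -1 := by omega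
            refine ⟨-l + 1 - ((s + d : ℕ) : ℤ), fun p hp => ?_⟩
            have h3 := (hmem p hp).2.2
            unfold On at h3
            rw [hb2, h] at h3
            linarith
          · have hb2 : v.2 = 1 := by omega
            refine ⟨l + 1 - ((s + d : ℕ) : ℤ), fun p hp => ?_⟩
            have h3 := (hmem p hp).2.2
            unfold On at h3
            rw [hb2, h] at h3
            linarith
        have hsub : A.image Prod.fst ⊆
            Finset.Ico (max 0 c) (((s + d : ℕ) : ℤ) + min 0 c) \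
              Finset.Ico ((d : ℤ) + max 0 c) (2 * d + min 0 c) := by
          intro x hx
          obtain ⟨p, hp, rfl⟩ := Finset.mem_image.1 hx
          obtain ⟨h3, h4, _⟩ := hmem p hp
          have h5 := hc p hp
          have h6 : ¬ ((d : ℤ) ≤ p.1 ∧ p.1 < 2 * d ∧ ((s + d : ℕ) : ℤ) - 2 * d ≤ p.2 ∧
              p.2 < ((s + d : ℕ) : ℤ) - d) := fun h => h4 (Or.inr (Or.inl h))
          rw [Finset.mem_sdiff, Finset.mem_Ico, Finset.mem_Ico]
          rcases le_total 0 c with h7 | h7
          · rw [max_eq_right h7, min_eq_left h7]; omega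
          · rw [max_eq_left h7, min_eq_right h7]; omega
        refine (Finset.card_le_card hsub).trans ?_
        rcases le_total ((d : ℤ) + max 0 c) (2 * d + min 0 c) with h8 | h8
        · rw [Finset.card_sdiff_of_subset, Int.card_Ico, Int.card_Ico]
          · push_cast
            rcases le_total 0 c with h7 | h7
            · rw [max_eq_right h7, min_eq_left h7] at *; omega
            · rw [max_eq_left h7, min_eq_right h7] at *; omega
          · intro z hz
            rw [Finset.mem_Ico] at hz ⊢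
            rcases le_total 0 c with h7 | h7
            · rw [max_eq_right h7, min_eq_left h7] at *; omega
            · rw [max_eq_left h7, min_eq_right h7] at *; omega
        · refine (Finset.card_le_card Finset.sdiff_subset).trans ?_
          rw [Int.card_Ico]
          push_cast
          rcases le_total 0 c with h7 | h7
          · rw [max_eq_right h7, min_eq_left h7] at *; omega
          · rw [max_eq_left h7, min_eq_right h7] at *; omega
    · have h3 := line_card_gen (M := s + d) (by omega) hv.1 l A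
        (fun p hp => (hmem p hp).1) (fun p hp => (hmem p hp).2.2)
      have h4 : (s + d - 1) / hgt v ≤ (s + d - 1) / 2 := Nat.div_le_div_left hh (by norm_num)
      omega

end Pool.Agent.NKL
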