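import Pool.Agent.NKL.K3D

set_option autoImplicit false

/-!
# NKL / K3B : rows and columns of the random set

`am_row`, `am_col`: case distinction over `I` (`fin_cases`), parity of `s`: with `α = s/5`,
`β = (s - 2α)/2` a row has two entries `α` and the entries `β`, `β + (s % 2)` (`s - 2α` and `s` have the
same parity, the extra `1` is at `J = I + 2`).
`am_le`: `s/5` and `(s - 2 (s/5))/2 + 1`.
`bS_row`: the cell `(x, y)` with `bk x = I`, `bk y = J` is in `bS` iff `(lc y + n - φ I J (lc x)) % n < am s I J`;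
for given `x`, `J` the map `y ↦ (lc y + n - u) % n` is a bijection from the `n` values of the block to
`[0,n)`, so there are exactly `am s I J` such `y` (`am ≤ n`); sum over `J`.
`bS_col`: for given `y`, `I`: `x ↦ φ I J (lc x)` is a bijection onto `Fin n`, and
`u ↦ (lc y + n - u) % n` is a bijection; sum over `I`.
`diag_mem`: for `j < s/5` the cell `(x, y)` in a diagonal block with `lc y = φ I I (lc x) + j mod n` is in
`bS`, since `am s I I = s/5 > j`.
-/

namespace Pool.Agent.NKL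

open Finset

variable {s n : ℕ}

theorem am_row (s : ℕ) (I : Fin 4) : ∑ J, am s I J = s := by
  rcases Nat.mod_two_eq_zero_or_one s with h | h <;> fin_cases I <;>
    simp [am, outr, Fin.sum_univ_four, h] <;> omega

theorem am_col (s : ℕ) (J : Fin 4) : ∑ I, am s I J = s := by
  rcases Nat.mod_two_eq_zero_or_one s with h | h <;> fin_cases J <;>
    simp [am, outr, Fin.sum_univ_four, h] <;> omega

theorem am_le (h : 3 * s + 13 ≤ 10 * n) (I J : Fin 4) : am s I J ≤ n := by
  unfold am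
  split_ifs <;> omega

private theorem mod_cases {n t u : ℕ} (ht : t < n) (hu : u < n) :
    (t + n - u) % n = if u ≤ t then t - u else t + n - u := by
  split_ifs with h
  · have h1 : t + n - u = (t - u) + n := by omega
    rw [h1, Nat.add_mod_right, Nat.mod_eq_of_lt (by omega)]
  · rw [Nat.mod_eq_of_lt (by omega)]

private theorem card_lt {n m : ℕ} (hm : m ≤ n) :
    ((univ : Finset (Fin n)).filter fun v : Fin n => (v : ℕ) < m).card = m := by
  have h : ((univ : Finset (Fin n)).filter fun v : Fin n => (v : ℕ) < m)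
      = (univ : Finset (Fin m)).map (Fin.castLEEmb hm) := by
    ext v
    simp only [mem_filter, mem_univ, true_and, mem_map]
    constructor
    · intro hv
      exact ⟨⟨v, hv⟩, Fin.ext rfl⟩
    · rintro ⟨w, hw⟩
      rw [← hw]
      exact w.2
  rw [h, card_map, card_univ, Fintype.card_fin]

private theorem card_comp {n m : ℕ} (hm : m ≤ n) (g : Fin n → Fin n) (hg : Function.Injective g) :
    ((univ : Finset (Fin n)).filter fun t => ((g t : Fin n) : ℕ) < m).card = m := by
  have hb : Function.Bijective g := Finite.injective_iff_bijective.1 hg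
  calc ((univ : Finset (Fin n)).filter fun t => ((g t : Fin n) : ℕ) < m).card
      = ∑ t : Fin n, if ((g t : Fin n) : ℕ) < m then 1 else 0 := card_filter _ _
    _ = ∑ v : Fin n, if (v : ℕ) < m then 1 else 0 :=
        (Equiv.ofBijective g hb).sum_comp (fun v : Fin n => if (v : ℕ) < m then 1 else 0)
    _ = ((univ : Finset (Fin n)).filter fun v : Fin n => (v : ℕ) < m).card := (card_filter _ _).symm
    _ = m := card_lt hm

private theorem cnt_row {n m : ℕ} (hm : m ≤ n) (u : Fin n) :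
    ((univ : Finset (Fin n)).filter fun t : Fin n => ((t : ℕ) + n - (u : ℕ)) % n < m).card = m := by
  have hn : 0 < n := lt_of_le_of_lt (Nat.zero_le _) u.2
  refine card_comp hm (fun t => ⟨((t : ℕ) + n - (u : ℕ)) % n, Nat.mod_lt _ hn⟩) ?_
  intro t t' h
  have h1 : ((t : ℕ) + n - (u : ℕ)) % n = ((t' : ℕ) + n - (u : ℕ)) % n := congrArg Fin.val h
  rw [mod_cases t.2 u.2, mod_cases t'.2 u.2] at h1
  have := t.2
  have := t'.2
  have := u.2
  apply Fin.ext
  split_ifs at h1 <;> omega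

private theorem cnt_col {n m : ℕ} (hm : m ≤ n) (t : Fin n) (σ : Equiv.Perm (Fin n)) :
    ((univ : Finset (Fin n)).filter fun a => ((t : ℕ) + n - ((σ a : Fin n) : ℕ)) % n < m).card = m := by
  have hn : 0 < n := lt_of_le_of_lt (Nat.zero_le _) t.2
  refine card_comp hm (fun a => ⟨((t : ℕ) + n - ((σ a : Fin n) : ℕ)) % n, Nat.mod_lt _ hn⟩) ?_
  intro a a' h
  have h1 : ((t : ℕ) + n - ((σ a : Fin n) : ℕ)) % n = ((t : ℕ) + n - ((σ a' : Fin n) : ℕ)) % n :=
    congrArg Fin.val h
  rw [mod_cases t.2 (σ a).2, mod_cases t.2 (σ a').2] at h1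
  have := t.2
  have := (σ a).2
  have := (σ a').2
  apply σ.injective
  apply Fin.ext
  split_ifs at h1 <;> omega

private theorem card_blk (Q : Fin 4 → Fin n → Prop) [∀ J t, Decidable (Q J t)] :
    ((univ : Finset (Fin (4 * n))).filter fun y => Q (bk y) (lc y)).card
      = ∑ J : Fin 4, ((univ : Finset (Fin n)).filter fun t => Q J t).card := by
  calc ((univ : Finset (Fin (4 * n))).filter fun y => Q (bk y) (lc y)).card
      = ∑ y : Fin (4 * n), if Q (bk y) (lc y) then 1 else 0 := card_filter _ _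
    _ = ∑ y : Fin (4 * n), (fun p : Fin 4 × Fin n => if Q p.1 p.2 then 1 else 0)
          (finProdFinEquiv.symm y) := by
        refine sum_congr rfl fun y _ => ?_
        rfl
    _ = ∑ p : Fin 4 × Fin n, if Q p.1 p.2 then 1 else 0 :=
        finProdFinEquiv.symm.sum_comp (fun p : Fin 4 × Fin n => if Q p.1 p.2 then 1 else 0)
    _ = ∑ J : Fin 4, ∑ t : Fin n, if Q J t then 1 else 0 := Fintype.sum_prod_type _
    _ = ∑ J : Fin 4, ((univ : Finset (Fin n)).filter fun t => Q J t).card := by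
        refine sum_congr rfl fun J _ => (card_filter _ _).symm

theorem bS_row (h : 3 * s + 13 ≤ 10 * n) (φ : PF n) (x : Fin (4 * n)) :
    ((bS s n φ).filter fun p => p.1 = x).card = s := by
  have h1 : ((bS s n φ).filter fun p => p.1 = x)
      = ((univ : Finset (Fin (4 * n))).filter fun y => (((lc y : Fin n) : ℕ) + n
          - ((φ (bk x) (bk y) (lc x) : Fin n) : ℕ)) % n < am s (bk x) (bk y)).map
          ⟨fun y => (x, y), fun a b hab => (Prod.mk.inj hab).2⟩ := by
    ext p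
    obtain ⟨a, b⟩ := p
    simp only [mem_filter, bS, mem_univ, true_and, mem_map, Function.Embedding.coeFn_mk,
      Prod.mk.injEq]
    constructor
    · rintro ⟨hp, rfl⟩
      exact ⟨b, hp, rfl, rfl⟩
    · rintro ⟨y, hy, rfl, rfl⟩
      exact ⟨hy, rfl⟩
  rw [h1, card_map]
  rw [card_blk (fun J t => ((t : ℕ) + n - ((φ (bk x) J (lc x) : Fin n) : ℕ)) % n < am s (bk x) J)]
  calc ∑ J : Fin 4, ((univ : Finset (Fin n)).filter fun t : Fin n =>
        ((t : ℕ) + n - ((φ (bk x) J (lc x) : Fin n) : ℕ)) % n < am s (bk x) J).card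
      = ∑ J : Fin 4, am s (bk x) J := sum_congr rfl fun J _ => cnt_row (am_le h _ _) _
    _ = s := am_row s (bk x)

theorem bS_col (h : 3 * s + 13 ≤ 10 * n) (φ : PF n) (y : Fin (4 * n)) :
    ((bS s n φ).filter fun p => p.2 = y).card = s := by
  have h1 : ((bS s n φ).filter fun p => p.2 = y)
      = ((univ : Finset (Fin (4 * n))).filter fun x => (((lc y : Fin n) : ℕ) + n
          - ((φ (bk x) (bk y) (lc x) : Fin n) : ℕ)) % n < am s (bk x) (bk y)).map
          ⟨fun x => (x, y), fun a b hab => (Prod.mk.inj hab).1⟩ := by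
    ext p
    obtain ⟨a, b⟩ := p
    simp only [mem_filter, bS, mem_univ, true_and, mem_map, Function.Embedding.coeFn_mk,
      Prod.mk.injEq]
    constructor
    · rintro ⟨hp, rfl⟩
      exact ⟨a, hp, rfl, rfl⟩
    · rintro ⟨x, hx, rfl, rfl⟩
      exact ⟨hx, rfl⟩
  rw [h1, card_map]
  rw [card_blk (fun I a => (((lc y : Fin n) : ℕ) + n - ((φ I (bk y) a : Fin n) : ℕ)) % n
    < am s I (bk y))]
  calc ∑ I : Fin 4, ((univ : Finset (Fin n)).filter fun a =>
        (((lc y : Fin n) : ℕ) + n - ((φ I (bk y) a : Fin n) : ℕ)) % n < am s I (bk y)).card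
      = ∑ I : Fin 4, am s I (bk y) := sum_congr rfl fun I _ => cnt_col (am_le h _ _) _ _
    _ = s := am_col s (bk y)

/-- the diagonal permutations: `x ↦ φ I I (lc x) + j` in the block `I` of `x` -/
def dg {n : ℕ} (φ : PF n) (j : ℕ) (x : Fin (4 * n)) : Fin (4 * n) :=
  ⟨n * (bk x : ℕ) + (((φ (bk x) (bk x) (lc x) : Fin n) : ℕ) + j) % n, by
    have h1 := (bk x).2
    have h2 : (((φ (bk x) (bk x) (lc x) : Fin n) : ℕ) + j) % n < n :=
      Nat.mod_lt _ (lt_of_le_of_lt (Nat.zero_le _) (lc x).2)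
    calc n * (bk x : ℕ) + (((φ (bk x) (bk x) (lc x) : Fin n) : ℕ) + j) % n
        < n * (bk x : ℕ) + n := by omega
      _ = n * ((bk x : ℕ) + 1) := by ring
      _ ≤ n * 4 := Nat.mul_le_mul_left _ h1
      _ = 4 * n := by ring⟩

private theorem bk_dg (φ : PF n) (j : ℕ) (x : Fin (4 * n)) : bk (dg φ j x) = bk x := by
  have hn : 0 < n := lt_of_le_of_lt (Nat.zero_le _) (lc x).2
  apply Fin.ext
  show (n * (bk x : ℕ) + (((φ (bk x) (bk x) (lc x) : Fin n) : ℕ) + j) % n) / n = (bk x : ℕ)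
  rw [Nat.mul_add_div hn, Nat.div_eq_of_lt (Nat.mod_lt _ hn), Nat.add_zero]

private theorem lc_dg (φ : PF n) (j : ℕ) (x : Fin (4 * n)) :
    ((lc (dg φ j x) : Fin n) : ℕ) = (((φ (bk x) (bk x) (lc x) : Fin n) : ℕ) + j) % n := by
  show (n * (bk x : ℕ) + (((φ (bk x) (bk x) (lc x) : Fin n) : ℕ) + j) % n) % n = _
  rw [Nat.mul_add_mod, Nat.mod_mod]

private theorem eq_of_bk_lc {x y : Fin (4 * n)} (h1 : bk x = bk y)
    (h2 : (lc x : Fin n) = lc y) : x = y := by
  have h : finProdFinEquiv.symm x = finProdFinEquiv.symm y := Prod.ext h1 h2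
  exact finProdFinEquiv.symm.injective h

theorem dg_inj (φ : PF n) (j : ℕ) : Function.Injective (dg φ j) := by
  intro x y h
  have hn : 0 < n := lt_of_le_of_lt (Nat.zero_le _) (lc x).2
  have h1 : bk x = bk y := by rw [← bk_dg φ j x, ← bk_dg φ j y, h]
  refine eq_of_bk_lc h1 ?_
  have h2 : (((φ (bk x) (bk x) (lc x) : Fin n) : ℕ) + j) % n
      = (((φ (bk y) (bk y) (lc y) : Fin n) : ℕ) + j) % n := by
    rw [← lc_dg, ← lc_dg, h]
  rw [← h1] at h2
  have h3 : ((φ (bk x) (bk x) (lc x) : Fin n) : ℕ) ≡ ((φ (bk x) (bk x) (lc y) : Fin n) : ℕ) [MOD n] :=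
    Nat.ModEq.add_right_cancel' j h2
  have h4 : ((φ (bk x) (bk x) (lc x) : Fin n) : ℕ) = ((φ (bk x) (bk x) (lc y) : Fin n) : ℕ) :=
    Nat.ModEq.eq_of_lt_of_lt h3 (φ (bk x) (bk x) (lc x)).2 (φ (bk x) (bk x) (lc y)).2
  exact (φ (bk x) (bk x)).injective (Fin.ext h4)

theorem dg_mem (φ : PF n) {j : ℕ} (hj : j < s / 5) (hjn : j < n) (x : Fin (4 * n)) :
    (x, dg φ j x) ∈ bS s n φ := by
  have hn : 0 < n := lt_of_le_of_lt (Nat.zero_le _) (lc x).2
  simp only [bS, mem_filter, mem_univ, true_and]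
  rw [bk_dg, lc_dg]
  have ha : am s (bk x) (bk x) = s / 5 := by simp [am]
  rw [ha]
  have hu := (φ (bk x) (bk x) (lc x)).2
  have hm : ((((φ (bk x) (bk x) (lc x) : Fin n) : ℕ) + j) % n + n
      - ((φ (bk x) (bk x) (lc x) : Fin n) : ℕ)) % n = j := by
    rw [mod_cases (Nat.mod_lt _ hn) hu]
    rcases Nat.lt_or_ge (((φ (bk x) (bk x) (lc x) : Fin n) : ℕ) + j) n with h | h
    · rw [Nat.mod_eq_of_lt h]
      split_ifs <;> omega
    · have h2 : (((φ (bk x) (bk x) (lc x) : Fin n) : ℕ) + j) % n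
          = ((φ (bk x) (bk x) (lc x) : Fin n) : ℕ) + j - n := by
        rw [Nat.mod_eq_sub_mod h, Nat.mod_eq_of_lt (by omega)]
      rw [h2]
      split_ifs <;> omega
  rw [hm]
  exact hj

theorem dg_ne (φ : PF n) {i j : ℕ} (hi : i < n) (hj : j < n) (hij : i ≠ j) (x : Fin (4 * n)) :
    dg φ i x ≠ dg φ j x := by
  intro h
  have h2 : (((φ (bk x) (bk x) (lc x) : Fin n) : ℕ) + i) % n
      = (((φ (bk x) (bk x) (lc x) : Fin n) : ℕ) + j) % n := by
    rw [← lc_dg, ← lc_dg, h]
  have h3 : i ≡ j [MOD n] := Nat.ModEq.add_left_cancel' _ h2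
  exact hij (Nat.ModEq.eq_of_lt_of_lt h3 hi hj)

end Pool.Agent.NKL
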