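import Pool.Agent.NKL.F2D

set_option autoImplicit false

/-!
# NKL / K3D : stage 3 (every `k ≥ 1000` is good), definitions only

Goal: for `s ≥ 999` and all `N ≥ s` the `N × N` grid contains a set with exactly `s` points in
every row and column and at most `s` points on every skew line.

* `N ≤ 3s/2`: an explicit set (`K3A`).
* `N ≥ 3s/2`: `n = N/4`, `4 × 4` blocks of size `n × n`; the block `(I,J)` is filled by
  `{(x,y) | y - φ_IJ(x) mod n < am s I J}` with independent random permutations `φ_IJ` of
  `Fin n`.  Rows and columns have exactly `s` points.  The expected total excess of the skew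
  lines over `s - 10` is at most `N/(10^4 s)`.
* The at most three remaining rows and columns are filled by exchanges (`K3L`).
* If some excess remains, remove it and repair the rows and columns by exchanges chosen with the
  local lemma (`fin3`); then `N ≥ 10^4 s`.
-/

namespace Pool.Agent.NKL

open Finset

/-! ### sets with bounded rows and columns, exchanges -/

/-- at most `s` points in every row and column of the grid -/
structure RC (s N : ℕ) (S : Finset (ℤ × ℤ)) : Prop where
  sub : S ⊆ grid N
  col : ∀ x : ℤ, (S.filter fun p => p.1 = x).card ≤ s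
  row : ∀ y : ℤ, (S.filter fun p => p.2 = y).card ≤ s

/-- exactly `s` points in every row and column, at most `s` on all skew lines -/
structure Exact (s N : ℕ) (T : Finset (ℤ × ℤ)) : Prop where
  sub : T ⊆ grid N
  col : ∀ x : ℤ, 0 ≤ x → x < N → (T.filter fun p => p.1 = x).card = s
  row : ∀ y : ℤ, 0 ≤ y → y < N → (T.filter fun p => p.2 = y).card = s
  skw : ∀ v : ℤ × ℤ, Skew v → ∀ l, (T.filter fun p => On v p = l).card ≤ s

/-- the points which may be removed -/
def avl3 (S : Finset (ℤ × ℤ)) (r c : ℤ) : Finset (ℤ × ℤ) :=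
  S.filter fun p => (r, p.2) ∉ S ∧ (p.1, c) ∉ S

variable {ι : Type}

/-- the same removed point or a common new cell -/
def B2c (r c : ι → ℤ) (i j : ι) (p q : ℤ × ℤ) : Prop :=
  p = q ∨ ∃ β γ, sl (r i) (c i) β p = sl (r j) (c j) γ q

/-- five different new cells of five exchanges on a skew line -/
def B5 (r c : ι → ℤ) (i j k l m : ι) (p q u w x : ℤ × ℤ) : Prop :=
  ∃ β₁ β₂ β₃ β₄ β₅, [sl (r i) (c i) β₁ p, sl (r j) (c j) β₂ q, sl (r k) (c k) β₃ u,
      sl (r l) (c l) β₄ w, sl (r m) (c m) β₅ x].Nodup ∧
    ∃ v, Skew v ∧ On v (sl (r j) (c j) β₂ q) = On v (sl (r i) (c i) β₁ p) ∧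
      On v (sl (r k) (c k) β₃ u) = On v (sl (r i) (c i) β₁ p) ∧
      On v (sl (r l) (c l) β₄ w) = On v (sl (r i) (c i) β₁ p) ∧
      On v (sl (r m) (c m) β₅ x) = On v (sl (r i) (c i) β₁ p)

/-! ### the block construction -/

/-- outer blocks -/
def outr (I : Fin 4) : Bool := I = 0 ∨ I = 3

/-- the row and column sums of the blocks; all rows and columns of this matrix have the sum `s` -/
def am (s : ℕ) (I J : Fin 4) : ℕ :=
  if outr I = outr J then s / 5
  else (s - 2 * (s / 5)) / 2 + (if s % 2 = 1 ∧ J = I + 2 then 1 else 0)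

/-- the number of the block of a coordinate -/
def bk {n : ℕ} (x : Fin (4 * n)) : Fin 4 := ⟨x / n, Nat.div_lt_of_lt_mul (by
  have := x.2; omega)⟩

/-- the coordinate inside the block -/
def lc {n : ℕ} (x : Fin (4 * n)) : Fin n := ⟨x % n, Nat.mod_lt _ (by
  have := x.2
  rcases Nat.eq_zero_or_pos n with h | h
  · subst h; omega
  · exact h)⟩

/-- the families of permutations -/
abbrev PF (n : ℕ) : Type := Fin 4 → Fin 4 → Equiv.Perm (Fin n)

/-- the set of cells defined by the permutations -/
def bS (s n : ℕ) (φ : PF n) : Finset (Cell n) :=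
  univ.filter fun p =>
    (((lc p.2 : Fin n) : ℕ) + n - ((φ (bk p.1) (bk p.2) (lc p.1) : Fin n) : ℕ)) % n
      < am s (bk p.1) (bk p.2)

/-- the cells of a skew line -/
noncomputable def lnc (n : ℕ) (v : ℤ × ℤ) (l : ℤ) : Finset (Cell n) :=
  univ.filter fun p => On v (pt p) = l

/-- the levels `l` of the lines of direction `v` -/
noncomputable def lev (n : ℕ) (v : ℤ × ℤ) : Finset ℤ := univ.image fun p : Cell n => On v (pt p)

/-- the total excess over `T` of the skew lines (of the grid of the `4n × 4n` cells) -/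
noncomputable def exc (s n T : ℕ) (φ : PF n) : ℕ :=
  ∑ v ∈ SDir (4 * n), ∑ l ∈ lev n v, ((lnc n v l ∩ bS s n φ).card - T)

/-- total excess over `T` of the skew lines for a set of points -/
noncomputable def excP (N T : ℕ) (P : Finset (ℤ × ℤ)) : ℕ :=
  ∑ v ∈ SDir N, ∑ l ∈ P.image (On v), ((P.filter fun p => On v p = l).card - T)

end Pool.Agent.NKL
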