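import Pool.Agent.NKL.K3B
import Pool.Agent.NKL.GD2

set_option autoImplicit false

/-!
# NKL / K3E : the remaining rows and columns

`N = 4n + ρ`, `ρ ≤ 3`.  For `j < ρ` let `M_j = {(x, dg φ j x) | x < s}` (`s ≤ 4n`): `s` cells of `bS`
(`dg_mem`, `j < 3 ≤ s/5`) in different rows and columns (`dg_inj`); for different `j` they are
disjoint (`dg_ne`).  `P = pt '' (bS \ ⋃ M_j) ∪ {(4n + j, y) | (x,y) ∈ M_j} ∪ {(x, 4n + j) | (x,y) ∈ M_j}`.
* column `x < 4n` of the plane (first coordinate `x`): `s` cells of `bS` (`bS_row`), minus `ρ`, plus `ρ`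
  if `x < s`, unchanged if `x ≥ s`; first coordinate `4n + j`: the `s` points `(4n + j, dg φ j x)`,
  `x < s`.
* second coordinate `y < 4n`: for each `j` there is one `x` with `dg φ j x = y` (`dg` is a bijection);
  if `x < s` one cell is lost and `(4n + j, y)` is gained; second coordinate `4n + j`: the points
  `(x, 4n + j)`, `x < s`.
* a skew line contains at most one point with first coordinate `4n + j` and at most one with second
  coordinate `4n + j`, for each of the at most three `j`.
-/

namespace Pool.Agent.NKL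

open Finset

private lemma k3e_step {s M : ℕ} (P Q : Finset (ℤ × ℤ)) (hP : P ⊆ grid M)
    (hcol : ∀ x : ℤ, 0 ≤ x → x < M → (P.filter fun p => p.1 = x).card = s)
    (hrow : ∀ y : ℤ, 0 ≤ y → y < M → (P.filter fun p => p.2 = y).card = s)
    (hQ : Q ⊆ P) (hQc : Q.card = s)
    (hQ1 : ∀ p ∈ Q, ∀ q ∈ Q, p.1 = q.1 → p = q) (hQ2 : ∀ p ∈ Q, ∀ q ∈ Q, p.2 = q.2 → p = q) :
    ∃ P' : Finset (ℤ × ℤ), P' ⊆ grid (M + 1) ∧
      (∀ x : ℤ, 0 ≤ x → x < (M + 1 : ℕ) → (P'.filter fun p => p.1 = x).card = s) ∧
      (∀ y : ℤ, 0 ≤ y → y < (M + 1 : ℕ) → (P'.filter fun p => p.2 = y).card = s) ∧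
      (∀ v, Skew v → ∀ l, (P'.filter fun p => On v p = l).card
        ≤ (P.filter fun p => On v p = l).card + 2) ∧ P \ Q ⊆ P' := by
  classical
  set A : ℤ × ℤ → ℤ × ℤ := fun p => ((M : ℤ), p.2) with hA
  set B : ℤ × ℤ → ℤ × ℤ := fun p => (p.1, (M : ℤ)) with hB
  have hg : ∀ p ∈ P, 0 ≤ p.1 ∧ p.1 < M ∧ 0 ≤ p.2 ∧ p.2 < M := by
    intro p hp
    have h1 := hP hp
    unfold grid at h1
    rw [mem_product, mem_Ico, mem_Ico] at h1
    exact ⟨h1.1.1, h1.1.2, h1.2.1, h1.2.2⟩
  have hAinj : Set.InjOn A Q := by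
    intro p hp q hq h
    have h2 : (A p).2 = (A q).2 := by rw [h]
    exact hQ2 p (mem_coe.1 hp) q (mem_coe.1 hq) h2
  have hBinj : Set.InjOn B Q := by
    intro p hp q hq h
    have h2 : (B p).1 = (B q).1 := by rw [h]
    exact hQ1 p (mem_coe.1 hp) q (mem_coe.1 hq) h2
  have hd1 : Disjoint (P \ Q) (Q.image A) := by
    rw [disjoint_left]
    intro p hp hp'
    rw [mem_image] at hp'
    obtain ⟨q, _, hq⟩ := hp'
    have h1 := hg p (mem_sdiff.1 hp).1
    have h2 : p.1 = M := by rw [← hq]
    omega
  have hd2 : Disjoint (P \ Q ∪ Q.image A) (Q.image B) := by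
    rw [disjoint_left]
    intro p hp hp'
    rw [mem_image] at hp'
    obtain ⟨q, _, hq⟩ := hp'
    have h2 : p.2 = M := by rw [← hq]
    rw [mem_union] at hp
    rcases hp with hp | hp
    · have h1 := hg p (mem_sdiff.1 hp).1
      omega
    · rw [mem_image] at hp
      obtain ⟨u, hu, hu'⟩ := hp
      have h3 := hg u (hQ hu)
      have h4 : p.2 = u.2 := by rw [← hu']
      omega
  have hcard : ∀ (f : ℤ × ℤ → Prop) [DecidablePred f],
      ((P \ Q ∪ Q.image A ∪ Q.image B).filter f).card
        = ((P.filter f).card - (Q.filter f).card) + ((Q.filter fun p => f (A p)).card)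
          + ((Q.filter fun p => f (B p)).card) := by
    intro f _
    rw [filter_union, filter_union, card_union_of_disjoint, card_union_of_disjoint]
    · congr 1
      · congr 1
        · have e1 : (P \ Q).filter f = P.filter f \ Q.filter f := by
            ext p
            simp only [mem_filter, mem_sdiff]
            tauto
          rw [e1, card_sdiff_of_subset (filter_subset_filter _ hQ)]
        · rw [filter_image, card_image_of_injOn]
          exact hAinj.mono (coe_subset.2 (filter_subset _ _))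
      · rw [filter_image, card_image_of_injOn]
        exact hBinj.mono (coe_subset.2 (filter_subset _ _))
    · exact disjoint_filter_filter hd1
    · rw [← filter_union]
      exact disjoint_filter_filter hd2
  have hle : ∀ (f : ℤ × ℤ → Prop) [DecidablePred f], (Q.filter f).card ≤ (P.filter f).card := by
    intro f _
    exact card_le_card (filter_subset_filter _ hQ)
  refine ⟨P \ Q ∪ Q.image A ∪ Q.image B, ?_, ?_, ?_, ?_, ?_⟩
  · intro p hp
    unfold grid
    rw [mem_product, mem_Ico, mem_Ico]
    push_cast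
    rw [mem_union, mem_union, mem_image, mem_image] at hp
    rcases hp with (hp | ⟨q, hq, rfl⟩) | ⟨q, hq, rfl⟩
    · have := hg p (mem_sdiff.1 hp).1
      omega
    · have := hg q (hQ hq)
      simp only [hA]
      omega
    · have := hg q (hQ hq)
      simp only [hB]
      omega
  · intro x hx0 hx
    rw [hcard]
    push_cast at hx
    rcases eq_or_lt_of_le (Int.lt_add_one_iff.1 hx) with h | h
    · have e1 : (P.filter fun p => p.1 = x) = ∅ := by
        rw [filter_eq_empty_iff]
        intro p hp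
        have := hg p hp
        omega
      have e2 : (Q.filter fun p => (A p).1 = x) = Q := by
        rw [filter_true_of_mem]
        intro p _
        exact h.symm
      have e3 : (Q.filter fun p => (B p).1 = x) = ∅ := by
        rw [filter_eq_empty_iff]
        intro p hp
        have := hg p (hQ hp)
        simp only [hB]
        omega
      rw [e1, e2, e3, hQc]
      simp
    · have e2 : (Q.filter fun p => (A p).1 = x) = ∅ := by
        rw [filter_eq_empty_iff]
        intro p _
        simp only [hA]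
        omega
      have e3 : (Q.filter fun p => (B p).1 = x) = Q.filter fun p => p.1 = x := rfl
      have e4 := hle fun p => p.1 = x
      rw [e2, e3, hcol x hx0 h] at *
      simp only [card_empty]
      omega
  · intro y hy0 hy
    rw [hcard]
    push_cast at hy
    rcases eq_or_lt_of_le (Int.lt_add_one_iff.1 hy) with h | h
    · have e1 : (P.filter fun p => p.2 = y) = ∅ := by
        rw [filter_eq_empty_iff]
        intro p hp
        have := hg p hp
        omega
      have e2 : (Q.filter fun p => (B p).2 = y) = Q := by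
        rw [filter_true_of_mem]
        intro p _
        exact h.symm
      have e3 : (Q.filter fun p => (A p).2 = y) = ∅ := by
        rw [filter_eq_empty_iff]
        intro p hp
        have := hg p (hQ hp)
        simp only [hA]
        omega
      rw [e1, e2, e3, hQc]
      simp
    · have e2 : (Q.filter fun p => (B p).2 = y) = ∅ := by
        rw [filter_eq_empty_iff]
        intro p _
        simp only [hB]
        omega
      have e3 : (Q.filter fun p => (A p).2 = y) = Q.filter fun p => p.2 = y := rfl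
      have e4 := hle fun p => p.2 = y
      rw [e2, e3, hrow y hy0 h] at *
      simp only [card_empty]
      omega
  · intro v hv l
    rw [hcard]
    have e1 : (Q.filter fun p => On v (A p) = l).card ≤ 1 := by
      rw [card_le_one]
      intro p hp q hq
      rw [mem_filter] at hp hq
      have h3 : On v (A p) = On v (A q) := hp.2.trans hq.2.symm
      unfold On at h3
      simp only [hA] at h3
      have h4 : v.1 * p.2 = v.1 * q.2 := by linarith
      exact hQ2 p hp.1 q hq.1 (mul_left_cancel₀ hv.2.1 h4)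
    have e2 : (Q.filter fun p => On v (B p) = l).card ≤ 1 := by
      rw [card_le_one]
      intro p hp q hq
      rw [mem_filter] at hp hq
      have h3 : On v (B p) = On v (B q) := hp.2.trans hq.2.symm
      unfold On at h3
      simp only [hB] at h3
      have h4 : v.2 * p.1 = v.2 * q.1 := by linarith
      exact hQ1 p hp.1 q hq.1 (mul_left_cancel₀ hv.2.2 h4)
    omega
  · intro p hp
    rw [mem_union, mem_union]
    exact Or.inl (Or.inl hp)

private noncomputable def k3e_Q {n : ℕ} (s : ℕ) (φ : PF n) (j : ℕ) : Finset (ℤ × ℤ) :=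
  (univ.filter fun x : Fin (4 * n) => (x : ℕ) < s).image fun x => pt (x, dg φ j x)

private lemma k3e_Q_card {n : ℕ} {s : ℕ} (hsn : s ≤ 4 * n) (φ : PF n) (j : ℕ) :
    (k3e_Q s φ j).card = s := by
  unfold k3e_Q
  rw [card_image_of_injective]
  · rw [Fin.card_filter_val_lt]
    omega
  · intro x y h
    have := pt_inj h
    exact congrArg Prod.fst this

private lemma k3e_Q_1 {n : ℕ} {s : ℕ} (φ : PF n) (j : ℕ) :
    ∀ p ∈ k3e_Q s φ j, ∀ q ∈ k3e_Q s φ j, p.1 = q.1 → p = q := by
  intro p hp q hq h
  unfold k3e_Q at hp hq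
  rw [mem_image] at hp hq
  obtain ⟨x, _, rfl⟩ := hp
  obtain ⟨y, _, rfl⟩ := hq
  unfold pt at h
  have h' : ((x : ℕ) : ℤ) = ((y : ℕ) : ℤ) := h
  have : x = y := by
    apply Fin.ext
    exact_mod_cast h'
  rw [this]

private lemma k3e_Q_2 {n : ℕ} {s : ℕ} (φ : PF n) (j : ℕ) :
    ∀ p ∈ k3e_Q s φ j, ∀ q ∈ k3e_Q s φ j, p.2 = q.2 → p = q := by
  intro p hp q hq h
  unfold k3e_Q at hp hq
  rw [mem_image] at hp hq
  obtain ⟨x, _, rfl⟩ := hp
  obtain ⟨y, _, rfl⟩ := hq
  unfold pt at h
  have h' : ((dg φ j x : ℕ) : ℤ) = ((dg φ j y : ℕ) : ℤ) := h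
  have h2 : dg φ j x = dg φ j y := by
    apply Fin.ext
    exact_mod_cast h'
  have : x = y := dg_inj φ j h2
  rw [this]

private lemma k3e_Q_disj {n : ℕ} {s : ℕ} (φ : PF n) {i j : ℕ} (hi : i < n) (hj : j < n)
    (hij : i ≠ j) : ∀ p ∈ k3e_Q s φ i, p ∉ k3e_Q s φ j := by
  intro p hp hq
  unfold k3e_Q at hp hq
  rw [mem_image] at hp hq
  obtain ⟨x, _, rfl⟩ := hp
  obtain ⟨y, _, hy⟩ := hq
  have h1 := pt_inj hy
  have h2 : y = x := congrArg Prod.fst h1
  subst h2
  have h3 : dg φ j y = dg φ i y := congrArg Prod.snd h1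
  exact dg_ne φ hi hj hij y h3.symm

private lemma k3e_iter {s n : ℕ} (hs : 15 ≤ s) (hsn : s ≤ 4 * n) (h : 3 * s + 13 ≤ 10 * n)
    (φ : PF n) (k : ℕ) (hk : k ≤ 3) :
    ∃ P : Finset (ℤ × ℤ), P ⊆ grid (4 * n + k) ∧
      (∀ x : ℤ, 0 ≤ x → x < (4 * n + k : ℕ) → (P.filter fun p => p.1 = x).card = s) ∧
      (∀ y : ℤ, 0 ≤ y → y < (4 * n + k : ℕ) → (P.filter fun p => p.2 = y).card = s) ∧
      (∀ v, Skew v → ∀ l, (P.filter fun p => On v p = l).card
        ≤ (lnc n v l ∩ bS s n φ).card + 2 * k) ∧
      ∀ j, k ≤ j → j < 3 → k3e_Q s φ j ⊆ P := by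
  classical
  induction k with
  | zero =>
    refine ⟨(bS s n φ).image pt, ?_, ?_, ?_, ?_, ?_⟩
    · intro p hp
      rw [mem_image] at hp
      obtain ⟨c, _, rfl⟩ := hp
      unfold grid pt
      rw [mem_product, mem_Ico, mem_Ico]
      have h1 := c.1.2
      have h2 := c.2.2
      push_cast
      refine ⟨⟨by positivity, ?_⟩, by positivity, ?_⟩
      · show ((c.1 : ℕ) : ℤ) < _
        omega
      · show ((c.2 : ℕ) : ℤ) < _
        omega
    · intro x hx0 hx
      obtain ⟨m, rfl⟩ := Int.eq_ofNat_of_zero_le hx0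
      have hm : m < 4 * n := by
        have : m < 4 * n + 0 := by exact_mod_cast hx
        omega
      have e := bS_row h φ ⟨m, hm⟩
      rw [filter_image, card_image_of_injective _ pt_inj]
      refine Eq.trans ?_ e
      congr 1
      apply filter_congr
      intro c _
      unfold pt
      constructor
      · intro h3
        apply Fin.ext
        have h4 : ((c.1 : ℕ) : ℤ) = (m : ℤ) := h3
        exact_mod_cast h4
      · intro h3
        rw [h3]
    · intro x hx0 hx
      obtain ⟨m, rfl⟩ := Int.eq_ofNat_of_zero_le hx0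
      have hm : m < 4 * n := by
        have : m < 4 * n + 0 := by exact_mod_cast hx
        omega
      have e := bS_col h φ ⟨m, hm⟩
      rw [filter_image, card_image_of_injective _ pt_inj]
      refine Eq.trans ?_ e
      congr 1
      apply filter_congr
      intro c _
      unfold pt
      constructor
      · intro h3
        apply Fin.ext
        have h4 : ((c.2 : ℕ) : ℤ) = (m : ℤ) := h3
        exact_mod_cast h4
      · intro h3
        rw [h3]
    · intro v _ l
      rw [filter_image, card_image_of_injective _ pt_inj]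
      apply le_of_eq
      rw [mul_zero, add_zero]
      congr 1
      ext c
      unfold lnc
      rw [mem_filter, mem_inter, mem_filter]
      simp [and_comm]
    · intro j _ hj p hp
      unfold k3e_Q at hp
      rw [mem_image] at hp ⊢
      obtain ⟨x, _, rfl⟩ := hp
      exact ⟨(x, dg φ j x), dg_mem φ (by omega) (by omega) x, rfl⟩
  | succ k ih =>
    obtain ⟨P, hP, hcol, hrow, hsk, hQ⟩ := ih (by omega)
    obtain ⟨P', h1, h2, h3, h4, h5⟩ := k3e_step P (k3e_Q s φ k) hP hcol hrow
      (hQ k le_rfl (by omega)) (k3e_Q_card hsn φ k) (k3e_Q_1 φ k) (k3e_Q_2 φ k)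
    refine ⟨P', h1, h2, h3, ?_, ?_⟩
    · intro v hv l
      have := h4 v hv l
      have := hsk v hv l
      omega
    · intro j hj hj3 p hp
      apply h5
      rw [mem_sdiff]
      exact ⟨hQ j (by omega) hj3 hp,
        k3e_Q_disj φ (by omega) (by omega) (by omega) p hp⟩

theorem leftover {s n N : ℕ} (hs : 15 ≤ s) (hsn : s ≤ 4 * n) (h : 3 * s + 13 ≤ 10 * n)
    (h1 : 4 * n ≤ N) (h2 : N ≤ 4 * n + 3) (φ : PF n) :
    ∃ P : Finset (ℤ × ℤ), P ⊆ grid N ∧
      (∀ x : ℤ, 0 ≤ x → x < N → (P.filter fun p => p.1 = x).card = s) ∧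
      (∀ y : ℤ, 0 ≤ y → y < N → (P.filter fun p => p.2 = y).card = s) ∧
      ∀ v, Skew v → ∀ l, (P.filter fun p => On v p = l).card
        ≤ (lnc n v l ∩ bS s n φ).card + 6 := by
  obtain ⟨k, rfl⟩ := Nat.exists_eq_add_of_le h1
  obtain ⟨P, hP, hcol, hrow, hsk, _⟩ := k3e_iter hs hsn h φ k (by omega)
  refine ⟨P, hP, hcol, hrow, ?_⟩
  intro v hv l
  have := hsk v hv l
  omega

end Pool.Agent.NKL
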