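import Pool.Agent.NKL.K3D
import Pool.Agent.NKL.FH1
import Pool.Agent.NKL.FSQ

set_option autoImplicit false

/-!
# NKL / K3F : new cells on a given line, listing of the missing points (copies of FH1 and FSQ)

The same proofs as in `FH1.lean` and `FSQ.lean`; they use only the bounds for rows and columns
(`RC.col`, `RC.row`, `RC.sub` in place of `Near.col`, `Near.row`, `Near.sub`).
-/

namespace Pool.Agent.NKL

open Finset

variable {s N L : ℕ} {S : Finset (ℤ × ℤ)} {r c : Fin L → ℤ}

open Classical in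
private theorem kf_false (h : RC s N S) {v : ℤ × ℤ} (hv : Skew v) (l : ℤ) (j : Fin L) :
    (S.filter fun q => On v (sl (r j) (c j) false q) = l).card ≤ s := by
  rcases (S.filter fun q => On v (sl (r j) (c j) false q) = l).eq_empty_or_nonempty with he | ⟨q₀, hq₀⟩
  · rw [he, Finset.card_empty]
    exact Nat.zero_le _
  · refine le_trans (Finset.card_le_card ?_) (h.col q₀.1)
    intro q hq
    rw [Finset.mem_filter] at hq hq₀ ⊢
    refine ⟨hq.1, ?_⟩
    have h1 : v.2 * q.1 - v.1 * c j = l := hq.2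
    have h2 : v.2 * q₀.1 - v.1 * c j = l := hq₀.2
    have h3 : v.2 * q.1 = v.2 * q₀.1 := by linarith
    exact mul_left_cancel₀ hv.2.2 h3

open Classical in
private theorem kf_true (h : RC s N S) {v : ℤ × ℤ} (hv : Skew v) (l : ℤ) (j : Fin L) :
    (S.filter fun q => On v (sl (r j) (c j) true q) = l).card ≤ s := by
  rcases (S.filter fun q => On v (sl (r j) (c j) true q) = l).eq_empty_or_nonempty with he | ⟨q₀, hq₀⟩
  · rw [he, Finset.card_empty]
    exact Nat.zero_le _
  · refine le_trans (Finset.card_le_card ?_) (h.row q₀.2)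
    intro q hq
    rw [Finset.mem_filter] at hq hq₀ ⊢
    refine ⟨hq.1, ?_⟩
    have h1 : v.2 * r j - v.1 * q.2 = l := hq.2
    have h2 : v.2 * r j - v.1 * q₀.2 = l := hq₀.2
    have h3 : v.1 * q.2 = v.1 * q₀.2 := by linarith
    exact mul_left_cancel₀ hv.2.1 h3

open Classical in
private theorem kf_split (S : Finset (ℤ × ℤ)) (v : ℤ × ℤ) (l : ℤ) (x y : ℤ) :
    (S.filter fun q => ∃ γ, On v (sl x y γ q) = l).card ≤
      (S.filter fun q => On v (sl x y true q) = l).card + (S.filter fun q => On v (sl x y false q) = l).card := by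
  refine le_trans (Finset.card_le_card ?_) (Finset.card_union_le _ _)
  intro q hq
  rw [Finset.mem_filter] at hq
  rw [Finset.mem_union, Finset.mem_filter, Finset.mem_filter]
  obtain ⟨hq1, γ, hγ⟩ := hq
  cases γ
  · exact Or.inr ⟨hq1, hγ⟩
  · exact Or.inl ⟨hq1, hγ⟩

open Classical in
theorem k_one (h : RC s N S) {v : ℤ × ℤ} (hv : Skew v) (l : ℤ) (j : Fin L) :
    (S.filter fun q => ∃ γ, On v (sl (r j) (c j) γ q) = l).card ≤ 2 * s := by
  have h1 := kf_split S v l (r j) (c j)
  have h2 := kf_true (r := r) (c := c) h hv l j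
  have h3 := kf_false (r := r) (c := c) h hv l j
  omega

open Classical in
theorem k_sum_L (h : RC s N S) {v : ℤ × ℤ} (hv : Skew v) (l : ℤ) :
    ∑ j : Fin L, (S.filter fun q => ∃ γ, On v (sl (r j) (c j) γ q) = l).card ≤ 2 * s * L := by
  calc ∑ j : Fin L, (S.filter fun q => ∃ γ, On v (sl (r j) (c j) γ q) = l).card
      ≤ ∑ _j : Fin L, 2 * s := Finset.sum_le_sum fun j _ => k_one h hv l j
    _ = 2 * s * L := by
      rw [Finset.sum_const, Finset.card_univ, Fintype.card_fin, smul_eq_mul, mul_comm]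

open Classical in
private theorem kf_cnt {A : Finset (ℤ × ℤ)} {K s : ℕ} (hA : A.card ≤ K) (g : Fin L → Finset (ℤ × ℤ))
    (x : Fin L → ℤ) (π : ℤ × ℤ → ℤ) (hg : ∀ j, (g j).card ≤ s)
    (hne : ∀ j, (g j).Nonempty → ∃ z ∈ A, π z = x j)
    (hx : ∀ z ∈ A, (univ.filter fun j => x j = π z).card ≤ s) :
    ∑ j : Fin L, (g j).card ≤ s ^ 2 * K := by
  set J : Finset (Fin L) := univ.filter fun j => (g j).Nonempty with hJ
  have h1 : ∑ j : Fin L, (g j).card = ∑ j ∈ J, (g j).card := by
    symm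
    refine Finset.sum_subset (Finset.subset_univ _) fun j _ hj => ?_
    have : ¬ (g j).Nonempty := fun h => hj (Finset.mem_filter.2 ⟨Finset.mem_univ _, h⟩)
    rw [Finset.not_nonempty_iff_eq_empty.1 this, Finset.card_empty]
  have h2 : J ⊆ A.biUnion fun z => univ.filter fun j => x j = π z := by
    intro j hj
    obtain ⟨z, hz, hzx⟩ := hne j (Finset.mem_filter.1 hj).2
    rw [Finset.mem_biUnion]
    exact ⟨z, hz, Finset.mem_filter.2 ⟨Finset.mem_univ _, hzx.symm⟩⟩
  have h3 : J.card ≤ A.card * s := (Finset.card_le_card h2).trans (Finset.card_biUnion_le_card_mul _ _ _ hx)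
  calc ∑ j : Fin L, (g j).card = ∑ j ∈ J, (g j).card := h1
    _ ≤ ∑ _j ∈ J, s := Finset.sum_le_sum fun j _ => hg j
    _ = J.card * s := by rw [Finset.sum_const, smul_eq_mul]
    _ ≤ A.card * s * s := Nat.mul_le_mul_right s h3
    _ ≤ K * s * s := Nat.mul_le_mul_right s (Nat.mul_le_mul_right s hA)
    _ = s ^ 2 * K := by ring

open Classical in
theorem k_sum_N (h : RC s N S) (hD : Def s N L S r c) {v : ℤ × ℤ} (hv : Skew v) (l : ℤ) :
    ∑ j : Fin L, (S.filter fun q => ∃ γ, On v (sl (r j) (c j) γ q) = l).card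
      ≤ 2 * s ^ 2 * ((N - 1) / hgt v + 1) := by
  rcases Nat.eq_zero_or_pos N with hN | hN
  · have hS : S = ∅ := by
      rw [Finset.eq_empty_iff_forall_notMem]
      intro p hp
      have := h.sub hp
      unfold grid at this
      rw [Finset.mem_product, Finset.mem_Ico] at this
      rw [hN] at this
      have h1 := this.1
      push_cast at h1
      omega
    rw [hS]
    simp
  set A : Finset (ℤ × ℤ) := (grid N).filter fun z => On v z = l with hA
  have hAc : A.card ≤ (N - 1) / hgt v + 1 := by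
    refine line_card_gen hN hv.1 l A (fun p hp => ?_) (fun p hp => (Finset.mem_filter.1 hp).2)
    have h1 := (Finset.mem_filter.1 hp).1
    unfold grid at h1
    rw [Finset.mem_product, Finset.mem_Ico, Finset.mem_Ico] at h1
    exact ⟨h1.1.1, h1.1.2, h1.2.1, h1.2.2⟩
  have hgr : ∀ q ∈ S, 0 ≤ q.1 ∧ q.1 < N ∧ 0 ≤ q.2 ∧ q.2 < N := by
    intro q hq
    have h1 := h.sub hq
    unfold grid at h1
    rw [Finset.mem_product, Finset.mem_Ico, Finset.mem_Ico] at h1
    exact ⟨h1.1.1, h1.1.2, h1.2.1, h1.2.2⟩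
  have hAm : ∀ z ∈ A, 0 ≤ z.1 ∧ z.1 < N ∧ 0 ≤ z.2 ∧ z.2 < N := by
    intro z hz
    have h1 := (Finset.mem_filter.1 hz).1
    unfold grid at h1
    rw [Finset.mem_product, Finset.mem_Ico, Finset.mem_Ico] at h1
    exact ⟨h1.1.1, h1.1.2, h1.2.1, h1.2.2⟩
  have hT := kf_cnt (L := L) (s := s) hAc (fun j => S.filter fun q => On v (sl (r j) (c j) true q) = l) r Prod.fst
    (fun j => kf_true h hv l j)
    (by
      rintro j ⟨q, hq⟩
      rw [Finset.mem_filter] at hq
      have h1 := hgr q hq.1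
      have h2 := hD.r_mem j
      refine ⟨(r j, q.2), Finset.mem_filter.2 ⟨?_, hq.2⟩, rfl⟩
      unfold grid
      rw [Finset.mem_product, Finset.mem_Ico, Finset.mem_Ico]
      exact ⟨h2, h1.2.2⟩)
    (by
      intro z hz
      have h1 := hAm z hz
      have h2 := hD.r_cnt z.1 h1.1 h1.2.1
      omega)
  have hF := kf_cnt (L := L) (s := s) hAc (fun j => S.filter fun q => On v (sl (r j) (c j) false q) = l) c Prod.snd
    (fun j => kf_false h hv l j)
    (by
      rintro j ⟨q, hq⟩
      rw [Finset.mem_filter] at hq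
      have h1 := hgr q hq.1
      have h2 := hD.c_mem j
      refine ⟨(q.1, c j), Finset.mem_filter.2 ⟨?_, hq.2⟩, rfl⟩
      unfold grid
      rw [Finset.mem_product, Finset.mem_Ico, Finset.mem_Ico]
      exact ⟨⟨h1.1, h1.2.1⟩, h2⟩)
    (by
      intro z hz
      have h1 := hAm z hz
      have h2 := hD.c_cnt z.2 h1.2.2.1 h1.2.2.2
      omega)
  calc ∑ j : Fin L, (S.filter fun q => ∃ γ, On v (sl (r j) (c j) γ q) = l).card
      ≤ ∑ j : Fin L, ((S.filter fun q => On v (sl (r j) (c j) true q) = l).card +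
          (S.filter fun q => On v (sl (r j) (c j) false q) = l).card) :=
        Finset.sum_le_sum fun j _ => kf_split S v l (r j) (c j)
    _ = _ := Finset.sum_add_distrib
    _ ≤ s ^ 2 * ((N - 1) / hgt v + 1) + s ^ 2 * ((N - 1) / hgt v + 1) := add_le_add hT hF
    _ = 2 * s ^ 2 * ((N - 1) / hgt v + 1) := by ring

private theorem kf_lst (d : ℤ → ℕ) (N L : ℕ) (hL : ∑ x ∈ Finset.Ico (0 : ℤ) N, d x = L) :
    ∃ r : Fin L → ℤ, (∀ i, 0 ≤ r i ∧ r i < N) ∧
      ∀ x : ℤ, 0 ≤ x → x < N → (univ.filter fun i => r i = x).card = d x := by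
  classical
  have hc : Fintype.card (Σ x : {x // x ∈ Finset.Ico (0 : ℤ) N}, Fin (d x.1)) = L := by
    rw [Fintype.card_sigma, ← hL]
    simp only [Fintype.card_fin]
    exact Finset.sum_coe_sort (Finset.Ico (0 : ℤ) N) d
  let e : Fin L ≃ (Σ x : {x // x ∈ Finset.Ico (0 : ℤ) N}, Fin (d x.1)) :=
    (Fintype.equivFinOfCardEq hc).symm
  refine ⟨fun i => (e i).1.1, fun i => ?_, fun x hx0 hxN => ?_⟩
  · have := (e i).1.2
    rw [Finset.mem_Ico] at this
    exact this
  · have hx : x ∈ Finset.Ico (0 : ℤ) N := Finset.mem_Ico.2 ⟨hx0, hxN⟩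
    have h1 : (univ.filter fun i : Fin L => (e i).1.1 = x)
        = (univ : Finset (Fin (d x))).map
          ⟨fun j => e.symm ⟨⟨x, hx⟩, j⟩, by
            intro a b hab
            have h2 := e.symm.injective hab
            simpa using h2⟩ := by
      ext i
      simp only [mem_filter, mem_univ, true_and, mem_map, Function.Embedding.coeFn_mk]
      constructor
      · intro h
        rcases hei : e i with ⟨⟨y, hy⟩, j⟩
        rw [hei] at h
        dsimp at h
        subst h
        refine ⟨j, ?_⟩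
        rw [Equiv.symm_apply_eq, hei]
      · rintro ⟨j, rfl⟩
        rw [Equiv.apply_symm_apply]
    rw [h1, card_map, card_univ, Fintype.card_fin]

private theorem kf_sm (s N : ℕ) (S : Finset (ℤ × ℤ)) (f : ℤ × ℤ → ℤ)
    (hf : ∀ p ∈ S, 0 ≤ f p ∧ f p < N) (hs : ∀ x : ℤ, (S.filter fun p => f p = x).card ≤ s) :
    ∑ x ∈ Finset.Ico (0 : ℤ) N, (s - (S.filter fun p => f p = x).card) + S.card = s * N := by
  have h1 : S.card = ∑ x ∈ Finset.Ico (0 : ℤ) N, (S.filter fun p => f p = x).card :=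
    card_eq_sum_card_fiberwise (fun p hp => by
      have := hf p hp
      simpa using this)
  rw [h1, ← sum_add_distrib]
  have h2 : ∀ x ∈ Finset.Ico (0 : ℤ) N,
      (s - (S.filter fun p => f p = x).card) + (S.filter fun p => f p = x).card = s := by
    intro x _
    exact Nat.sub_add_cancel (hs x)
  rw [sum_congr rfl h2, sum_const, Int.card_Ico, smul_eq_mul]
  simp [mul_comm]

theorem k_sq (h : RC s N S) : ∃ (L : ℕ) (r c : Fin L → ℤ), Def s N L S r c := by
  have hg : ∀ p ∈ S, (0 ≤ p.1 ∧ p.1 < N) ∧ (0 ≤ p.2 ∧ p.2 < N) := by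
    intro p hp
    have h1 := h.sub hp
    unfold grid at h1
    rw [mem_product, Finset.mem_Ico, Finset.mem_Ico] at h1
    exact h1
  have hr := kf_sm s N S (fun p => p.1) (fun p hp => (hg p hp).1) h.col
  have hc := kf_sm s N S (fun p => p.2) (fun p hp => (hg p hp).2) h.row
  obtain ⟨r, hr1, hr2⟩ := kf_lst (fun x => s - (S.filter fun p => p.1 = x).card) N _ rfl
  obtain ⟨c, hc1, hc2⟩ := kf_lst (fun x => s - (S.filter fun p => p.2 = x).card) N
    (∑ x ∈ Finset.Ico (0 : ℤ) N, (s - (S.filter fun p => p.1 = x).card)) (by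
      have h1 := hr.trans hc.symm
      exact (Nat.add_right_cancel h1).symm)
  refine ⟨_, r, c, ⟨hr, hr1, hc1, fun x hx0 hxN => ?_, fun y hy0 hyN => ?_⟩⟩
  · rw [hr2 x hx0 hxN]
    exact Nat.sub_add_cancel (h.col x)
  · rw [hc2 y hy0 hyN]
    exact Nat.sub_add_cancel (h.row y)

end Pool.Agent.NKL
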