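import Pool.Agent.NKL.K3F
import Pool.Agent.NKL.FQ2

set_option autoImplicit false

/-!
# NKL / K3G : the number of conflicts, stage 3

`avl3_card`: `{p ∈ S | (r, p.2) ∈ S}`: `p.2` has at most `s` values (`RC.col`), each with at most `s`
points (`RC.row`); the same for `(p.1, c)`.
`avl3_ne`: if `p.1 = r`, then `(r, p.2) = p ∈ S`.
`kq2`: `p = q`: at most `L`; `(r i, p.2) = (r j, q.2)`: at most `s` indices `j` with `r j = r i`
(`def_mult`) and at most `s` points `q` with `q.2 = p.2`; the other three types similarly.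
`kqa`: the line through the two new cells of `i` (different, `avl3_ne`) is unique (`skew_unique`):
`k_sum_L`.  `kqb`: `k_one`.
`kq5`: fix `i`, `p` and the first cell `z`.  If `B5` holds with the skew `v`, then the line contains two
different grid points (`r_mem`, `c_mem`, `RC.sub`), so `hgt v < N`, and we may take `v ∈ Dir N`
(`prim_dir`, `On_neg`).  So the sum is at most `2 ∑_{v ∈ SDir N} H(v)^4` with
`H(v) = ∑_j #{q | a new cell on the line} ≤ 2 s L` and `≤ 2 s² ((N-1)/h + 1) ≤ 4 s² N/h`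
(`k_sum_L`, `k_sum_N`).  With `card_hgt`/`sum_dir`:
`∑_{h ≤ K} 8 h (2 s L)^4 ≤ 128 K² s⁴ L⁴`, `∑_{h > K} 8 h (4 s² N/h)^4 ≤ 2048 s⁸ N⁴ ∑_{h > K} 1/h³
≤ 2048 s⁸ N⁴/K²` (`sum_inv_sq`).
-/

namespace Pool.Agent.NKL

open Finset

variable {s N L : ℕ} {S : Finset (ℤ × ℤ)} {r c : Fin L → ℤ}

private theorem k3g_A (h : RC s N S)
    (r : ℤ) : (S.filter fun p => (r, p.2) ∈ S).card ≤ s ^ 2 := by
  classical
  have h1 : (S.filter fun p => (r, p.2) ∈ S) ⊆
      ((S.filter fun p => p.1 = r).image Prod.snd).biUnion (fun y => S.filter fun p => p.2 = y) := by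
    intro p hp
    rw [mem_filter] at hp
    rw [mem_biUnion]
    refine ⟨p.2, ?_, ?_⟩
    · rw [mem_image]
      exact ⟨(r, p.2), mem_filter.2 ⟨hp.2, rfl⟩, rfl⟩
    · exact mem_filter.2 ⟨hp.1, rfl⟩
  refine (card_le_card h1).trans ?_
  refine (card_biUnion_le_card_mul _ _ s (fun y _ => h.row y)).trans ?_
  rw [pow_two]
  exact Nat.mul_le_mul_right _ (card_image_le.trans (h.col r))

private theorem k3g_B (h : RC s N S)
    (c : ℤ) : (S.filter fun p => (p.1, c) ∈ S).card ≤ s ^ 2 := by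
  classical
  have h1 : (S.filter fun p => (p.1, c) ∈ S) ⊆
      ((S.filter fun p => p.2 = c).image Prod.fst).biUnion (fun y => S.filter fun p => p.1 = y) := by
    intro p hp
    rw [mem_filter] at hp
    rw [mem_biUnion]
    refine ⟨p.1, ?_, ?_⟩
    · rw [mem_image]
      exact ⟨(p.1, c), mem_filter.2 ⟨hp.2, rfl⟩, rfl⟩
    · exact mem_filter.2 ⟨hp.1, rfl⟩
  refine (card_le_card h1).trans ?_
  refine (card_biUnion_le_card_mul _ _ s (fun y _ => h.col y)).trans ?_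
  rw [pow_two]
  exact Nat.mul_le_mul_right _ (card_image_le.trans (h.row c))

theorem avl3_card (h : RC s N S) (r c : ℤ) : S.card ≤ (avl3 S r c).card + 2 * s ^ 2 := by
  classical
  have h1 : S ⊆ (avl3 S r c ∪ (S.filter fun p => (r, p.2) ∈ S)) ∪ (S.filter fun p => (p.1, c) ∈ S) := by
    intro p hp
    rw [mem_union, mem_union]
    by_cases hA : (r, p.2) ∈ S
    · exact Or.inl (Or.inr (mem_filter.2 ⟨hp, hA⟩))
    by_cases hB : (p.1, c) ∈ S
    · exact Or.inr (mem_filter.2 ⟨hp, hB⟩)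
    · refine Or.inl (Or.inl ?_)
      unfold avl3
      rw [mem_filter]
      exact ⟨hp, hA, hB⟩
  have h2 := card_le_card h1
  have h4 := card_union_le (avl3 S r c ∪ (S.filter fun p => (r, p.2) ∈ S)) (S.filter fun p => (p.1, c) ∈ S)
  have h5 := card_union_le (avl3 S r c) (S.filter fun p => (r, p.2) ∈ S)
  have h7 := k3g_A h r
  have h8 := k3g_B h c
  omega


theorem avl3_ne {r c : ℤ} {p : ℤ × ℤ} (hp : p ∈ avl3 S r c) : p.1 ≠ r ∧ p.2 ≠ c := by
  unfold avl3 at hp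
  rw [mem_filter] at hp
  obtain ⟨h1, h2, h3⟩ := hp
  refine ⟨fun h => h2 ?_, fun h => h3 ?_⟩
  · rw [← h]
    exact h1
  · rw [← h]
    exact h1


theorem B2c_symm (r c : Fin L → ℤ) (i j : Fin L) (p q : ℤ × ℤ) (h : B2c r c i j p q) :
    B2c r c j i q p := by
  rcases h with h | ⟨β, γ, h⟩
  · exact Or.inl h.symm
  · exact Or.inr ⟨γ, β, h.symm⟩


theorem B5_swap (r c : Fin L → ℤ) (i j k l m : Fin L) (p q u w x : ℤ × ℤ)
    (h : B5 r c i j k l m p q u w x) :
    B5 r c j i k l m q p u w x ∧ B5 r c k j i l m u q p w x ∧ B5 r c l j k i m w q u p x ∧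
      B5 r c m j k l i x q u w p := by
  obtain ⟨β₁, β₂, β₃, β₄, β₅, hn, v, hv, h2, h3, h4, h5⟩ := h
  refine ⟨⟨β₂, β₁, β₃, β₄, β₅, ?_, v, hv, h2.symm, h3.trans h2.symm, h4.trans h2.symm, h5.trans h2.symm⟩,
    ⟨β₃, β₂, β₁, β₄, β₅, ?_, v, hv, h2.trans h3.symm, h3.symm, h4.trans h3.symm, h5.trans h3.symm⟩,
    ⟨β₄, β₂, β₃, β₁, β₅, ?_, v, hv, h2.trans h4.symm, h3.trans h4.symm, h4.symm, h5.trans h4.symm⟩,
    ⟨β₅, β₂, β₃, β₄, β₁, ?_, v, hv, h2.trans h5.symm, h3.trans h5.symm, h4.trans h5.symm, h5.symm⟩⟩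
  all_goals
    simp only [List.nodup_cons, List.mem_cons, List.not_mem_nil, or_false, not_or, not_false_iff,
      List.nodup_nil, and_true] at hn ⊢
    obtain ⟨⟨a, b, c, d⟩, ⟨e, f, g⟩, ⟨x, y⟩, z⟩ := hn
    refine ⟨⟨?_, ?_, ?_, ?_⟩, ⟨?_, ?_, ?_⟩, ⟨?_, ?_⟩, ?_⟩ <;> first | assumption | exact Ne.symm ‹_›


private theorem k3g_cm {s L : ℕ} (x : Fin L → ℤ) (a : ℤ)
    (hx : (univ.filter fun j => x j = a).card ≤ s) (g : Fin L → Finset (ℤ × ℤ))
    (hg : ∀ j, (g j).card ≤ s) (hne : ∀ j, (g j).Nonempty → x j = a) :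
    ∑ j : Fin L, (g j).card ≤ s * s := by
  have h1 : ∑ j : Fin L, (g j).card = ∑ j ∈ univ.filter (fun j => x j = a), (g j).card := by
    symm
    refine Finset.sum_subset (Finset.subset_univ _) fun j _ hj => ?_
    have : ¬ (g j).Nonempty := fun h => hj (Finset.mem_filter.2 ⟨Finset.mem_univ _, hne j h⟩)
    rw [Finset.not_nonempty_iff_eq_empty.1 this, Finset.card_empty]
  rw [h1]
  refine (Finset.sum_le_card_nsmul _ _ s fun j _ => hg j).trans ?_
  rw [smul_eq_mul]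
  exact Nat.mul_le_mul_right s hx

open Classical in
private theorem k3g_common (h : RC s N S) (hD : Def s N L S r c) (i : Fin L) (p : ℤ × ℤ)
    (β γ : Bool) :
    ∑ j : Fin L, (S.filter fun q => sl (r i) (c i) β p = sl (r j) (c j) γ q).card ≤ s * s := by
  obtain ⟨hr, hc⟩ := def_mult hD
  cases γ
  · refine k3g_cm c (sl (r i) (c i) β p).2 (hc _) _ (fun j => ?_) fun j => ?_
    · refine le_trans (Finset.card_le_card ?_) (h.col (sl (r i) (c i) β p).1)
      intro q hq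
      rw [Finset.mem_filter] at hq ⊢
      exact ⟨hq.1, (congrArg Prod.fst hq.2).symm⟩
    · rintro ⟨q, hq⟩
      rw [Finset.mem_filter] at hq
      exact (congrArg Prod.snd hq.2).symm
  · refine k3g_cm r (sl (r i) (c i) β p).1 (hr _) _ (fun j => ?_) fun j => ?_
    · refine le_trans (Finset.card_le_card ?_) (h.row (sl (r i) (c i) β p).2)
      intro q hq
      rw [Finset.mem_filter] at hq ⊢
      exact ⟨hq.1, (congrArg Prod.snd hq.2).symm⟩
    · rintro ⟨q, hq⟩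
      rw [Finset.mem_filter] at hq
      exact (congrArg Prod.fst hq.2).symm

open Classical in
theorem kq2 (h : RC s N S) (hD : Def s N L S r c) (i : Fin L) {p : ℤ × ℤ} (hp : p ∈ S) :
    ∑ j : Fin L, (S.filter fun q => B2c r c i j p q).card ≤ L + 4 * s ^ 2 := by
  have hA : ∑ j : Fin L, (S.filter fun q => p = q).card ≤ L := by
    refine (Finset.sum_le_card_nsmul _ _ 1 fun j _ => ?_).trans ?_
    · refine (Finset.card_le_card (t := {p}) ?_).trans (by rw [Finset.card_singleton])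
      intro q hq
      rw [Finset.mem_singleton]
      exact (Finset.mem_filter.1 hq).2.symm
    · rw [Finset.card_univ, Fintype.card_fin, smul_eq_mul, mul_one]
  have hB : ∑ j : Fin L, (S.filter fun q => ∃ β γ, sl (r i) (c i) β p = sl (r j) (c j) γ q).card
      ≤ 4 * s ^ 2 := by
    have h1 : ∀ j : Fin L, (S.filter fun q => ∃ β γ, sl (r i) (c i) β p = sl (r j) (c j) γ q).card ≤
        ∑ β : Bool, ∑ γ : Bool, (S.filter fun q => sl (r i) (c i) β p = sl (r j) (c j) γ q).card := by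
      intro j
      refine le_trans (Finset.card_le_card (t := (univ : Finset Bool).biUnion fun β =>
        (univ : Finset Bool).biUnion fun γ =>
          S.filter fun q => sl (r i) (c i) β p = sl (r j) (c j) γ q) ?_) ?_
      · intro q hq
        rw [Finset.mem_filter] at hq
        obtain ⟨hqS, β, γ, he⟩ := hq
        rw [Finset.mem_biUnion]
        refine ⟨β, Finset.mem_univ _, ?_⟩
        rw [Finset.mem_biUnion]
        exact ⟨γ, Finset.mem_univ _, Finset.mem_filter.2 ⟨hqS, he⟩⟩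
      · refine (Finset.card_biUnion_le).trans (Finset.sum_le_sum fun v _ => ?_)
        exact Finset.card_biUnion_le
    refine (Finset.sum_le_sum fun j _ => h1 j).trans ?_
    rw [Finset.sum_comm]
    refine (Finset.sum_le_card_nsmul _ _ (2 * (s * s)) fun β _ => ?_).trans ?_
    · rw [Finset.sum_comm]
      refine (Finset.sum_le_card_nsmul _ _ (s * s) fun γ _ => k3g_common h hD i p β γ).trans ?_
      rw [Finset.card_univ, Fintype.card_bool, smul_eq_mul]
    · rw [Finset.card_univ, Fintype.card_bool, smul_eq_mul]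
      exact le_of_eq (by ring)
  have hF : ∀ j : Fin L, (S.filter fun q => B2c r c i j p q).card ≤
      (S.filter fun q => p = q).card +
      (S.filter fun q => ∃ β γ, sl (r i) (c i) β p = sl (r j) (c j) γ q).card := by
    intro j
    refine le_trans (Finset.card_le_card (t := ((S.filter fun q => p = q) ∪
      (S.filter fun q => ∃ β γ, sl (r i) (c i) β p = sl (r j) (c j) γ q))) ?_)
      (Finset.card_union_le _ _)
    intro q hq
    rw [Finset.mem_filter] at hq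
    obtain ⟨hqS, h1 | h1⟩ := hq
    · exact Finset.mem_union_left _ (Finset.mem_filter.2 ⟨hqS, h1⟩)
    · exact Finset.mem_union_right _ (Finset.mem_filter.2 ⟨hqS, h1⟩)
  refine (Finset.sum_le_sum fun j _ => hF j).trans ?_
  rw [Finset.sum_add_distrib]
  exact Nat.add_le_add hA hB


open Classical in
private theorem k3g_a (i j : Fin L) {p : ℤ × ℤ}
    (hne : sl (r i) (c i) false p ≠ sl (r i) (c i) true p) {v : ℤ × ℤ} (hv : Skew v)
    (ho : On v (sl (r i) (c i) false p) = On v (sl (r i) (c i) true p)) :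
    (S.filter fun q => B2a r c i j p q) ⊆
      S.filter fun q => ∃ γ, On v (sl (r j) (c j) γ q) = On v (sl (r i) (c i) true p) := by
  intro q hq
  rw [mem_filter] at hq ⊢
  obtain ⟨hqS, w, hw, hwo, γ, hγ⟩ := hq
  refine ⟨hqS, γ, ?_⟩
  rcases skew_unique hv hw hne ho hwo with h1 | h1
  · rw [← h1]
    exact hγ
  · rw [h1, On_neg, On_neg] at hγ
    linarith

open Classical in
theorem kqa (h : RC s N S) (i : Fin L) {p : ℤ × ℤ} (hp : p ∈ avl3 S (r i) (c i)) :
    ∑ j : Fin L, (S.filter fun q => B2a r c i j p q).card ≤ 2 * s * L := by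
  have hne : sl (r i) (c i) false p ≠ sl (r i) (c i) true p := by
    intro he
    exact (avl3_ne hp).1 (congrArg Prod.fst he)
  by_cases hex : ∃ v, Skew v ∧ On v (sl (r i) (c i) false p) = On v (sl (r i) (c i) true p)
  · obtain ⟨v, hv, ho⟩ := hex
    exact (sum_le_sum fun j _ => card_le_card (k3g_a i j hne hv ho)).trans
      (k_sum_L (r := r) (c := c) h hv _)
  · have h1 : ∀ j : Fin L, (S.filter fun q => B2a r c i j p q).card = 0 := by
      intro j
      rw [card_eq_zero, eq_empty_iff_forall_notMem]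
      intro q hq
      obtain ⟨_, w, hw, hwo, _⟩ := mem_filter.1 hq
      exact hex ⟨w, hw, hwo⟩
    rw [sum_eq_zero fun j _ => h1 j]
    exact Nat.zero_le _


open Classical in
theorem kqb (h : RC s N S) (i j : Fin L) {p : ℤ × ℤ} (hp : p ∈ avl3 S (r i) (c i)) :
    (S.filter fun q => B2a r c i j p q).card ≤ 2 * s := by
  have hne : sl (r i) (c i) false p ≠ sl (r i) (c i) true p := by
    intro he
    exact (avl3_ne hp).1 (congrArg Prod.fst he)
  by_cases hex : ∃ v, Skew v ∧ On v (sl (r i) (c i) false p) = On v (sl (r i) (c i) true p)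
  · obtain ⟨v, hv, ho⟩ := hex
    exact (card_le_card (k3g_a i j hne hv ho)).trans (k_one (r := r) (c := c) h hv _ j)
  · have h1 : (S.filter fun q => B2a r c i j p q).card = 0 := by
      rw [card_eq_zero, eq_empty_iff_forall_notMem]
      intro q hq
      obtain ⟨_, w, hw, hwo, _⟩ := mem_filter.1 hq
      exact hex ⟨w, hw, hwo⟩
    rw [h1]
    exact Nat.zero_le _


private theorem k3g_dvd {v P Q : ℤ × ℤ} (hv : Skew v) (hPQ : P ≠ Q) (hl : On v P = On v Q) :
    v.1.natAbs ≤ (P.1 - Q.1).natAbs ∧ v.2.natAbs ≤ (P.2 - Q.2).natAbs := by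
  obtain ⟨hg, h1, h2⟩ := hv
  have hco : IsCoprime v.1 v.2 := Int.isCoprime_iff_gcd_eq_one.2 hg
  have e : v.2 * (P.1 - Q.1) = v.1 * (P.2 - Q.2) := by
    unfold On at hl
    linarith
  have d1 : v.1 ∣ P.1 - Q.1 := hco.dvd_of_dvd_mul_left (Dvd.intro _ e.symm)
  have d2 : v.2 ∣ P.2 - Q.2 := hco.symm.dvd_of_dvd_mul_left (Dvd.intro _ e)
  have n1 : P.1 - Q.1 ≠ 0 := by
    intro h0
    rw [h0, mul_zero] at e
    rcases mul_eq_zero.1 e.symm with h3 | h3
    · exact h1 h3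
    · exact hPQ (Prod.ext (by linarith) (by linarith))
  have n2 : P.2 - Q.2 ≠ 0 := by
    intro h0
    rw [h0, mul_zero] at e
    rcases mul_eq_zero.1 e with h3 | h3
    · exact h2 h3
    · exact n1 h3
  exact ⟨Int.natAbs_le_of_dvd_ne_zero d1 n1, Int.natAbs_le_of_dvd_ne_zero d2 n2⟩

private theorem k3g_hgt {v P Q : ℤ × ℤ} (hv : Skew v) (hPQ : P ≠ Q) (hl : On v P = On v Q)
    (hP : P ∈ grid N) (hQ : Q ∈ grid N) : hgt v ≤ N := by
  obtain ⟨a, b⟩ := k3g_dvd hv hPQ hl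
  unfold grid at hP hQ
  rw [mem_product, mem_Ico, mem_Ico] at hP hQ
  unfold hgt
  omega

private theorem k3g_grid (h : RC s N S) (hD : Def s N L S r c) (i : Fin L) {p : ℤ × ℤ} (hp : p ∈ S)
    (β : Bool) : sl (r i) (c i) β p ∈ grid N := by
  have h1 := h.sub hp
  have h2 := hD.r_mem i
  have h3 := hD.c_mem i
  unfold grid at h1 ⊢
  unfold sl
  rw [mem_product, mem_Ico, mem_Ico] at h1 ⊢
  by_cases hβ : β = true
  · rw [if_pos hβ]
    exact ⟨h2, h1.2⟩
  · rw [if_neg hβ]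
    exact ⟨h1.1, h3⟩

private theorem k3g_quad {ι κ : Type} [Fintype ι] (X : Finset κ) (f : κ → ι → ℕ) :
    ∑ j : ι, ∑ k : ι, ∑ l : ι, ∑ m : ι, ∑ x ∈ X, f x j * (f x k * (f x l * f x m)) =
      ∑ x ∈ X, (∑ j, f x j) ^ 4 := by
  have h0 : ∀ j k l : ι, ∑ m : ι, ∑ x ∈ X, f x j * (f x k * (f x l * f x m)) =
      ∑ x ∈ X, ∑ m : ι, f x j * (f x k * (f x l * f x m)) := fun j k l => Finset.sum_comm
  have h1 : ∀ j k : ι, ∑ l : ι, ∑ x ∈ X, ∑ m : ι, f x j * (f x k * (f x l * f x m)) =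
      ∑ x ∈ X, ∑ l : ι, ∑ m : ι, f x j * (f x k * (f x l * f x m)) := fun j k => Finset.sum_comm
  have h2 : ∀ j : ι, ∑ k : ι, ∑ x ∈ X, ∑ l : ι, ∑ m : ι, f x j * (f x k * (f x l * f x m)) =
      ∑ x ∈ X, ∑ k : ι, ∑ l : ι, ∑ m : ι, f x j * (f x k * (f x l * f x m)) :=
    fun j => Finset.sum_comm
  simp only [h0, h1, h2]
  rw [Finset.sum_comm]
  refine Finset.sum_congr rfl fun x _ => ?_
  have h3 : (∑ j, f x j) ^ 4 = (∑ j, f x j) * ((∑ k, f x k) * ((∑ l, f x l) * (∑ m, f x m))) := by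
    ring
  rw [h3, Finset.sum_mul]
  refine Finset.sum_congr rfl fun j _ => ?_
  rw [Finset.sum_mul, Finset.mul_sum]
  refine Finset.sum_congr rfl fun k _ => ?_
  rw [Finset.sum_mul, Finset.mul_sum, Finset.mul_sum]
  refine Finset.sum_congr rfl fun l _ => ?_
  rw [Finset.mul_sum, Finset.mul_sum, Finset.mul_sum]

open Classical in
/-- the points with a new cell on the line -/
private noncomputable def k3gQ (S : Finset (ℤ × ℤ)) (r c : Fin L → ℤ) (v : ℤ × ℤ) (l : ℤ) (j : Fin L) :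
    Finset (ℤ × ℤ) := S.filter fun q => ∃ γ, On v (sl (r j) (c j) γ q) = l

open Classical in
private theorem k3g_count (h : RC s N S) (hD : Def s N L S r c) (i j k l m : Fin L) {p : ℤ × ℤ}
    (hp : p ∈ S) :
    ((S ×ˢ S ×ˢ S ×ˢ S).filter
      fun z => B5 r c i j k l m p z.1 z.2.1 z.2.2.1 z.2.2.2).card ≤
      ∑ x ∈ (univ : Finset Bool) ×ˢ ((Dir N).filter fun v => v.1 ≠ 0 ∧ v.2 ≠ 0),
        (k3gQ S r c x.2 (On x.2 (sl (r i) (c i) x.1 p)) j).card *
        ((k3gQ S r c x.2 (On x.2 (sl (r i) (c i) x.1 p)) k).card *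
         ((k3gQ S r c x.2 (On x.2 (sl (r i) (c i) x.1 p)) l).card *
          (k3gQ S r c x.2 (On x.2 (sl (r i) (c i) x.1 p)) m).card)) := by
  have hsub : ((S ×ˢ S ×ˢ S ×ˢ S).filter
      fun z => B5 r c i j k l m p z.1 z.2.1 z.2.2.1 z.2.2.2) ⊆
      ((univ : Finset Bool) ×ˢ ((Dir N).filter fun v => v.1 ≠ 0 ∧ v.2 ≠ 0)).biUnion fun x =>
        k3gQ S r c x.2 (On x.2 (sl (r i) (c i) x.1 p)) j ×ˢ
        (k3gQ S r c x.2 (On x.2 (sl (r i) (c i) x.1 p)) k ×ˢ
         (k3gQ S r c x.2 (On x.2 (sl (r i) (c i) x.1 p)) l ×ˢ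
          k3gQ S r c x.2 (On x.2 (sl (r i) (c i) x.1 p)) m)) := by
    rintro ⟨q, u, w, y⟩ hz
    rw [mem_filter, mem_product, mem_product, mem_product] at hz
    obtain ⟨⟨hq, hu, hw, hy⟩, β₁, β₂, β₃, β₄, β₅, hn, v, hv, h2, h3, h4, h5⟩ := hz
    have hne : sl (r j) (c j) β₂ q ≠ sl (r i) (c i) β₁ p := by
      intro he
      simp only [List.nodup_cons, List.mem_cons, not_or] at hn
      exact hn.1.1 he.symm
    have hh : hgt v ≤ N := k3g_hgt hv hne h2 (k3g_grid h hD j hq β₂) (k3g_grid h hD i hp β₁)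
    rw [mem_biUnion]
    rcases prim_dir hv.1 hh with hd | hd
    · refine ⟨(β₁, v), ?_, ?_⟩
      · rw [mem_product, mem_filter]
        exact ⟨mem_univ _, hd, hv.2.1, hv.2.2⟩
      · rw [mem_product, mem_product, mem_product]
        unfold k3gQ
        rw [mem_filter, mem_filter, mem_filter, mem_filter]
        exact ⟨⟨hq, β₂, h2⟩, ⟨hu, β₃, h3⟩, ⟨hw, β₄, h4⟩, ⟨hy, β₅, h5⟩⟩
    · refine ⟨(β₁, (-v.1, -v.2)), ?_, ?_⟩
      · rw [mem_product, mem_filter]
        exact ⟨mem_univ _, hd, neg_ne_zero.2 hv.2.1, neg_ne_zero.2 hv.2.2⟩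
      · rw [mem_product, mem_product, mem_product]
        unfold k3gQ
        rw [mem_filter, mem_filter, mem_filter, mem_filter]
        simp only [On_neg, neg_inj]
        exact ⟨⟨hq, β₂, h2⟩, ⟨hu, β₃, h3⟩, ⟨hw, β₄, h4⟩, ⟨hy, β₅, h5⟩⟩
  refine (card_le_card hsub).trans (card_biUnion_le.trans (le_of_eq ?_))
  refine Finset.sum_congr rfl fun x _ => ?_
  rw [card_product, card_product, card_product]

open Classical in
theorem kq5 (h : RC s N S) (hD : Def s N L S r c) (i : Fin L) {p : ℤ × ℤ} (hp : p ∈ S)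
    (K : ℕ) (hK : 1 ≤ K) :
    ((∑ j : Fin L, ∑ k : Fin L, ∑ l : Fin L, ∑ m : Fin L,
      ((S ×ˢ S ×ˢ S ×ˢ S).filter
        fun z => B5 r c i j k l m p z.1 z.2.1 z.2.2.1 z.2.2.2).card : ℕ) : ℝ)
      ≤ 256 * (K : ℝ) ^ 2 * s ^ 4 * L ^ 4 + 4096 * s ^ 8 * N ^ 4 / (K : ℝ) ^ 2 := by
  have hK' : (1 : ℝ) ≤ K := by exact_mod_cast hK
  have hK0 : (0 : ℝ) < K := by linarith
  set D' : Finset (ℤ × ℤ) := (Dir N).filter fun v => v.1 ≠ 0 ∧ v.2 ≠ 0 with hD'
  set X : Finset (Bool × (ℤ × ℤ)) := (univ : Finset Bool) ×ˢ D' with hX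
  set f : Bool × (ℤ × ℤ) → Fin L → ℕ := fun x j =>
    (k3gQ S r c x.2 (On x.2 (sl (r i) (c i) x.1 p)) j).card with hf
  have h1 : (∑ j : Fin L, ∑ k : Fin L, ∑ l : Fin L, ∑ m : Fin L,
      ((S ×ˢ S ×ˢ S ×ˢ S).filter
        fun z => B5 r c i j k l m p z.1 z.2.1 z.2.2.1 z.2.2.2).card : ℕ) ≤
      ∑ x ∈ X, (∑ j, f x j) ^ 4 := by
    rw [← k3g_quad]
    exact Finset.sum_le_sum fun j _ => Finset.sum_le_sum fun k _ => Finset.sum_le_sum fun l _ =>
      Finset.sum_le_sum fun m _ => k3g_count h hD i j k l m hp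
  -- the bound for one direction
  set g : ℕ → ℝ := fun d => (if d ≤ K then (2 * (s : ℝ) * L) ^ 4 else 0) +
    (if K < d then (4 * (s : ℝ) ^ 2 * N) ^ 4 / (d : ℝ) ^ 4 else 0) with hg
  have hg0 : ∀ d, 0 ≤ g d := by
    intro d
    refine add_nonneg ?_ ?_
    · split_ifs <;> positivity
    · split_ifs <;> positivity
  have hone : ∀ x ∈ X, ((∑ j, f x j : ℕ) : ℝ) ^ 4 ≤ g (hgt x.2) := by
    intro x hx
    rw [hX, mem_product, hD', mem_filter] at hx
    obtain ⟨-, hd, hv1, hv2⟩ := hx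
    have hv : Skew x.2 := ⟨dir_gcd hd, hv1, hv2⟩
    by_cases hk : hgt x.2 ≤ K
    · have e1 : g (hgt x.2) = (2 * (s : ℝ) * L) ^ 4 := by
        show (if hgt x.2 ≤ K then (2 * (s : ℝ) * L) ^ 4 else 0) +
          (if K < hgt x.2 then (4 * (s : ℝ) ^ 2 * N) ^ 4 / ((hgt x.2 : ℕ) : ℝ) ^ 4 else 0) = _
        rw [if_pos hk, if_neg (not_lt.2 hk), add_zero]
      rw [e1]
      have e2 := k_sum_L (r := r) (c := c) h hv (On x.2 (sl (r i) (c i) x.1 p))
      have e3 : ((∑ j, f x j : ℕ) : ℝ) ≤ 2 * s * L := by exact_mod_cast e2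
      exact pow_le_pow_left₀ (Nat.cast_nonneg _) e3 4
    · have hk' : K < hgt x.2 := not_le.1 hk
      have e1 : g (hgt x.2) = (4 * (s : ℝ) ^ 2 * N) ^ 4 / ((hgt x.2 : ℕ) : ℝ) ^ 4 := by
        show (if hgt x.2 ≤ K then (2 * (s : ℝ) * L) ^ 4 else 0) +
          (if K < hgt x.2 then (4 * (s : ℝ) ^ 2 * N) ^ 4 / ((hgt x.2 : ℕ) : ℝ) ^ 4 else 0) = _
        rw [if_neg hk, if_pos hk', zero_add]
      rw [e1, ← div_pow]
      have e2 := k_sum_N h hD hv (On x.2 (sl (r i) (c i) x.1 p))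
      have hh : hgt x.2 ≤ N := dir_hgt hd
      have hh0 : 0 < hgt x.2 := by omega
      have hh0' : (0 : ℝ) < (hgt x.2 : ℕ) := by exact_mod_cast hh0
      have e3 : ((∑ j, f x j : ℕ) : ℝ) ≤ 2 * s ^ 2 * (((N - 1) / hgt x.2 : ℕ) + 1) := by exact_mod_cast e2
      have e4 : (((N - 1) / hgt x.2 : ℕ) : ℝ) + 1 ≤ 2 * N / (hgt x.2 : ℕ) := by
        have k1 : (((N - 1) / hgt x.2 : ℕ) : ℝ) ≤ ((N - 1 : ℕ) : ℝ) / (hgt x.2 : ℕ) := Nat.cast_div_le
        have k2 : ((N - 1 : ℕ) : ℝ) ≤ N := by exact_mod_cast Nat.sub_le _ _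
        have k3 : ((hgt x.2 : ℕ) : ℝ) ≤ N := by exact_mod_cast hh
        have k4 : ((N - 1 : ℕ) : ℝ) / (hgt x.2 : ℕ) ≤ (N : ℝ) / (hgt x.2 : ℕ) :=
          div_le_div_of_nonneg_right k2 hh0'.le
        have k5 : (1 : ℝ) ≤ (N : ℝ) / (hgt x.2 : ℕ) := by
          rw [le_div_iff₀ hh0', one_mul]
          exact k3
        have k6 : 2 * (N : ℝ) / (hgt x.2 : ℕ) = (N : ℝ) / (hgt x.2 : ℕ) + (N : ℝ) / (hgt x.2 : ℕ) := by ring
        rw [k6]
        linarith
      have e5 : ((∑ j, f x j : ℕ) : ℝ) ≤ 4 * (s : ℝ) ^ 2 * N / (hgt x.2 : ℕ) := by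
        refine e3.trans ((mul_le_mul_of_nonneg_left e4 (by positivity)).trans (le_of_eq ?_))
        ring
      exact pow_le_pow_left₀ (Nat.cast_nonneg _) e5 4
  have h2 : ((∑ x ∈ X, (∑ j, f x j) ^ 4 : ℕ) : ℝ) ≤ 2 * ∑ d ∈ Finset.Ioc 0 N, 8 * (d : ℝ) * g d := by
    push_cast
    calc ∑ x ∈ X, (∑ j, (f x j : ℝ)) ^ 4 ≤ ∑ x ∈ X, g (hgt x.2) := by
          refine Finset.sum_le_sum fun x hx => ?_
          have := hone x hx
          push_cast at this
          exact this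
      _ = 2 * ∑ v ∈ D', g (hgt v) := by
          rw [hX, Finset.sum_product]
          simp only [Finset.sum_const, card_univ, Fintype.card_bool, nsmul_eq_mul]
          norm_num
      _ ≤ 2 * ∑ v ∈ (Dir N).filter (fun v => 0 < hgt v), g (hgt v) := by
          refine mul_le_mul_of_nonneg_left ?_ (by norm_num)
          refine Finset.sum_le_sum_of_subset_of_nonneg ?_ fun v _ _ => hg0 _
          intro v hv
          rw [hD', mem_filter] at hv
          rw [mem_filter]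
          refine ⟨hv.1, ?_⟩
          have := hgt_pos (dir_gcd hv.1)
          omega
      _ ≤ _ := mul_le_mul_of_nonneg_left (sum_dir N 0 g hg0) (by norm_num)
  have h3 : ∑ d ∈ Finset.Ioc 0 N, 8 * (d : ℝ) * g d ≤
      128 * (K : ℝ) ^ 2 * s ^ 4 * L ^ 4 + 2048 * s ^ 8 * N ^ 4 / (K : ℝ) ^ 2 := by
    have e0 : ∀ d : ℕ, 8 * (d : ℝ) * g d = (if d ≤ K then 8 * (d : ℝ) * (2 * (s : ℝ) * L) ^ 4 else 0) +
        (if K < d then 8 * (4 * (s : ℝ) ^ 2 * N) ^ 4 * (1 / (d : ℝ) ^ 3) else 0) := by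
      intro d
      show 8 * (d : ℝ) * ((if d ≤ K then (2 * (s : ℝ) * L) ^ 4 else 0) +
        (if K < d then (4 * (s : ℝ) ^ 2 * N) ^ 4 / (d : ℝ) ^ 4 else 0)) = _
      by_cases hk : d ≤ K
      · rw [if_pos hk, if_pos hk, if_neg (not_lt.2 hk), if_neg (not_lt.2 hk)]
        ring
      · have hk' : K < d := not_le.1 hk
        rw [if_neg hk, if_neg hk, if_pos hk', if_pos hk']
        have hd0 : (d : ℝ) ≠ 0 := by
          have : 0 < d := by omega
          exact_mod_cast this.ne'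
        field_simp
        ring
    simp only [e0]
    rw [Finset.sum_add_distrib]
    refine add_le_add ?_ ?_
    · rw [← Finset.sum_filter]
      have hcard : ((Finset.Ioc 0 N).filter fun d => d ≤ K).card ≤ K := by
        have hs : ((Finset.Ioc 0 N).filter fun d => d ≤ K) ⊆ Finset.Ioc 0 K := by
          intro d hd
          rw [mem_filter, mem_Ioc] at hd
          rw [mem_Ioc]
          exact ⟨hd.1.1, hd.2⟩
        refine (card_le_card hs).trans ?_
        rw [Nat.card_Ioc, Nat.sub_zero]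
      calc ∑ d ∈ (Finset.Ioc 0 N).filter (fun d => d ≤ K), 8 * (d : ℝ) * (2 * (s : ℝ) * L) ^ 4
          ≤ ∑ d ∈ (Finset.Ioc 0 N).filter (fun d => d ≤ K), 8 * (K : ℝ) * (2 * (s : ℝ) * L) ^ 4 := by
            refine Finset.sum_le_sum fun d hd => ?_
            rw [mem_filter] at hd
            have : (d : ℝ) ≤ K := by exact_mod_cast hd.2
            have h0 : (0 : ℝ) ≤ (2 * (s : ℝ) * L) ^ 4 := by positivity
            exact mul_le_mul_of_nonneg_right (by linarith) h0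
        _ = (((Finset.Ioc 0 N).filter fun d => d ≤ K).card : ℝ) * (8 * (K : ℝ) * (2 * (s : ℝ) * L) ^ 4) := by
            rw [Finset.sum_const, nsmul_eq_mul]
        _ ≤ (K : ℝ) * (8 * (K : ℝ) * (2 * (s : ℝ) * L) ^ 4) := by
            refine mul_le_mul_of_nonneg_right ?_ (by positivity)
            exact_mod_cast hcard
        _ = _ := by ring
    · rw [← Finset.sum_filter]
      have hs : ((Finset.Ioc 0 N).filter fun d => K < d) = Finset.Ioc K N := by
        ext d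
        rw [mem_filter, mem_Ioc, mem_Ioc]
        omega
      rw [hs, ← Finset.mul_sum]
      have hcube : ∑ d ∈ Finset.Ioc K N, 1 / (d : ℝ) ^ 3 ≤ 1 / (K : ℝ) * (1 / (K : ℝ)) := by
        have q1 : ∑ d ∈ Finset.Ioc K N, 1 / (d : ℝ) ^ 3 ≤
            ∑ d ∈ Finset.Ioc K N, 1 / (K : ℝ) * (1 / (d : ℝ) ^ 2) := by
          refine Finset.sum_le_sum fun d hd => ?_
          rw [mem_Ioc] at hd
          have q2 : (K : ℝ) ≤ d := by exact_mod_cast hd.1.le
          have q3 : (0 : ℝ) < d := by linarith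
          rw [one_div_mul_one_div]
          refine one_div_le_one_div_of_le (by positivity) ?_
          have q4 : (0 : ℝ) < (d : ℝ) ^ 2 := by positivity
          nlinarith
        rw [← Finset.mul_sum] at q1
        exact q1.trans (mul_le_mul_of_nonneg_left (sum_inv_sq K N hK) (by positivity))
      calc 8 * (4 * (s : ℝ) ^ 2 * N) ^ 4 * ∑ d ∈ Finset.Ioc K N, 1 / (d : ℝ) ^ 3
          ≤ 8 * (4 * (s : ℝ) ^ 2 * N) ^ 4 * (1 / (K : ℝ) * (1 / (K : ℝ))) :=
            mul_le_mul_of_nonneg_left hcube (by positivity)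
        _ = _ := by ring
  have h4 : ((∑ j : Fin L, ∑ k : Fin L, ∑ l : Fin L, ∑ m : Fin L,
      ((S ×ˢ S ×ˢ S ×ˢ S).filter
        fun z => B5 r c i j k l m p z.1 z.2.1 z.2.2.1 z.2.2.2).card : ℕ) : ℝ) ≤
      ((∑ x ∈ X, (∑ j, f x j) ^ 4 : ℕ) : ℝ) := by exact_mod_cast h1
  refine h4.trans (h2.trans ((mul_le_mul_of_nonneg_left h3 (by norm_num)).trans (le_of_eq ?_)))
  ring


end Pool.Agent.NKL
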