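import Pool.Agent.NKL.LLP
import Pool.Agent.NKL.LL4

set_option autoImplicit false

/-!
# NKL / K3L : the local lemma of stage 3 (events with two and five coordinates)

`pr_five_sum`: copy of `pr_four_sum` (LLP).
`ll6`: copy of `ll4` with the events `P2` (pairs, symmetric), `Pa` (pairs, not symmetric), `P5`
(quintuples with different entries, symmetric), `β = 1/2`.  The sum in `lll` at a coordinate `v`:
`4 (2 δ)` (`P2`: `h2`, `hs2`) `+ 4 (2 δ)` (`Pa`: `v` first: `ha1`; `v` second: for each `i` the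
probability of `Pa i v` is at most `δ/|ι|` by `ha2` and `pr_two`) `+ 32 (5 δ)` (`P5`: `h5`, `hs5`):
`176 δ ≤ 1/2`.
-/

namespace Pool.Agent.NKL

open Finset Pool.Agent.ChPi

section

variable {ι Ω : Type} [Fintype ι] [DecidableEq ι] [Fintype Ω] [DecidableEq Ω]

private theorem k3_ex_cond {p : ι → Ω → ℝ} (hp1 : ∀ v, ∑ o, p v o = 1) (i : ι)
    (F : Ω → (ι → Ω) → ℝ) (hF : ∀ a, ∀ ω ω' : ι → Ω, (∀ v, v ≠ i → ω v = ω' v) → F a ω = F a ω') :
    Ex p (fun ω => F (ω i) ω) = ∑ a, p i a * Ex p (F a) := by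
  have h1 : (fun ω : ι → Ω => F (ω i) ω) = fun ω => ∑ a, (if ω i = a then (1 : ℝ) else 0) * F a ω := by
    funext ω
    have h2 : ∑ a, (if ω i = a then (1 : ℝ) else 0) * F a ω = ∑ a, if ω i = a then F a ω else 0 := by
      refine Finset.sum_congr rfl fun a _ => ?_
      split_ifs
      · rw [one_mul]
      · rw [zero_mul]
    rw [h2, Finset.sum_ite_eq, if_pos (Finset.mem_univ _)]
  rw [h1, L.Ex_sum]
  refine Finset.sum_congr rfl fun a _ => ?_
  rw [L.Ex_mul_indep hp1 {i} (fun ω => if ω i = a then (1 : ℝ) else 0) (F a)]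
  · congr 1
    obtain ⟨f, hf⟩ : ∃ f : ι → Ω → ℝ, f = fun (v : ι) (o : Ω) =>
      if v = i then (if o = a then (1 : ℝ) else 0) else 1 := ⟨_, rfl⟩
    have h3 : (fun ω : ι → Ω => if ω i = a then (1 : ℝ) else 0) = fun ω => ∏ v, f v (ω v) := by
      funext ω
      have h4 : ∏ v, f v (ω v) = ∏ v, if v = i then (if ω i = a then (1 : ℝ) else 0) else 1 := by
        refine Finset.prod_congr rfl fun v _ => ?_
        rw [hf]
        by_cases hv : v = i
        · subst hv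
          rfl
        · simp [hv]
      rw [h4, Finset.prod_ite_eq', if_pos (Finset.mem_univ _)]
    rw [h3, L.Ex_prod p f, hf]
    rw [Finset.prod_eq_single i]
    · simp
    · intro v _ hv
      simp only [if_neg hv, mul_one]
      exact hp1 v
    · intro h
      exact absurd (Finset.mem_univ i) h
  · intro ω ω' h
    rw [h i (Finset.mem_singleton_self i)]
  · intro ω ω' h
    exact hF a ω ω' fun v hv => h v (fun h2 => hv (Finset.mem_singleton.1 h2))

private theorem k3_sum_unif (A : ι → Finset Ω) (i : ι) (g : Ω → ℝ) :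
    ∑ a, unif A i a * g a = (∑ a ∈ A i, g a) / (A i).card := by
  unfold unif
  have h1 : ∀ a, (if a ∈ A i then 1 / ((A i).card : ℝ) else 0) * g a =
      if a ∈ A i then g a / (A i).card else 0 := by
    intro a
    split_ifs
    · ring
    · ring
  rw [Finset.sum_congr rfl fun a _ => h1 a, ← Finset.sum_filter, Finset.filter_mem_eq_inter,
    Finset.univ_inter, Finset.sum_div]

private theorem k3_sum_unif_le (A : ι → Finset Ω) {a0 : ℝ} (ha0 : 0 < a0)
    (ha : ∀ i, a0 ≤ (A i).card) (i : ι) {g : Ω → ℝ} (hg : ∀ a ∈ A i, 0 ≤ g a) :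
    ∑ a, unif A i a * g a ≤ (∑ a ∈ A i, g a) / a0 := by
  rw [k3_sum_unif]
  exact div_le_div_of_nonneg_left (Finset.sum_nonneg hg) ha0 (ha i)

private theorem k3_ex1 (A : ι → Finset Ω) (hA : ∀ i, (A i).Nonempty) {a0 : ℝ} (ha0 : 0 < a0)
    (ha : ∀ i, a0 ≤ (A i).card) (j : ι) {g : Ω → ℝ} (hg : ∀ a, 0 ≤ g a) :
    Ex (unif A) (fun ω => g (ω j)) ≤ (∑ b ∈ A j, g b) / a0 := by
  have h1 := k3_ex_cond (unif_sum A hA) j (fun a _ => g a) (fun _ _ _ _ => rfl)
  have h2 : ∀ a, Ex (unif A) (fun _ : ι → Ω => g a) = g a := fun a => L.Ex_const (unif_sum A hA) _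
  simp only [h2] at h1
  rw [h1]
  exact k3_sum_unif_le A ha0 ha j fun a _ => hg a

private theorem k3_ex2 (A : ι → Finset Ω) (hA : ∀ i, (A i).Nonempty) {a0 : ℝ} (ha0 : 0 < a0)
    (ha : ∀ i, a0 ≤ (A i).card) {j k : ι} (hjk : j ≠ k) {g : Ω → Ω → ℝ} (hg : ∀ a b, 0 ≤ g a b) :
    Ex (unif A) (fun ω => g (ω j) (ω k)) ≤ (∑ b ∈ A j, ∑ c ∈ A k, g b c) / a0 ^ 2 := by
  rw [k3_ex_cond (unif_sum A hA) j (fun a ω => g a (ω k))
    (fun a ω ω' h => by rw [h k hjk.symm])]
  refine le_trans (k3_sum_unif_le A ha0 ha j fun a _ =>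
    L.Ex_nonneg (unif_nonneg A) fun ω => hg a (ω k)) ?_
  rw [pow_two, ← div_div]
  refine div_le_div_of_nonneg_right ?_ ha0.le
  rw [Finset.sum_div]
  exact Finset.sum_le_sum fun b _ => k3_ex1 A hA ha0 ha k (hg b)

private theorem k3_ex3 (A : ι → Finset Ω) (hA : ∀ i, (A i).Nonempty) {a0 : ℝ} (ha0 : 0 < a0)
    (ha : ∀ i, a0 ≤ (A i).card) {j k l : ι} (hjk : j ≠ k) (hjl : j ≠ l) (hkl : k ≠ l)
    {g : Ω → Ω → Ω → ℝ} (hg : ∀ a b c, 0 ≤ g a b c) :
    Ex (unif A) (fun ω => g (ω j) (ω k) (ω l)) ≤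
      (∑ b ∈ A j, ∑ c ∈ A k, ∑ e ∈ A l, g b c e) / a0 ^ 3 := by
  rw [k3_ex_cond (unif_sum A hA) j (fun a ω => g a (ω k) (ω l))
    (fun a ω ω' h => by rw [h k hjk.symm, h l hjl.symm])]
  refine le_trans (k3_sum_unif_le A ha0 ha j fun a _ =>
    L.Ex_nonneg (unif_nonneg A) fun ω => hg a (ω k) (ω l)) ?_
  rw [pow_succ, ← div_div]
  refine div_le_div_of_nonneg_right ?_ ha0.le
  rw [Finset.sum_div]
  exact Finset.sum_le_sum fun b _ => k3_ex2 A hA ha0 ha hkl (hg b)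

private theorem k3_ex4 (A : ι → Finset Ω) (hA : ∀ i, (A i).Nonempty) {a0 : ℝ} (ha0 : 0 < a0)
    (ha : ∀ i, a0 ≤ (A i).card) {j k l m : ι} (hn : [j, k, l, m].Nodup)
    {g : Ω → Ω → Ω → Ω → ℝ} (hg : ∀ a b c d, 0 ≤ g a b c d) :
    Ex (unif A) (fun ω => g (ω j) (ω k) (ω l) (ω m)) ≤
      (∑ b ∈ A j, ∑ c ∈ A k, ∑ e ∈ A l, ∑ f ∈ A m, g b c e f) / a0 ^ 4 := by
  simp only [List.nodup_cons, List.mem_cons, List.not_mem_nil, or_false, not_or, List.nodup_nil,
    not_false_eq_true, and_true] at hn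
  obtain ⟨⟨h1, h2, h3⟩, ⟨h4, h5⟩, h6⟩ := hn
  rw [k3_ex_cond (unif_sum A hA) j (fun a ω => g a (ω k) (ω l) (ω m))
    (fun a ω ω' h => by rw [h k (Ne.symm h1), h l (Ne.symm h2), h m (Ne.symm h3)])]
  refine le_trans (k3_sum_unif_le A ha0 ha j fun a _ =>
    L.Ex_nonneg (unif_nonneg A) fun ω => hg a (ω k) (ω l) (ω m)) ?_
  rw [pow_succ, ← div_div]
  refine div_le_div_of_nonneg_right ?_ ha0.le
  rw [Finset.sum_div]
  exact Finset.sum_le_sum fun b _ => k3_ex3 A hA ha0 ha h4 h5 h6 (hg b)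

private theorem k3_main_sum (A : ι → Finset Ω) (hA : ∀ i, (A i).Nonempty) (i : ι) {τ : Type*}
    (T : Finset τ) (F : τ → Ω → (ι → Ω) → ℝ)
    (hF : ∀ z ∈ T, ∀ a, ∀ ω ω' : ι → Ω, (∀ v, v ≠ i → ω v = ω' v) → F z a ω = F z a ω')
    {Y : ℝ} (hY : ∀ a ∈ A i, ∑ z ∈ T, Ex (unif A) (F z a) ≤ Y) :
    ∑ z ∈ T, Ex (unif A) (fun ω => F z (ω i) ω) ≤ Y := by
  rw [Finset.sum_congr rfl fun z hz => k3_ex_cond (unif_sum A hA) i (F z) (hF z hz), Finset.sum_comm]
  have h1 : ∀ a, ∑ z ∈ T, unif A i a * Ex (unif A) (F z a) ≤ unif A i a * Y := by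
    intro a
    rw [← Finset.mul_sum]
    by_cases h : a ∈ A i
    · exact mul_le_mul_of_nonneg_left (hY a h) (unif_nonneg A i a)
    · have h2 : unif A i a = 0 := by
        unfold unif
        rw [if_neg h]
      rw [h2, zero_mul, zero_mul]
  refine le_trans (Finset.sum_le_sum fun a _ => h1 a) ?_
  rw [← Finset.sum_mul, unif_sum A hA i, one_mul]

end

open Classical in
theorem pr_five_sum {ι Ω : Type} [Fintype ι] [DecidableEq ι] [Fintype Ω] [DecidableEq Ω]
    (A : ι → Finset Ω) (hA : ∀ i, (A i).Nonempty) {a0 : ℝ} (ha0 : 0 < a0)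
    (ha : ∀ i, a0 ≤ (A i).card) (i : ι) (T : Finset (ι × ι × ι × ι))
    (hT : ∀ z ∈ T, [i, z.1, z.2.1, z.2.2.1, z.2.2.2].Nodup)
    (P : ι → ι → ι → ι → Ω → Ω → Ω → Ω → Ω → Prop) {X : ℝ}
    (hX : ∀ a ∈ A i, ∑ z ∈ T, (((A z.1 ×ˢ A z.2.1 ×ˢ A z.2.2.1 ×ˢ A z.2.2.2).filter
      fun b => P z.1 z.2.1 z.2.2.1 z.2.2.2 a b.1 b.2.1 b.2.2.1 b.2.2.2).card : ℝ) ≤ X) :
    ∑ z ∈ T, Pr (unif A) (fun ω => P z.1 z.2.1 z.2.2.1 z.2.2.2 (ω i) (ω z.1) (ω z.2.1)
      (ω z.2.2.1) (ω z.2.2.2)) ≤ X / a0 ^ 4 := by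
  unfold Pr
  refine k3_main_sum A hA i T (fun z a ω => if P z.1 z.2.1 z.2.2.1 z.2.2.2 a (ω z.1) (ω z.2.1)
    (ω z.2.2.1) (ω z.2.2.2) then (1 : ℝ) else 0) ?_ ?_
  · intro z hz a ω ω' h
    have h1 := hT z hz
    simp only [List.nodup_cons, List.mem_cons, List.not_mem_nil, or_false, not_or] at h1
    have h2 := h1.1
    simp only [h z.1 (Ne.symm h2.1), h z.2.1 (Ne.symm h2.2.1), h z.2.2.1 (Ne.symm h2.2.2.1),
      h z.2.2.2 (Ne.symm h2.2.2.2)]
  · intro a ha2
    refine le_trans (Finset.sum_le_sum (g := fun z => (∑ b ∈ A z.1, ∑ c ∈ A z.2.1,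
      ∑ e ∈ A z.2.2.1, ∑ f ∈ A z.2.2.2,
      if P z.1 z.2.1 z.2.2.1 z.2.2.2 a b c e f then (1 : ℝ) else 0) / a0 ^ 4) fun z hz => ?_) ?_
    · have h1 := hT z hz
      exact k3_ex4 A hA ha0 ha (List.nodup_cons.1 h1).2
        (g := fun b c e f => if P z.1 z.2.1 z.2.2.1 z.2.2.2 a b c e f then (1 : ℝ) else 0)
        fun b c e f => by split_ifs <;> norm_num
    rw [← Finset.sum_div]
    refine div_le_div_of_nonneg_right ?_ (by positivity)
    refine le_trans (le_of_eq ?_) (hX a ha2)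
    refine Finset.sum_congr rfl fun z _ => ?_
    rw [Finset.card_filter, Finset.sum_product]
    push_cast
    refine Finset.sum_congr rfl fun b _ => ?_
    rw [Finset.sum_product]
    refine Finset.sum_congr rfl fun c _ => ?_
    rw [Finset.sum_product]

section

variable {ι Ω : Type} [Fintype ι] [DecidableEq ι] [Fintype Ω] [DecidableEq Ω]

omit [Fintype ι] in
private theorem ll6_ite (s : Finset ι) (n : ℕ) (hn : s.card ≤ n) (v : ι) {x Y : ℝ}
    (hY : 0 ≤ Y) (hYv : v ∈ s → x ≤ Y) :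
    (if v ∈ s then x * ((1 / 2 : ℝ)⁻¹) ^ s.card else 0) ≤ 2 ^ n * Y := by
  split_ifs with h
  · have h1 : ((1 / 2 : ℝ)⁻¹) ^ s.card ≤ 2 ^ n := by
      rw [one_div, inv_inv]
      exact pow_le_pow_right₀ (by norm_num) hn
    calc x * ((1 / 2 : ℝ)⁻¹) ^ s.card ≤ Y * 2 ^ n :=
          mul_le_mul (hYv h) h1 (by positivity) hY
      _ = 2 ^ n * Y := mul_comm _ _
  · positivity

/-- the sum over the pairs which contain `v` -/
private theorem ll6_pairs {δ : ℝ} (v : ι) (F : ι × ι → ℝ) (hF : ∀ z, 0 ≤ F z)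
    (e2 : ∑ j ∈ univ.filter (fun j => j ≠ v), F (v, j) ≤ δ)
    (e2' : ∑ j ∈ univ.filter (fun j => j ≠ v), F (j, v) ≤ δ) :
    ∑ z ∈ univ.filter (fun z : ι × ι => z.1 ≠ z.2), (if v ∈ ({z.1, z.2} : Finset ι) then
      F z * ((1 / 2 : ℝ)⁻¹) ^ ({z.1, z.2} : Finset ι).card else 0) ≤ 4 * (2 * δ) := by
  refine (Finset.sum_le_sum fun z _ => ll6_ite ({z.1, z.2} : Finset ι) 2
    Finset.card_le_two v
    (Y := (if z.1 = v then F z else 0) + (if z.2 = v then F z else 0)) ?_ ?_).trans ?_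
  · exact add_nonneg (by split_ifs <;> [exact hF _; exact le_refl _])
      (by split_ifs <;> [exact hF _; exact le_refl _])
  · intro hv
    have n1 := hF z
    rw [Finset.mem_insert, Finset.mem_singleton] at hv
    rcases hv with hv | hv
    · rw [if_pos hv.symm]; split_ifs <;> linarith
    · rw [if_pos hv.symm]; split_ifs <;> linarith
  · rw [← Finset.mul_sum, Finset.sum_add_distrib, ← Finset.sum_filter, ← Finset.sum_filter]
    have a1 : ∑ z ∈ (univ.filter (fun z : ι × ι => z.1 ≠ z.2)).filter (fun z => z.1 = v),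
        F z ≤ δ := by
      refine le_trans (le_of_eq ?_) e2
      refine Finset.sum_nbij' (fun z => z.2) (fun j => (v, j)) ?_ ?_ ?_ ?_ ?_
      · intro z hz
        simp only [Finset.mem_filter, Finset.mem_univ, true_and] at hz ⊢
        rw [← hz.2]; exact hz.1.symm
      · intro j hj
        simp only [Finset.mem_filter, Finset.mem_univ, true_and] at hj ⊢
        exact ⟨hj.symm, trivial⟩
      · intro z hz
        exact Prod.ext (Finset.mem_filter.1 hz).2.symm rfl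
      · intro j _; rfl
      · intro z hz
        rw [← (Finset.mem_filter.1 hz).2]
    have a2 : ∑ z ∈ (univ.filter (fun z : ι × ι => z.1 ≠ z.2)).filter (fun z => z.2 = v),
        F z ≤ δ := by
      refine le_trans (le_of_eq ?_) e2'
      refine Finset.sum_nbij' (fun z => z.1) (fun j => (j, v)) ?_ ?_ ?_ ?_ ?_
      · intro z hz
        simp only [Finset.mem_filter, Finset.mem_univ, true_and] at hz ⊢
        rw [← hz.2]; exact hz.1
      · intro j hj
        simp only [Finset.mem_filter, Finset.mem_univ, true_and] at hj ⊢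
        exact ⟨hj, trivial⟩
      · intro z hz
        exact Prod.ext rfl (Finset.mem_filter.1 hz).2.symm
      · intro j _; rfl
      · intro z hz
        rw [← (Finset.mem_filter.1 hz).2]
    norm_num
    linarith

/-- the sum over the quintuples which contain `v` -/
private theorem ll6_quint {δ : ℝ} (v : ι) (F : ι × ι × ι × ι × ι → ℝ) (hF : ∀ z, 0 ≤ F z)
    (ea : ∑ z ∈ univ.filter (fun z : ι × ι × ι × ι => [v, z.1, z.2.1, z.2.2.1, z.2.2.2].Nodup),
      F (v, z.1, z.2.1, z.2.2.1, z.2.2.2) ≤ δ)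
    (eb : ∑ z ∈ univ.filter (fun z : ι × ι × ι × ι => [v, z.1, z.2.1, z.2.2.1, z.2.2.2].Nodup),
      F (z.1, v, z.2.1, z.2.2.1, z.2.2.2) ≤ δ)
    (ec : ∑ z ∈ univ.filter (fun z : ι × ι × ι × ι => [v, z.1, z.2.1, z.2.2.1, z.2.2.2].Nodup),
      F (z.2.1, z.1, v, z.2.2.1, z.2.2.2) ≤ δ)
    (ed : ∑ z ∈ univ.filter (fun z : ι × ι × ι × ι => [v, z.1, z.2.1, z.2.2.1, z.2.2.2].Nodup),
      F (z.2.2.1, z.1, z.2.1, v, z.2.2.2) ≤ δ)
    (ee : ∑ z ∈ univ.filter (fun z : ι × ι × ι × ι => [v, z.1, z.2.1, z.2.2.1, z.2.2.2].Nodup),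
      F (z.2.2.2, z.1, z.2.1, z.2.2.1, v) ≤ δ) :
    ∑ z ∈ univ.filter (fun z : ι × ι × ι × ι × ι =>
      [z.1, z.2.1, z.2.2.1, z.2.2.2.1, z.2.2.2.2].Nodup),
      (if v ∈ ({z.1, z.2.1, z.2.2.1, z.2.2.2.1, z.2.2.2.2} : Finset ι) then
      F z * ((1 / 2 : ℝ)⁻¹) ^ ({z.1, z.2.1, z.2.2.1, z.2.2.2.1, z.2.2.2.2} : Finset ι).card
      else 0) ≤ 32 * (5 * δ) := by
  refine (Finset.sum_le_sum fun z _ =>
    ll6_ite ({z.1, z.2.1, z.2.2.1, z.2.2.2.1, z.2.2.2.2} : Finset ι) 5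
    Finset.card_le_five v
    (Y := (if z.1 = v then F z else 0) +
      ((if z.2.1 = v then F z else 0) +
      ((if z.2.2.1 = v then F z else 0) +
      ((if z.2.2.2.1 = v then F z else 0) +
      (if z.2.2.2.2 = v then F z else 0))))) ?_ ?_).trans ?_
  · exact add_nonneg (by split_ifs <;> [exact hF _; exact le_refl _])
      (add_nonneg (by split_ifs <;> [exact hF _; exact le_refl _])
      (add_nonneg (by split_ifs <;> [exact hF _; exact le_refl _])
      (add_nonneg (by split_ifs <;> [exact hF _; exact le_refl _])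
      (by split_ifs <;> [exact hF _; exact le_refl _]))))
  · intro hv
    have n1 := hF z
    have m1 : (0 : ℝ) ≤ (if z.1 = v then F z else 0) := by
      split_ifs <;> [exact n1; exact le_refl _]
    have m2 : (0 : ℝ) ≤ (if z.2.1 = v then F z else 0) := by
      split_ifs <;> [exact n1; exact le_refl _]
    have m3 : (0 : ℝ) ≤ (if z.2.2.1 = v then F z else 0) := by
      split_ifs <;> [exact n1; exact le_refl _]
    have m4 : (0 : ℝ) ≤ (if z.2.2.2.1 = v then F z else 0) := by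
      split_ifs <;> [exact n1; exact le_refl _]
    have m5 : (0 : ℝ) ≤ (if z.2.2.2.2 = v then F z else 0) := by
      split_ifs <;> [exact n1; exact le_refl _]
    rw [Finset.mem_insert, Finset.mem_insert, Finset.mem_insert, Finset.mem_insert,
      Finset.mem_singleton] at hv
    rcases hv with hv | hv | hv | hv | hv
    · have m0 : F z = (if z.1 = v then F z else 0) := by rw [if_pos hv.symm]
      linarith
    · have m0 : F z = (if z.2.1 = v then F z else 0) := by rw [if_pos hv.symm]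
      linarith
    · have m0 : F z = (if z.2.2.1 = v then F z else 0) := by rw [if_pos hv.symm]
      linarith
    · have m0 : F z = (if z.2.2.2.1 = v then F z else 0) := by rw [if_pos hv.symm]
      linarith
    · have m0 : F z = (if z.2.2.2.2 = v then F z else 0) := by rw [if_pos hv.symm]
      linarith
  · rw [← Finset.mul_sum, Finset.sum_add_distrib, Finset.sum_add_distrib,
      Finset.sum_add_distrib, Finset.sum_add_distrib,
      ← Finset.sum_filter, ← Finset.sum_filter, ← Finset.sum_filter, ← Finset.sum_filter,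
      ← Finset.sum_filter]
    have a1 : ∑ z ∈ (univ.filter (fun z : ι × ι × ι × ι × ι =>
      [z.1, z.2.1, z.2.2.1, z.2.2.2.1, z.2.2.2.2].Nodup)).filter (fun z => z.1 = v), F z ≤ δ := by
      refine le_trans (le_of_eq ?_) ea
      refine Finset.sum_nbij' (fun z => z.2) (fun j => (v, j)) ?_ ?_ ?_ ?_ ?_
      · intro z hz
        simp only [Finset.mem_filter, Finset.mem_univ, true_and] at hz ⊢
        rw [← hz.2]; exact hz.1
      · intro j hj
        simp only [Finset.mem_filter, Finset.mem_univ, true_and] at hj ⊢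
        exact ⟨hj, trivial⟩
      · intro z hz
        exact Prod.ext (Finset.mem_filter.1 hz).2.symm rfl
      · intro j _; rfl
      · intro z hz
        rw [← (Finset.mem_filter.1 hz).2]
    have a2 : ∑ z ∈ (univ.filter (fun z : ι × ι × ι × ι × ι =>
      [z.1, z.2.1, z.2.2.1, z.2.2.2.1, z.2.2.2.2].Nodup)).filter (fun z => z.2.1 = v),
        F z ≤ δ := by
      refine le_trans (le_of_eq ?_) eb
      refine Finset.sum_nbij' (fun z => (z.1, z.2.2)) (fun j => (j.1, v, j.2)) ?_ ?_ ?_ ?_ ?_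
      · intro z hz
        simp only [Finset.mem_filter, Finset.mem_univ, true_and] at hz ⊢
        obtain ⟨b1, b2⟩ := hz
        rw [← b2]
        simp only [List.nodup_cons, List.mem_cons, List.not_mem_nil, or_false,
          not_or, List.nodup_nil, not_false_eq_true, and_true] at b1 ⊢
        obtain ⟨⟨c1, c2, c3, c4⟩, ⟨c5, c6, c7⟩, ⟨c8, c9⟩, c10⟩ := b1
        exact ⟨⟨Ne.symm c1, c5, c6, c7⟩, ⟨c2, c3, c4⟩, ⟨c8, c9⟩, c10⟩
      · intro j hj
        simp only [Finset.mem_filter, Finset.mem_univ, true_and] at hj ⊢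
        refine ⟨?_, trivial⟩
        simp only [List.nodup_cons, List.mem_cons, List.not_mem_nil, or_false,
          not_or, List.nodup_nil, not_false_eq_true, and_true] at hj ⊢
        obtain ⟨⟨c1, c2, c3, c4⟩, ⟨c5, c6, c7⟩, ⟨c8, c9⟩, c10⟩ := hj
        exact ⟨⟨Ne.symm c1, c5, c6, c7⟩, ⟨c2, c3, c4⟩, ⟨c8, c9⟩, c10⟩
      · intro z hz
        exact Prod.ext rfl (Prod.ext (Finset.mem_filter.1 hz).2.symm rfl)
      · intro j _; rfl
      · intro z hz
        rw [← (Finset.mem_filter.1 hz).2]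
    have a3 : ∑ z ∈ (univ.filter (fun z : ι × ι × ι × ι × ι =>
      [z.1, z.2.1, z.2.2.1, z.2.2.2.1, z.2.2.2.2].Nodup)).filter (fun z => z.2.2.1 = v),
        F z ≤ δ := by
      refine le_trans (le_of_eq ?_) ec
      refine Finset.sum_nbij' (fun z => (z.2.1, z.1, z.2.2.2))
        (fun j => (j.2.1, j.1, v, j.2.2)) ?_ ?_ ?_ ?_ ?_
      · intro z hz
        simp only [Finset.mem_filter, Finset.mem_univ, true_and] at hz ⊢
        obtain ⟨b1, b2⟩ := hz
        rw [← b2]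
        simp only [List.nodup_cons, List.mem_cons, List.not_mem_nil, or_false,
          not_or, List.nodup_nil, not_false_eq_true, and_true] at b1 ⊢
        obtain ⟨⟨c1, c2, c3, c4⟩, ⟨c5, c6, c7⟩, ⟨c8, c9⟩, c10⟩ := b1
        exact ⟨⟨Ne.symm c5, Ne.symm c2, c8, c9⟩, ⟨Ne.symm c1, c6, c7⟩, ⟨c3, c4⟩, c10⟩
      · intro j hj
        simp only [Finset.mem_filter, Finset.mem_univ, true_and] at hj ⊢
        refine ⟨?_, trivial⟩
        simp only [List.nodup_cons, List.mem_cons, List.not_mem_nil, or_false,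
          not_or, List.nodup_nil, not_false_eq_true, and_true] at hj ⊢
        obtain ⟨⟨c1, c2, c3, c4⟩, ⟨c5, c6, c7⟩, ⟨c8, c9⟩, c10⟩ := hj
        exact ⟨⟨Ne.symm c5, Ne.symm c2, c8, c9⟩, ⟨Ne.symm c1, c6, c7⟩, ⟨c3, c4⟩, c10⟩
      · intro z hz
        exact Prod.ext rfl (Prod.ext rfl (Prod.ext (Finset.mem_filter.1 hz).2.symm rfl))
      · intro j _; rfl
      · intro z hz
        rw [← (Finset.mem_filter.1 hz).2]
    have a4 : ∑ z ∈ (univ.filter (fun z : ι × ι × ι × ι × ι =>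
      [z.1, z.2.1, z.2.2.1, z.2.2.2.1, z.2.2.2.2].Nodup)).filter (fun z => z.2.2.2.1 = v),
        F z ≤ δ := by
      refine le_trans (le_of_eq ?_) ed
      refine Finset.sum_nbij' (fun z => (z.2.1, z.2.2.1, z.1, z.2.2.2.2))
        (fun j => (j.2.2.1, j.1, j.2.1, v, j.2.2.2)) ?_ ?_ ?_ ?_ ?_
      · intro z hz
        simp only [Finset.mem_filter, Finset.mem_univ, true_and] at hz ⊢
        obtain ⟨b1, b2⟩ := hz
        rw [← b2]
        simp only [List.nodup_cons, List.mem_cons, List.not_mem_nil, or_false,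
          not_or, List.nodup_nil, not_false_eq_true, and_true] at b1 ⊢
        obtain ⟨⟨c1, c2, c3, c4⟩, ⟨c5, c6, c7⟩, ⟨c8, c9⟩, c10⟩ := b1
        exact ⟨⟨Ne.symm c6, Ne.symm c8, Ne.symm c3, c10⟩, ⟨c5, Ne.symm c1, c7⟩,
          ⟨Ne.symm c2, c9⟩, c4⟩
      · intro j hj
        simp only [Finset.mem_filter, Finset.mem_univ, true_and] at hj ⊢
        refine ⟨?_, trivial⟩
        simp only [List.nodup_cons, List.mem_cons, List.not_mem_nil, or_false,
          not_or, List.nodup_nil, not_false_eq_true, and_true] at hj ⊢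
        obtain ⟨⟨c1, c2, c3, c4⟩, ⟨c5, c6, c7⟩, ⟨c8, c9⟩, c10⟩ := hj
        exact ⟨⟨Ne.symm c6, Ne.symm c8, Ne.symm c3, c10⟩, ⟨c5, Ne.symm c1, c7⟩,
          ⟨Ne.symm c2, c9⟩, c4⟩
      · intro z hz
        exact Prod.ext rfl (Prod.ext rfl (Prod.ext rfl
          (Prod.ext (Finset.mem_filter.1 hz).2.symm rfl)))
      · intro j _; rfl
      · intro z hz
        rw [← (Finset.mem_filter.1 hz).2]
    have a5 : ∑ z ∈ (univ.filter (fun z : ι × ι × ι × ι × ι =>
      [z.1, z.2.1, z.2.2.1, z.2.2.2.1, z.2.2.2.2].Nodup)).filter (fun z => z.2.2.2.2 = v),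
        F z ≤ δ := by
      refine le_trans (le_of_eq ?_) ee
      refine Finset.sum_nbij' (fun z => (z.2.1, z.2.2.1, z.2.2.2.1, z.1))
        (fun j => (j.2.2.2, j.1, j.2.1, j.2.2.1, v)) ?_ ?_ ?_ ?_ ?_
      · intro z hz
        simp only [Finset.mem_filter, Finset.mem_univ, true_and] at hz ⊢
        obtain ⟨b1, b2⟩ := hz
        rw [← b2]
        simp only [List.nodup_cons, List.mem_cons, List.not_mem_nil, or_false,
          not_or, List.nodup_nil, not_false_eq_true, and_true] at b1 ⊢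
        obtain ⟨⟨c1, c2, c3, c4⟩, ⟨c5, c6, c7⟩, ⟨c8, c9⟩, c10⟩ := b1
        exact ⟨⟨Ne.symm c7, Ne.symm c9, Ne.symm c10, Ne.symm c4⟩, ⟨c5, c6, Ne.symm c1⟩,
          ⟨c8, Ne.symm c2⟩, Ne.symm c3⟩
      · intro j hj
        simp only [Finset.mem_filter, Finset.mem_univ, true_and] at hj ⊢
        refine ⟨?_, trivial⟩
        simp only [List.nodup_cons, List.mem_cons, List.not_mem_nil, or_false,
          not_or, List.nodup_nil, not_false_eq_true, and_true] at hj ⊢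
        obtain ⟨⟨c1, c2, c3, c4⟩, ⟨c5, c6, c7⟩, ⟨c8, c9⟩, c10⟩ := hj
        exact ⟨⟨Ne.symm c7, Ne.symm c9, Ne.symm c10, Ne.symm c4⟩, ⟨c5, c6, Ne.symm c1⟩,
          ⟨c8, Ne.symm c2⟩, Ne.symm c3⟩
      · intro z hz
        exact Prod.ext rfl (Prod.ext rfl (Prod.ext rfl
          (Prod.ext rfl (Finset.mem_filter.1 hz).2.symm)))
      · intro j _; rfl
      · intro z hz
        rw [← (Finset.mem_filter.1 hz).2]
    have h32 : (2 : ℝ) ^ 5 = 32 := by norm_num
    rw [h32]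
    linarith

open Classical in
private theorem ll6_fin [Nonempty ι]
    (A : ι → Finset Ω) {a0 δ : ℝ} (ha0 : 0 < a0) (ha : ∀ i, a0 ≤ (A i).card)
    (hδ : δ ≤ 1 / 400)
    (P2 Pa : ι → ι → Ω → Ω → Prop)
    (P5 : ι → ι → ι → ι → ι → Ω → Ω → Ω → Ω → Ω → Prop)
    (hs2 : ∀ i j p q, P2 i j p q → P2 j i q p)
    (hs5 : ∀ i j k l m p q u w x, P5 i j k l m p q u w x →
      P5 j i k l m q p u w x ∧ P5 k j i l m u q p w x ∧ P5 l j k i m w q u p x ∧
        P5 m j k l i x q u w p)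
    (h2 : ∀ i, ∀ p ∈ A i, ((∑ j, (univ.filter fun q => P2 i j p q).card : ℕ) : ℝ) ≤ δ * a0)
    (ha1 : ∀ i, ∀ p ∈ A i, ((∑ j, (univ.filter fun q => Pa i j p q).card : ℕ) : ℝ) ≤ δ * a0)
    (ha2 : ∀ i j, ∀ p ∈ A i,
      (Fintype.card ι : ℝ) * ((univ.filter fun q => Pa i j p q).card : ℝ) ≤ δ * a0)
    (h5 : ∀ i, ∀ p ∈ A i, ((∑ j, ∑ k, ∑ l, ∑ m,
      (univ.filter fun z : Ω × Ω × Ω × Ω =>
        P5 i j k l m p z.1 z.2.1 z.2.2.1 z.2.2.2).card : ℕ) : ℝ) ≤ δ * a0 ^ 4) :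
    ∃ ω : ι → Ω, (∀ i, ω i ∈ A i) ∧ (∀ i j, i ≠ j → ¬ P2 i j (ω i) (ω j)) ∧
      (∀ i j, i ≠ j → ¬ Pa i j (ω i) (ω j)) ∧
      (∀ i j k l m, [i, j, k, l, m].Nodup →
        ¬ P5 i j k l m (ω i) (ω j) (ω k) (ω l) (ω m)) := by
  have hAne : ∀ i, (A i).Nonempty := fun i => by
    rw [← Finset.card_pos]
    have := ha i
    have h1 : (0 : ℝ) < (A i).card := lt_of_lt_of_le ha0 this
    exact_mod_cast h1
  have hδ0 : 0 ≤ δ := by
    obtain ⟨i⟩ := ‹Nonempty ι›
    obtain ⟨p, hp⟩ := hAne i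
    have h1 := h2 i p hp
    have h3 : (0 : ℝ) ≤ δ * a0 := le_trans (Nat.cast_nonneg _) h1
    by_contra hlt
    push Not at hlt
    have := mul_neg_of_neg_of_pos hlt ha0
    linarith
  have hcι : (0 : ℝ) < Fintype.card ι := by exact_mod_cast Fintype.card_pos
  set pp := unif A with hpp
  have hp0 : ∀ v o, 0 ≤ pp v o := fun v o => unif_nonneg A v o
  have hp1 : ∀ v, ∑ o, pp v o = 1 := fun v => unif_sum A hAne v
  have hPn : ∀ B : (ι → Ω) → Prop, 0 ≤ Pr pp B := fun B => L.Pr_nonneg hp0 B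
  -- symmetric pairs
  have e2 : ∀ v, ∑ j ∈ univ.filter (fun j => j ≠ v), Pr pp (fun ω => P2 v j (ω v) (ω j)) ≤ δ := by
    intro v
    have h := pr_two_sum A hAne ha0 ha v (P2 v) (X := δ * a0) ?_
    · rwa [mul_div_assoc, div_self ha0.ne', mul_one] at h
    · intro a haA
      refine le_trans ?_ (h2 v a haA)
      push_cast
      refine (Finset.sum_le_sum fun j _ => ?_).trans
        (Finset.sum_le_sum_of_subset_of_nonneg (Finset.filter_subset _ _)
          fun j _ _ => Nat.cast_nonneg _)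
      exact_mod_cast Finset.card_le_card (Finset.filter_subset_filter _ (Finset.subset_univ _))
  have e2' : ∀ v, ∑ j ∈ univ.filter (fun j => j ≠ v),
      Pr pp (fun ω => P2 j v (ω j) (ω v)) ≤ δ := by
    intro v
    refine le_trans (Finset.sum_le_sum fun j _ => L.Pr_mono hp0 ?_) (e2 v)
    exact fun ω h => hs2 _ _ _ _ h
  -- pairs which are not symmetric
  have f2 : ∀ v, ∑ j ∈ univ.filter (fun j => j ≠ v), Pr pp (fun ω => Pa v j (ω v) (ω j)) ≤ δ := by
    intro v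
    have h := pr_two_sum A hAne ha0 ha v (Pa v) (X := δ * a0) ?_
    · rwa [mul_div_assoc, div_self ha0.ne', mul_one] at h
    · intro a haA
      refine le_trans ?_ (ha1 v a haA)
      push_cast
      refine (Finset.sum_le_sum fun j _ => ?_).trans
        (Finset.sum_le_sum_of_subset_of_nonneg (Finset.filter_subset _ _)
          fun j _ _ => Nat.cast_nonneg _)
      exact_mod_cast Finset.card_le_card (Finset.filter_subset_filter _ (Finset.subset_univ _))
  have f2' : ∀ v, ∑ j ∈ univ.filter (fun j => j ≠ v),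
      Pr pp (fun ω => Pa j v (ω j) (ω v)) ≤ δ := by
    intro v
    have h3 : ∀ j ∈ univ.filter (fun j => j ≠ v), Pr pp (fun ω => Pa j v (ω j) (ω v)) ≤
        δ / Fintype.card ι := by
      intro j hj
      have h := pr_two A hAne ha0 ha (Finset.mem_filter.1 hj).2 (Pa j v)
        (X := δ / Fintype.card ι * a0) ?_
      · rwa [mul_div_assoc, div_self ha0.ne', mul_one] at h
      · intro a haA
        have h5 := ha2 j v a haA
        have h6 : (((univ.filter fun q : Ω => Pa j v a q).card : ℕ) : ℝ) ≤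
            δ / Fintype.card ι * a0 := by
          rw [div_mul_eq_mul_div, le_div_iff₀ hcι, mul_comm]
          exact h5
        refine le_trans ?_ h6
        exact_mod_cast Finset.card_le_card (Finset.filter_subset_filter _ (Finset.subset_univ _))
    refine (Finset.sum_le_sum h3).trans ?_
    rw [Finset.sum_const, nsmul_eq_mul]
    have h4 : ((univ.filter (fun i => i ≠ v)).card : ℝ) ≤ Fintype.card ι := by
      exact_mod_cast Finset.card_le_univ _
    calc ((univ.filter (fun i => i ≠ v)).card : ℝ) * (δ / Fintype.card ι) ≤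
        Fintype.card ι * (δ / Fintype.card ι) :=
          mul_le_mul_of_nonneg_right h4 (div_nonneg hδ0 hcι.le)
      _ = δ := mul_div_cancel₀ _ hcι.ne'
  -- quintuples
  have e5 : ∀ v, ∑ z ∈ univ.filter (fun z : ι × ι × ι × ι =>
        [v, z.1, z.2.1, z.2.2.1, z.2.2.2].Nodup),
      Pr pp (fun ω => P5 v z.1 z.2.1 z.2.2.1 z.2.2.2 (ω v) (ω z.1) (ω z.2.1) (ω z.2.2.1)
        (ω z.2.2.2)) ≤ δ := by
    intro v
    have h := pr_five_sum A hAne ha0 ha v
      (univ.filter (fun z : ι × ι × ι × ι => [v, z.1, z.2.1, z.2.2.1, z.2.2.2].Nodup))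
      (fun z hz => (Finset.mem_filter.1 hz).2) (P5 v) (X := δ * a0 ^ 4) ?_
    · rwa [mul_div_assoc, div_self (pow_ne_zero 4 ha0.ne'), mul_one] at h
    · intro a haA
      refine le_trans ?_ (h5 v a haA)
      have h8 : (∑ j, ∑ k, ∑ l, ∑ m, (univ.filter fun z : Ω × Ω × Ω × Ω =>
            P5 v j k l m a z.1 z.2.1 z.2.2.1 z.2.2.2).card) =
          ∑ y : ι × ι × ι × ι, (univ.filter fun z : Ω × Ω × Ω × Ω =>
            P5 v y.1 y.2.1 y.2.2.1 y.2.2.2 a z.1 z.2.1 z.2.2.1 z.2.2.2).card := by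
        rw [Fintype.sum_prod_type]
        refine Finset.sum_congr rfl fun j _ => ?_
        rw [Fintype.sum_prod_type]
        refine Finset.sum_congr rfl fun k _ => ?_
        rw [Fintype.sum_prod_type]
      rw [h8]
      push_cast
      refine (Finset.sum_le_sum fun j _ => ?_).trans
        (Finset.sum_le_sum_of_subset_of_nonneg (Finset.filter_subset _ _)
          fun j _ _ => Nat.cast_nonneg _)
      exact_mod_cast Finset.card_le_card (Finset.filter_subset_filter _ (Finset.subset_univ _))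
  have e5b : ∀ v, ∑ z ∈ univ.filter (fun z : ι × ι × ι × ι =>
        [v, z.1, z.2.1, z.2.2.1, z.2.2.2].Nodup),
      Pr pp (fun ω => P5 z.1 v z.2.1 z.2.2.1 z.2.2.2 (ω z.1) (ω v) (ω z.2.1) (ω z.2.2.1)
        (ω z.2.2.2)) ≤ δ := by
    intro v
    refine le_trans (Finset.sum_le_sum fun j _ => L.Pr_mono hp0 ?_) (e5 v)
    exact fun ω h => (hs5 _ _ _ _ _ _ _ _ _ _ h).1
  have e5c : ∀ v, ∑ z ∈ univ.filter (fun z : ι × ι × ι × ι =>
        [v, z.1, z.2.1, z.2.2.1, z.2.2.2].Nodup),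
      Pr pp (fun ω => P5 z.2.1 z.1 v z.2.2.1 z.2.2.2 (ω z.2.1) (ω z.1) (ω v) (ω z.2.2.1)
        (ω z.2.2.2)) ≤ δ := by
    intro v
    refine le_trans (Finset.sum_le_sum fun j _ => L.Pr_mono hp0 ?_) (e5 v)
    exact fun ω h => (hs5 _ _ _ _ _ _ _ _ _ _ h).2.1
  have e5d : ∀ v, ∑ z ∈ univ.filter (fun z : ι × ι × ι × ι =>
        [v, z.1, z.2.1, z.2.2.1, z.2.2.2].Nodup),
      Pr pp (fun ω => P5 z.2.2.1 z.1 z.2.1 v z.2.2.2 (ω z.2.2.1) (ω z.1) (ω z.2.1) (ω v)
        (ω z.2.2.2)) ≤ δ := by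
    intro v
    refine le_trans (Finset.sum_le_sum fun j _ => L.Pr_mono hp0 ?_) (e5 v)
    exact fun ω h => (hs5 _ _ _ _ _ _ _ _ _ _ h).2.2.1
  have e5e : ∀ v, ∑ z ∈ univ.filter (fun z : ι × ι × ι × ι =>
        [v, z.1, z.2.1, z.2.2.1, z.2.2.2].Nodup),
      Pr pp (fun ω => P5 z.2.2.2 z.1 z.2.1 z.2.2.1 v (ω z.2.2.2) (ω z.1) (ω z.2.1) (ω z.2.2.1)
        (ω v)) ≤ δ := by
    intro v
    refine le_trans (Finset.sum_le_sum fun j _ => L.Pr_mono hp0 ?_) (e5 v)
    exact fun ω h => (hs5 _ _ _ _ _ _ _ _ _ _ h).2.2.2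
  -- the local lemma
  set T2 : Finset (ι × ι) := univ.filter fun z => z.1 ≠ z.2 with hT2
  set T5 : Finset (ι × ι × ι × ι × ι) :=
    univ.filter fun z => [z.1, z.2.1, z.2.2.1, z.2.2.2.1, z.2.2.2.2].Nodup
    with hT5
  set Es : Finset (ι ⊕ ((ι × ι) ⊕ ((ι × ι) ⊕ (ι × ι × ι × ι × ι)))) :=
    (univ : Finset ι).disjSum (T2.disjSum (T2.disjSum T5)) with hEs
  set supp : (ι ⊕ ((ι × ι) ⊕ ((ι × ι) ⊕ (ι × ι × ι × ι × ι)))) → Finset ι :=
    Sum.elim (fun i => {i}) (Sum.elim (fun z => {z.1, z.2}) (Sum.elim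
      (fun z => {z.1, z.2}) (fun z => {z.1, z.2.1, z.2.2.1, z.2.2.2.1, z.2.2.2.2})))
      with hsupp
  set bad : (ι ⊕ ((ι × ι) ⊕ ((ι × ι) ⊕ (ι × ι × ι × ι × ι)))) → (ι → Ω) → Prop :=
    Sum.elim (fun i ω => ω i ∉ A i) (Sum.elim (fun z ω => P2 z.1 z.2 (ω z.1) (ω z.2)) (Sum.elim
      (fun z ω => Pa z.1 z.2 (ω z.1) (ω z.2))
      (fun z ω => P5 z.1 z.2.1 z.2.2.1 z.2.2.2.1 z.2.2.2.2 (ω z.1) (ω z.2.1) (ω z.2.2.1)
        (ω z.2.2.2.1) (ω z.2.2.2.2))))
      with hbad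
  have hmain : ∃ ω, ∀ e ∈ Es, ¬ bad e ω := by
    refine lll pp hp0 hp1 Es supp bad ?_ ?_ (1 / 2) (by norm_num) (by norm_num) ?_
    · rintro (i | z | z | z) - ω ω' h
      · have h1 := h i (by simp [hsupp])
        simp only [hbad, Sum.elim_inl, h1]
      · have h1 := h z.1 (by simp [hsupp])
        have h2 := h z.2 (by simp [hsupp])
        simp only [hbad, Sum.elim_inl, Sum.elim_inr, h1, h2]
      · have h1 := h z.1 (by simp [hsupp])
        have h2 := h z.2 (by simp [hsupp])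
        simp only [hbad, Sum.elim_inl, Sum.elim_inr, h1, h2]
      · have h1 := h z.1 (by simp [hsupp])
        have h2 := h z.2.1 (by simp [hsupp])
        have h3 := h z.2.2.1 (by simp [hsupp])
        have h4 := h z.2.2.2.1 (by simp [hsupp])
        have h5 := h z.2.2.2.2 (by simp [hsupp])
        simp only [hbad, Sum.elim_inr, h1, h2, h3, h4, h5]
    · rintro (i | z | z | z) - <;> simp [hsupp]
    · intro v
      rw [Finset.sum_filter, hEs, Finset.sum_disjSum, Finset.sum_disjSum, Finset.sum_disjSum]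
      simp only [hsupp, hbad, Sum.elim_inl, Sum.elim_inr]
      have s1 : ∑ i, (if v ∈ ({i} : Finset ι) then Pr pp (fun ω => ω i ∉ A i) *
          ((1 / 2 : ℝ)⁻¹) ^ ({i} : Finset ι).card else 0) = 0 := by
        refine Finset.sum_eq_zero fun i _ => ?_
        have h0 : Pr pp (fun ω => ω i ∉ A i) = 0 := by
          unfold Pr Ex
          refine Finset.sum_eq_zero fun ω _ => ?_
          by_cases hw : wt pp ω = 0
          · rw [hw, zero_mul]
          · beta_reduce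
            rw [if_neg (not_not.2 (unif_pos ω hw i)), mul_zero]
        rw [h0, zero_mul, ite_self]
      have s2 := ll6_pairs (δ := δ) v (fun z => Pr pp (fun ω => P2 z.1 z.2 (ω z.1) (ω z.2)))
        (fun z => hPn _) (e2 v) (e2' v)
      have s3 := ll6_pairs (δ := δ) v (fun z => Pr pp (fun ω => Pa z.1 z.2 (ω z.1) (ω z.2)))
        (fun z => hPn _) (f2 v) (f2' v)
      have s5 := ll6_quint (δ := δ) v (fun z => Pr pp (fun ω =>
        P5 z.1 z.2.1 z.2.2.1 z.2.2.2.1 z.2.2.2.2 (ω z.1) (ω z.2.1) (ω z.2.2.1)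
        (ω z.2.2.2.1) (ω z.2.2.2.2)))
        (fun z => hPn _) (e5 v) (e5b v) (e5c v) (e5d v) (e5e v)
      rw [s1]
      refine (add_le_add (le_refl _) (add_le_add s2 (add_le_add s3 s5))).trans ?_
      linarith
  obtain ⟨ω, hω⟩ := hmain
  refine ⟨ω, fun i => ?_, fun i j hij hP => ?_, fun i j hij hP => ?_,
    fun i j k l m hn hP => ?_⟩
  · have h := hω (Sum.inl i) (by simp [hEs])
    simpa [hbad] using h
  · refine hω (Sum.inr (Sum.inl (i, j))) ?_ hP
    simp [hEs, hT2, hij]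
  · refine hω (Sum.inr (Sum.inr (Sum.inl (i, j)))) ?_ hP
    simp [hEs, hT2, hij]
  · refine hω (Sum.inr (Sum.inr (Sum.inr (i, j, k, l, m)))) ?_ hP
    simp only [hEs, Finset.inr_mem_disjSum, hT5, Finset.mem_filter, Finset.mem_univ, true_and]
    exact hn

end

open Classical in
theorem ll6 {ι Ω : Type} [Fintype ι] [DecidableEq ι] [DecidableEq Ω] (S : Finset Ω)
    (A : ι → Finset Ω) (hA : ∀ i, A i ⊆ S) {a0 δ : ℝ} (ha0 : 0 < a0) (ha : ∀ i, a0 ≤ (A i).card)
    (hδ : δ ≤ 1 / 400)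
    (P2 Pa : ι → ι → Ω → Ω → Prop)
    (P5 : ι → ι → ι → ι → ι → Ω → Ω → Ω → Ω → Ω → Prop)
    (hs2 : ∀ i j p q, P2 i j p q → P2 j i q p)
    (hs5 : ∀ i j k l m p q u w x, P5 i j k l m p q u w x →
      P5 j i k l m q p u w x ∧ P5 k j i l m u q p w x ∧ P5 l j k i m w q u p x ∧
        P5 m j k l i x q u w p)
    (h2 : ∀ i, ∀ p ∈ A i, ((∑ j, (S.filter fun q => P2 i j p q).card : ℕ) : ℝ) ≤ δ * a0)
    (ha1 : ∀ i, ∀ p ∈ A i, ((∑ j, (S.filter fun q => Pa i j p q).card : ℕ) : ℝ) ≤ δ * a0)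
    (ha2 : ∀ i j, ∀ p ∈ A i,
      (Fintype.card ι : ℝ) * ((S.filter fun q => Pa i j p q).card : ℝ) ≤ δ * a0)
    (h5 : ∀ i, ∀ p ∈ A i, ((∑ j, ∑ k, ∑ l, ∑ m,
      ((S ×ˢ S ×ˢ S ×ˢ S).filter
        fun z => P5 i j k l m p z.1 z.2.1 z.2.2.1 z.2.2.2).card : ℕ) : ℝ) ≤ δ * a0 ^ 4) :
    ∃ ω : ι → Ω, (∀ i, ω i ∈ A i) ∧ (∀ i j, i ≠ j → ¬ P2 i j (ω i) (ω j)) ∧
      (∀ i j, i ≠ j → ¬ Pa i j (ω i) (ω j)) ∧
      (∀ i j k l m, [i, j, k, l, m].Nodup →
        ¬ P5 i j k l m (ω i) (ω j) (ω k) (ω l) (ω m)) := by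
  rcases isEmpty_or_nonempty ι with he | hne
  · exact ⟨fun i => he.elim i, fun i => he.elim i, fun i => he.elim i, fun i => he.elim i,
      fun i => he.elim i⟩
  · have hc : ∀ B : Finset Ω, B ⊆ S →
        (univ.filter fun x : {x // x ∈ S} => x.1 ∈ B).card = B.card := by
      intro B hB
      refine Finset.card_bij (fun x _ => x.1) ?_ ?_ ?_
      · intro x hx; exact (Finset.mem_filter.1 hx).2
      · intro x _ y _ h; exact Subtype.ext h
      · intro b hb
        exact ⟨⟨b, hB hb⟩, Finset.mem_filter.2 ⟨Finset.mem_univ _, hb⟩, rfl⟩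
    have c2 : ∀ Q : Ω → Prop,
        (univ.filter fun x : {x // x ∈ S} => Q x.1).card ≤ (S.filter Q).card := by
      intro Q
      refine Finset.card_le_card_of_injOn (fun x => x.1) ?_ ?_
      · intro x hx
        exact Finset.mem_coe.2 (Finset.mem_filter.2
          ⟨x.2, (Finset.mem_filter.1 (Finset.mem_coe.1 hx)).2⟩)
      · intro x _ y _ h; exact Subtype.ext h
    have c5 : ∀ Q : Ω → Ω → Ω → Ω → Prop,
        (univ.filter fun x : {x // x ∈ S} × {x // x ∈ S} × {x // x ∈ S} × {x // x ∈ S} =>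
          Q x.1.1 x.2.1.1 x.2.2.1.1 x.2.2.2.1).card ≤
          ((S ×ˢ S ×ˢ S ×ˢ S).filter fun z => Q z.1 z.2.1 z.2.2.1 z.2.2.2).card := by
      intro Q
      refine Finset.card_le_card_of_injOn (fun x => (x.1.1, x.2.1.1, x.2.2.1.1, x.2.2.2.1)) ?_ ?_
      · intro x hx
        exact Finset.mem_coe.2 (Finset.mem_filter.2
          ⟨Finset.mem_product.2 ⟨x.1.2, Finset.mem_product.2 ⟨x.2.1.2,
            Finset.mem_product.2 ⟨x.2.2.1.2, x.2.2.2.2⟩⟩⟩,
            (Finset.mem_filter.1 (Finset.mem_coe.1 hx)).2⟩)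
      · intro x _ y _ h
        have h' := Prod.mk.inj h
        have h'' := Prod.mk.inj h'.2
        have hh3 := Prod.mk.inj h''.2
        exact Prod.ext (Subtype.ext h'.1) (Prod.ext (Subtype.ext h''.1)
          (Prod.ext (Subtype.ext hh3.1) (Subtype.ext hh3.2)))
    have hmain := ll6_fin (ι := ι) (Ω := {x // x ∈ S})
      (fun i => univ.filter fun x : {x // x ∈ S} => x.1 ∈ A i) ha0
      (fun i => by rw [hc (A i) (hA i)]; exact ha i) hδ
      (fun i j p q => P2 i j p.1 q.1) (fun i j p q => Pa i j p.1 q.1)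
      (fun i j k l m p q u w x => P5 i j k l m p.1 q.1 u.1 w.1 x.1)
      (fun i j p q h => hs2 i j _ _ h)
      (fun i j k l m p q u w x h => hs5 i j k l m _ _ _ _ _ h)
      (fun i p hp => le_trans (Nat.cast_le.2 (Finset.sum_le_sum fun j _ => c2 _))
        (h2 i p.1 (Finset.mem_filter.1 hp).2))
      (fun i p hp => le_trans (Nat.cast_le.2 (Finset.sum_le_sum fun j _ => c2 _))
        (ha1 i p.1 (Finset.mem_filter.1 hp).2))
      (fun i j p hp => le_trans (mul_le_mul_of_nonneg_left (Nat.cast_le.2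
          (c2 (fun q => Pa i j p.1 q))) (Nat.cast_nonneg _))
        (ha2 i j p.1 (Finset.mem_filter.1 hp).2))
      (fun i p hp => le_trans (Nat.cast_le.2 (Finset.sum_le_sum fun j _ =>
          Finset.sum_le_sum fun k _ => Finset.sum_le_sum fun l _ =>
            Finset.sum_le_sum fun m _ =>
            c5 (fun q u w x => P5 i j k l m p.1 q u w x)))
        (h5 i p.1 (Finset.mem_filter.1 hp).2))
    obtain ⟨ω, w1, w2, w3, w4⟩ := hmain
    exact ⟨fun i => (ω i).1, fun i => (Finset.mem_filter.1 (w1 i)).2, w2, w3, w4⟩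

end Pool.Agent.NKL
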