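import Mathlib

set_option autoImplicit false

/-!
# NKL / K3P : random permutations

`perm_count`: for an injective `f : T → Fin n` there are exactly `(n - |T|)!` permutations which extend
`f` (a coset of `{σ | σ = id on T}`, `Equiv.Perm.subtypeEquivSubtypePerm` or similar; or by induction on
`T`); there are at most `a^|T|` functions `f` with `f x ∈ W x` (`Fintype.piFinset`).
`perm_mgf`: expand the product: the left side is
`∑_{T ⊆ X} z^|T| #{π | ∀ x ∈ T, π x ∈ W x} ≤ ∑_t C(ℓ,t) z^t a^t (n-t)!`, `ℓ = |X| ≤ n`, and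
`C(ℓ,t) (n-t)! = n! (ℓ)_t/((n)_t t!) ≤ n! (ℓ/n)^t/t!` as `(ℓ-i)/(n-i) ≤ ℓ/n`; finally
`∑_t y^t/t! ≤ exp y` for `y = z a ℓ/n ≥ 0` (`Real.sum_le_exp_of_nonneg`).
-/

namespace Pool.Agent.NKL

open Finset

private theorem fix_card {n : ℕ} (T : Finset (Fin n)) :
    ((univ : Finset (Equiv.Perm (Fin n))).filter fun σ => ∀ x ∈ T, σ x = x).card
      = (n - T.card).factorial := by
  have e := Equiv.Perm.subtypeEquivSubtypePerm (fun a : Fin n => a ∉ T)
  have h1 := Fintype.card_congr e
  rw [Fintype.card_perm] at h1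
  have h2 : Fintype.card {a : Fin n // a ∉ T} = n - T.card := by
    rw [Fintype.card_subtype]
    have h3 : (univ.filter fun a : Fin n => a ∉ T) = Tᶜ := by
      ext a
      simp
    rw [h3, card_compl, Fintype.card_fin]
  rw [h2] at h1
  rw [h1, Fintype.card_subtype]
  congr 1
  ext σ
  simp only [mem_filter, mem_univ, true_and, not_not]

private theorem fib_card {n : ℕ} (T : Finset (Fin n)) (f : Fin n → Fin n) :
    ((univ : Finset (Equiv.Perm (Fin n))).filter fun σ => ∀ x ∈ T, σ x = f x).card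
      ≤ (n - T.card).factorial := by
  rcases ((univ : Finset (Equiv.Perm (Fin n))).filter fun σ => ∀ x ∈ T, σ x = f x).eq_empty_or_nonempty
    with h | ⟨τ, hτ⟩
  · rw [h, card_empty]
    exact Nat.zero_le _
  · rw [← fix_card T]
    have hτ' : ∀ x ∈ T, τ x = f x := (mem_filter.1 hτ).2
    refine card_le_card_of_injOn (fun σ => τ⁻¹ * σ) ?_ ?_
    · intro σ hσ
      have hσ' : ∀ x ∈ T, σ x = f x := (mem_filter.1 (mem_coe.1 hσ)).2
      refine mem_coe.2 (mem_filter.2 ⟨mem_univ _, fun x hx => ?_⟩)
      show τ⁻¹ (σ x) = x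
      rw [hσ' x hx, ← hτ' x hx]
      simp
    · intro σ _ σ' _ h
      exact mul_left_cancel h

theorem perm_count {n : ℕ} (T : Finset (Fin n)) (W : Fin n → Finset (Fin n)) {a : ℕ}
    (hW : ∀ x ∈ T, (W x).card ≤ a) :
    ((univ : Finset (Equiv.Perm (Fin n))).filter fun π => ∀ x ∈ T, π x ∈ W x).card
      ≤ a ^ T.card * (n - T.card).factorial := by
  classical
  set s : Finset (Fin n → Fin n) := Fintype.piFinset fun x => if x ∈ T then W x else {x} with hs
  have hsub : ((univ : Finset (Equiv.Perm (Fin n))).filter fun π => ∀ x ∈ T, π x ∈ W x)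
      ⊆ s.biUnion fun f => (univ : Finset (Equiv.Perm (Fin n))).filter fun σ => ∀ x ∈ T, σ x = f x := by
    intro π hπ
    have hπ' : ∀ x ∈ T, π x ∈ W x := (mem_filter.1 hπ).2
    refine mem_biUnion.2 ⟨fun x => if x ∈ T then π x else x, ?_, ?_⟩
    · rw [hs, Fintype.mem_piFinset]
      intro x
      by_cases hx : x ∈ T
      · simp only [if_pos hx]
        exact hπ' x hx
      · simp only [if_neg hx]
        exact mem_singleton_self x
    · refine mem_filter.2 ⟨mem_univ _, fun x hx => ?_⟩
      simp only [if_pos hx]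
  have hcard : s.card ≤ a ^ T.card := by
    rw [hs, Fintype.card_piFinset]
    have h1 : ∀ x : Fin n, (if x ∈ T then W x else {x}).card = if x ∈ T then (W x).card else 1 := by
      intro x
      split_ifs
      · rfl
      · exact card_singleton x
    simp only [h1]
    rw [Finset.prod_ite_mem, univ_inter]
    exact prod_le_pow_card _ _ _ hW
  calc _ ≤ _ := card_le_card hsub
    _ ≤ s.card * (n - T.card).factorial := card_biUnion_le_card_mul _ _ _ fun f _ => fib_card T f
    _ ≤ a ^ T.card * (n - T.card).factorial := Nat.mul_le_mul_right _ hcard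

private theorem desc_le {l n : ℕ} (h : l ≤ n) (t : ℕ) :
    l.descFactorial t * n ^ t ≤ n.descFactorial t * l ^ t := by
  induction t with
  | zero => simp
  | succ t ih =>
    rw [Nat.descFactorial_succ, Nat.descFactorial_succ, pow_succ, pow_succ]
    have h1 : (l - t) * n ≤ (n - t) * l := by
      rcases Nat.le_total l t with h2 | h2
      · rw [Nat.sub_eq_zero_of_le h2, Nat.zero_mul]
        exact Nat.zero_le _
      · obtain ⟨c, rfl⟩ := Nat.exists_eq_add_of_le h2
        obtain ⟨d, rfl⟩ := Nat.exists_eq_add_of_le h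
        have e1 : t + c - t = c := by omega
        have e2 : t + c + d - t = c + d := by omega
        rw [e1, e2]
        nlinarith
    calc (l - t) * l.descFactorial t * (n ^ t * n)
        = (l.descFactorial t * n ^ t) * ((l - t) * n) := by ring
      _ ≤ (n.descFactorial t * l ^ t) * ((n - t) * l) := Nat.mul_le_mul ih h1
      _ = (n - t) * n.descFactorial t * (l ^ t * l) := by ring

private theorem choose_le {l n t : ℕ} (h : l ≤ n) (ht : t ≤ l) :
    ((l.choose t : ℕ) : ℝ) * ((n - t).factorial : ℝ)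
      ≤ (n.factorial : ℝ) * (((l : ℝ) / n) ^ t / t.factorial) := by
  rcases Nat.eq_zero_or_pos n with hn | hn
  · subst hn
    have hl : l = 0 := by omega
    subst hl
    have h0 : t = 0 := by omega
    subst h0
    simp
  have hn' : (0 : ℝ) < n := by exact_mod_cast hn
  have h1 : ((l.descFactorial t : ℕ) : ℝ) * (n : ℝ) ^ t ≤ ((n.descFactorial t : ℕ) : ℝ) * (l : ℝ) ^ t := by
    exact_mod_cast desc_le h t
  have h2 : ((l.descFactorial t : ℕ) : ℝ) = (t.factorial : ℝ) * (l.choose t : ℝ) := by
    exact_mod_cast Nat.descFactorial_eq_factorial_mul_choose l t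
  have h3 : (n.factorial : ℝ) = ((n - t).factorial : ℝ) * ((n.descFactorial t : ℕ) : ℝ) := by
    exact_mod_cast (Nat.factorial_mul_descFactorial (ht.trans h)).symm
  have ht' : (0 : ℝ) < t.factorial := by exact_mod_cast Nat.factorial_pos t
  have hf : (0 : ℝ) ≤ ((n - t).factorial : ℝ) := Nat.cast_nonneg _
  rw [div_pow, h3, div_div, ← mul_div_assoc, le_div_iff₀ (by positivity)]
  rw [h2] at h1
  calc (l.choose t : ℝ) * ((n - t).factorial : ℝ) * ((n : ℝ) ^ t * (t.factorial : ℝ))
      = ((n - t).factorial : ℝ) * ((t.factorial : ℝ) * (l.choose t : ℝ) * (n : ℝ) ^ t) := by ring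
    _ ≤ ((n - t).factorial : ℝ) * (((n.descFactorial t : ℕ) : ℝ) * (l : ℝ) ^ t) :=
        mul_le_mul_of_nonneg_left h1 hf
    _ = ((n - t).factorial : ℝ) * ((n.descFactorial t : ℕ) : ℝ) * (l : ℝ) ^ t := by ring

theorem perm_mgf {n : ℕ} (X : Finset (Fin n)) (W : Fin n → Finset (Fin n)) {a : ℕ}
    (hW : ∀ x ∈ X, (W x).card ≤ a) {z : ℝ} (hz : 0 ≤ z) :
    ∑ π : Equiv.Perm (Fin n), ∏ x ∈ X, (1 + if π x ∈ W x then z else 0)
      ≤ (n.factorial : ℝ) * Real.exp (z * a * X.card / n) := by
  have hl : X.card ≤ n := by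
    have := card_le_univ X
    rwa [Fintype.card_fin] at this
  have hy : 0 ≤ z * a * X.card / n := by positivity
  calc ∑ π : Equiv.Perm (Fin n), ∏ x ∈ X, (1 + if π x ∈ W x then z else 0)
      = ∑ π : Equiv.Perm (Fin n), ∑ T ∈ X.powerset, if (∀ x ∈ T, π x ∈ W x) then z ^ T.card else 0 := by
        refine sum_congr rfl fun π _ => ?_
        rw [Finset.prod_one_add]
        refine sum_congr rfl fun T _ => ?_
        rw [Finset.prod_ite_zero, prod_const]
        by_cases h : ∀ x ∈ T, π x ∈ W x
        · rw [if_pos h, if_pos h]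
        · rw [if_neg h, if_neg h]
    _ = ∑ T ∈ X.powerset, ∑ π : Equiv.Perm (Fin n), if (∀ x ∈ T, π x ∈ W x) then z ^ T.card else 0 :=
        sum_comm
    _ = ∑ T ∈ X.powerset, ((((univ : Finset (Equiv.Perm (Fin n))).filter fun π =>
          ∀ x ∈ T, π x ∈ W x).card : ℕ) : ℝ) * z ^ T.card := by
        refine sum_congr rfl fun T _ => ?_
        rw [← sum_filter, sum_const, nsmul_eq_mul]
    _ ≤ ∑ T ∈ X.powerset, ((a : ℝ) ^ T.card * ((n - T.card).factorial : ℝ)) * z ^ T.card := by
        refine sum_le_sum fun T hT => mul_le_mul_of_nonneg_right ?_ (pow_nonneg hz _)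
        have h := perm_count T W (a := a) fun x hx => hW x (mem_powerset.1 hT hx)
        exact_mod_cast h
    _ = ∑ t ∈ range (X.card + 1), X.card.choose t • (((a : ℝ) ^ t * ((n - t).factorial : ℝ)) * z ^ t) :=
        sum_powerset_apply_card (fun t => ((a : ℝ) ^ t * ((n - t).factorial : ℝ)) * z ^ t)
    _ ≤ ∑ t ∈ range (X.card + 1), (n.factorial : ℝ) * ((z * a * X.card / n) ^ t / t.factorial) := by
        refine sum_le_sum fun t ht => ?_
        have h := choose_le hl (Nat.lt_succ_iff.1 (mem_range.1 ht))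
        have hza : 0 ≤ (z * a) ^ t := by positivity
        calc X.card.choose t • (((a : ℝ) ^ t * ((n - t).factorial : ℝ)) * z ^ t)
            = (z * a) ^ t * (((X.card.choose t : ℕ) : ℝ) * ((n - t).factorial : ℝ)) := by
              rw [nsmul_eq_mul, mul_pow]
              ring
          _ ≤ (z * a) ^ t * ((n.factorial : ℝ) * (((X.card : ℝ) / n) ^ t / t.factorial)) :=
              mul_le_mul_of_nonneg_left h hza
          _ = (n.factorial : ℝ) * ((z * a * X.card / n) ^ t / t.factorial) := by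
              rw [mul_div_assoc (z * a), mul_pow (z * a)]
              ring
    _ = (n.factorial : ℝ) * ∑ t ∈ range (X.card + 1), (z * a * X.card / n) ^ t / t.factorial := by
        rw [mul_sum]
    _ ≤ (n.factorial : ℝ) * Real.exp (z * a * X.card / n) :=
        mul_le_mul_of_nonneg_left (Real.sum_le_exp_of_nonneg hy _) (Nat.cast_nonneg _)

end Pool.Agent.NKL
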