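import Pool.Agent.NKL.K3D
import Pool.Agent.NKL.K3P

set_option autoImplicit false

/-!
# NKL / K3M : the number of points of the random set on a set of cells

`bS_mgf`: `(1+z)^|C ∩ bS| = ∏_{p ∈ C} (1 + if p ∈ bS then z else 0)`, the product over the 16 blocks
`C_IJ = {p ∈ C | bk p.1 = I, bk p.2 = J}`, and the factor of the block depends only on `φ I J`.  So
(`Finset.prod_univ_sum` / `Fintype.piFinset`, twice) the left side is the product over `I, J` of
`∑_π ∏_{p ∈ C_IJ} (1 + ..)`.  In one block the cells have different rows, i.e. different `lc p.1`; with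
`X` = image of `C_IJ` under `lc p.1` and `W x = {u | (y + n - u) % n < am s I J}` for the cell `(x,y)`
(`|W x| ≤ am s I J`, as `u ↦ (y+n-u) % n` is injective) `perm_mgf` gives
`n! exp(z am |C_IJ|/n)`.  The product of the exponentials is `exp(z ∑_{p ∈ C} am/n)`;
`card (PF n) = (n!)^16`.
`exc_line`: `(m - T : ℕ) ≤ (1+z)^m/(z (1+z)^T)`: clear for `m ≤ T`; for `m = T + k`: `1 + k z ≤ (1+z)^k`
(Bernoulli).
-/

namespace Pool.Agent.NKL

open Finset

/-- the expected number of points on `C` -/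
noncomputable def mu (s n : ℕ) (C : Finset (Cell n)) : ℝ :=
  (∑ p ∈ C, (am s (bk p.1) (bk p.2) : ℝ)) / n

/-- the admissible values of the permutation for the cell `p` -/
private def Wk (s n : ℕ) (p : Cell n) : Finset (Fin n) :=
  univ.filter fun u => (((lc p.2 : Fin n) : ℕ) + n - (u : ℕ)) % n < am s (bk p.1) (bk p.2)

private lemma mem_bS_iff {s n : ℕ} (φ : PF n) (p : Cell n) :
    p ∈ bS s n φ ↔ φ (bk p.1) (bk p.2) (lc p.1) ∈ Wk s n p := by
  simp [bS, Wk]

private lemma Wk_card (s n : ℕ) (p : Cell n) :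
    (Wk s n p).card ≤ am s (bk p.1) (bk p.2) := by
  classical
  rw [← Finset.card_range (am s (bk p.1) (bk p.2))]
  apply Finset.card_le_card_of_injOn
    (fun u : Fin n => (((lc p.2 : Fin n) : ℕ) + n - (u : ℕ)) % n)
  · intro u hu
    have hu' := hu
    simp only [Wk, Finset.coe_filter, Finset.mem_univ, true_and, Set.mem_setOf_eq] at hu'
    simpa using hu'
  · intro u _ v _ huv
    have h1 := u.2
    have h2 := v.2
    have h3 := (lc p.2 : Fin n).2
    have huv' : (((lc p.2 : Fin n) : ℕ) + n - (u : ℕ)) ≡ (((lc p.2 : Fin n) : ℕ) + n - (v : ℕ)) [MOD n] := huv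
    apply Fin.ext
    rcases le_total (u : ℕ) (v : ℕ) with h | h
    · have h4 : (((lc p.2 : Fin n) : ℕ) + n - (v : ℕ)) ≤ (((lc p.2 : Fin n) : ℕ) + n - (u : ℕ)) := by
        omega
      have h5 := (Nat.modEq_iff_dvd' h4).1 huv'.symm
      have h6 : (((lc p.2 : Fin n) : ℕ) + n - (u : ℕ)) - (((lc p.2 : Fin n) : ℕ) + n - (v : ℕ))
          = (v : ℕ) - u := by omega
      rw [h6] at h5
      have h7 : (v : ℕ) - u = 0 := Nat.eq_zero_of_dvd_of_lt h5 (by omega)
      omega
    · have h4 : (((lc p.2 : Fin n) : ℕ) + n - (u : ℕ)) ≤ (((lc p.2 : Fin n) : ℕ) + n - (v : ℕ)) := by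
        omega
      have h5 := (Nat.modEq_iff_dvd' h4).1 huv'
      have h6 : (((lc p.2 : Fin n) : ℕ) + n - (v : ℕ)) - (((lc p.2 : Fin n) : ℕ) + n - (u : ℕ))
          = (u : ℕ) - v := by omega
      rw [h6] at h5
      have h7 : (u : ℕ) - v = 0 := Nat.eq_zero_of_dvd_of_lt h5 (by omega)
      omega

private lemma bk_lc_inj {n : ℕ} {x y : Fin (4 * n)} (h1 : bk x = bk y) (h2 : lc x = lc y) :
    x = y := by
  have h3 : (x : ℕ) / n = (y : ℕ) / n := by simpa [bk] using h1
  have h4 : (x : ℕ) % n = (y : ℕ) % n := by simpa [lc] using h2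
  apply Fin.ext
  rw [← Nat.div_add_mod (x : ℕ) n, ← Nat.div_add_mod (y : ℕ) n, h3, h4]

/-- the cells of one block -/
private def blk {n : ℕ} (C : Finset (Cell n)) (I J : Fin 4) : Finset (Cell n) :=
  C.filter fun p => bk p.1 = I ∧ bk p.2 = J

private lemma prod_blk {n : ℕ} (C : Finset (Cell n)) (g : Cell n → ℝ) :
    ∏ p ∈ C, g p = ∏ I : Fin 4, ∏ J : Fin 4, ∏ p ∈ blk C I J, g p := by
  classical
  have h1 : ∏ p ∈ C, g p = ∏ I : Fin 4, ∏ p ∈ C.filter (fun p => bk p.1 = I), g p :=
    (Finset.prod_fiberwise C (fun p => bk p.1) g).symm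
  rw [h1]
  apply Finset.prod_congr rfl
  intro I _
  rw [← Finset.prod_fiberwise (C.filter (fun p => bk p.1 = I)) (fun p => bk p.2) g]
  apply Finset.prod_congr rfl
  intro J _
  apply Finset.prod_congr _ (fun _ _ => rfl)
  rw [Finset.filter_filter]
  rfl

private lemma sum_blk {n : ℕ} (C : Finset (Cell n)) (g : Cell n → ℝ) :
    ∑ p ∈ C, g p = ∑ I : Fin 4, ∑ J : Fin 4, ∑ p ∈ blk C I J, g p := by
  classical
  have h1 : ∑ p ∈ C, g p = ∑ I : Fin 4, ∑ p ∈ C.filter (fun p => bk p.1 = I), g p :=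
    (Finset.sum_fiberwise C (fun p => bk p.1) g).symm
  rw [h1]
  apply Finset.sum_congr rfl
  intro I _
  rw [← Finset.sum_fiberwise (C.filter (fun p => bk p.1 = I)) (fun p => bk p.2) g]
  apply Finset.sum_congr rfl
  intro J _
  apply Finset.sum_congr _ (fun _ _ => rfl)
  rw [Finset.filter_filter]
  rfl

private lemma blk_mgf {s n : ℕ} (C : Finset (Cell n)) (hC : ∀ p ∈ C, ∀ q ∈ C, p.1 = q.1 → p = q)
    {z : ℝ} (hz : 0 ≤ z) (I J : Fin 4) :
    ∑ π : Equiv.Perm (Fin n), ∏ p ∈ blk C I J, (1 + if π (lc p.1) ∈ Wk s n p then z else 0)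
      ≤ (n.factorial : ℝ) * Real.exp (z * am s I J * (blk C I J).card / n) := by
  classical
  have hinj : ∀ p ∈ blk C I J, ∀ q ∈ blk C I J, lc p.1 = lc q.1 → p = q := by
    intro p hp q hq h
    simp only [blk, Finset.mem_filter] at hp hq
    exact hC p hp.1 q hq.1 (bk_lc_inj (hp.2.1.trans hq.2.1.symm) h)
  set X : Finset (Fin n) := (blk C I J).image (fun p => lc p.1) with hX
  set W : Fin n → Finset (Fin n) := fun x =>
    ((blk C I J).filter (fun p => lc p.1 = x)).biUnion (Wk s n) with hW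
  have hWp : ∀ p ∈ blk C I J, W (lc p.1) = Wk s n p := by
    intro p hp
    have h1 : (blk C I J).filter (fun q => lc q.1 = lc p.1) = {p} := by
      ext q
      simp only [Finset.mem_filter, Finset.mem_singleton]
      constructor
      · rintro ⟨h1, h2⟩
        exact hinj q h1 p hp h2
      · rintro rfl
        exact ⟨hp, rfl⟩
    simp only [hW, h1, Finset.singleton_biUnion]
  have hcard : ∀ x ∈ X, (W x).card ≤ am s I J := by
    intro x hx
    rw [hX, Finset.mem_image] at hx
    obtain ⟨p, hp, rfl⟩ := hx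
    rw [hWp p hp]
    have h1 := Wk_card s n p
    simp only [blk, Finset.mem_filter] at hp
    rwa [hp.2.1, hp.2.2] at h1
  have hXc : X.card = (blk C I J).card := by
    rw [hX]
    exact Finset.card_image_of_injOn (fun p hp q hq h => hinj p hp q hq h)
  have h := perm_mgf X W hcard hz
  rw [hXc] at h
  refine le_trans (le_of_eq ?_) h
  apply Finset.sum_congr rfl
  intro π _
  rw [hX, Finset.prod_image (fun p hp q hq h => hinj p hp q hq h)]
  apply Finset.prod_congr rfl
  intro p hp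
  rw [hWp p hp]

theorem bS_mgf {s n : ℕ} (C : Finset (Cell n)) (hC : ∀ p ∈ C, ∀ q ∈ C, p.1 = q.1 → p = q)
    {z : ℝ} (hz : 0 ≤ z) :
    ∑ φ : PF n, (1 + z) ^ (C ∩ bS s n φ).card
      ≤ (Fintype.card (PF n) : ℝ) * Real.exp (z * mu s n C) := by
  classical
  -- the left side as a product
  have h1 : ∀ φ : PF n, (1 + z) ^ (C ∩ bS s n φ).card
      = ∏ I : Fin 4, ∏ J : Fin 4,
          ∏ p ∈ blk C I J, (1 + if φ I J (lc p.1) ∈ Wk s n p then z else 0) := by
    intro φ
    have h2 : (1 + z) ^ (C ∩ bS s n φ).card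
        = ∏ p ∈ C, (1 + if φ (bk p.1) (bk p.2) (lc p.1) ∈ Wk s n p then z else 0) := by
      have h3 : ∀ p ∈ C, (1 + if φ (bk p.1) (bk p.2) (lc p.1) ∈ Wk s n p then z else 0)
          = if p ∈ bS s n φ then (1 + z) else 1 := by
        intro p _
        by_cases h : p ∈ bS s n φ
        · rw [if_pos h, if_pos ((mem_bS_iff φ p).1 h)]
        · rw [if_neg h, if_neg (fun h' => h ((mem_bS_iff φ p).2 h'))]
          ring
      rw [Finset.prod_congr rfl h3, Finset.prod_ite]
      simp only [Finset.prod_const, one_pow, mul_one]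
      rw [Finset.filter_mem_eq_inter]
    rw [h2, prod_blk]
    apply Finset.prod_congr rfl
    intro I _
    apply Finset.prod_congr rfl
    intro J _
    apply Finset.prod_congr rfl
    intro p hp
    simp only [blk, Finset.mem_filter] at hp
    rw [hp.2.1, hp.2.2]
  have h4 : ∑ φ : PF n, (1 + z) ^ (C ∩ bS s n φ).card
      = ∏ I : Fin 4, ∏ J : Fin 4, ∑ π : Equiv.Perm (Fin n),
          ∏ p ∈ blk C I J, (1 + if π (lc p.1) ∈ Wk s n p then z else 0) := by
    rw [Finset.sum_congr rfl (fun φ _ => h1 φ)]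
    have h5 : ∀ I : Fin 4, (∏ J : Fin 4, ∑ π : Equiv.Perm (Fin n),
          ∏ p ∈ blk C I J, (1 + if π (lc p.1) ∈ Wk s n p then z else 0))
        = ∑ ψ : Fin 4 → Equiv.Perm (Fin n), ∏ J : Fin 4,
          ∏ p ∈ blk C I J, (1 + if ψ J (lc p.1) ∈ Wk s n p then z else 0) := by
      intro I
      rw [Finset.prod_univ_sum, Fintype.piFinset_univ]
    rw [Finset.prod_congr rfl (fun I _ => h5 I), Finset.prod_univ_sum, Fintype.piFinset_univ]
  rw [h4]
  -- the bound for each factor
  have h6 : ∀ I J : Fin 4, 0 ≤ ∑ π : Equiv.Perm (Fin n),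
      ∏ p ∈ blk C I J, (1 + if π (lc p.1) ∈ Wk s n p then z else 0) := by
    intro I J
    apply Finset.sum_nonneg
    intro π _
    apply Finset.prod_nonneg
    intro p _
    split_ifs <;> linarith
  have h7 : ∏ I : Fin 4, ∏ J : Fin 4, ∑ π : Equiv.Perm (Fin n),
          ∏ p ∈ blk C I J, (1 + if π (lc p.1) ∈ Wk s n p then z else 0)
      ≤ ∏ I : Fin 4, ∏ J : Fin 4,
          ((n.factorial : ℝ) * Real.exp (z * am s I J * (blk C I J).card / n)) := by
    apply Finset.prod_le_prod
    · intro I _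
      exact Finset.prod_nonneg fun J _ => h6 I J
    · intro I _
      apply Finset.prod_le_prod
      · intro J _
        exact h6 I J
      · intro J _
        exact blk_mgf C hC hz I J
  refine h7.trans (le_of_eq ?_)
  simp only [Finset.prod_mul_distrib]
  congr 1
  · simp only [PF, Fintype.card_pi, Fintype.card_perm, Fintype.card_fin]
    push_cast
    rfl
  · have h8 : mu s n C = ∑ I : Fin 4, ∑ J : Fin 4, ((am s I J : ℝ) * (blk C I J).card / n) := by
      unfold mu
      rw [sum_blk, Finset.sum_div]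
      apply Finset.sum_congr rfl
      intro I _
      rw [Finset.sum_div]
      apply Finset.sum_congr rfl
      intro J _
      congr 1
      have h9 : ∀ p ∈ blk C I J, (am s (bk p.1) (bk p.2) : ℝ) = (am s I J : ℝ) := by
        intro p hp
        simp only [blk, Finset.mem_filter] at hp
        rw [hp.2.1, hp.2.2]
      rw [Finset.sum_congr rfl h9, Finset.sum_const, nsmul_eq_mul, mul_comm]
    rw [h8, Finset.mul_sum, Real.exp_sum]
    apply Finset.prod_congr rfl
    intro I _
    rw [Finset.mul_sum, Real.exp_sum]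
    apply Finset.prod_congr rfl
    intro J _
    congr 1
    ring

theorem exc_line {s n : ℕ} (C : Finset (Cell n)) (hC : ∀ p ∈ C, ∀ q ∈ C, p.1 = q.1 → p = q)
    {z : ℝ} (hz : 0 < z) (T : ℕ) :
    ∑ φ : PF n, (((C ∩ bS s n φ).card - T : ℕ) : ℝ)
      ≤ (Fintype.card (PF n) : ℝ) * (Real.exp (z * mu s n C) / (z * (1 + z) ^ T)) := by
  classical
  have hpos : 0 < z * (1 + z) ^ T := by positivity
  have h1 : ∀ m : ℕ, ((m - T : ℕ) : ℝ) ≤ (1 + z) ^ m / (z * (1 + z) ^ T) := by
    intro m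
    rw [le_div_iff₀ hpos]
    rcases le_total m T with h | h
    · rw [Nat.sub_eq_zero_of_le h]
      simp only [Nat.cast_zero, zero_mul]
      positivity
    · obtain ⟨k, rfl⟩ := Nat.exists_eq_add_of_le h
      rw [Nat.add_sub_cancel_left, pow_add]
      have h2 : 1 + (k : ℝ) * z ≤ (1 + z) ^ k := one_add_mul_le_pow (by linarith) k
      have h3 : 0 < (1 + z) ^ T := by positivity
      nlinarith [mul_le_mul_of_nonneg_left h2 h3.le]
  calc ∑ φ : PF n, (((C ∩ bS s n φ).card - T : ℕ) : ℝ)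
      ≤ ∑ φ : PF n, (1 + z) ^ (C ∩ bS s n φ).card / (z * (1 + z) ^ T) :=
        Finset.sum_le_sum fun φ _ => h1 _
    _ = (∑ φ : PF n, (1 + z) ^ (C ∩ bS s n φ).card) / (z * (1 + z) ^ T) := by
        rw [Finset.sum_div]
    _ ≤ ((Fintype.card (PF n) : ℝ) * Real.exp (z * mu s n C)) / (z * (1 + z) ^ T) := by
        apply div_le_div_of_nonneg_right (bS_mgf C hC hz.le) hpos.le
    _ = _ := by rw [mul_div_assoc]

end Pool.Agent.NKL
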