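import Pool.Agent.NKL.K3D
import Pool.Agent.NKL.FEX

set_option autoImplicit false

/-!
# NKL / K3X : the set after the exchange, stage 3

`T = xch S r c ω`.  Rows and columns: copies of `xch_sub`, `xch_col`, `xch_row` (FEX); only `RC` and
`avl3` are used.
`k_skew`: let `v` be skew, `a` the number of points of `S` on the line, `m` the number of new cells on
it.  If some index has both new cells on the line, then no other index has a new cell on it (`B2a`),
so `m = 2`.  Otherwise the new cells on the line belong to different indices and are different points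
(`B2c`), so `m ≤ 4` (`B5`).  `a + 4 ≤ s`.
-/

namespace Pool.Agent.NKL

open Finset

variable {s N L : ℕ} {S : Finset (ℤ × ℤ)} {r c : Fin L → ℤ}

private theorem a3_mem {i : Fin L} {p : ℤ × ℤ} (h : p ∈ avl3 S (r i) (c i)) :
    p ∈ S ∧ (r i, p.2) ∉ S ∧ (p.1, c i) ∉ S := by
  classical
  unfold avl3 at h
  rw [mem_filter] at h
  exact h

private theorem a3_ne {i : Fin L} {p : ℤ × ℤ} (h : p ∈ avl3 S (r i) (c i)) :
    p.1 ≠ r i ∧ p.2 ≠ c i := by
  obtain ⟨h1, h2, h3⟩ := a3_mem h
  refine ⟨fun h => h2 ?_, fun h => h3 ?_⟩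
  · rw [← h]
    exact h1
  · rw [← h]
    exact h1

private theorem k_inj_w {ω : Fin L → ℤ × ℤ} (h2 : ∀ i j, i ≠ j → ¬ B2c r c i j (ω i) (ω j)) :
    Function.Injective ω := by
  intro i j hij
  by_contra hne
  exact h2 i j hne (Or.inl hij)

private theorem k_nc_inj {ω : Fin L → ℤ × ℤ} (hω : ∀ i, ω i ∈ avl3 S (r i) (c i))
    (h2 : ∀ i j, i ≠ j → ¬ B2c r c i j (ω i) (ω j)) {i j : Fin L} {β γ : Bool}
    (h : sl (r i) (c i) β (ω i) = sl (r j) (c j) γ (ω j)) : i = j ∧ β = γ := by
  by_cases hij : i = j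
  · subst hij
    refine ⟨rfl, ?_⟩
    have hn := a3_ne (hω i)
    cases β <;> cases γ
    · rfl
    · exfalso
      simp only [sl, Prod.ext_iff] at h
      exact hn.1 (by simpa using h.1)
    · exfalso
      simp only [sl, Prod.ext_iff] at h
      exact hn.1 (by simpa using h.1.symm)
    · rfl
  · exfalso
    exact h2 i j hij (Or.inr ⟨β, γ, h⟩)

private theorem k_cnt {ω : Fin L → ℤ × ℤ} (hω : ∀ i, ω i ∈ avl3 S (r i) (c i))
    (h2 : ∀ i j, i ≠ j → ¬ B2c r c i j (ω i) (ω j)) (P : ℤ × ℤ → Prop) [DecidablePred P] :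
    ((xch S r c ω).filter P).card + (univ.filter fun i => P (ω i)).card =
      (S.filter P).card + (univ.filter fun i => P (r i, (ω i).2)).card +
        (univ.filter fun i => P ((ω i).1, c i)).card := by
  classical
  have hA : Function.Injective fun i => ((r i, (ω i).2) : ℤ × ℤ) := by
    intro i j hij
    exact (k_nc_inj hω h2 (β := true) (γ := true) (by simpa [sl] using hij)).1
  have hB : Function.Injective fun i => (((ω i).1, c i) : ℤ × ℤ) := by
    intro i j hij
    exact (k_nc_inj hω h2 (β := false) (γ := false) (by simpa [sl] using hij)).1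
  have hd1 : Disjoint ((S \ univ.image ω).filter P)
      ((univ.image fun i => ((r i, (ω i).2) : ℤ × ℤ)).filter P) := by
    rw [Finset.disjoint_left]
    intro p hp hq
    rw [mem_filter, mem_sdiff] at hp
    rw [mem_filter, mem_image] at hq
    obtain ⟨⟨i, -, rfl⟩, -⟩ := hq
    exact (a3_mem (hω i)).2.1 hp.1.1
  have hd2 : Disjoint ((S \ univ.image ω).filter P ∪
      (univ.image fun i => ((r i, (ω i).2) : ℤ × ℤ)).filter P)
      ((univ.image fun i => (((ω i).1, c i) : ℤ × ℤ)).filter P) := by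
    rw [Finset.disjoint_left]
    intro p hp hq
    rw [mem_filter, mem_image] at hq
    obtain ⟨⟨i, -, rfl⟩, -⟩ := hq
    simp only [mem_union, mem_filter, mem_sdiff, mem_image, mem_univ, true_and] at hp
    rcases hp with hp | ⟨⟨j, hj⟩, -⟩
    · exact (a3_mem (hω i)).2.2 hp.1.1
    · have := (k_nc_inj hω h2 (β := true) (γ := false) (i := j) (j := i)
        (by simpa [sl] using hj)).2
      exact absurd this (by decide)
  have hc1 : ((univ.image fun i => ((r i, (ω i).2) : ℤ × ℤ)).filter P).card =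
      (univ.filter fun i => P (r i, (ω i).2)).card := by
    rw [Finset.filter_image, card_image_of_injective _ hA]
  have hc2 : ((univ.image fun i => (((ω i).1, c i) : ℤ × ℤ)).filter P).card =
      (univ.filter fun i => P ((ω i).1, c i)).card := by
    rw [Finset.filter_image, card_image_of_injective _ hB]
  have hc3 : ((S \ univ.image ω).filter P).card + (univ.filter fun i => P (ω i)).card =
      (S.filter P).card := by
    have h1 : (univ.filter fun i => P (ω i)).card = ((univ.image ω).filter P).card := by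
      rw [Finset.filter_image, card_image_of_injective _ (k_inj_w h2)]
    rw [h1, ← card_union_of_disjoint, ← filter_union, sdiff_union_of_subset]
    · intro p hp
      rw [mem_image] at hp
      obtain ⟨i, -, rfl⟩ := hp
      exact (a3_mem (hω i)).1
    · rw [Finset.disjoint_left]
      intro p hp hq
      rw [mem_filter, mem_sdiff] at hp
      rw [mem_filter] at hq
      exact hp.1.2 hq.1
  have hx : ((xch S r c ω).filter P).card = ((S \ univ.image ω).filter P).card +
      (univ.filter fun i => P (r i, (ω i).2)).card +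
      (univ.filter fun i => P ((ω i).1, c i)).card := by
    unfold xch
    rw [filter_union, filter_union, card_union_of_disjoint hd2, card_union_of_disjoint hd1,
      hc1, hc2]
  omega

private theorem k_sub (h : RC s N S) (hD : Def s N L S r c) (ω : Fin L → ℤ × ℤ)
    (hω : ∀ i, ω i ∈ avl3 S (r i) (c i)) : xch S r c ω ⊆ grid N := by
  have hg : ∀ i, (0 ≤ (ω i).1 ∧ (ω i).1 < N) ∧ (0 ≤ (ω i).2 ∧ (ω i).2 < N) := by
    intro i
    have h1 := h.sub (a3_mem (hω i)).1
    unfold grid at h1
    rw [mem_product, Finset.mem_Ico, Finset.mem_Ico] at h1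
    exact h1
  intro p hp
  unfold xch at hp
  simp only [mem_union, mem_sdiff, mem_image, mem_univ, true_and] at hp
  rcases hp with (⟨hp, -⟩ | ⟨i, rfl⟩) | ⟨i, rfl⟩
  · exact h.sub hp
  · unfold grid
    rw [mem_product, Finset.mem_Ico, Finset.mem_Ico]
    exact ⟨hD.r_mem i, (hg i).2⟩
  · unfold grid
    rw [mem_product, Finset.mem_Ico, Finset.mem_Ico]
    exact ⟨(hg i).1, hD.c_mem i⟩

private theorem k_pair (ω : Fin L → ℤ × ℤ) (v : ℤ × ℤ) (l : ℤ) :
    (univ.filter fun i => On v (r i, (ω i).2) = l).card +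
        (univ.filter fun i => On v ((ω i).1, c i) = l).card =
      ((univ : Finset (Fin L × Bool)).filter fun z =>
        On v (sl (r z.1) (c z.1) z.2 (ω z.1)) = l).card := by
  classical
  rw [card_filter, card_filter, card_filter, ← univ_product_univ, sum_product, ← sum_add_distrib]
  refine sum_congr rfl fun i _ => ?_
  rw [Fintype.sum_bool]
  simp only [sl, if_true, Bool.false_eq_true, if_false]

/-- two new cells of the same index on the line: no other index has a new cell on it -/
private theorem k_same {ω : Fin L → ℤ × ℤ}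
    (h2a : ∀ i j, i ≠ j → ¬ B2a r c i j (ω i) (ω j)) {v : ℤ × ℤ} (hv : Skew v) (l : ℤ)
    {a b d : Fin L × Bool}
    (ha : On v (sl (r a.1) (c a.1) a.2 (ω a.1)) = l)
    (hb : On v (sl (r b.1) (c b.1) b.2 (ω b.1)) = l)
    (hd : On v (sl (r d.1) (c d.1) d.2 (ω d.1)) = l)
    (hab : a ≠ b) (had : a ≠ d) (hbd : b ≠ d) : a.1 ≠ b.1 := by
  obtain ⟨i, α⟩ := a
  obtain ⟨j, β⟩ := b
  obtain ⟨k, γ⟩ := d
  dsimp only at *
  intro hij
  subst hij
  have hαβ : α ≠ β := fun h => hab (by rw [h])
  have hall : ∀ x : Bool, On v (sl (r i) (c i) x (ω i)) = l := by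
    intro x
    cases x <;> cases α <;> cases β <;> first | exact ha | exact hb | exact absurd rfl hαβ
  have hik : i ≠ k := by
    intro h
    subst h
    cases α <;> cases β <;> cases γ <;>
      first | exact hαβ rfl | exact had rfl | exact hbd rfl
  refine h2a i k hik ⟨v, hv, ?_, γ, ?_⟩
  · rw [hall, hall]
  · rw [hall, hd]

private theorem k_new {ω : Fin L → ℤ × ℤ} (hω : ∀ i, ω i ∈ avl3 S (r i) (c i))
    (h2 : ∀ i j, i ≠ j → ¬ B2c r c i j (ω i) (ω j))
    (h2a : ∀ i j, i ≠ j → ¬ B2a r c i j (ω i) (ω j))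
    (h5 : ∀ i j k l m, [i, j, k, l, m].Nodup →
      ¬ B5 r c i j k l m (ω i) (ω j) (ω k) (ω l) (ω m))
    {v : ℤ × ℤ} (hv : Skew v) (l : ℤ) :
    ((univ : Finset (Fin L × Bool)).filter fun z =>
        On v (sl (r z.1) (c z.1) z.2 (ω z.1)) = l).card ≤ 4 := by
  classical
  by_contra hcon
  obtain ⟨F, hF, hF5⟩ := Finset.exists_subset_card_eq
    (show 5 ≤ ((univ : Finset (Fin L × Bool)).filter fun z =>
      On v (sl (r z.1) (c z.1) z.2 (ω z.1)) = l).card by omega)
  have hm : ∀ z ∈ F, On v (sl (r z.1) (c z.1) z.2 (ω z.1)) = l :=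
    fun z hz => (mem_filter.mp (hF hz)).2
  have hinj : ∀ a ∈ F, ∀ b ∈ F, a.1 = b.1 → a = b := by
    intro a ha b hb hab
    by_contra hne
    have hc : 0 < ((F.erase a).erase b).card := by
      rw [card_erase_of_mem (mem_erase.mpr ⟨fun h => hne h.symm, hb⟩), card_erase_of_mem ha, hF5]
      norm_num
    obtain ⟨d, hd⟩ := card_pos.mp hc
    rw [mem_erase, mem_erase] at hd
    exact k_same h2a hv l (hm a ha) (hm b hb) (hm d hd.2.2) hne (fun h => hd.2.1 h.symm)
      (fun h => hd.1 h.symm) hab
  have hlen : F.toList.length = 5 := by rw [length_toList, hF5]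
  have hnd : (F.toList.map Prod.fst).Nodup := by
    refine List.Nodup.map_on ?_ F.nodup_toList
    intro a ha b hb hab
    exact hinj a (mem_toList.mp ha) b (mem_toList.mp hb) hab
  have hmem : ∀ z ∈ F.toList, On v (sl (r z.1) (c z.1) z.2 (ω z.1)) = l :=
    fun z hz => hm z (mem_toList.mp hz)
  have hcell : (F.toList.map fun z => sl (r z.1) (c z.1) z.2 (ω z.1)).Nodup := by
    refine List.Nodup.map_on ?_ F.nodup_toList
    intro a ha b hb hab
    exact hinj a (mem_toList.mp ha) b (mem_toList.mp hb) (k_nc_inj hω h2 hab).1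
  generalize F.toList = W at hlen hnd hmem hcell
  match W, hlen with
  | [a, b, d, e, f], _ =>
    have ha := hmem a (by simp)
    have hb := hmem b (by simp)
    have hd := hmem d (by simp)
    have he := hmem e (by simp)
    have hf := hmem f (by simp)
    refine h5 a.1 b.1 d.1 e.1 f.1 (by simpa using hnd)
      ⟨a.2, b.2, d.2, e.2, f.2, by simpa using hcell, v, hv, ?_, ?_, ?_, ?_⟩
    · rw [ha, hb]
    · rw [ha, hd]
    · rw [ha, he]
    · rw [ha, hf]

theorem k_xch (h : RC s N S) (hD : Def s N L S r c)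
    (hk : ∀ v, Skew v → ∀ l, (S.filter fun p => On v p = l).card + 4 ≤ s)
    (ω : Fin L → ℤ × ℤ) (hω : ∀ i, ω i ∈ avl3 S (r i) (c i))
    (h2 : ∀ i j, i ≠ j → ¬ B2c r c i j (ω i) (ω j))
    (h2a : ∀ i j, i ≠ j → ¬ B2a r c i j (ω i) (ω j))
    (h5 : ∀ i j k l m, [i, j, k, l, m].Nodup →
      ¬ B5 r c i j k l m (ω i) (ω j) (ω k) (ω l) (ω m)) :
    Exact s N (xch S r c ω) := by
  refine ⟨k_sub h hD ω hω, ?_, ?_, ?_⟩
  · intro x hx hxN
    have h1 := k_cnt hω h2 (fun p => p.1 = x)
    have h3 := hD.r_cnt x hx hxN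
    dsimp only at h1
    omega
  · intro y hy hyN
    have h1 := k_cnt hω h2 (fun p => p.2 = y)
    have h3 := hD.c_cnt y hy hyN
    dsimp only at h1
    omega
  · intro v hv l
    have h1 := k_cnt hω h2 (fun p => On v p = l)
    have h6 := k_pair (r := r) (c := c) ω v l
    have h7 := hk v hv l
    have h8 := k_new hω h2 h2a h5 hv l
    omega

end Pool.Agent.NKL
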