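import Pool.Agent.NKL.K3G
import Pool.Agent.NKL.K3L
import Pool.Agent.NKL.K3X

set_option autoImplicit false

/-!
# NKL / K3N : the repair of a set with few missing points

If `L = 0`: all rows and columns have exactly `s` points (their sum is `s N`, each is at most `s`), and
`S` is exact.  Otherwise `N ≥ 10^4 s` and `L ≤ N/(10^4 s)`.  `k_sq`: `r, c` (its `L'` equals `L`).
`a0 = (9/10) s N`: `|avl3| ≥ |S| - 2 s² = s N - L - 2 s² ≥ a0`.  `δ = 1/400`, `ll6` with `B2c`, `B2a`, `B5`: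
`h2`: `L + 4 s² ≤ (5/10^4) s N ≤ δ a0`;  `ha1`, `ha2`: `2 s L ≤ 2 N/10^4 ≤ δ a0`;
`h5`: `kq5` with `K = 20000 s²`: both terms are at most `(1.03/10^5) s⁴ N⁴`, and
`δ a0⁴ ≥ (1.6/10^3) s⁴ N⁴`.  Then `k_xch`.
-/

namespace Pool.Agent.NKL

open Finset

private theorem k3n_num {s N L : ℝ} (hs : 5 ≤ s) (hN : 10000 * s ≤ N) (hL0 : 0 ≤ L)
    (hL : 10000 * s * L ≤ N) :
    L + 4 * s ^ 2 ≤ 1 / 400 * (9 / 10 * s * N) ∧ 2 * s * L ≤ 1 / 400 * (9 / 10 * s * N) ∧
      9 / 10 * s * N ≤ s * N - L - 2 * s ^ 2 := by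
  have hN0 : 0 ≤ N := by linarith
  have h1 : 10000 * s ^ 2 ≤ s * N := by nlinarith
  have h2 : 5 * N ≤ s * N := by nlinarith
  have h3 : 5 * L ≤ s * L := by nlinarith
  refine ⟨?_, ?_, ?_⟩
  · nlinarith
  · nlinarith
  · nlinarith

private theorem k3n_five {s N L : ℝ} (hs : 5 ≤ s) (hN0 : 0 ≤ N) (hL0 : 0 ≤ L)
    (hL : 10000 * s * L ≤ N) :
    256 * (20000 * s ^ 2) ^ 2 * s ^ 4 * L ^ 4 + 4096 * s ^ 8 * N ^ 4 / (20000 * s ^ 2) ^ 2 ≤
      1 / 400 * (9 / 10 * s * N) ^ 4 := by
  have hs0 : 0 < s := by linarith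
  have h1 : (10000 * s * L) ^ 4 ≤ N ^ 4 := pow_le_pow_left₀ (by positivity) hL 4
  have h2 : 256 * (20000 * s ^ 2) ^ 2 * s ^ 4 * L ^ 4 =
      1024 / 100000000 * s ^ 4 * (10000 * s * L) ^ 4 := by ring
  have h3 : 4096 * s ^ 8 * N ^ 4 / (20000 * s ^ 2) ^ 2 = 1024 / 100000000 * s ^ 4 * N ^ 4 := by
    have hs2 : s ≠ 0 := hs0.ne'
    field_simp
    ring
  have h4 : 1024 / 100000000 * s ^ 4 * (10000 * s * L) ^ 4 ≤ 1024 / 100000000 * s ^ 4 * N ^ 4 :=
    mul_le_mul_of_nonneg_left h1 (by positivity)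
  have h5 : 1 / 400 * (9 / 10 * s * N) ^ 4 = 6561 / 4000000 * (s ^ 4 * N ^ 4) := by ring
  have h6 : 0 ≤ s ^ 4 * N ^ 4 := by positivity
  rw [h2, h3, h5]
  have h7 : 1024 / 100000000 * s ^ 4 * N ^ 4 = 1024 / 100000000 * (s ^ 4 * N ^ 4) := by ring
  rw [h7] at h4 ⊢
  linarith

theorem fin3 {s N L : ℕ} {S : Finset (ℤ × ℤ)} (hs : 5 ≤ s) (h : RC s N S)
    (hk : ∀ v, Skew v → ∀ l, (S.filter fun p => On v p = l).card + 4 ≤ s)
    (hL : L + S.card = s * N) (hN : 10000 * s * L ≤ N) : ∃ T, Exact s N T := by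
  classical
  obtain ⟨L', r, c, hD⟩ := k_sq h
  have hLL : L' = L := by
    have := hD.L_eq
    omega
  subst hLL
  rcases Nat.eq_zero_or_pos L' with h0 | hpos
  · subst h0
    refine ⟨S, h.sub, ?_, ?_, ?_⟩
    · intro x hx hxN
      have h1 := hD.r_cnt x hx hxN
      have h2 : (univ.filter fun i : Fin 0 => r i = x).card = 0 := by
        rw [card_eq_zero, eq_empty_iff_forall_notMem]
        intro i
        exact i.elim0
      omega
    · intro y hy hyN
      have h1 := hD.c_cnt y hy hyN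
      have h2 : (univ.filter fun i : Fin 0 => c i = y).card = 0 := by
        rw [card_eq_zero, eq_empty_iff_forall_notMem]
        intro i
        exact i.elim0
      omega
    · intro v hv l
      have h1 := hk v hv l
      omega
  · have hs' : (5 : ℝ) ≤ s := by exact_mod_cast hs
    have hL1 : (1 : ℝ) ≤ L' := by exact_mod_cast hpos
    have hN' : 10000 * (s : ℝ) * L' ≤ N := by exact_mod_cast hN
    have hN1 : 10000 * (s : ℝ) ≤ N := by
      have h1 : 10000 * (s : ℝ) * 1 ≤ 10000 * (s : ℝ) * L' :=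
        mul_le_mul_of_nonneg_left hL1 (by positivity)
      linarith
    have hN0 : (0 : ℝ) < N := by linarith
    have hL0 : (0 : ℝ) ≤ L' := by linarith
    obtain ⟨n1, n2, n3⟩ := k3n_num hs' hN1 hL0 hN'
    have n5 := k3n_five hs' hN0.le hL0 hN'
    have ha0 : (0 : ℝ) < 9 / 10 * s * N := by positivity
    have ha : ∀ i, 9 / 10 * (s : ℝ) * N ≤ ((avl3 S (r i) (c i)).card : ℝ) := by
      intro i
      have h1 := avl3_card h (r i) (c i)
      have h2 : (S.card : ℝ) ≤ (avl3 S (r i) (c i)).card + 2 * s ^ 2 := by exact_mod_cast h1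
      have h3 : (L' : ℝ) + S.card = s * N := by exact_mod_cast hD.L_eq
      linarith
    obtain ⟨ω, w1, w2, w3, w4⟩ := ll6 S (fun i : Fin L' => avl3 S (r i) (c i))
      (fun i => filter_subset _ _) ha0 ha (δ := 1 / 400) le_rfl (B2c r c) (B2a r c) (B5 r c)
      (fun i j p q hh => B2c_symm r c i j p q hh)
      (fun i j k l m p q u w x hh => B5_swap r c i j k l m p q u w x hh)
      (by
        intro i p hp
        have h1 := kq2 h hD i (p := p) (filter_subset _ _ hp)
        have h2 : ((∑ j : Fin L', (S.filter fun q => B2c r c i j p q).card : ℕ) : ℝ) ≤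
            L' + 4 * s ^ 2 := by exact_mod_cast h1
        exact h2.trans n1)
      (by
        intro i p hp
        have h1 := kqa h i hp
        have h2 : ((∑ j : Fin L', (S.filter fun q => B2a r c i j p q).card : ℕ) : ℝ) ≤
            2 * s * L' := by exact_mod_cast h1
        exact h2.trans n2)
      (by
        intro i j p hp
        have h1 := kqb h i j hp
        have h2 : ((S.filter fun q => B2a r c i j p q).card : ℝ) ≤ 2 * s := by exact_mod_cast h1
        rw [Fintype.card_fin]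
        refine (mul_le_mul_of_nonneg_left h2 hL0).trans ?_
        have h3 : (L' : ℝ) * (2 * s) = 2 * s * L' := by ring
        rw [h3]
        exact n2)
      (by
        intro i p hp
        have h1 := kq5 h hD i (p := p) (filter_subset _ _ hp) (20000 * s ^ 2) (by
          have : 1 ≤ s ^ 2 := Nat.one_le_pow _ _ (by omega)
          omega)
        refine h1.trans ?_
        push_cast
        exact n5)
    exact ⟨xch S r c ω, k_xch h hD hk ω w1 w2 w3 w4⟩

end Pool.Agent.NKL
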