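import Pool.Agent.NKL.K3E
import Pool.Agent.NKL.K3N
import Pool.Agent.NKL.GD1

set_option autoImplicit false

/-!
# NKL / K3R : from a small total excess to an exact set

`P` from `leftover`.  For `v ∈ SDir (4n)`, `l ∈ lev n v` choose `E_{v,l} ⊆ {p ∈ P | On v p = l}` with
`|P ∩ ℓ| - (s - 4)` elements (natural subtraction); `S = P \ ⋃ E_{v,l}`.  The number of removed points is
`L ≤ ∑ (|P ∩ ℓ| - (s-4)) ≤ ∑ (|lnc ∩ bS| + 6 - (s-4)) = exc s n (s-10) φ` (`s ≥ 10`).
All skew lines have at most `s - 4` points of `S`: let `v` be skew, `l` arbitrary, with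
`|P ∩ ℓ| > s - 4`; then `|lnc n v l ∩ bS| ≥ s - 9 ≥ 2`, so the line has two cells, `hgt v < 4n`
(the difference of two cells is a nonzero multiple of `v`), `v` or `-v` is in `SDir (4n)` (`prim_dir`,
`On_neg`), and `l ∈ lev` (resp. `-l`).
`RC`, `|P| = s N` (sum over the columns), `L + |S| = s N`, so `fin3`.
-/

namespace Pool.Agent.NKL

open Finset

private theorem k3r_mem_grid {N : ℕ} {p : ℤ × ℤ} (h : p ∈ grid N) :
    0 ≤ p.1 ∧ p.1 < N ∧ 0 ≤ p.2 ∧ p.2 < N := by
  unfold grid at h
  rw [mem_product, mem_Ico, mem_Ico] at h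
  exact ⟨h.1.1, h.1.2, h.2.1, h.2.2⟩

private theorem k3r_card {s N : ℕ} {P : Finset (ℤ × ℤ)} (hP : P ⊆ grid N)
    (hc : ∀ x : ℤ, 0 ≤ x → x < N → (P.filter fun p => p.1 = x).card = s) :
    P.card = s * N := by
  have h1 : ∀ p ∈ P, p.1 ∈ Finset.Ico (0 : ℤ) N := by
    intro p hp
    have h := k3r_mem_grid (hP hp)
    rw [mem_Ico]
    exact ⟨h.1, h.2.1⟩
  rw [card_eq_sum_card_fiberwise h1]
  have h2 : ∀ x ∈ Finset.Ico (0 : ℤ) N, (P.filter fun p => p.1 = x).card = s := by
    intro x hx
    rw [mem_Ico] at hx
    exact hc x hx.1 hx.2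
  rw [sum_congr rfl h2, sum_const, Int.card_Ico, smul_eq_mul]
  have h3 : ((N : ℤ) - 0).toNat = N := by omega
  rw [h3, mul_comm]

theorem exact_of_exc {s n N : ℕ} (hs : 15 ≤ s) (hsn : s ≤ 4 * n) (h : 3 * s + 13 ≤ 10 * n)
    (h1 : 4 * n ≤ N) (h2 : N ≤ 4 * n + 3) (φ : PF n)
    (hexc : 10000 * s * exc s n (s - 10) φ ≤ N) : ∃ T, Exact s N T := by
  classical
  obtain ⟨P, hPg, hPc, hPr, hPl⟩ := leftover hs hsn h h1 h2 φ
  have hE : ∀ (v : ℤ × ℤ) (l : ℤ), ∃ E ⊆ P.filter (fun p => On v p = l),
      E.card = (P.filter (fun p => On v p = l)).card - (s - 4) := fun v l =>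
    exists_subset_card_eq (Nat.sub_le _ _)
  choose E hE1 hE2 using hE
  set U : Finset (ℤ × ℤ) :=
    (SDir (4 * n)).biUnion fun v => (lev n v).biUnion fun l => E v l with hU
  have hUP : U ⊆ P := by
    intro p hp
    rw [hU, mem_biUnion] at hp
    obtain ⟨v, -, hp⟩ := hp
    rw [mem_biUnion] at hp
    obtain ⟨l, -, hp⟩ := hp
    exact (mem_filter.1 (hE1 v l hp)).1
  set S := P \ U with hS
  have hSP : S ⊆ P := sdiff_subset
  have hUc : U.card ≤ exc s n (s - 10) φ := by
    unfold exc
    refine card_biUnion_le.trans (sum_le_sum fun v hv => ?_)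
    refine card_biUnion_le.trans (sum_le_sum fun l hl => ?_)
    have hsk : Skew v := by
      unfold SDir at hv
      rw [mem_filter] at hv
      exact ⟨dir_gcd hv.1, hv.2.1, hv.2.2⟩
    have h3 := hPl v hsk l
    rw [hE2 v l]
    omega
  have hcard : U.card + S.card = s * N := by
    rw [← k3r_card hPg hPc, hS, card_sdiff_of_subset hUP]
    have := card_le_card hUP
    omega
  have hmain : ∀ w ∈ SDir (4 * n), ∀ m ∈ lev n w,
      (S.filter fun p => On w p = m).card + 4 ≤ s := by
    intro w hw m hm
    have h3 : (S.filter fun p => On w p = m) ⊆ (P.filter fun p => On w p = m) \ E w m := by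
      intro p hp
      rw [mem_filter, hS, mem_sdiff] at hp
      rw [mem_sdiff, mem_filter]
      refine ⟨⟨hp.1.1, hp.2⟩, fun hc => hp.1.2 ?_⟩
      rw [hU, mem_biUnion]
      exact ⟨w, hw, mem_biUnion.2 ⟨m, hm, hc⟩⟩
    have h4 := card_le_card h3
    rw [card_sdiff_of_subset (hE1 w m), hE2 w m] at h4
    omega
  have hk : ∀ v, Skew v → ∀ l, (S.filter fun p => On v p = l).card + 4 ≤ s := by
    intro v hv l
    by_cases hle : (P.filter fun p => On v p = l).card + 4 ≤ s
    · have h3 : (S.filter fun p => On v p = l).card ≤ (P.filter fun p => On v p = l).card :=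
        card_le_card (filter_subset_filter _ hSP)
      omega
    · have h3 := hPl v hv l
      have h4 : 2 ≤ (lnc n v l).card := by
        have h5 := card_le_card (inter_subset_left (s₁ := lnc n v l) (s₂ := bS s n φ))
        omega
      have h5 := line_card_gen (M := 4 * n) (by omega) hv.1 l ((lnc n v l).image pt) ?_ ?_
      · rw [card_image_of_injective _ pt_inj] at h5
        have h6 : hgt v ≤ 4 * n := by
          by_contra hc
          rw [Nat.div_eq_of_lt (by omega)] at h5
          omega
        have h7 : (lnc n v l).Nonempty := by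
          rw [← card_pos]
          omega
        obtain ⟨q, hq⟩ := h7
        unfold lnc at hq
        rw [mem_filter] at hq
        rcases prim_dir hv.1 h6 with h8 | h8
        · refine hmain v ?_ l ?_
          · unfold SDir
            rw [mem_filter]
            exact ⟨h8, hv.2.1, hv.2.2⟩
          · unfold lev
            rw [mem_image]
            exact ⟨q, mem_univ _, hq.2⟩
        · have h9 := hmain (-v.1, -v.2) ?_ (-l) ?_
          · have h10 : (S.filter fun p => On (-v.1, -v.2) p = -l)
                = (S.filter fun p => On v p = l) := by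
              refine filter_congr fun p _ => ?_
              rw [On_neg]
              constructor
              · intro h; linarith
              · intro h; linarith
            rw [h10] at h9
            exact h9
          · unfold SDir
            rw [mem_filter]
            refine ⟨h8, ?_, ?_⟩
            · exact neg_ne_zero.2 hv.2.1
            · exact neg_ne_zero.2 hv.2.2
          · unfold lev
            rw [mem_image]
            refine ⟨q, mem_univ _, ?_⟩
            rw [On_neg, hq.2]
      · intro p hp
        obtain ⟨q, -, rfl⟩ := mem_image.1 hp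
        have a1 := q.1.isLt
        have a2 := q.2.isLt
        unfold pt
        dsimp only
        refine ⟨by positivity, by exact_mod_cast a1, by positivity, by exact_mod_cast a2⟩
      · intro p hp
        obtain ⟨q, hq, rfl⟩ := mem_image.1 hp
        unfold lnc at hq
        exact (mem_filter.1 hq).2
  have hRC : RC s N S := by
    refine ⟨hSP.trans hPg, fun x => ?_, fun y => ?_⟩
    · by_cases hx : 0 ≤ x ∧ x < N
      · rw [← hPc x hx.1 hx.2]
        exact card_le_card (filter_subset_filter _ hSP)
      · have h3 : (S.filter fun p => p.1 = x) = ∅ := by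
          rw [filter_eq_empty_iff]
          intro p hp hpx
          have h4 := k3r_mem_grid (hPg (hSP hp))
          rw [hpx] at h4
          exact hx ⟨h4.1, h4.2.1⟩
        rw [h3, card_empty]
        omega
    · by_cases hy : 0 ≤ y ∧ y < N
      · rw [← hPr y hy.1 hy.2]
        exact card_le_card (filter_subset_filter _ hSP)
      · have h3 : (S.filter fun p => p.2 = y) = ∅ := by
          rw [filter_eq_empty_iff]
          intro p hp hpy
          have h4 := k3r_mem_grid (hPg (hSP hp))
          rw [hpy] at h4
          exact hy ⟨h4.2.2.1, h4.2.2.2⟩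
        rw [h3, card_empty]
        omega
  refine fin3 (by omega) hRC hk hcard (le_trans ?_ hexc)
  exact Nat.mul_le_mul_left _ hUc

end Pool.Agent.NKL
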