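import Pool.Agent.NKL.K3U
import Pool.Agent.NKL.GD1

set_option autoImplicit false

/-!
# NKL / K3S : the expected total excess is tiny for `s ≥ 999`

`T = s - 10`, `F = card (PF n)`.  `exc_line` for every line; lines with at most `T` cells contribute
nothing.
`num1`: `16 (4/5)^(s-10) exp(s/5 + 7/8) ≤ 1/(20000 s)`: `(4/5) exp(1/5) ≤ 0.97713`,
`(5/4)^10 exp(7/8) ≤ 22.4`, so the left side is at most `358.4 * 0.97713^s`, and
`s * 0.97713^s` is decreasing for `s ≥ 999` (`(1 + 1/999) 0.97713 < 1`), `0.97713^999 ≤ 9.2/10^11`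
(`norm_num`).
`num2`: `1024 exp(3s/5 + 18/5)/2^(s-13) ≤ 2/(10000 s)`: `exp(3/5)/2 ≤ 0.9112`, similarly.
Height 1: the directions `(1,1)`, `(1,-1)` (`SDir`), at most `8n` lines each (`lev_card`), `z = 1/4`,
`mu_diag`: per line `4 (4/5)^T exp(s/5 + 7/8)`; total `≤ 64 n (..) ≤ 4 n/(20000 s)`.
Height `h ≥ 2` with more than `T` cells: `(4n-1)/h + 1 > T`, so `h (T-1) < 4n`; `z = h/2`:
`z mu ≤ (h/2) ((4n-1)/h + 1)(3/10 s + 13/10)/n ≤ (3/5) s + 13/5 + (h/(2n))(3/10 s + 13/10)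
≤ (3/5) s + 18/5` (`h/(2n) ≤ 2/(T-1)`, `s ≥ 999`).  Per line `(2/h) exp(3s/5 + 18/5)/(1 + h/2)^T`, at
most `8 h n` lines for each of the at most `8 h` directions (`card_hgt`): total
`≤ 128 n exp(3s/5+18/5) ∑_{h ≥ 2} h/(1+h/2)^T`, `(1+h/2)^T ≥ 2^(T-3) (h/2)^3`, and
`∑_{h≥2} 8/h² ≤ 8` (`sum_inv_sq` with `d₀ = 1`): `≤ 1024 n exp(3s/5+18/5)/2^(s-13) ≤ 2 n/(10000 s)`.
-/

namespace Pool.Agent.NKL

open Finset

private lemma k3s_pow {r : ℝ} (hr0 : 0 ≤ r) (hr : 1000 * r ≤ 999) {s : ℕ} (hs : 999 ≤ s) :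
    (s : ℝ) * r ^ s ≤ 999 * r ^ 999 := by
  induction s, hs using Nat.le_induction with
  | base => norm_num
  | succ m hm ih =>
    have hm' : (999 : ℝ) ≤ m := by exact_mod_cast hm
    have h1 : ((m : ℝ) + 1) * r ≤ m := by nlinarith
    have h2 : 0 ≤ r ^ m := pow_nonneg hr0 m
    calc (((m + 1 : ℕ) : ℝ)) * r ^ (m + 1) = (((m : ℝ) + 1) * r) * r ^ m := by
          push_cast; ring
      _ ≤ m * r ^ m := mul_le_mul_of_nonneg_right h1 h2
      _ ≤ _ := ih

private lemma k3s_exp15 : Real.exp (1 / 5) ≤ 1.2214125 := by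
  have h := Real.exp_bound' (x := 1 / 5) (by norm_num) (by norm_num) (n := 6) (by norm_num)
  refine h.trans ?_
  norm_num [Finset.sum_range_succ, Nat.factorial]

private lemma k3s_exp78 : Real.exp (7 / 8) ≤ 2.4 := by
  have h := Real.exp_bound' (x := 7 / 8) (by norm_num) (by norm_num) (n := 6) (by norm_num)
  refine h.trans ?_
  norm_num [Finset.sum_range_succ, Nat.factorial]

private lemma k3s_exp35 : Real.exp (3 / 5) ≤ 1.83 := by
  have h := Real.exp_bound' (x := 3 / 5) (by norm_num) (by norm_num) (n := 6) (by norm_num)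
  refine h.trans ?_
  norm_num [Finset.sum_range_succ, Nat.factorial]

theorem num1 {s : ℕ} (hs : 999 ≤ s) :
    16 * (4 / 5 : ℝ) ^ (s - 10) * Real.exp (s / 5 + 7 / 8) ≤ 1 / (20000 * s) := by
  have hs' : (999 : ℝ) ≤ s := by exact_mod_cast hs
  have e1 : (4 / 5 : ℝ) ^ (s - 10) = (4 / 5) ^ s * (5 / 4) ^ 10 := by
    have h : (4 / 5 : ℝ) ^ s = (4 / 5) ^ (s - 10) * (4 / 5) ^ 10 := by
      rw [← pow_add]; congr 1; omega
    rw [h, mul_assoc, ← mul_pow]; norm_num
  have e2 : Real.exp (s / 5 + 7 / 8) = Real.exp (1 / 5) ^ s * Real.exp (7 / 8) := by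
    rw [Real.exp_add, ← Real.exp_nat_mul]; congr 2; ring
  have h1 : Real.exp (1 / 5) ^ s ≤ (1.2214125 : ℝ) ^ s :=
    pow_le_pow_left₀ (Real.exp_pos _).le k3s_exp15 s
  have h2 := k3s_exp78
  have h3 : (4 / 5 : ℝ) ^ s * (1.2214125 : ℝ) ^ s = (0.97713 : ℝ) ^ s := by
    rw [← mul_pow]; norm_num
  have h4 : (s : ℝ) * (0.97713 : ℝ) ^ s ≤ 999 * (0.97713 : ℝ) ^ 999 :=
    k3s_pow (by norm_num) (by norm_num) hs
  have h5 : (999 : ℝ) * (0.97713 : ℝ) ^ 999 ≤ 999 * (92 / 10 ^ 12) := by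
    apply mul_le_mul_of_nonneg_left _ (by norm_num)
    have e3 : (0.97713 : ℝ) ^ 999 = ((0.97713 : ℝ) ^ 37) ^ 27 := by rw [← pow_mul]
    have e4 : (0.97713 : ℝ) ^ 37 ≤ 0.424875 := by norm_num
    have e5 : ((0.97713 : ℝ) ^ 37) ^ 27 ≤ (0.424875 : ℝ) ^ 27 :=
      pow_le_pow_left₀ (by positivity) e4 _
    rw [e3]
    refine e5.trans ?_
    norm_num
  rw [e1, e2, le_div_iff₀ (by positivity)]
  have h6 : (4 / 5 : ℝ) ^ s * Real.exp (1 / 5) ^ s ≤ (0.97713 : ℝ) ^ s := by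
    rw [← h3]; exact mul_le_mul_of_nonneg_left h1 (by positivity)
  have h7 : (4 / 5 : ℝ) ^ s * Real.exp (1 / 5) ^ s * Real.exp (7 / 8) ≤
      (0.97713 : ℝ) ^ s * 2.4 :=
    mul_le_mul h6 h2 (Real.exp_pos _).le (by positivity)
  calc 16 * ((4 / 5 : ℝ) ^ s * (5 / 4) ^ 10) * (Real.exp (1 / 5) ^ s * Real.exp (7 / 8)) *
        (20000 * s)
      = 16 * (5 / 4) ^ 10 * 20000 * s * ((4 / 5 : ℝ) ^ s * Real.exp (1 / 5) ^ s *
        Real.exp (7 / 8)) := by ring
    _ ≤ 16 * (5 / 4) ^ 10 * 20000 * s * ((0.97713 : ℝ) ^ s * 2.4) :=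
        mul_le_mul_of_nonneg_left h7 (by positivity)
    _ = 16 * (5 / 4) ^ 10 * 20000 * 2.4 * (s * (0.97713 : ℝ) ^ s) := by ring
    _ ≤ 16 * (5 / 4) ^ 10 * 20000 * 2.4 * (999 * (92 / 10 ^ 12)) :=
        mul_le_mul_of_nonneg_left (h4.trans h5) (by positivity)
    _ ≤ 1 := by norm_num

theorem num2 {s : ℕ} (hs : 999 ≤ s) :
    1024 * Real.exp (3 * s / 5 + 18 / 5) / 2 ^ (s - 13) ≤ (2 : ℝ) / (10000 * s) := by
  have hs' : (999 : ℝ) ≤ s := by exact_mod_cast hs
  have e1 : (2 : ℝ) ^ s = 2 ^ (s - 13) * 2 ^ 13 := by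
    rw [← pow_add]; congr 1; omega
  have e2 : Real.exp (3 * s / 5 + 18 / 5) = Real.exp (3 / 5) ^ (s + 6) := by
    rw [← Real.exp_nat_mul]; congr 1; push_cast; ring
  have h1 : Real.exp (3 / 5) ^ (s + 6) ≤ (1.83 : ℝ) ^ (s + 6) :=
    pow_le_pow_left₀ (Real.exp_pos _).le k3s_exp35 _
  have h3 : (1.83 : ℝ) ^ s = (0.915 : ℝ) ^ s * 2 ^ s := by
    rw [← mul_pow]; norm_num
  have h4 : (s : ℝ) * (0.915 : ℝ) ^ s ≤ 999 * (0.915 : ℝ) ^ 999 :=
    k3s_pow (by norm_num) (by norm_num) hs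
  have h5 : (999 : ℝ) * (0.915 : ℝ) ^ 999 ≤ 1 / 10 ^ 20 := by
    have e3 : (0.915 : ℝ) ^ 999 = ((0.915 : ℝ) ^ 37) ^ 27 := by rw [← pow_mul]
    have e4 : (0.915 : ℝ) ^ 37 ≤ 0.05 := by norm_num
    have e5 : ((0.915 : ℝ) ^ 37) ^ 27 ≤ (0.05 : ℝ) ^ 27 :=
      pow_le_pow_left₀ (by positivity) e4 _
    rw [e3]
    refine (mul_le_mul_of_nonneg_left e5 (by norm_num)).trans ?_
    norm_num
  rw [e2, div_le_div_iff₀ (by positivity) (by positivity)]
  calc 1024 * Real.exp (3 / 5) ^ (s + 6) * (10000 * s)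
      ≤ 1024 * (1.83 : ℝ) ^ (s + 6) * (10000 * s) := by
        apply mul_le_mul_of_nonneg_right _ (by positivity)
        exact mul_le_mul_of_nonneg_left h1 (by norm_num)
    _ = 1024 * 1.83 ^ 6 * 10000 * 2 ^ 13 * (s * (0.915 : ℝ) ^ s) * 2 ^ (s - 13) := by
        rw [pow_add, h3, e1]; ring
    _ ≤ 1024 * 1.83 ^ 6 * 10000 * 2 ^ 13 * (1 / 10 ^ 20) * 2 ^ (s - 13) := by
        apply mul_le_mul_of_nonneg_right _ (by positivity)
        exact mul_le_mul_of_nonneg_left (h4.trans h5) (by positivity)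
    _ ≤ 2 * 2 ^ (s - 13) := by
        apply mul_le_mul_of_nonneg_right _ (by positivity)
        norm_num

theorem exc_one {s n : ℕ} (hs : 999 ≤ s) (hn : 1 ≤ n) {v : ℤ × ℤ}
    (hv : v = (1, 1) ∨ v = (1, -1)) :
    ∑ φ : PF n, ∑ l ∈ lev n v, (((lnc n v l ∩ bS s n φ).card - (s - 10) : ℕ) : ℝ)
      ≤ (Fintype.card (PF n) : ℝ) * (2 * n / (20000 * s)) := by
  have hsk : Skew v := by
    rcases hv with h | h <;> subst h <;> refine ⟨by norm_num, by norm_num, by norm_num⟩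
  have hh : hgt v = 1 := by
    rcases hv with h | h <;> subst h <;> rfl
  have hnum := num1 hs
  have hs' : (999 : ℝ) ≤ s := by exact_mod_cast hs
  have hF : (0 : ℝ) ≤ (Fintype.card (PF n) : ℝ) := Nat.cast_nonneg _
  set F : ℝ := (Fintype.card (PF n) : ℝ) with hFdef
  have hline : ∀ l ∈ lev n v,
      ∑ φ : PF n, (((lnc n v l ∩ bS s n φ).card - (s - 10) : ℕ) : ℝ) ≤
        F * (1 / (80000 * s)) * (1 : ℝ) := by
    intro l _
    have h1 := exc_line (s := s) (lnc n v l) (lnc_inj hsk l) (z := 1 / 4) (by norm_num) (s - 10)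
    refine h1.trans ?_
    rw [mul_one]
    apply mul_le_mul_of_nonneg_left _ hF
    have h2 : Real.exp (1 / 4 * mu s n (lnc n v l)) ≤ Real.exp (s / 5 + 7 / 8) := by
      apply Real.exp_le_exp.2
      have := mu_diag (s := s) hn hv l
      linarith
    have h3 : (1 / 4 : ℝ) * (1 + 1 / 4) ^ (s - 10) = ((4 : ℝ) * (4 / 5) ^ (s - 10))⁻¹ := by
      rw [mul_inv, ← inv_pow]; norm_num
    rw [h3, div_inv_eq_mul]
    calc Real.exp (1 / 4 * mu s n (lnc n v l)) * (4 * (4 / 5) ^ (s - 10))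
        ≤ Real.exp (s / 5 + 7 / 8) * (4 * (4 / 5) ^ (s - 10)) :=
          mul_le_mul_of_nonneg_right h2 (by positivity)
      _ = (1 / 4) * (16 * (4 / 5 : ℝ) ^ (s - 10) * Real.exp (s / 5 + 7 / 8)) := by ring
      _ ≤ (1 / 4) * (1 / (20000 * s)) := mul_le_mul_of_nonneg_left hnum (by norm_num)
      _ = 1 / (80000 * s) := by
          field_simp
          norm_num
  rw [sum_comm]
  refine (sum_le_sum hline).trans ?_
  rw [sum_const, nsmul_eq_mul]
  have h4 : ((lev n v).card : ℝ) ≤ 8 * n := by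
    have := lev_card hn hsk
    rw [hh] at this
    have h5 : (lev n v).card ≤ 8 * n := by simpa using this
    exact_mod_cast h5
  calc ((lev n v).card : ℝ) * (F * (1 / (80000 * s)) * 1)
      ≤ (8 * n) * (F * (1 / (80000 * s)) * 1) :=
        mul_le_mul_of_nonneg_right h4 (by positivity)
    _ = F * (2 * n / (20000 * s)) := by
        field_simp
        ring

theorem exc_far {s n : ℕ} (hs : 999 ≤ s) (hn : 1 ≤ n) {v : ℤ × ℤ} (hv : Skew v)
    (h2 : 2 ≤ hgt v) :
    ∑ φ : PF n, ∑ l ∈ lev n v, (((lnc n v l ∩ bS s n φ).card - (s - 10) : ℕ) : ℝ)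
      ≤ (Fintype.card (PF n) : ℝ) *
        (128 * n * Real.exp (3 * s / 5 + 18 / 5) / (2 ^ (s - 13) * (hgt v : ℝ) ^ 3)) := by
  classical
  have hs' : (999 : ℝ) ≤ s := by exact_mod_cast hs
  have hn' : (1 : ℝ) ≤ n := by exact_mod_cast hn
  have hF : (0 : ℝ) ≤ (Fintype.card (PF n) : ℝ) := Nat.cast_nonneg _
  set F : ℝ := (Fintype.card (PF n) : ℝ) with hFdef
  set h : ℕ := hgt v with hh
  set E : ℝ := Real.exp (3 * s / 5 + 18 / 5) with hE
  have hEpos : 0 < E := Real.exp_pos _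
  have hh2 : (2 : ℝ) ≤ h := by exact_mod_cast h2
  have hT : ((s - 10 : ℕ) : ℝ) = s - 10 := by
    rw [Nat.cast_sub (by omega)]; norm_num
  have hline : ∀ l ∈ lev n v,
      ∑ φ : PF n, (((lnc n v l ∩ bS s n φ).card - (s - 10) : ℕ) : ℝ) ≤
        F * (E / ((h / 2 : ℝ) * (1 + h / 2) ^ (s - 10))) := by
    intro l _
    by_cases hc : (lnc n v l).card ≤ s - 10
    · have h0 : ∀ φ : PF n, (((lnc n v l ∩ bS s n φ).card - (s - 10) : ℕ) : ℝ) = 0 := by
        intro φ
        have := card_le_card (inter_subset_left (s₁ := lnc n v l) (s₂ := bS s n φ))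
        have h1 : (lnc n v l ∩ bS s n φ).card - (s - 10) = 0 := by omega
        rw [h1]; norm_num
      rw [sum_congr rfl fun φ _ => h0 φ, sum_const_zero]
      positivity
    · push Not at hc
      have h1 := exc_line (s := s) (lnc n v l) (lnc_inj hv l) (z := (h / 2 : ℝ)) (by positivity)
        (s - 10)
      refine h1.trans ?_
      apply mul_le_mul_of_nonneg_left _ hF
      apply div_le_div_of_nonneg_right _ (by positivity)
      apply Real.exp_le_exp.2
      have hcard := lnc_card hn hv l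
      have hm : h * ((4 * n - 1) / h) ≤ 4 * n - 1 := Nat.mul_div_le _ _
      set c : ℕ := (lnc n v l).card with hcdef
      have hc1 : h * c ≤ 4 * n - 1 + h := by
        calc h * c ≤ h * ((4 * n - 1) / h + 1) := Nat.mul_le_mul_left _ hcard
          _ = h * ((4 * n - 1) / h) + h := by ring
          _ ≤ _ := by omega
      have hc2 : (h : ℝ) * c ≤ 4 * n + h := by
        have : h * c ≤ 4 * n + h := by omega
        exact_mod_cast this
      have hc3 : (h : ℝ) * (s - 10) ≤ 4 * n := by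
        have h5 : h * (s - 10) ≤ 4 * n := by
          have h6 : h * (s - 10 + 1) ≤ h * c := Nat.mul_le_mul_left _ (by omega)
          have h7 : h * (s - 10 + 1) = h * (s - 10) + h := by ring
          omega
        have h8 : (h : ℝ) * ((s - 10 : ℕ) : ℝ) ≤ 4 * n := by exact_mod_cast h5
        rwa [hT] at h8
      have hmu := mu_gen (s := s) (n := n) (lnc n v l)
      have hA : (0 : ℝ) ≤ 3 / 10 * s + 13 / 10 := by positivity
      have hA2 : (h : ℝ) * (3 / 10 * s + 13 / 10) ≤ 2 * n := by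
        have : (h : ℝ) * (3 / 10 * s + 13 / 10) ≤ (1 / 2) * (h * (s - 10)) := by nlinarith
        linarith
      calc (h / 2 : ℝ) * mu s n (lnc n v l)
          ≤ (h / 2 : ℝ) * (c * (3 / 10 * s + 13 / 10) / n) :=
            mul_le_mul_of_nonneg_left hmu (by positivity)
        _ = (h * c) * (3 / 10 * s + 13 / 10) / (2 * n) := by
            field_simp
        _ ≤ (4 * n + h) * (3 / 10 * s + 13 / 10) / (2 * n) := by
            apply div_le_div_of_nonneg_right _ (by positivity)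
            exact mul_le_mul_of_nonneg_right hc2 hA
        _ ≤ 3 * s / 5 + 18 / 5 := by
            rw [div_le_iff₀ (by positivity)]
            nlinarith
  rw [sum_comm]
  refine (sum_le_sum hline).trans ?_
  rw [sum_const, nsmul_eq_mul]
  have h4 : ((lev n v).card : ℝ) ≤ 8 * h * n := by
    have := lev_card hn hv
    exact_mod_cast this
  have h5 : (2 : ℝ) ^ (s - 13) * h ^ 3 ≤ 8 * (1 + h / 2) ^ (s - 10) := by
    have e1 : (1 + h / 2 : ℝ) ^ (s - 10) = (1 + h / 2) ^ (s - 13) * (1 + h / 2) ^ 3 := by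
      rw [← pow_add]; congr 1; omega
    rw [e1]
    have h6 : (2 : ℝ) ^ (s - 13) ≤ (1 + h / 2) ^ (s - 13) :=
      pow_le_pow_left₀ (by norm_num) (by linarith) _
    have h7 : (h : ℝ) ^ 3 ≤ 8 * (1 + h / 2) ^ 3 := by
      have : (8 : ℝ) * (1 + h / 2) ^ 3 = (2 + h) ^ 3 := by ring
      rw [this]
      exact pow_le_pow_left₀ (by positivity) (by linarith) _
    calc (2 : ℝ) ^ (s - 13) * h ^ 3 ≤ (1 + h / 2) ^ (s - 13) * (8 * (1 + h / 2) ^ 3) :=
          mul_le_mul h6 h7 (by positivity) (by positivity)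
      _ = _ := by ring
  calc ((lev n v).card : ℝ) * (F * (E / ((h / 2 : ℝ) * (1 + h / 2) ^ (s - 10))))
      ≤ (8 * h * n) * (F * (E / ((h / 2 : ℝ) * (1 + h / 2) ^ (s - 10)))) :=
        mul_le_mul_of_nonneg_right h4 (by positivity)
    _ = F * (128 * n * E / (8 * (1 + h / 2) ^ (s - 10))) := by
        field_simp
        ring
    _ ≤ F * (128 * n * E / (2 ^ (s - 13) * h ^ 3)) := by
        apply mul_le_mul_of_nonneg_left _ hF
        exact div_le_div_of_nonneg_left (by positivity) (by positivity) h5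

theorem exc_sum {s n : ℕ} (hs : 999 ≤ s) (hn : 1 ≤ n) :
    ∑ φ : PF n, (exc s n (s - 10) φ : ℝ)
      ≤ (Fintype.card (PF n) : ℝ) * (4 * n / (10000 * s)) := by
  classical
  have hs' : (999 : ℝ) ≤ s := by exact_mod_cast hs
  have hn' : (1 : ℝ) ≤ n := by exact_mod_cast hn
  have hF : (0 : ℝ) ≤ (Fintype.card (PF n) : ℝ) := Nat.cast_nonneg _
  set F : ℝ := (Fintype.card (PF n) : ℝ) with hFdef
  set E : ℝ := Real.exp (3 * s / 5 + 18 / 5) with hE
  have hEpos : 0 < E := Real.exp_pos _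
  set G : ℤ × ℤ → ℝ := fun v =>
    ∑ φ : PF n, ∑ l ∈ lev n v, (((lnc n v l ∩ bS s n φ).card - (s - 10) : ℕ) : ℝ) with hG
  have e1 : ∑ φ : PF n, (exc s n (s - 10) φ : ℝ) = ∑ v ∈ SDir (4 * n), G v := by
    rw [hG, sum_comm]
    refine sum_congr rfl fun φ _ => ?_
    unfold exc
    push_cast
    rfl
  have hskew : ∀ v ∈ SDir (4 * n), Skew v := by
    intro v hv
    unfold SDir at hv
    rw [mem_filter] at hv
    exact ⟨dir_gcd hv.1, hv.2.1, hv.2.2⟩
  rw [e1, ← sum_filter_add_sum_filter_not (SDir (4 * n)) (fun v => 1 < hgt v)]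
  have hfar : ∑ v ∈ (SDir (4 * n)).filter (fun v => 1 < hgt v), G v ≤
      F * (2 * n / (10000 * s)) := by
    have h1 : ∀ v ∈ (SDir (4 * n)).filter (fun v => 1 < hgt v), G v ≤
        F * (128 * n * E / 2 ^ (s - 13)) * (1 / (hgt v : ℝ) ^ 3) := by
      intro v hv
      rw [mem_filter] at hv
      refine (exc_far hs hn (hskew v hv.1) hv.2).trans (le_of_eq ?_)
      have : (0 : ℝ) < hgt v := by
        have := hv.2
        exact_mod_cast (by omega : 0 < hgt v)
      rw [← hFdef, ← hE]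
      field_simp
    refine (sum_le_sum h1).trans ?_
    rw [← mul_sum]
    have h2 : ∑ v ∈ (SDir (4 * n)).filter (fun v => 1 < hgt v), (1 / (hgt v : ℝ) ^ 3) ≤ 8 := by
      calc ∑ v ∈ (SDir (4 * n)).filter (fun v => 1 < hgt v), (1 / (hgt v : ℝ) ^ 3)
          ≤ ∑ v ∈ (Dir (4 * n)).filter (fun v => 1 < hgt v), (1 / (hgt v : ℝ) ^ 3) := by
            apply sum_le_sum_of_subset_of_nonneg
            · apply filter_subset_filter
              unfold SDir
              exact filter_subset _ _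
            · intro v _ _
              positivity
        _ ≤ ∑ d ∈ Finset.Ioc 1 (4 * n), 8 * (d : ℝ) * (1 / (d : ℝ) ^ 3) :=
            sum_dir (4 * n) 1 (fun d => 1 / (d : ℝ) ^ 3) (fun d => by positivity)
        _ = 8 * ∑ d ∈ Finset.Ioc 1 (4 * n), 1 / (d : ℝ) ^ 2 := by
            rw [mul_sum]
            refine sum_congr rfl fun d hd => ?_
            rw [mem_Ioc] at hd
            have : (0 : ℝ) < d := by exact_mod_cast (by omega : 0 < d)
            field_simp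
        _ ≤ 8 * (1 / ((1 : ℕ) : ℝ)) :=
            mul_le_mul_of_nonneg_left (sum_inv_sq 1 (4 * n) le_rfl) (by norm_num)
        _ = 8 := by norm_num
    have h3 := num2 hs
    rw [← hE] at h3
    calc F * (128 * n * E / 2 ^ (s - 13)) *
          ∑ v ∈ (SDir (4 * n)).filter (fun v => 1 < hgt v), (1 / (hgt v : ℝ) ^ 3)
        ≤ F * (128 * n * E / 2 ^ (s - 13)) * 8 :=
          mul_le_mul_of_nonneg_left h2 (by positivity)
      _ = F * n * (1024 * E / 2 ^ (s - 13)) := by ring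
      _ ≤ F * n * (2 / (10000 * s)) := mul_le_mul_of_nonneg_left h3 (by positivity)
      _ = F * (2 * n / (10000 * s)) := by ring
  have hone : ∑ v ∈ (SDir (4 * n)).filter (fun v => ¬ 1 < hgt v), G v ≤
      F * (2 * n / (10000 * s)) := by
    have hsub : (SDir (4 * n)).filter (fun v => ¬ 1 < hgt v) ⊆ {((1 : ℤ), (1 : ℤ)), (1, -1)} := by
      intro v hv
      rw [mem_filter] at hv
      obtain ⟨hv1, hv2⟩ := hv
      unfold SDir at hv1
      rw [mem_filter] at hv1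
      obtain ⟨hv1, hv3, hv4⟩ := hv1
      unfold Dir at hv1
      rw [mem_filter, mem_product, mem_Icc, mem_Icc] at hv1
      unfold hgt at hv2
      have h5 := hv1.1.1
      rw [mem_insert, mem_singleton]
      have h6 : v.1 = 1 := by omega
      have h7 : v.2 = 1 ∨ v.2 = -1 := by omega
      rcases h7 with h7 | h7
      · left; exact Prod.ext h6 h7
      · right; exact Prod.ext h6 h7
    have hnn : ∀ v, 0 ≤ G v := by
      intro v
      rw [hG]
      exact sum_nonneg fun φ _ => sum_nonneg fun l _ => Nat.cast_nonneg _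
    refine (sum_le_sum_of_subset_of_nonneg hsub fun v _ _ => hnn v).trans ?_
    rw [sum_pair (by decide)]
    have h8 := exc_one hs hn (v := (1, 1)) (Or.inl rfl)
    have h9 := exc_one hs hn (v := (1, -1)) (Or.inr rfl)
    have h10 : F * (2 * n / (20000 * s)) + F * (2 * n / (20000 * s)) =
        F * (2 * n / (10000 * s)) := by
      field_simp
      ring
    rw [← h10]
    exact add_le_add h8 h9
  calc _ ≤ F * (2 * n / (10000 * s)) + F * (2 * n / (10000 * s)) := add_le_add hfar hone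
    _ = F * (4 * n / (10000 * s)) := by ring

end Pool.Agent.NKL
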