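import Pool.Agent.NKL.K3M
import Pool.Agent.NKL.GD3
import Pool.Agent.NKL.GD2

set_option autoImplicit false

/-!
# NKL / K3U : lines and their means

* `lnc_inj`: `v.1 ≠ 0`: the first coordinate determines the point of a line (`On_inj`, `pt` injective).
* `lnc_card`: `line_card_gen` with `M = 4n`.
* `lev_card`: `On v p = v.2 p.1 - v.1 p.2` with `0 ≤ p.1, p.2 ≤ 4n - 1` lies in an interval of length
  `(|v.1| + |v.2|)(4n-1) + 1 ≤ 8 h n`.
* `am_low`, `am_high`: `s/5` for `outr I = outr J`; `(s - 2 (s/5))/2 + 1` resp. without `+1` is at most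
  `3/10 s + 13/10` in all cases (`s - 2 (s/5) ≤ 3/5 s + 8/5`; the `+1` occurs only for odd
  `s - 2 (s/5)`).
* `mu_diag`: with `f = 1 - psi psi/5` (`f = 4/5` iff both coordinates are in outer blocks or both in
  inner blocks, i.e. `outr (bk p.1) = outr (bk p.2)`, and `6/5` otherwise) `am ≤ (s/4) f + 13/10 [f = 6/5]`.
  `mass_diag` (GD3, with `N = 4n`, `D = 1`) says `∑_{line} f ≤ (4/5) 4n`, so the number of cells with
  `f = 6/5` is at most `(16/5) n/(6/5) = (8/3) n`, and `∑ am ≤ (s/4)(16/5) n + (13/10)(8/3) n ≤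
  (4/5 s + 7/2) n`.
* `mu_gen`: `am ≤ 3/10 s + 13/10`.
-/

namespace Pool.Agent.NKL

open Finset

variable {s n : ℕ}

theorem lnc_inj {v : ℤ × ℤ} (hv : Skew v) (l : ℤ) :
    ∀ p ∈ lnc n v l, ∀ q ∈ lnc n v l, p.1 = q.1 → p = q := by
  intro p hp q hq h
  have h1 := (Finset.mem_filter.1 hp).2
  have h2 := (Finset.mem_filter.1 hq).2
  have h3 : On v (pt p) = On v (pt q) := h1.trans h2.symm
  unfold On pt at h3
  dsimp only at h3
  rw [h] at h3
  have h4 : v.1 * (((p.2 : ℕ) : ℤ) - ((q.2 : ℕ) : ℤ)) = 0 := by linarith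
  rcases mul_eq_zero.1 h4 with h5 | h5
  · exact absurd h5 hv.2.1
  · refine Prod.ext h (Fin.ext ?_)
    omega


theorem lnc_card (hn : 1 ≤ n) {v : ℤ × ℤ} (hv : Skew v) (l : ℤ) :
    (lnc n v l).card ≤ (4 * n - 1) / hgt v + 1 := by
  have h1 := line_card_gen (M := 4 * n) (by omega) hv.1 l
    ((lnc n v l).image pt) ?_ ?_
  · rwa [Finset.card_image_of_injective _ pt_inj] at h1
  · intro p hp
    obtain ⟨q, -, rfl⟩ := Finset.mem_image.1 hp
    have a1 := q.1.isLt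
    have a2 := q.2.isLt
    unfold pt
    dsimp only
    refine ⟨by positivity, by exact_mod_cast a1, by positivity, by exact_mod_cast a2⟩
  · intro p hp
    obtain ⟨q, hq, rfl⟩ := Finset.mem_image.1 hp
    exact (Finset.mem_filter.1 hq).2


private theorem k3u_rng (w : ℤ) {M : ℤ} (hM : 0 ≤ M) :
    ∃ a b : ℤ, b - a = |w| * M ∧ ∀ x : ℤ, 0 ≤ x → x ≤ M → a ≤ w * x ∧ w * x ≤ b := by
  rcases le_total 0 w with h | h
  · refine ⟨0, w * M, by rw [abs_of_nonneg h]; ring, fun x h1 h2 => ⟨mul_nonneg h h1, ?_⟩⟩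
    exact mul_le_mul_of_nonneg_left h2 h
  · refine ⟨w * M, 0, by rw [abs_of_nonpos h]; ring, fun x h1 h2 => ⟨?_, ?_⟩⟩
    · nlinarith
    · nlinarith

theorem lev_card (hn : 1 ≤ n) {v : ℤ × ℤ} (hv : Skew v) : (lev n v).card ≤ 8 * hgt v * n := by
  have hh := hgt_pos hv.1
  have ha : v.1.natAbs ≤ hgt v := le_max_left _ _
  have hb : v.2.natAbs ≤ hgt v := le_max_right _ _
  have hM : (0 : ℤ) ≤ 4 * (n : ℤ) - 1 := by omega
  have e1 := k3u_rng v.2 hM
  have e2 := k3u_rng v.1 hM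
  obtain ⟨a, b, hab, hr⟩ := e1
  obtain ⟨c, d, hcd, hr'⟩ := e2
  have hsub : lev n v ⊆ Finset.Icc (a - d) (b - c) := by
    intro l hl
    obtain ⟨p, -, rfl⟩ := Finset.mem_image.1 hl
    have a1 := p.1.isLt
    have a2 := p.2.isLt
    have b1 := hr (p.1 : ℕ) (by positivity) (by omega)
    have b2 := hr' (p.2 : ℕ) (by positivity) (by omega)
    rw [Finset.mem_Icc]
    unfold On pt
    dsimp only
    constructor <;> linarith [b1.1, b1.2, b2.1, b2.2]
  have h1 := Finset.card_le_card hsub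
  rw [Int.card_Icc] at h1
  have h2 : (b - c + 1 - (a - d)) ≤ ((8 * hgt v * n : ℕ) : ℤ) := by
    have h3 : (v.1.natAbs : ℤ) ≤ hgt v := by exact_mod_cast ha
    have h4 : (v.2.natAbs : ℤ) ≤ hgt v := by exact_mod_cast hb
    have h5 : (1 : ℤ) ≤ hgt v := by exact_mod_cast hh
    rw [Int.natCast_natAbs] at h3 h4
    have h6 := mul_le_mul_of_nonneg_right h3 hM
    have h7 := mul_le_mul_of_nonneg_right h4 hM
    push_cast
    have h8 : b - c + 1 - (a - d) = |v.2| * (4 * (n : ℤ) - 1) + |v.1| * (4 * (n : ℤ) - 1) + 1 := by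
      rw [← hab, ← hcd]; ring
    rw [h8]
    nlinarith
  omega


theorem am_low (s : ℕ) {I J : Fin 4} (h : outr I = outr J) : (am s I J : ℝ) ≤ s / 5 := by
  unfold am
  rw [if_pos h]
  exact_mod_cast Nat.cast_div_le (α := ℝ) (m := s) (n := 5)


theorem am_high (s : ℕ) (I J : Fin 4) : (am s I J : ℝ) ≤ 3 / 10 * s + 13 / 10 := by
  have h1 : 10 * am s I J ≤ 3 * s + 13 := by
    unfold am
    split_ifs with h2 h3
    · omega
    · omega
    · omega
  have h2 : (10 : ℝ) * (am s I J : ℝ) ≤ 3 * s + 13 := by exact_mod_cast h1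
  linarith


private theorem k3u_psi (x : Fin (4 * n)) :
    (outr (bk x) = true ∧ psi n x = 1) ∨ (outr (bk x) = false ∧ psi n x = -1) := by
  have hx := x.isLt
  have hn : 0 < n := by omega
  by_cases h : (x : ℕ) < n ∨ 3 * n ≤ (x : ℕ)
  · left
    refine ⟨?_, by unfold psi; rw [if_pos h]⟩
    unfold outr bk
    rw [decide_eq_true_eq]
    rcases h with h | h
    · left
      apply Fin.ext
      show (x : ℕ) / n = 0
      exact Nat.div_eq_of_lt h
    · right
      apply Fin.ext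
      show (x : ℕ) / n = 3
      exact Nat.div_eq_of_lt_le (by linarith) (by linarith)
  · right
    refine ⟨?_, by unfold psi; rw [if_neg h]⟩
    push Not at h
    unfold outr bk
    rw [decide_eq_false_iff_not]
    rintro (h1 | h1)
    · have h2 : (x : ℕ) / n = 0 := congrArg Fin.val h1
      have h3 := (Nat.div_eq_zero_iff).1 h2
      omega
    · have h2 : (x : ℕ) / n = 3 := congrArg Fin.val h1
      have h3 := Nat.div_add_mod (x : ℕ) n
      rw [h2] at h3
      have h4 := Nat.mod_lt (x : ℕ) hn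
      omega

theorem mu_diag (hn : 1 ≤ n) {v : ℤ × ℤ} (hv : v = (1, 1) ∨ v = (1, -1)) (l : ℤ) :
    mu s n (lnc n v l) ≤ 4 / 5 * s + 7 / 2 := by
  have hn0 : (0 : ℝ) < n := by exact_mod_cast hn
  have hs : (0 : ℝ) ≤ s := Nat.cast_nonneg s
  have hmem : v ∈ Dir 1 := by
    unfold Dir
    rcases hv with rfl | rfl
    · rw [mem_filter, mem_product, mem_Icc, mem_Icc]
      norm_num
    · rw [mem_filter, mem_product, mem_Icc, mem_Icc]
      norm_num
  have hm := mass_diag (s := s) (c₁ := s) hn (le_refl (4 * n)) (le_refl 1) ⟨v, hmem⟩ l hv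
  unfold Sys.mass at hm
  have hN : (0 : ℝ) < ((4 * n : ℕ) : ℝ) := by push_cast; linarith
  have hm2 : ∑ p ∈ lnc n v l, (1 - psi n p.1 * psi n p.2 / 5) ≤ 4 / 5 * (4 * n) := by
    have h1 : (∑ p ∈ lnc n v l, (1 - psi n p.1 * psi n p.2 / 5)) / ((4 * n : ℕ) : ℝ)
        ≤ 4 / 5 * (4 * n / ((4 * n : ℕ) : ℝ)) := hm
    rw [div_le_iff₀ hN] at h1
    calc _ ≤ 4 / 5 * (4 * n / ((4 * n : ℕ) : ℝ)) * ((4 * n : ℕ) : ℝ) := h1
      _ = 4 / 5 * (4 * n) := by
        rw [mul_assoc, div_mul_cancel₀ _ hN.ne']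
  have key : ∀ p : Cell n, (am s (bk p.1) (bk p.2) : ℝ) ≤
      (s / 4 + 13 / 4) * (1 - psi n p.1 * psi n p.2 / 5) - 13 / 5 := by
    intro p
    rcases k3u_psi p.1 with ⟨h1, h2⟩ | ⟨h1, h2⟩ <;> rcases k3u_psi p.2 with ⟨h3, h4⟩ | ⟨h3, h4⟩
    · have h5 := am_low s (h1.trans h3.symm)
      rw [h2, h4]; linarith
    · have h5 := am_high s (bk p.1) (bk p.2)
      rw [h2, h4]; linarith
    · have h5 := am_high s (bk p.1) (bk p.2)
      rw [h2, h4]; linarith
    · have h5 := am_low s (h1.trans h3.symm)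
      rw [h2, h4]; linarith
  have hge : ∀ p : Cell n, (4 : ℝ) / 5 ≤ (1 - psi n p.1 * psi n p.2 / 5) := by
    intro p
    rcases k3u_psi p.1 with ⟨h1, h2⟩ | ⟨h1, h2⟩ <;> rcases k3u_psi p.2 with ⟨h3, h4⟩ | ⟨h3, h4⟩ <;>
      rw [h2, h4] <;> norm_num
  have hsum : ∑ p ∈ lnc n v l, (am s (bk p.1) (bk p.2) : ℝ) ≤ (4 / 5 * s + 7 / 2) * n := by
    have h1 : ∑ p ∈ lnc n v l, (am s (bk p.1) (bk p.2) : ℝ) ≤
        (s / 4 + 13 / 12) * ∑ p ∈ lnc n v l, (1 - psi n p.1 * psi n p.2 / 5) := by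
      rw [Finset.mul_sum]
      refine Finset.sum_le_sum fun p _ => ?_
      rcases k3u_psi p.1 with ⟨h1, h2⟩ | ⟨h1, h2⟩ <;> rcases k3u_psi p.2 with ⟨h3, h4⟩ | ⟨h3, h4⟩
      · have h5 := am_low s (h1.trans h3.symm)
        rw [h2, h4]; linarith
      · have h5 := am_high s (bk p.1) (bk p.2)
        rw [h2, h4]; linarith
      · have h5 := am_high s (bk p.1) (bk p.2)
        rw [h2, h4]; linarith
      · have h5 := am_low s (h1.trans h3.symm)
        rw [h2, h4]; linarith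
    have h2 := mul_le_mul_of_nonneg_left hm2 (by positivity : (0 : ℝ) ≤ s / 4 + 13 / 12)
    nlinarith
  unfold mu
  rw [div_le_iff₀ hn0]
  exact hsum


theorem mu_gen (C : Finset (Cell n)) :
    mu s n C ≤ C.card * (3 / 10 * s + 13 / 10) / n := by
  unfold mu
  refine div_le_div_of_nonneg_right ?_ (Nat.cast_nonneg n)
  refine (Finset.sum_le_card_nsmul _ _ _ fun p _ => am_high s _ _).trans ?_
  rw [nsmul_eq_mul]


end Pool.Agent.NKL
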