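import Pool.Agent.NKL.FDefs

set_option autoImplicit false

/-!
# NKL / MAI : from exact sets to the statement of the problem

`kfree_of`: let `a x + b y = c` be a real line containing at least two points `p ≠ q` of `T` (otherwise
the number of points on it is at most `1 < k`).  Then `a (q.1-p.1) + b (q.2-p.2) = 0`.  Put
`g = gcd(q.1-p.1, q.2-p.2) > 0`, `v = (q - p)/g` (primitive).  Every `z ∈ T` on the line satisfies
`a (z.1-p.1) + b (z.2-p.2) = 0` as well, so (`(a,b) ≠ 0`) `v.2 (z.1-p.1) = v.1 (z.2-p.2)`, i.e.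
`On v z = On v p`.  If `v.1 = 0`, then `z.1 = p.1` for all of them: at most `s` points.  If
`v.2 = 0`: `z.2 = p.2`: at most `s`.  Otherwise `Skew v`.
`mk_eq`: `T` has `s N` points (sum over the columns).  Upper bound: a `k`-free set has at most `k-1`
points on each line `x = i`, so at most `(k-1) N` (`card_eq_sum_card_fiberwise`); the supremum of
a bounded set of natural numbers that contains its upper bound.
-/

namespace Pool.Agent.NKL

open Finset

/-- no `k` different points of `S` lie on one line of the plane -/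
def KFree (k : ℕ) (S : Finset (ℤ × ℤ)) : Prop :=
  ∀ a b c : ℝ, (a ≠ 0 ∨ b ≠ 0) → (S.filter fun p => a * (p.1 : ℝ) + b * (p.2 : ℝ) = c).card < k

/-- the largest size of a `k`-free subset of the `N × N` grid -/
noncomputable def mk (k N : ℕ) : ℕ := sSup {n | ∃ S ⊆ grid N, KFree k S ∧ S.card = n}

theorem kfree_of {s N : ℕ} (hs : 2 ≤ s) {T : Finset (ℤ × ℤ)} (hT : T ⊆ grid N)
    (h1 : ∀ x : ℤ, 0 ≤ x → x < N → (T.filter fun p => p.1 = x).card = s)
    (h2 : ∀ y : ℤ, 0 ≤ y → y < N → (T.filter fun p => p.2 = y).card = s)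
    (h3 : ∀ v : ℤ × ℤ, Skew v → ∀ l, (T.filter fun p => On v p = l).card ≤ s) :
    KFree (s + 1) T := by
  intro a b c hab
  by_contra hcard
  have hc1 : 1 < (T.filter fun p => a * (p.1 : ℝ) + b * (p.2 : ℝ) = c).card := by omega
  obtain ⟨p, hp, q, hq, hpq⟩ := Finset.one_lt_card.1 hc1
  obtain ⟨hpT, hpl⟩ := Finset.mem_filter.1 hp
  obtain ⟨hqT, hql⟩ := Finset.mem_filter.1 hq
  have hg0 : Int.gcd (q.1 - p.1) (q.2 - p.2) ≠ 0 := by
    intro h0
    obtain ⟨e1, e2⟩ := Int.gcd_eq_zero_iff.1 h0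
    apply hpq
    exact Prod.ext (by omega) (by omega)
  have hg : 0 < Int.gcd (q.1 - p.1) (q.2 - p.2) := Nat.pos_of_ne_zero hg0
  set g := Int.gcd (q.1 - p.1) (q.2 - p.2) with hgdef
  obtain ⟨v1, hv1⟩ : (g : ℤ) ∣ q.1 - p.1 := Int.gcd_dvd_left _ _
  obtain ⟨v2, hv2⟩ : (g : ℤ) ∣ q.2 - p.2 := Int.gcd_dvd_right _ _
  have hgz : (g : ℤ) ≠ 0 := by exact_mod_cast hg0
  have hgcd : Int.gcd v1 v2 = 1 := by
    have h4 := Int.gcd_div_gcd_div_gcd hg
    rw [← hgdef, hv1, hv2, Int.mul_ediv_cancel_left _ hgz, Int.mul_ediv_cancel_left _ hgz] at h4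
    exact h4
  have hgr : (g : ℝ) ≠ 0 := by exact_mod_cast hg0
  have hv1r : (q.1 : ℝ) - p.1 = g * v1 := by exact_mod_cast hv1
  have hv2r : (q.2 : ℝ) - p.2 = g * v2 := by exact_mod_cast hv2
  have hav : a * v1 + b * v2 = 0 := by
    have h4 : (g : ℝ) * (a * v1 + b * v2) = 0 := by
      have h5 : (g : ℝ) * (a * v1 + b * v2) = a * (g * v1) + b * (g * v2) := by ring
      rw [h5, ← hv1r, ← hv2r]
      linarith
    rcases mul_eq_zero.1 h4 with h5 | h5
    · exact absurd h5 hgr
    · exact h5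
  have hOn : ∀ z ∈ T.filter fun p => a * (p.1 : ℝ) + b * (p.2 : ℝ) = c, On (v1, v2) z = On (v1, v2) p := by
    intro z hz
    obtain ⟨hzT, hzl⟩ := Finset.mem_filter.1 hz
    have h4 : a * ((z.1 : ℝ) - p.1) + b * ((z.2 : ℝ) - p.2) = 0 := by linarith
    have h5 : ((z.1 : ℝ) - p.1) * v2 - ((z.2 : ℝ) - p.2) * v1 = 0 := by
      rcases hab with h | h
      · have h6 : a * (((z.1 : ℝ) - p.1) * v2 - ((z.2 : ℝ) - p.2) * v1) = 0 := by
          linear_combination (v2 : ℝ) * h4 - ((z.2 : ℝ) - p.2) * hav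
        exact (mul_eq_zero.1 h6).resolve_left h
      · have h6 : b * (((z.1 : ℝ) - p.1) * v2 - ((z.2 : ℝ) - p.2) * v1) = 0 := by
          linear_combination ((z.1 : ℝ) - p.1) * hav - (v1 : ℝ) * h4
        exact (mul_eq_zero.1 h6).resolve_left h
    have h6 : (z.1 - p.1) * v2 - (z.2 - p.2) * v1 = 0 := by exact_mod_cast h5
    unfold On
    simp only
    linarith
  have hgrid := hT hpT
  unfold grid at hgrid
  rw [Finset.mem_product, Finset.mem_Ico, Finset.mem_Ico] at hgrid
  obtain ⟨⟨hp1, hp2⟩, hp3, hp4⟩ := hgrid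
  by_cases hv10 : v1 = 0
  · have hv2n : v2 ≠ 0 := by
      rintro rfl
      rw [hv10] at hgcd
      simp at hgcd
    have hsub : (T.filter fun p => a * (p.1 : ℝ) + b * (p.2 : ℝ) = c) ⊆ T.filter fun z => z.1 = p.1 := by
      intro z hz
      refine Finset.mem_filter.2 ⟨(Finset.mem_filter.1 hz).1, ?_⟩
      have h4 := hOn z hz
      unfold On at h4
      simp only [hv10, zero_mul, sub_zero] at h4
      exact mul_left_cancel₀ hv2n h4
    have h4 := Finset.card_le_card hsub
    rw [h1 p.1 hp1 hp2] at h4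
    omega
  · by_cases hv20 : v2 = 0
    · have hsub : (T.filter fun p => a * (p.1 : ℝ) + b * (p.2 : ℝ) = c) ⊆ T.filter fun z => z.2 = p.2 := by
        intro z hz
        refine Finset.mem_filter.2 ⟨(Finset.mem_filter.1 hz).1, ?_⟩
        have h4 := hOn z hz
        unfold On at h4
        simp only [hv20, zero_mul, zero_sub, neg_inj] at h4
        exact mul_left_cancel₀ hv10 h4
      have h4 := Finset.card_le_card hsub
      rw [h2 p.2 hp3 hp4] at h4
      omega
    · have hsub : (T.filter fun p => a * (p.1 : ℝ) + b * (p.2 : ℝ) = c) ⊆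
          T.filter fun z => On (v1, v2) z = On (v1, v2) p := by
        intro z hz
        exact Finset.mem_filter.2 ⟨(Finset.mem_filter.1 hz).1, hOn z hz⟩
      have h4 := Finset.card_le_card hsub
      have h5 := h3 (v1, v2) ⟨hgcd, hv10, hv20⟩ (On (v1, v2) p)
      omega

theorem mk_eq {s N : ℕ} (hs : 2 ≤ s) {T : Finset (ℤ × ℤ)} (hT : T ⊆ grid N)
    (h1 : ∀ x : ℤ, 0 ≤ x → x < N → (T.filter fun p => p.1 = x).card = s)
    (h2 : ∀ y : ℤ, 0 ≤ y → y < N → (T.filter fun p => p.2 = y).card = s)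
    (h3 : ∀ v : ℤ × ℤ, Skew v → ∀ l, (T.filter fun p => On v p = l).card ≤ s) :
    mk (s + 1) N = s * N := by
  have hcard : ∀ S : Finset (ℤ × ℤ), S ⊆ grid N → S.card = ∑ x ∈ Finset.Ico (0 : ℤ) N, (S.filter fun p => p.1 = x).card := by
    intro S hS
    refine Finset.card_eq_sum_card_fiberwise fun p hp => ?_
    have h := hS hp
    unfold grid at h
    exact (Finset.mem_product.1 h).1
  have hTc : T.card = s * N := by
    rw [hcard T hT]
    rw [Finset.sum_congr rfl (g := fun _ => s) fun x hx => by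
      rw [Finset.mem_Ico] at hx
      exact h1 x hx.1 hx.2]
    rw [Finset.sum_const, Int.card_Ico, smul_eq_mul, mul_comm]
    simp
  have hub : ∀ n ∈ {n | ∃ S ⊆ grid N, KFree (s + 1) S ∧ S.card = n}, n ≤ s * N := by
    rintro n ⟨S, hS, hK, rfl⟩
    rw [hcard S hS]
    calc ∑ x ∈ Finset.Ico (0 : ℤ) N, (S.filter fun p => p.1 = x).card
        ≤ ∑ _x ∈ Finset.Ico (0 : ℤ) N, s := by
          refine Finset.sum_le_sum fun x _ => ?_
          have h := hK 1 0 x (Or.inl one_ne_zero)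
          have e : (S.filter fun p => p.1 = x) =
              S.filter fun p => (1 : ℝ) * (p.1 : ℝ) + 0 * (p.2 : ℝ) = (x : ℝ) := by
            refine Finset.filter_congr fun p _ => ?_
            rw [one_mul, zero_mul, add_zero]
            exact Int.cast_inj.symm
          rw [e]
          omega
      _ = s * N := by
          rw [Finset.sum_const, Int.card_Ico, smul_eq_mul, mul_comm]
          simp
  have hmem : s * N ∈ {n | ∃ S ⊆ grid N, KFree (s + 1) S ∧ S.card = n} :=
    ⟨T, hT, kfree_of hs hT h1 h2 h3, hTc⟩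
  exact le_antisymm (csSup_le ⟨_, hmem⟩ hub) (le_csSup ⟨_, hub⟩ hmem)

end Pool.Agent.NKL
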