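import Pool.Agent.NKL.K3R
import Pool.Agent.NKL.K3S
import Pool.Agent.NKL.K3A
import Pool.Agent.NKL.MAI

set_option autoImplicit false

/-!
# NKL / K3Z : every `k ≥ 1000` is good

If `2 N ≤ 3 s`: `small_grid`.  Otherwise `n = N/4` (so `4n ≥ N - 3`, `10 n ≥ 3 s + 13`, `4n ≥ s`).
`exc_sum`: there is `φ` with `exc s n (s-10) φ ≤ 4n/(10000 s)` (the average), so
`10000 s exc ≤ 4 n ≤ N`, and `exact_of_exc`.  `mk_eq`.
-/

namespace Pool.Agent.NKL

open Finset

theorem exact_all {s N : ℕ} (hs : 999 ≤ s) (hN : s ≤ N) : ∃ T, Exact s N T := by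
  classical
  by_cases h2 : 2 * N ≤ 3 * s
  · exact small_grid (by omega) hN h2
  · obtain ⟨n, hn⟩ : ∃ n, n = N / 4 := ⟨_, rfl⟩
    have h4 : 4 * n ≤ N := by omega
    have h5 : N ≤ 4 * n + 3 := by omega
    have hsum := exc_sum hs (n := n) (by omega)
    have hs0 : (0 : ℝ) < s := by
      have : 0 < s := by omega
      exact_mod_cast this
    have h6 : ∑ φ : PF n, (exc s n (s - 10) φ : ℝ) ≤ ∑ _φ : PF n, ((4 * n / (10000 * s) : ℝ)) := by
      rw [sum_const, card_univ, nsmul_eq_mul]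
      exact hsum
    obtain ⟨φ, -, hφ⟩ := exists_le_of_sum_le
      (univ_nonempty (α := PF n)) h6
    have h7 : (10000 : ℝ) * s * exc s n (s - 10) φ ≤ 4 * n := by
      rw [le_div_iff₀ (by positivity)] at hφ
      linarith
    have h8 : 10000 * s * exc s n (s - 10) φ ≤ 4 * n := by exact_mod_cast h7
    exact exact_of_exc (by omega) (by omega) (by omega) h4 h5 φ (h8.trans h4)

theorem main3 {s N : ℕ} (hs : 999 ≤ s) (hN : s ≤ N) : mk (s + 1) N = s * N := by
  obtain ⟨T, hT⟩ := exact_all hs hN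
  exact mk_eq (by omega) hT.sub hT.col hT.row hT.skw

end Pool.Agent.NKL
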