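import Pool.Agent.NKL.HYP

set_option autoImplicit false

/-!
# NKL / LIF : the tracked quantities are Lipschitz
-/

namespace Pool.Agent.NKL

open Finset

variable {α V Λ : Type} [Fintype α] [DecidableEq α] [Fintype V] [DecidableEq V] [DecidableEq Λ]
  {N : ℕ} {Y : Sys α V Λ N} {θ φ W : ℝ} {R b s : ℕ}

private theorem cnt_eq_of (Y : Sys α V Λ N) {S1 S2 : Finset α} {v : V} {l : Λ}
    (h : ∀ q ∈ (S1 \ S2) ∪ (S2 \ S1), Y.line v q ≠ l) : Y.cnt S1 v l = Y.cnt S2 v l := by
  unfold Sys.cnt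
  congr 1
  ext p
  simp only [Finset.mem_filter]
  constructor
  · rintro ⟨h1, h2⟩
    refine ⟨?_, h2⟩
    by_contra h3
    exact h p (by simp [h1, h3]) h2
  · rintro ⟨h1, h2⟩
    refine ⟨?_, h2⟩
    by_contra h3
    exact h p (by simp [h1, h3]) h2

private theorem one_le_inv {φ : ℝ} (h0 : 0 < φ) (h1 : φ ≤ 1) : 1 ≤ φ⁻¹ :=
  (one_le_inv₀ h0).mpr h1

theorem lif_Phi (h : Y.Hyp θ R b s φ W) {S1 S2 : Finset α} {K : ℕ}
    (hK : ((S1 \ S2) ∪ (S2 \ S1)).card ≤ K) (v : V) (l : Λ) {T n : ℕ} (hT : T ≤ R) (hn : n ≤ T) :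
    |Y.Phi θ v l T n S1 - Y.Phi θ v l T n S2| ≤ 2 * (φ⁻¹) ^ b * b * K := by
  classical
  set D := (S1 \ S2) ∪ (S2 \ S1) with hD
  have hφ1 := one_le_inv h.φ0 h.φ1
  set P : Finset α → α → ℝ := fun S p => ∏ v' ∈ univ.erase v,
    uu θ (Y.mass v' (Y.line v' p)) (Y.cap v') T n (Y.cnt S v' (Y.line v' p)) with hP
  have hP0 : ∀ S p, 0 ≤ P S p := fun S p =>
    Finset.prod_nonneg fun v' _ => uu_nonneg (h.ch v' _) hT hn _
  have hPle : ∀ S p, P S p ≤ (φ⁻¹) ^ b := by
    intro S p
    calc P S p ≤ ∏ _v' ∈ univ.erase v, φ⁻¹ :=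
          Finset.prod_le_prod (fun v' _ => uu_nonneg (h.ch v' _) hT hn _)
            (fun v' _ => uu_le (h.ch v' _) hT hn _)
      _ = (φ⁻¹) ^ (univ.erase v).card := by rw [Finset.prod_const]
      _ ≤ (φ⁻¹) ^ b := by
          apply pow_le_pow_right₀ hφ1
          calc (univ.erase v).card ≤ (univ : Finset V).card := Finset.card_le_card (Finset.erase_subset _ _)
            _ = Fintype.card V := rfl
            _ ≤ b := h.cardV
  obtain ⟨Bad, hBad⟩ : ∃ Bad : Finset α, ∀ p, p ∈ Bad ↔
      (p ∈ Y.cells v l ∧ ∃ v' ∈ univ.erase v, ∃ q ∈ D, Y.line v' q = Y.line v' p) :=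
    ⟨_, fun p => Finset.mem_filter⟩
  have hbadcard : Bad.card ≤ b * K := by
    have hsub : Bad ⊆ ((univ.erase v) ×ˢ D).biUnion
        (fun x => (Y.cells v l).filter (fun p => Y.line x.1 x.2 = Y.line x.1 p)) := by
      intro p hp
      rw [hBad] at hp
      obtain ⟨hp1, v', hv', q, hq, he⟩ := hp
      rw [Finset.mem_biUnion]
      exact ⟨(v', q), Finset.mem_product.mpr ⟨hv', hq⟩, Finset.mem_filter.mpr ⟨hp1, he⟩⟩
    calc Bad.card ≤ _ := Finset.card_le_card hsub
      _ ≤ ∑ x ∈ (univ.erase v) ×ˢ D,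
          ((Y.cells v l).filter (fun p => Y.line x.1 x.2 = Y.line x.1 p)).card :=
          Finset.card_biUnion_le
      _ ≤ ∑ _x ∈ (univ.erase v) ×ˢ D, 1 := by
          refine Finset.sum_le_sum fun x hx => ?_
          rw [Finset.card_le_one]
          intro p hp p' hp'
          rw [Finset.mem_filter] at hp hp'
          have hx1 : x.1 ≠ v := (Finset.mem_erase.mp (Finset.mem_product.mp hx).1).1
          have hc : Y.line v p = l := by
            have := hp.1; simpa [Sys.cells] using this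
          have hc' : Y.line v p' = l := by
            have := hp'.1; simpa [Sys.cells] using this
          exact h.ok.codeg v x.1 p p' (Ne.symm hx1) (hc.trans hc'.symm)
            (hp.2.symm.trans hp'.2)
      _ = (univ.erase v).card * D.card := by
          rw [Finset.sum_const, smul_eq_mul, mul_one, Finset.card_product]
      _ ≤ b * K := by
          apply Nat.mul_le_mul _ hK
          calc (univ.erase v).card ≤ (univ : Finset V).card := Finset.card_le_card (Finset.erase_subset _ _)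
            _ = Fintype.card V := rfl
            _ ≤ b := h.cardV
  have hgood : ∀ p ∈ Y.cells v l, p ∉ Bad → P S1 p = P S2 p := by
    intro p hp hpb
    simp only [hP]
    refine Finset.prod_congr rfl fun v' hv' => ?_
    congr 1
    apply cnt_eq_of
    intro q hq he
    apply hpb
    rw [hBad]
    exact ⟨hp, v', hv', q, hq, he⟩
  have hdiff : Y.Phi θ v l T n S1 - Y.Phi θ v l T n S2 =
      ∑ p ∈ Y.cells v l, Y.f p * (P S1 p - P S2 p) := by
    unfold Sys.Phi
    rw [← Finset.sum_sub_distrib]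
    refine Finset.sum_congr rfl fun p _ => ?_
    simp only [hP]
    ring
  rw [hdiff]
  calc |∑ p ∈ Y.cells v l, Y.f p * (P S1 p - P S2 p)|
      ≤ ∑ p ∈ Y.cells v l, |Y.f p * (P S1 p - P S2 p)| := Finset.abs_sum_le_sum_abs _ _
    _ ≤ ∑ p ∈ Y.cells v l, if p ∈ Bad then 2 * (φ⁻¹) ^ b else 0 := by
        refine Finset.sum_le_sum fun p hp => ?_
        by_cases hb : p ∈ Bad
        · rw [if_pos hb, abs_mul, abs_of_nonneg (h.ok.f_nonneg p)]
          apply mul_le_mul (h.ok.f_le p) _ (abs_nonneg _) (by norm_num)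
          exact abs_sub_le_of_nonneg_of_le (hP0 S1 p) (hPle S1 p) (hP0 S2 p) (hPle S2 p)
        · rw [if_neg hb, hgood p hp hb, sub_self, mul_zero, abs_zero]
    _ = ∑ p ∈ (Y.cells v l).filter (fun p => p ∈ Bad), 2 * (φ⁻¹) ^ b := by
        rw [Finset.sum_filter]
    _ = ((Y.cells v l).filter (fun p => p ∈ Bad)).card * (2 * (φ⁻¹) ^ b) := by
        rw [Finset.sum_const, nsmul_eq_mul]
    _ ≤ (b * K : ℕ) * (2 * (φ⁻¹) ^ b) := by
        apply mul_le_mul_of_nonneg_right _ (by positivity)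
        have : ((Y.cells v l).filter (fun p => p ∈ Bad)).card ≤ b * K := by
          refine le_trans (Finset.card_le_card ?_) hbadcard
          intro p hp
          exact (Finset.mem_filter.mp hp).2
        exact_mod_cast this
    _ = 2 * (φ⁻¹) ^ b * b * K := by push_cast; ring

theorem lif_Xi (h : Y.Hyp θ R b s φ W) {S1 S2 : Finset α} {K : ℕ}
    (hK : ((S1 \ S2) ∪ (S2 \ S1)).card ≤ K) {T n : ℕ} (hT : T ≤ R) (hn : n ≤ T) :
    |Y.Xi θ T n S1 - Y.Xi θ T n S2| ≤ 2 * (φ⁻¹) ^ b * b * K := by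
  classical
  set D := (S1 \ S2) ∪ (S2 \ S1) with hD
  have hφ1 := one_le_inv h.φ0 h.φ1
  have hφ0 : (0 : ℝ) ≤ φ⁻¹ := by linarith
  set U : Finset α → Λ → ℝ := fun S l =>
    uu θ (Y.mass Y.vr l) (Y.cap Y.vr) T n (Y.cnt S Y.vr l) with hU
  have hdiff : Y.Xi θ T n S1 - Y.Xi θ T n S2 =
      ∑ l ∈ univ.image (Y.line Y.vr), Y.mass Y.vr l * (U S1 l - U S2 l) := by
    unfold Sys.Xi
    rw [← Finset.sum_sub_distrib]
    refine Finset.sum_congr rfl fun p _ => ?_
    simp only [hU]
    ring
  rw [hdiff]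
  calc |∑ l ∈ univ.image (Y.line Y.vr), Y.mass Y.vr l * (U S1 l - U S2 l)|
      ≤ ∑ l ∈ univ.image (Y.line Y.vr), |Y.mass Y.vr l * (U S1 l - U S2 l)| :=
        Finset.abs_sum_le_sum_abs _ _
    _ ≤ ∑ l ∈ univ.image (Y.line Y.vr), if l ∈ D.image (Y.line Y.vr) then 2 * φ⁻¹ else 0 := by
        refine Finset.sum_le_sum fun l _ => ?_
        by_cases hb : l ∈ D.image (Y.line Y.vr)
        · rw [if_pos hb, abs_mul, abs_of_nonneg (mass_nonneg h.ok Y.vr l)]
          apply mul_le_mul (mass_le h.ok Y.vr l) _ (abs_nonneg _) (by norm_num)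
          exact abs_sub_le_of_nonneg_of_le (uu_nonneg (h.ch _ _) hT hn _) (uu_le (h.ch _ _) hT hn _)
            (uu_nonneg (h.ch _ _) hT hn _) (uu_le (h.ch _ _) hT hn _)
        · have hc : Y.cnt S1 Y.vr l = Y.cnt S2 Y.vr l := by
            apply cnt_eq_of
            intro q hq he
            exact hb (Finset.mem_image.mpr ⟨q, hq, he⟩)
          rw [if_neg hb]
          simp only [hU, hc, sub_self, mul_zero, abs_zero, le_refl]
    _ = ((univ.image (Y.line Y.vr)).filter (fun l => l ∈ D.image (Y.line Y.vr))).card *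
          (2 * φ⁻¹) := by
        rw [← Finset.sum_filter, Finset.sum_const, nsmul_eq_mul]
    _ ≤ (K : ℝ) * (2 * φ⁻¹) := by
        apply mul_le_mul_of_nonneg_right _ (by linarith)
        have : ((univ.image (Y.line Y.vr)).filter (fun l => l ∈ D.image (Y.line Y.vr))).card ≤ K := by
          calc _ ≤ (D.image (Y.line Y.vr)).card := by
                refine Finset.card_le_card ?_
                intro p hp
                exact (Finset.mem_filter.mp hp).2
            _ ≤ D.card := Finset.card_image_le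
            _ ≤ K := hK
        exact_mod_cast this
    _ ≤ 2 * (φ⁻¹) ^ b * b * K := by
        have hb1 : (1 : ℝ) ≤ b := by exact_mod_cast h.b1
        have h1 : φ⁻¹ ≤ (φ⁻¹) ^ b := le_self_pow₀ hφ1 (by have := h.b1; omega)
        have h2 : φ⁻¹ * 1 ≤ (φ⁻¹) ^ b * b := by
          apply mul_le_mul h1 hb1 (by norm_num) (by positivity)
        have h3 : (0 : ℝ) ≤ K := Nat.cast_nonneg K
        nlinarith

theorem lif_card {S1 S2 : Finset α} {K : ℕ} (hK : ((S1 \ S2) ∪ (S2 \ S1)).card ≤ K) :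
    |(S1.card : ℝ) - S2.card| ≤ K := by
  classical
  have h1 : S1.card ≤ S2.card + K := by
    calc S1.card ≤ (S2 ∪ (S1 \ S2)).card := by
          apply Finset.card_le_card
          intro p hp
          by_cases h : p ∈ S2 <;> simp [h, hp]
      _ ≤ S2.card + (S1 \ S2).card := Finset.card_union_le _ _
      _ ≤ S2.card + K := by
          gcongr
          exact le_trans (Finset.card_le_card Finset.subset_union_left) hK
  have h2 : S2.card ≤ S1.card + K := by
    calc S2.card ≤ (S1 ∪ (S2 \ S1)).card := by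
          apply Finset.card_le_card
          intro p hp
          by_cases h : p ∈ S1 <;> simp [h, hp]
      _ ≤ S1.card + (S2 \ S1).card := Finset.card_union_le _ _
      _ ≤ S1.card + K := by
          gcongr
          exact le_trans (Finset.card_le_card Finset.subset_union_right) hK
  rw [abs_le]
  constructor
  · have : (S2.card : ℝ) ≤ S1.card + K := by exact_mod_cast h2
    linarith
  · have : (S1.card : ℝ) ≤ S2.card + K := by exact_mod_cast h1
    linarith

end Pool.Agent.NKL
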