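import Pool.Agent.NKL.ACC

set_option autoImplicit false

/-!
# NKL / LIS : changing one coordinate changes few points

Let `ω, ω'` agree off `x`, `X = props ω`, `X' = props ω'`.  Cells of rows `≠ x` are in `X` iff they are
in `X'`; each of `X`, `X'` has at most one cell of row `x` (`ω x = some p` determines `p`).
Let `q ∈ acc S X \ acc S X'`.  Either `q ∉ X'` (then `row q = x`, at most one such cell), or
`q ∈ X ∩ X'` and there is `v` with `cnt S + cnt X ≤ cap < cnt S + cnt X'` on `L = line v q`; then the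
cell `p'` of row `x` in `X'` exists, lies on `L`, and `|X ∩ L| ≤ cap v ≤ s`.  So for each `v` there
are at most `s` such `q`, all on the line `line v p'`.  Hence
`|acc S X \ acc S X'| ≤ 1 + (card V) s`, and symmetrically.  `nxt = S ∪ acc`.
-/

namespace Pool.Agent.NKL

open Finset

variable {α V Λ : Type} [Fintype α] [DecidableEq α] [Fintype V] [DecidableEq V] [DecidableEq Λ]
  {N : ℕ}

private theorem lis_half (Y : Sys α V Λ N) {s : ℕ} (hs : ∀ v, Y.cap v ≤ s) (S : Finset α)
    (x : Fin N) {ω ω' : Fin N → Option α} (h : ∀ y, y ≠ x → ω y = ω' y) :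
    (Y.acc S (Y.props ω) \ Y.acc S (Y.props ω')).card ≤ 1 + Fintype.card V * s := by
  classical
  have hsub : Y.acc S (Y.props ω) \ Y.acc S (Y.props ω') ⊆
      ((Y.props ω).filter fun q => Y.row q = x) ∪
      univ.biUnion fun v : V => (Y.acc S (Y.props ω)).filter fun q =>
        ∃ p', ω' x = some p' ∧ Y.line v q = Y.line v p' := by
    intro q hq
    obtain ⟨hqA, hqA'⟩ := Finset.mem_sdiff.1 hq
    have hqX := acc_sub Y S _ hqA
    rw [Finset.mem_union]
    by_cases hr : Y.row q = x
    · left
      exact Finset.mem_filter.2 ⟨hqX, hr⟩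
    · right
      have hqX' : q ∈ Y.props ω' := by
        refine Finset.mem_filter.2 ⟨Finset.mem_univ _, ?_⟩
        rw [← h _ hr]
        exact (Finset.mem_filter.1 hqX).2
      have h1 : ¬ ∀ v, Y.cnt S v (Y.line v q) + Y.cnt (Y.props ω') v (Y.line v q) ≤ Y.cap v := by
        intro hall
        exact hqA' (Finset.mem_filter.2 ⟨hqX', hall⟩)
      obtain ⟨v, hv⟩ := not_forall.1 h1
      have h2 := (Finset.mem_filter.1 hqA).2 v
      refine Finset.mem_biUnion.2 ⟨v, Finset.mem_univ _, Finset.mem_filter.2 ⟨hqA, ?_⟩⟩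
      have h3 : Y.cnt (Y.props ω) v (Y.line v q) < Y.cnt (Y.props ω') v (Y.line v q) := by omega
      have h4 : ¬ ((Y.props ω').filter fun p => Y.line v p = Y.line v q) ⊆
          ((Y.props ω).filter fun p => Y.line v p = Y.line v q) := by
        intro hc
        exact absurd (Finset.card_le_card hc) (not_le.2 h3)
      obtain ⟨p', hp', hp''⟩ := Finset.not_subset.1 h4
      obtain ⟨hp1, hp2⟩ := Finset.mem_filter.1 hp'
      have hp3 : p' ∉ Y.props ω := fun hc => hp'' (Finset.mem_filter.2 ⟨hc, hp2⟩)
      have hp4 := (Finset.mem_filter.1 hp1).2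
      have hrow : Y.row p' = x := by
        by_contra hne
        apply hp3
        refine Finset.mem_filter.2 ⟨Finset.mem_univ _, ?_⟩
        rw [h _ hne]
        exact hp4
      rw [hrow] at hp4
      exact ⟨p', hp4, hp2.symm⟩
  have hA : ((Y.props ω).filter fun q => Y.row q = x).card ≤ 1 := by
    rw [Finset.card_le_one]
    intro a ha b hb
    obtain ⟨ha1, ha2⟩ := Finset.mem_filter.1 ha
    obtain ⟨hb1, hb2⟩ := Finset.mem_filter.1 hb
    have ha3 := (Finset.mem_filter.1 ha1).2
    have hb3 := (Finset.mem_filter.1 hb1).2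
    rw [ha2] at ha3
    rw [hb2, ha3] at hb3
    exact Option.some.inj hb3
  have hB : ∀ v : V, ((Y.acc S (Y.props ω)).filter fun q =>
        ∃ p', ω' x = some p' ∧ Y.line v q = Y.line v p').card ≤ s := by
    intro v
    rcases Finset.eq_empty_or_nonempty ((Y.acc S (Y.props ω)).filter fun q =>
        ∃ p', ω' x = some p' ∧ Y.line v q = Y.line v p') with he | ⟨q, hq⟩
    · rw [he]; simp
    · obtain ⟨hqA, p', hp', hl⟩ := Finset.mem_filter.1 hq
      have h2 := (Finset.mem_filter.1 hqA).2 v
      have h5 : ((Y.acc S (Y.props ω)).filter fun q =>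
          ∃ p', ω' x = some p' ∧ Y.line v q = Y.line v p') ⊆
          ((Y.props ω).filter fun p => Y.line v p = Y.line v q) := by
        intro a ha
        obtain ⟨ha1, p'', hp'', hl'⟩ := Finset.mem_filter.1 ha
        have : p'' = p' := Option.some.inj (hp''.symm.trans hp')
        subst this
        exact Finset.mem_filter.2 ⟨acc_sub Y S _ ha1, hl'.trans hl.symm⟩
      have h6 := Finset.card_le_card h5
      have h7 := hs v
      have h8 : Y.cnt (Y.props ω) v (Y.line v q) =
          ((Y.props ω).filter fun p => Y.line v p = Y.line v q).card := rfl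
      omega
  calc (Y.acc S (Y.props ω) \ Y.acc S (Y.props ω')).card
      ≤ (((Y.props ω).filter fun q => Y.row q = x) ∪
      univ.biUnion fun v : V => (Y.acc S (Y.props ω)).filter fun q =>
        ∃ p', ω' x = some p' ∧ Y.line v q = Y.line v p').card := Finset.card_le_card hsub
    _ ≤ 1 + Fintype.card V * s := by
        refine (Finset.card_union_le _ _).trans (Nat.add_le_add hA ?_)
        refine (Finset.card_biUnion_le).trans ?_
        calc ∑ v : V, ((Y.acc S (Y.props ω)).filter fun q =>
              ∃ p', ω' x = some p' ∧ Y.line v q = Y.line v p').card ≤ ∑ _v : V, s :=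
              Finset.sum_le_sum fun v _ => hB v
          _ = Fintype.card V * s := by
              rw [Finset.sum_const, Finset.card_univ, smul_eq_mul]

theorem lis (Y : Sys α V Λ N) {s : ℕ} (hs : ∀ v, Y.cap v ≤ s) (S : Finset α) (x : Fin N)
    {ω ω' : Fin N → Option α} (h : ∀ y, y ≠ x → ω y = ω' y) :
    ((Y.nxt S ω \ Y.nxt S ω') ∪ (Y.nxt S ω' \ Y.nxt S ω)).card ≤ 2 + 2 * (Fintype.card V * s) := by
  have h1 := lis_half Y hs S x h
  have h2 := lis_half Y hs S x (fun y hy => (h y hy).symm)
  have key : ∀ A B : Finset α, (S ∪ A) \ (S ∪ B) ⊆ A \ B := by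
    intro A B q hq
    simp only [Finset.mem_sdiff, Finset.mem_union, not_or] at hq ⊢
    obtain ⟨h3, h4, h5⟩ := hq
    exact ⟨h3.resolve_left h4, h5⟩
  have h3 : (Y.nxt S ω \ Y.nxt S ω').card ≤ 1 + Fintype.card V * s :=
    (Finset.card_le_card (key _ _)).trans h1
  have h4 : (Y.nxt S ω' \ Y.nxt S ω).card ≤ 1 + Fintype.card V * s :=
    (Finset.card_le_card (key _ _)).trans h2
  have h5 := Finset.card_union_le (Y.nxt S ω \ Y.nxt S ω') (Y.nxt S ω' \ Y.nxt S ω)
  omega

end Pool.Agent.NKL
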