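import Pool.Agent.ChPi.L

set_option autoImplicit false

/-!
# NKL / LLP : probabilities of events depending on few coordinates

Product space `ι → Ω`, coordinate `i` uniform on the finite nonempty set `A i`
(`unif A i o = 1/|A i|` for `o ∈ A i`, `0` otherwise).
For different coordinates `i, j, ..` and a predicate `P`:
`Pr (P (ω i) (ω j)) = ∑_{a,b} 1[P a b] Pr(ω i = a, ω j = b) = #{(a,b) ∈ A i × A j | P a b}/(|A i| |A j|)`
(write `1[P (ω i) (ω j)] = ∑_{a,b} 1[P a b] 1[ω i = a] 1[ω j = b]`, `L.Ex_sum`, `L.Ex_prod`).  Bound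
the sums in the form needed: first sum over `b` (..) for fixed `a ∈ A i`.
-/

namespace Pool.Agent.NKL

open Finset Pool.Agent.ChPi

variable {ι Ω : Type} [Fintype ι] [DecidableEq ι] [Fintype Ω] [DecidableEq Ω]

/-- the product of uniform distributions -/
noncomputable def unif (A : ι → Finset Ω) : ι → Ω → ℝ :=
  fun i o => if o ∈ A i then 1 / ((A i).card : ℝ) else 0

theorem unif_nonneg (A : ι → Finset Ω) (i : ι) (o : Ω) : 0 ≤ unif A i o := by
  unfold unif
  split_ifs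
  · positivity
  · exact le_rfl

theorem unif_sum (A : ι → Finset Ω) (hA : ∀ i, (A i).Nonempty) (i : ι) : ∑ o, unif A i o = 1 := by
  unfold unif
  rw [← Finset.sum_filter, Finset.filter_mem_eq_inter, Finset.univ_inter, Finset.sum_const, nsmul_eq_mul]
  have h : ((A i).card : ℝ) ≠ 0 := by
    exact_mod_cast (Finset.card_pos.2 (hA i)).ne'
  field_simp

/-- an outcome of positive probability -/
theorem unif_pos {A : ι → Finset Ω} (ω : ι → Ω) (h : wt (unif A) ω ≠ 0) (i : ι) : ω i ∈ A i := by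
  by_contra hc
  apply h
  unfold wt
  refine Finset.prod_eq_zero (Finset.mem_univ i) ?_
  unfold unif
  rw [if_neg hc]

private theorem ex_cond {p : ι → Ω → ℝ} (hp1 : ∀ v, ∑ o, p v o = 1) (i : ι)
    (F : Ω → (ι → Ω) → ℝ) (hF : ∀ a, ∀ ω ω' : ι → Ω, (∀ v, v ≠ i → ω v = ω' v) → F a ω = F a ω') :
    Ex p (fun ω => F (ω i) ω) = ∑ a, p i a * Ex p (F a) := by
  have h1 : (fun ω : ι → Ω => F (ω i) ω) = fun ω => ∑ a, (if ω i = a then (1 : ℝ) else 0) * F a ω := by
    funext ω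
    have h2 : ∑ a, (if ω i = a then (1 : ℝ) else 0) * F a ω = ∑ a, if ω i = a then F a ω else 0 := by
      refine Finset.sum_congr rfl fun a _ => ?_
      split_ifs
      · rw [one_mul]
      · rw [zero_mul]
    rw [h2, Finset.sum_ite_eq, if_pos (Finset.mem_univ _)]
  rw [h1, L.Ex_sum]
  refine Finset.sum_congr rfl fun a _ => ?_
  rw [L.Ex_mul_indep hp1 {i} (fun ω => if ω i = a then (1 : ℝ) else 0) (F a)]
  · congr 1
    obtain ⟨f, hf⟩ : ∃ f : ι → Ω → ℝ, f = fun (v : ι) (o : Ω) =>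
      if v = i then (if o = a then (1 : ℝ) else 0) else 1 := ⟨_, rfl⟩
    have h3 : (fun ω : ι → Ω => if ω i = a then (1 : ℝ) else 0) = fun ω => ∏ v, f v (ω v) := by
      funext ω
      have h4 : ∏ v, f v (ω v) = ∏ v, if v = i then (if ω i = a then (1 : ℝ) else 0) else 1 := by
        refine Finset.prod_congr rfl fun v _ => ?_
        rw [hf]
        by_cases hv : v = i
        · subst hv
          rfl
        · simp [hv]
      rw [h4, Finset.prod_ite_eq', if_pos (Finset.mem_univ _)]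
    rw [h3, L.Ex_prod p f, hf]
    rw [Finset.prod_eq_single i]
    · simp
    · intro v _ hv
      simp only [if_neg hv, mul_one]
      exact hp1 v
    · intro h
      exact absurd (Finset.mem_univ i) h
  · intro ω ω' h
    rw [h i (Finset.mem_singleton_self i)]
  · intro ω ω' h
    exact hF a ω ω' fun v hv => h v (fun h2 => hv (Finset.mem_singleton.1 h2))

private theorem sum_unif (A : ι → Finset Ω) (i : ι) (g : Ω → ℝ) :
    ∑ a, unif A i a * g a = (∑ a ∈ A i, g a) / (A i).card := by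
  unfold unif
  have h1 : ∀ a, (if a ∈ A i then 1 / ((A i).card : ℝ) else 0) * g a =
      if a ∈ A i then g a / (A i).card else 0 := by
    intro a
    split_ifs
    · ring
    · ring
  rw [Finset.sum_congr rfl fun a _ => h1 a, ← Finset.sum_filter, Finset.filter_mem_eq_inter,
    Finset.univ_inter, Finset.sum_div]

private theorem sum_unif_le (A : ι → Finset Ω) {a0 : ℝ} (ha0 : 0 < a0)
    (ha : ∀ i, a0 ≤ (A i).card) (i : ι) {g : Ω → ℝ} (hg : ∀ a ∈ A i, 0 ≤ g a) :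
    ∑ a, unif A i a * g a ≤ (∑ a ∈ A i, g a) / a0 := by
  rw [sum_unif]
  exact div_le_div_of_nonneg_left (Finset.sum_nonneg hg) ha0 (ha i)

private theorem ex1 (A : ι → Finset Ω) (hA : ∀ i, (A i).Nonempty) {a0 : ℝ} (ha0 : 0 < a0)
    (ha : ∀ i, a0 ≤ (A i).card) (j : ι) {g : Ω → ℝ} (hg : ∀ a, 0 ≤ g a) :
    Ex (unif A) (fun ω => g (ω j)) ≤ (∑ b ∈ A j, g b) / a0 := by
  have h1 := ex_cond (unif_sum A hA) j (fun a _ => g a) (fun _ _ _ _ => rfl)
  have h2 : ∀ a, Ex (unif A) (fun _ : ι → Ω => g a) = g a := fun a => L.Ex_const (unif_sum A hA) _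
  simp only [h2] at h1
  rw [h1]
  exact sum_unif_le A ha0 ha j fun a _ => hg a

private theorem ex2 (A : ι → Finset Ω) (hA : ∀ i, (A i).Nonempty) {a0 : ℝ} (ha0 : 0 < a0)
    (ha : ∀ i, a0 ≤ (A i).card) {j k : ι} (hjk : j ≠ k) {g : Ω → Ω → ℝ} (hg : ∀ a b, 0 ≤ g a b) :
    Ex (unif A) (fun ω => g (ω j) (ω k)) ≤ (∑ b ∈ A j, ∑ c ∈ A k, g b c) / a0 ^ 2 := by
  rw [ex_cond (unif_sum A hA) j (fun a ω => g a (ω k))
    (fun a ω ω' h => by rw [h k hjk.symm])]
  refine le_trans (sum_unif_le A ha0 ha j fun a _ =>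
    L.Ex_nonneg (unif_nonneg A) fun ω => hg a (ω k)) ?_
  rw [pow_two, ← div_div]
  refine div_le_div_of_nonneg_right ?_ ha0.le
  rw [Finset.sum_div]
  exact Finset.sum_le_sum fun b _ => ex1 A hA ha0 ha k (hg b)

private theorem ex3 (A : ι → Finset Ω) (hA : ∀ i, (A i).Nonempty) {a0 : ℝ} (ha0 : 0 < a0)
    (ha : ∀ i, a0 ≤ (A i).card) {j k l : ι} (hjk : j ≠ k) (hjl : j ≠ l) (hkl : k ≠ l)
    {g : Ω → Ω → Ω → ℝ} (hg : ∀ a b c, 0 ≤ g a b c) :
    Ex (unif A) (fun ω => g (ω j) (ω k) (ω l)) ≤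
      (∑ b ∈ A j, ∑ c ∈ A k, ∑ e ∈ A l, g b c e) / a0 ^ 3 := by
  rw [ex_cond (unif_sum A hA) j (fun a ω => g a (ω k) (ω l))
    (fun a ω ω' h => by rw [h k hjk.symm, h l hjl.symm])]
  refine le_trans (sum_unif_le A ha0 ha j fun a _ =>
    L.Ex_nonneg (unif_nonneg A) fun ω => hg a (ω k) (ω l)) ?_
  rw [pow_succ, ← div_div]
  refine div_le_div_of_nonneg_right ?_ ha0.le
  rw [Finset.sum_div]
  exact Finset.sum_le_sum fun b _ => ex2 A hA ha0 ha hkl (hg b)

private theorem main_sum (A : ι → Finset Ω) (hA : ∀ i, (A i).Nonempty) (i : ι) {τ : Type*}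
    (T : Finset τ) (F : τ → Ω → (ι → Ω) → ℝ)
    (hF : ∀ z ∈ T, ∀ a, ∀ ω ω' : ι → Ω, (∀ v, v ≠ i → ω v = ω' v) → F z a ω = F z a ω')
    {Y : ℝ} (hY : ∀ a ∈ A i, ∑ z ∈ T, Ex (unif A) (F z a) ≤ Y) :
    ∑ z ∈ T, Ex (unif A) (fun ω => F z (ω i) ω) ≤ Y := by
  rw [Finset.sum_congr rfl fun z hz => ex_cond (unif_sum A hA) i (F z) (hF z hz), Finset.sum_comm]
  have h1 : ∀ a, ∑ z ∈ T, unif A i a * Ex (unif A) (F z a) ≤ unif A i a * Y := by
    intro a
    rw [← Finset.mul_sum]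
    by_cases h : a ∈ A i
    · exact mul_le_mul_of_nonneg_left (hY a h) (unif_nonneg A i a)
    · have h2 : unif A i a = 0 := by
        unfold unif
        rw [if_neg h]
      rw [h2, zero_mul, zero_mul]
  refine le_trans (Finset.sum_le_sum fun a _ => h1 a) ?_
  rw [← Finset.sum_mul, unif_sum A hA i, one_mul]

open Classical in
theorem pr_two (A : ι → Finset Ω) (hA : ∀ i, (A i).Nonempty) {a0 : ℝ} (ha0 : 0 < a0)
    (ha : ∀ i, a0 ≤ (A i).card) {i j : ι} (hij : i ≠ j) (P : Ω → Ω → Prop) {X : ℝ}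
    (hX : ∀ a ∈ A i, (((A j).filter fun b => P a b).card : ℝ) ≤ X) :
    Pr (unif A) (fun ω => P (ω i) (ω j)) ≤ X / a0 := by
  unfold Pr
  have h1 := main_sum A hA i ({()} : Finset Unit) (fun _ a ω => if P a (ω j) then (1 : ℝ) else 0)
    (fun _ _ a ω ω' h => by simp only [h j hij.symm]) (Y := X / a0) ?_
  · rw [Finset.sum_singleton] at h1
    exact h1
  · intro a ha2
    rw [Finset.sum_singleton]
    refine le_trans (ex1 A hA ha0 ha j (g := fun b => if P a b then (1 : ℝ) else 0)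
      fun b => by split_ifs <;> norm_num) ?_
    refine div_le_div_of_nonneg_right ?_ ha0.le
    refine le_trans (le_of_eq ?_) (hX a ha2)
    rw [Finset.card_filter]
    push_cast
    rfl

open Classical in
/-- the same for a sum over several partners `j`, with one bound for the sum -/
theorem pr_two_sum (A : ι → Finset Ω) (hA : ∀ i, (A i).Nonempty) {a0 : ℝ} (ha0 : 0 < a0)
    (ha : ∀ i, a0 ≤ (A i).card) (i : ι) (P : ι → Ω → Ω → Prop) {X : ℝ}
    (hX : ∀ a ∈ A i, ∑ j ∈ univ.filter (fun j => j ≠ i),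
      (((A j).filter fun b => P j a b).card : ℝ) ≤ X) :
    ∑ j ∈ univ.filter (fun j => j ≠ i), Pr (unif A) (fun ω => P j (ω i) (ω j)) ≤ X / a0 := by
  unfold Pr
  refine main_sum A hA i (univ.filter fun j => j ≠ i)
    (fun j a ω => if P j a (ω j) then (1 : ℝ) else 0) ?_ ?_
  · intro j hj a ω ω' h
    simp only [h j (Finset.mem_filter.1 hj).2]
  · intro a ha2
    refine le_trans (Finset.sum_le_sum fun j _ => ex1 A hA ha0 ha j
      (g := fun b => if P j a b then (1 : ℝ) else 0) fun b => by split_ifs <;> norm_num) ?_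
    rw [← Finset.sum_div]
    refine div_le_div_of_nonneg_right ?_ ha0.le
    refine le_trans (le_of_eq ?_) (hX a ha2)
    refine Finset.sum_congr rfl fun j _ => ?_
    rw [Finset.card_filter]
    push_cast
    rfl

open Classical in
theorem pr_three_sum (A : ι → Finset Ω) (hA : ∀ i, (A i).Nonempty) {a0 : ℝ} (ha0 : 0 < a0)
    (ha : ∀ i, a0 ≤ (A i).card) (i : ι) (T : Finset (ι × ι))
    (hT : ∀ z ∈ T, z.1 ≠ i ∧ z.2 ≠ i ∧ z.1 ≠ z.2) (P : ι → ι → Ω → Ω → Ω → Prop) {X : ℝ}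
    (hX : ∀ a ∈ A i, ∑ z ∈ T,
      (((A z.1 ×ˢ A z.2).filter fun b => P z.1 z.2 a b.1 b.2).card : ℝ) ≤ X) :
    ∑ z ∈ T, Pr (unif A) (fun ω => P z.1 z.2 (ω i) (ω z.1) (ω z.2)) ≤ X / a0 ^ 2 := by
  unfold Pr
  refine main_sum A hA i T (fun z a ω => if P z.1 z.2 a (ω z.1) (ω z.2) then (1 : ℝ) else 0) ?_ ?_
  · intro z hz a ω ω' h
    obtain ⟨h1, h2, _⟩ := hT z hz
    simp only [h z.1 h1, h z.2 h2]
  · intro a ha2
    refine le_trans (Finset.sum_le_sum fun z hz => ex2 A hA ha0 ha (hT z hz).2.2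
      (g := fun b c => if P z.1 z.2 a b c then (1 : ℝ) else 0)
      fun b c => by split_ifs <;> norm_num) ?_
    rw [← Finset.sum_div]
    refine div_le_div_of_nonneg_right ?_ (by positivity)
    refine le_trans (le_of_eq ?_) (hX a ha2)
    refine Finset.sum_congr rfl fun z _ => ?_
    rw [Finset.card_filter, Finset.sum_product]
    push_cast
    rfl

open Classical in
theorem pr_four_sum (A : ι → Finset Ω) (hA : ∀ i, (A i).Nonempty) {a0 : ℝ} (ha0 : 0 < a0)
    (ha : ∀ i, a0 ≤ (A i).card) (i : ι) (T : Finset (ι × ι × ι))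
    (hT : ∀ z ∈ T, [i, z.1, z.2.1, z.2.2].Nodup) (P : ι → ι → ι → Ω → Ω → Ω → Ω → Prop) {X : ℝ}
    (hX : ∀ a ∈ A i, ∑ z ∈ T, (((A z.1 ×ˢ A z.2.1 ×ˢ A z.2.2).filter
      fun b => P z.1 z.2.1 z.2.2 a b.1 b.2.1 b.2.2).card : ℝ) ≤ X) :
    ∑ z ∈ T, Pr (unif A) (fun ω => P z.1 z.2.1 z.2.2 (ω i) (ω z.1) (ω z.2.1) (ω z.2.2))
      ≤ X / a0 ^ 3 := by
  unfold Pr
  refine main_sum A hA i T (fun z a ω => if P z.1 z.2.1 z.2.2 a (ω z.1) (ω z.2.1) (ω z.2.2)
    then (1 : ℝ) else 0) ?_ ?_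
  · intro z hz a ω ω' h
    have h1 := hT z hz
    simp only [List.nodup_cons, List.mem_cons, List.not_mem_nil, or_false, not_or] at h1
    have h2 := h1.1
    simp only [h z.1 (Ne.symm h2.1), h z.2.1 (Ne.symm h2.2.1), h z.2.2 (Ne.symm h2.2.2)]
  · intro a ha2
    refine le_trans (Finset.sum_le_sum (g := fun z => (∑ b ∈ A z.1, ∑ c ∈ A z.2.1, ∑ e ∈ A z.2.2,
      if P z.1 z.2.1 z.2.2 a b c e then (1 : ℝ) else 0) / a0 ^ 3) fun z hz => ?_) ?_
    · have h1 := hT z hz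
      simp only [List.nodup_cons, List.mem_cons, List.not_mem_nil, or_false, not_or] at h1
      exact ex3 A hA ha0 ha h1.2.1.1 h1.2.1.2 h1.2.2.1
        (g := fun b c e => if P z.1 z.2.1 z.2.2 a b c e then (1 : ℝ) else 0)
        fun b c e => by split_ifs <;> norm_num
    rw [← Finset.sum_div]
    refine div_le_div_of_nonneg_right ?_ (by positivity)
    refine le_trans (le_of_eq ?_) (hX a ha2)
    refine Finset.sum_congr rfl fun z _ => ?_
    rw [Finset.card_filter, Finset.sum_product]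
    push_cast
    refine Finset.sum_congr rfl fun b _ => ?_
    rw [Finset.sum_product]

end Pool.Agent.NKL
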