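import Pool.Agent.NKL.HYP
import Pool.Agent.NKL.EDefs

set_option autoImplicit false

/-!
# NKL / LVW : `VV` and `WW` are Lipschitz

`D = (S1 \ S2) ∪ (S2 \ S1)`, `|D| ≤ K`.  A line `(v,l)` with different counts contains a cell `q ∈ D`,
so there are at most `b K` such lines.  `VV`: an item `p` changes only if a changed line passes
through `p` (at most `N` items for each line, `Ok.len`) or is in `B p` (at most `2N`, `Fam.kap`):
at most `3 b K N` items, each changes by at most `f p U^b ≤ 2 U^b`.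
`WW`: at most `K` items are in exactly one of `S1`, `S2`; the common items change only if a changed
line is in `B p`: at most `2 s` items of `S1` for each line (`Fam.kap2`): at most `(1 + 2 b s) K`
changes of size at most `U^b`.  (All `uu` are in `[0,U]`, `U = φ⁻¹ ≥ 1`.)
-/

namespace Pool.Agent.NKL

open Finset

variable {α V Λ : Type} [Fintype α] [DecidableEq α] [Fintype V] [DecidableEq V] [DecidableEq Λ]
  {N : ℕ} {Y : Sys α V Λ N} {θ φ W : ℝ} {R b s : ℕ}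

private theorem cnt_eq_of' (Y : Sys α V Λ N) {S1 S2 : Finset α} {v : V} {l : Λ}
    (h : ∀ q ∈ (S1 \ S2) ∪ (S2 \ S1), Y.line v q ≠ l) : Y.cnt S1 v l = Y.cnt S2 v l := by
  unfold Sys.cnt
  congr 1
  ext p
  simp only [Finset.mem_filter]
  constructor
  · rintro ⟨h1, h2⟩
    refine ⟨?_, h2⟩
    by_contra h3
    exact h p (by simp [h1, h3]) h2
  · rintro ⟨h1, h2⟩
    refine ⟨?_, h2⟩
    by_contra h3
    exact h p (by simp [h1, h3]) h2

private theorem one_le_inv' {φ : ℝ} (h0 : 0 < φ) (h1 : φ ≤ 1) : 1 ≤ φ⁻¹ :=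
  (one_le_inv₀ h0).mpr h1

/-- the changed lines -/
private theorem changed (h : Y.Hyp θ R b s φ W) {S1 S2 : Finset α} {K : ℕ}
    (hK : ((S1 \ S2) ∪ (S2 \ S1)).card ≤ K) : ∃ Lc : Finset (V × Λ), Lc.card ≤ b * K ∧
      ∀ L : V × Λ, L ∉ Lc → Y.cnt S1 L.1 L.2 = Y.cnt S2 L.1 L.2 := by
  classical
  refine ⟨((univ : Finset V) ×ˢ ((S1 \ S2) ∪ (S2 \ S1))).image (fun x => (x.1, Y.line x.1 x.2)), ?_, ?_⟩
  · refine Finset.card_image_le.trans ?_
    rw [Finset.card_product]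
    exact Nat.mul_le_mul h.cardV hK
  · intro L hL
    apply cnt_eq_of'
    intro q hq he
    apply hL
    rw [Finset.mem_image]
    exact ⟨(L.1, q), Finset.mem_product.2 ⟨Finset.mem_univ _, hq⟩, Prod.ext rfl he⟩

theorem lvv (h : Y.Hyp θ R b s φ W) {S1 S2 : Finset α} {K : ℕ}
    (hK : ((S1 \ S2) ∪ (S2 \ S1)).card ≤ K) {I : Finset α} {B : α → Finset (V × Λ)}
    (hF : Y.Fam s b I B) {T i : ℕ} (hT : T ≤ R) (hi : i ≤ T) :
    |Y.VV θ R I B T i S1 - Y.VV θ R I B T i S2| ≤ 6 * (φ⁻¹) ^ b * b * K * N := by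
  classical
  have hφ1 := one_le_inv' h.φ0 h.φ1
  have hφ0 : (0 : ℝ) ≤ φ⁻¹ := by linarith
  obtain ⟨Lc, hLc, hcnt⟩ := changed h hK
  obtain ⟨P, hP⟩ : ∃ P : Finset α → α → ℝ, ∀ S p, P S p =
      (∏ v, uu θ (Y.mass v (Y.line v p)) (Y.cap v) T (T - i) (Y.cnt S v (Y.line v p))) *
      ∏ L ∈ B p, uu θ (Y.mass L.1 L.2) (Y.cap L.1) R (R - i) (Y.cnt S L.1 L.2) := ⟨_, fun _ _ => rfl⟩
  have h1 : ∀ S p, 0 ≤ ∏ v, uu θ (Y.mass v (Y.line v p)) (Y.cap v) T (T - i) (Y.cnt S v (Y.line v p)) :=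
    fun S p => Finset.prod_nonneg fun v _ => uu_nonneg (h.ch v _) hT (Nat.sub_le _ _) _
  have h2 : ∀ S p, 0 ≤ ∏ L ∈ B p, uu θ (Y.mass L.1 L.2) (Y.cap L.1) R (R - i) (Y.cnt S L.1 L.2) :=
    fun S p => Finset.prod_nonneg fun L _ => uu_nonneg (h.ch L.1 _) le_rfl (Nat.sub_le _ _) _
  have h3 : ∀ S p, ∏ v, uu θ (Y.mass v (Y.line v p)) (Y.cap v) T (T - i) (Y.cnt S v (Y.line v p)) ≤
      (φ⁻¹) ^ Fintype.card V := by
    intro S p
    calc ∏ v, uu θ (Y.mass v (Y.line v p)) (Y.cap v) T (T - i) (Y.cnt S v (Y.line v p)) ≤ ∏ _v : V, φ⁻¹ :=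
          Finset.prod_le_prod (fun v _ => uu_nonneg (h.ch v _) hT (Nat.sub_le _ _) _)
            (fun v _ => uu_le (h.ch v _) hT (Nat.sub_le _ _) _)
      _ = (φ⁻¹) ^ Fintype.card V := by rw [Finset.prod_const, Finset.card_univ]
  have h4 : ∀ S p, ∏ L ∈ B p, uu θ (Y.mass L.1 L.2) (Y.cap L.1) R (R - i) (Y.cnt S L.1 L.2) ≤
      (φ⁻¹) ^ (B p).card := by
    intro S p
    calc ∏ L ∈ B p, uu θ (Y.mass L.1 L.2) (Y.cap L.1) R (R - i) (Y.cnt S L.1 L.2) ≤ ∏ _L ∈ B p, φ⁻¹ :=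
          Finset.prod_le_prod (fun L _ => uu_nonneg (h.ch L.1 _) le_rfl (Nat.sub_le _ _) _)
            (fun L _ => uu_le (h.ch L.1 _) le_rfl (Nat.sub_le _ _) _)
      _ = (φ⁻¹) ^ (B p).card := by rw [Finset.prod_const]
  have hP0 : ∀ S p, 0 ≤ P S p := fun S p => by
    rw [hP]
    exact mul_nonneg (h1 S p) (h2 S p)
  have hPle : ∀ S, ∀ p ∈ I, P S p ≤ (φ⁻¹) ^ b := by
    intro S p hp
    rw [hP]
    calc _ ≤ (φ⁻¹) ^ Fintype.card V * (φ⁻¹) ^ (B p).card :=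
          mul_le_mul (h3 S p) (h4 S p) (h2 S p) (by positivity)
      _ = (φ⁻¹) ^ ((B p).card + Fintype.card V) := by rw [add_comm, pow_add]
      _ ≤ (φ⁻¹) ^ b := pow_le_pow_right₀ hφ1 (hF.cardB p hp)
  obtain ⟨Bad, hBad⟩ : ∃ Bad : Finset α, ∀ p, p ∈ Bad ↔
      (p ∈ I ∧ ((∃ v, (v, Y.line v p) ∈ Lc) ∨ ∃ L ∈ B p, L ∈ Lc)) :=
    ⟨_, fun p => Finset.mem_filter⟩
  have hbadcard : Bad.card ≤ b * K * (3 * N) := by
    have hsub : Bad ⊆ Lc.biUnion (fun L => (univ.filter fun p => Y.line L.1 p = L.2) ∪ (I.filter fun p => L ∈ B p)) := by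
      intro p hp
      rw [hBad] at hp
      obtain ⟨hp1, ⟨v, hv⟩ | ⟨L, hL1, hL2⟩⟩ := hp
      · rw [Finset.mem_biUnion]
        exact ⟨_, hv, Finset.mem_union_left _ (Finset.mem_filter.2 ⟨Finset.mem_univ _, rfl⟩)⟩
      · rw [Finset.mem_biUnion]
        exact ⟨L, hL2, Finset.mem_union_right _ (Finset.mem_filter.2 ⟨hp1, hL1⟩)⟩
    calc Bad.card ≤ _ := Finset.card_le_card hsub
      _ ≤ ∑ L ∈ Lc, ((univ.filter fun p => Y.line L.1 p = L.2) ∪ (I.filter fun p => L ∈ B p)).card :=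
          Finset.card_biUnion_le
      _ ≤ ∑ _L ∈ Lc, 3 * N := by
          refine Finset.sum_le_sum fun L _ => ?_
          have e1 := Finset.card_union_le (univ.filter fun p => Y.line L.1 p = L.2) (I.filter fun p => L ∈ B p)
          have e2 := h.ok.len L.1 L.2
          have e3 := hF.kap L
          omega
      _ = Lc.card * (3 * N) := by rw [Finset.sum_const, smul_eq_mul]
      _ ≤ b * K * (3 * N) := Nat.mul_le_mul_right _ hLc
  have hgood : ∀ p ∈ I, p ∉ Bad → P S1 p = P S2 p := by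
    intro p hp hpb
    rw [hBad] at hpb
    push Not at hpb
    obtain ⟨hb1, hb2⟩ := hpb hp
    rw [hP, hP]
    congr 1
    · refine Finset.prod_congr rfl fun v _ => ?_
      rw [hcnt (v, Y.line v p) (hb1 v)]
    · refine Finset.prod_congr rfl fun L hL => ?_
      rw [hcnt L (hb2 L hL)]
  have hdiff : Y.VV θ R I B T i S1 - Y.VV θ R I B T i S2 = ∑ p ∈ I, Y.f p * (P S1 p - P S2 p) := by
    unfold Sys.VV
    rw [← Finset.sum_sub_distrib]
    refine Finset.sum_congr rfl fun p _ => ?_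
    rw [hP, hP]
    ring
  rw [hdiff]
  calc |∑ p ∈ I, Y.f p * (P S1 p - P S2 p)|
      ≤ ∑ p ∈ I, |Y.f p * (P S1 p - P S2 p)| := Finset.abs_sum_le_sum_abs _ _
    _ ≤ ∑ p ∈ I, if p ∈ Bad then 2 * (φ⁻¹) ^ b else 0 := by
        refine Finset.sum_le_sum fun p hp => ?_
        by_cases hb : p ∈ Bad
        · rw [if_pos hb, abs_mul, abs_of_nonneg (h.ok.f_nonneg p)]
          apply mul_le_mul (h.ok.f_le p) _ (abs_nonneg _) (by norm_num)
          exact abs_sub_le_of_nonneg_of_le (hP0 S1 p) (hPle S1 p hp) (hP0 S2 p) (hPle S2 p hp)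
        · rw [if_neg hb, hgood p hp hb, sub_self, mul_zero, abs_zero]
    _ = (I.filter (fun p => p ∈ Bad)).card * (2 * (φ⁻¹) ^ b) := by
        rw [← Finset.sum_filter, Finset.sum_const, nsmul_eq_mul]
    _ ≤ (b * K * (3 * N) : ℕ) * (2 * (φ⁻¹) ^ b) := by
        apply mul_le_mul_of_nonneg_right _ (by positivity)
        have : (I.filter (fun p => p ∈ Bad)).card ≤ b * K * (3 * N) := by
          refine le_trans (Finset.card_le_card ?_) hbadcard
          intro p hp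
          exact (Finset.mem_filter.mp hp).2
        exact_mod_cast this
    _ = 6 * (φ⁻¹) ^ b * b * K * N := by push_cast; ring

theorem lww (h : Y.Hyp θ R b s φ W) {S1 S2 : Finset α} {K : ℕ} (hS1 : Y.Valid S1)
    (hK : ((S1 \ S2) ∪ (S2 \ S1)).card ≤ K) {I : Finset α} {B : α → Finset (V × Λ)}
    (hF : Y.Fam s b I B) {i : ℕ} (hi : i ≤ R) :
    |Y.WW θ R I B i S1 - Y.WW θ R I B i S2| ≤ (φ⁻¹) ^ b * (1 + 2 * b * s) * K := by
  classical
  have hφ1 := one_le_inv' h.φ0 h.φ1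
  have hφ0 : (0 : ℝ) ≤ φ⁻¹ := by linarith
  obtain ⟨Lc, hLc, hcnt⟩ := changed h hK
  obtain ⟨P, hP⟩ : ∃ P : Finset α → α → ℝ, ∀ S p, P S p =
      ∏ L ∈ B p, uu θ (Y.mass L.1 L.2) (Y.cap L.1) R (R - i) (Y.cnt S L.1 L.2) := ⟨_, fun _ _ => rfl⟩
  have hP0 : ∀ S p, 0 ≤ P S p := fun S p => by
    rw [hP]
    exact Finset.prod_nonneg fun L _ => uu_nonneg (h.ch L.1 _) le_rfl (Nat.sub_le _ _) _
  have hPle : ∀ S, ∀ p ∈ I, P S p ≤ (φ⁻¹) ^ b := by
    intro S p hp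
    rw [hP]
    calc ∏ L ∈ B p, uu θ (Y.mass L.1 L.2) (Y.cap L.1) R (R - i) (Y.cnt S L.1 L.2) ≤ ∏ _L ∈ B p, φ⁻¹ :=
          Finset.prod_le_prod (fun L _ => uu_nonneg (h.ch L.1 _) le_rfl (Nat.sub_le _ _) _)
            (fun L _ => uu_le (h.ch L.1 _) le_rfl (Nat.sub_le _ _) _)
      _ = (φ⁻¹) ^ (B p).card := by rw [Finset.prod_const]
      _ ≤ (φ⁻¹) ^ b := pow_le_pow_right₀ hφ1 (le_trans (Nat.le_add_right _ _) (hF.cardB p hp))
  have hU : 0 ≤ (φ⁻¹) ^ b := by positivity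
  obtain ⟨Bad, hBad⟩ : ∃ Bad : Finset α, ∀ p, p ∈ Bad ↔ (p ∈ S1 ∩ I ∧ ∃ L ∈ B p, L ∈ Lc) :=
    ⟨_, fun p => Finset.mem_filter⟩
  have hbadcard : Bad.card ≤ b * K * (2 * s) := by
    have hsub : Bad ⊆ Lc.biUnion (fun L => (S1 ∩ I).filter fun p => L ∈ B p) := by
      intro p hp
      rw [hBad] at hp
      obtain ⟨hp1, L, hL1, hL2⟩ := hp
      rw [Finset.mem_biUnion]
      exact ⟨L, hL2, Finset.mem_filter.2 ⟨hp1, hL1⟩⟩
    calc Bad.card ≤ _ := Finset.card_le_card hsub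
      _ ≤ ∑ L ∈ Lc, ((S1 ∩ I).filter fun p => L ∈ B p).card := Finset.card_biUnion_le
      _ ≤ ∑ _L ∈ Lc, 2 * s := Finset.sum_le_sum fun L _ => hF.kap2 S1 hS1 L
      _ = Lc.card * (2 * s) := by rw [Finset.sum_const, smul_eq_mul]
      _ ≤ b * K * (2 * s) := Nat.mul_le_mul_right _ hLc
  have hW : ∀ S, Y.WW θ R I B i S = ∑ p ∈ I, if p ∈ S then P S p else 0 := by
    intro S
    unfold Sys.WW
    rw [← Finset.sum_filter]
    refine Finset.sum_congr ?_ fun p _ => (hP S p).symm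
    ext p
    rw [Finset.mem_inter, Finset.mem_filter, and_comm]
  rw [hW, hW, ← Finset.sum_sub_distrib]
  have hterm : ∀ p ∈ I, |(if p ∈ S1 then P S1 p else 0) - (if p ∈ S2 then P S2 p else 0)| ≤
      (if p ∈ (S1 \ S2) ∪ (S2 \ S1) then (φ⁻¹) ^ b else 0) + (if p ∈ Bad then (φ⁻¹) ^ b else 0) := by
    intro p hp
    have e0 : 0 ≤ (if p ∈ Bad then (φ⁻¹) ^ b else (0 : ℝ)) := by
      split_ifs
      · exact hU
      · exact le_rfl
    by_cases h1 : p ∈ S1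
    · by_cases h2 : p ∈ S2
      · rw [if_pos h1, if_pos h2]
        have h3 : p ∉ (S1 \ S2) ∪ (S2 \ S1) := by
          simp [h1, h2]
        rw [if_neg h3, zero_add]
        by_cases hb : p ∈ Bad
        · rw [if_pos hb]
          exact abs_sub_le_of_nonneg_of_le (hP0 S1 p) (hPle S1 p hp) (hP0 S2 p) (hPle S2 p hp)
        · rw [if_neg hb]
          rw [hBad] at hb
          push Not at hb
          have h4 := hb (Finset.mem_inter.2 ⟨h1, hp⟩)
          have h5 : P S1 p = P S2 p := by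
            rw [hP, hP]
            refine Finset.prod_congr rfl fun L hL => ?_
            rw [hcnt L (h4 L hL)]
          rw [h5, sub_self, abs_zero]
      · rw [if_pos h1, if_neg h2, sub_zero, abs_of_nonneg (hP0 S1 p)]
        have h3 : p ∈ (S1 \ S2) ∪ (S2 \ S1) := by
          simp [h1, h2]
        rw [if_pos h3]
        linarith [hPle S1 p hp]
    · by_cases h2 : p ∈ S2
      · rw [if_neg h1, if_pos h2, zero_sub, abs_neg, abs_of_nonneg (hP0 S2 p)]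
        have h3 : p ∈ (S1 \ S2) ∪ (S2 \ S1) := by
          simp [h1, h2]
        rw [if_pos h3]
        linarith [hPle S2 p hp]
      · rw [if_neg h1, if_neg h2, sub_self, abs_zero]
        have e1 : 0 ≤ (if p ∈ (S1 \ S2) ∪ (S2 \ S1) then (φ⁻¹) ^ b else (0 : ℝ)) := by
          split_ifs
          · exact hU
          · exact le_rfl
        linarith
  have c1 : ((I.filter fun p => p ∈ (S1 \ S2) ∪ (S2 \ S1)).card : ℝ) ≤ K := by
    have : (I.filter fun p => p ∈ (S1 \ S2) ∪ (S2 \ S1)).card ≤ K :=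
      (Finset.card_le_card fun p hp => (Finset.mem_filter.1 hp).2).trans hK
    exact_mod_cast this
  have c2 : ((I.filter fun p => p ∈ Bad).card : ℝ) ≤ b * K * (2 * s) := by
    have : (I.filter fun p => p ∈ Bad).card ≤ b * K * (2 * s) :=
      (Finset.card_le_card fun p hp => (Finset.mem_filter.1 hp).2).trans hbadcard
    exact_mod_cast this
  calc |∑ p ∈ I, ((if p ∈ S1 then P S1 p else 0) - (if p ∈ S2 then P S2 p else 0))|
      ≤ ∑ p ∈ I, |(if p ∈ S1 then P S1 p else 0) - (if p ∈ S2 then P S2 p else 0)| := Finset.abs_sum_le_sum_abs _ _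
    _ ≤ ∑ p ∈ I, ((if p ∈ (S1 \ S2) ∪ (S2 \ S1) then (φ⁻¹) ^ b else 0) + (if p ∈ Bad then (φ⁻¹) ^ b else 0)) :=
        Finset.sum_le_sum hterm
    _ = (I.filter fun p => p ∈ (S1 \ S2) ∪ (S2 \ S1)).card * (φ⁻¹) ^ b + (I.filter fun p => p ∈ Bad).card * (φ⁻¹) ^ b := by
        rw [Finset.sum_add_distrib, ← Finset.sum_filter, ← Finset.sum_filter, Finset.sum_const, Finset.sum_const,
          nsmul_eq_mul, nsmul_eq_mul]
    _ ≤ K * (φ⁻¹) ^ b + b * K * (2 * s) * (φ⁻¹) ^ b :=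
        add_le_add (mul_le_mul_of_nonneg_right c1 hU) (mul_le_mul_of_nonneg_right c2 hU)
    _ = (φ⁻¹) ^ b * (1 + 2 * b * s) * K := by ring

end Pool.Agent.NKL
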