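import Pool.Agent.NKL.G2R
import Pool.Agent.NKL.G2N
import Pool.Agent.NKL.F2N
import Pool.Agent.NKL.MAI

set_option autoImplicit false

/-!
# NKL / MA2 : the column bound for all `k ≥ 4` and all large `N`
-/

namespace Pool.Agent.NKL

open Finset

theorem main2 (s : ℕ) (hs : 3 ≤ s) : ∃ N₀ : ℕ, ∀ N ≥ N₀, mk (s + 1) N = s * N := by
  obtain ⟨N₀, hN₀⟩ := fin2 s hs (near2_exists s hs (raw_exists s hs))
  refine ⟨N₀, fun N hN => ?_⟩
  obtain ⟨T, hT, h1, h2, h3⟩ := hN₀ N hN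
  exact mk_eq (by omega) hT h1 h2 h3

end Pool.Agent.NKL
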