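import Pool.Agent.NKL.Defs

set_option autoImplicit false

/-!
# NKL / MCD : the bounded differences inequality (McDiarmid, with a factor 4 lost)

`exp_mean`: for a probability `w` on a finite set and `|z b| ≤ c`, `∑ w z = 0`:
`∑ w exp(t z) ≤ cosh(t c) ≤ exp(t² c²/2)` (convexity: `exp(t z) ≤ cosh(tc) + (z/c) sinh(tc)`;
`Real.cosh_le_exp_half_sq`).
`mcd_exp` by induction on `n`: for `p : Fin (n+1) → Ω → ℝ` split off the coordinate `0`
(`Fin.consEquiv` / `Fin.prod_univ_succ`, `Fin.cons`): with `G a = Ex' (g (a, ·))` one has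
`Ex exp(t (g - Ex g)) = ∑_a p 0 a exp(t (G a - Ex g)) Ex' exp(t (g(a,·) - G a))
≤ exp(t² (∑_{x>0} c²)/2) ∑_a p 0 a exp(t (G a - Ex g))`, and `|G a - G a'| ≤ c 0`, so
`|G a - Ex g| ≤ c 0` and `exp_mean` applies.
`mcd`: Markov for `exp(t(g - Ex g))` and `exp(-t(g - Ex g))` with `t = lam/σ`.
-/

namespace Pool.Agent.NKL

open Finset Pool.Agent.ChPi

private theorem exp_conv {c z t : ℝ} (hc : 0 < c) (hz : |z| ≤ c) :
    Real.exp (t * z) ≤ Real.cosh (t * c) + z * (Real.sinh (t * c) / c) := by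
  have hA : 0 ≤ (1 + z / c) / 2 := by
    have := (abs_le.1 hz).1
    have h2 : -1 ≤ z / c := by rw [le_div_iff₀ hc]; linarith
    linarith
  have hB : 0 ≤ (1 - z / c) / 2 := by
    have := (abs_le.1 hz).2
    have h2 : z / c ≤ 1 := by rw [div_le_iff₀ hc]; linarith
    linarith
  have h := convexOn_exp.2 (Set.mem_univ (t * c)) (Set.mem_univ (-(t * c))) hA hB (by ring)
  · simp only [smul_eq_mul] at h
    have e1 : (1 + z / c) / 2 * (t * c) + (1 - z / c) / 2 * -(t * c) = t * z := by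
      field_simp
      ring
    rw [e1] at h
    refine h.trans (le_of_eq ?_)
    rw [Real.cosh_eq, Real.sinh_eq]
    field_simp
    ring

theorem exp_mean {Ω : Type} [Fintype Ω] (w z : Ω → ℝ) (hw : ∀ b, 0 ≤ w b) (hw1 : ∑ b, w b = 1)
    {c : ℝ} (hc : 0 ≤ c) (hz : ∀ b, |z b| ≤ c) (h0 : ∑ b, w b * z b = 0) (t : ℝ) :
    ∑ b, w b * Real.exp (t * z b) ≤ Real.exp (t ^ 2 * c ^ 2 / 2) := by
  rcases hc.eq_or_lt with hc0 | hc0
  · subst hc0
    have hz0 : ∀ b, z b = 0 := fun b => abs_eq_zero.1 (le_antisymm (hz b) (abs_nonneg _))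
    simp [hz0, hw1]
  · calc ∑ b, w b * Real.exp (t * z b)
        ≤ ∑ b, w b * (Real.cosh (t * c) + z b * (Real.sinh (t * c) / c)) :=
          Finset.sum_le_sum fun b _ => mul_le_mul_of_nonneg_left (exp_conv hc0 (hz b)) (hw b)
      _ = (∑ b, w b) * Real.cosh (t * c) + (∑ b, w b * z b) * (Real.sinh (t * c) / c) := by
          rw [Finset.sum_mul, Finset.sum_mul, ← Finset.sum_add_distrib]
          exact Finset.sum_congr rfl fun b _ => by ring
      _ = Real.cosh (t * c) := by rw [hw1, h0]; ring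
      _ ≤ Real.exp ((t * c) ^ 2 / 2) := Real.cosh_le_exp_half_sq _
      _ = Real.exp (t ^ 2 * c ^ 2 / 2) := by rw [mul_pow]

private theorem Ex_succ {Ω : Type} [Fintype Ω] {n : ℕ} (p : Fin (n + 1) → Ω → ℝ)
    (F : (Fin (n + 1) → Ω) → ℝ) :
    Ex p F = ∑ a, p 0 a * Ex (fun x : Fin n => p x.succ) (fun ω => F (Fin.cons a ω)) := by
  unfold Ex
  rw [← Equiv.sum_comp (Fin.consEquiv (fun _ : Fin (n + 1) => Ω)) (fun ω => wt p ω * F ω),
    Fintype.sum_prod_type]
  refine Finset.sum_congr rfl fun a _ => ?_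
  rw [Finset.mul_sum]
  refine Finset.sum_congr rfl fun ω _ => ?_
  have h1 : wt p (Fin.cons a ω : Fin (n + 1) → Ω)
      = p 0 a * wt (fun x : Fin n => p x.succ) ω := by
    unfold wt
    rw [Fin.prod_univ_succ]
    simp
  change wt p (Fin.cons a ω : Fin (n + 1) → Ω) * F (Fin.cons a ω) = _
  rw [h1]
  ring

theorem mcd_exp {Ω : Type} [Fintype Ω] {n : ℕ} (p : Fin n → Ω → ℝ) (hp0 : ∀ v o, 0 ≤ p v o)
    (hp1 : ∀ v, ∑ o, p v o = 1) (g : (Fin n → Ω) → ℝ) (c : Fin n → ℝ) (hc : ∀ x, 0 ≤ c x)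
    (hL : ∀ x ω ω', (∀ y, y ≠ x → ω y = ω' y) → |g ω - g ω'| ≤ c x) (t : ℝ) :
    Ex p (fun ω => Real.exp (t * (g ω - Ex p g))) ≤ Real.exp (t ^ 2 * (∑ x, c x ^ 2) / 2) := by
  induction n with
  | zero =>
    have h1 : ∀ ω : Fin 0 → Ω, g ω - Ex p g = 0 := by
      intro ω
      have : g = fun _ => g ω := by
        funext ω'
        rw [Subsingleton.elim ω' ω]
      rw [this, L.Ex_const hp1]
      simp
    simp only [h1, mul_zero, Real.exp_zero]
    rw [L.Ex_const hp1]
    simp
  | succ n ih =>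
    set q : Fin n → Ω → ℝ := fun x => p x.succ with hq
    have hq0 : ∀ v o, 0 ≤ q v o := fun v o => hp0 _ _
    have hq1 : ∀ v, ∑ o, q v o = 1 := fun v => hp1 _
    set G : Ω → ℝ := fun a => Ex q (fun ω => g (Fin.cons a ω)) with hG
    have hE : Ex p g = ∑ a, p 0 a * G a := Ex_succ p g
    -- differences of the G
    have hGd : ∀ a b, |G a - G b| ≤ c 0 := by
      intro a b
      have h1 : G a - G b
          = Ex q (fun ω => g (Fin.cons a ω) - g (Fin.cons b ω)) := by
        have := L.Ex_add q (fun ω => g (Fin.cons a ω) - g (Fin.cons b ω))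
          (fun ω => g (Fin.cons b ω))
        simp only [sub_add_cancel] at this
        simp only [hG]
        linarith
      have h2 : ∀ ω : Fin n → Ω,
          |g (Fin.cons a ω : Fin (n + 1) → Ω) - g (Fin.cons b ω)| ≤ c 0 := by
        intro ω
        refine hL 0 _ _ fun y hy => ?_
        obtain ⟨z, rfl⟩ := Fin.exists_succ_eq.2 hy
        simp
      rw [h1, abs_le]
      constructor
      · have := L.Ex_mono (p := q) hq0 (f := fun _ => -c 0)
          (g := fun ω => g (Fin.cons a ω) - g (Fin.cons b ω)) fun ω => (abs_le.1 (h2 ω)).1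
        rwa [L.Ex_const hq1] at this
      · have := L.Ex_mono (p := q) hq0
          (f := fun ω => g (Fin.cons a ω) - g (Fin.cons b ω)) (g := fun _ => c 0)
          fun ω => (abs_le.1 (h2 ω)).2
        rwa [L.Ex_const hq1] at this
    have hGE : ∀ a, |G a - Ex p g| ≤ c 0 := by
      intro a
      have h1 : G a - Ex p g = ∑ b, p 0 b * (G a - G b) := by
        rw [hE]
        simp only [mul_sub, Finset.sum_sub_distrib]
        rw [← Finset.sum_mul, hp1 0, one_mul]
      rw [h1]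
      refine (Finset.abs_sum_le_sum_abs _ _).trans ?_
      calc ∑ b, |p 0 b * (G a - G b)| ≤ ∑ b, p 0 b * c 0 := by
            refine Finset.sum_le_sum fun b _ => ?_
            rw [abs_mul, abs_of_nonneg (hp0 0 b)]
            exact mul_le_mul_of_nonneg_left (hGd a b) (hp0 0 b)
        _ = c 0 := by rw [← Finset.sum_mul, hp1 0, one_mul]
    have hzero : ∑ a, p 0 a * (G a - Ex p g) = 0 := by
      simp only [mul_sub, Finset.sum_sub_distrib]
      rw [← Finset.sum_mul, hp1 0, one_mul, ← hE, sub_self]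
    have hih : ∀ a, Ex q (fun ω => Real.exp (t * (g (Fin.cons a ω) - G a)))
        ≤ Real.exp (t ^ 2 * (∑ x : Fin n, c x.succ ^ 2) / 2) := by
      intro a
      refine ih q hq0 hq1 (fun ω => g (Fin.cons a ω)) (fun x => c x.succ) (fun x => hc _) ?_
      intro x ω ω' h
      refine hL x.succ _ _ fun y hy => ?_
      refine Fin.cases ?_ (fun z => ?_) y (motive := fun y => y ≠ x.succ →
        (Fin.cons a ω : Fin (n + 1) → Ω) y = (Fin.cons a ω' : Fin (n + 1) → Ω) y) hy
      · intro _; simp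
      · intro hz
        simp only [Fin.cons_succ]
        exact h z fun hzx => hz (by rw [hzx])
    rw [Ex_succ]
    calc ∑ a, p 0 a * Ex q (fun ω => Real.exp (t * (g (Fin.cons a ω) - Ex p g)))
        = ∑ a, p 0 a * (Real.exp (t * (G a - Ex p g))
            * Ex q (fun ω => Real.exp (t * (g (Fin.cons a ω) - G a)))) := by
          refine Finset.sum_congr rfl fun a _ => ?_
          congr 1
          rw [← L.Ex_mul_left]
          congr 1
          funext ω
          rw [← Real.exp_add]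
          congr 1
          ring
      _ ≤ ∑ a, p 0 a * (Real.exp (t * (G a - Ex p g))
            * Real.exp (t ^ 2 * (∑ x : Fin n, c x.succ ^ 2) / 2)) :=
          Finset.sum_le_sum fun a _ => mul_le_mul_of_nonneg_left
            (mul_le_mul_of_nonneg_left (hih a) (Real.exp_pos _).le) (hp0 0 a)
      _ = (∑ a, p 0 a * Real.exp (t * (G a - Ex p g)))
            * Real.exp (t ^ 2 * (∑ x : Fin n, c x.succ ^ 2) / 2) := by
          rw [Finset.sum_mul]
          exact Finset.sum_congr rfl fun a _ => by ring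
      _ ≤ Real.exp (t ^ 2 * c 0 ^ 2 / 2)
            * Real.exp (t ^ 2 * (∑ x : Fin n, c x.succ ^ 2) / 2) :=
          mul_le_mul_of_nonneg_right
            (exp_mean (p 0) (fun a => G a - Ex p g) (hp0 0) (hp1 0) (hc 0) hGE hzero t)
            (Real.exp_pos _).le
      _ = Real.exp (t ^ 2 * (∑ x, c x ^ 2) / 2) := by
          rw [← Real.exp_add, Fin.sum_univ_succ]
          congr 1
          ring

theorem mcd {Ω : Type} [Fintype Ω] {n : ℕ} (p : Fin n → Ω → ℝ) (hp0 : ∀ v o, 0 ≤ p v o)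
    (hp1 : ∀ v, ∑ o, p v o = 1) (g : (Fin n → Ω) → ℝ) (c : Fin n → ℝ) (hc : ∀ x, 0 ≤ c x)
    (hL : ∀ x ω ω', (∀ y, y ≠ x → ω y = ω' y) → |g ω - g ω'| ≤ c x) {σ lam : ℝ} (hσ : 0 < σ)
    (hcσ : ∑ x, c x ^ 2 ≤ σ) (hlam : 0 ≤ lam) :
    Pr p (fun ω => lam < |g ω - Ex p g|) ≤ 2 * Real.exp (-(lam ^ 2 / (2 * σ))) := by
  classical
  set t : ℝ := lam / σ with ht
  have ht0 : 0 ≤ t := div_nonneg hlam hσ.le
  have hb : ∀ s : ℝ, s ^ 2 = t ^ 2 →
      Ex p (fun ω => Real.exp (s * (g ω - Ex p g))) ≤ Real.exp (t ^ 2 * σ / 2) := by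
    intro s hs
    refine (mcd_exp p hp0 hp1 g c hc hL s).trans (Real.exp_le_exp.2 ?_)
    rw [hs]
    have : t ^ 2 * (∑ x, c x ^ 2) ≤ t ^ 2 * σ := mul_le_mul_of_nonneg_left hcσ (sq_nonneg _)
    linarith
  have h1 : Pr p (fun ω => lam < |g ω - Ex p g|)
      ≤ Ex p (fun ω => Real.exp (-(t * lam)) * (Real.exp (t * (g ω - Ex p g))
        + Real.exp (-t * (g ω - Ex p g)))) := by
    unfold Pr
    refine L.Ex_mono hp0 fun ω => ?_
    split_ifs with h
    · replace h : lam < |g ω - Ex p g| := h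
      have hpos1 := (Real.exp_pos (t * (g ω - Ex p g))).le
      have hpos2 := (Real.exp_pos (-t * (g ω - Ex p g))).le
      have hge : Real.exp (t * lam) ≤ Real.exp (t * (g ω - Ex p g))
          + Real.exp (-t * (g ω - Ex p g)) := by
        rcases le_total 0 (g ω - Ex p g) with h0 | h0
        · rw [abs_of_nonneg h0] at h
          have := Real.exp_le_exp.2 (mul_le_mul_of_nonneg_left h.le ht0)
          linarith
        · rw [abs_of_nonpos h0] at h
          have h2 : t * lam ≤ -t * (g ω - Ex p g) := by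
            have := mul_le_mul_of_nonneg_left h.le ht0
            linarith
          have := Real.exp_le_exp.2 h2
          linarith
      calc (1 : ℝ) = Real.exp (-(t * lam)) * Real.exp (t * lam) := by
            rw [← Real.exp_add]; simp
        _ ≤ _ := mul_le_mul_of_nonneg_left hge (Real.exp_pos _).le
    · positivity
  refine h1.trans ?_
  rw [L.Ex_mul_left, L.Ex_add]
  have e : Real.exp (-(t * lam)) * (Real.exp (t ^ 2 * σ / 2) + Real.exp (t ^ 2 * σ / 2))
      = 2 * Real.exp (-(lam ^ 2 / (2 * σ))) := by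
    rw [← two_mul, ← mul_assoc, mul_comm (Real.exp (-(t * lam))) 2, mul_assoc, ← Real.exp_add]
    congr 2
    rw [ht]
    field_simp
    ring
  rw [← e]
  exact mul_le_mul_of_nonneg_left (add_le_add (hb t rfl) (hb (-t) (by ring)))
    (Real.exp_pos _).le

end Pool.Agent.NKL
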