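import Pool.Agent.NKL.RND

set_option autoImplicit false

/-!
# NKL / NIB : the nibble theorem

Let `c = CC b s φ`, `θ = t/R` with `R ≥ R₁`, `R ≥ 1`, `2θ ≤ φ`, `θ W ≤ 1` and
`θ exp(c t) ≤ min η 1`.  Put `e_i = θ ((1 + c θ)^i - 1)`; then `e_0 = 0`,
`e_{i+1} = e_i + c (θ² + θ e_i)` and `e_i ≤ e_R ≤ θ exp(c θ R) = θ exp(c t) ≤ min η 1`.
`N₀`: from `rnd` (with `hφ`), `N₀ ≥ 1`, `N₀ ≥ t W` (so that all `k_i = (R-i) θ W/N ≤ 1`).
`Hyp` holds: `ChOk.mass` from `t mass ≤ (1-φ) cap` (`θ R = t`), `ChOk.step` from `mass ≤ 2`,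
`2θ ≤ φ`; `ChOk.m0` from `mass_nonneg`.
By induction on `i ≤ R` there is `S_i` with `Valid`, `Trk θ R i e_i`,
`|S_i| ≥ i θ total - e_i N`, `(1 - 1/(2R))^i Gam C k_i S_i ≤ Gam C k_0 ∅` and
`∀ k ∈ K, g k i (S_i) ≤ Bd k i`.
Start `S_0 = ∅`: `Phi θ v l T T ∅ = ∑_{cells} f * 1 = N mass` (`uu_top`, `N ≥ 1`), `Xi θ T T ∅ = total`
(`total_eq`), so `Trk` with error `0`.
Step: `rnd` with the functionals `g k (i+1) (nxt S ω)`; `hstep` and `|g - Ex g| ≤ θ² N` give the bound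
`Bd k (i+1)`; `(1-1/(2R))^{i+1} Gam C k_{i+1} S_{i+1} ≤ (1-1/(2R))^i Gam C k_i S_i`.
End: `k_R = 0`, `Gam C 0 S_R = #{A ∈ C | A ⊆ S_R}` (`gam_zero`), `(1 - 1/(2R))^R ≥ 1/2` (Bernoulli,
`one_add_mul_le_pow`), `Gam C k_0 ∅ = ∑ (tW/N)^|A|` (`gam_start`); `R θ = t`, `e_R N ≤ η N`.
-/

namespace Pool.Agent.NKL

open Finset Pool.Agent.ChPi

private theorem trk_zero {α V Λ : Type} [Fintype α] [DecidableEq α] [Fintype V] [DecidableEq V] [DecidableEq Λ]
    {N : ℕ} {Y : Sys α V Λ N} {θ φ W : ℝ} {R b s : ℕ} (h : Y.Hyp θ R b s φ W) : Y.Trk θ R 0 0 ∅ := by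
  have hcnt : ∀ v l, Y.cnt ∅ v l = 0 := by intro v l; simp [Sys.cnt]
  have hN : (N : ℝ) ≠ 0 := by
    have := h.N1
    positivity
  constructor
  · intro v l T _ hT
    have h1 : Y.Phi θ v l T (T - 0) ∅ = ∑ p ∈ Y.cells v l, Y.f p := by
      unfold Sys.Phi
      refine Finset.sum_congr rfl fun p _ => ?_
      rw [Finset.prod_eq_one, mul_one]
      intro v' _
      rw [hcnt, Nat.sub_zero]
      exact uu_top (h.ch _ _) hT
    rw [h1]
    unfold Sys.mass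
    rw [mul_div_cancel₀ _ hN]
    simp
  · intro T _ hT
    have h1 : Y.Xi θ T (T - 0) ∅ = Y.total := by
      rw [← total_eq]
      unfold Sys.Xi
      refine Finset.sum_congr rfl fun l _ => ?_
      rw [hcnt, Nat.sub_zero, uu_top (h.ch _ _) hT, mul_one]
    rw [h1]
    simp

private theorem exists_R (φ t W η c : ℝ) (hφ : 0 < φ) (ht : 0 < t) (hW : 0 ≤ W) (hη : 0 < η) (R₁ : ℕ) :
    ∃ R ≥ R₁, 1 ≤ R ∧ 2 * (t / R) ≤ φ ∧ t / R * W ≤ 1 ∧ t / R * Real.exp (c * t) ≤ min η 1 := by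
  have h0 : Filter.Tendsto (fun R : ℕ => t / (R : ℝ)) Filter.atTop (nhds 0) :=
    tendsto_const_div_atTop_nhds_zero_nat t
  have hd : 0 < min (φ / 2) (min (1 / (W + 1)) (min η 1 / Real.exp (c * t))) := by
    have := Real.exp_pos (c * t)
    positivity
  obtain ⟨R, hR⟩ := ((h0.eventually_lt_const hd).and
    ((Filter.eventually_ge_atTop R₁).and (Filter.eventually_ge_atTop 1))).exists
  obtain ⟨h1, h2, h3⟩ := hR
  rw [lt_min_iff, lt_min_iff] at h1
  obtain ⟨ha, hb, hc⟩ := h1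
  refine ⟨R, h2, h3, by linarith, ?_, ?_⟩
  · rw [lt_div_iff₀ (by positivity)] at hb
    have : 0 ≤ t / (R : ℝ) := by positivity
    nlinarith
  · rw [lt_div_iff₀ (Real.exp_pos _)] at hc
    exact hc.le

theorem nib (b s : ℕ) (hb : 1 ≤ b) (φ t W η : ℝ) (hφ : 0 < φ) (hφ1 : φ ≤ 1) (ht : 0 < t)
    (hW : 0 ≤ W) (hη : 0 < η) (R₁ : ℕ) :
    ∃ R ≥ R₁, 1 ≤ R ∧ ∃ N₀ : ℕ, ∀ N ≥ N₀, ∀ (α V Λ : Type) [Fintype α] [DecidableEq α]
      [Fintype V] [DecidableEq V] [DecidableEq Λ] (Y : Sys α V Λ N), Y.Ok → Fintype.card V ≤ b →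
      (∀ v, Y.cap v ≤ s) → (∀ v l, t * Y.mass v l ≤ (1 - φ) * Y.cap v) →
      (∀ i ≤ R, ∀ p, Y.f p * ∏ v, (FF (t / R) (Y.mass v (Y.line v p)) (Y.cap v) i)⁻¹ ≤ W) →
      ∀ (C : Finset (Finset α)) (K' : Type) (K : Finset K'), K.card ≤ N ^ 6 →
      ∀ (g : K' → ℕ → Finset α → ℝ) (Bd : K' → ℕ → ℝ) (c : K' → Fin N → ℝ), (∀ k x, 0 ≤ c k x) →
      (∀ k ∈ K, ∀ i < R, ∀ S, Y.Valid S → ∀ x ω ω', (∀ y, y ≠ x → ω y = ω' y) →
        |g k (i + 1) (Y.nxt S ω) - g k (i + 1) (Y.nxt S ω')| ≤ c k x) →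
      (∀ k ∈ K, (∑ x, c k x ^ 2) ^ 10 ≤ (N : ℝ) ^ 19) →
      (∀ k ∈ K, g k 0 ∅ ≤ Bd k 0) →
      (∀ i < R, ∀ S e, 0 ≤ e → e ≤ η → e ≤ 1 → Y.Valid S → Y.Trk (t / R) R i e S →
        (∀ k ∈ K, g k i S ≤ Bd k i) → ∀ k ∈ K,
        Ex (Y.law (Y.pi (t / R) i S)) (fun ω => g k (i + 1) (Y.nxt S ω)) + (t / R) ^ 2 * N
          ≤ Bd k (i + 1)) →
      ∃ S : Finset α, Y.Valid S ∧ t * Y.total - η * N ≤ S.card ∧
        ((C.filter fun A => A ⊆ S).card : ℝ) ≤ 2 * ∑ A ∈ C, (t * W / N) ^ A.card ∧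
        ∀ k ∈ K, g k R S ≤ Bd k R := by
  obtain ⟨R, hR₁, hR1, hθφ, hθW, hθe⟩ := exists_R φ t W η (CC b s φ) hφ ht hW hη R₁
  set c : ℝ := CC b s φ with hc
  have hcp : 0 < c := CC_pos b s hφ
  have hRp : (0 : ℝ) < R := by exact_mod_cast hR1
  set θ : ℝ := t / R with hθd
  have hθ : 0 < θ := by positivity
  have hRθ : (R : ℝ) * θ = t := by rw [hθd]; field_simp
  obtain ⟨N₀, hN₀⟩ := rnd b s R φ W θ hφ hθ hR1
  refine ⟨R, hR₁, hR1, max N₀ (max 1 ⌈t * W⌉₊), ?_⟩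
  intro N hN α V Λ _ _ _ _ _ Y hY hV hcap hmass hwb C K' K hK g Bd cc hcc hLip hcs hbase hstep
  have hNN₀ : N₀ ≤ N := le_trans (le_max_left _ _) hN
  have hN1 : 1 ≤ N := le_trans (le_trans (le_max_left _ _) (le_max_right _ _)) hN
  have hNtW : t * W ≤ N := by
    have h1 : ⌈t * W⌉₊ ≤ N := le_trans (le_trans (le_max_right _ _) (le_max_right _ _)) hN
    exact (Nat.le_ceil _).trans (by exact_mod_cast h1)
  have hNp : (0 : ℝ) < N := by exact_mod_cast hN1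
  have hyp : Y.Hyp θ R b s φ W := by
    refine ⟨hY, hV, hb, hN1, hcap, ?_, hθ, hθφ, hφ, hφ1, hwb, hW, hθW⟩
    intro v l
    refine ⟨hθ.le, mass_nonneg hY v l, hY.cap_pos v, hφ, hφ1, ?_, ?_⟩
    · rw [mul_comm θ, hRθ]; exact hmass v l
    · have := mass_le hY v l
      nlinarith
  -- the errors
  set e : ℕ → ℝ := fun i => θ * ((1 + c * θ) ^ i - 1) with he
  have he0 : ∀ i, 0 ≤ e i := by
    intro i
    have : 1 ≤ (1 + c * θ) ^ i := one_le_pow₀ (by nlinarith)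
    simp only [he]
    nlinarith
  have hes : ∀ i, e (i + 1) = e i + c * (θ ^ 2 + θ * e i) := by
    intro i
    simp only [he]
    ring
  have hele : ∀ i ≤ R, e i ≤ min η 1 := by
    intro i hi
    refine le_trans ?_ hθe
    simp only [he]
    have h1 : (1 + c * θ) ^ i ≤ Real.exp (c * t) := by
      calc (1 + c * θ) ^ i ≤ (1 + c * θ) ^ R := pow_le_pow_right₀ (by nlinarith) hi
        _ ≤ (Real.exp (c * θ)) ^ R := by
            refine pow_le_pow_left₀ (by positivity) ?_ R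
            have := Real.add_one_le_exp (c * θ)
            linarith
        _ = Real.exp (c * t) := by
            rw [← Real.exp_nat_mul]
            congr 1
            rw [← hRθ]; ring
    nlinarith
  have hδ : (0 : ℝ) ≤ 1 - 1 / (2 * (R : ℝ)) := by
    have h1 : 1 / (2 * (R : ℝ)) ≤ 1 := by
      rw [div_le_one (by positivity)]
      have : (1 : ℝ) ≤ R := by exact_mod_cast hR1
      linarith
    linarith
  -- induction
  have main : ∀ i : ℕ, i ≤ R → ∃ S : Finset α, Y.Valid S ∧ Y.Trk θ R i (e i) S ∧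
      i * θ * Y.total - e i * N ≤ S.card ∧
      (1 - 1 / (2 * (R : ℝ))) ^ i * Gam C (((R : ℝ) - i) * θ * W / N) S ≤ Gam C ((R : ℝ) * θ * W / N) ∅ ∧
      ∀ k ∈ K, g k i S ≤ Bd k i := by
    intro i
    induction i with
    | zero =>
      intro _
      refine ⟨∅, valid_empty Y, ?_, ?_, ?_, hbase⟩
      · have : e 0 = 0 := by simp [he]
        rw [this]
        exact trk_zero hyp
      · have : e 0 = 0 := by simp [he]
        rw [this]
        simp
      · simp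
    | succ i ih =>
      intro hi
      obtain ⟨S, hv, ht', hcard, hgam, hg⟩ := ih (by omega)
      have hiR : (i : ℝ) + 1 ≤ R := by exact_mod_cast hi
      have hk0 : 0 ≤ ((R : ℝ) - ((i + 1 : ℕ) : ℝ)) * θ * W / N := by
        push_cast
        have : 0 ≤ (R : ℝ) - (i + 1) := by linarith
        positivity
      have hk1 : ((R : ℝ) - ((i + 1 : ℕ) : ℝ)) * θ * W / N ≤ 1 := by
        rw [div_le_one hNp]
        refine le_trans ?_ hNtW
        rw [← hRθ]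
        push_cast
        have h2 : ((R : ℝ) - (i + 1)) * θ ≤ R * θ := by
          have : (0 : ℝ) ≤ i := Nat.cast_nonneg i
          nlinarith
        exact mul_le_mul_of_nonneg_right h2 hW
      have he1 : e i ≤ 1 := (hele i (by omega)).trans (min_le_right _ _)
      have heη : e i ≤ η := (hele i (by omega)).trans (min_le_left _ _)
      obtain ⟨ω, hv', ht'', hcard', hgam', hdev⟩ := hN₀ N hNN₀ α V Λ Y hyp i (by omega) S (e i) (he0 i) he1 hv ht'
        C _ hk0 hk1 K' K hK (fun k ω => g k (i + 1) (Y.nxt S ω)) cc hcc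
        (fun k hk x ω ω' hω => hLip k hk i (by omega) S hv x ω ω' hω) hcs
      refine ⟨Y.nxt S ω, hv', ?_, ?_, ?_, ?_⟩
      · rw [hes]; exact ht''
      · rw [hes]
        refine le_trans ?_ hcard'
        push_cast
        nlinarith
      · have h3 : ((R : ℝ) - ((i + 1 : ℕ) : ℝ)) * θ * W / N + θ * W / N = ((R : ℝ) - i) * θ * W / N := by
          push_cast
          field_simp
          ring
        rw [h3] at hgam'
        refine le_trans ?_ hgam
        rw [pow_succ, mul_assoc]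
        exact mul_le_mul_of_nonneg_left hgam' (pow_nonneg hδ i)
      · intro k hk
        have h4 := hdev k hk
        have h5 := hstep i (by omega) S (e i) (he0 i) heη he1 hv ht' hg k hk
        have h6 := (abs_le.mp h4).2
        linarith
  obtain ⟨S, hv, -, hcard, hgam, hg⟩ := main R le_rfl
  refine ⟨S, hv, ?_, ?_, hg⟩
  · have h1 : e R * N ≤ η * N := mul_le_mul_of_nonneg_right ((hele R le_rfl).trans (min_le_left _ _)) hNp.le
    rw [hRθ] at hcard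
    linarith
  · have h2 : ((R : ℝ) - R) * θ * W / N = 0 := by ring
    rw [h2, gam_zero, hRθ, gam_start] at hgam
    have h3 : (1 / 2 : ℝ) ≤ (1 - 1 / (2 * (R : ℝ))) ^ R := by
      have h4 : (-2 : ℝ) ≤ -(1 / (2 * (R : ℝ))) := by
        have h1 : 1 / (2 * (R : ℝ)) ≤ 1 := by
          rw [div_le_one (by positivity)]
          have : (1 : ℝ) ≤ R := by exact_mod_cast hR1
          linarith
        linarith
      have h5 := one_add_mul_le_pow h4 R
      have h6 : 1 + (R : ℝ) * -(1 / (2 * (R : ℝ))) = 1 / 2 := by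
        field_simp
        ring
      rw [h6] at h5
      refine h5.trans (le_of_eq ?_)
      congr 1
    have h7 : (0 : ℝ) ≤ ((C.filter fun A => A ⊆ S).card : ℝ) := Nat.cast_nonneg _
    nlinarith

end Pool.Agent.NKL
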