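import Pool.Agent.NKL.HYP

set_option autoImplicit false

/-!
# NKL / RAT : the proposal probabilities of round `i`

Let `S` be valid and `Trk θ R i e S`, `i ≤ R`, `0 ≤ e ≤ 1`, `κ = θ W / N`.
* `pi ≥ 0`; `pi p ≤ κ` (`Hyp.wb`); blocked cells have `pi = 0`; a row of the product space has at
  most `N` cells, so the row sums are at most `N κ = θ W ≤ 1`.
* Let `cnt S v l < cap v`.  For a cell `p` of the line which is not in `S`, `p` is not blocked iff
  no other line through `p` is full, so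
  `pi p = θ / (N FF_L) * f p * ∏_{v' ≠ v} (if cnt < cap then FF⁻¹ else 0)` with
  `FF_L = FF θ (mass v l) (cap v) i` (in `Hyp.wb`'s product split off the factor `v`:
  `Finset.mul_prod_erase`), and the product is the one in `Phi θ v l i 0 S` (`uu .. i 0 j` by
  definition).  Summing over all cells of the line gives `θ/(N FF_L) * Phi θ v l i 0 S`; the cells
  in `S` (at most `cap v ≤ s` of them) contribute to it at most `κ` each.  By `Trk` with `T = i`,
  `|Phi θ v l i 0 S - N mass| ≤ e N`.  So `|rt - θ mass/FF_L| ≤ θ e/φ + s κ` (`FF_L ≥ φ`).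
* line bound: `rt = 0` for a full line; otherwise `rt ≤ θ/(N φ) (N mass + e N) ≤ 3 θ/φ`
  (`mass ≤ 2`, drop the nonnegative correction).
-/

namespace Pool.Agent.NKL

open Finset Pool.Agent.ChPi

variable {α V Λ : Type} [Fintype α] [DecidableEq α] [Fintype V] [DecidableEq V] [DecidableEq Λ]
  {N : ℕ} {Y : Sys α V Λ N} {θ φ W e : ℝ} {R b s i : ℕ} {S : Finset α}

private theorem rat_eq (v : V) (l : Λ) (hvl : Y.cnt S v l < Y.cap v) {p : α} (hp : p ∈ Y.cells v l) :
    Y.pi θ i S p = if p ∈ S then 0 else θ / (N * FF θ (Y.mass v l) (Y.cap v) i) *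
      (Y.f p * ∏ v' ∈ univ.erase v,
        uu θ (Y.mass v' (Y.line v' p)) (Y.cap v') i 0 (Y.cnt S v' (Y.line v' p))) := by
  have hl : Y.line v p = l := (Finset.mem_filter.1 hp).2
  unfold Sys.pi
  by_cases hpS : p ∈ S
  · have hB : Y.Blk S p := Or.inl hpS
    rw [if_pos hpS, if_pos hB]
  · rw [if_neg hpS]
    by_cases hb : Y.Blk S p
    · rw [if_pos hb]
      rcases hb with hb | ⟨v', hv'⟩
      · exact absurd hb hpS
      have hne : v' ≠ v := by
        rintro rfl
        rw [hl] at hv'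
        omega
      symm
      rw [Finset.prod_eq_zero (Finset.mem_erase.2 ⟨hne, Finset.mem_univ _⟩) (uu_full _ _ _ _ _ hv'),
        mul_zero, mul_zero]
    · rw [if_neg hb]
      have h1 : ∏ v', (FF θ (Y.mass v' (Y.line v' p)) (Y.cap v') i)⁻¹
          = (FF θ (Y.mass v (Y.line v p)) (Y.cap v) i)⁻¹ *
            ∏ v' ∈ univ.erase v, (FF θ (Y.mass v' (Y.line v' p)) (Y.cap v') i)⁻¹ :=
        (Finset.mul_prod_erase univ (fun v' => (FF θ (Y.mass v' (Y.line v' p)) (Y.cap v') i)⁻¹)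
          (Finset.mem_univ v)).symm
      have h2 : ∏ v' ∈ univ.erase v,
          uu θ (Y.mass v' (Y.line v' p)) (Y.cap v') i 0 (Y.cnt S v' (Y.line v' p))
          = ∏ v' ∈ univ.erase v, (FF θ (Y.mass v' (Y.line v' p)) (Y.cap v') i)⁻¹ := by
        refine Finset.prod_congr rfl fun v' _ => ?_
        rw [uu, if_pos]
        by_contra hc
        exact hb (Or.inr ⟨v', not_lt.1 hc⟩)
      rw [h1, h2, hl]
      ring

private theorem rat_uu0 (h : Y.Hyp θ R b s φ W) (hi : i ≤ R) (v : V) (l : Λ) (j : ℕ) :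
    0 ≤ uu θ (Y.mass v l) (Y.cap v) i 0 j ∧
      uu θ (Y.mass v l) (Y.cap v) i 0 j ≤ (FF θ (Y.mass v l) (Y.cap v) i)⁻¹ := by
  have hF : 0 < FF θ (Y.mass v l) (Y.cap v) i := lt_of_lt_of_le h.φ0 (FF_ge (h.ch v l) hi)
  rw [uu]
  split_ifs
  · exact ⟨(inv_pos.2 hF).le, le_rfl⟩
  · exact ⟨le_rfl, (inv_pos.2 hF).le⟩

private theorem rat_g (h : Y.Hyp θ R b s φ W) (hi : i ≤ R) (v : V) (l : Λ) {p : α}
    (hp : p ∈ Y.cells v l) :
    0 ≤ θ / (N * FF θ (Y.mass v l) (Y.cap v) i) *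
      (Y.f p * ∏ v' ∈ univ.erase v,
        uu θ (Y.mass v' (Y.line v' p)) (Y.cap v') i 0 (Y.cnt S v' (Y.line v' p))) ∧
    θ / (N * FF θ (Y.mass v l) (Y.cap v) i) *
      (Y.f p * ∏ v' ∈ univ.erase v,
        uu θ (Y.mass v' (Y.line v' p)) (Y.cap v') i 0 (Y.cnt S v' (Y.line v' p))) ≤ θ * W / N := by
  have hl : Y.line v p = l := (Finset.mem_filter.1 hp).2
  have hN : (0 : ℝ) < N := by
    have := h.N1
    exact_mod_cast this
  have hF : 0 < FF θ (Y.mass v l) (Y.cap v) i := lt_of_lt_of_le h.φ0 (FF_ge (h.ch v l) hi)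
  have hp0 : 0 ≤ ∏ v' ∈ univ.erase v,
        uu θ (Y.mass v' (Y.line v' p)) (Y.cap v') i 0 (Y.cnt S v' (Y.line v' p)) :=
    Finset.prod_nonneg fun v' _ => (rat_uu0 h hi _ _ _).1
  have hp1 : ∏ v' ∈ univ.erase v,
        uu θ (Y.mass v' (Y.line v' p)) (Y.cap v') i 0 (Y.cnt S v' (Y.line v' p))
        ≤ ∏ v' ∈ univ.erase v, (FF θ (Y.mass v' (Y.line v' p)) (Y.cap v') i)⁻¹ :=
    Finset.prod_le_prod (fun v' _ => (rat_uu0 h hi _ _ _).1) fun v' _ => (rat_uu0 h hi _ _ _).2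
  have hc : 0 ≤ θ / (N * FF θ (Y.mass v l) (Y.cap v) i) := by
    have := h.θ0
    positivity
  have hf := h.ok.f_nonneg p
  refine ⟨mul_nonneg hc (mul_nonneg hf hp0), ?_⟩
  have h1 : ∏ v', (FF θ (Y.mass v' (Y.line v' p)) (Y.cap v') i)⁻¹
      = (FF θ (Y.mass v (Y.line v p)) (Y.cap v) i)⁻¹ *
        ∏ v' ∈ univ.erase v, (FF θ (Y.mass v' (Y.line v' p)) (Y.cap v') i)⁻¹ :=
    (Finset.mul_prod_erase univ (fun v' => (FF θ (Y.mass v' (Y.line v' p)) (Y.cap v') i)⁻¹)
      (Finset.mem_univ v)).symm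
  have hW := h.wb i hi p
  rw [h1, hl] at hW
  calc θ / (N * FF θ (Y.mass v l) (Y.cap v) i) *
      (Y.f p * ∏ v' ∈ univ.erase v,
        uu θ (Y.mass v' (Y.line v' p)) (Y.cap v') i 0 (Y.cnt S v' (Y.line v' p)))
      ≤ θ / (N * FF θ (Y.mass v l) (Y.cap v) i) *
      (Y.f p * ∏ v' ∈ univ.erase v, (FF θ (Y.mass v' (Y.line v' p)) (Y.cap v') i)⁻¹) :=
        mul_le_mul_of_nonneg_left (mul_le_mul_of_nonneg_left hp1 hf) hc
    _ = θ / N * (Y.f p * ((FF θ (Y.mass v l) (Y.cap v) i)⁻¹ *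
        ∏ v' ∈ univ.erase v, (FF θ (Y.mass v' (Y.line v' p)) (Y.cap v') i)⁻¹)) := by ring
    _ ≤ θ / N * W := mul_le_mul_of_nonneg_left hW (by have := h.θ0; positivity)
    _ = θ * W / N := by ring

/-- the rate of a line which is not full is the tracked quantity minus a small correction -/
private theorem rat_key (h : Y.Hyp θ R b s φ W) (hi : i ≤ R) (hS : Y.Valid S) (v : V) (l : Λ)
    (hvl : Y.cnt S v l < Y.cap v) :
    ∃ D : ℝ, 0 ≤ D ∧ D ≤ s * (θ * W / N) ∧ Y.rt (Y.pi θ i S) (v, l) =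
      θ / (N * FF θ (Y.mass v l) (Y.cap v) i) * Y.Phi θ v l i 0 S - D := by
  classical
  set g : α → ℝ := fun p => θ / (N * FF θ (Y.mass v l) (Y.cap v) i) *
      (Y.f p * ∏ v' ∈ univ.erase v,
        uu θ (Y.mass v' (Y.line v' p)) (Y.cap v') i 0 (Y.cnt S v' (Y.line v' p))) with hg
  refine ⟨∑ p ∈ Y.cells v l, if p ∈ S then g p else 0, ?_, ?_, ?_⟩
  · refine Finset.sum_nonneg fun p hp => ?_
    split_ifs
    · exact (rat_g h hi v l hp).1
    · exact le_rfl
  · rw [← Finset.sum_filter]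
    have hκ : 0 ≤ θ * W / N := by
      have := h.θ0
      have := h.W0
      positivity
    calc ∑ p ∈ (Y.cells v l).filter (fun p => p ∈ S), g p
        ≤ ∑ _p ∈ (Y.cells v l).filter (fun p => p ∈ S), θ * W / N :=
          Finset.sum_le_sum fun p hp => (rat_g h hi v l (Finset.mem_filter.1 hp).1).2
      _ = ((Y.cells v l).filter (fun p => p ∈ S)).card * (θ * W / N) := by
          rw [Finset.sum_const, nsmul_eq_mul]
      _ ≤ s * (θ * W / N) := by
          refine mul_le_mul_of_nonneg_right ?_ hκ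
          have h1 : (Y.cells v l).filter (fun p => p ∈ S) ⊆ S.filter (fun p => Y.line v p = l) := by
            intro p hp
            obtain ⟨hp1, hp2⟩ := Finset.mem_filter.1 hp
            exact Finset.mem_filter.2 ⟨hp2, (Finset.mem_filter.1 hp1).2⟩
          have h2 := Finset.card_le_card h1
          have h3 := hS v l
          have h4 := h.cap_le v
          unfold Sys.cnt at h3
          have h5 : ((Y.cells v l).filter (fun p => p ∈ S)).card ≤ s := by omega
          exact_mod_cast h5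
  · unfold Sys.rt Sys.Phi
    rw [Finset.mul_sum, ← Finset.sum_sub_distrib]
    refine Finset.sum_congr rfl fun p hp => ?_
    rw [rat_eq v l hvl hp]
    by_cases hpS : p ∈ S
    · rw [if_pos hpS, if_pos hpS, hg]
      ring
    · rw [if_neg hpS, if_neg hpS, sub_zero]

private theorem rat_pi0 (h : Y.Hyp θ R b s φ W) (hi : i ≤ R) (p : α) :
    0 ≤ Y.pi θ i S p ∧ Y.pi θ i S p ≤ θ * W / N := by
  have hN : (0 : ℝ) < N := by
    have := h.N1
    exact_mod_cast this
  have hθ := h.θ0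
  have hW := h.W0
  unfold Sys.pi
  split_ifs
  · exact ⟨le_rfl, by positivity⟩
  · constructor
    · refine mul_nonneg (by positivity) (mul_nonneg (h.ok.f_nonneg p)
        (Finset.prod_nonneg fun v _ => inv_nonneg.2 (h.φ0.le.trans (FF_ge (h.ch v _) hi))))
    · calc θ / N * (Y.f p * ∏ v, (FF θ (Y.mass v (Y.line v p)) (Y.cap v) i)⁻¹)
          ≤ θ / N * W := mul_le_mul_of_nonneg_left (h.wb i hi p) (by positivity)
        _ = θ * W / N := by ring

theorem pi_adm (h : Y.Hyp θ R b s φ W) (hi : i ≤ R) (he : 0 ≤ e) (he1 : e ≤ 1) (hS : Y.Valid S)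
    (ht : Y.Trk θ R i e S) : Y.Adm S (Y.pi θ i S) (θ * W / N) (3 * θ / φ) := by
  have hN : (0 : ℝ) < N := by
    have := h.N1
    exact_mod_cast this
  have hθ := h.θ0
  have hφ := h.φ0
  refine ⟨fun p => (rat_pi0 h hi p).1, fun p => (rat_pi0 h hi p).2, fun p hp => ?_, fun x => ?_,
    fun L => ?_⟩
  · unfold Sys.pi
    rw [if_pos hp]
  · have hκ : 0 ≤ θ * W / N := by
      have := h.W0
      positivity
    calc ∑ p ∈ univ.filter (fun p => Y.row p = x), Y.pi θ i S p
        ≤ ∑ _p ∈ univ.filter (fun p => Y.row p = x), θ * W / N :=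
          Finset.sum_le_sum fun p _ => (rat_pi0 h hi p).2
      _ = (univ.filter (fun p => Y.row p = x)).card * (θ * W / N) := by
          rw [Finset.sum_const, nsmul_eq_mul]
      _ ≤ N * (θ * W / N) := by
          refine mul_le_mul_of_nonneg_right ?_ hκ
          exact_mod_cast h.ok.rowlen x
      _ = θ * W := by field_simp
      _ ≤ 1 := h.θW
  · obtain ⟨v, l⟩ := L
    by_cases hvl : Y.cnt S v l < Y.cap v
    · obtain ⟨D, hD0, -, hD⟩ := rat_key h hi hS v l hvl
      have hF0 := FF_ge (h.ch v l) hi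
      have hF : 0 < FF θ (Y.mass v l) (Y.cap v) i := lt_of_lt_of_le h.φ0 hF0
      have h1 := ht.1 v l i le_rfl hi
      rw [Nat.sub_self] at h1
      have h2 := (abs_le.1 h1).2
      have h3 := mass_le h.ok v l
      have h4 : Y.Phi θ v l i 0 S ≤ 3 * N := by
        have e1 : e * N ≤ 1 * N := mul_le_mul_of_nonneg_right he1 hN.le
        have e2 : (N : ℝ) * Y.mass v l ≤ N * 2 := mul_le_mul_of_nonneg_left h3 hN.le
        linarith
      have hc : 0 ≤ θ / (N * FF θ (Y.mass v l) (Y.cap v) i) := by positivity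
      calc Y.rt (Y.pi θ i S) (v, l)
          ≤ θ / (N * FF θ (Y.mass v l) (Y.cap v) i) * Y.Phi θ v l i 0 S := by linarith
        _ ≤ θ / (N * FF θ (Y.mass v l) (Y.cap v) i) * (3 * N) := mul_le_mul_of_nonneg_left h4 hc
        _ = 3 * θ / FF θ (Y.mass v l) (Y.cap v) i := by field_simp
        _ ≤ 3 * θ / φ := div_le_div_of_nonneg_left (by positivity) hφ hF0
    · have h0 : Y.rt (Y.pi θ i S) (v, l) = 0 := by
        unfold Sys.rt
        refine Finset.sum_eq_zero fun p hp => ?_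
        have hl : Y.line v p = l := (Finset.mem_filter.1 hp).2
        unfold Sys.pi
        rw [if_pos]
        refine Or.inr ⟨v, ?_⟩
        rw [hl]
        exact not_lt.1 hvl
      rw [h0]
      positivity

theorem pi_rate (h : Y.Hyp θ R b s φ W) (hi : i ≤ R) (he : 0 ≤ e) (hS : Y.Valid S)
    (ht : Y.Trk θ R i e S) (v : V) (l : Λ) (hvl : Y.cnt S v l < Y.cap v) :
    |Y.rt (Y.pi θ i S) (v, l) - bb θ (Y.mass v l) (Y.cap v) i| ≤ θ * e / φ + s * (θ * W / N) := by
  have hN : (0 : ℝ) < N := by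
    have := h.N1
    exact_mod_cast this
  have hθ := h.θ0
  have hφ := h.φ0
  obtain ⟨D, hD0, hD1, hD⟩ := rat_key h hi hS v l hvl
  have hF0 := FF_ge (h.ch v l) hi
  have hF : 0 < FF θ (Y.mass v l) (Y.cap v) i := lt_of_lt_of_le h.φ0 hF0
  have h1 := ht.1 v l i le_rfl hi
  rw [Nat.sub_self] at h1
  have hc : 0 ≤ θ / (N * FF θ (Y.mass v l) (Y.cap v) i) := by positivity
  have h2 : θ / (N * FF θ (Y.mass v l) (Y.cap v) i) * Y.Phi θ v l i 0 S - D
      - bb θ (Y.mass v l) (Y.cap v) i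
      = θ / (N * FF θ (Y.mass v l) (Y.cap v) i) * (Y.Phi θ v l i 0 S - N * Y.mass v l) - D := by
    unfold bb
    field_simp
    ring
  rw [hD, h2]
  have h3 : |θ / (N * FF θ (Y.mass v l) (Y.cap v) i) * (Y.Phi θ v l i 0 S - N * Y.mass v l)|
      ≤ θ * e / φ := by
    rw [abs_mul, abs_of_nonneg hc]
    calc θ / (N * FF θ (Y.mass v l) (Y.cap v) i) * |Y.Phi θ v l i 0 S - N * Y.mass v l|
        ≤ θ / (N * FF θ (Y.mass v l) (Y.cap v) i) * (e * N) := mul_le_mul_of_nonneg_left h1 hc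
      _ = θ * e / FF θ (Y.mass v l) (Y.cap v) i := by field_simp
      _ ≤ θ * e / φ := div_le_div_of_nonneg_left (by positivity) hφ hF0
  rw [abs_le] at h3 ⊢
  constructor <;> linarith [h3.1, h3.2]

end Pool.Agent.NKL
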