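import Pool.Agent.NKL.DDX
import Pool.Agent.NKL.RAT
import Pool.Agent.NKL.LIS

set_option autoImplicit false

/-!
# NKL / TRD : the upper trackers `DD`

`gD_zero`: for `m = 0` the value is `∑ w cr^M ≤ a₀ N`, for `m > 0` it is `0`.
`gD_step`: `nxt S ω ⊆ S ∪ props ω` (`acc_sub`), `dd_mono`, `dd_step` with
`a = N (1+3θ)^i (a₀ + θ)`: `Ex ≤ a (1 + 2θ)`, and `θ² N ≤ θ a` as `a ≥ N θ`.
`Adm` by `pi_adm`.
`gD_lip`: `lis` (`card V ≤ b`) and `dd_lip`.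
-/

namespace Pool.Agent.NKL

open Finset Pool.Agent.ChPi

variable {α V Λ : Type} [Fintype α] [DecidableEq α] [Fintype V] [DecidableEq V] [DecidableEq Λ]
  {N : ℕ} {Y : Sys α V Λ N} {θ φ W e : ℝ} {R b s i : ℕ} {S : Finset α} {J : Type}

theorem gD_zero (X : Finset J) (Q : J → Finset α) (w cr : J → ℝ) {M m : ℕ} {a₀ : ℝ}
    (hθ : 0 ≤ θ) (ha₀ : 0 ≤ a₀) (ha : ∑ x ∈ X, w x * cr x ^ M ≤ a₀ * N) :
    DD X Q w cr M m ∅ ≤ N * (1 + 3 * θ) ^ 0 * (a₀ + θ) := by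
  have hN : (0 : ℝ) ≤ N := Nat.cast_nonneg N
  unfold DD
  rw [pow_zero, mul_one]
  rcases Nat.eq_zero_or_pos m with rfl | hm
  · have h1 : ∑ x ∈ X, w x * cr x ^ (M - 0) * (if 0 ≤ ((∅ : Finset α) ∩ Q x).card then (1 : ℝ) else 0) =
        ∑ x ∈ X, w x * cr x ^ M := by
      refine Finset.sum_congr rfl fun x _ => ?_
      rw [if_pos (Nat.zero_le _), mul_one, Nat.sub_zero]
    rw [h1]
    refine ha.trans ?_
    nlinarith [mul_nonneg hN hθ]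
  · have h1 : ∑ x ∈ X, w x * cr x ^ (M - m) * (if m ≤ ((∅ : Finset α) ∩ Q x).card then (1 : ℝ) else 0) =
        0 := by
      refine Finset.sum_eq_zero fun x _ => ?_
      rw [Finset.empty_inter, Finset.card_empty, if_neg (by omega), mul_zero]
    rw [h1]
    exact mul_nonneg hN (add_nonneg ha₀ hθ)

theorem gD_step (h : Y.Hyp θ R b s φ W) (hθ1 : θ ≤ 1 / 2) (hi : i < R) (he : 0 ≤ e)
    (he1 : e ≤ 1) (hS : Y.Valid S) (ht : Y.Trk θ R i e S) (X : Finset J) (Q : J → Finset α)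
    (w cr : J → ℝ) (hw : ∀ x ∈ X, 0 ≤ w x) (hcr : ∀ x ∈ X, 0 ≤ cr x)
    (hr : ∀ x ∈ X, ∑ q ∈ Q x, Y.pi θ i S q ≤ θ * cr x) {M m : ℕ} (hm : m ≤ M) {a₀ : ℝ}
    (ha₀ : 0 ≤ a₀) (hg : ∀ m' ≤ M, DD X Q w cr M m' S ≤ N * (1 + 3 * θ) ^ i * (a₀ + θ)) :
    Ex (Y.law (Y.pi θ i S)) (fun ω => DD X Q w cr M m (Y.nxt S ω)) + θ ^ 2 * N
      ≤ N * (1 + 3 * θ) ^ (i + 1) * (a₀ + θ) := by
  have hN : (0 : ℝ) ≤ N := Nat.cast_nonneg N
  have hθ := h.θ0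
  have adm := pi_adm h hi.le he he1 hS ht
  set A : ℝ := N * (1 + 3 * θ) ^ i * (a₀ + θ) with hA
  have hp1 : (1 : ℝ) ≤ (1 + 3 * θ) ^ i := one_le_pow₀ (by linarith)
  have hA0 : 0 ≤ A := by
    rw [hA]
    exact mul_nonneg (mul_nonneg hN (by linarith)) (by linarith)
  have hNA : (N : ℝ) * θ ≤ A := by
    rw [hA]
    have h1 : (N : ℝ) * 1 ≤ N * (1 + 3 * θ) ^ i := mul_le_mul_of_nonneg_left hp1 hN
    calc (N : ℝ) * θ = N * 1 * θ := by ring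
      _ ≤ N * (1 + 3 * θ) ^ i * θ := mul_le_mul_of_nonneg_right h1 hθ.le
      _ ≤ N * (1 + 3 * θ) ^ i * (a₀ + θ) := mul_le_mul_of_nonneg_left (by linarith)
          (mul_nonneg hN (by linarith))
  have h2 : Ex (Y.law (Y.pi θ i S)) (fun ω => DD X Q w cr M m (Y.nxt S ω)) ≤ A * (1 + 2 * θ) := by
    refine le_trans ?_ (dd_step adm X Q w cr hw hcr hθ.le hθ1 hr hm hA0 hg)
    refine L.Ex_mono (fun x o => law_nonneg adm x o) (fun ω => ?_)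
    refine dd_mono X Q w cr hw hcr M m ?_
    unfold Sys.nxt
    exact Finset.union_subset_union_right (acc_sub Y S _)
  have h3 : θ ^ 2 * N ≤ θ * A := by
    have := mul_le_mul_of_nonneg_left hNA hθ.le
    linarith
  calc Ex (Y.law (Y.pi θ i S)) (fun ω => DD X Q w cr M m (Y.nxt S ω)) + θ ^ 2 * N
      ≤ A * (1 + 2 * θ) + θ * A := add_le_add h2 h3
    _ = A * (1 + 3 * θ) := by ring
    _ = N * (1 + 3 * θ) ^ (i + 1) * (a₀ + θ) := by rw [hA, pow_succ]; ring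

theorem gD_lip (h : Y.Hyp θ R b s φ W) (X : Finset J) (Q : J → Finset α) (w cr : J → ℝ)
    (hw : ∀ x ∈ X, 0 ≤ w x) (hcr : ∀ x ∈ X, 0 ≤ cr x) (M m : ℕ) {cQ : ℝ} (hc : 0 ≤ cQ)
    (hQ : ∀ q, ∑ x ∈ X.filter (fun x => q ∈ Q x), w x * cr x ^ (M - m) ≤ cQ) (S : Finset α)
    (x : Fin N) {ω ω' : Fin N → Option α} (hω : ∀ y, y ≠ x → ω y = ω' y) :
    |DD X Q w cr M m (Y.nxt S ω) - DD X Q w cr M m (Y.nxt S ω')|
      ≤ (2 + 2 * (b * s)) * cQ := by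
  have h1 := lis Y h.cap_le S x hω
  have h2 : Fintype.card V * s ≤ b * s := Nat.mul_le_mul_right s h.cardV
  have h3 := dd_lip X Q w cr hw hcr M m hc hQ (K := 2 + 2 * (b * s)) (h1.trans (by omega))
  have h4 : (((2 + 2 * (b * s) : ℕ)) : ℝ) = 2 + 2 * (b * s) := by push_cast; ring
  rw [h4] at h3
  exact h3

end Pool.Agent.NKL
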