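import Pool.Agent.NKL.PHX
import Pool.Agent.NKL.EDefs
import Pool.Agent.NKL.REJ

set_option autoImplicit false

/-!
# NKL / WWX : expectation of `WW` after one round (lower bound)

Write `π = pi θ i S`, `X = props ω`, `U = φ⁻¹`, `κ = θ W/N`, `ρ = 3θ/φ`, `βm = 2θ/φ` and
`val_j p S' = ∏_{L ∈ B p} uu .. R (R - j) (cnt S' L)`, `0 ≤ val ≤ U^b`.
`WW (i+1) (nxt) ≥ ∑_{p ∈ S ∩ I} val_{i+1} p nxt + ∑_{p ∈ I \ S} 1[p ∈ acc S X] val_{i+1} p nxt`.
(1) First sum: `Ex_item` for each `p ∈ S ∩ I` (`T L = R`): total error at most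
`|S| (CC-1)/2 (θ²+θe)`, `|S| ≤ s N` (the rows `line vr`: at most `N` lines with at most `s` points).
(2) Second sum, `p ∈ I \ S`: `1[p ∈ acc] val_{i+1} p nxt ≥ 1[p ∈ X] val_{i+1} p S
- U^b (1[p ∈ X, p ∉ acc] + ∑_{L ∈ B p} ∑_{q ∈ cells L, q ≠ p} 1[p ∈ X] 1[q ∈ X])`: if `p` is accepted
and no other proposal lies on a line of `B p` (and `p` itself is not on them, `Fam.disj`), then
`cnt nxt L = cnt S L` for `L ∈ B p`.  Expectation: `≥ π p val_{i+1} p S - U^b π p (b ρ + b ρ)`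
(`Ex_mem`, `Ex_rej`, `Ex_mem_mem`).  `val_{i+1} p S ≥ val_i p S - b βm U^b` (each factor:
`uu_i = (1-β) uu_{i+1}(n) + β uu_{i+1}(n+1) ≤ uu_{i+1}(n) + β U`, telescoping product).
`∑_p π p ≤ N ρ`.  So the error is at most `N ρ U^b (2bρ + bβm) = 24 b/φ² U^b θ² N ≤ (CC-1) θ² N`.
(3) `∑_{p ∈ I \ S} π p val_i p S = (θ/N) (VV i i S - ∑_{p ∈ S ∩ I} ..)`: for `p ∉ S`,
`π p = (θ/N) f p ∏_v (1[cnt < cap] FF⁻¹)` and `uu .. i (i-i) = uu .. i 0`; the terms of `VV` with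
`p ∈ S ∩ I` are at most `W U^b` each, their sum times `θ/N` is at most `θ s W U^b ≤ θ² N` (`hN`).
Total error `((CC-1) s/2 + (CC-1) + 1)(θ²+θe) N ≤ (s+1) CC (θ²+θe) N`.
-/

namespace Pool.Agent.NKL

open Finset Pool.Agent.ChPi

variable {α V Λ : Type} [Fintype α] [DecidableEq α] [Fintype V] [DecidableEq V] [DecidableEq Λ]
  {N : ℕ} {Y : Sys α V Λ N} {θ φ W e : ℝ} {R b s i : ℕ} {S : Finset α}

private noncomputable def wwx_val (Y : Sys α V Λ N) (θ : ℝ) (R : ℕ) (B : Finset (V × Λ)) (j : ℕ)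
    (S : Finset α) : ℝ :=
  ∏ L ∈ B, uu θ (Y.mass L.1 L.2) (Y.cap L.1) R (R - j) (Y.cnt S L.1 L.2)

private theorem wwx_prod_le {ι : Type*} (B : Finset ι) (A : ι → ℝ) {U : ℝ} {b : ℕ} (hU : 1 ≤ U)
    (hb : B.card ≤ b) (h0 : ∀ L ∈ B, 0 ≤ A L) (h1 : ∀ L ∈ B, A L ≤ U) : ∏ L ∈ B, A L ≤ U ^ b := by
  calc ∏ L ∈ B, A L ≤ ∏ _L ∈ B, U := Finset.prod_le_prod h0 h1
    _ = U ^ B.card := by rw [Finset.prod_const]
    _ ≤ U ^ b := pow_le_pow_right₀ hU hb

private theorem wwx_tel {ι : Type*} [DecidableEq ι] (B : Finset ι) (a c : ι → ℝ) {U δ : ℝ}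
    (hU : 1 ≤ U) (hδ : 0 ≤ δ) (ha : ∀ L ∈ B, 0 ≤ a L ∧ a L ≤ U) (hc : ∀ L ∈ B, 0 ≤ c L ∧ c L ≤ U)
    (hac : ∀ L ∈ B, a L ≤ c L + δ) :
    ∏ L ∈ B, a L ≤ ∏ L ∈ B, c L + B.card * δ * U ^ B.card := by
  induction B using Finset.induction_on with
  | empty => simp
  | insert L B hL ih =>
    rw [Finset.prod_insert hL, Finset.prod_insert hL, Finset.card_insert_of_notMem hL]
    have ih' := ih (fun M hM => ha M (Finset.mem_insert_of_mem hM))
      (fun M hM => hc M (Finset.mem_insert_of_mem hM))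
      (fun M hM => hac M (Finset.mem_insert_of_mem hM))
    obtain ⟨a0, a1⟩ := ha L (Finset.mem_insert_self _ _)
    have hd := hac L (Finset.mem_insert_self _ _)
    have hc0 : 0 ≤ ∏ M ∈ B, c M :=
      Finset.prod_nonneg fun M hM => (hc M (Finset.mem_insert_of_mem hM)).1
    have hc1 : ∏ M ∈ B, c M ≤ U ^ B.card :=
      wwx_prod_le B c hU le_rfl (fun M hM => (hc M (Finset.mem_insert_of_mem hM)).1)
        (fun M hM => (hc M (Finset.mem_insert_of_mem hM)).2)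
    have hUp : 1 ≤ U ^ B.card := one_le_pow₀ hU
    have hU0 : 0 ≤ U := by linarith
    have hK : 0 ≤ (B.card : ℝ) * δ * U ^ B.card := by positivity
    have e1 := mul_le_mul_of_nonneg_left ih' a0
    have e2 := mul_le_mul_of_nonneg_right a1 hK
    have e3 := mul_le_mul_of_nonneg_right hd hc0
    have e4 := mul_le_mul_of_nonneg_left hc1 hδ
    have e5 : δ * U ^ B.card ≤ δ * (U ^ B.card * U) :=
      mul_le_mul_of_nonneg_left (le_mul_of_one_le_right (by positivity) hU) hδ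
    push_cast
    rw [pow_succ]
    calc a L * ∏ M ∈ B, a M ≤ a L * (∏ M ∈ B, c M + B.card * δ * U ^ B.card) := e1
      _ = a L * ∏ M ∈ B, c M + a L * (B.card * δ * U ^ B.card) := by ring
      _ ≤ (c L + δ) * ∏ M ∈ B, c M + U * (B.card * δ * U ^ B.card) := add_le_add e3 e2
      _ = c L * ∏ M ∈ B, c M + δ * ∏ M ∈ B, c M + B.card * δ * (U ^ B.card * U) := by ring
      _ ≤ c L * ∏ M ∈ B, c M + ((B.card : ℝ) + 1) * δ * (U ^ B.card * U) := by nlinarith [e4, e5]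

private theorem wwx_val_bd (h : Y.Hyp θ R b s φ W) {B : Finset (V × Λ)} (hB : B.card ≤ b) (j : ℕ)
    (S : Finset α) : 0 ≤ wwx_val Y θ R B j S ∧ wwx_val Y θ R B j S ≤ (φ⁻¹) ^ b := by
  have hU : 1 ≤ φ⁻¹ := (one_le_inv₀ h.φ0).2 h.φ1
  constructor
  · exact Finset.prod_nonneg fun L _ => uu_nonneg (h.ch L.1 L.2) le_rfl (Nat.sub_le _ _) _
  · exact wwx_prod_le B _ hU hB
      (fun L _ => uu_nonneg (h.ch L.1 L.2) le_rfl (Nat.sub_le _ _) _)
      (fun L _ => uu_le (h.ch L.1 L.2) le_rfl (Nat.sub_le _ _) _)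

private theorem wwx_val_step (h : Y.Hyp θ R b s φ W) (hi : i < R) {B : Finset (V × Λ)}
    (hB : B.card + 1 ≤ b) (S : Finset α) :
    wwx_val Y θ R B i S ≤ wwx_val Y θ R B (i + 1) S + b * (2 * θ / φ) * (φ⁻¹) ^ b := by
  have hφ := h.φ0
  have hθ := h.θ0
  have hU : 1 ≤ φ⁻¹ := (one_le_inv₀ h.φ0).2 h.φ1
  have hU0 : 0 ≤ φ⁻¹ := by linarith
  have hβm : 0 ≤ 2 * θ / φ := by positivity
  have h1 := wwx_tel B
    (fun L => uu θ (Y.mass L.1 L.2) (Y.cap L.1) R (R - i) (Y.cnt S L.1 L.2))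
    (fun L => uu θ (Y.mass L.1 L.2) (Y.cap L.1) R (R - (i + 1)) (Y.cnt S L.1 L.2)) hU
    (δ := 2 * θ / φ * φ⁻¹) (by positivity)
    (fun L _ => ⟨uu_nonneg (h.ch L.1 L.2) le_rfl (Nat.sub_le _ _) _,
      uu_le (h.ch L.1 L.2) le_rfl (Nat.sub_le _ _) _⟩)
    (fun L _ => ⟨uu_nonneg (h.ch L.1 L.2) le_rfl (Nat.sub_le _ _) _,
      uu_le (h.ch L.1 L.2) le_rfl (Nat.sub_le _ _) _⟩) ?_
  · unfold wwx_val
    refine h1.trans (add_le_add le_rfl ?_)
    have hc1 : (B.card : ℝ) ≤ b := by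
      have : B.card ≤ b := by omega
      exact_mod_cast this
    have hp1 : (φ⁻¹) ^ (B.card + 1) ≤ (φ⁻¹) ^ b := pow_le_pow_right₀ hU hB
    calc (B.card : ℝ) * (2 * θ / φ * φ⁻¹) * (φ⁻¹) ^ B.card
        = (B.card : ℝ) * (2 * θ / φ) * (φ⁻¹) ^ (B.card + 1) := by rw [pow_succ]; ring
      _ ≤ b * (2 * θ / φ) * (φ⁻¹) ^ b := by
          refine mul_le_mul (mul_le_mul_of_nonneg_right hc1 hβm) hp1 (by positivity) (by positivity)
  · intro L _
    have hch := h.ch L.1 L.2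
    have hb0 := bb_nonneg hch hi.le
    have hb1 : bb θ (Y.mass L.1 L.2) (Y.cap L.1) i ≤ 2 * θ / φ := by
      refine (bb_le hch hi.le).trans (div_le_div_of_nonneg_right ?_ hφ.le)
      have := mass_le h.ok L.1 L.2
      nlinarith
    have u0 := uu_nonneg hch (le_refl R) (Nat.sub_le R (i + 1)) (Y.cnt S L.1 L.2)
    have u1 := uu_le hch (le_refl R) (Nat.sub_le R (i + 1)) (Y.cnt S L.1 L.2 + 1)
    show uu θ (Y.mass L.1 L.2) (Y.cap L.1) R (R - i) (Y.cnt S L.1 L.2) ≤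
      uu θ (Y.mass L.1 L.2) (Y.cap L.1) R (R - (i + 1)) (Y.cnt S L.1 L.2) + 2 * θ / φ * φ⁻¹
    rw [uu_step θ (Y.mass L.1 L.2) (Y.cap L.1) R i hi]
    have hβU : 0 ≤ 2 * θ / φ * φ⁻¹ := by positivity
    split_ifs with hlt
    · have e1 := mul_le_mul_of_nonneg_left u1 hb0
      have e2 := mul_le_mul_of_nonneg_right hb1 hU0
      have e3 := mul_nonneg hb0 u0
      nlinarith
    · linarith

private theorem wwx_pi {p : α} (hp : p ∉ S) : Y.pi θ i S p = θ / N * (Y.f p *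
    ∏ v, uu θ (Y.mass v (Y.line v p)) (Y.cap v) i (i - i) (Y.cnt S v (Y.line v p))) := by
  unfold Sys.pi
  rw [Nat.sub_self]
  by_cases hb : Y.Blk S p
  · rw [if_pos hb]
    rcases hb with hb | ⟨v, hv⟩
    · exact absurd hb hp
    rw [Finset.prod_eq_zero (Finset.mem_univ v) (uu_full _ _ _ _ _ hv), mul_zero, mul_zero]
  · rw [if_neg hb]
    congr 2
    refine Finset.prod_congr rfl fun v _ => ?_
    rw [uu, if_pos]
    by_contra hc
    exact hb (Or.inr ⟨v, not_lt.1 hc⟩)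

private theorem wwx_sum_pi {π : α → ℝ} {κ ρ : ℝ} (hY : Y.Ok) (h : Y.Adm S π κ ρ) (hρ : 0 ≤ ρ) :
    ∑ p, π p ≤ N * ρ := by
  have h1 : ∑ p, π p = ∑ l ∈ univ.image (Y.line Y.vr), Y.rt π (Y.vr, l) := by
    unfold Sys.rt Sys.cells
    exact (Finset.sum_fiberwise_of_maps_to
      (fun p _ => Finset.mem_image_of_mem _ (Finset.mem_univ p)) _).symm
  rw [h1]
  calc ∑ l ∈ univ.image (Y.line Y.vr), Y.rt π (Y.vr, l)
      ≤ ∑ _l ∈ univ.image (Y.line Y.vr), ρ := Finset.sum_le_sum fun l _ => h.line _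
    _ = ((univ.image (Y.line Y.vr)).card : ℝ) * ρ := by rw [Finset.sum_const, nsmul_eq_mul]
    _ ≤ N * ρ := mul_le_mul_of_nonneg_right (by exact_mod_cast hY.rows) hρ

private theorem wwx_card (h : Y.Hyp θ R b s φ W) (hS : Y.Valid S) : (S.card : ℝ) ≤ s * N := by
  have h1 : S.card = ∑ l ∈ univ.image (Y.line Y.vr), Y.cnt S Y.vr l := by
    unfold Sys.cnt
    exact Finset.card_eq_sum_card_fiberwise
      (fun p _ => Finset.mem_image_of_mem _ (Finset.mem_univ p))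
  have h2 : S.card ≤ (univ.image (Y.line Y.vr)).card * s := by
    rw [h1, ← smul_eq_mul, ← Finset.sum_const]
    exact Finset.sum_le_sum fun l _ => (hS _ _).trans (h.cap_le _)
  have h3 : S.card ≤ N * s := h2.trans (Nat.mul_le_mul_right _ h.ok.rows)
  have h4 : (S.card : ℝ) ≤ ((N * s : ℕ) : ℝ) := by exact_mod_cast h3
  push_cast at h4
  linarith

private theorem wwx_point (h : Y.Hyp θ R b s φ W) {p : α} {B : Finset (V × Λ)} (hB : B.card ≤ b)
    (ω : Fin N → Option α) (j : ℕ) :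
    wwx_val Y θ R B j S * (if p ∈ Y.props ω then (1 : ℝ) else 0) +
      (-(φ⁻¹) ^ b) * ((if p ∈ Y.props ω ∧ p ∉ Y.acc S (Y.props ω) then (1 : ℝ) else 0) +
        ∑ L ∈ B, ∑ q ∈ Y.cells L.1 L.2, (if p ∈ Y.props ω then (1 : ℝ) else 0) *
          (if q ∈ Y.props ω then (1 : ℝ) else 0)) ≤
      if p ∈ Y.acc S (Y.props ω) then wwx_val Y θ R B j (Y.nxt S ω) else 0 := by
  have hP : (0 : ℝ) ≤ (φ⁻¹) ^ b := pow_nonneg (inv_nonneg.2 h.φ0.le) _
  obtain ⟨v0, v1⟩ := wwx_val_bd h hB j S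
  have w0 := (wwx_val_bd h hB j (Y.nxt S ω)).1
  have hsum0 : 0 ≤ ∑ L ∈ B, ∑ q ∈ Y.cells L.1 L.2, (if p ∈ Y.props ω then (1 : ℝ) else 0) *
      (if q ∈ Y.props ω then (1 : ℝ) else 0) :=
    Finset.sum_nonneg fun L _ => Finset.sum_nonneg fun q _ => by split_ifs <;> norm_num
  by_cases hX : p ∈ Y.props ω
  · by_cases ha : p ∈ Y.acc S (Y.props ω)
    · rw [if_pos ha, if_neg (show ¬ (p ∈ Y.props ω ∧ p ∉ Y.acc S (Y.props ω)) from
        fun hh => hh.2 ha)]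
      by_cases hq : ∃ L ∈ B, ∃ q ∈ Y.cells L.1 L.2, q ∈ Y.props ω
      · obtain ⟨L, hL, q, hqL, hqX⟩ := hq
        have hge : (1 : ℝ) ≤ ∑ L ∈ B, ∑ q ∈ Y.cells L.1 L.2,
            (if p ∈ Y.props ω then (1 : ℝ) else 0) * (if q ∈ Y.props ω then (1 : ℝ) else 0) := by
          have t1 : (1 : ℝ) ≤ ∑ q ∈ Y.cells L.1 L.2,
              (if p ∈ Y.props ω then (1 : ℝ) else 0) * (if q ∈ Y.props ω then (1 : ℝ) else 0) := by
            have := Finset.single_le_sum (f := fun q => (if p ∈ Y.props ω then (1 : ℝ) else 0) *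
              (if q ∈ Y.props ω then (1 : ℝ) else 0)) (s := Y.cells L.1 L.2)
              (fun q _ => by split_ifs <;> norm_num) hqL
            simp only [if_pos hX, if_pos hqX] at this ⊢
            linarith
          refine t1.trans (Finset.single_le_sum (f := fun L : V × Λ => ∑ q ∈ Y.cells L.1 L.2,
            (if p ∈ Y.props ω then (1 : ℝ) else 0) * (if q ∈ Y.props ω then (1 : ℝ) else 0))
            (fun L _ => Finset.sum_nonneg fun q _ => by split_ifs <;> norm_num) hL)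
        rw [if_pos hX] at hge ⊢
        nlinarith
      · have hval : wwx_val Y θ R B j (Y.nxt S ω) = wwx_val Y θ R B j S := by
          unfold wwx_val
          refine Finset.prod_congr rfl fun L hL => ?_
          congr 1
          unfold Sys.cnt
          congr 1
          ext q
          rw [Finset.mem_filter, Finset.mem_filter]
          constructor
          · rintro ⟨h1, h2⟩
            refine ⟨?_, h2⟩
            rcases Finset.mem_union.1 (show q ∈ S ∪ Y.acc S (Y.props ω) from h1) with h3 | h3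
            · exact h3
            · exact absurd ⟨L, hL, q, Finset.mem_filter.2 ⟨Finset.mem_univ _, h2⟩,
                acc_sub Y S _ h3⟩ hq
          · rintro ⟨h1, h2⟩
            exact ⟨sub_nxt Y S ω h1, h2⟩
        have hPS := mul_nonneg hP hsum0
        rw [hval]
        have e1 : (if p ∈ Y.props ω then (1 : ℝ) else 0) = 1 := if_pos hX
        generalize hSS : (∑ L ∈ B, ∑ q ∈ Y.cells L.1 L.2, (if p ∈ Y.props ω then (1 : ℝ) else 0) *
          (if q ∈ Y.props ω then (1 : ℝ) else 0)) = SS at hPS ⊢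
        rw [e1]
        nlinarith
    · rw [if_neg ha, if_pos (show p ∈ Y.props ω ∧ p ∉ Y.acc S (Y.props ω) from ⟨hX, ha⟩)]
      have hPS := mul_nonneg hP hsum0
      have e1 : (if p ∈ Y.props ω then (1 : ℝ) else 0) = 1 := if_pos hX
      generalize hSS : (∑ L ∈ B, ∑ q ∈ Y.cells L.1 L.2, (if p ∈ Y.props ω then (1 : ℝ) else 0) *
        (if q ∈ Y.props ω then (1 : ℝ) else 0)) = SS at hPS ⊢
      rw [e1]
      nlinarith
  · have ha : p ∉ Y.acc S (Y.props ω) := fun hh => hX (acc_sub Y S _ hh)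
    rw [if_neg ha, if_neg (show ¬ (p ∈ Y.props ω ∧ p ∉ Y.acc S (Y.props ω)) from
      fun hh => hX hh.1), if_neg hX]
    simp

private theorem wwx_second (h : Y.Hyp θ R b s φ W) {π : α → ℝ} {κ ρ : ℝ} (hA : Y.Adm S π κ ρ)
    {p : α} {B : Finset (V × Λ)} (hB : B.card + Fintype.card V ≤ b)
    (hd : ∀ L ∈ B, L.2 ≠ Y.line L.1 p) (hρ : 0 ≤ ρ) (j : ℕ) :
    π p * wwx_val Y θ R B j S - (φ⁻¹) ^ b * (π p * (b * ρ)) ≤
      Ex (Y.law π) (fun ω => if p ∈ Y.acc S (Y.props ω) then wwx_val Y θ R B j (Y.nxt S ω)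
        else 0) := by
  have hw : ∀ v o, 0 ≤ Y.law π v o := law_nonneg hA
  have hP : (0 : ℝ) ≤ (φ⁻¹) ^ b := pow_nonneg (inv_nonneg.2 h.φ0.le) _
  have hπ0 := hA.nonneg p
  refine le_trans ?_ (L.Ex_mono hw fun ω => wwx_point (p := p) (S := S) (B := B) h (by omega) ω j)
  rw [L.Ex_add, L.Ex_mul_left, L.Ex_mul_left, L.Ex_add, Ex_mem hA, L.Ex_sum]
  have h1 : ∑ L ∈ B, Ex (Y.law π) (fun ω => ∑ q ∈ Y.cells L.1 L.2,
      (if p ∈ Y.props ω then (1 : ℝ) else 0) * (if q ∈ Y.props ω then (1 : ℝ) else 0)) ≤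
      π p * (B.card * ρ) := by
    calc ∑ L ∈ B, Ex (Y.law π) (fun ω => ∑ q ∈ Y.cells L.1 L.2,
      (if p ∈ Y.props ω then (1 : ℝ) else 0) * (if q ∈ Y.props ω then (1 : ℝ) else 0))
        ≤ ∑ _L ∈ B, π p * ρ := by
          refine Finset.sum_le_sum fun M hM => ?_
          rw [L.Ex_sum]
          calc _ ≤ ∑ q ∈ Y.cells M.1 M.2, π p * π q := by
                refine Finset.sum_le_sum fun q hq => Ex_mem_mem hA ?_
                rintro rfl
                exact hd M hM (Finset.mem_filter.1 hq).2.symm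
            _ = π p * Y.rt π M := by rw [← Finset.mul_sum]; rfl
            _ ≤ π p * ρ := mul_le_mul_of_nonneg_left (hA.line M) hπ0
      _ = π p * (B.card * ρ) := by rw [Finset.sum_const, nsmul_eq_mul]; ring
  have h2 := Ex_rej hA p
  have h3 : (B.card : ℝ) + Fintype.card V ≤ b := by exact_mod_cast hB
  have h4 : π p * (Fintype.card V * ρ) + π p * (B.card * ρ) ≤ π p * (b * ρ) := by
    rw [← mul_add, ← add_mul]
    refine mul_le_mul_of_nonneg_left (mul_le_mul_of_nonneg_right (by linarith) hρ) hπ0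
  have h5 := mul_le_mul_of_nonneg_left ((add_le_add h2 h1).trans h4) hP
  nlinarith

theorem Ex_WW (h : Y.Hyp θ R b s φ W) (hκ : θ * W / N ≤ θ ^ 2)
    (hN : s * W * (φ⁻¹) ^ b ≤ θ * N) (hs : 1 ≤ s) (hi : i < R) (he : 0 ≤ e)
    (he1 : e ≤ 1) (hS : Y.Valid S) (ht : Y.Trk θ R i e S) {I : Finset α}
    {B : α → Finset (V × Λ)} (hF : Y.Fam s b I B) :
    Y.WW θ R I B i S + θ / N * Y.VV θ R I B i i S - (s + 1) * CC b s φ * (θ ^ 2 + θ * e) * N
      ≤ Ex (Y.law (Y.pi θ i S)) (fun ω => Y.WW θ R I B (i + 1) (Y.nxt S ω)) := by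
  have hφ := h.φ0
  have hθ := h.θ0
  have hN0 : (0 : ℝ) < N := by
    have := h.N1
    exact_mod_cast this
  have hA := pi_adm h hi.le he he1 hS ht
  have hρ0 : 0 ≤ 3 * θ / φ := by positivity
  have hU : 1 ≤ φ⁻¹ := (one_le_inv₀ hφ).2 h.φ1
  have hP : (0 : ℝ) ≤ (φ⁻¹) ^ b := pow_nonneg (inv_nonneg.2 hφ.le) _
  have hVc : 1 ≤ Fintype.card V := Fintype.card_pos_iff.2 ⟨Y.vr⟩
  have hb1 : (1 : ℝ) ≤ b := by exact_mod_cast h.b1
  set E := (CC b s φ - 1) / 2 * (θ ^ 2 + θ * e) with hE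
  have hE0 : 0 ≤ E := by
    have h1 := Ex_item h hκ hi he he1 hS ht ∅ (by simp) (fun _ => R) (fun _ _ => hi)
      (fun _ _ => le_rfl)
    exact (abs_nonneg _).trans h1
  -- decomposition
  have hdec : ∀ ω, Y.WW θ R I B (i + 1) (Y.nxt S ω) =
      ∑ p ∈ S ∩ I, wwx_val Y θ R (B p) (i + 1) (Y.nxt S ω) +
      ∑ p ∈ I \ S, (if p ∈ Y.acc S (Y.props ω) then wwx_val Y θ R (B p) (i + 1) (Y.nxt S ω)
        else 0) := by
    intro ω
    unfold Sys.WW
    have e1 : Y.nxt S ω ∩ I = (S ∩ I) ∪ (I \ S).filter fun p => p ∈ Y.acc S (Y.props ω) := by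
      ext p
      simp only [Sys.nxt, Finset.mem_inter, Finset.mem_union, Finset.mem_filter,
        Finset.mem_sdiff]
      tauto
    have e2 : Disjoint (S ∩ I) ((I \ S).filter fun p => p ∈ Y.acc S (Y.props ω)) := by
      rw [Finset.disjoint_left]
      intro p hp1 hp2
      exact (Finset.mem_sdiff.1 (Finset.mem_filter.1 hp2).1).2 (Finset.mem_inter.1 hp1).1
    rw [e1, Finset.sum_union e2, Finset.sum_filter]
    rfl
  have hEx : Ex (Y.law (Y.pi θ i S)) (fun ω => Y.WW θ R I B (i + 1) (Y.nxt S ω)) =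
      ∑ p ∈ S ∩ I, Ex (Y.law (Y.pi θ i S)) (fun ω => wwx_val Y θ R (B p) (i + 1) (Y.nxt S ω)) +
      ∑ p ∈ I \ S, Ex (Y.law (Y.pi θ i S)) (fun ω => if p ∈ Y.acc S (Y.props ω) then
        wwx_val Y θ R (B p) (i + 1) (Y.nxt S ω) else 0) := by
    simp only [hdec]
    rw [L.Ex_add, L.Ex_sum, L.Ex_sum]
  -- the points of S
  have h1 : Y.WW θ R I B i S - s * N * E ≤ ∑ p ∈ S ∩ I, Ex (Y.law (Y.pi θ i S))
      (fun ω => wwx_val Y θ R (B p) (i + 1) (Y.nxt S ω)) := by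
    have a1 : ∀ p ∈ S ∩ I, wwx_val Y θ R (B p) i S - E ≤ Ex (Y.law (Y.pi θ i S))
        (fun ω => wwx_val Y θ R (B p) (i + 1) (Y.nxt S ω)) := by
      intro p hp
      have hc := hF.cardB p (Finset.mem_inter.1 hp).2
      have h2 := Ex_item h hκ hi he he1 hS ht (B p) (by omega) (fun _ => R) (fun _ _ => hi)
        (fun _ _ => le_rfl)
      have h3 := (abs_le.1 h2).1
      unfold wwx_val
      linarith
    have a2 : ((S ∩ I).card : ℝ) ≤ s * N := by
      refine le_trans ?_ (wwx_card h hS)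
      exact_mod_cast Finset.card_le_card Finset.inter_subset_left
    calc Y.WW θ R I B i S - s * N * E ≤ Y.WW θ R I B i S - (S ∩ I).card * E := by
          have := mul_le_mul_of_nonneg_right a2 hE0
          linarith
      _ = ∑ p ∈ S ∩ I, (wwx_val Y θ R (B p) i S - E) := by
          rw [Finset.sum_sub_distrib, Finset.sum_const, nsmul_eq_mul]
          rfl
      _ ≤ _ := Finset.sum_le_sum a1
  -- the other points
  have h2 : ∑ p ∈ I \ S, (Y.pi θ i S p * wwx_val Y θ R (B p) i S) -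
      N * (3 * θ / φ) * ((φ⁻¹) ^ b * (b * (3 * θ / φ) + b * (2 * θ / φ))) ≤
      ∑ p ∈ I \ S, Ex (Y.law (Y.pi θ i S)) (fun ω => if p ∈ Y.acc S (Y.props ω) then
        wwx_val Y θ R (B p) (i + 1) (Y.nxt S ω) else 0) := by
    have a1 : ∀ p ∈ I \ S, Y.pi θ i S p * wwx_val Y θ R (B p) i S -
        Y.pi θ i S p * ((φ⁻¹) ^ b * (b * (3 * θ / φ) + b * (2 * θ / φ))) ≤
        Ex (Y.law (Y.pi θ i S)) (fun ω => if p ∈ Y.acc S (Y.props ω) then
          wwx_val Y θ R (B p) (i + 1) (Y.nxt S ω) else 0) := by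
      intro p hp
      have hpI := (Finset.mem_sdiff.1 hp).1
      have hc := hF.cardB p hpI
      have b1 := wwx_second h hA (p := p) (B := B p) hc (hF.disj p hpI) hρ0 (i + 1)
      have b2 := wwx_val_step (B := B p) h hi (by omega) S
      have b3 := mul_le_mul_of_nonneg_left b2 (hA.nonneg p)
      refine le_trans ?_ b1
      nlinarith
    have a2 : ∑ p ∈ I \ S, Y.pi θ i S p ≤ N * (3 * θ / φ) :=
      (Finset.sum_le_sum_of_subset_of_nonneg (Finset.subset_univ _)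
        (fun p _ _ => hA.nonneg p)).trans (wwx_sum_pi h.ok hA hρ0)
    have hK : 0 ≤ (φ⁻¹) ^ b * (b * (3 * θ / φ) + b * (2 * θ / φ)) := by positivity
    refine le_trans ?_ (Finset.sum_le_sum a1)
    rw [Finset.sum_sub_distrib, ← Finset.sum_mul]
    have := mul_le_mul_of_nonneg_right a2 hK
    linarith
  -- VV
  have h3 : θ / N * Y.VV θ R I B i i S - θ ^ 2 * N ≤
      ∑ p ∈ I \ S, (Y.pi θ i S p * wwx_val Y θ R (B p) i S) := by
    set g : α → ℝ := fun p => Y.f p *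
      ((∏ v, uu θ (Y.mass v (Y.line v p)) (Y.cap v) i (i - i) (Y.cnt S v (Y.line v p))) *
        wwx_val Y θ R (B p) i S) with hg
    have e1 : Y.VV θ R I B i i S = ∑ p ∈ I \ S, g p + ∑ p ∈ I ∩ S, g p := by
      rw [add_comm, Finset.sum_inter_add_sum_sdiff]
      rfl
    have e2 : ∑ p ∈ I \ S, (Y.pi θ i S p * wwx_val Y θ R (B p) i S) =
        θ / N * ∑ p ∈ I \ S, g p := by
      rw [Finset.mul_sum]
      refine Finset.sum_congr rfl fun p hp => ?_
      rw [wwx_pi (Finset.mem_sdiff.1 hp).2, hg]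
      ring
    have e3 : ∑ p ∈ I ∩ S, g p ≤ s * N * (W * (φ⁻¹) ^ b) := by
      have a1 : ∀ p ∈ I ∩ S, g p ≤ W * (φ⁻¹) ^ b := by
        intro p hp
        have hpI := (Finset.mem_inter.1 hp).1
        have hc := hF.cardB p hpI
        have hv := wwx_val_bd (B := B p) h (by omega) i S
        have c1 : Y.f p * ∏ v, uu θ (Y.mass v (Y.line v p)) (Y.cap v) i (i - i)
            (Y.cnt S v (Y.line v p)) ≤ W := by
          refine le_trans (mul_le_mul_of_nonneg_left ?_ (h.ok.f_nonneg p)) (h.wb i hi.le p)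
          refine Finset.prod_le_prod (fun v _ => uu_nonneg (h.ch v (Y.line v p)) hi.le
            (Nat.sub_le _ _) _) fun v _ => ?_
          rw [Nat.sub_self, uu]
          split_ifs
          · exact le_rfl
          · exact inv_nonneg.2 (hφ.le.trans (FF_ge (h.ch v (Y.line v p)) hi.le))
        have c0 : 0 ≤ W := h.W0
        calc g p = (Y.f p * ∏ v, uu θ (Y.mass v (Y.line v p)) (Y.cap v) i (i - i)
            (Y.cnt S v (Y.line v p))) * wwx_val Y θ R (B p) i S := by rw [hg]; ring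
          _ ≤ W * (φ⁻¹) ^ b := mul_le_mul c1 hv.2 hv.1 c0
      have a2 : ((I ∩ S).card : ℝ) ≤ s * N := by
        refine le_trans ?_ (wwx_card h hS)
        exact_mod_cast Finset.card_le_card Finset.inter_subset_right
      calc ∑ p ∈ I ∩ S, g p ≤ ∑ _p ∈ I ∩ S, W * (φ⁻¹) ^ b := Finset.sum_le_sum a1
        _ = ((I ∩ S).card : ℝ) * (W * (φ⁻¹) ^ b) := by rw [Finset.sum_const, nsmul_eq_mul]
        _ ≤ s * N * (W * (φ⁻¹) ^ b) :=
            mul_le_mul_of_nonneg_right a2 (mul_nonneg h.W0 hP)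
    have e4 : θ / N * ∑ p ∈ I ∩ S, g p ≤ θ ^ 2 * N := by
      calc θ / N * ∑ p ∈ I ∩ S, g p ≤ θ / N * (s * N * (W * (φ⁻¹) ^ b)) :=
            mul_le_mul_of_nonneg_left e3 (by positivity)
        _ = θ * (s * W * (φ⁻¹) ^ b) := by field_simp
        _ ≤ θ * (θ * N) := mul_le_mul_of_nonneg_left hN hθ.le
        _ = θ ^ 2 * N := by ring
    rw [e2, e1, mul_add]
    linarith
  have h4 : N * (3 * θ / φ) * ((φ⁻¹) ^ b * (b * (3 * θ / φ) + b * (2 * θ / φ))) ≤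
      (CC b s φ - 1) * θ ^ 2 * N := by
    have e1 : N * (3 * θ / φ) * ((φ⁻¹) ^ b * (b * (3 * θ / φ) + b * (2 * θ / φ))) =
        15 * b / φ ^ 2 * (φ⁻¹) ^ b * θ ^ 2 * N := by
      field_simp
      ring
    rw [e1]
    refine mul_le_mul_of_nonneg_right (mul_le_mul_of_nonneg_right ?_ (sq_nonneg _)) hN0.le
    have e2 : CC b s φ - 1 = (φ⁻¹) ^ b * (72 * (b : ℝ) ^ 2 / φ ^ 2) + (φ⁻¹) ^ b *
        (2 * (2 * (b : ℝ) ^ 2 + 2 * b * s + 4 * 2 ^ b / φ ^ 2 + 2 * b / φ)) := by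
      unfold CC
      ring
    have e3 : 0 ≤ (φ⁻¹) ^ b *
        (2 * (2 * (b : ℝ) ^ 2 + 2 * b * s + 4 * 2 ^ b / φ ^ 2 + 2 * b / φ)) := by positivity
    have e4 : 15 * (b : ℝ) / φ ^ 2 ≤ 72 * (b : ℝ) ^ 2 / φ ^ 2 :=
      div_le_div_of_nonneg_right (by nlinarith) (by positivity)
    have e5 := mul_le_mul_of_nonneg_left e4 hP
    rw [e2]
    nlinarith
  have h5 : s * N * E + θ ^ 2 * N + (CC b s φ - 1) * θ ^ 2 * N ≤
      (s + 1) * CC b s φ * (θ ^ 2 + θ * e) * N := by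
    have hC := CC_pos b s hφ
    have hC1 : 0 ≤ CC b s φ - 1 := by
      unfold CC
      have : 0 ≤ 2 * (φ⁻¹) ^ b * (36 * (b : ℝ) ^ 2 / φ ^ 2 + 2 * (b : ℝ) ^ 2 + 2 * b * s +
        4 * 2 ^ b / φ ^ 2 + 2 * b / φ) := by positivity
      linarith
    have hT : 0 ≤ θ ^ 2 + θ * e := by positivity
    have hθe : 0 ≤ θ * e := by positivity
    have hs0 : (0 : ℝ) ≤ s := Nat.cast_nonneg s
    have g1 : s * N * E ≤ s * CC b s φ * (θ ^ 2 + θ * e) * N := by
      rw [hE]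
      have : (CC b s φ - 1) / 2 ≤ CC b s φ := by linarith
      have := mul_le_mul_of_nonneg_right this hT
      have := mul_le_mul_of_nonneg_left this (mul_nonneg hs0 hN0.le)
      nlinarith
    have g2 : CC b s φ * θ ^ 2 * N ≤ CC b s φ * (θ ^ 2 + θ * e) * N := by
      refine mul_le_mul_of_nonneg_right (mul_le_mul_of_nonneg_left ?_ hC.le) hN0.le
      linarith
    nlinarith
  rw [hEx]
  linarith

end Pool.Agent.NKL
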