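import Pool.Agent.NKL.TRV
import Pool.Agent.NKL.WWX

set_option autoImplicit false

/-!
# NKL / TRW : the lower tracker for `WW`

`F = (∑_{p ∈ I} f p)/N`, `c = CC b s φ (θ² + θ η)`, `xV = c N`, `xW = (θ R + s + 2) c N`.
`gW_step`: `Ex_WW` gives `Ex WW(i+1) ≥ WW_i + (θ/N) VV_{i,i} - (s+1) c N` (as `e ≤ η`), and `hV`
(the tracker with `σ = -1`, `T = i` at time `i`) says `VV_{i,i}/N ≥ F - i c N`.  So
`-Ex WW(i+1) + θ² N ≤ -WW_i - θ F + θ i c N + (s+1) c N + θ² N ≤ - θ (i+1) F + i xW + xW`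
since `θ i ≤ θ R` and `θ² N ≤ c N` (`CC ≥ 1`).
`gW_lip`: `lis`, `lww` (`Valid (nxt S ω)` by `valid_nxt`).
-/

namespace Pool.Agent.NKL

open Finset Pool.Agent.ChPi

variable {α V Λ : Type} [Fintype α] [DecidableEq α] [Fintype V] [DecidableEq V] [DecidableEq Λ]
  {N : ℕ} {Y : Sys α V Λ N} {θ φ W e η : ℝ} {R b s i : ℕ} {S : Finset α}

private theorem one_le_CCw (b s : ℕ) {φ : ℝ} (hφ : 0 < φ) : 1 ≤ CC b s φ := by
  have h : 0 ≤ 2 * (φ⁻¹) ^ b * (36 * (b : ℝ) ^ 2 / φ ^ 2 + 2 * (b : ℝ) ^ 2 + 2 * b * s + 4 * 2 ^ b / φ ^ 2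
    + 2 * b / φ) := by positivity
  unfold CC
  linarith

theorem WW_zero (Y : Sys α V Λ N) (θ : ℝ) (R : ℕ) (I : Finset α) (B : α → Finset (V × Λ))
    (i : ℕ) : Y.WW θ R I B i ∅ = 0 := by
  unfold Sys.WW
  rw [Finset.empty_inter, Finset.sum_empty]

theorem gW_step (h : Y.Hyp θ R b s φ W) (hκ : θ * W / N ≤ θ ^ 2)
    (hN : s * W * (φ⁻¹) ^ b ≤ θ * N) (hs : 1 ≤ s) (hi : i < R) (he : 0 ≤ e)
    (he1 : e ≤ 1) (heη : e ≤ η) (hS : Y.Valid S) (ht : Y.Trk θ R i e S) {I : Finset α}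
    {B : α → Finset (V × Λ)} (hF : Y.Fam s b I B)
    (hV : Y.gV θ R I B (-1) i i S ≤
      bV ((∑ p ∈ I, Y.f p) / N) (-1) (CC b s φ * (θ ^ 2 + θ * η) * N) i i)
    (hW : - Y.WW θ R I B i S ≤ - (θ * i * ((∑ p ∈ I, Y.f p) / N))
      + i * ((θ * R + s + 2) * (CC b s φ * (θ ^ 2 + θ * η) * N))) :
    Ex (Y.law (Y.pi θ i S)) (fun ω => - Y.WW θ R I B (i + 1) (Y.nxt S ω)) + θ ^ 2 * N
      ≤ - (θ * ((i + 1 : ℕ) : ℝ) * ((∑ p ∈ I, Y.f p) / N))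
      + ((i + 1 : ℕ) : ℝ) * ((θ * R + s + 2) * (CC b s φ * (θ ^ 2 + θ * η) * N)) := by
  have hN0 : (0 : ℝ) < N := by
    have := h.N1
    exact_mod_cast this
  have hθ := h.θ0
  have hC := one_le_CCw b s h.φ0
  have hη : 0 ≤ η := he.trans heη
  have e1 : Ex (Y.law (Y.pi θ i S)) (fun ω => - Y.WW θ R I B (i + 1) (Y.nxt S ω)) =
      - Ex (Y.law (Y.pi θ i S)) (fun ω => Y.WW θ R I B (i + 1) (Y.nxt S ω)) := by
    rw [← neg_one_mul, ← L.Ex_mul_left]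
    congr 1
    funext ω
    ring
  have h1 := Ex_WW h hκ hN hs hi he he1 hS ht hF
  rw [e1]
  unfold Sys.gV at hV
  unfold bV at hV
  rw [if_pos le_rfl] at hV
  rw [if_pos le_rfl] at hV
  set E1 := Ex (Y.law (Y.pi θ i S)) (fun ω => Y.WW θ R I B (i + 1) (Y.nxt S ω)) with hE1
  set V0 := Y.VV θ R I B i i S with hV0
  set F := (∑ p ∈ I, Y.f p) / N with hF0
  have hx : θ ^ 2 * N ≤ CC b s φ * (θ ^ 2 + θ * η) * N := by
    have h1 : θ ^ 2 ≤ CC b s φ * (θ ^ 2 + θ * η) := by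
      have h2 : 0 ≤ θ * η := mul_nonneg hθ.le hη
      have h3 : 0 ≤ θ ^ 2 := sq_nonneg θ
      nlinarith
    exact mul_le_mul_of_nonneg_right h1 hN0.le
  have hx2 : CC b s φ * (θ ^ 2 + θ * e) * N ≤ CC b s φ * (θ ^ 2 + θ * η) * N := by
    have h10 : θ * e ≤ θ * η := mul_le_mul_of_nonneg_left heη hθ.le
    apply mul_le_mul_of_nonneg_right _ hN0.le
    apply mul_le_mul_of_nonneg_left _ (by linarith)
    linarith
  have hx0 : 0 ≤ CC b s φ * (θ ^ 2 + θ * η) * N := (by positivity : 0 ≤ θ ^ 2 * (N : ℝ)).trans hx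
  set x := CC b s φ * (θ ^ 2 + θ * η) * N with hxd
  have h3 : θ / N * V0 ≥ θ * (F - i * x) := by
    have h4 : F - i * x ≤ V0 / N := by
      have : -1 * V0 / N = - (V0 / N) := by ring
      rw [this] at hV
      linarith
    calc θ * (F - i * x) ≤ θ * (V0 / N) := mul_le_mul_of_nonneg_left h4 hθ.le
      _ = θ / N * V0 := by ring
  have h5 : (s + 1 : ℝ) * CC b s φ * (θ ^ 2 + θ * e) * N ≤ (s + 1) * x := by
    calc (s + 1 : ℝ) * CC b s φ * (θ ^ 2 + θ * e) * N = (s + 1 : ℝ) * (CC b s φ * (θ ^ 2 + θ * e) * N) := by ring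
      _ ≤ (s + 1) * x := mul_le_mul_of_nonneg_left hx2 (by positivity)
  have h6 : θ * (i : ℝ) * x ≤ θ * R * x := by
    have : (i : ℝ) ≤ R := by exact_mod_cast hi.le
    exact mul_le_mul_of_nonneg_right (mul_le_mul_of_nonneg_left this hθ.le) hx0
  push_cast
  nlinarith

theorem gW_lip (h : Y.Hyp θ R b s φ W) {I : Finset α} {B : α → Finset (V × Λ)}
    (hF : Y.Fam s b I B) (hi : i ≤ R) (hS : Y.Valid S) (x : Fin N)
    {ω ω' : Fin N → Option α} (hω : ∀ y, y ≠ x → ω y = ω' y) :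
    |(- Y.WW θ R I B i (Y.nxt S ω)) - (- Y.WW θ R I B i (Y.nxt S ω'))|
      ≤ (φ⁻¹) ^ b * (1 + 2 * b * s) * (2 + 2 * (b * s)) := by
  have hK : ((Y.nxt S ω \ Y.nxt S ω') ∪ (Y.nxt S ω' \ Y.nxt S ω)).card ≤ 2 + 2 * (b * s) := by
    have h1 := lis Y h.cap_le S x hω
    have h2 : Fintype.card V * s ≤ b * s := Nat.mul_le_mul_right _ h.cardV
    omega
  have h1 := lww h (valid_nxt Y hS ω) hK hF hi
  have h2 : (- Y.WW θ R I B i (Y.nxt S ω)) - (- Y.WW θ R I B i (Y.nxt S ω')) =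
      - (Y.WW θ R I B i (Y.nxt S ω) - Y.WW θ R I B i (Y.nxt S ω')) := by ring
  rw [h2, abs_neg]
  refine h1.trans (le_of_eq ?_)
  push_cast
  ring

end Pool.Agent.NKL
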