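import Pool.Agent.NKL.NIB2
import Pool.Agent.NKL.TRW
import Pool.Agent.NKL.TRD

set_option autoImplicit false

/-!
# NKL / NIB3 : the nibble theorem with the trackers VV, WW, DD

Choose `η₀ > 0` with `η₀ ≤ η`, `η₀ ≤ 1` and `(t+s+2) CC t 2 η₀ ≤ η`; `R₁' ≥ R₁` such that
`t/R₁' ≤ η₀` and `t/R₁' ≤ 1/2`; `nib2` with `η₀, R₁'` gives `R`, `N₀'`; put `θ = t/R ≤ η₀`.
`N₀ ≥ N₀'`, `N₀ ≥ W/θ` (so `θ W/N ≤ θ²`), `N₀ ≥ s W (φ⁻¹)^b/θ`, `N₀ ≥ 2R + M₀ + 6`, `N₀ ≥ 1`, and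
`N₀ ≥ (6 (φ⁻¹)^b b (2+2bs))^20`, `N₀ ≥ ((φ⁻¹)^b (1+2bs)(2+2bs))^20`.
Index type of the trackers: `K' = (K1 × ℕ × Bool) ⊕ (K1 ⊕ (K2 × ℕ))`, index set
`(F1 ×ˢ range (R+1) ×ˢ univ).disjSum (F1.disjSum (F2-pairs (k,m) with m ≤ M₀))`: at most
`N² (2(R+1) + 1 + (M₀+1)) ≤ N^6` elements.  For `(k,m)` with `m > M k` use the constant tracker `0`
(with bound `i θ² N`; or take `m ≤ M k` by a sigma type / filter).
`g`: `gV` (`σ = 1` or `-1`), `- WW`, `DD`;  `Bd`: as in TRV, TRW, TRD;  Lipschitz constants: constant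
functions, `∑_x c² = N c²`, `(N c²)^10 = N^10 c^20 ≤ N^19`.
`hstep`: `gV_step`, `gW_step` (its `hV` is the bound of the tracker `(k, i, σ = -1)` at time `i`),
`gD_step`.
End: `WW(R) ≥ θ R F - R (t+s+2) CC (θ² + θ η₀) N`, `θ R = t`,
`R (θ² + θ η₀) = t (θ + η₀) ≤ 2 t η₀`;  `(1+3θ)^R ≤ exp(3θR) = exp(3t)`, `θ ≤ η`.
-/

namespace Pool.Agent.NKL

open Finset Pool.Agent.ChPi

private noncomputable def nib3_sg (σ : Bool) : ℝ := if σ then 1 else -1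

private theorem nib3_sg_or (σ : Bool) : nib3_sg σ = 1 ∨ nib3_sg σ = -1 := by
  unfold nib3_sg
  cases σ
  · right; simp
  · left; simp

private theorem nib3_sum {N : ℕ} {c : ℝ} (hc : c ^ 20 ≤ (N : ℝ) ^ 9) :
    (∑ _x : Fin N, c ^ 2) ^ 10 ≤ (N : ℝ) ^ 19 := by
  rw [Finset.sum_const, Finset.card_univ, Fintype.card_fin, nsmul_eq_mul]
  have h1 : ((N : ℝ) * c ^ 2) ^ 10 = (N : ℝ) ^ 10 * c ^ 20 := by ring
  rw [h1]
  calc (N : ℝ) ^ 10 * c ^ 20 ≤ (N : ℝ) ^ 10 * (N : ℝ) ^ 9 :=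
        mul_le_mul_of_nonneg_left hc (by positivity)
    _ = (N : ℝ) ^ 19 := by ring

private theorem nib3_pow {N : ℕ} (hN : 1 ≤ N) {x : ℝ} (h : x ≤ N) : x ≤ (N : ℝ) ^ 9 := by
  have h1 : (1 : ℝ) ≤ N := by exact_mod_cast hN
  calc x ≤ (N : ℝ) := h
    _ = (N : ℝ) ^ 1 := by ring
    _ ≤ (N : ℝ) ^ 9 := pow_le_pow_right₀ h1 (by norm_num)

private theorem nib3_card {K1 K2 : Type} (F1 : Finset K1) (F2 : Finset K2) (M : K2 → ℕ)
    {N R M₀ : ℕ} (h1 : F1.card ≤ N ^ 2) (h2 : F2.card ≤ N ^ 2) (hN : 2 * R + M₀ + 6 ≤ N) :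
    ((F1 ×ˢ (range (R + 1) ×ˢ (univ : Finset Bool))).disjSum
      (F1.disjSum ((F2 ×ˢ range (M₀ + 1)).filter fun x => x.2 ≤ M x.1))).card ≤ N ^ 6 := by
  rw [Finset.card_disjSum, Finset.card_disjSum, Finset.card_product, Finset.card_product,
    Finset.card_range, Finset.card_univ, Fintype.card_bool]
  have h3 : ((F2 ×ˢ range (M₀ + 1)).filter fun x => x.2 ≤ M x.1).card ≤ F2.card * (M₀ + 1) := by
    refine (Finset.card_filter_le _ _).trans ?_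
    rw [Finset.card_product, Finset.card_range]
  have h4 : F1.card * ((R + 1) * 2) ≤ N ^ 2 * ((R + 1) * 2) := Nat.mul_le_mul_right _ h1
  have h5 : F2.card * (M₀ + 1) ≤ N ^ 2 * (M₀ + 1) := Nat.mul_le_mul_right _ h2
  have h6 : N ^ 2 * (2 * R + M₀ + 6) ≤ N ^ 2 * N := Nat.mul_le_mul_left _ hN
  have h7 : N ^ 2 * N ≤ N ^ 6 := by
    have : N ^ 2 * N = N ^ 3 := by ring
    rw [this]
    exact Nat.pow_le_pow_right (by omega) (by norm_num)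
  have h8 : N ^ 2 * ((R + 1) * 2) + (N ^ 2 + N ^ 2 * (M₀ + 1)) ≤ N ^ 2 * (2 * R + M₀ + 6) := by
    have : N ^ 2 * ((R + 1) * 2) + (N ^ 2 + N ^ 2 * (M₀ + 1)) + N ^ 2 * 2
        = N ^ 2 * (2 * R + M₀ + 6) := by ring
    omega
  omega

theorem nib3 (b s : ℕ) (hb : 1 ≤ b) (hs : 1 ≤ s) (φ t W η : ℝ) (hφ : 0 < φ) (hφ1 : φ ≤ 1)
    (ht : 0 < t) (hW : 0 ≤ W) (hη : 0 < η) (R₁ M₀ : ℕ) :
    ∃ R ≥ R₁, 1 ≤ R ∧ ∃ N₀ : ℕ, ∀ N ≥ N₀, ∀ (α V Λ : Type) [Fintype α] [DecidableEq α]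
      [Fintype V] [DecidableEq V] [DecidableEq Λ] (Y : Sys α V Λ N), Y.Ok → Fintype.card V ≤ b →
      (∀ v, Y.cap v ≤ s) → (∀ v l, t * Y.mass v l ≤ (1 - φ) * Y.cap v) →
      (∀ i ≤ R, ∀ p, Y.f p * ∏ v, (FF (t / R) (Y.mass v (Y.line v p)) (Y.cap v) i)⁻¹ ≤ W) →
      -- the weighted estimator
      ∀ (I₀ : Type) (C : Finset I₀) (A : I₀ → Finset α) (w₀ : I₀ → ℝ), (∀ x ∈ C, 0 ≤ w₀ x) →
      -- the trackers VV, WW
      ∀ (K1 : Type) (F1 : Finset K1), F1.card ≤ N ^ 2 →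
      ∀ (I : K1 → Finset α) (B : K1 → α → Finset (V × Λ)), (∀ k ∈ F1, Y.Fam s b (I k) (B k)) →
      -- the trackers DD
      ∀ (K2 J : Type) (F2 : Finset K2), F2.card ≤ N ^ 2 →
      ∀ (X : K2 → Finset J) (Q : J → Finset α) (w cr : K2 → J → ℝ) (M : K2 → ℕ) (a₀ : K2 → ℝ)
        (cQ : ℝ), (∀ k ∈ F2, M k ≤ M₀) → (∀ k ∈ F2, ∀ x ∈ X k, 0 ≤ w k x) →
      (∀ k ∈ F2, ∀ x ∈ X k, 0 ≤ cr k x) → (∀ k ∈ F2, 0 ≤ a₀ k) → 0 ≤ cQ →
      (∀ k ∈ F2, ∀ m ≤ M k, ∀ q,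
        ∑ x ∈ (X k).filter (fun x => q ∈ Q x), w k x * cr k x ^ (M k - m) ≤ cQ) →
      ((2 + 2 * (b * s)) * cQ) ^ 20 ≤ (N : ℝ) ^ 9 →
      (∀ k ∈ F2, ∑ x ∈ X k, w k x * cr k x ^ M k ≤ a₀ k * N) →
      (∀ i < R, ∀ S e, 0 ≤ e → e ≤ η → e ≤ 1 → Y.Hyp (t / R) R b s φ W → Y.Valid S →
        Y.Trk (t / R) R i e S →
        ∀ k ∈ F2, ∀ x ∈ X k, ∑ q ∈ Q x, Y.pi (t / R) i S q ≤ t / R * cr k x) →
      ∃ S : Finset α, Y.Valid S ∧ t * Y.total - η * N ≤ S.card ∧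
        ∑ x ∈ C.filter (fun x => A x ⊆ S), w₀ x
          ≤ 2 * ∑ x ∈ C, w₀ x * (t * W / N) ^ (A x).card ∧
        (∀ k ∈ F1, t * ((∑ p ∈ I k, Y.f p) / N) - η * N ≤ Y.WW (t / R) R (I k) (B k) R S) ∧
        (∀ k ∈ F2, DD (X k) Q (w k) (cr k) (M k) (M k) S ≤ N * Real.exp (3 * t) * (a₀ k + η)) := by
  have hCC := CC_pos b s hφ
  have hs0 : (0 : ℝ) ≤ s := Nat.cast_nonneg s
  have hDpos : 0 < (t + s + 2) * CC b s φ * t * 2 := by positivity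
  obtain ⟨η₀, hη₀, hη₀η, hη₀1, hη₀e⟩ : ∃ η₀ : ℝ, 0 < η₀ ∧ η₀ ≤ η ∧ η₀ ≤ 1 ∧
      (t + s + 2) * CC b s φ * t * 2 * η₀ ≤ η := by
    refine ⟨min η (min 1 (η / ((t + s + 2) * CC b s φ * t * 2))), ?_, ?_, ?_, ?_⟩
    · exact lt_min hη (lt_min one_pos (div_pos hη hDpos))
    · exact min_le_left _ _
    · exact (min_le_right _ _).trans (min_le_left _ _)
    · have h1 : min η (min 1 (η / ((t + s + 2) * CC b s φ * t * 2)))
          ≤ η / ((t + s + 2) * CC b s φ * t * 2) := (min_le_right _ _).trans (min_le_right _ _)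
      rw [le_div_iff₀ hDpos] at h1
      linarith
  obtain ⟨R, hR, hR1, hθφ, hθW, N₀', hN₀'⟩ := nib2 b s hb φ t W η₀ hφ hφ1 ht hW hη₀
    (max R₁ (max ⌈t / η₀⌉₊ ⌈2 * t⌉₊))
  have hRp : (0 : ℝ) < R := by exact_mod_cast hR1
  obtain ⟨θ, hθd⟩ : ∃ θ : ℝ, θ = t / R := ⟨_, rfl⟩
  rw [← hθd] at hθφ hθW
  simp only [← hθd] at hN₀'
  have hθ : 0 < θ := by rw [hθd]; positivity
  have hRθ : θ * R = t := by rw [hθd]; field_simp
  have hθη₀ : θ ≤ η₀ := by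
    have h1 : t / η₀ ≤ (R : ℝ) := by
      refine (Nat.le_ceil _).trans ?_
      exact_mod_cast (le_trans (le_trans (le_max_left _ _) (le_max_right _ _)) hR)
    rw [div_le_iff₀ hη₀] at h1
    rw [hθd, div_le_iff₀ hRp]
    linarith
  have hθ2 : θ ≤ 1 / 2 := by
    have h1 : 2 * t ≤ (R : ℝ) := by
      refine (Nat.le_ceil _).trans ?_
      exact_mod_cast (le_trans (le_trans (le_max_right _ _) (le_max_right _ _)) hR)
    rw [hθd, div_le_iff₀ hRp]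
    linarith
  obtain ⟨c1, hc1⟩ : ∃ c1 : ℝ, c1 = 6 * (φ⁻¹) ^ b * b * (2 + 2 * (b * s)) := ⟨_, rfl⟩
  obtain ⟨c2, hc2⟩ : ∃ c2 : ℝ, c2 = (φ⁻¹) ^ b * (1 + 2 * b * s) * (2 + 2 * (b * s)) := ⟨_, rfl⟩
  have hφi : 0 < φ⁻¹ := inv_pos.2 hφ
  have hc10 : 0 ≤ c1 := by rw [hc1]; positivity
  have hc20 : 0 ≤ c2 := by rw [hc2]; positivity
  refine ⟨R, (le_max_left _ _).trans hR, hR1,
    max N₀' (max ⌈W / θ⌉₊ (max ⌈s * W * (φ⁻¹) ^ b / θ⌉₊ (max (2 * R + M₀ + 6)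
      (max ⌈c1 ^ 20⌉₊ ⌈c2 ^ 20⌉₊)))), ?_⟩
  intro N hN α V Λ _ _ _ _ _ Y hY hV hcap hmass hwb I₀ C A w₀ hw₀ K1 F1 hF1 I B hFam K2 J F2 hF2
    X Q w cr M a₀ cQ hM hw hcr ha₀ hcQ hcQs hcQN hsum hrate
  simp only [← hθd] at hwb hrate ⊢
  have hN1 := (le_max_left _ _).trans hN
  have hN2 := (le_max_right _ _).trans hN
  have hN3 := (le_max_left _ _).trans hN2
  have hN4 := (le_max_right _ _).trans hN2
  have hN5 := (le_max_left _ _).trans hN4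
  have hN6 := (le_max_right _ _).trans hN4
  have hN7 := (le_max_left _ _).trans hN6
  have hN8 := (le_max_right _ _).trans hN6
  have hN9 := (le_max_left _ _).trans hN8
  have hN10 := (le_max_right _ _).trans hN8
  clear hN hN2 hN4 hN6 hN8
  have hNone : 1 ≤ N := by omega
  have hNp : (0 : ℝ) < N := by exact_mod_cast hNone
  have hNW : W ≤ θ * N := by
    have h1 : W / θ ≤ (N : ℝ) := (Nat.le_ceil _).trans (by exact_mod_cast hN3)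
    rw [div_le_iff₀ hθ] at h1
    linarith
  have hκ : θ * W / N ≤ θ ^ 2 := by
    rw [div_le_iff₀ hNp]
    have := mul_le_mul_of_nonneg_left hNW hθ.le
    linarith
  have hNs : s * W * (φ⁻¹) ^ b ≤ θ * N := by
    have h1 : s * W * (φ⁻¹) ^ b / θ ≤ (N : ℝ) := (Nat.le_ceil _).trans (by exact_mod_cast hN5)
    rw [div_le_iff₀ hθ] at h1
    linarith
  have hNc1 : c1 ^ 20 ≤ (N : ℝ) ^ 9 :=
    nib3_pow hNone ((Nat.le_ceil _).trans (by exact_mod_cast hN9))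
  have hNc2 : c2 ^ 20 ≤ (N : ℝ) ^ 9 :=
    nib3_pow hNone ((Nat.le_ceil _).trans (by exact_mod_cast hN10))
  have hyp : Y.Hyp θ R b s φ W := by
    refine ⟨hY, hV, hb, hNone, hcap, ?_, hθ, hθφ, hφ, hφ1, hwb, hW, hθW⟩
    intro v l
    refine ⟨hθ.le, mass_nonneg hY v l, hY.cap_pos v, hφ, hφ1, ?_, ?_⟩
    · rw [hRθ]; exact hmass v l
    · have := mass_le hY v l
      nlinarith
  -- the trackers
  obtain ⟨g, hg1, hg2, hg3⟩ : ∃ g : (K1 × ℕ × Bool) ⊕ (K1 ⊕ (K2 × ℕ)) → ℕ → Finset α → ℝ,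
      (∀ k T σ i S, g (Sum.inl (k, T, σ)) i S = Y.gV θ R (I k) (B k) (nib3_sg σ) T i S) ∧
      (∀ k i S, g (Sum.inr (Sum.inl k)) i S = - Y.WW θ R (I k) (B k) i S) ∧
      (∀ k m i S, g (Sum.inr (Sum.inr (k, m))) i S = DD (X k) Q (w k) (cr k) (M k) m S) :=
    ⟨fun x => match x with
      | Sum.inl (k, T, σ) => fun i S => Y.gV θ R (I k) (B k) (nib3_sg σ) T i S
      | Sum.inr (Sum.inl k) => fun i S => - Y.WW θ R (I k) (B k) i S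
      | Sum.inr (Sum.inr (k, m)) => fun _ S => DD (X k) Q (w k) (cr k) (M k) m S,
      fun _ _ _ _ _ => rfl, fun _ _ _ => rfl, fun _ _ _ _ => rfl⟩
  obtain ⟨Bd, hB1, hB2, hB3⟩ : ∃ Bd : (K1 × ℕ × Bool) ⊕ (K1 ⊕ (K2 × ℕ)) → ℕ → ℝ,
      (∀ k T σ i, Bd (Sum.inl (k, T, σ)) i = bV ((∑ p ∈ I k, Y.f p) / N) (nib3_sg σ)
        (CC b s φ * (θ ^ 2 + θ * η₀) * N) T i) ∧
      (∀ k (i : ℕ), Bd (Sum.inr (Sum.inl k)) i = - (θ * i * ((∑ p ∈ I k, Y.f p) / N))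
        + i * ((θ * R + s + 2) * (CC b s φ * (θ ^ 2 + θ * η₀) * N))) ∧
      (∀ k m i, Bd (Sum.inr (Sum.inr (k, m))) i = N * (1 + 3 * θ) ^ i * (a₀ k + θ)) :=
    ⟨fun x => match x with
      | Sum.inl (k, T, σ) => fun i => bV ((∑ p ∈ I k, Y.f p) / N) (nib3_sg σ)
          (CC b s φ * (θ ^ 2 + θ * η₀) * N) T i
      | Sum.inr (Sum.inl k) => fun i => - (θ * i * ((∑ p ∈ I k, Y.f p) / N))
        + i * ((θ * R + s + 2) * (CC b s φ * (θ ^ 2 + θ * η₀) * N))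
      | Sum.inr (Sum.inr (k, m)) => fun i => N * (1 + 3 * θ) ^ i * (a₀ k + θ),
      fun _ _ _ _ => rfl, fun _ _ => rfl, fun _ _ _ => rfl⟩
  obtain ⟨c, hcc1, hcc2, hcc3⟩ : ∃ c : (K1 × ℕ × Bool) ⊕ (K1 ⊕ (K2 × ℕ)) → Fin N → ℝ,
      (∀ k T σ x, c (Sum.inl (k, T, σ)) x = c1) ∧
      (∀ k x, c (Sum.inr (Sum.inl k)) x = c2) ∧
      (∀ k m x, c (Sum.inr (Sum.inr (k, m))) x = (2 + 2 * (b * s)) * cQ) :=
    ⟨fun x => match x with
      | Sum.inl (k, T, σ) => fun _ => c1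
      | Sum.inr (Sum.inl k) => fun _ => c2
      | Sum.inr (Sum.inr (k, m)) => fun _ => (2 + 2 * (b * s)) * cQ,
      fun _ _ _ _ => rfl, fun _ _ => rfl, fun _ _ _ => rfl⟩
  obtain ⟨K, hKd⟩ : ∃ K : Finset ((K1 × ℕ × Bool) ⊕ (K1 ⊕ (K2 × ℕ))),
      K = (F1 ×ˢ (range (R + 1) ×ˢ (univ : Finset Bool))).disjSum
      (F1.disjSum ((F2 ×ˢ range (M₀ + 1)).filter fun x => x.2 ≤ M x.1)) := ⟨_, rfl⟩
  have hK1 : ∀ k T σ, Sum.inl (k, T, σ) ∈ K ↔ k ∈ F1 ∧ T ≤ R := by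
    intro k T σ
    rw [hKd, Finset.inl_mem_disjSum, Finset.mem_product, Finset.mem_product, Finset.mem_range]
    constructor
    · rintro ⟨h1, h2, -⟩
      exact ⟨h1, by simpa using Nat.lt_succ_iff.1 h2⟩
    · rintro ⟨h1, h2⟩
      exact ⟨h1, Nat.lt_succ_iff.2 h2, Finset.mem_univ _⟩
  have hK2 : ∀ k, Sum.inr (Sum.inl k) ∈ K ↔ k ∈ F1 := by
    intro k
    rw [hKd, Finset.inr_mem_disjSum, Finset.inl_mem_disjSum]
  have hK3 : ∀ k m, Sum.inr (Sum.inr (k, m)) ∈ K ↔ k ∈ F2 ∧ m ≤ M k := by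
    intro k m
    rw [hKd, Finset.inr_mem_disjSum, Finset.inr_mem_disjSum, Finset.mem_filter,
      Finset.mem_product, Finset.mem_range]
    constructor
    · rintro ⟨⟨h1, -⟩, h2⟩
      exact ⟨h1, h2⟩
    · rintro ⟨h1, h2⟩
      exact ⟨⟨h1, Nat.lt_succ_iff.2 (h2.trans (hM k h1))⟩, h2⟩
  have hKcard : K.card ≤ N ^ 6 := by
    rw [hKd]
    exact nib3_card F1 F2 M hF1 hF2 hN7
  have hmain := hN₀' N hN1 α V Λ Y hY hV hcap hmass hwb I₀ C A w₀ hw₀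
    ((K1 × ℕ × Bool) ⊕ (K1 ⊕ (K2 × ℕ))) K hKcard g Bd c
  suffices hsuff : ∃ S : Finset α, Y.Valid S ∧ t * Y.total - η₀ * N ≤ S.card ∧
        ∑ x ∈ C.filter (fun x => A x ⊆ S), w₀ x
          ≤ 2 * ∑ x ∈ C, w₀ x * (t * W / N) ^ (A x).card ∧
        ∀ k ∈ K, g k R S ≤ Bd k R by
    obtain ⟨S, hSv, hScard, hSw, hSg⟩ := hsuff
    refine ⟨S, hSv, ?_, hSw, ?_, ?_⟩
    · have := mul_le_mul_of_nonneg_right hη₀η hNp.le
      linarith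
    · intro k hk
      have h1 := hSg _ ((hK2 k).2 hk)
      rw [hg2, hB2, hRθ] at h1
      have h2 : (R : ℝ) * ((t + s + 2) * (CC b s φ * (θ ^ 2 + θ * η₀) * N))
          ≤ η * N := by
        have h3 : (R : ℝ) * ((t + s + 2) * (CC b s φ * (θ ^ 2 + θ * η₀) * N))
            = ((t + s + 2) * CC b s φ * (θ * R) * (θ + η₀)) * N := by ring
        rw [h3, hRθ]
        refine mul_le_mul_of_nonneg_right ?_ hNp.le
        have h4 : (t + s + 2) * CC b s φ * t * (θ + η₀)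
            ≤ (t + s + 2) * CC b s φ * t * (2 * η₀) :=
          mul_le_mul_of_nonneg_left (by linarith) (by positivity)
        have h5 : (t + s + 2) * CC b s φ * t * (2 * η₀) = (t + s + 2) * CC b s φ * t * 2 * η₀ := by
          ring
        linarith
      linarith
    · intro k hk
      have h1 := hSg _ ((hK3 k (M k)).2 ⟨hk, le_rfl⟩)
      rw [hg3, hB3] at h1
      refine h1.trans ?_
      have h2 : (1 + 3 * θ) ^ R ≤ Real.exp (3 * t) := by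
        have h3 : (1 + 3 * θ) ^ R ≤ (Real.exp (3 * θ)) ^ R := by
          refine pow_le_pow_left₀ (by positivity) ?_ R
          have := Real.add_one_le_exp (3 * θ)
          linarith
        refine h3.trans (le_of_eq ?_)
        rw [← Real.exp_nat_mul]
        congr 1
        rw [← hRθ]
        ring
      have h3 : a₀ k + θ ≤ a₀ k + η := by linarith
      have h4 : 0 ≤ a₀ k + θ := by have := ha₀ k hk; linarith
      have h5 : (N : ℝ) * (1 + 3 * θ) ^ R ≤ N * Real.exp (3 * t) :=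
        mul_le_mul_of_nonneg_left h2 hNp.le
      exact mul_le_mul h5 h3 h4 (by positivity)
  refine hmain ?_ ?_ ?_ ?_ ?_
  · rintro (⟨k, T, σ⟩ | k | ⟨k, m⟩) x
    · rw [hcc1]; exact hc10
    · rw [hcc2]; exact hc20
    · rw [hcc3]; positivity
  · rintro (⟨k, T, σ⟩ | k | ⟨k, m⟩) hk i hi S hS x ω ω' hω
    · rw [hg1, hg1, hcc1, hc1]
      obtain ⟨hk1, hk2⟩ := (hK1 k T σ).1 hk
      exact gV_lip hyp (hFam k hk1) hk2 (nib3_sg_or σ) (i + 1) S x hω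
    · rw [hg2, hg2, hcc2, hc2]
      exact gW_lip hyp (hFam k ((hK2 k).1 hk)) hi hS x hω
    · rw [hg3, hg3, hcc3]
      obtain ⟨hk1, hk2⟩ := (hK3 k m).1 hk
      exact gD_lip hyp (X k) Q (w k) (cr k) (hw k hk1) (hcr k hk1) (M k) m hcQ
        (hcQs k hk1 m hk2) S x hω
  · rintro (⟨k, T, σ⟩ | k | ⟨k, m⟩) hk
    · simp only [hcc1]
      exact nib3_sum hNc1
    · simp only [hcc2]
      exact nib3_sum hNc2
    · simp only [hcc3]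
      exact nib3_sum hcQN
  · rintro (⟨k, T, σ⟩ | k | ⟨k, m⟩) hk
    · rw [hg1, hB1]
      obtain ⟨hk1, hk2⟩ := (hK1 k T σ).1 hk
      exact gV_zero hyp hk2 _ _
    · rw [hg2, hB2, WW_zero]
      simp
    · rw [hg3, hB3]
      obtain ⟨hk1, hk2⟩ := (hK3 k m).1 hk
      exact gD_zero (X k) Q (w k) (cr k) hθ.le (ha₀ k hk1) (hsum k hk1)
  · intro i hi S e he0 heη he1 hyp' hS htrk hall
    rintro (⟨k, T, σ⟩ | k | ⟨k, m⟩) hk
    · simp only [hg1]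
      rw [hB1]
      obtain ⟨hk1, hk2⟩ := (hK1 k T σ).1 hk
      have h1 := hall _ hk
      rw [hg1, hB1] at h1
      exact gV_step hyp' hκ hi he0 he1 heη hS htrk (hFam k hk1) hk2 (nib3_sg_or σ) h1
    · simp only [hg2]
      rw [hB2]
      have hk1 := (hK2 k).1 hk
      have h1 := hall _ hk
      rw [hg2, hB2] at h1
      have h2 := hall _ ((hK1 k i false).2 ⟨hk1, hi.le⟩)
      rw [hg1, hB1] at h2
      have h3 : nib3_sg false = -1 := by simp [nib3_sg]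
      rw [h3] at h2
      exact gW_step hyp' hκ hNs hs hi he0 he1 heη hS htrk (hFam k hk1) h2 h1
    · simp only [hg3]
      rw [hB3]
      obtain ⟨hk1, hk2⟩ := (hK3 k m).1 hk
      refine gD_step hyp' hθ2 hi he0 he1 hS htrk (X k) Q (w k) (cr k) (hw k hk1) (hcr k hk1) ?_ hk2
        (ha₀ k hk1) ?_
      · exact hrate i hi S e he0 (heη.trans hη₀η) he1 hyp' hS htrk k hk1
      · intro m' hm'
        have h1 := hall _ ((hK3 k m').2 ⟨hk1, hm'⟩)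
        rw [hg3, hB3] at h1
        exact h1

end Pool.Agent.NKL
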