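import Pool.Agent.NKL.RAT
import Pool.Agent.NKL.STP

set_option autoImplicit false

/-!
# NKL / PHX : expectation of the tracked quantities after one round

Let `ξ = θ e/φ + s κ`, `κ = θ W/N ≤ θ²`, `ρ = 3θ/φ`, `βm = 2θ/φ` (`bb_le`, `mass ≤ 2`; `βm ≤ 1` by
`θφ`).  By `pi_adm`, `pi_rate` the assumptions of `stp` hold for every set of lines.
`err_le`: `(φ⁻¹)^b (4b²ρ² + 2b²κ + 2bξ + 2^b βm²) ≤ (CC b s φ - 1)/2 * (θ² + θ e)`.
`Ex_Phi`: for every cell `p` of `(v,l)` apply `stp` to `B = (univ.erase v).image (v' ↦ (v', line v' p))`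
(injective, so the product over `B` is the product in `Phi`; `|B| ≤ card V ≤ b`), `T` constant;
multiply by `f p`, sum over the cells: `∑ f p ≤ 2N`.
`Ex_Xi`: the same with `B = {(vr, l)}`, weights `mass vr l ≤ 2`, at most `N` lines.
-/

namespace Pool.Agent.NKL

open Finset Pool.Agent.ChPi

variable {α V Λ : Type} [Fintype α] [DecidableEq α] [Fintype V] [DecidableEq V] [DecidableEq Λ]
  {N : ℕ} {Y : Sys α V Λ N} {θ φ W e : ℝ} {R b s i : ℕ} {S : Finset α}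

private theorem mass_le_two (h : Y.Hyp θ R b s φ W) (v : V) (l : Λ) : Y.mass v l ≤ 2 := by
  have hN : (0 : ℝ) < N := by exact_mod_cast h.N1
  unfold Sys.mass
  rw [div_le_iff₀ hN]
  calc ∑ p ∈ Y.cells v l, Y.f p ≤ ∑ _p ∈ Y.cells v l, (2 : ℝ) :=
        Finset.sum_le_sum fun p _ => h.ok.f_le p
    _ = 2 * ((Y.cells v l).card : ℝ) := by rw [Finset.sum_const, nsmul_eq_mul, mul_comm]
    _ ≤ 2 * N := by
        have : (Y.cells v l).card ≤ N := h.ok.len v l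
        have h2 : ((Y.cells v l).card : ℝ) ≤ N := by exact_mod_cast this
        linarith

private theorem sum_f_le (h : Y.Hyp θ R b s φ W) (v : V) (l : Λ) :
    ∑ p ∈ Y.cells v l, Y.f p ≤ 2 * N := by
  have hN : (0 : ℝ) < N := by exact_mod_cast h.N1
  have := mass_le_two h v l
  unfold Sys.mass at this
  rwa [div_le_iff₀ hN] at this

private theorem mass_nonneg' (h : Y.Hyp θ R b s φ W) (v : V) (l : Λ) : 0 ≤ Y.mass v l := by
  unfold Sys.mass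
  exact div_nonneg (Finset.sum_nonneg fun p _ => h.ok.f_nonneg p) (Nat.cast_nonneg _)

theorem err_le (h : Y.Hyp θ R b s φ W) (hκ : θ * W / N ≤ θ ^ 2) (he : 0 ≤ e) :
    (φ⁻¹) ^ b * (4 * (b : ℝ) ^ 2 * (3 * θ / φ) ^ 2 + 2 * (b : ℝ) ^ 2 * (θ * W / N)
      + 2 * b * (θ * e / φ + s * (θ * W / N)) + 2 ^ b * (2 * θ / φ) ^ 2)
      ≤ (CC b s φ - 1) / 2 * (θ ^ 2 + θ * e) := by
  have hφ := h.φ0
  have hθ := h.θ0
  have hb : (0 : ℝ) ≤ b := Nat.cast_nonneg b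
  have hs : (0 : ℝ) ≤ s := Nat.cast_nonneg s
  have hP : (0 : ℝ) ≤ (φ⁻¹) ^ b := pow_nonneg (inv_nonneg.2 hφ.le) _
  have hCC : (CC b s φ - 1) / 2 * (θ ^ 2 + θ * e) =
      (φ⁻¹) ^ b * ((36 * (b : ℝ) ^ 2 / φ ^ 2 + 2 * (b : ℝ) ^ 2 + 2 * b * s + 4 * 2 ^ b / φ ^ 2
        + 2 * b / φ) * (θ ^ 2 + θ * e)) := by
    unfold CC
    ring
  rw [hCC]
  refine mul_le_mul_of_nonneg_left ?_ hP
  have hk1 : 2 * (b : ℝ) ^ 2 * (θ * W / N) ≤ 2 * (b : ℝ) ^ 2 * θ ^ 2 :=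
    mul_le_mul_of_nonneg_left hκ (by positivity)
  have hk2 : 2 * (b : ℝ) * (s * (θ * W / N)) ≤ 2 * b * s * θ ^ 2 := by
    have : (s : ℝ) * (θ * W / N) ≤ s * θ ^ 2 := mul_le_mul_of_nonneg_left hκ hs
    have := mul_le_mul_of_nonneg_left this (by positivity : (0 : ℝ) ≤ 2 * b)
    linarith
  have e1 : 4 * (b : ℝ) ^ 2 * (3 * θ / φ) ^ 2 = 36 * (b : ℝ) ^ 2 / φ ^ 2 * θ ^ 2 := by
    field_simp
    ring
  have e2 : (2 : ℝ) ^ b * (2 * θ / φ) ^ 2 = 4 * 2 ^ b / φ ^ 2 * θ ^ 2 := by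
    field_simp
    ring
  have e3 : 2 * (b : ℝ) * (θ * e / φ) = 2 * b / φ * (θ * e) := by
    field_simp
  have hθe : 0 ≤ θ * e := mul_nonneg hθ.le he
  have hθ2 : 0 ≤ θ ^ 2 := sq_nonneg _
  have p1 : 0 ≤ (36 * (b : ℝ) ^ 2 / φ ^ 2 + 2 * (b : ℝ) ^ 2 + 2 * b * s + 4 * 2 ^ b / φ ^ 2)
      * (θ * e) := mul_nonneg (by positivity) hθe
  have p2 : 0 ≤ 2 * (b : ℝ) / φ * θ ^ 2 := mul_nonneg (by positivity) hθ2
  rw [e1, e2]
  have e4 : 2 * (b : ℝ) * (θ * e / φ + s * (θ * W / N)) =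
      2 * b / φ * (θ * e) + 2 * b * (s * (θ * W / N)) := by
    rw [mul_add, e3]
  rw [e4]
  nlinarith [hk1, hk2, p1, p2]

/-- general form of the one-round estimate, for products over arbitrary sets of at most `b` lines -/
theorem Ex_item (h : Y.Hyp θ R b s φ W) (hκ : θ * W / N ≤ θ ^ 2) (hi : i < R) (he : 0 ≤ e)
    (he1 : e ≤ 1) (hS : Y.Valid S) (ht : Y.Trk θ R i e S) (B : Finset (V × Λ)) (hB : B.card ≤ b)
    (T : V × Λ → ℕ) (hi' : ∀ L ∈ B, i < T L) (hT : ∀ L ∈ B, T L ≤ R) :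
    |Ex (Y.law (Y.pi θ i S)) (fun ω => ∏ L ∈ B, uu θ (Y.mass L.1 L.2) (Y.cap L.1) (T L)
        (T L - (i + 1)) (Y.cnt (Y.nxt S ω) L.1 L.2))
      - ∏ L ∈ B, uu θ (Y.mass L.1 L.2) (Y.cap L.1) (T L) (T L - i) (Y.cnt S L.1 L.2)|
    ≤ (CC b s φ - 1) / 2 * (θ ^ 2 + θ * e) := by
  have hφ := h.φ0
  have hθ := h.θ0
  have hκ0 : 0 ≤ θ * W / N := div_nonneg (mul_nonneg hθ.le h.W0) (Nat.cast_nonneg _)
  have hs : (0 : ℝ) ≤ s := Nat.cast_nonneg s
  refine (stp h.ok (pi_adm h hi.le he he1 hS ht) hκ0 (by positivity) hφ h.φ1 h.cardV B hB T hi' hT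
    (fun L _ => h.ch L.1 L.2) (ξ := θ * e / φ + s * (θ * W / N)) (βm := 2 * θ / φ) (by positivity)
    (fun L _ hvl => pi_rate h hi.le he hS ht L.1 L.2 hvl) ?_ (by positivity) ?_).trans
    (err_le h hκ he)
  · intro L _
    refine (bb_le (h.ch L.1 L.2) hi.le).trans ?_
    have := mass_le_two h L.1 L.2
    exact div_le_div_of_nonneg_right (by nlinarith) hφ.le
  · rw [div_le_one hφ]
    exact h.θφ

theorem Ex_Phi (h : Y.Hyp θ R b s φ W) (hκ : θ * W / N ≤ θ ^ 2) (hi : i < R) (he : 0 ≤ e)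
    (he1 : e ≤ 1) (hS : Y.Valid S) (ht : Y.Trk θ R i e S) (v : V) (l : Λ) {T : ℕ} (hiT : i < T)
    (hT : T ≤ R) :
    |Ex (Y.law (Y.pi θ i S)) (fun ω => Y.Phi θ v l T (T - (i + 1)) (Y.nxt S ω))
      - Y.Phi θ v l T (T - i) S| ≤ (CC b s φ - 1) * (θ ^ 2 + θ * e) * N := by
  set E := (CC b s φ - 1) / 2 * (θ ^ 2 + θ * e) with hE
  have key : ∀ p : α, |Ex (Y.law (Y.pi θ i S)) (fun ω => ∏ v' ∈ univ.erase v,
        uu θ (Y.mass v' (Y.line v' p)) (Y.cap v') T (T - (i + 1))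
          (Y.cnt (Y.nxt S ω) v' (Y.line v' p)))
      - ∏ v' ∈ univ.erase v,
        uu θ (Y.mass v' (Y.line v' p)) (Y.cap v') T (T - i) (Y.cnt S v' (Y.line v' p))| ≤ E := by
    intro p
    have hinj : Set.InjOn (fun v' : V => (v', Y.line v' p)) (univ.erase v : Finset V) := by
      intro a _ c _ hac
      exact (Prod.mk.inj hac).1
    have hcard : ((univ.erase v).image fun v' : V => (v', Y.line v' p)).card ≤ b := by
      refine Finset.card_image_le.trans ((Finset.card_erase_le).trans ?_)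
      exact h.cardV
    have h1 := Ex_item h hκ hi he he1 hS ht ((univ.erase v).image fun v' : V => (v', Y.line v' p))
      hcard (fun _ => T) (fun _ _ => hiT) (fun _ _ => hT)
    simp only [Finset.prod_image hinj] at h1
    exact h1
  have hEx : Ex (Y.law (Y.pi θ i S)) (fun ω => Y.Phi θ v l T (T - (i + 1)) (Y.nxt S ω)) =
      ∑ p ∈ Y.cells v l, Y.f p * Ex (Y.law (Y.pi θ i S)) (fun ω => ∏ v' ∈ univ.erase v,
        uu θ (Y.mass v' (Y.line v' p)) (Y.cap v') T (T - (i + 1))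
          (Y.cnt (Y.nxt S ω) v' (Y.line v' p))) := by
    unfold Sys.Phi
    rw [L.Ex_sum]
    exact Finset.sum_congr rfl fun p _ => L.Ex_mul_left _ _ _
  rw [hEx]
  unfold Sys.Phi
  rw [← Finset.sum_sub_distrib]
  have hE0 : 0 ≤ E := by
    by_contra hneg
    push Not at hneg
    by_cases hα : ∃ p : α, p ∈ Y.cells v l
    · obtain ⟨p, _⟩ := hα
      exact absurd ((abs_nonneg _).trans (key p)) (not_le.2 hneg)
    · have h1 := Ex_item h hκ hi he he1 hS ht ∅ (by simp) (fun _ => T) (fun _ _ => hiT)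
        (fun _ _ => hT)
      exact absurd ((abs_nonneg _).trans h1) (not_le.2 hneg)
  calc |∑ p ∈ Y.cells v l, (Y.f p * Ex (Y.law (Y.pi θ i S)) (fun ω => ∏ v' ∈ univ.erase v,
        uu θ (Y.mass v' (Y.line v' p)) (Y.cap v') T (T - (i + 1))
          (Y.cnt (Y.nxt S ω) v' (Y.line v' p)))
        - Y.f p * ∏ v' ∈ univ.erase v,
        uu θ (Y.mass v' (Y.line v' p)) (Y.cap v') T (T - i) (Y.cnt S v' (Y.line v' p)))|
      ≤ ∑ p ∈ Y.cells v l, Y.f p * E := by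
        refine (Finset.abs_sum_le_sum_abs _ _).trans (Finset.sum_le_sum fun p _ => ?_)
        rw [← mul_sub, abs_mul, abs_of_nonneg (h.ok.f_nonneg p)]
        exact mul_le_mul_of_nonneg_left (key p) (h.ok.f_nonneg p)
    _ = (∑ p ∈ Y.cells v l, Y.f p) * E := by rw [Finset.sum_mul]
    _ ≤ (2 * N) * E := mul_le_mul_of_nonneg_right (sum_f_le h v l) hE0
    _ = (CC b s φ - 1) * (θ ^ 2 + θ * e) * N := by rw [hE]; ring

theorem Ex_Xi (h : Y.Hyp θ R b s φ W) (hκ : θ * W / N ≤ θ ^ 2) (hi : i < R) (he : 0 ≤ e)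
    (he1 : e ≤ 1) (hS : Y.Valid S) (ht : Y.Trk θ R i e S) {T : ℕ} (hiT : i < T)
    (hT : T ≤ R) :
    |Ex (Y.law (Y.pi θ i S)) (fun ω => Y.Xi θ T (T - (i + 1)) (Y.nxt S ω))
      - Y.Xi θ T (T - i) S| ≤ (CC b s φ - 1) * (θ ^ 2 + θ * e) * N := by
  set E := (CC b s φ - 1) / 2 * (θ ^ 2 + θ * e) with hE
  have hE0 : 0 ≤ E := by
    have h1 := Ex_item h hκ hi he he1 hS ht ∅ (by simp) (fun _ => T) (fun _ _ => hiT)
      (fun _ _ => hT)
    exact (abs_nonneg _).trans h1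
  have key : ∀ l : Λ, |Ex (Y.law (Y.pi θ i S)) (fun ω =>
        uu θ (Y.mass Y.vr l) (Y.cap Y.vr) T (T - (i + 1)) (Y.cnt (Y.nxt S ω) Y.vr l))
      - uu θ (Y.mass Y.vr l) (Y.cap Y.vr) T (T - i) (Y.cnt S Y.vr l)| ≤ E := by
    intro l
    have h1 := Ex_item h hκ hi he he1 hS ht {(Y.vr, l)} (by simpa using h.b1) (fun _ => T)
      (fun _ _ => hiT) (fun _ _ => hT)
    simpa only [Finset.prod_singleton] using h1
  have hEx : Ex (Y.law (Y.pi θ i S)) (fun ω => Y.Xi θ T (T - (i + 1)) (Y.nxt S ω)) =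
      ∑ l ∈ univ.image (Y.line Y.vr), Y.mass Y.vr l * Ex (Y.law (Y.pi θ i S)) (fun ω =>
        uu θ (Y.mass Y.vr l) (Y.cap Y.vr) T (T - (i + 1)) (Y.cnt (Y.nxt S ω) Y.vr l)) := by
    unfold Sys.Xi
    rw [L.Ex_sum]
    exact Finset.sum_congr rfl fun p _ => L.Ex_mul_left _ _ _
  rw [hEx]
  unfold Sys.Xi
  rw [← Finset.sum_sub_distrib]
  calc |∑ l ∈ univ.image (Y.line Y.vr), (Y.mass Y.vr l * Ex (Y.law (Y.pi θ i S)) (fun ω =>
        uu θ (Y.mass Y.vr l) (Y.cap Y.vr) T (T - (i + 1)) (Y.cnt (Y.nxt S ω) Y.vr l))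
        - Y.mass Y.vr l * uu θ (Y.mass Y.vr l) (Y.cap Y.vr) T (T - i) (Y.cnt S Y.vr l))|
      ≤ ∑ _l ∈ univ.image (Y.line Y.vr), 2 * E := by
        refine (Finset.abs_sum_le_sum_abs _ _).trans (Finset.sum_le_sum fun l _ => ?_)
        rw [← mul_sub, abs_mul, abs_of_nonneg (mass_nonneg' h Y.vr l)]
        exact mul_le_mul (mass_le_two h Y.vr l) (key l) (abs_nonneg _) (by norm_num)
    _ = ((univ.image (Y.line Y.vr)).card : ℝ) * (2 * E) := by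
        rw [Finset.sum_const, nsmul_eq_mul]
    _ ≤ N * (2 * E) := by
        refine mul_le_mul_of_nonneg_right ?_ (by linarith)
        exact_mod_cast h.ok.rows
    _ = (CC b s φ - 1) * (θ ^ 2 + θ * e) * N := by rw [hE]; ring

end Pool.Agent.NKL
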