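import Pool.Agent.NKL.PRP

set_option autoImplicit false

/-!
# NKL / PRK : products over several cells
-/

namespace Pool.Agent.NKL

open Finset Pool.Agent.ChPi

variable {α V Λ : Type} [Fintype α] [DecidableEq α] [Fintype V] [DecidableEq V] [DecidableEq Λ]
  {N : ℕ} {Y : Sys α V Λ N} {S : Finset α} {π : α → ℝ} {κ ρ : ℝ}

private theorem one_coord (h : Y.Adm S π κ ρ) {k : ℝ} (hk : 0 ≤ k) (x : Fin N) (A : Finset α)
    (hA : ∀ q ∈ A, Y.row q = x) :
    ∑ o, Y.law π x o * ∏ q ∈ A, (if o = some q then (1 : ℝ) else k) ≤ ∏ q ∈ A, (π q + k) := by
  classical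
  induction A using Finset.induction_on with
  | empty =>
    simp only [Finset.prod_empty, mul_one]
    exact le_of_eq (law_sum Y π x)
  | insert a A ha ih =>
    have ih' := ih (fun q hq => hA q (Finset.mem_insert_of_mem hq))
    have hrow : Y.row a = x := hA a (Finset.mem_insert_self a A)
    rw [Finset.prod_insert ha]
    have hpt : ∀ o : Option α, (∏ q ∈ insert a A, (if o = some q then (1 : ℝ) else k)) ≤
        k * (∏ q ∈ A, (if o = some q then (1 : ℝ) else k)) +
          (if o = some a then k ^ A.card else 0) := by
      intro o
      rw [Finset.prod_insert ha]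
      have hP : 0 ≤ ∏ q ∈ A, (if o = some q then (1 : ℝ) else k) := by
        refine Finset.prod_nonneg fun q _ => ?_
        split_ifs
        · norm_num
        · exact hk
      by_cases ho : o = some a
      · rw [if_pos ho, if_pos ho, one_mul]
        have : ∏ q ∈ A, (if o = some q then (1 : ℝ) else k) = k ^ A.card := by
          rw [← Finset.prod_const]
          refine Finset.prod_congr rfl fun q hq => ?_
          rw [if_neg]
          rw [ho]
          intro he
          apply ha
          rw [Option.some_injective _ he]
          exact hq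
        rw [this]
        have : 0 ≤ k * k ^ A.card := by positivity
        linarith
      · rw [if_neg ho, if_neg ho, add_zero]
    calc ∑ o, Y.law π x o * ∏ q ∈ insert a A, (if o = some q then (1 : ℝ) else k)
        ≤ ∑ o, Y.law π x o * (k * (∏ q ∈ A, (if o = some q then (1 : ℝ) else k)) +
          (if o = some a then k ^ A.card else 0)) :=
          Finset.sum_le_sum fun o _ => mul_le_mul_of_nonneg_left (hpt o) (law_nonneg h x o)
      _ = k * (∑ o, Y.law π x o * ∏ q ∈ A, (if o = some q then (1 : ℝ) else k)) +
          π a * k ^ A.card := by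
          simp only [mul_add, Finset.sum_add_distrib]
          congr 1
          · rw [Finset.mul_sum]
            exact Finset.sum_congr rfl fun o _ => by ring
          · have : ∀ o : Option α, Y.law π x o * (if o = some a then k ^ A.card else 0) =
                (if o = some a then Y.law π x (some a) * k ^ A.card else 0) := by
              intro o
              by_cases ho : o = some a
              · rw [if_pos ho, if_pos ho, ho]
              · rw [if_neg ho, if_neg ho, mul_zero]
            simp only [this, Finset.sum_ite_eq', Finset.mem_univ, if_true]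
            simp [Sys.law, hrow]
      _ ≤ k * (∏ q ∈ A, (π q + k)) + π a * (∏ q ∈ A, (π q + k)) := by
          apply add_le_add
          · exact mul_le_mul_of_nonneg_left ih' hk
          · apply mul_le_mul_of_nonneg_left _ (h.nonneg a)
            rw [← Finset.prod_const]
            exact Finset.prod_le_prod (fun _ _ => hk) (fun q _ => by linarith [h.nonneg q])
      _ = (π a + k) * ∏ q ∈ A, (π q + k) := by ring

theorem Ex_prodk (h : Y.Adm S π κ ρ) (Q : Finset α) {k : ℝ} (hk : 0 ≤ k) :
    Ex (Y.law π) (fun ω => ∏ q ∈ Q, (if q ∈ Y.props ω then (1 : ℝ) else k))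
      ≤ ∏ q ∈ Q, (π q + k) := by
  classical
  have h1 : (fun ω : Fin N → Option α => ∏ q ∈ Q, (if q ∈ Y.props ω then (1 : ℝ) else k)) =
      fun ω => ∏ x, (fun (x : Fin N) (o : Option α) =>
        ∏ q ∈ Q.filter (fun q => Y.row q = x), (if o = some q then (1 : ℝ) else k)) x (ω x) := by
    funext ω
    rw [← Finset.prod_fiberwise Q (fun q => Y.row q)]
    refine Finset.prod_congr rfl fun x _ => Finset.prod_congr rfl fun q hq => ?_
    have hq' : Y.row q = x := (Finset.mem_filter.mp hq).2
    simp only [Sys.props, Finset.mem_filter, Finset.mem_univ, true_and, hq']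
  have h2 := L.Ex_prod (Y.law π) (fun (x : Fin N) (o : Option α) =>
        ∏ q ∈ Q.filter (fun q => Y.row q = x), (if o = some q then (1 : ℝ) else k))
  rw [h1]
  refine le_trans (le_of_eq h2) ?_
  rw [← Finset.prod_fiberwise Q (fun q => Y.row q)]
  refine Finset.prod_le_prod (fun x _ => ?_) (fun x _ => ?_)
  · refine Finset.sum_nonneg fun o _ => mul_nonneg (law_nonneg h x o) ?_
    refine Finset.prod_nonneg fun q _ => ?_
    split_ifs
    · norm_num
    · exact hk
  · exact one_coord h hk x _ fun q hq => (Finset.mem_filter.mp hq).2

end Pool.Agent.NKL
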