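import Pool.Agent.NKL.ACC

set_option autoImplicit false

/-!
# NKL / PRP : the law of the proposals

`law x` is a probability on `Option α` (`Fintype.sum_option`).
`Ex_mem`: `1[p ∈ props ω] = 1[ω (row p) = some p]` depends on one coordinate.  Write it as
`∏ v, g v (ω v)` with `g (row p) o = 1[o = some p]`, `g v o = 1` otherwise and use `L.Ex_prod`;
the factor of `row p` is `law (row p) (some p) = π p`, the others are `1`.
`Ex_mem_mem`: if `row p ≠ row q` the same with two coordinates: the expectation is `π p * π q`.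
If `row p = row q` and `p ≠ q` the product of the indicators is `0`.
-/

namespace Pool.Agent.NKL

open Finset Pool.Agent.ChPi

variable {α V Λ : Type} [Fintype α] [DecidableEq α] [Fintype V] [DecidableEq V] [DecidableEq Λ]
  {N : ℕ} {Y : Sys α V Λ N} {S : Finset α} {π : α → ℝ} {κ ρ : ℝ}

theorem law_nonneg (h : Y.Adm S π κ ρ) (x : Fin N) (o : Option α) : 0 ≤ Y.law π x o := by
  rcases o with _ | p
  · have := h.row x
    show 0 ≤ 1 - ∑ p ∈ univ.filter (fun p => Y.row p = x), π p
    linarith
  · show 0 ≤ if Y.row p = x then π p else 0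
    split_ifs
    · exact h.nonneg p
    · exact le_rfl

theorem law_sum (Y : Sys α V Λ N) (π : α → ℝ) (x : Fin N) : ∑ o, Y.law π x o = 1 := by
  rw [Fintype.sum_option]
  show 1 - ∑ p ∈ univ.filter (fun p => Y.row p = x), π p + ∑ p, (if Y.row p = x then π p else 0) = 1
  rw [Finset.sum_filter]
  ring

theorem Ex_mem (h : Y.Adm S π κ ρ) (p : α) :
    Ex (Y.law π) (fun ω => if p ∈ Y.props ω then (1 : ℝ) else 0) = π p := by
  have h1 : (fun ω : Fin N → Option α => if p ∈ Y.props ω then (1 : ℝ) else 0) =
      fun ω => ∏ x, (fun (x : Fin N) (o : Option α) => if x = Y.row p then (if o = some p then (1 : ℝ) else 0) else 1)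
        x (ω x) := by
    funext ω
    show _ = ∏ x, (if x = Y.row p then (if ω x = some p then (1 : ℝ) else 0) else 1)
    rw [Finset.prod_ite_eq' univ (Y.row p) (fun x => if ω x = some p then (1 : ℝ) else 0),
      if_pos (Finset.mem_univ _)]
    have h2 : p ∈ Y.props ω ↔ ω (Y.row p) = some p := by
      unfold Sys.props
      rw [Finset.mem_filter]
      exact ⟨fun h => h.2, fun h => ⟨Finset.mem_univ _, h⟩⟩
    by_cases h3 : p ∈ Y.props ω
    · rw [if_pos h3, if_pos (h2.1 h3)]
    · rw [if_neg h3, if_neg fun h4 => h3 (h2.2 h4)]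
  rw [h1]
  refine (L.Ex_prod (Y.law π) (fun (x : Fin N) (o : Option α) =>
    if x = Y.row p then (if o = some p then (1 : ℝ) else 0) else 1)).trans ?_
  have h2 : ∀ x : Fin N, ∑ o, Y.law π x o * (if x = Y.row p then (if o = some p then (1 : ℝ) else 0) else 1) =
      if x = Y.row p then π p else 1 := by
    intro x
    by_cases hx : x = Y.row p
    · subst hx
      simp only [if_true, mul_ite, mul_one, mul_zero]
      rw [Finset.sum_ite_eq' univ (some p) (fun o => Y.law π (Y.row p) o), if_pos (Finset.mem_univ _)]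
      show (if Y.row p = Y.row p then π p else 0) = π p
      rw [if_pos rfl]
    · simp only [if_neg hx, mul_one]
      exact law_sum Y π x
  rw [Finset.prod_congr rfl fun x _ => h2 x, Finset.prod_ite_eq' univ (Y.row p) (fun _ => π p),
    if_pos (Finset.mem_univ _)]

theorem Ex_mem_mem (h : Y.Adm S π κ ρ) {p q : α} (hpq : p ≠ q) :
    Ex (Y.law π) (fun ω => (if p ∈ Y.props ω then (1 : ℝ) else 0)
      * (if q ∈ Y.props ω then (1 : ℝ) else 0)) ≤ π p * π q := by
  have hmem : ∀ (p : α) (ω : Fin N → Option α), p ∈ Y.props ω ↔ ω (Y.row p) = some p := by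
    intro p ω
    unfold Sys.props
    rw [Finset.mem_filter]
    exact ⟨fun h => h.2, fun h => ⟨Finset.mem_univ _, h⟩⟩
  by_cases hr : Y.row p = Y.row q
  · have h1 : (fun ω : Fin N → Option α => (if p ∈ Y.props ω then (1 : ℝ) else 0)
        * (if q ∈ Y.props ω then (1 : ℝ) else 0)) = fun _ => (0 : ℝ) := by
      funext ω
      by_cases h2 : p ∈ Y.props ω
      · by_cases h3 : q ∈ Y.props ω
        · exfalso
          have h4 := (hmem p ω).1 h2
          have h5 := (hmem q ω).1 h3
          rw [← hr, h4] at h5
          exact hpq (Option.some.inj h5)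
        · rw [if_neg h3, mul_zero]
      · rw [if_neg h2, zero_mul]
    rw [h1, L.Ex_const (law_sum Y π)]
    exact mul_nonneg (h.nonneg p) (h.nonneg q)
  · have h1 := L.Ex_mul_indep (p := Y.law π) (law_sum Y π) {Y.row p}
      (fun ω => if p ∈ Y.props ω then (1 : ℝ) else 0) (fun ω => if q ∈ Y.props ω then (1 : ℝ) else 0)
      (by
        intro ω ω' hω
        have h2 := hω (Y.row p) (Finset.mem_singleton_self _)
        simp only [hmem, h2])
      (by
        intro ω ω' hω
        have h2 := hω (Y.row q) (by
          rw [Finset.mem_singleton]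
          exact fun h => hr h.symm)
        simp only [hmem, h2])
    rw [h1, Ex_mem h p, Ex_mem h q]

end Pool.Agent.NKL
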