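import Pool.Agent.NKL.PRK

set_option autoImplicit false

/-!
# NKL / PXJ : many proposals in a set

`1[j ≤ |X ∩ Q|] ≤ ∑_{T ⊆ Q, |T| = j} ∏_{q ∈ T} 1[q ∈ X]`; by `Ex_prodk` with `k = 0` the expectation is
at most `∑_{T ⊆ Q, |T| = j} ∏_{q ∈ T} π q ≤ (∑_{q ∈ Q} π q)^j` (elementary symmetric polynomial of
nonnegative numbers; induction on `Q`, or `Finset.prod_sum`/multinomial expansion).
-/

namespace Pool.Agent.NKL

open Finset Pool.Agent.ChPi

variable {α V Λ : Type} [Fintype α] [DecidableEq α] [Fintype V] [DecidableEq V] [DecidableEq Λ]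
  {N : ℕ} {Y : Sys α V Λ N} {S : Finset α} {π : α → ℝ} {κ ρ : ℝ}

theorem esymm_le {α : Type} [DecidableEq α] (Q : Finset α) (a : α → ℝ) (ha : ∀ q, 0 ≤ a q) (j : ℕ) :
    ∑ T ∈ Q.powersetCard j, ∏ q ∈ T, a q ≤ (∑ q ∈ Q, a q) ^ j := by
  induction Q using Finset.induction_on generalizing j with
  | empty =>
    rcases j with _ | j
    · simp
    · rw [Finset.powersetCard_eq_empty.2 (by simp), Finset.sum_empty, Finset.sum_empty]
      positivity
  | insert b Q hb ih =>
    have hs : 0 ≤ ∑ q ∈ Q, a q := Finset.sum_nonneg fun q _ => ha q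
    rcases j with _ | j
    · simp
    · rw [Finset.powersetCard_succ_insert hb, Finset.sum_union, Finset.sum_image, Finset.sum_insert hb]
      · have h1 : ∑ T ∈ Q.powersetCard j, ∏ q ∈ insert b T, a q
            = a b * ∑ T ∈ Q.powersetCard j, ∏ q ∈ T, a q := by
          rw [Finset.mul_sum]
          refine Finset.sum_congr rfl fun T hT => ?_
          rw [Finset.prod_insert fun h => hb ((Finset.mem_powersetCard.1 hT).1 h)]
        rw [h1]
        have h2 := ih (j + 1)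
        have h3 := mul_le_mul_of_nonneg_left (ih j) (ha b)
        have h4 : (∑ q ∈ Q, a q) ^ j ≤ (a b + ∑ q ∈ Q, a q) ^ j :=
          pow_le_pow_left₀ hs (by linarith [ha b]) j
        have h5 := mul_le_mul_of_nonneg_left h4 (add_nonneg (ha b) hs)
        calc ∑ T ∈ Q.powersetCard (j + 1), ∏ q ∈ T, a q + a b * ∑ T ∈ Q.powersetCard j, ∏ q ∈ T, a q
            ≤ (∑ q ∈ Q, a q) ^ (j + 1) + a b * (∑ q ∈ Q, a q) ^ j := add_le_add h2 h3
          _ = (a b + ∑ q ∈ Q, a q) * (∑ q ∈ Q, a q) ^ j := by ring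
          _ ≤ (a b + ∑ q ∈ Q, a q) * (a b + ∑ q ∈ Q, a q) ^ j := h5
          _ = (a b + ∑ q ∈ Q, a q) ^ (j + 1) := by ring
      · intro T hT T' hT' hTT
        have e1 : b ∉ T := fun h => hb ((Finset.mem_powersetCard.1 hT).1 h)
        have e2 : b ∉ T' := fun h => hb ((Finset.mem_powersetCard.1 hT').1 h)
        rw [← Finset.erase_insert e1, ← Finset.erase_insert e2]
        exact congrArg (fun S => Finset.erase S b) hTT
      · rw [Finset.disjoint_left]
        intro T hT hT'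
        obtain ⟨T0, -, rfl⟩ := Finset.mem_image.1 hT'
        exact hb ((Finset.mem_powersetCard.1 hT).1 (Finset.mem_insert_self b T0))

theorem Ex_many (h : Y.Adm S π κ ρ) (Q : Finset α) (j : ℕ) :
    Ex (Y.law π) (fun ω => if j ≤ (Y.props ω ∩ Q).card then (1 : ℝ) else 0)
      ≤ (∑ q ∈ Q, π q) ^ j := by
  classical
  have hstep : ∀ ω : Fin N → Option α, (if j ≤ (Y.props ω ∩ Q).card then (1 : ℝ) else 0)
      ≤ ∑ T ∈ Q.powersetCard j, ∏ q ∈ T, (if q ∈ Y.props ω then (1 : ℝ) else 0) := by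
    intro ω
    have hnn : ∀ T ∈ Q.powersetCard j, 0 ≤ ∏ q ∈ T, (if q ∈ Y.props ω then (1 : ℝ) else 0) :=
      fun T _ => Finset.prod_nonneg fun q _ => by split_ifs <;> norm_num
    by_cases hj : j ≤ (Y.props ω ∩ Q).card
    · rw [if_pos hj]
      obtain ⟨T, hT, hTj⟩ := Finset.exists_subset_card_eq hj
      have hTQ : T ∈ Q.powersetCard j :=
        Finset.mem_powersetCard.2 ⟨hT.trans Finset.inter_subset_right, hTj⟩
      have h1 : ∏ q ∈ T, (if q ∈ Y.props ω then (1 : ℝ) else 0) = 1 := by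
        refine Finset.prod_eq_one fun q hq => ?_
        rw [if_pos (Finset.mem_inter.1 (hT hq)).1]
      exact h1.symm.le.trans (Finset.single_le_sum hnn hTQ)
    · rw [if_neg hj]
      exact Finset.sum_nonneg hnn
  calc Ex (Y.law π) (fun ω => if j ≤ (Y.props ω ∩ Q).card then (1 : ℝ) else 0)
      ≤ Ex (Y.law π) (fun ω => ∑ T ∈ Q.powersetCard j,
          ∏ q ∈ T, (if q ∈ Y.props ω then (1 : ℝ) else 0)) :=
        L.Ex_mono (fun x o => law_nonneg h x o) hstep
    _ = ∑ T ∈ Q.powersetCard j, Ex (Y.law π) (fun ω =>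
          ∏ q ∈ T, (if q ∈ Y.props ω then (1 : ℝ) else 0)) :=
        L.Ex_sum (Y.law π) _ (fun T ω => ∏ q ∈ T, (if q ∈ Y.props ω then (1 : ℝ) else 0))
    _ ≤ ∑ T ∈ Q.powersetCard j, ∏ q ∈ T, π q := by
        refine Finset.sum_le_sum fun T _ => ?_
        have h1 := Ex_prodk h T (k := 0) le_rfl
        simpa only [add_zero] using h1
    _ ≤ (∑ q ∈ Q, π q) ^ j := esymm_le Q π h.nonneg j

end Pool.Agent.NKL
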