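import Mathlib

set_option autoImplicit false

/-!
# NKL / TAL : the tail bound is smaller than every power of `N`
-/

namespace Pool.Agent.NKL

open Finset

private theorem exp_bd : ∃ F : ℝ, 0 < F ∧ ∀ z : ℝ, 0 < z → Real.exp (-z) ≤ F / z ^ 80 := by
  refine ⟨((Nat.factorial 80 : ℕ) : ℝ), by exact_mod_cast Nat.factorial_pos 80, fun z hz => ?_⟩
  have h1 := Real.pow_div_factorial_le_exp z hz.le 80
  have hf : (0 : ℝ) < ((Nat.factorial 80 : ℕ) : ℝ) := by exact_mod_cast Nat.factorial_pos 80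
  rw [div_le_iff₀ hf] at h1
  rw [Real.exp_neg, le_div_iff₀ (by positivity), inv_mul_le_iff₀ (Real.exp_pos z)]
  exact h1

theorem tal {θ : ℝ} (hθ : 0 < θ) : ∃ C : ℝ, 0 < C ∧ ∀ N : ℕ, 1 ≤ N → ∀ σ : ℝ, 0 < σ →
    σ ^ 10 ≤ (N : ℝ) ^ 19 →
    2 * Real.exp (-((θ ^ 2 * N) ^ 2 / (2 * σ))) ≤ C / (N : ℝ) ^ 8 := by
  obtain ⟨F, hF, hexp⟩ := exp_bd
  refine ⟨2 * (F * (2 / θ ^ 4) ^ 80), by positivity, fun N hN σ hσ hσN => ?_⟩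
  have hN0 : (0 : ℝ) < N := by exact_mod_cast hN
  have hz : (0 : ℝ) < (θ ^ 2 * N) ^ 2 / (2 * σ) := by positivity
  have h1 := hexp _ hz
  have hy : (N : ℝ) ≤ ((N : ℝ) ^ 2 / σ) ^ 10 := by
    rw [div_pow, le_div_iff₀ (by positivity)]
    calc (N : ℝ) * σ ^ 10 ≤ N * (N : ℝ) ^ 19 := mul_le_mul_of_nonneg_left hσN hN0.le
      _ = ((N : ℝ) ^ 2) ^ 10 := by ring
  have hy8 : (N : ℝ) ^ 8 ≤ ((N : ℝ) ^ 2 / σ) ^ 80 := by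
    calc (N : ℝ) ^ 8 ≤ (((N : ℝ) ^ 2 / σ) ^ 10) ^ 8 := pow_le_pow_left₀ hN0.le hy 8
      _ = ((N : ℝ) ^ 2 / σ) ^ 80 := by rw [← pow_mul]
  have hzz : ((θ ^ 2 * N) ^ 2 / (2 * σ)) ^ 80 = (θ ^ 4 / 2) ^ 80 * ((N : ℝ) ^ 2 / σ) ^ 80 := by
    rw [← mul_pow]
    congr 1
    field_simp
  rw [hzz] at h1
  have h2 : F / ((θ ^ 4 / 2) ^ 80 * ((N : ℝ) ^ 2 / σ) ^ 80) ≤
      F / ((θ ^ 4 / 2) ^ 80 * (N : ℝ) ^ 8) := by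
    apply div_le_div_of_nonneg_left hF.le (by positivity)
    exact mul_le_mul_of_nonneg_left hy8 (by positivity)
  have h3 : F / ((θ ^ 4 / 2) ^ 80 * (N : ℝ) ^ 8) = F * (2 / θ ^ 4) ^ 80 / (N : ℝ) ^ 8 := by
    have : (2 / θ ^ 4) ^ 80 = ((θ ^ 4 / 2) ^ 80)⁻¹ := by
      rw [← inv_pow]
      congr 1
      rw [inv_div]
    rw [this]
    generalize (θ ^ 4 / 2) ^ 80 = a
    generalize (N : ℝ) ^ 8 = b
    rw [div_eq_mul_inv, mul_inv, div_eq_mul_inv]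
    ring
  rw [h3] at h2
  calc 2 * Real.exp (-((θ ^ 2 * N) ^ 2 / (2 * σ))) ≤ 2 * (F * (2 / θ ^ 4) ^ 80 / (N : ℝ) ^ 8) := by
        linarith
    _ = 2 * (F * (2 / θ ^ 4) ^ 80) / (N : ℝ) ^ 8 := by ring

end Pool.Agent.NKL
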