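import Pool.Agent.NKL.PHX
import Pool.Agent.NKL.CTX
import Pool.Agent.NKL.LIS
import Pool.Agent.NKL.LIF
import Pool.Agent.NKL.MCD
import Pool.Agent.NKL.GOO
import Pool.Agent.NKL.TAL
import Pool.Agent.NKL.GAM

set_option autoImplicit false

/-!
# NKL / RND : one round

Apply `goo` to the law of `pi θ i S`, with the following functionals of `ω`:
* `ω ↦ Phi θ v l T (T-(i+1)) (nxt S ω)` for all lines `(v,l)` that contain a cell
  (`(v,l) ∈ univ.image (fun (v,p) => (v, line v p))`, at most `b N²` lines as `card α ≤ N²`) and all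
  `T ∈ (i, R]`;
* `ω ↦ Xi θ T (T-(i+1)) (nxt S ω)`, `T ∈ (i, R]`;  `ω ↦ |nxt S ω|`;  the given `g k`, `k ∈ K`;
with `lam = θ² N` for all of them, `h ω = Gam C k (nxt S ω)` (nonnegative) and `δ = 1/(2R)`.
Number of functionals: at most `b N² (R+1) + (R+1) + 1 + N^6`.  Each deviation probability is at
most `Cθ / N^8` by `mcd` and `tal`: for the `g k` take `σ = max (∑ c²) 1`; for the others the
differences are bounded by the constant `c0 = 2 (φ⁻¹)^b b (2 + 2 b s)` (`lis`, `lif_*`), `σ = N c0²`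
(`c0 ≥ 1`), and `σ^10 = N^10 c0^20 ≤ N^19` for `N ≥ c0^20`.  So `∑ ≤ δ` for `N ≥ N₀(b,s,R,φ,W,θ)`; also
choose `N₀ ≥ W/θ` so that `κ = θ W/N ≤ θ²`.
For the outcome `ω`: `Valid` by `valid_nxt`; for a line without cells `Phi = 0` and `mass = 0`;
`|Phi(nxt) - N mass| ≤ θ² N + (CC-1)(θ²+θe) N + e N` (`Ex_Phi` and `Trk`), which is at most
`(e + CC (θ²+θe)) N`; the same for `Xi`; the number of points by `Ex_card`; `Gam` by `gam_step`.
-/

namespace Pool.Agent.NKL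

open Finset Pool.Agent.ChPi

private theorem dev {θ : ℝ} (hθ : 0 < θ) : ∃ C : ℝ, 0 < C ∧ ∀ N : ℕ, 1 ≤ N → ∀ (Ω : Type) [Fintype Ω]
    (p : Fin N → Ω → ℝ), (∀ v o, 0 ≤ p v o) → (∀ v, ∑ o, p v o = 1) → ∀ (g : (Fin N → Ω) → ℝ) (c : Fin N → ℝ),
    (∀ x, 0 ≤ c x) → (∀ x ω ω', (∀ y, y ≠ x → ω y = ω' y) → |g ω - g ω'| ≤ c x) →
    (∑ x, c x ^ 2) ^ 10 ≤ (N : ℝ) ^ 19 →
    Pr p (fun ω => θ ^ 2 * N < |g ω - Ex p g|) ≤ C / (N : ℝ) ^ 8 := by
  obtain ⟨C, hC, h⟩ := tal hθ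
  refine ⟨C, hC, fun N hN Ω _ p hp0 hp1 g c hc hL hs => ?_⟩
  have hσ : (0 : ℝ) < max (∑ x, c x ^ 2) 1 := lt_max_of_lt_right one_pos
  have h1 := mcd p hp0 hp1 g c hc hL hσ (le_max_left _ _) (lam := θ ^ 2 * N) (by positivity)
  refine h1.trans (h N hN _ hσ ?_)
  rcases le_total (∑ x, c x ^ 2) 1 with h2 | h2
  · rw [max_eq_right h2, one_pow]
    exact one_le_pow₀ (by exact_mod_cast hN)
  · rw [max_eq_left h2]
    exact hs

private theorem pow_c0 {N : ℕ} (hN : 1 ≤ N) {c0 : ℝ} (hc : c0 ^ 20 ≤ N) :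
    (∑ _x : Fin N, c0 ^ 2) ^ 10 ≤ (N : ℝ) ^ 19 := by
  have hN' : (1 : ℝ) ≤ N := by exact_mod_cast hN
  rw [Finset.sum_const, Finset.card_univ, Fintype.card_fin, nsmul_eq_mul, mul_pow, ← pow_mul]
  calc (N : ℝ) ^ 10 * c0 ^ (2 * 10) ≤ (N : ℝ) ^ 10 * N := by
        refine mul_le_mul_of_nonneg_left ?_ (by positivity)
        exact hc
    _ ≤ (N : ℝ) ^ 10 * (N : ℝ) ^ 9 := by
        refine mul_le_mul_of_nonneg_left ?_ (by positivity)
        exact le_self_pow₀ hN' (by norm_num)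
    _ = (N : ℝ) ^ 19 := by ring

theorem rnd (b s R : ℕ) (φ W θ : ℝ) (hφ : 0 < φ) (hθ : 0 < θ) (hR : 1 ≤ R) :
    ∃ N₀ : ℕ, ∀ N ≥ N₀, ∀ (α V Λ : Type) [Fintype α] [DecidableEq α] [Fintype V] [DecidableEq V]
      [DecidableEq Λ] (Y : Sys α V Λ N), Y.Hyp θ R b s φ W → ∀ (i : ℕ), i < R →
      ∀ (S : Finset α) (e : ℝ), 0 ≤ e → e ≤ 1 → Y.Valid S → Y.Trk θ R i e S →
      ∀ (C : Finset (Finset α)) (k : ℝ), 0 ≤ k → k ≤ 1 →
      ∀ (K' : Type) (K : Finset K'), K.card ≤ N ^ 6 →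
      ∀ (g : K' → (Fin N → Option α) → ℝ) (c : K' → Fin N → ℝ), (∀ k x, 0 ≤ c k x) →
      (∀ k ∈ K, ∀ x ω ω', (∀ y, y ≠ x → ω y = ω' y) → |g k ω - g k ω'| ≤ c k x) →
      (∀ k ∈ K, (∑ x, c k x ^ 2) ^ 10 ≤ (N : ℝ) ^ 19) →
      ∃ ω : Fin N → Option α, Y.Valid (Y.nxt S ω) ∧
        Y.Trk θ R (i + 1) (e + CC b s φ * (θ ^ 2 + θ * e)) (Y.nxt S ω) ∧
        (S.card : ℝ) + θ * Y.total - CC b s φ * (θ ^ 2 + θ * e) * N ≤ (Y.nxt S ω).card ∧
        (1 - 1 / (2 * (R : ℝ))) * Gam C k (Y.nxt S ω) ≤ Gam C (k + θ * W / N) S ∧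
        ∀ k ∈ K, |g k ω - Ex (Y.law (Y.pi θ i S)) (g k)| ≤ θ ^ 2 * N := by
  obtain ⟨C₁, hC₁, hdev⟩ := dev hθ
  set c0 : ℝ := 2 * (φ⁻¹) ^ b * b * ((2 + 2 * (b * s) : ℕ) : ℝ) with hc0
  have hc0n : 0 ≤ c0 := by positivity
  have hRp : (0 : ℝ) < R := by exact_mod_cast hR
  refine ⟨max 1 (max ⌈c0 ^ 20⌉₊ (max ⌈W / θ⌉₊ ⌈((b : ℝ) * R + R + 2) * C₁ * (2 * R)⌉₊)), ?_⟩
  intro N hN α V Λ _ _ _ _ _ Y h i hi S e he he1 hS ht C k hk hk1 K' K hK g c hc hL hcs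
  have hN1 : 1 ≤ N := le_trans (le_max_left _ _) hN
  have hNp : (0 : ℝ) < N := by exact_mod_cast hN1
  have hN1' : (1 : ℝ) ≤ N := by exact_mod_cast hN1
  have hN2 := le_trans (le_max_right _ _) hN
  have hNc : c0 ^ 20 ≤ N := (Nat.le_ceil _).trans (by exact_mod_cast le_trans (le_max_left _ _) hN2)
  have hN3 := le_trans (le_max_right _ _) hN2
  have hNW : W / θ ≤ N := (Nat.le_ceil _).trans (by exact_mod_cast le_trans (le_max_left _ _) hN3)
  have hNC : ((b : ℝ) * R + R + 2) * C₁ * (2 * R) ≤ N :=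
    (Nat.le_ceil _).trans (by exact_mod_cast le_trans (le_max_right _ _) hN3)
  have hκ : θ * W / N ≤ θ ^ 2 := by
    rw [div_le_iff₀ hθ] at hNW
    rw [div_le_iff₀ hNp]
    nlinarith
  have hadm := pi_adm h hi.le he he1 hS ht
  set p := Y.law (Y.pi θ i S) with hp
  have hp0 : ∀ v o, 0 ≤ p v o := fun v o => law_nonneg hadm v o
  have hp1 : ∀ v, ∑ o, p v o = 1 := fun v => law_sum Y _ v
  have hK0 : ∀ x (ω ω' : Fin N → Option α), (∀ y, y ≠ x → ω y = ω' y) →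
      ((Y.nxt S ω \ Y.nxt S ω') ∪ (Y.nxt S ω' \ Y.nxt S ω)).card ≤ 2 + 2 * (b * s) := by
    intro x ω ω' hω
    refine (lis Y h.cap_le S x hω).trans ?_
    have := Nat.mul_le_mul_right s h.cardV
    omega
  have hdc := hdev N hN1 (Option α) p hp0 hp1
  have hc0card : ((2 + 2 * (b * s) : ℕ) : ℝ) ≤ c0 := by
    rw [hc0]
    have h1 : (1 : ℝ) ≤ (φ⁻¹) ^ b := one_le_pow₀ ((one_le_inv₀ hφ).mpr h.φ1)
    have h2 : (1 : ℝ) ≤ b := by exact_mod_cast h.b1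
    have h3 : (1 : ℝ) ≤ 2 * (φ⁻¹) ^ b * b := by nlinarith
    exact le_mul_of_one_le_left (Nat.cast_nonneg _) h3
  -- the functionals
  set Ls : Finset (V × Λ) := (univ : Finset (V × α)).image (fun z => (z.1, Y.line z.1 z.2)) with hLs
  set T : Finset (((V × Λ) × ℕ) ⊕ (ℕ ⊕ (Unit ⊕ K'))) :=
    (Ls ×ˢ Finset.Icc (i + 1) R).disjSum
      ((Finset.Icc (i + 1) R).disjSum (({()} : Finset Unit).disjSum K)) with hT
  set G : (((V × Λ) × ℕ) ⊕ (ℕ ⊕ (Unit ⊕ K'))) → (Fin N → Option α) → ℝ :=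
    Sum.elim (fun x ω => Y.Phi θ x.1.1 x.1.2 x.2 (x.2 - (i + 1)) (Y.nxt S ω))
      (Sum.elim (fun T ω => Y.Xi θ T (T - (i + 1)) (Y.nxt S ω))
        (Sum.elim (fun _ ω => ((Y.nxt S ω).card : ℝ)) g)) with hG
  have hone : ∀ k ∈ T, Pr p (fun ω => θ ^ 2 * N < |G k ω - Ex p (G k)|) ≤ C₁ / (N : ℝ) ^ 8 := by
    intro k hk
    rcases k with ⟨⟨v, l⟩, T'⟩ | T' | u | k
    · simp only [hT, Finset.inl_mem_disjSum, Finset.mem_product, Finset.mem_Icc] at hk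
      refine hdc _ (fun _ => c0) (fun _ => hc0n) ?_ (pow_c0 hN1 hNc)
      intro x ω ω' hω
      simp only [hG, Sum.elim_inl]
      exact lif_Phi h (hK0 x ω ω' hω) v l hk.2.2 (Nat.sub_le _ _)
    · simp only [hT, Finset.inr_mem_disjSum, Finset.inl_mem_disjSum, Finset.mem_Icc] at hk
      refine hdc _ (fun _ => c0) (fun _ => hc0n) ?_ (pow_c0 hN1 hNc)
      intro x ω ω' hω
      simp only [hG, Sum.elim_inl, Sum.elim_inr]
      exact lif_Xi h (hK0 x ω ω' hω) hk.2 (Nat.sub_le _ _)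
    · refine hdc _ (fun _ => c0) (fun _ => hc0n) ?_ (pow_c0 hN1 hNc)
      intro x ω ω' hω
      simp only [hG, Sum.elim_inl, Sum.elim_inr]
      exact (lif_card (hK0 x ω ω' hω)).trans hc0card
    · simp only [hT, Finset.inr_mem_disjSum] at hk
      exact hdc _ (c k) (hc k) (fun x ω ω' hω => hL k hk x ω ω' hω) (hcs k hk)
  have hcardT : (T.card : ℝ) ≤ ((b : ℝ) * R + R + 2) * (N : ℝ) ^ 6 := by
    have h1 : Ls.card ≤ b * N ^ 2 := by
      refine Finset.card_image_le.trans ?_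
      rw [Finset.card_univ, Fintype.card_prod]
      exact Nat.mul_le_mul h.cardV (card_le h.ok)
    have h2 : (Finset.Icc (i + 1) R).card ≤ R := by
      rw [Nat.card_Icc]; omega
    have h3 : T.card ≤ b * N ^ 2 * R + (R + (1 + N ^ 6)) := by
      rw [hT, Finset.card_disjSum, Finset.card_disjSum, Finset.card_disjSum, Finset.card_product,
        Finset.card_singleton]
      exact Nat.add_le_add (Nat.mul_le_mul h1 h2) (Nat.add_le_add h2 (Nat.add_le_add_left hK 1))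
    have h4 : (T.card : ℝ) ≤ (b : ℝ) * (N : ℝ) ^ 2 * R + (R + (1 + (N : ℝ) ^ 6)) := by exact_mod_cast h3
    have h5 : (N : ℝ) ^ 2 ≤ (N : ℝ) ^ 6 := pow_le_pow_right₀ hN1' (by norm_num)
    have h6 : (1 : ℝ) ≤ (N : ℝ) ^ 6 := one_le_pow₀ hN1'
    have h7 : (b : ℝ) * (N : ℝ) ^ 2 * R ≤ (b : ℝ) * (N : ℝ) ^ 6 * R := by gcongr
    have h8 : (R : ℝ) ≤ R * (N : ℝ) ^ 6 := le_mul_of_one_le_right hRp.le h6
    nlinarith
  have hsum : ∑ k ∈ T, Pr p (fun ω => θ ^ 2 * N < |G k ω - Ex p (G k)|) ≤ 1 / (2 * (R : ℝ)) := by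
    refine (Finset.sum_le_card_nsmul _ _ _ hone).trans ?_
    rw [nsmul_eq_mul]
    have h1 : (T.card : ℝ) * (C₁ / (N : ℝ) ^ 8) ≤ ((b : ℝ) * R + R + 2) * (N : ℝ) ^ 6 * (C₁ / (N : ℝ) ^ 8) :=
      mul_le_mul_of_nonneg_right hcardT (by positivity)
    refine h1.trans ?_
    have h2 : ((b : ℝ) * R + R + 2) * (N : ℝ) ^ 6 * (C₁ / (N : ℝ) ^ 8) =
        ((b : ℝ) * R + R + 2) * C₁ / (N : ℝ) ^ 2 := by
      field_simp
    rw [h2, div_le_div_iff₀ (by positivity) (by positivity), one_mul]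
    refine hNC.trans ?_
    nlinarith
  have hR1' : (1 : ℝ) ≤ R := by exact_mod_cast hR
  have hδ1 : 1 / (2 * (R : ℝ)) < 1 := by
    rw [div_lt_one (by positivity)]; linarith
  obtain ⟨ω, -, hω, hgam⟩ := goo p hp0 hp1 T G (fun _ => θ ^ 2 * N) hδ1 hsum
    (fun ω => Gam C k (Y.nxt S ω)) (fun ω => gam_nonneg C hk _)
  have hq : 0 ≤ θ * e := by positivity
  have hCC : 0 ≤ CC b s φ := (CC_pos b s hφ).le
  refine ⟨ω, valid_nxt Y hS ω, ⟨?_, ?_⟩, ?_, ?_, ?_⟩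
  · intro v l T' hiT hTR
    by_cases hvl : (v, l) ∈ Ls
    · have h1 := hω (Sum.inl ((v, l), T')) (by
        simp only [hT, Finset.inl_mem_disjSum, Finset.mem_product, Finset.mem_Icc]
        exact ⟨hvl, hiT, hTR⟩)
      simp only [hG, Sum.elim_inl] at h1
      have h2 := Ex_Phi h hκ hi he he1 hS ht v l (T := T') (by omega) hTR
      have h3 := ht.1 v l T' (by omega) hTR
      rw [← hp] at h2
      rw [abs_le] at h1 h2 h3 ⊢
      constructor <;> nlinarith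
    · have h1 : Y.cells v l = ∅ := by
        unfold Sys.cells
        rw [Finset.filter_eq_empty_iff]
        intro q _ hq'
        refine hvl ?_
        rw [hLs, Finset.mem_image]
        exact ⟨(v, q), Finset.mem_univ _, by simp [hq']⟩
      have h2 : Y.Phi θ v l T' (T' - (i + 1)) (Y.nxt S ω) = 0 := by
        unfold Sys.Phi
        rw [h1, Finset.sum_empty]
      have h3 : Y.mass v l = 0 := by
        unfold Sys.mass
        rw [h1, Finset.sum_empty, zero_div]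
      rw [h2, h3, mul_zero, sub_zero, abs_zero]
      positivity
  · intro T' hiT hTR
    have h1 := hω (Sum.inr (Sum.inl T')) (by
      simp only [hT, Finset.inr_mem_disjSum, Finset.inl_mem_disjSum, Finset.mem_Icc]
      exact ⟨hiT, hTR⟩)
    simp only [hG, Sum.elim_inl, Sum.elim_inr] at h1
    have h2 := Ex_Xi h hκ hi he he1 hS ht (T := T') (by omega) hTR
    have h3 := ht.2 T' (by omega) hTR
    rw [← hp] at h2
    rw [abs_le] at h1 h2 h3 ⊢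
    constructor <;> nlinarith
  · have h1 := hω (Sum.inr (Sum.inr (Sum.inl ()))) (by
      simp [hT])
    simp only [hG, Sum.elim_inl, Sum.elim_inr] at h1
    have h2 := Ex_card h hκ hi.le he he1 hS ht
    rw [← hp] at h2
    rw [abs_le] at h1
    nlinarith
  · exact hgam.trans (gam_step hadm C hk hk1)
  · intro k hk
    have h1 := hω (Sum.inr (Sum.inr (Sum.inr k))) (by
      simp only [hT, Finset.inr_mem_disjSum]
      exact hk)
    simpa only [hG, Sum.elim_inr] using h1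

end Pool.Agent.NKL
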