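import Pool.Agent.NKL.VVX
import Pool.Agent.NKL.LVW
import Pool.Agent.NKL.LIS

set_option autoImplicit false

/-!
# NKL / TRV : the two-sided tracker for `VV`

`F = (∑_{p ∈ I} f p)/N`, `x = CC b s φ (θ² + θ η) N`, `σ = ± 1`.
`gV_zero`: `VV_zero`, `i = 0 ≤ T`: both sides are `σ F` (`0 ≤ x`).
`gV_step`: if `i + 1 ≤ T` then `gV` at time `i` is `σ VV/N`, and by `Ex_VV` (linearity of `Ex`)
`Ex gV(i+1) ≤ gV i + (CC-1)(θ²+θe) N`; add `θ² N`, use `e ≤ η`, `θ > 0`, `CC ≥ 1`.  If `T < i + 1` the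
left side is `θ² N` and the right side is `(i+1) x ≥ x ≥ θ² N` (`gV` is `0`).
(`CC ≥ 1`: `CC = (nonneg) + 1`.)
`gV_lip`: `lis` with `card V ≤ b`, then `lvv`; divide by `N`.
-/

namespace Pool.Agent.NKL

open Finset Pool.Agent.ChPi

variable {α V Λ : Type} [Fintype α] [DecidableEq α] [Fintype V] [DecidableEq V] [DecidableEq Λ]
  {N : ℕ} {Y : Sys α V Λ N} {θ φ W e η : ℝ} {R b s i : ℕ} {S : Finset α}

noncomputable def Sys.gV (Y : Sys α V Λ N) (θ : ℝ) (R : ℕ) (I : Finset α)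
    (B : α → Finset (V × Λ)) (σ : ℝ) (T i : ℕ) (S : Finset α) : ℝ :=
  if i ≤ T then σ * Y.VV θ R I B T i S / N else 0

noncomputable def bV (F σ x : ℝ) (T i : ℕ) : ℝ := (if i ≤ T then σ * F else 0) + i * x

private theorem one_le_CC' (b s : ℕ) {φ : ℝ} (hφ : 0 < φ) : 1 ≤ CC b s φ := by
  have h : 0 ≤ 2 * (φ⁻¹) ^ b * (36 * (b : ℝ) ^ 2 / φ ^ 2 + 2 * (b : ℝ) ^ 2 + 2 * b * s + 4 * 2 ^ b / φ ^ 2
    + 2 * b / φ) := by positivity
  unfold CC
  linarith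

theorem gV_zero (h : Y.Hyp θ R b s φ W) {I : Finset α} {B : α → Finset (V × Λ)} {T : ℕ}
    (hT : T ≤ R) (σ x : ℝ) :
    Y.gV θ R I B σ T 0 ∅ ≤ bV ((∑ p ∈ I, Y.f p) / N) σ x T 0 := by
  unfold Sys.gV bV
  rw [if_pos (Nat.zero_le T), if_pos (Nat.zero_le T), VV_zero h I B hT]
  simp only [Nat.cast_zero, zero_mul, add_zero]
  rw [mul_div_assoc]

theorem gV_step (h : Y.Hyp θ R b s φ W) (hκ : θ * W / N ≤ θ ^ 2) (hi : i < R) (he : 0 ≤ e)
    (he1 : e ≤ 1) (heη : e ≤ η) (hS : Y.Valid S) (ht : Y.Trk θ R i e S) {I : Finset α}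
    {B : α → Finset (V × Λ)} (hF : Y.Fam s b I B) {T : ℕ} (hT : T ≤ R) {σ : ℝ}
    (hσ : σ = 1 ∨ σ = -1)
    (hg : Y.gV θ R I B σ T i S ≤
      bV ((∑ p ∈ I, Y.f p) / N) σ (CC b s φ * (θ ^ 2 + θ * η) * N) T i) :
    Ex (Y.law (Y.pi θ i S)) (fun ω => Y.gV θ R I B σ T (i + 1) (Y.nxt S ω)) + θ ^ 2 * N
      ≤ bV ((∑ p ∈ I, Y.f p) / N) σ (CC b s φ * (θ ^ 2 + θ * η) * N) T (i + 1) := by
  have hN : (0 : ℝ) < N := by
    have := h.N1
    exact_mod_cast this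
  have hθ := h.θ0
  have hC := one_le_CC' b s h.φ0
  have hη : 0 ≤ η := he.trans heη
  have hx : θ ^ 2 * N ≤ CC b s φ * (θ ^ 2 + θ * η) * N := by
    have h1 : θ ^ 2 ≤ CC b s φ * (θ ^ 2 + θ * η) := by
      have h2 : 0 ≤ θ * η := mul_nonneg hθ.le hη
      have h3 : 0 ≤ θ ^ 2 := sq_nonneg θ
      nlinarith
    exact mul_le_mul_of_nonneg_right h1 hN.le
  by_cases hiT : i + 1 ≤ T
  · have h1 := Ex_VV h hκ hi he he1 hS ht hF (Nat.lt_of_succ_le hiT) hT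
    have hiT' : i ≤ T := (Nat.le_succ i).trans hiT
    have e1 : Ex (Y.law (Y.pi θ i S)) (fun ω => Y.gV θ R I B σ T (i + 1) (Y.nxt S ω)) =
        σ / N * Ex (Y.law (Y.pi θ i S)) (fun ω => Y.VV θ R I B T (i + 1) (Y.nxt S ω)) := by
      rw [← L.Ex_mul_left]
      congr 1
      funext ω
      unfold Sys.gV
      rw [if_pos hiT]
      ring
    rw [e1]
    unfold Sys.gV at hg
    unfold bV at hg ⊢
    rw [if_pos hiT'] at hg
    rw [if_pos hiT'] at hg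
    rw [if_pos hiT]
    set E1 := Ex (Y.law (Y.pi θ i S)) (fun ω => Y.VV θ R I B T (i + 1) (Y.nxt S ω)) with hE1
    set V0 := Y.VV θ R I B T i S with hV0
    set x := CC b s φ * (θ ^ 2 + θ * η) * N with hxd
    set F := (∑ p ∈ I, Y.f p) / N with hF0
    have h2 : σ / N * E1 ≤ σ * V0 / N + (CC b s φ - 1) * (θ ^ 2 + θ * e) * N := by
      have h3 : σ * (E1 - V0) ≤ (CC b s φ - 1) * (θ ^ 2 + θ * e) * N ^ 2 := by
        obtain ⟨h4, h5⟩ := abs_le.1 h1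
        rcases hσ with rfl | rfl
        · linarith
        · linarith
      have h6 : σ / N * E1 - σ * V0 / N = σ * (E1 - V0) / N := by ring
      have h7 : σ * (E1 - V0) / N ≤ (CC b s φ - 1) * (θ ^ 2 + θ * e) * N := by
        rw [div_le_iff₀ hN]
        calc σ * (E1 - V0) ≤ _ := h3
          _ = _ := by ring
      linarith
    have h8 : (CC b s φ - 1) * (θ ^ 2 + θ * e) * N + θ ^ 2 * N ≤ x := by
      have h9 : (CC b s φ - 1) * (θ ^ 2 + θ * e) + θ ^ 2 ≤ CC b s φ * (θ ^ 2 + θ * η) := by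
        have h10 : θ * e ≤ θ * η := mul_le_mul_of_nonneg_left heη hθ.le
        have h11 : 0 ≤ θ * η := mul_nonneg hθ.le hη
        have h12 : (CC b s φ - 1) * (θ ^ 2 + θ * e) ≤ (CC b s φ - 1) * (θ ^ 2 + θ * η) :=
          mul_le_mul_of_nonneg_left (by linarith) (by linarith)
        linarith
      calc _ = ((CC b s φ - 1) * (θ ^ 2 + θ * e) + θ ^ 2) * N := by ring
        _ ≤ (CC b s φ * (θ ^ 2 + θ * η)) * N := mul_le_mul_of_nonneg_right h9 hN.le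
        _ = x := by rw [hxd]
    push_cast
    linarith
  · have e1 : Ex (Y.law (Y.pi θ i S)) (fun ω => Y.gV θ R I B σ T (i + 1) (Y.nxt S ω)) = 0 := by
      have : (fun ω => Y.gV θ R I B σ T (i + 1) (Y.nxt S ω)) = fun _ => (0 : ℝ) := by
        funext ω
        unfold Sys.gV
        rw [if_neg hiT]
      rw [this]
      unfold Ex
      simp
    rw [e1]
    unfold bV
    rw [if_neg hiT]
    have h0 : 0 ≤ θ ^ 2 * N := by positivity
    have h1 : (1 : ℝ) ≤ ((i + 1 : ℕ) : ℝ) := by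
      push_cast
      have : (0 : ℝ) ≤ i := Nat.cast_nonneg i
      linarith
    have hx0 : 0 ≤ CC b s φ * (θ ^ 2 + θ * η) * N := h0.trans hx
    nlinarith

theorem gV_lip (h : Y.Hyp θ R b s φ W) {I : Finset α} {B : α → Finset (V × Λ)}
    (hF : Y.Fam s b I B) {T : ℕ} (hT : T ≤ R) {σ : ℝ} (hσ : σ = 1 ∨ σ = -1) (i : ℕ)
    (S : Finset α) (x : Fin N) {ω ω' : Fin N → Option α} (hω : ∀ y, y ≠ x → ω y = ω' y) :
    |Y.gV θ R I B σ T i (Y.nxt S ω) - Y.gV θ R I B σ T i (Y.nxt S ω')|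
      ≤ 6 * (φ⁻¹) ^ b * b * (2 + 2 * (b * s)) := by
  have hN : (0 : ℝ) < N := by
    have := h.N1
    exact_mod_cast this
  have hU : 0 ≤ (φ⁻¹) ^ b := pow_nonneg (inv_nonneg.2 h.φ0.le) _
  unfold Sys.gV
  by_cases hiT : i ≤ T
  · rw [if_pos hiT, if_pos hiT]
    have hK : ((Y.nxt S ω \ Y.nxt S ω') ∪ (Y.nxt S ω' \ Y.nxt S ω)).card ≤ 2 + 2 * (b * s) := by
      have h1 := lis Y h.cap_le S x hω
      have h2 : Fintype.card V * s ≤ b * s := Nat.mul_le_mul_right _ h.cardV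
      omega
    have h1 := lvv h hK hF hT hiT
    have h2 : σ * Y.VV θ R I B T i (Y.nxt S ω) / N - σ * Y.VV θ R I B T i (Y.nxt S ω') / N =
        σ * (Y.VV θ R I B T i (Y.nxt S ω) - Y.VV θ R I B T i (Y.nxt S ω')) / N := by ring
    rw [h2, abs_div, abs_mul, abs_of_pos hN, div_le_iff₀ hN]
    have h3 : |σ| = 1 := by
      rcases hσ with rfl | rfl
      · simp
      · simp
    rw [h3, one_mul]
    refine h1.trans (le_of_eq ?_)
    push_cast
    ring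
  · rw [if_neg hiT, if_neg hiT, sub_zero, abs_zero]
    positivity

end Pool.Agent.NKL
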