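import Pool.Agent.NKL.PHX
import Pool.Agent.NKL.EDefs

set_option autoImplicit false

/-!
# NKL / VVX : expectation of `VV` after one round

For every `p ∈ I` apply `Ex_item` to the set of lines
`(univ.image fun v => (v, line v p)) ∪ B p` (a disjoint union by `Fam.disj`, at most
`card V + |B p| ≤ b` lines), with `T L = T` for the lines through `p` and `T L = R` for those of
`B p`; multiply by `f p ≥ 0` and sum: `∑_{p ∈ I} f p ≤ 2 card α ≤ 2 N²` (`card_le`).
`VV_zero`: at time `0` with `S = ∅` all factors are `1` (`uu_top`).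
`VV_last` : for `i = T` the factors of the lines through `p` are `1[not full] FF⁻¹` (clear).
-/

namespace Pool.Agent.NKL

open Finset Pool.Agent.ChPi

variable {α V Λ : Type} [Fintype α] [DecidableEq α] [Fintype V] [DecidableEq V] [DecidableEq Λ]
  {N : ℕ} {Y : Sys α V Λ N} {θ φ W e : ℝ} {R b s i : ℕ} {S : Finset α}

private theorem vvx_prod (p : α) (B : Finset (V × Λ)) (hd : ∀ L ∈ B, L.2 ≠ Y.line L.1 p)
    (T R : ℕ) (g : V × Λ → ℕ → ℝ) :
    ∏ L ∈ ((univ : Finset V).image fun v => (v, Y.line v p)) ∪ B,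
        g L (if L.2 = Y.line L.1 p then T else R)
      = (∏ v, g (v, Y.line v p) T) * ∏ L ∈ B, g L R := by
  have hdis : Disjoint ((univ : Finset V).image fun v => (v, Y.line v p)) B := by
    rw [Finset.disjoint_left]
    intro L hL hLB
    obtain ⟨v, _, rfl⟩ := Finset.mem_image.1 hL
    exact hd _ hLB rfl
  have hinj : Set.InjOn (fun v : V => (v, Y.line v p)) ((univ : Finset V) : Set V) := by
    intro a _ c _ hac
    exact (Prod.mk.inj hac).1
  rw [Finset.prod_union hdis, Finset.prod_image hinj]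
  congr 1
  · exact Finset.prod_congr rfl fun v _ => by rw [if_pos rfl]
  · exact Finset.prod_congr rfl fun L hL => by rw [if_neg (hd L hL)]

private theorem vvx_sumf (h : Y.Hyp θ R b s φ W) (I : Finset α) :
    ∑ p ∈ I, Y.f p ≤ 2 * (N : ℝ) ^ 2 := by
  calc ∑ p ∈ I, Y.f p ≤ ∑ _p ∈ I, (2 : ℝ) := Finset.sum_le_sum fun p _ => h.ok.f_le p
    _ = 2 * (I.card : ℝ) := by rw [Finset.sum_const, nsmul_eq_mul, mul_comm]
    _ ≤ 2 * (N : ℝ) ^ 2 := by
        have h1 : I.card ≤ N ^ 2 := (Finset.card_le_univ I).trans (card_le h.ok)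
        have h2 : ((I.card : ℕ) : ℝ) ≤ ((N ^ 2 : ℕ) : ℝ) := by exact_mod_cast h1
        push_cast at h2
        linarith

theorem Ex_VV (h : Y.Hyp θ R b s φ W) (hκ : θ * W / N ≤ θ ^ 2) (hi : i < R) (he : 0 ≤ e)
    (he1 : e ≤ 1) (hS : Y.Valid S) (ht : Y.Trk θ R i e S) {I : Finset α}
    {B : α → Finset (V × Λ)} (hF : Y.Fam s b I B) {T : ℕ} (hiT : i < T) (hT : T ≤ R) :
    |Ex (Y.law (Y.pi θ i S)) (fun ω => Y.VV θ R I B T (i + 1) (Y.nxt S ω))
      - Y.VV θ R I B T i S| ≤ (CC b s φ - 1) * (θ ^ 2 + θ * e) * N ^ 2 := by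
  set E := (CC b s φ - 1) / 2 * (θ ^ 2 + θ * e) with hE
  have hE0 : 0 ≤ E := by
    have h1 := Ex_item h hκ hi he he1 hS ht ∅ (by simp) (fun _ => T) (fun _ _ => hiT)
      (fun _ _ => hT)
    exact (abs_nonneg _).trans h1
  have key : ∀ p ∈ I, |Ex (Y.law (Y.pi θ i S)) (fun ω =>
      (∏ v, uu θ (Y.mass v (Y.line v p)) (Y.cap v) T (T - (i + 1))
          (Y.cnt (Y.nxt S ω) v (Y.line v p))) *
        ∏ L ∈ B p, uu θ (Y.mass L.1 L.2) (Y.cap L.1) R (R - (i + 1))
          (Y.cnt (Y.nxt S ω) L.1 L.2))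
      - (∏ v, uu θ (Y.mass v (Y.line v p)) (Y.cap v) T (T - i) (Y.cnt S v (Y.line v p))) *
        ∏ L ∈ B p, uu θ (Y.mass L.1 L.2) (Y.cap L.1) R (R - i) (Y.cnt S L.1 L.2)| ≤ E := by
    intro p hp
    have hd := hF.disj p hp
    have hcard : (((univ : Finset V).image fun v => (v, Y.line v p)) ∪ B p).card ≤ b := by
      refine (Finset.card_union_le _ _).trans ?_
      have h1 : ((univ : Finset V).image fun v => (v, Y.line v p)).card ≤ Fintype.card V :=
        Finset.card_image_le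
      have h2 := hF.cardB p hp
      omega
    have h1 := Ex_item h hκ hi he he1 hS ht
      (((univ : Finset V).image fun v => (v, Y.line v p)) ∪ B p) hcard
      (fun L => if L.2 = Y.line L.1 p then T else R)
      (fun L _ => by
        split_ifs
        · exact hiT
        · exact hi)
      (fun L _ => by
        split_ifs
        · exact hT
        · exact le_rfl)
    have e1 : ∀ ω, ∏ L ∈ ((univ : Finset V).image fun v => (v, Y.line v p)) ∪ B p,
        uu θ (Y.mass L.1 L.2) (Y.cap L.1) (if L.2 = Y.line L.1 p then T else R)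
          ((if L.2 = Y.line L.1 p then T else R) - (i + 1)) (Y.cnt (Y.nxt S ω) L.1 L.2) =
        (∏ v, uu θ (Y.mass v (Y.line v p)) (Y.cap v) T (T - (i + 1))
          (Y.cnt (Y.nxt S ω) v (Y.line v p))) *
        ∏ L ∈ B p, uu θ (Y.mass L.1 L.2) (Y.cap L.1) R (R - (i + 1))
          (Y.cnt (Y.nxt S ω) L.1 L.2) := fun ω =>
      vvx_prod p (B p) hd T R (fun L t => uu θ (Y.mass L.1 L.2) (Y.cap L.1) t
          (t - (i + 1)) (Y.cnt (Y.nxt S ω) L.1 L.2))
    have e2 : ∏ L ∈ ((univ : Finset V).image fun v => (v, Y.line v p)) ∪ B p,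
        uu θ (Y.mass L.1 L.2) (Y.cap L.1) (if L.2 = Y.line L.1 p then T else R)
          ((if L.2 = Y.line L.1 p then T else R) - i) (Y.cnt S L.1 L.2) =
        (∏ v, uu θ (Y.mass v (Y.line v p)) (Y.cap v) T (T - i)
          (Y.cnt S v (Y.line v p))) *
        ∏ L ∈ B p, uu θ (Y.mass L.1 L.2) (Y.cap L.1) R (R - i)
          (Y.cnt S L.1 L.2) :=
      vvx_prod p (B p) hd T R (fun L t => uu θ (Y.mass L.1 L.2) (Y.cap L.1) t
          (t - i) (Y.cnt S L.1 L.2))
    simp only [e1, e2] at h1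
    exact h1
  have hEx : Ex (Y.law (Y.pi θ i S)) (fun ω => Y.VV θ R I B T (i + 1) (Y.nxt S ω)) =
      ∑ p ∈ I, Y.f p * Ex (Y.law (Y.pi θ i S)) (fun ω =>
        (∏ v, uu θ (Y.mass v (Y.line v p)) (Y.cap v) T (T - (i + 1))
          (Y.cnt (Y.nxt S ω) v (Y.line v p))) *
        ∏ L ∈ B p, uu θ (Y.mass L.1 L.2) (Y.cap L.1) R (R - (i + 1))
          (Y.cnt (Y.nxt S ω) L.1 L.2)) := by
    unfold Sys.VV
    rw [L.Ex_sum]
    exact Finset.sum_congr rfl fun p _ => L.Ex_mul_left _ _ _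
  rw [hEx]
  unfold Sys.VV
  rw [← Finset.sum_sub_distrib]
  refine (Finset.abs_sum_le_sum_abs _ _).trans ?_
  calc _ ≤ ∑ p ∈ I, Y.f p * E := by
        refine Finset.sum_le_sum fun p hp => ?_
        rw [← mul_sub, abs_mul, abs_of_nonneg (h.ok.f_nonneg p)]
        exact mul_le_mul_of_nonneg_left (key p hp) (h.ok.f_nonneg p)
    _ = (∑ p ∈ I, Y.f p) * E := by rw [Finset.sum_mul]
    _ ≤ (2 * (N : ℝ) ^ 2) * E := mul_le_mul_of_nonneg_right (vvx_sumf h I) hE0
    _ = (CC b s φ - 1) * (θ ^ 2 + θ * e) * N ^ 2 := by rw [hE]; ring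

theorem VV_zero (h : Y.Hyp θ R b s φ W) (I : Finset α) (B : α → Finset (V × Λ)) {T : ℕ}
    (hT : T ≤ R) : Y.VV θ R I B T 0 ∅ = ∑ p ∈ I, Y.f p := by
  have hc : ∀ (v : V) (l : Λ), Y.cnt ∅ v l = 0 := fun v l => by
    unfold Sys.cnt
    rw [Finset.filter_empty, Finset.card_empty]
  unfold Sys.VV
  refine Finset.sum_congr rfl fun p _ => ?_
  have h1 : ∏ v, uu θ (Y.mass v (Y.line v p)) (Y.cap v) T (T - 0) (Y.cnt ∅ v (Y.line v p)) = 1 :=
    Finset.prod_eq_one fun v _ => by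
      rw [hc, Nat.sub_zero]
      exact uu_top (h.ch v (Y.line v p)) hT
  have h2 : ∏ L ∈ B p, uu θ (Y.mass L.1 L.2) (Y.cap L.1) R (R - 0) (Y.cnt ∅ L.1 L.2) = 1 :=
    Finset.prod_eq_one fun L _ => by
      rw [hc, Nat.sub_zero]
      exact uu_top (h.ch L.1 L.2) le_rfl
  rw [h1, h2, mul_one, mul_one]

end Pool.Agent.NKL
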